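import Pool.Agent.PPW.Stmts

/-! Squad PPW, module BAL: a determinant bound of Ball type. -/

set_option autoImplicit false

namespace PPW

open MeasureTheory Set Filter Topology ProbabilityTheory
open PPI PPG PPX
open scoped Pointwise ENNReal

namespace BAL_

variable {n : ℕ} {ι : Type}

theorem inner_eq (a b : EE n) : (inner ℝ a b : ℝ) = ∑ k, a k * b k := by
  rw [PiLp.inner_apply]
  refine Finset.sum_congr rfl fun k _ => ?_
  simp [mul_comm]

theorem quad_sm (S : Finset ι) (α : ι → ℝ) (u : ι → EE n) (x : EE n) :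
    (x : Fin n → ℝ) ⬝ᵥ ((sm S α u).mulVec (x : Fin n → ℝ)) =
      ∑ i ∈ S, α i * (inner ℝ (u i) x) ^ 2 := by
  unfold sm
  simp only [dotProduct, Matrix.mulVec, Matrix.of_apply, inner_eq]
  have e1 : ∀ i ∈ S, α i * (∑ k, u i k * x k) ^ 2 =
      ∑ k, ∑ l, x k * (α i * (u i k * u i l) * x l) := by
    intro i _
    rw [sq, Finset.sum_mul_sum, Finset.mul_sum]
    refine Finset.sum_congr rfl fun k _ => ?_
    rw [Finset.mul_sum]
    refine Finset.sum_congr rfl fun l _ => ?_
    ring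
  rw [Finset.sum_congr rfl e1, Finset.sum_comm]
  refine Finset.sum_congr rfl fun k _ => ?_
  rw [Finset.sum_comm, Finset.mul_sum]
  refine Finset.sum_congr rfl fun l _ => ?_
  rw [Finset.sum_mul, Finset.mul_sum]

theorem sm_symm (S : Finset ι) (α : ι → ℝ) (u : ι → EE n) :
    (sm S α u).IsHermitian := by
  refine Matrix.IsHermitian.ext fun k l => ?_
  simp only [sm, Matrix.of_apply, star_trivial]
  refine Finset.sum_congr rfl fun i _ => ?_
  ring

theorem jens (S : Finset ι) (v x : ι → ℝ) (q : ℝ) (hv : ∀ i ∈ S, 0 ≤ v i) (hq : 0 ≤ q)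
    (h1 : q + ∑ i ∈ S, v i = 1) :
    Real.exp (∑ i ∈ S, v i * x i) ≤ q + ∑ i ∈ S, v i * Real.exp (x i) := by
  set y := ∑ i ∈ S, v i * x i with hy
  have h2 : ∀ t : ℝ, Real.exp y * (1 + t - y) ≤ Real.exp t := by
    intro t
    have := Real.add_one_le_exp (t - y)
    have e : Real.exp t = Real.exp y * Real.exp (t - y) := by rw [← Real.exp_add]; ring_nf
    rw [e]
    apply mul_le_mul_of_nonneg_left _ (Real.exp_pos y).le
    linarith
  have h3 : ∑ i ∈ S, v i * (Real.exp y * (1 + x i - y)) ≤ ∑ i ∈ S, v i * Real.exp (x i) :=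
    Finset.sum_le_sum fun i hi => mul_le_mul_of_nonneg_left (h2 _) (hv i hi)
  have h4 : q * (Real.exp y * (1 + 0 - y)) ≤ q * 1 := by
    apply mul_le_mul_of_nonneg_left _ hq
    simpa using h2 0
  have h5 : ∑ i ∈ S, v i * (Real.exp y * (1 + x i - y)) =
      Real.exp y * ((1 - y) * ∑ i ∈ S, v i + y) := by
    rw [hy, ← hy, Finset.mul_sum, mul_add, Finset.mul_sum]
    conv_rhs => rw [hy, Finset.mul_sum, ← hy]
    rw [← Finset.sum_add_distrib]
    refine Finset.sum_congr rfl fun i _ => ?_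
    ring
  have h6 : ∑ i ∈ S, v i = 1 - q := by linarith
  rw [h5, h6] at h3
  nlinarith [h3, h4]

end BAL_

theorem bal_proof : Stmt_BAL := by
  intro n ι _ S μ α h hμ hα hN0
  set N := (1 : Matrix (Fin n) (Fin n) ℝ) - sm S (fun i => μ i * (1 - α i)) h with hNdef
  have hN : N.IsHermitian := Matrix.isHermitian_one.sub (BAL_.sm_symm _ _ _)
  have hdet : N.det = ∏ k, hN.eigenvalues k := by
    have := hN.det_eq_prod_eigenvalues
    simpa using this
  have hkey : ∀ k, Real.exp (∑ i ∈ S, μ i * (inner ℝ (h i) (hN.eigenvectorBasis k)) ^ 2 *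
      Real.log (α i)) ≤ hN.eigenvalues k := by
    intro k
    set e := hN.eigenvectorBasis k with he
    have hne : ‖e‖ = 1 := hN.eigenvectorBasis.norm_eq_one k
    have hee : (e : Fin n → ℝ) ⬝ᵥ (e : Fin n → ℝ) = 1 := by
      have := BAL_.inner_eq e e
      rw [real_inner_self_eq_norm_sq, hne] at this
      simp only [dotProduct]
      linarith
    have hl : hN.eigenvalues k = 1 - ∑ i ∈ S, μ i * (1 - α i) * (inner ℝ (h i) e) ^ 2 := by
      have h1 := hN.eigenvalues_eq k
      rw [h1]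
      have h2 := BAL_.quad_sm S (fun i => μ i * (1 - α i)) h e
      rw [← h2]
      simp only [star_trivial, hNdef, Matrix.sub_mulVec, Matrix.one_mulVec, dotProduct_sub]
      rw [← he, hee]
      rfl
    have hq : 0 ≤ 1 - ∑ i ∈ S, μ i * (inner ℝ (h i) e) ^ 2 := by
      have h3 := hN0.dotProduct_mulVec_nonneg (e : Fin n → ℝ)
      have h2 := BAL_.quad_sm S μ h e
      simp only [star_trivial, Matrix.sub_mulVec, Matrix.one_mulVec, dotProduct_sub] at h3
      rw [hee, h2] at h3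
      exact h3
    have hj := BAL_.jens S (fun i => μ i * (inner ℝ (h i) e) ^ 2) (fun i => Real.log (α i))
      (1 - ∑ i ∈ S, μ i * (inner ℝ (h i) e) ^ 2) (fun i hi => mul_nonneg (hμ i hi) (sq_nonneg _))
      hq (by ring)
    refine hj.trans (le_of_eq ?_)
    rw [hl]
    have h5 : ∑ i ∈ S, μ i * (inner ℝ (h i) e) ^ 2 * Real.exp (Real.log (α i)) =
        ∑ i ∈ S, μ i * (inner ℝ (h i) e) ^ 2 * α i :=
      Finset.sum_congr rfl fun i hi => by rw [Real.exp_log (hα i hi)]
    rw [h5]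
    have h6 : ∑ i ∈ S, μ i * (1 - α i) * (inner ℝ (h i) e) ^ 2 =
        ∑ i ∈ S, μ i * (inner ℝ (h i) e) ^ 2 - ∑ i ∈ S, μ i * (inner ℝ (h i) e) ^ 2 * α i := by
      rw [← Finset.sum_sub_distrib]
      exact Finset.sum_congr rfl fun i _ => by ring
    rw [h6]
    ring
  rw [hdet]
  have hsum : ∑ i ∈ S, μ i * ‖h i‖ ^ 2 * Real.log (α i) =
      ∑ k, ∑ i ∈ S, μ i * (inner ℝ (h i) (hN.eigenvectorBasis k)) ^ 2 * Real.log (α i) := by
    rw [Finset.sum_comm]
    refine Finset.sum_congr rfl fun i _ => ?_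
    rw [← Finset.sum_mul, ← Finset.mul_sum]
    congr 2
    have := hN.eigenvectorBasis.sum_sq_norm_inner_left (h i)
    rw [← this]
    refine Finset.sum_congr rfl fun k _ => ?_
    rw [Real.norm_eq_abs, sq_abs]
  rw [hsum, Real.exp_sum]
  exact Finset.prod_le_prod (fun k _ => (Real.exp_pos _).le) fun k _ => hkey k

end PPW
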