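import Pool.Agent.PPW.Stmts

/-! Squad PPW, module BBB: the special part in terms of the projection. -/

set_option autoImplicit false

namespace PPW

open MeasureTheory Set Filter Topology ProbabilityTheory
open PPI PPG PPX
open scoped Pointwise ENNReal

namespace BBB_

variable {n m : ℕ}

theorem orth {P : EE n →L[ℝ] EE n} (hP : PR m P) (x y : EE n) :
    inner ℝ (P x) (y - P y) = (0 : ℝ) := by
  rw [inner_sub_right, hP.sym x y, hP.sym x (P y), hP.idem y, sub_self]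

theorem split {P : EE n →L[ℝ] EE n} (hP : PR m P) (x y : EE n) :
    inner ℝ x y = (inner ℝ (P x) (P y) : ℝ) + inner ℝ (x - P x) (y - P y) := by
  have h1 := orth hP x y
  have h2 := orth hP y x
  rw [real_inner_comm] at h2
  rw [inner_sub_left, inner_sub_right] at *
  rw [inner_sub_right, h1] at *
  have h3 : inner ℝ (x - P x) (P y) = (0 : ℝ) := by
    rw [real_inner_comm]; exact orth hP y x
  rw [inner_sub_left] at h3
  have h4 := orth hP x y
  rw [inner_sub_right] at h4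
  linarith

theorem le_one {P : EE n →L[ℝ] EE n} (hP : PR m P) (x : EE n) (hx : ‖x‖ = 1) :
    ‖x - P x‖ ^ 2 ≤ 1 := by
  have h := split hP x x
  rw [real_inner_self_eq_norm_sq, real_inner_self_eq_norm_sq, real_inner_self_eq_norm_sq, hx] at h
  nlinarith [sq_nonneg ‖P x‖]

end BBB_

theorem bbb_proof : Stmt_BBB := by
  intro n m ι _ S p w P Λ hn hIS hP hΛ
  have hΛ0 : 0 ≤ Λ := by
    have h := hΛ (EuclideanSpace.single (⟨0, hn⟩ : Fin n) (1 : ℝ))
    have h1 : ‖(EuclideanSpace.single (⟨0, hn⟩ : Fin n) (1 : ℝ) : EE n)‖ = 1 := by simp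
    rw [h1] at h
    have h2 : 0 ≤ (n : ℝ) * ∑ i ∈ S, p i * (inner ℝ (w i - P (w i))
        (EuclideanSpace.single (⟨0, hn⟩ : Fin n) (1 : ℝ) : EE n)) ^ 2 := by
      apply mul_nonneg (Nat.cast_nonneg n)
      exact Finset.sum_nonneg fun i _ => mul_nonneg (hIS.ppos i).le (sq_nonneg _)
    linarith
  have hn0 : (0 : ℝ) ≤ n := Nat.cast_nonneg n
  have hA : (n : ℝ) ^ 2 * ∑ i ∈ S, ∑ j ∈ S, p i * p j *
      (inner ℝ (w i - P (w i)) (w j - P (w j))) ^ 2 ≤ Λ * (n * ∑ i ∈ S, p i) := by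
    have e1 : (n : ℝ) ^ 2 * ∑ i ∈ S, ∑ j ∈ S, p i * p j *
        (inner ℝ (w i - P (w i)) (w j - P (w j))) ^ 2 =
        ∑ i ∈ S, (n * p i) * ((n : ℝ) * ∑ j ∈ S, p j *
          (inner ℝ (w j - P (w j)) (w i - P (w i))) ^ 2) := by
      rw [Finset.mul_sum]
      refine Finset.sum_congr rfl fun i _ => ?_
      rw [Finset.mul_sum, Finset.mul_sum, Finset.mul_sum]
      refine Finset.sum_congr rfl fun j _ => ?_
      rw [real_inner_comm (w i - P (w i)) (w j - P (w j))]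
      ring
    rw [e1]
    calc ∑ i ∈ S, (n * p i) * ((n : ℝ) * ∑ j ∈ S, p j *
          (inner ℝ (w j - P (w j)) (w i - P (w i))) ^ 2)
        ≤ ∑ i ∈ S, (n * p i) * Λ := by
          refine Finset.sum_le_sum fun i _ => ?_
          apply mul_le_mul_of_nonneg_left _ (mul_nonneg hn0 (hIS.ppos i).le)
          refine (hΛ (w i - P (w i))).trans ?_
          have := BBB_.le_one hP (w i) (hIS.nrm i)
          nlinarith
      _ = Λ * (n * ∑ i ∈ S, p i) := by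
          rw [Finset.mul_sum, Finset.mul_sum]
          refine Finset.sum_congr rfl fun i _ => ?_
          ring
  refine ⟨hA, ?_⟩
  have hB : ∀ i j, (inner ℝ (w i) (w j) : ℝ) ^ 2 ≤ 2 * (‖P (w i)‖ ^ 2 * ‖P (w j)‖ ^ 2) +
      2 * (inner ℝ (w i - P (w i)) (w j - P (w j))) ^ 2 := by
    intro i j
    rw [BBB_.split hP (w i) (w j)]
    have h1 : (inner ℝ (P (w i)) (P (w j)) : ℝ) ^ 2 ≤ ‖P (w i)‖ ^ 2 * ‖P (w j)‖ ^ 2 := by
      have := abs_real_inner_le_norm (P (w i)) (P (w j))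
      rw [← mul_pow, ← sq_abs]
      exact pow_le_pow_left₀ (abs_nonneg _) this 2
    nlinarith [sq_nonneg ((inner ℝ (P (w i)) (P (w j)) : ℝ) -
      inner ℝ (w i - P (w i)) (w j - P (w j)))]
  have hC : B2 S p w ≤ (n : ℝ) ^ 2 * ∑ i ∈ S, ∑ j ∈ S, p i * p j *
      (2 * (‖P (w i)‖ ^ 2 * ‖P (w j)‖ ^ 2) +
      2 * (inner ℝ (w i - P (w i)) (w j - P (w j))) ^ 2) := by
    unfold B2
    apply mul_le_mul_of_nonneg_left _ (by positivity)
    refine Finset.sum_le_sum fun i _ => Finset.sum_le_sum fun j _ => ?_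
    exact mul_le_mul_of_nonneg_left (hB i j) (mul_nonneg (hIS.ppos i).le (hIS.ppos j).le)
  refine hC.trans ?_
  have hD : (n : ℝ) ^ 2 * ∑ i ∈ S, ∑ j ∈ S, p i * p j *
      (2 * (‖P (w i)‖ ^ 2 * ‖P (w j)‖ ^ 2) +
      2 * (inner ℝ (w i - P (w i)) (w j - P (w j))) ^ 2) =
      2 * (n * ∑ i ∈ S, p i * ‖P (w i)‖ ^ 2) ^ 2 + 2 * ((n : ℝ) ^ 2 * ∑ i ∈ S, ∑ j ∈ S, p i * p j *
      (inner ℝ (w i - P (w i)) (w j - P (w j))) ^ 2) := by
    have e2 : (∑ i ∈ S, p i * ‖P (w i)‖ ^ 2) ^ 2 =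
        ∑ i ∈ S, ∑ j ∈ S, p i * p j * (‖P (w i)‖ ^ 2 * ‖P (w j)‖ ^ 2) := by
      rw [sq, Finset.sum_mul_sum]
      refine Finset.sum_congr rfl fun i _ => Finset.sum_congr rfl fun j _ => ?_
      ring
    rw [mul_pow, e2]
    have e3 : ∀ i j, p i * p j * (2 * (‖P (w i)‖ ^ 2 * ‖P (w j)‖ ^ 2) +
      2 * (inner ℝ (w i - P (w i)) (w j - P (w j))) ^ 2) =
      2 * (p i * p j * (‖P (w i)‖ ^ 2 * ‖P (w j)‖ ^ 2)) + 2 * (p i * p j *
      (inner ℝ (w i - P (w i)) (w j - P (w j))) ^ 2) := by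
      intro i j; ring
    simp only [e3, Finset.sum_add_distrib, ← Finset.mul_sum]
    ring
  rw [hD]
  linarith

end PPW
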