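import Pool.Agent.PPW.Stmts2

/-!
# Module CPT: compactness.
-/

set_option autoImplicit false

namespace PPW

open MeasureTheory Set Filter Topology ProbabilityTheory
open PPI PPG PPX
open scoped Pointwise ENNReal

namespace CPT_

variable {n : ℕ}

theorem vl_smul (s : ℝ) (hs : 0 ≤ s) (S : Set (EE n)) : vl (s • S) = s ^ n * vl S := by
  unfold vl
  rw [Measure.addHaar_smul, ENNReal.toReal_mul]
  have e1 : Module.finrank ℝ (EE n) = n := by simp
  rw [e1, abs_of_nonneg (by positivity), ENNReal.toReal_ofReal (by positivity)]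

theorem vl_mono {S S' : Set (EE n)} (h : S ⊆ S') (hS' : IsCompact S') : vl S ≤ vl S' := by
  unfold vl
  exact ENNReal.toReal_mono hS'.measure_lt_top.ne (measure_mono h)

theorem cpt_sum (P : Set (EE n)) (hP : IsCompact P) (A : EE n →L[ℝ] EE n) (t : ℝ) :
    IsCompact (P + t • (A '' Bn n)) := by
  have h1 : IsCompact (Bn n) := isCompact_closedBall _ _
  exact hP.add ((h1.image A.continuous).smul t)

/-- many disjoint balls -/
theorem balls (P : Set (EE n)) (A : EE n →L[ℝ] EE n) (ρ : ℝ) (hρ : 0 < ρ)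
    (hPb : Metric.closedBall (0 : EE n) (ρ / 2) ⊆ P) (u : EE n) (hu : ‖u‖ ≤ 1) (N : ℕ)
    (hN : N * ρ ≤ ‖A u‖) :
    (N : ℝ≥0∞) * volume (Metric.ball (0 : EE n) (ρ / 2)) ≤
      volume (P + (1 : ℝ) • (A '' Bn n)) := by
  rcases Nat.eq_zero_or_pos N with h0 | hpos
  · simp [h0]
  have hNr : (0 : ℝ) < N := by exact_mod_cast hpos
  set c : ℕ → EE n := fun j => ((j : ℝ) / N) • A u with hc
  have hdisj : Set.PairwiseDisjoint (↑(Finset.range N) : Set ℕ)
      (fun j => Metric.ball (c j) (ρ / 2)) := by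
    intro i _ j _ hij
    apply Metric.ball_disjoint_ball
    rw [hc, dist_eq_norm]
    simp only
    rw [← sub_smul, norm_smul]
    have h1 : 1 ≤ |(i : ℝ) - j| := by
      have h2 : (1 : ℤ) ≤ |(i : ℤ) - j| := by
        apply Int.one_le_abs
        intro h
        apply hij
        omega
      have h3 : ((1 : ℤ) : ℝ) ≤ ((|(i : ℤ) - j| : ℤ) : ℝ) := by exact_mod_cast h2
      push_cast at h3
      simpa using h3
    have h2 : ‖(i : ℝ) / N - j / N‖ = |(i : ℝ) - j| / N := by
      rw [← sub_div, Real.norm_eq_abs, abs_div, abs_of_pos hNr]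
    rw [h2]
    calc ρ / 2 + ρ / 2 = 1 / N * (N * ρ) := by field_simp; ring
      _ ≤ |(i : ℝ) - j| / N * ‖A u‖ := by
          apply mul_le_mul _ hN (by positivity) (by positivity)
          gcongr
  have hsub : (⋃ j ∈ Finset.range N, Metric.ball (c j) (ρ / 2)) ⊆
      P + (1 : ℝ) • (A '' Bn n) := by
    intro y hy
    simp only [mem_iUnion] at hy
    obtain ⟨j, hj, hy⟩ := hy
    rw [Finset.mem_range] at hj
    refine Set.mem_add.2 ⟨y - c j, ?_, c j, ?_, by abel⟩
    · apply hPb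
      rw [Metric.mem_closedBall, dist_zero_right]
      rw [Metric.mem_ball, dist_eq_norm] at hy
      exact hy.le
    · rw [one_smul]
      refine ⟨((j : ℝ) / N) • u, ?_, ?_⟩
      · rw [Bn, Metric.mem_closedBall, dist_zero_right, norm_smul, Real.norm_of_nonneg
          (by positivity)]
        have h1 : (j : ℝ) / N ≤ 1 := by
          rw [div_le_one hNr]
          exact_mod_cast hj.le
        calc (j : ℝ) / N * ‖u‖ ≤ 1 * 1 := mul_le_mul h1 hu (norm_nonneg _) zero_le_one
          _ = 1 := one_mul 1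
      · rw [map_smul]
  calc (N : ℝ≥0∞) * volume (Metric.ball (0 : EE n) (ρ / 2))
      = ∑ j ∈ Finset.range N, volume (Metric.ball (c j) (ρ / 2)) := by
        rw [Finset.sum_congr rfl (fun j _ => Measure.addHaar_ball_center volume (c j) (ρ / 2))]
        rw [Finset.sum_const, Finset.card_range, nsmul_eq_mul]
    _ = volume (⋃ j ∈ Finset.range N, Metric.ball (c j) (ρ / 2)) :=
        (measure_biUnion_finset hdisj (fun j _ => Metric.isOpen_ball.measurableSet)).symm
    _ ≤ _ := measure_mono hsub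

/-- the inclusion -/
theorem incl (K P : Set (EE n)) (A A' : EE n →L[ℝ] EE n) (hPc : Convex ℝ P) (δ ρ t : ℝ)
    (hδ0 : 0 < δ) (hδ1 : δ < 1) (hρ : 0 < ρ) (ht : 0 ≤ t)
    (hKb : Metric.closedBall (0 : EE n) ρ ⊆ K) (hPK : (1 - δ) • K ⊆ P) :
    K + t • (A '' Bn n) ⊆ ((1 - δ)⁻¹ * (1 + t * ‖A - A'‖ / ρ)) • (P + t • (A' '' Bn n)) := by
  have h1δ : 0 < 1 - δ := by linarith
  set η : ℝ := t * ‖A - A'‖ / ρ with hη
  have hη0 : 0 ≤ η := by positivity
  set s : ℝ := (1 - δ)⁻¹ * (1 + η) with hs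
  have hs1 : 1 ≤ s := by
    rw [hs]
    have : 1 ≤ (1 - δ)⁻¹ := (one_le_inv₀ h1δ).2 (by linarith)
    nlinarith
  have hs0 : 0 < s := by linarith
  rintro y hy
  obtain ⟨x, hx, z, hz, rfl⟩ := Set.mem_add.1 hy
  obtain ⟨z', hz', rfl⟩ := Set.mem_smul_set.1 hz
  obtain ⟨b, hb, rfl⟩ := hz'
  rw [Bn, Metric.mem_closedBall, dist_zero_right] at hb
  -- the error
  have hw : ‖t • ((A - A') b)‖ ≤ η * ρ := by
    rw [norm_smul, Real.norm_of_nonneg ht, hη]
    have h2 : ‖(A - A') b‖ ≤ ‖A - A'‖ := by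
      calc ‖(A - A') b‖ ≤ ‖A - A'‖ * ‖b‖ := (A - A').le_opNorm b
        _ ≤ ‖A - A'‖ * 1 := mul_le_mul_of_nonneg_left hb (norm_nonneg _)
        _ = _ := mul_one _
    calc t * ‖(A - A') b‖ ≤ t * ‖A - A'‖ := mul_le_mul_of_nonneg_left h2 ht
      _ = t * ‖A - A'‖ / ρ * ρ := by field_simp
  obtain ⟨k', hk', hwk⟩ : ∃ k' ∈ K, t • ((A - A') b) = η • k' := by
    rcases hη0.eq_or_lt with h | h
    · refine ⟨0, hKb (by simp [hρ.le]), ?_⟩
      rw [← h, zero_mul] at hw
      rw [norm_le_zero_iff.1 hw, ← h, zero_smul]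
    · refine ⟨η⁻¹ • (t • ((A - A') b)), hKb ?_, ?_⟩
      · rw [Metric.mem_closedBall, dist_zero_right, norm_smul, norm_inv,
          Real.norm_of_nonneg h.le]
        rw [inv_mul_le_iff₀ h]
        exact hw
      · rw [smul_smul, mul_inv_cancel₀ h.ne', one_smul]
  have hp : (1 - δ) • x ∈ P := hPK (Set.smul_mem_smul_set hx)
  have hp' : (1 - δ) • k' ∈ P := hPK (Set.smul_mem_smul_set hk')
  have hp'' : (1 + η)⁻¹ • ((1 - δ) • x) + (η * (1 + η)⁻¹) • ((1 - δ) • k') ∈ P := by
    apply hPc hp hp' (by positivity) (by positivity)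
    field_simp
  refine Set.mem_smul_set.2 ⟨((1 + η)⁻¹ • ((1 - δ) • x) + (η * (1 + η)⁻¹) • ((1 - δ) • k')) +
    t • A' (s⁻¹ • b), Set.mem_add.2 ⟨_, hp'', _, Set.smul_mem_smul_set ⟨s⁻¹ • b, ?_, rfl⟩, rfl⟩, ?_⟩
  · rw [Bn, Metric.mem_closedBall, dist_zero_right, norm_smul, norm_inv,
      Real.norm_of_nonneg hs0.le, inv_mul_le_iff₀ hs0]
    linarith
  · have e1 : t • A b = t • A' b + t • ((A - A') b) := by
      rw [← smul_add]
      simp
    rw [e1, hwk, smul_add, smul_add, map_smul]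
    have e2 : s • t • s⁻¹ • A' b = t • A' b := by
      rw [smul_smul, smul_smul]
      congr 1
      field_simp
    have h1η : 1 + η ≠ 0 := by positivity
    have e3 : s • (1 + η)⁻¹ • (1 - δ) • x = x := by
      rw [smul_smul, smul_smul]
      have : s * (1 + η)⁻¹ * (1 - δ) = 1 := by
        rw [hs]; field_simp
      rw [this, one_smul]
    have e4 : s • (η * (1 + η)⁻¹) • (1 - δ) • k' = η • k' := by
      rw [smul_smul, smul_smul]
      congr 1
      rw [hs]; field_simp
    rw [e2, e3, e4]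
    abel

end CPT_

open CPT_ in
theorem cpt_proof (hAVE : PPI.Stmt_AVE) : Stmt_CPT := by
  intro n K hn hKc hK h0 hP
  obtain ⟨hkap, -⟩ := hAVE n hn
  -- choose the sequences
  have hδ : ∀ k : ℕ, 0 < 1 / ((k : ℝ) + 2) ∧ 1 / ((k : ℝ) + 2) ≤ 1 / 2 := by
    intro k
    have : (0 : ℝ) ≤ k := Nat.cast_nonneg k
    constructor
    · positivity
    · apply one_div_le_one_div_of_le (by norm_num)
      linarith
  set δ : ℕ → ℝ := fun k => 1 / ((k : ℝ) + 2) with hδd
  have hδ1 : ∀ k, δ k < 1 := fun k => by have := (hδ k).2; linarith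
  choose P A r hPc hPconv hPK hKP hdet hr hvol using fun k => hP (δ k) (hδ k).1 (hδ1 k)
  obtain ⟨ρ, hρ, hρK⟩ : ∃ ρ > 0, Metric.closedBall (0 : EE n) ρ ⊆ K := by
    have h1 : K ∈ 𝓝 (0 : EE n) := mem_interior_iff_mem_nhds.1 h0
    obtain ⟨ε, hε, h2⟩ := Metric.mem_nhds_iff.1 h1
    exact ⟨ε / 2, by positivity, (Metric.closedBall_subset_ball (by linarith)).trans h2⟩
  have hvK : 0 < vl K := by
    unfold vl
    apply ENNReal.toReal_pos _ hK.measure_lt_top.ne
    have h1 : K ∈ 𝓝 (0 : EE n) := mem_interior_iff_mem_nhds.1 h0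
    exact (Measure.measure_pos_of_mem_nhds volume h1).ne'
  have hvPle : ∀ k, vl (P k) ≤ vl K := fun k => vl_mono (hPK k) hK
  have hvPge : ∀ k, (1 - δ k) ^ n * vl K ≤ vl (P k) := by
    intro k
    rw [← vl_smul (1 - δ k) (by linarith [hδ1 k]) K]
    exact vl_mono (hKP k) (hPc k)
  have hvP : ∀ k, 0 < vl (P k) := by
    intro k
    refine lt_of_lt_of_le ?_ (hvPge k)
    have : 0 < 1 - δ k := by linarith [hδ1 k]
    positivity
  have hPb : ∀ k, Metric.closedBall (0 : EE n) (ρ / 2) ⊆ P k := by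
    intro k x hx
    apply hKP k
    have h1 : 0 < 1 - δ k := by linarith [hδ1 k]
    have h2 : 1 / 2 ≤ 1 - δ k := by linarith [(hδ k).2]
    refine Set.mem_smul_set.2 ⟨(1 - δ k)⁻¹ • x, hρK ?_, ?_⟩
    · rw [Metric.mem_closedBall, dist_zero_right] at hx ⊢
      rw [norm_smul, norm_inv, Real.norm_of_nonneg h1.le, inv_mul_le_iff₀ h1]
      nlinarith
    · rw [smul_smul, mul_inv_cancel₀ h1.ne', one_smul]
  have hr0 : ∀ k, 0 ≤ r k := by
    intro k
    by_contra hneg
    push Not at hneg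
    have h1 := hvol k (-(1 / r k)) (by
      rw [neg_nonneg]
      exact (one_div_neg.2 hneg).le)
    have e : 1 + -(1 / r k) * r k = 0 := by
      have := hneg.ne
      field_simp
      ring
    rw [e, zero_pow (by omega), mul_zero] at h1
    have h2 : vl (P k) ≤ vl (P k + (-(1 / r k)) • (A k '' Bn n)) := by
      apply vl_mono _ (cpt_sum _ (hPc k) _ _)
      intro x hx
      refine Set.mem_add.2 ⟨x, hx, 0, ?_, add_zero x⟩
      refine Set.mem_smul_set.2 ⟨0, ⟨0, ?_, map_zero _⟩, smul_zero _⟩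
      simp [Bn]
    linarith [hvP k]
  -- boundedness
  obtain ⟨C, hC⟩ : ∃ C : ℝ, ∀ k, ‖A k‖ ≤ C := by
    set b : ℝ := (volume (Metric.ball (0 : EE n) (ρ / 2))).toReal with hb
    have hbpos : 0 < b := by
      rw [hb]
      exact ENNReal.toReal_pos (Metric.measure_ball_pos _ _ (by positivity)).ne'
        measure_ball_lt_top.ne
    refine ⟨ρ * (vl K * 3 ^ n / b + 1), fun k => ?_⟩
    apply ContinuousLinearMap.opNorm_le_of_unit_norm (by positivity)
    intro u hu
    set N : ℕ := ⌊‖A k u‖ / ρ⌋₊ with hN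
    have hN1 : (N : ℝ) * ρ ≤ ‖A k u‖ := by
      have := Nat.floor_le (show 0 ≤ ‖A k u‖ / ρ by positivity)
      rwa [← hN, le_div_iff₀ hρ] at this
    have hN2 : ‖A k u‖ ≤ ρ * (N + 1) := by
      have := (Nat.lt_floor_add_one (‖A k u‖ / ρ)).le
      rw [← hN, div_le_iff₀ hρ] at this
      linarith
    have h1 := balls (P k) (A k) ρ hρ (hPb k) u hu.le N hN1
    have h2 := hvol k 1 zero_le_one
    have h3 : (N : ℝ) * b ≤ vl (P k + (1 : ℝ) • (A k '' Bn n)) := by
      have h4 := ENNReal.toReal_mono (cpt_sum _ (hPc k) (A k) 1).measure_lt_top.ne h1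
      rw [ENNReal.toReal_mul, ENNReal.toReal_natCast] at h4
      exact h4
    have h5 : vl (P k) * (1 + 1 * r k) ^ n ≤ vl K * 3 ^ n := by
      apply mul_le_mul (hvPle k) _ (by have := hr0 k; positivity) hvK.le
      apply pow_le_pow_left₀ (by have := hr0 k; positivity)
      have := hr k
      have := (hδ k).2
      linarith
    have h6 : (N : ℝ) ≤ vl K * 3 ^ n / b := by
      rw [le_div_iff₀ hbpos]
      linarith
    calc ‖A k u‖ ≤ ρ * (N + 1) := hN2
      _ ≤ ρ * (vl K * 3 ^ n / b + 1) := by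
          apply mul_le_mul_of_nonneg_left _ hρ.le
          linarith
  -- the subsequence
  obtain ⟨A0, -, φ, hφ, hlim⟩ := tendsto_subseq_of_bounded (x := A)
    (Metric.isBounded_closedBall (x := (0 : EE n →L[ℝ] EE n)) (r := C))
    (fun k => by rw [Metric.mem_closedBall, dist_zero_right]; exact hC k)
  have hδlim : Tendsto (fun k => δ (φ k)) atTop (𝓝 0) := by
    have h1 : Tendsto δ atTop (𝓝 0) := by
      rw [hδd]
      have h2 := tendsto_one_div_add_atTop_nhds_zero_nat (𝕜 := ℝ)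
      have h3 := (tendsto_add_atTop_iff_nat 1).2 h2
      refine h3.congr fun k => ?_
      push_cast
      ring_nf
    exact h1.comp hφ.tendsto_atTop
  have hnorm : Tendsto (fun k => ‖A0 - A (φ k)‖) atTop (𝓝 0) := by
    have h1 : Tendsto (fun k => A0 - A (φ k)) atTop (𝓝 (A0 - A0)) :=
      tendsto_const_nhds.sub hlim
    rw [sub_self] at h1
    simpa using h1.norm
  refine ⟨A0, ?_, ?_⟩
  · have h1 : Tendsto (fun k => |(A (φ k)).det| * kap n) atTop (𝓝 (|A0.det| * kap n)) := by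
      have h2 : Tendsto (fun k => (A (φ k)).det) atTop (𝓝 A0.det) :=
        (ContinuousLinearMap.continuous_det.tendsto A0).comp hlim
      exact h2.abs.mul_const _
    have h2 : Tendsto (fun k => |(A (φ k)).det| * kap n) atTop (𝓝 (vl K)) := by
      have h3 : Tendsto (fun k => (1 - δ (φ k)) ^ n * vl K) atTop (𝓝 ((1 - 0) ^ n * vl K)) :=
        ((tendsto_const_nhds.sub hδlim).pow n).mul_const _
      rw [sub_zero, one_pow, one_mul] at h3
      refine tendsto_of_tendsto_of_tendsto_of_le_of_le h3 tendsto_const_nhds ?_ ?_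
      · intro k
        simp only
        rw [hdet]
        exact hvPge _
      · intro k
        simp only
        rw [hdet]
        exact hvPle _
    exact tendsto_nhds_unique h1 h2
  · intro t ht
    set s : ℕ → ℝ := fun k => (1 - δ (φ k))⁻¹ * (1 + t * ‖A0 - A (φ k)‖ / ρ) with hs
    have hbound : ∀ k, vl (K + t • (A0 '' Bn n)) ≤
        s k ^ n * (vl K * (1 + t * (1 + δ (φ k))) ^ n) := by
      intro k
      have h1 := incl K (P (φ k)) A0 (A (φ k)) (hPconv _) (δ (φ k)) ρ t (hδ _).1 (hδ1 _) hρ ht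
        hρK (hKP _)
      have hs0 : 0 ≤ s k := by
        have : 0 < 1 - δ (φ k) := by linarith [hδ1 (φ k)]
        simp only [hs]
        positivity
      have h2 : vl (K + t • (A0 '' Bn n)) ≤ s k ^ n * vl (P (φ k) + t • (A (φ k) '' Bn n)) := by
        rw [← vl_smul (s k) hs0]
        exact vl_mono h1 ((cpt_sum _ (hPc _) _ _).smul _)
      refine h2.trans ?_
      apply mul_le_mul_of_nonneg_left _ (by positivity)
      refine (hvol (φ k) t ht).trans ?_
      have hr0' := hr0 (φ k)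
      apply mul_le_mul (hvPle _) _ (by positivity) hvK.le
      apply pow_le_pow_left₀ (by positivity)
      have := hr (φ k)
      nlinarith
    have hslim : Tendsto s atTop (𝓝 1) := by
      have h1 : Tendsto s atTop (𝓝 ((1 - 0)⁻¹ * (1 + t * 0 / ρ))) := by
        apply Tendsto.mul
        · exact (tendsto_const_nhds.sub hδlim).inv₀ (by norm_num)
        · exact tendsto_const_nhds.add ((hnorm.const_mul t).div_const ρ)
      simpa using h1
    have hlim2 : Tendsto (fun k => s k ^ n * (vl K * (1 + t * (1 + δ (φ k))) ^ n)) atTop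
        (𝓝 (1 ^ n * (vl K * (1 + t * (1 + 0)) ^ n))) := by
      apply (hslim.pow n).mul
      apply Tendsto.const_mul
      apply Tendsto.pow
      exact tendsto_const_nhds.add ((tendsto_const_nhds.add hδlim).const_mul t)
    rw [one_pow, one_mul, add_zero, mul_one] at hlim2
    exact ge_of_tendsto' hlim2 hbound

end PPW
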