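import Pool.Agent.PPX.Stmts

/-!
# Squad PPW (MP_0bf616_gt): the exact Petty projection inequality for all convex bodies in all
dimensions `n ≥ n₀`.  Definitions.
-/

set_option autoImplicit false

namespace PPW

open MeasureTheory Set Filter Topology ProbabilityTheory
open PPI PPG PPX
open scoped Pointwise ENNReal

noncomputable section

/-! ## The Gaussian mixture -/

/-- the exponential distribution -/
def ex : Measure ℝ :=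
  (volume.restrict (Ioi (0 : ℝ))).withDensity fun t => ENNReal.ofReal (Real.exp (-t))

/-- the standard Gaussian measure of the line -/
def ga1 : Measure ℝ := gaussianReal 0 1

/-- the standard Gaussian measure of `R^n` -/
def gam (n : ℕ) : Measure (EE n) := stdGaussian (EE n)

/-- `σ = 1 / √(2t)` -/
def sg (t : ℝ) : ℝ := (√(2 * t))⁻¹

/-- the law of `(t, G)` -/
def pm (n : ℕ) : Measure (ℝ × EE n) := ex.prod (gam n)

/-- `x = σ G` -/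
def pt {n : ℕ} (z : ℝ × EE n) : EE n := sg z.1 • z.2

/-! ## Profiles -/

/-- the coefficient `√(1+|x|²) c(⟨x,v⟩) / c_n` -/
def xi {n : ℕ} (c : ℝ → ℝ) (x v : EE n) : ℝ := √(1 + ‖x‖ ^ 2) * c (inner ℝ x v) / PPX.cn n

/-- the coefficient `√(π/2) σ c(⟨x,v⟩)` -/
def aa {n : ℕ} (c : ℝ → ℝ) (v : EE n) (z : ℝ × EE n) : ℝ :=
  √(Real.pi / 2) * sg z.1 * c (inner ℝ (pt z) v)

/-- its conditional mean given `t` and `P G` -/
def ab {n : ℕ} (c : ℝ → ℝ) (P : EE n →L[ℝ] EE n) (v : EE n) (z : ℝ × EE n) : ℝ :=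
  √(Real.pi / 2) * sg z.1 * ∫ y, c (sg z.1 * inner ℝ (P z.2 + (y - P y)) v) ∂(gam n)

/-- the conditional mean in terms of real variables; `x = |P v|²` -/
def zb (c : ℝ → ℝ) (x t u : ℝ) : ℝ :=
  √(Real.pi / 2) * sg t * ∫ v, c (sg t * (√x * u + √(1 - x) * v)) ∂ga1

/-- the mean of the coefficient -/
def EZ (c : ℝ → ℝ) : ℝ := 1 / 2 * ∫ s, c s / (1 + s ^ 2)

/-- the mean of the coefficient times `⟨x,v⟩²` -/
def ML (c : ℝ → ℝ) : ℝ := 1 / 2 * ∫ s, c s * (s ^ 2 / (1 + s ^ 2))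

/-- the mean of the logarithm of the conditional mean -/
def EL (c : ℝ → ℝ) (x : ℝ) : ℝ := ∫ z : ℝ × ℝ, Real.log (zb c x z.1 z.2) ∂(ex.prod ga1)

/-- the cost of a unit of mass -/
def co (c : ℝ → ℝ) (x : ℝ) : ℝ := (1 - x) * (1 - EZ c) - x * EL c x

/-- the Gaussian profile -/
def gp (a s : ℝ) : ℝ := 2 / (√(2 * Real.pi) * a) * Real.exp (-(s ^ 2 / (2 * a ^ 2)))

/-- the Student profile -/
def sp (a s : ℝ) : ℝ := 1 / a * (1 + s ^ 2 / a ^ 2) ^ (-(3 / 2 : ℝ))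

/-- `∫ log (1 + V u²/(2t))` -/
def LV (V : ℝ) : ℝ := ∫ z : ℝ × ℝ, Real.log (1 + V * z.2 ^ 2 / (2 * z.1)) ∂(ex.prod ga1)

/-- `∫ e^(-t) / (z + t)` -/
def kz (z : ℝ) : ℝ := ∫ t, 1 / (z + t) ∂ex

/-- good profiles -/
structure PF (C ω x : ℝ) (c : ℝ → ℝ) : Prop where
  pos : ∀ s, 0 < c s
  even : ∀ s, c (-s) = c s
  dif : ContDiff ℝ 1 c
  der : ∀ s, |deriv c s| ≤ C / ω
  bdd : ∀ s, c s ≤ C / √ω
  mass : ∫⁻ s, ENNReal.ofReal (c s) ≤ 2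
  mom : ML c ≤ C * ω
  ez : 1 - EZ c ≤ C * ω
  inv : ∀ r : ℝ, 0 < r → (ex.prod ga1) {z : ℝ × ℝ | zb c x z.1 z.2 < r} ≤
    ENNReal.ofReal (C * r ^ (1 / 10 : ℝ))
  elog : Integrable (fun z : ℝ × ℝ => Real.log (zb c x z.1 z.2)) (ex.prod ga1)
  cost : co c x ≤ ω

/-- `n^(-1/4)` -/
def de (n : ℕ) : ℝ := (n : ℝ) ^ (-(1 / 4 : ℝ))

/-! ## Families -/

section fam

variable {n : ℕ} {ι : Type} [Fintype ι]

open Classical in
/-- the complement -/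
def cpl (S : Finset ι) : Finset ι := Finset.univ \ S

/-- `∑_{i ∈ S} α_i u_i u_iᵀ` -/
def sm (S : Finset ι) (α : ι → ℝ) (u : ι → EE n) : Matrix (Fin n) (Fin n) ℝ :=
  Matrix.of fun k l => ∑ i ∈ S, α i * (u i k * u i l)

/-- `∬ ⟨a, b⟩^(2k) d(ρ_g - m_g σ)(a) d(ρ_g - m_g σ)(b)` -/
def TG (g : Finset ι) (p : ι → ℝ) (w : ι → EE n) (k : ℕ) : ℝ :=
  ∑ i ∈ g, ∑ j ∈ g, p i * p j * (inner ℝ (w i) (w j)) ^ (2 * k) - (∑ i ∈ g, p i) ^ 2 * smo n k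

/-- `∫ ⟨a, v⟩^(2k) d(ρ_g - m_g σ)(a)` -/
def FG (g : Finset ι) (p : ι → ℝ) (w : ι → EE n) (k : ℕ) (v : EE n) : ℝ :=
  ∑ i ∈ g, p i * (inner ℝ (w i) v) ^ (2 * k) - (∑ i ∈ g, p i) * smo n k

/-- the gradient of `FG` -/
def GG (g : Finset ι) (p : ι → ℝ) (w : ι → EE n) (k : ℕ) (v : EE n) : EE n :=
  (2 * (k : ℝ)) • (∑ i ∈ g, (p i * (inner ℝ (w i) v) ^ (2 * k - 1)) • w i -
    ((∑ i ∈ g, p i) * smo n k) • v)

/-- the narrow part minus its mean: `M_g(x) - (1 - B)`, `B = n ∑_{i ∈ S} p_i w_i w_iᵀ` -/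
def Dg (S : Finset ι) (p : ι → ℝ) (w : ι → EE n) (x : EE n) : Matrix (Fin n) (Fin n) ℝ :=
  sm (cpl S) (fun i => n * p i * wv x (w i)) (fun i => tx x (w i)) - 1 +
    sm S (fun i => n * p i) w

/-- the whole matrix -/
def Mx (S : Finset ι) (p : ι → ℝ) (w : ι → EE n) (c : ι → ℝ → ℝ) (x : EE n) :
    Matrix (Fin n) (Fin n) ℝ :=
  sm (cpl S) (fun i => n * p i * wv x (w i)) (fun i => tx x (w i)) +
    sm S (fun i => n * p i * xi (c i) x (w i)) (fun i => tx x (w i))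

/-- `Q_a = 1 - n ∑_{i ∈ S} p_i (1 - a_i) P w_i (P w_i)ᵀ` -/
def Qm (S : Finset ι) (P : EE n →L[ℝ] EE n) (p : ι → ℝ) (w : ι → EE n) (a : ι → ℝ) :
    Matrix (Fin n) (Fin n) ℝ :=
  1 - sm S (fun i => n * p i * (1 - a i)) (fun i => P (w i))

open Classical in
/-- good points -/
structure GD (R L A κ : ℝ) (P : EE n →L[ℝ] EE n) (S : Finset ι) (p : ι → ℝ) (w : ι → EE n)
    (c : ι → ℝ → ℝ) (z : ℝ × EE n) : Prop where
  s1 : 0 < z.1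
  s2 : R⁻¹ ≤ sg z.1
  s3 : sg z.1 ≤ R
  nrm : |‖z.2‖ ^ 2 - n| ≤ (n : ℝ) ^ (3 / 4 : ℝ)
  prj : ‖P z.2‖ ^ 2 ≤ √(n : ℝ)
  dg : hs (Dg S p w (pt z)) ≤ (κ / (200 * L ^ 4)) ^ 2
  low : (n : ℝ) * ∑ i ∈ S, p i * ‖P (w i)‖ ^ 2 *
    (if ab (c i) P (w i) z < 8 / L then 1 else 0) ≤ 1 / 2
  qab : hs (sm S (fun i => n * p i * ((1 - de n) * (aa (c i) (w i) z - ab (c i) P (w i) z)))
    (fun i => P (w i))) ≤ (κ / L ^ 2) ^ 2
  phi : (n : ℝ) * ∑ i ∈ S, p i * xi (c i) (pt z) (w i) * (inner ℝ (pt z) (w i)) ^ 2 ≤ L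
  sab : (n : ℝ) * ∑ i ∈ S, p i * ‖P (w i)‖ ^ 2 * (1 + ab (c i) P (w i) z) ≤ L / 2

/-- the data chosen for the family: projection `P`, special set `S`, weights `ω`, profiles `c` -/
structure WS (C : ℝ) (m : ℕ) (P : EE n →L[ℝ] EE n) (S : Finset ι) (p ω : ι → ℝ)
    (w : ι → EE n) (c : ι → ℝ → ℝ) : Prop where
  iso : IS p w
  pr : PR m P
  mle : (m : ℝ) ≤ (n : ℝ) ^ (1 / 10 : ℝ)
  om : ∀ i ∈ S, ‖P (w i)‖ ^ 2 ≤ ω i ∧ ω i ≤ 1 ∧ Real.log n ^ (-1100 : ℝ) ≤ ω i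
  pf : ∀ i ∈ S, PF C (ω i) (‖P (w i)‖ ^ 2) (c i)
  sum : (n : ℝ) * ∑ i ∈ S, p i * ω i ≤ Real.log n ^ 2
  lam : ∀ e : EE n, (n : ℝ) * ∑ i ∈ S, p i * (inner ℝ (w i - P (w i)) e) ^ 2 ≤
    Real.log n ^ (-4400 : ℝ) * ‖e‖ ^ 2
  di : Integrable (fun x => hs (Dg S p w x)) (mun n)
  dh : ∫ x, hs (Dg S p w x) ∂(mun n) ≤ Real.log n ^ (-1050 : ℝ)
  ti : Integrable (fun x => (Dg S p w x).trace) (mun n)
  t0 : ∫ x, (Dg S p w x).trace ∂(mun n) = 0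
  t2 : Integrable (fun x => (Dg S p w x).trace ^ 2) (mun n)
  tv : ∫ x, (Dg S p w x).trace ^ 2 ∂(mun n) ≤ Real.log n ^ 5

end fam

/-- the orthogonal projection onto the span of an orthonormal family -/
def pj {n m : ℕ} (e : Fin m → EE n) : EE n →L[ℝ] EE n :=
  ∑ j, (innerSL ℝ (e j)).smulRight (e j)

end

end PPW
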