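import Pool.Agent.PPW.Stmts

/-!
Module EAB: the mean of the conditional mean.
-/

set_option autoImplicit false

namespace PPW

open MeasureTheory Set Filter Topology ProbabilityTheory
open PPI PPG PPX
open scoped Pointwise ENNReal

noncomputable section

namespace EAB_

theorem probGa1 : IsProbabilityMeasure ga1 := by unfold ga1; infer_instance

theorem lint_ga1 (f : ℝ → ℝ≥0∞) (hf : Measurable f) :
    ∫⁻ v, f v ∂ga1 = ∫⁻ v, f v * ENNReal.ofReal ((√(2 * Real.pi))⁻¹ * Real.exp (-(v ^ 2 / 2))) := by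
  unfold ga1
  rw [gaussianReal_of_var_ne_zero 0 one_ne_zero, lintegral_withDensity_eq_lintegral_mul _
    (measurable_gaussianPDF 0 1) hf]
  apply lintegral_congr
  intro v
  rw [Pi.mul_apply, mul_comm, gaussianPDF_def, gaussianPDFReal_def]
  simp only [NNReal.coe_one, mul_one, sub_zero, neg_div]

theorem lint_scale (f : ℝ → ℝ≥0∞) (hf : Measurable f) (s : ℝ) (hs : 0 < s) :
    ∫⁻ v, f (s * v) = ENNReal.ofReal s⁻¹ * ∫⁻ v, f v := by
  have h1 := Real.map_volume_mul_left hs.ne'
  have hm : Measurable (fun v : ℝ => s * v) := by fun_prop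
  rw [← lintegral_map hf hm, h1, lintegral_smul_measure, abs_of_pos (inv_pos.mpr hs)]
  rfl

theorem lint_trans (f : ℝ → ℝ≥0∞) (a : ℝ) : ∫⁻ v, f (a + v) = ∫⁻ v, f v :=
  lintegral_add_left_eq_self f a

/-- convolution of two Gaussian measures -/
theorem conv (x : ℝ) (h0 : 0 ≤ x) (h1 : x ≤ 1) :
    (ga1.prod ga1).map (fun z => √x * z.1 + √(1 - x) * z.2) = ga1 := by
  have := probGa1
  have hm : Measurable (fun z : ℝ × ℝ => √x * z.1 + √(1 - x) * z.2) := by fun_prop
  have : IsProbabilityMeasure ((ga1.prod ga1).map (fun z => √x * z.1 + √(1 - x) * z.2)) :=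
    Measure.isProbabilityMeasure_map hm.aemeasurable
  apply Measure.ext_of_charFun
  funext a
  have cf : ∀ b : ℝ, charFun ga1 b = Complex.exp ((-(b ^ 2 / 2) : ℝ) : ℂ) := by
    intro b
    unfold ga1
    rw [charFun_gaussianReal]
    congr 1
    push_cast
    simp
  have h2 : charFun ((ga1.prod ga1).map (fun z => √x * z.1 + √(1 - x) * z.2)) a =
      charFun ga1 (√x * a) * charFun ga1 (√(1 - x) * a) := by
    rw [charFun_apply_real, charFun_apply_real, charFun_apply_real,
      integral_map hm.aemeasurable (by fun_prop), ← integral_prod_mul]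
    congr 1
    funext z
    rw [← Complex.exp_add]
    congr 1
    push_cast
    ring
  rw [h2, cf, cf, cf, ← Complex.exp_add, ← Complex.ofReal_add]
  congr 2
  rw [mul_pow, mul_pow, Real.sq_sqrt h0, Real.sq_sqrt (by linarith)]
  ring

theorem meas_inner {c : ℝ → ℝ} (hc : Continuous c) (x t u : ℝ) :
    Measurable (fun v : ℝ => ENNReal.ofReal (c (sg t * (√x * u + √(1 - x) * v)))) := by
  have : Continuous (fun v : ℝ => c (sg t * (√x * u + √(1 - x) * v))) := by fun_prop
  exact this.measurable.ennreal_ofReal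

/-- integrability against the Gaussian measure -/
theorem integrable_inner {c : ℝ → ℝ} (hc : Continuous c) (hp : ∀ s, 0 ≤ c s)
    (hm : ∫⁻ s, ENNReal.ofReal (c s) ≤ 2) (x t u : ℝ) (ht : 0 < t) (hx1 : x ≤ 1) :
    Integrable (fun v : ℝ => c (sg t * (√x * u + √(1 - x) * v))) ga1 := by
  have := probGa1
  have hs : 0 < sg t := by unfold sg; positivity
  have hcont : Continuous (fun v : ℝ => c (sg t * (√x * u + √(1 - x) * v))) := by fun_prop
  rcases hx1.lt_or_eq with h | h
  · have hb : 0 < √(1 - x) := Real.sqrt_pos.mpr (by linarith)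
    refine ⟨hcont.aestronglyMeasurable, ?_⟩
    rw [hasFiniteIntegral_iff_ofReal (Eventually.of_forall fun v => hp _),
      lint_ga1 _ (meas_inner hc x t u)]
    have hle : ∫⁻ v, ENNReal.ofReal (c (sg t * (√x * u + √(1 - x) * v))) *
        ENNReal.ofReal ((√(2 * Real.pi))⁻¹ * Real.exp (-(v ^ 2 / 2))) ≤
        ∫⁻ v, ENNReal.ofReal (c (sg t * (√x * u) + (sg t * √(1 - x)) * v)) := by
      apply lintegral_mono
      intro v
      have h2 : ENNReal.ofReal ((√(2 * Real.pi))⁻¹ * Real.exp (-(v ^ 2 / 2))) ≤ 1 := by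
        rw [ENNReal.ofReal_le_one]
        have h3 : (√(2 * Real.pi))⁻¹ ≤ 1 := by
          apply inv_le_one_of_one_le₀
          rw [Real.one_le_sqrt]
          linarith [Real.pi_gt_three]
        have h4 : Real.exp (-(v ^ 2 / 2)) ≤ 1 := by
          rw [Real.exp_le_one_iff]
          linarith [sq_nonneg v]
        calc _ ≤ 1 * 1 := mul_le_mul h3 h4 (Real.exp_pos _).le zero_le_one
          _ = 1 := one_mul 1
      have h5 : sg t * (√x * u + √(1 - x) * v) = sg t * (√x * u) + sg t * √(1 - x) * v := by ring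
      calc _ ≤ ENNReal.ofReal (c (sg t * (√x * u + √(1 - x) * v))) * 1 := mul_le_mul_right h2 _
        _ = _ := by rw [mul_one, h5]
    refine lt_of_le_of_lt hle ?_
    have hmf : Measurable (fun v : ℝ => ENNReal.ofReal (c (sg t * (√x * u) + v))) := by
      have : Continuous (fun v : ℝ => c (sg t * (√x * u) + v)) := by fun_prop
      exact this.measurable.ennreal_ofReal
    rw [lint_scale (fun v => ENNReal.ofReal (c (sg t * (√x * u) + v))) hmf _ (mul_pos hs hb),
      lint_trans (fun v => ENNReal.ofReal (c v))]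
    exact ENNReal.mul_lt_top ENNReal.ofReal_lt_top (lt_of_le_of_lt hm (by simp))
  · subst h
    simp only [sub_self, Real.sqrt_zero, zero_mul]
    exact integrable_const _

theorem ofReal_zb {c : ℝ → ℝ} (hc : Continuous c) (hp : ∀ s, 0 ≤ c s)
    (hm : ∫⁻ s, ENNReal.ofReal (c s) ≤ 2) (x t u : ℝ) (ht : 0 < t) (hx1 : x ≤ 1) :
    ENNReal.ofReal (zb c x t u) = ENNReal.ofReal (√(Real.pi / 2) * sg t) *
      ∫⁻ v, ENNReal.ofReal (c (sg t * (√x * u + √(1 - x) * v))) ∂ga1 := by
  have hs : 0 < sg t := by unfold sg; positivity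
  unfold zb
  rw [ENNReal.ofReal_mul (by positivity), ofReal_integral_eq_lintegral_ofReal
    (integrable_inner hc hp hm x t u ht hx1) (Eventually.of_forall fun v => hp _)]

/-- the mean over `u` for fixed `t` -/
theorem mean_u {c : ℝ → ℝ} (hc : Continuous c) (x t : ℝ) (ht : 0 < t) (hx0 : 0 ≤ x)
    (hx1 : x ≤ 1) :
    ENNReal.ofReal (√(Real.pi / 2) * sg t) *
      ∫⁻ u, ∫⁻ v, ENNReal.ofReal (c (sg t * (√x * u + √(1 - x) * v))) ∂ga1 ∂ga1 =
    ∫⁻ y, ENNReal.ofReal (c y) * ENNReal.ofReal (1 / 2 * Real.exp (-(t * y ^ 2))) := by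
  have := probGa1
  have hs : 0 < sg t := by unfold sg; positivity
  have hmc : Measurable (fun y : ℝ => ENNReal.ofReal (c (sg t * y))) := by
    have : Continuous (fun v : ℝ => c (sg t * v)) := by fun_prop
    exact this.measurable.ennreal_ofReal
  have hm : Measurable (fun z : ℝ × ℝ => √x * z.1 + √(1 - x) * z.2) := by fun_prop
  have h1 := lintegral_prod (μ := ga1) (ν := ga1)
    (fun z : ℝ × ℝ => ENNReal.ofReal (c (sg t * (√x * z.1 + √(1 - x) * z.2))))
    (hmc.comp hm).aemeasurable
  have h2 : ∫⁻ z, ENNReal.ofReal (c (sg t * (√x * z.1 + √(1 - x) * z.2))) ∂(ga1.prod ga1) =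
      ∫⁻ y, ENNReal.ofReal (c (sg t * y)) ∂ga1 := by
    conv_rhs => rw [← conv x hx0 hx1]
    rw [lintegral_map hmc hm]
  rw [← h1, h2, lint_ga1 _ hmc]
  have h3 : ∀ v : ℝ, ENNReal.ofReal (c (sg t * v)) *
      ENNReal.ofReal ((√(2 * Real.pi))⁻¹ * Real.exp (-(v ^ 2 / 2))) =
      (fun y => ENNReal.ofReal (c y) *
        ENNReal.ofReal ((√(2 * Real.pi))⁻¹ * Real.exp (-(t * y ^ 2)))) (sg t * v) := by
    intro v
    simp only
    congr 4
    rw [mul_pow]
    unfold sg
    rw [inv_pow, Real.sq_sqrt (by linarith)]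
    field_simp
  have hmf : Measurable (fun y => ENNReal.ofReal (c y) *
        ENNReal.ofReal ((√(2 * Real.pi))⁻¹ * Real.exp (-(t * y ^ 2)))) := by
    apply Measurable.mul hc.measurable.ennreal_ofReal
    apply Measurable.ennreal_ofReal
    fun_prop
  simp only [h3]
  rw [lint_scale _ hmf _ hs, ← mul_assoc, ← ENNReal.ofReal_mul (by positivity),
    ← lintegral_const_mul _ hmf]
  apply lintegral_congr
  intro y
  rw [mul_left_comm, ← ENNReal.ofReal_mul (by positivity)]
  congr 2
  have h4 : √(Real.pi / 2) * (√(2 * Real.pi))⁻¹ = 1 / 2 := by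
    rw [← Real.sqrt_inv, ← Real.sqrt_mul (by positivity)]
    have : Real.pi / 2 * (2 * Real.pi)⁻¹ = (1 / 2) ^ 2 := by
      field_simp
    rw [this, Real.sqrt_sq (by norm_num)]
  calc √(Real.pi / 2) * sg t * (sg t)⁻¹ * ((√(2 * Real.pi))⁻¹ * Real.exp (-(t * y ^ 2))) =
      (√(Real.pi / 2) * (√(2 * Real.pi))⁻¹) * (sg t * (sg t)⁻¹) * Real.exp (-(t * y ^ 2)) := by ring
    _ = 1 / 2 * Real.exp (-(t * y ^ 2)) := by
      rw [h4, mul_inv_cancel₀ hs.ne', mul_one]

/-- the mean over `t` -/
theorem mean_t (y : ℝ) :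
    ∫⁻ t, ENNReal.ofReal (1 / 2 * Real.exp (-(t * y ^ 2))) ∂ex =
      ENNReal.ofReal (1 / 2 / (1 + y ^ 2)) := by
  unfold ex
  have hm1 : Measurable (fun t : ℝ => ENNReal.ofReal (Real.exp (-t))) := by
    apply Measurable.ennreal_ofReal
    fun_prop
  have hm2 : Measurable (fun t : ℝ => ENNReal.ofReal (1 / 2 * Real.exp (-(t * y ^ 2)))) := by
    apply Measurable.ennreal_ofReal
    fun_prop
  rw [lintegral_withDensity_eq_lintegral_mul _ hm1 hm2]
  have e : ∀ t : ℝ, ((fun t : ℝ => ENNReal.ofReal (Real.exp (-t))) *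
      fun t : ℝ => ENNReal.ofReal (1 / 2 * Real.exp (-(t * y ^ 2)))) t =
      ENNReal.ofReal (1 / 2 * Real.exp (-(1 + y ^ 2) * t)) := by
    intro t
    rw [Pi.mul_apply, ← ENNReal.ofReal_mul (Real.exp_pos _).le]
    congr 1
    have : Real.exp (-(1 + y ^ 2) * t) = Real.exp (-t) * Real.exp (-(t * y ^ 2)) := by
      rw [← Real.exp_add]
      congr 1
      ring
    rw [this]
    ring
  simp only [e]
  have hpos : 0 < 1 + y ^ 2 := by positivity
  have hint : IntegrableOn (fun t : ℝ => 1 / 2 * Real.exp (-(1 + y ^ 2) * t)) (Ioi 0) :=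
    (integrableOn_exp_mul_Ioi (by linarith) 0).const_mul _
  rw [← ofReal_integral_eq_lintegral_ofReal hint (Eventually.of_forall fun t => by positivity)]
  congr 1
  rw [integral_const_mul, integral_exp_mul_Ioi (by linarith)]
  field_simp
  simp

end EAB_

open EAB_ in
theorem eab_proof (hEXB : Stmt_EXB) : Stmt_EAB := by
  intro c x hx0 hx1 hc hp hm
  have := probGa1
  have := hEXB.1
  have hci : Integrable c := by
    refine ⟨hc.aestronglyMeasurable, ?_⟩
    rw [hasFiniteIntegral_iff_ofReal (Eventually.of_forall hp)]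
    exact lt_of_le_of_lt hm (by simp)
  have hcint : ∫ s, c s ≤ 2 := by
    have := ofReal_integral_eq_lintegral_ofReal hci (Eventually.of_forall hp)
    rw [← this] at hm
    have h2 : ENNReal.ofReal (∫ s, c s) ≤ ENNReal.ofReal 2 := by simpa using hm
    rwa [ENNReal.ofReal_le_ofReal_iff (by norm_num)] at h2
  have hle : ∀ s, c s / (1 + s ^ 2) ≤ c s := by
    intro s
    apply div_le_self (hp s)
    linarith [sq_nonneg s]
  have h0le : ∀ s, 0 ≤ c s / (1 + s ^ 2) := fun s => div_nonneg (hp s) (by positivity)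
  have hci2 : Integrable (fun s => c s / (1 + s ^ 2)) := by
    refine Integrable.mono' hci ?_ (Eventually.of_forall fun s => ?_)
    · have : Continuous (fun s => c s / (1 + s ^ 2)) :=
        hc.div (by fun_prop) fun s => by positivity
      exact this.aestronglyMeasurable
    · rw [Real.norm_eq_abs, abs_of_nonneg (h0le s)]
      exact hle s
  refine ⟨?_, ?_, ?_, ?_⟩
  · -- the mean
    have hpos : ∀ᵐ z ∂(ex.prod ga1), 0 < z.1 :=
      Measure.quasiMeasurePreserving_fst.ae hEXB.2.2.2.1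
    have h1 : ∫⁻ z : ℝ × ℝ, ENNReal.ofReal (zb c x z.1 z.2) ∂(ex.prod ga1) =
        ∫⁻ z : ℝ × ℝ, ENNReal.ofReal (√(Real.pi / 2) * sg z.1) *
          ∫⁻ v, ENNReal.ofReal (c (sg z.1 * (√x * z.2 + √(1 - x) * v))) ∂ga1 ∂(ex.prod ga1) := by
      apply lintegral_congr_ae
      filter_upwards [hpos] with z hz
      exact ofReal_zb hc hp hm x z.1 z.2 hz hx1
    have hsg : Measurable sg := by
      unfold sg
      fun_prop
    have hm3 : Measurable (fun z : (ℝ × ℝ) × ℝ =>
        ENNReal.ofReal (c (sg z.1.1 * (√x * z.1.2 + √(1 - x) * z.2)))) := by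
      apply Measurable.ennreal_ofReal
      apply hc.measurable.comp
      apply Measurable.mul
      · exact hsg.comp (measurable_fst.comp measurable_fst)
      · fun_prop
    have hm4 : Measurable (fun z : ℝ × ℝ =>
        ∫⁻ v, ENNReal.ofReal (c (sg z.1 * (√x * z.2 + √(1 - x) * v))) ∂ga1) :=
      hm3.lintegral_prod_right'
    have hm5 : Measurable (fun z : ℝ × ℝ => ENNReal.ofReal (√(Real.pi / 2) * sg z.1) *
        ∫⁻ v, ENNReal.ofReal (c (sg z.1 * (√x * z.2 + √(1 - x) * v))) ∂ga1) := by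
      apply Measurable.mul _ hm4
      apply Measurable.ennreal_ofReal
      exact (hsg.comp measurable_fst).const_mul _
    rw [h1, lintegral_prod _ hm5.aemeasurable]
    have h2 : ∫⁻ t, ∫⁻ u, ENNReal.ofReal (√(Real.pi / 2) * sg t) *
        ∫⁻ v, ENNReal.ofReal (c (sg t * (√x * u + √(1 - x) * v))) ∂ga1 ∂ga1 ∂ex =
        ∫⁻ t, ∫⁻ y, ENNReal.ofReal (c y) *
          ENNReal.ofReal (1 / 2 * Real.exp (-(t * y ^ 2))) ∂volume ∂ex := by
      apply lintegral_congr_ae
      filter_upwards [hEXB.2.2.2.1] with t ht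
      have hm6 : Measurable (fun u : ℝ =>
          ∫⁻ v, ENNReal.ofReal (c (sg t * (√x * u + √(1 - x) * v))) ∂ga1) :=
        hm4.comp (measurable_const.prodMk measurable_id)
      rw [lintegral_const_mul _ hm6]
      exact mean_u hc x t ht hx0 hx1
    rw [h2, lintegral_lintegral_swap]
    · have h3 : ∀ y : ℝ, ∫⁻ t, ENNReal.ofReal (c y) *
          ENNReal.ofReal (1 / 2 * Real.exp (-(t * y ^ 2))) ∂ex =
          ENNReal.ofReal (1 / 2 * (c y / (1 + y ^ 2))) := by
        intro y
        have hm7 : Measurable (fun t : ℝ => ENNReal.ofReal (1 / 2 * Real.exp (-(t * y ^ 2)))) := by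
          apply Measurable.ennreal_ofReal
          fun_prop
        rw [lintegral_const_mul _ hm7, mean_t y, ← ENNReal.ofReal_mul (hp y)]
        congr 1
        ring
      simp only [h3]
      rw [← ofReal_integral_eq_lintegral_ofReal (hci2.const_mul _)
        (Eventually.of_forall fun y => mul_nonneg (by norm_num) (h0le y)), integral_const_mul]
      rfl
    · apply Measurable.aemeasurable
      have m1 : Measurable (fun z : ℝ × ℝ => ENNReal.ofReal (c z.2)) :=
        (hc.measurable.comp measurable_snd).ennreal_ofReal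
      have m2 : Measurable (fun z : ℝ × ℝ =>
          ENNReal.ofReal (1 / 2 * Real.exp (-(z.1 * z.2 ^ 2)))) := by
        apply Measurable.ennreal_ofReal
        fun_prop
      exact m1.mul m2
  · unfold EZ
    have : 0 ≤ ∫ s, c s / (1 + s ^ 2) := integral_nonneg fun s => h0le s
    positivity
  · unfold EZ
    have := integral_mono hci2 hci hle
    linarith
  · unfold ML
    have : 0 ≤ ∫ s, c s * (s ^ 2 / (1 + s ^ 2)) :=
      integral_nonneg fun s => mul_nonneg (hp s) (by positivity)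
    positivity

end

end PPW
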