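import Pool.Agent.PPW.Stmts2

/-!
# Squad PPW (MP_0bf616_gt), module ELL: the value of an ellipsoid
-/

set_option autoImplicit false

namespace PPW

open MeasureTheory Set Filter Topology ProbabilityTheory
open PPI PPG PPX
open scoped Pointwise ENNReal

namespace ELL_

lemma huP {n : ℕ} (u : EE n) (y : hyp u) : inner ℝ u (y : EE n) = 0 :=
  Submodule.mem_orthogonal_singleton_iff_inner_right.1 y.2

lemma norm_le' {n : ℕ} (u : EE n) (y : hyp u) (a : ℝ) :
    ‖(y : EE n)‖ ≤ ‖(y : EE n) + a • u‖ := by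
  have h : ‖(y : EE n) + a • u‖ ^ 2 = ‖(y : EE n)‖ ^ 2 + ‖a • u‖ ^ 2 := by
    rw [norm_add_sq_real, inner_smul_right, real_inner_comm, huP]
    ring
  have h2 : ‖(y : EE n)‖ ^ 2 ≤ ‖(y : EE n) + a • u‖ ^ 2 := by
    rw [h]
    nlinarith [sq_nonneg ‖a • u‖]
  exact le_of_sq_le_sq h2 (norm_nonneg _)

lemma projSet_ball {n : ℕ} (u : EE n) : projSet (Bn n) u = Metric.closedBall (0 : hyp u) 1 := by
  ext y
  constructor
  · rintro ⟨a, ha⟩
    have ha' : ‖(y : EE n) + a • u‖ ≤ 1 := mem_closedBall_zero_iff.1 ha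
    rw [mem_closedBall_zero_iff]
    exact (norm_le' u y a).trans ha'
  · intro hy
    refine ⟨0, ?_⟩
    have hy' : ‖y‖ ≤ 1 := mem_closedBall_zero_iff.1 hy
    rw [zero_smul, add_zero]
    exact mem_closedBall_zero_iff.2 hy'

lemma ball_vol {n : ℕ} (hn : 2 ≤ n) (u : EE n) (hu : ‖u‖ = 1) (R : ℝ) :
    (measureSpaceOfInnerProductSpace (E := ↥(hyp u))).volume
      (Metric.closedBall (0 : hyp u) R) =
      ENNReal.ofReal R ^ (n - 1) *
        ENNReal.ofReal (√Real.pi ^ (n - 1) / Real.Gamma ((n - 1 : ℕ) / 2 + 1)) := by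
  obtain ⟨m, rfl⟩ : ∃ m, n = m + 2 := ⟨n - 2, by omega⟩
  have hu0 : u ≠ 0 := by
    intro h
    rw [h, norm_zero] at hu
    exact zero_ne_one hu
  have : Fact (Module.finrank ℝ (EE (m + 2)) = (m + 1) + 1) := ⟨by simp⟩
  have hf : Module.finrank ℝ ↥(hyp u) = m + 1 := by
    unfold hyp
    exact Submodule.finrank_orthogonal_span_singleton (n := m + 1) hu0
  have : Nontrivial ↥(hyp u) := by
    apply Module.nontrivial_of_finrank_pos (R := ℝ)
    omega
  have := InnerProductSpace.volume_closedBall (E := ↥(hyp u)) 0 R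
  rw [hf] at this
  simpa using this

lemma kap_eq (k : ℕ) (hk : 1 ≤ k) :
    kap k = (ENNReal.ofReal (√Real.pi ^ k / Real.Gamma ((k : ℕ) / 2 + 1))).toReal := by
  unfold kap vl Bn
  have : Nonempty (Fin k) := ⟨⟨0, hk⟩⟩
  rw [EuclideanSpace.volume_closedBall]
  simp

lemma shadow_ball {n : ℕ} (hn : 2 ≤ n) (u : EE n) (hu : ‖u‖ = 1) :
    shadow (Bn n) u = kap (n - 1) := by
  unfold shadow vol
  rw [projSet_ball, ball_vol hn u hu 1, kap_eq (n - 1) (by omega)]
  simp

lemma projBody_ball {n : ℕ} (hn : 2 ≤ n) :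
    projBody (Bn n) = Metric.closedBall (0 : EE n) (kap (n - 1)) := by
  have hk : 0 ≤ kap (n - 1) := ENNReal.toReal_nonneg
  ext y
  rw [mem_closedBall_zero_iff]
  constructor
  · intro hy
    rcases eq_or_ne y 0 with h | h
    · rw [h, norm_zero]
      exact hk
    · have hy0 : 0 < ‖y‖ := norm_pos_iff.2 h
      have hu : ‖(‖y‖)⁻¹ • y‖ = 1 := by
        rw [norm_smul, norm_inv, norm_norm, inv_mul_cancel₀ hy0.ne']
      have h1 := hy ((‖y‖)⁻¹ • y) hu
      rw [shadow_ball hn _ hu, inner_smul_left, real_inner_self_eq_norm_sq] at h1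
      have h2 : (starRingEnd ℝ) (‖y‖)⁻¹ * ‖y‖ ^ 2 = ‖y‖ := by
        rw [conj_trivial]
        field_simp
      rw [h2] at h1
      exact h1
  · intro hy u hu
    rw [shadow_ball hn u hu]
    calc inner ℝ u y ≤ ‖u‖ * ‖y‖ := real_inner_le_norm u y
      _ = ‖y‖ := by rw [hu, one_mul]
      _ ≤ kap (n - 1) := hy

lemma vl_ball {n : ℕ} (hn : 1 ≤ n) (r : ℝ) (hr : 0 ≤ r) :
    vl (Metric.closedBall (0 : EE n) r) = r ^ n * kap n := by
  unfold kap vl Bn
  have : Nonempty (Fin n) := ⟨⟨0, hn⟩⟩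
  rw [EuclideanSpace.volume_closedBall, EuclideanSpace.volume_closedBall]
  simp only [ENNReal.toReal_mul, ENNReal.toReal_pow, Fintype.card_fin,
    ENNReal.toReal_ofReal hr, ENNReal.toReal_ofReal zero_le_one, one_pow, one_mul]

lemma vl_trans {n : ℕ} (A : Set (EE n)) (z : EE n) : vl ((fun x => x + z) '' A) = vl A := by
  unfold vl
  rw [image_add_right, measure_preimage_add_right]

lemma vl_lin {n : ℕ} (A : Set (EE n)) (T : EE n →L[ℝ] EE n) :
    vl (T '' A) = |T.det| * vl A := by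
  unfold vl
  rw [Measure.addHaar_image_continuousLinearMap, ENNReal.toReal_mul,
    ENNReal.toReal_ofReal (abs_nonneg _)]

end ELL_

open ELL_ in
theorem ell_proof (hLIN : PPX.Stmt_LIN) (hMON : PPI.Stmt_MON) (hAVE : PPI.Stmt_AVE) :
    Stmt_ELL := by
  intro n T z hn hT
  have hn1 : 1 ≤ n := by omega
  have hk : 0 < kap n := (hAVE n hn1).1
  have hk1 : 0 ≤ kap (n - 1) := ENNReal.toReal_nonneg
  have e : (fun x => T x + z) '' Bn n = (fun x => x + z) '' (T '' Bn n) := by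
    rw [image_image]
  have hc : IsCompact (Bn n) := isCompact_closedBall _ _
  rw [e, (hMON n hn).2.2, hLIN n (Bn n) T hn hc hT, projBody_ball hn, vl_ball hn1 _ hk1,
    vl_trans, vl_lin]
  have e2 : vl (Bn n) = kap n := rfl
  rw [e2]
  unfold PPG.Pn
  have e3 : kap n ^ (n - 1) = kap n ^ (n - 2) * kap n := by
    rw [← pow_succ]
    congr 1
    omega
  rw [mul_pow, e3]
  have h4 : kap n ^ (n - 2) ≠ 0 := (pow_pos hk _).ne'
  field_simp

end PPW
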