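import Pool.Agent.PPW.Stmts2

/-!
# Module EQ1: the mean of the support function.
-/

set_option autoImplicit false

namespace PPW

open MeasureTheory Set Filter Topology ProbabilityTheory
open PPI PPG PPX
open scoped Pointwise ENNReal

namespace EQ1_

variable {n : ℕ}

theorem bdd (K : Set (EE n)) (R : ℝ) (hR : ∀ x ∈ K, ‖x‖ ≤ R) (v : EE n) :
    BddAbove ((fun x => (inner ℝ x v : ℝ)) '' K) := by
  refine ⟨R * ‖v‖, ?_⟩
  rintro _ ⟨x, hx, rfl⟩
  exact (real_inner_le_norm x v).trans (mul_le_mul_of_nonneg_right (hR x hx) (norm_nonneg _))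

theorem le_sf (K : Set (EE n)) (R : ℝ) (hR : ∀ x ∈ K, ‖x‖ ≤ R) (v x : EE n) (hx : x ∈ K) :
    inner ℝ x v ≤ sf K v := le_csSup (bdd K R hR v) ⟨x, hx, rfl⟩

theorem attained (K : Set (EE n)) (hK : IsCompact K) (hne : K.Nonempty) (v : EE n) :
    ∃ x ∈ K, sf K v = inner ℝ x v := by
  have hc : ContinuousOn (fun x : EE n => (inner ℝ x v : ℝ)) K := by fun_prop
  obtain ⟨x, hx, hmax⟩ := hK.exists_isMaxOn hne hc
  refine ⟨x, hx, ?_⟩
  apply le_antisymm
  · apply csSup_le (hne.image _)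
    rintro _ ⟨y, hy, rfl⟩
    exact hmax hy
  · obtain ⟨R, hR⟩ := hK.isBounded.exists_norm_le
    exact le_sf K R hR v x hx

theorem lip (K : Set (EE n)) (hK : IsCompact K) (hne : K.Nonempty) (R : ℝ)
    (hR : ∀ x ∈ K, ‖x‖ ≤ R) (v w : EE n) : sf K v - sf K w ≤ R * ‖v - w‖ := by
  obtain ⟨x, hx, e⟩ := attained K hK hne v
  have h1 := le_sf K R hR w x hx
  have h2 : (inner ℝ x v : ℝ) - inner ℝ x w ≤ R * ‖v - w‖ := by
    rw [← inner_sub_right]
    exact (real_inner_le_norm x _).trans (mul_le_mul_of_nonneg_right (hR x hx) (norm_nonneg _))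
  linarith

theorem cont (K : Set (EE n)) (hK : IsCompact K) (hne : K.Nonempty) (R : ℝ)
    (hR : ∀ x ∈ K, ‖x‖ ≤ R) (hR0 : 0 ≤ R) : Continuous (sf K) := by
  have : LipschitzWith R.toNNReal (sf K) := by
    apply LipschitzWith.of_dist_le_mul
    intro v w
    rw [Real.dist_eq, dist_eq_norm, Real.coe_toNNReal R hR0, abs_le]
    have h1 := lip K hK hne R hR v w
    have h2 := lip K hK hne R hR w v
    rw [norm_sub_rev w v] at h2
    constructor <;> linarith
  exact this.continuous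

/-- the key inclusion -/
theorem incl (K : Set (EE n)) (hK : IsCompact K) (hne : K.Nonempty) (R : ℝ)
    (hR : ∀ x ∈ K, ‖x‖ ≤ R) (hR0 : 0 ≤ R) (ε : ℝ) (hε : 0 < ε) (hεR : ε * R ≤ 1 / 2) :
    {x : EE n | x ≠ 0 ∧ ‖x‖ ≤ max 0 (1 + ε * sf K ((‖x‖)⁻¹ • x) - ε ^ 2 * R ^ 2)} ⊆
      Bn n + ε • K := by
  rintro y ⟨hy0, hy⟩
  set v : EE n := (‖y‖)⁻¹ • y with hv
  have hyn : 0 < ‖y‖ := norm_pos_iff.2 hy0
  have hv1 : ‖v‖ = 1 := by
    rw [hv, norm_smul, norm_inv, norm_norm, inv_mul_cancel₀ hyn.ne']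
  obtain ⟨x, hx, e⟩ := attained K hK hne v
  set h : ℝ := sf K v with hh
  have hxR := hR x hx
  have hxv : |h| ≤ R := by
    rw [e]
    have := abs_real_inner_le_norm x v
    rw [hv1, mul_one] at this
    exact this.trans hxR
  have h1 : ε * |h| ≤ 1 / 2 := (mul_le_mul_of_nonneg_left hxv hε.le).trans hεR
  have h2 : ε ^ 2 * R ^ 2 ≤ 1 / 4 := by
    have : (ε * R) ^ 2 ≤ (1 / 2) ^ 2 := pow_le_pow_left₀ (by positivity) hεR 2
    nlinarith
  have h3 : -(1 / 2) ≤ ε * h ∧ ε * h ≤ 1 / 2 := by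
    rw [← abs_le, abs_mul, abs_of_pos hε]
    exact h1
  have h4 : ‖y‖ ≤ 1 + ε * h - ε ^ 2 * R ^ 2 := by
    have : 0 ≤ 1 + ε * h - ε ^ 2 * R ^ 2 := by linarith [h3.1]
    rwa [max_eq_right this] at hy
  have hyv : y = ‖y‖ • v := by
    rw [hv, smul_smul, mul_inv_cancel₀ hyn.ne', one_smul]
  refine Set.mem_add.2 ⟨y - ε • x, ?_, ε • x, Set.smul_mem_smul_set hx, by abel⟩
  rw [Bn, Metric.mem_closedBall, dist_zero_right]
  have h5 : ‖y - ε • x‖ ^ 2 ≤ 1 := by
    have e1 : ‖y - ε • x‖ ^ 2 = (‖y‖ - ε * h) ^ 2 + ε ^ 2 * (‖x‖ ^ 2 - h ^ 2) := by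
      rw [@norm_sub_sq_real]
      have e2 : (inner ℝ y (ε • x) : ℝ) = ε * (‖y‖ * h) := by
        rw [inner_smul_right]
        congr 1
        conv_lhs => rw [hyv]
        rw [inner_smul_left, e, real_inner_comm]
        simp
      rw [e2, norm_smul, Real.norm_of_nonneg hε.le]
      ring
    rw [e1]
    set a := ε ^ 2 * R ^ 2 with ha
    have ha0 : 0 ≤ a := by positivity
    have h6 : ε ^ 2 * (‖x‖ ^ 2 - h ^ 2) ≤ a := by
      rw [ha]
      apply mul_le_mul_of_nonneg_left _ (by positivity)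
      have : ‖x‖ ^ 2 ≤ R ^ 2 := pow_le_pow_left₀ (norm_nonneg _) hxR 2
      nlinarith [sq_nonneg h]
    have h7 : (‖y‖ - ε * h) ^ 2 ≤ (1 - a) ^ 2 := by
      apply sq_le_sq'
      · linarith [h3.2]
      · linarith
    nlinarith
  nlinarith [norm_nonneg (y - ε • x)]

end EQ1_

open EQ1_ in
theorem eq1_proof (hSPH : PPX.Stmt_SPH) (hAVE : PPI.Stmt_AVE) : Stmt_EQ1 := by
  intro n K hn _ hK hne hvol
  obtain ⟨hprob, hone, -, hpol, -, -⟩ := hSPH n hn
  obtain ⟨hkap, -⟩ := hAVE n hn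
  obtain ⟨R0, hR0⟩ := hK.isBounded.exists_norm_le
  set R : ℝ := max R0 1 with hRdef
  have hR : ∀ x ∈ K, ‖x‖ ≤ R := fun x hx => (hR0 x hx).trans (le_max_left _ _)
  have hR1 : 1 ≤ R := le_max_right _ _
  have hRnn : 0 ≤ R := by linarith
  have hcont := cont K hK hne R hR hRnn
  have hbd : ∀ᵐ v ∂(sph n), ‖sf K v‖ ≤ R := by
    filter_upwards [hone] with v hv
    obtain ⟨x, hx, e⟩ := attained K hK hne v
    rw [e, Real.norm_eq_abs]
    have := abs_real_inner_le_norm x v
    rw [hv, mul_one] at this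
    exact this.trans (hR x hx)
  have hint : Integrable (sf K) (sph n) :=
    Integrable.of_bound hcont.aestronglyMeasurable R hbd
  have hn' : (1 : ℝ) ≤ n := by exact_mod_cast hn
  -- main inequality
  have main : ∀ ε : ℝ, 0 < ε → ε * R ≤ 1 / 2 → n * ε ≤ 1 →
      ∫ v, sf K v ∂(sph n) ≤ 1 + n * ε + ε * R ^ 2 := by
    intro ε hε hεR hnε
    have hinc := incl K hK hne R hR hRnn ε hε hεR
    set r : EE n → ℝ := fun v => max 0 (1 + ε * sf K v - ε ^ 2 * R ^ 2) with hr
    have hrc : Continuous r := by rw [hr]; fun_prop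
    have hp := hpol r hrc.measurable (fun v => le_max_left _ _)
    have hset : (Bn n + ε • K : Set (EE n)) = ε • (K + ε⁻¹ • Bn n) := by
      rw [smul_add, smul_smul, mul_inv_cancel₀ hε.ne', one_smul, add_comm]
    have hcomp : IsCompact (K + ε⁻¹ • Bn n) := by
      have : IsCompact (Bn n) := isCompact_closedBall _ _
      exact hK.add (this.smul ε⁻¹)
    have hvl : volume (K + ε⁻¹ • Bn n) ≤ ENNReal.ofReal (kap n * (1 + ε⁻¹) ^ n) := by
      have h1 := hvol ε⁻¹ (by positivity)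
      unfold vl at h1
      rw [← ENNReal.ofReal_toReal hcomp.measure_lt_top.ne]
      exact ENNReal.ofReal_le_ofReal h1
    have hvB : volume (Bn n + ε • K : Set (EE n)) ≤ ENNReal.ofReal (kap n * (1 + ε) ^ n) := by
      rw [hset, Measure.addHaar_smul]
      have e1 : Module.finrank ℝ (EE n) = n := by simp
      rw [e1, abs_of_pos (by positivity)]
      calc ENNReal.ofReal (ε ^ n) * volume (K + ε⁻¹ • Bn n)
          ≤ ENNReal.ofReal (ε ^ n) * ENNReal.ofReal (kap n * (1 + ε⁻¹) ^ n) := by gcongr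
        _ = ENNReal.ofReal (kap n * (1 + ε) ^ n) := by
            rw [← ENNReal.ofReal_mul (by positivity)]
            congr 1
            have : (ε * (1 + ε⁻¹)) ^ n = (1 + ε) ^ n := by
              congr 1
              field_simp
              ring
            rw [← this, mul_pow]
            ring
    have h1 : ENNReal.ofReal (kap n) * ∫⁻ v, ENNReal.ofReal (r v ^ n) ∂(sph n) ≤
        ENNReal.ofReal (kap n * (1 + ε) ^ n) := by
      rw [← hp]
      exact (measure_mono hinc).trans hvB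
    have hrbd : ∀ᵐ v ∂(sph n), ‖r v ^ n‖ ≤ (1 + ε * R) ^ n := by
      filter_upwards [hbd] with v hv
      rw [norm_pow, Real.norm_of_nonneg (le_max_left _ _)]
      apply pow_le_pow_left₀ (le_max_left _ _)
      apply max_le (by positivity)
      have h2 : sf K v ≤ R := (le_abs_self _).trans (by rwa [Real.norm_eq_abs] at hv)
      have h3 : ε * sf K v ≤ ε * R := mul_le_mul_of_nonneg_left h2 hε.le
      have h4 : 0 ≤ ε ^ 2 * R ^ 2 := by positivity
      linarith
    have hrint : Integrable (fun v => r v ^ n) (sph n) :=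
      Integrable.of_bound (hrc.pow n).aestronglyMeasurable _ hrbd
    have h2 : ∫⁻ v, ENNReal.ofReal (r v ^ n) ∂(sph n) =
        ENNReal.ofReal (∫ v, r v ^ n ∂(sph n)) :=
      (ofReal_integral_eq_lintegral_ofReal hrint (Eventually.of_forall fun v =>
        pow_nonneg (le_max_left _ _) n)).symm
    rw [h2, ← ENNReal.ofReal_mul hkap.le, ENNReal.ofReal_le_ofReal_iff (by positivity)] at h1
    have h3 : ∫ v, r v ^ n ∂(sph n) ≤ (1 + ε) ^ n := le_of_mul_le_mul_left h1 hkap
    -- lower bound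
    have h4 : ∀ᵐ v ∂(sph n), 1 + n * (ε * sf K v - ε ^ 2 * R ^ 2) ≤ r v ^ n := by
      filter_upwards [hbd] with v hv
      rw [Real.norm_eq_abs, abs_le] at hv
      have h5 : -(1 / 2) ≤ ε * sf K v := by
        have := mul_le_mul_of_nonneg_left hv.1 hε.le
        linarith
      have h6 : ε ^ 2 * R ^ 2 ≤ 1 / 4 := by
        have : (ε * R) ^ 2 ≤ (1 / 2) ^ 2 := pow_le_pow_left₀ (by positivity) hεR 2
        nlinarith
      have h7 := one_add_mul_le_pow (a := ε * sf K v - ε ^ 2 * R ^ 2) (by linarith) n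
      refine h7.trans ?_
      apply pow_le_pow_left₀ (by linarith)
      rw [hr]
      refine le_trans (le_of_eq ?_) (le_max_right _ _)
      ring
    have hlin : Integrable (fun v => 1 + n * (ε * sf K v - ε ^ 2 * R ^ 2)) (sph n) :=
      (integrable_const _).add (((hint.const_mul ε).sub (integrable_const _)).const_mul _)
    have h5 := integral_mono_ae hlin hrint h4
    have h6 : ∫ v, (1 + n * (ε * sf K v - ε ^ 2 * R ^ 2)) ∂(sph n) =
        1 + n * (ε * ∫ v, sf K v ∂(sph n)) - n * (ε ^ 2 * R ^ 2) := by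
      have e1 : (fun v => 1 + n * (ε * sf K v - ε ^ 2 * R ^ 2)) =
          fun v => (n * ε) * sf K v + (1 - n * (ε ^ 2 * R ^ 2)) := by
        funext v; ring
      rw [e1, integral_add (hint.const_mul _) (integrable_const _), integral_const_mul]
      simp
      ring
    rw [h6] at h5
    have h7 : (1 + ε) ^ n ≤ 1 + n * ε + (n * ε) ^ 2 := by
      have h8 : (1 + ε) ^ n ≤ Real.exp (n * ε) := by
        rw [Real.exp_nat_mul]
        apply pow_le_pow_left₀ (by positivity)
        linarith [Real.add_one_le_exp ε]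
      have h9 := Real.abs_exp_sub_one_sub_id_le (x := n * ε) (by
        rw [abs_of_nonneg (by positivity)]; exact hnε)
      rw [abs_le] at h9
      linarith [h9.2]
    have h8 : n * (ε * ∫ v, sf K v ∂(sph n)) ≤ n * ε * (1 + n * ε + ε * R ^ 2) := by
      nlinarith
    have h9 : (n * ε) * (∫ v, sf K v ∂(sph n)) ≤ (n * ε) * (1 + n * ε + ε * R ^ 2) := by
      linarith
    exact le_of_mul_le_mul_left h9 (by positivity)
  -- the limit
  apply le_of_forall_pos_le_add
  intro δ hδ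
  set ε : ℝ := min (min (1 / (2 * R)) (1 / n)) (δ / (n + R ^ 2)) with hεd
  have hnp : (0 : ℝ) < n := by linarith
  have hRp : 0 < R := by linarith
  have hε : 0 < ε := by
    rw [hεd]
    refine lt_min (lt_min (by positivity) (by positivity)) (by positivity)
  have e1 : ε ≤ 1 / (2 * R) := (min_le_left _ _).trans (min_le_left _ _)
  have e2 : ε ≤ 1 / n := (min_le_left _ _).trans (min_le_right _ _)
  have e3 : ε ≤ δ / (n + R ^ 2) := min_le_right _ _
  have h1 := main ε hε (by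
    rw [le_div_iff₀ (by positivity)] at e1
    linarith) (by
    rw [le_div_iff₀ hnp] at e2
    linarith)
  rw [le_div_iff₀ (by positivity)] at e3
  nlinarith

end PPW
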