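import Pool.Agent.PPW.Stmts2

/-!
# Module EQ2: Urysohn's inequality.
-/

set_option autoImplicit false

namespace PPW

open MeasureTheory Set Filter Topology ProbabilityTheory
open PPI PPG PPX
open scoped Pointwise ENNReal

namespace EQ2_

variable {n : ℕ}

theorem bdd (K : Set (EE n)) (R : ℝ) (hR : ∀ x ∈ K, ‖x‖ ≤ R) (v : EE n) :
    BddAbove ((fun x => (inner ℝ x v : ℝ)) '' K) := by
  refine ⟨R * ‖v‖, ?_⟩
  rintro _ ⟨x, hx, rfl⟩
  exact (real_inner_le_norm x v).trans (mul_le_mul_of_nonneg_right (hR x hx) (norm_nonneg _))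

theorem le_sf (K : Set (EE n)) (R : ℝ) (hR : ∀ x ∈ K, ‖x‖ ≤ R) (v x : EE n) (hx : x ∈ K) :
    inner ℝ x v ≤ sf K v := le_csSup (bdd K R hR v) ⟨x, hx, rfl⟩

theorem attained (K : Set (EE n)) (hK : IsCompact K) (hne : K.Nonempty) (v : EE n) :
    ∃ x ∈ K, sf K v = inner ℝ x v := by
  have hc : ContinuousOn (fun x : EE n => (inner ℝ x v : ℝ)) K := by fun_prop
  obtain ⟨x, hx, hmax⟩ := hK.exists_isMaxOn hne hc
  refine ⟨x, hx, ?_⟩
  apply le_antisymm
  · apply csSup_le (hne.image _)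
    rintro _ ⟨y, hy, rfl⟩
    exact hmax hy
  · obtain ⟨R, hR⟩ := hK.isBounded.exists_norm_le
    exact le_sf K R hR v x hx

theorem lip (K : Set (EE n)) (hK : IsCompact K) (hne : K.Nonempty) (R : ℝ)
    (hR : ∀ x ∈ K, ‖x‖ ≤ R) (v w : EE n) : sf K v - sf K w ≤ R * ‖v - w‖ := by
  obtain ⟨x, hx, e⟩ := attained K hK hne v
  have h1 := le_sf K R hR w x hx
  have h2 : (inner ℝ x v : ℝ) - inner ℝ x w ≤ R * ‖v - w‖ := by
    rw [← inner_sub_right]
    exact (real_inner_le_norm x _).trans (mul_le_mul_of_nonneg_right (hR x hx) (norm_nonneg _))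
  linarith

theorem cont (K : Set (EE n)) (hK : IsCompact K) (hne : K.Nonempty) (R : ℝ)
    (hR : ∀ x ∈ K, ‖x‖ ≤ R) (hR0 : 0 ≤ R) : Continuous (sf K) := by
  have : LipschitzWith R.toNNReal (sf K) := by
    apply LipschitzWith.of_dist_le_mul
    intro v w
    rw [Real.dist_eq, dist_eq_norm, Real.coe_toNNReal R hR0, abs_le]
    have h1 := lip K hK hne R hR v w
    have h2 := lip K hK hne R hR w v
    rw [norm_sub_rev w v] at h2
    constructor <;> linarith
  exact this.continuous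

/-- the key inclusion -/
theorem incl (K : Set (EE n)) (R : ℝ) (hR : ∀ x ∈ K, ‖x‖ ≤ R) (ε : ℝ) (hε : 0 < ε) :
    Bn n + ε • K ⊆ {0} ∪ {x : EE n | x ≠ 0 ∧ ‖x‖ ≤ max 0 (1 + ε * sf K ((‖x‖)⁻¹ • x))} := by
  rintro y hy
  by_cases hy0 : y = 0
  · exact Or.inl hy0
  refine Or.inr ⟨hy0, ?_⟩
  obtain ⟨b, hb, z, hz, hbz⟩ := Set.mem_add.1 hy
  obtain ⟨x, hx, hxz⟩ := Set.mem_smul_set.1 hz
  rw [Bn, Metric.mem_closedBall, dist_zero_right] at hb
  refine le_trans ?_ (le_max_right _ _)
  set v : EE n := (‖y‖)⁻¹ • y with hv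
  have hyn : 0 < ‖y‖ := norm_pos_iff.2 hy0
  have hv1 : ‖v‖ = 1 := by
    rw [hv, norm_smul, norm_inv, norm_norm, inv_mul_cancel₀ hyn.ne']
  have h1 : (inner ℝ y v : ℝ) = ‖y‖ := by
    rw [hv, inner_smul_right, real_inner_self_eq_norm_sq]
    field_simp
  have h2 : (inner ℝ b v : ℝ) ≤ 1 := by
    have := real_inner_le_norm b v
    rw [hv1, mul_one] at this
    exact this.trans hb
  have h3 := le_sf K R hR v x hx
  rw [← h1, ← hbz, ← hxz, inner_add_left, inner_smul_left]
  have h4 : ε * (inner ℝ x v : ℝ) ≤ ε * sf K v := mul_le_mul_of_nonneg_left h3 hε.le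
  simp only [conj_trivial]
  linarith

end EQ2_

open EQ2_ in
theorem eq2_proof (hSPH : PPX.Stmt_SPH) (hBMF : SBA.Stmt_BMF) (hAVE : PPI.Stmt_AVE) :
    Stmt_EQ2 := by
  intro n K hn _ hK hne
  obtain ⟨hprob, hone, hinv, hpol, -, -⟩ := hSPH n hn
  obtain ⟨hkap, -⟩ := hAVE n hn
  obtain ⟨R0, hR0⟩ := hK.isBounded.exists_norm_le
  set R : ℝ := max R0 1 with hRdef
  have hR : ∀ x ∈ K, ‖x‖ ≤ R := fun x hx => (hR0 x hx).trans (le_max_left _ _)
  have hR1 : 1 ≤ R := le_max_right _ _
  have hRnn : 0 ≤ R := by linarith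
  have hcont := cont K hK hne R hR hRnn
  have hbd : ∀ᵐ v ∂(sph n), ‖sf K v‖ ≤ R := by
    filter_upwards [hone] with v hv
    obtain ⟨x, hx, e⟩ := attained K hK hne v
    rw [e, Real.norm_eq_abs]
    have := abs_real_inner_le_norm x v
    rw [hv, mul_one] at this
    exact this.trans (hR x hx)
  have hint : Integrable (sf K) (sph n) :=
    Integrable.of_bound hcont.aestronglyMeasurable R hbd
  have hn' : (1 : ℝ) ≤ n := by exact_mod_cast hn
  have hnp : (0 : ℝ) < n := by linarith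
  have hI0 : 0 ≤ ∫ v, sf K v ∂(sph n) := by
    obtain ⟨x0, hx0⟩ := hne
    have h1 : ∫ v, (inner ℝ x0 v : ℝ) ∂(sph n) = 0 := by
      have e1 := hinv (LinearIsometryEquiv.neg ℝ)
      have e2 : ∫ v, (inner ℝ x0 v : ℝ) ∂(sph n) = ∫ v, (inner ℝ x0 (-v) : ℝ) ∂(sph n) := by
        conv_lhs => rw [← e1]
        rw [integral_map (LinearIsometryEquiv.continuous _).measurable.aemeasurable
          (by fun_prop)]
        simp
      simp only [inner_neg_right] at e2
      rw [integral_neg] at e2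
      linarith
    rw [← h1]
    have hbd2 : ∀ᵐ v ∂(sph n), ‖(inner ℝ x0 v : ℝ)‖ ≤ R := by
      filter_upwards [hone] with v hv
      rw [Real.norm_eq_abs]
      have := abs_real_inner_le_norm x0 v
      rw [hv, mul_one] at this
      exact this.trans (hR x0 hx0)
    exact integral_mono (Integrable.of_bound (by fun_prop) R hbd2) hint
      (fun v => le_sf K R hR v x0 hx0)
  refine ⟨hI0, ?_⟩
  obtain ⟨I, hI⟩ : ∃ I, I = ∫ v, sf K v ∂(sph n) := ⟨_, rfl⟩
  rw [← hI] at hI0 ⊢
  -- the constants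
  obtain ⟨κ, hκ⟩ : ∃ κ : ℝ, κ = kap n ^ (1 / (n : ℝ)) := ⟨_, rfl⟩
  have hκ0 : 0 < κ := by rw [hκ]; positivity
  have hκn : κ ^ n = kap n := by
    rw [hκ, ← Real.rpow_natCast, ← Real.rpow_mul hkap.le, one_div, inv_mul_cancel₀ hnp.ne',
      Real.rpow_one]
  have hvl0 : 0 ≤ vl K := ENNReal.toReal_nonneg
  obtain ⟨t, ht⟩ : ∃ t : ℝ, t = (vl K / kap n) ^ (1 / (n : ℝ)) := ⟨_, rfl⟩
  have ht0 : 0 ≤ t := by rw [ht]; positivity
  have htn : t ^ n = vl K / kap n := by
    rw [ht, ← Real.rpow_natCast, ← Real.rpow_mul (by positivity), one_div,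
      inv_mul_cancel₀ hnp.ne', Real.rpow_one]
  have hroot : ∀ x : ℝ≥0∞, (x ^ n) ^ (1 / (n : ℝ)) = x := by
    intro x
    rw [← ENNReal.rpow_natCast, ← ENNReal.rpow_mul, mul_one_div_cancel hnp.ne', ENNReal.rpow_one]
  have hroot2 : ∀ x : ℝ≥0∞, (x ^ (1 / (n : ℝ))) ^ n = x := by
    intro x
    rw [← ENNReal.rpow_natCast, ← ENNReal.rpow_mul, one_div_mul_cancel hnp.ne',
      ENNReal.rpow_one]
  have hBc : IsCompact (Bn n) := isCompact_closedBall _ _
  have hBne : (Bn n).Nonempty := ⟨0, by simp [Bn]⟩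
  have hvB : volume (Bn n) = (ENNReal.ofReal κ) ^ n := by
    rw [← ENNReal.ofReal_pow hκ0.le, hκn, kap, vl, ENNReal.ofReal_toReal hBc.measure_lt_top.ne]
  -- main inequality
  have main : ∀ ε : ℝ, 0 < ε → n * (ε * R) ≤ 1 → t ≤ I + ε * (n * R ^ 2) := by
    intro ε hε hεR
    have hεR2 : ε * R ≤ 1 := by nlinarith [mul_nonneg hε.le hRnn]
    have hinc := incl K R hR ε hε
    set r : EE n → ℝ := fun v => max 0 (1 + ε * sf K v) with hr
    have hrc : Continuous r := by rw [hr]; fun_prop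
    have hp := hpol r hrc.measurable (fun v => le_max_left _ _)
    have hvK : volume (ε • K) = (ENNReal.ofReal (ε * t * κ)) ^ n := by
      rw [Measure.addHaar_smul]
      have e1 : Module.finrank ℝ (EE n) = n := by simp
      rw [e1, abs_of_pos (by positivity), ← ENNReal.ofReal_pow (by positivity), mul_pow, mul_pow,
        htn, hκn, ← ENNReal.ofReal_toReal hK.measure_lt_top.ne, ← ENNReal.ofReal_mul
        (by positivity)]
      congr 1
      change ε ^ n * vl K = _
      field_simp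
    have hbm := hBMF n hn (Bn n) (ε • K) hBc (hK.smul ε) hBne (hne.smul_set)
    rw [hvB, hvK, hroot, hroot, ← ENNReal.ofReal_add hκ0.le (by positivity)] at hbm
    have hbm2 : (ENNReal.ofReal (κ + ε * t * κ)) ^ n ≤ volume (Bn n + ε • K : Set (EE n)) := by
      rw [← hroot2 (volume (Bn n + ε • K : Set (EE n)))]
      exact pow_le_pow_left' hbm n
    have hz : volume ({0} : Set (EE n)) = 0 := by
      have : Nonempty (Fin n) := ⟨⟨0, by omega⟩⟩
      exact measure_singleton _
    have hv2 : volume (Bn n + ε • K : Set (EE n)) ≤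
        ENNReal.ofReal (kap n) * ∫⁻ v, ENNReal.ofReal (r v ^ n) ∂(sph n) := by
      rw [← hp]
      refine (measure_mono hinc).trans ((measure_union_le _ _).trans ?_)
      rw [hz, zero_add]
    have hrbd : ∀ᵐ v ∂(sph n), ‖r v ^ n‖ ≤ (1 + ε * R) ^ n := by
      filter_upwards [hbd] with v hv
      rw [norm_pow, Real.norm_of_nonneg (le_max_left _ _)]
      apply pow_le_pow_left₀ (le_max_left _ _)
      apply max_le (by positivity)
      have h2 : sf K v ≤ R := (le_abs_self _).trans (by rwa [Real.norm_eq_abs] at hv)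
      have h3 : ε * sf K v ≤ ε * R := mul_le_mul_of_nonneg_left h2 hε.le
      linarith
    have hrint : Integrable (fun v => r v ^ n) (sph n) :=
      Integrable.of_bound (hrc.pow n).aestronglyMeasurable _ hrbd
    have h2 : ∫⁻ v, ENNReal.ofReal (r v ^ n) ∂(sph n) =
        ENNReal.ofReal (∫ v, r v ^ n ∂(sph n)) :=
      (ofReal_integral_eq_lintegral_ofReal hrint (Eventually.of_forall fun v =>
        pow_nonneg (le_max_left _ _) n)).symm
    have hJ0 : 0 ≤ ∫ v, r v ^ n ∂(sph n) :=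
      integral_nonneg fun v => pow_nonneg (le_max_left _ _) n
    rw [h2, ← ENNReal.ofReal_mul hkap.le] at hv2
    have h3 := hbm2.trans hv2
    rw [← ENNReal.ofReal_pow (by positivity), ENNReal.ofReal_le_ofReal_iff (by positivity)] at h3
    have h4 : (1 + ε * t) ^ n ≤ ∫ v, r v ^ n ∂(sph n) := by
      have e1 : (κ + ε * t * κ) ^ n = kap n * (1 + ε * t) ^ n := by
        rw [← hκn, ← mul_pow]
        congr 1
        ring
      rw [e1] at h3
      exact le_of_mul_le_mul_left h3 hkap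
    have h5 : 1 + n * (ε * t) ≤ (1 + ε * t) ^ n :=
      one_add_mul_le_pow (by nlinarith [mul_nonneg hε.le ht0]) n
    have h6 : ∀ᵐ v ∂(sph n), r v ^ n ≤ 1 + n * (ε * sf K v) + (n * (ε * R)) ^ 2 := by
      filter_upwards [hbd] with v hv
      rw [Real.norm_eq_abs] at hv
      have a1 : |ε * sf K v| ≤ ε * R := by
        rw [abs_mul, abs_of_pos hε]
        exact mul_le_mul_of_nonneg_left hv hε.le
      have a2 : |n * (ε * sf K v)| ≤ n * (ε * R) := by
        rw [abs_mul, abs_of_pos hnp]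
        exact mul_le_mul_of_nonneg_left a1 hnp.le
      have a3 : 0 ≤ 1 + ε * sf K v := by
        have := (abs_le.1 a1).1
        linarith
      have a4 : r v = 1 + ε * sf K v := by
        rw [hr]
        exact max_eq_right a3
      rw [a4]
      have a5 : (1 + ε * sf K v) ^ n ≤ Real.exp (n * (ε * sf K v)) := by
        rw [Real.exp_nat_mul]
        apply pow_le_pow_left₀ a3
        linarith [Real.add_one_le_exp (ε * sf K v)]
      have a6 := Real.abs_exp_sub_one_sub_id_le (x := n * (ε * sf K v)) (a2.trans hεR)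
      have a7 : (n * (ε * sf K v)) ^ 2 ≤ (n * (ε * R)) ^ 2 := by
        rw [← sq_abs]
        exact pow_le_pow_left₀ (abs_nonneg _) a2 2
      rw [abs_le] at a6
      linarith [a6.2]
    have h7 : Integrable (fun v => 1 + n * (ε * sf K v) + (n * (ε * R)) ^ 2) (sph n) :=
      ((integrable_const _).add ((hint.const_mul ε).const_mul _)).add (integrable_const _)
    have h8 := integral_mono_ae hrint h7 h6
    have h9 : ∫ v, (1 + n * (ε * sf K v) + (n * (ε * R)) ^ 2) ∂(sph n) =
        1 + n * (ε * I) + (n * (ε * R)) ^ 2 := by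
      have e1 : (fun v => 1 + n * (ε * sf K v) + (n * (ε * R)) ^ 2) =
          fun v => (n * ε) * sf K v + (1 + (n * (ε * R)) ^ 2) := by
        funext v; ring
      rw [e1, integral_add (hint.const_mul _) (integrable_const _), integral_const_mul, ← hI]
      simp
      ring
    rw [h9] at h8
    have h10 : (n * ε) * t ≤ (n * ε) * (I + ε * (n * R ^ 2)) := by
      nlinarith
    exact le_of_mul_le_mul_left h10 (by positivity)
  -- the limit
  have hfin : t ≤ I := by
    apply le_of_forall_pos_le_add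
    intro δ hδ
    have hRp : 0 < R := by linarith
    set ε : ℝ := min (1 / (n * R)) (δ / (n * R ^ 2)) with hεd
    have hε : 0 < ε := by
      rw [hεd]
      exact lt_min (by positivity) (by positivity)
    have e1 : ε ≤ 1 / (n * R) := min_le_left _ _
    have e3 : ε ≤ δ / (n * R ^ 2) := min_le_right _ _
    rw [le_div_iff₀ (by positivity)] at e1 e3
    have h1 := main ε hε (by linarith)
    linarith
  have h1 : vl K = kap n * t ^ n := by
    rw [htn]
    field_simp
  rw [h1]
  exact mul_le_mul_of_nonneg_left (pow_le_pow_left₀ ht0 hfin n) hkap.le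

end PPW
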