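import Pool.Agent.PPW.Stmts2

/-!
# Module EQ3 of squad PPW: volumes and chords
-/

set_option autoImplicit false

namespace PPW

open MeasureTheory Set Filter Topology ProbabilityTheory
open PPI PPG PPX
open scoped Pointwise ENNReal

namespace EQ3_

variable {n : ℕ}

/-- the chord of `S` through `x` in direction `u` -/
def ch (S : Set (EE n)) (u x : EE n) : Set ℝ := {t | x + t • u ∈ S}

/-- the slab -/
def sl (u : EE n) : Set (EE n) := {x | 0 ≤ inner ℝ x u ∧ inner ℝ x u < 1}

theorem sl_meas (u : EE n) : MeasurableSet (sl u) := by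
  have h1 : Measurable fun x : EE n => inner ℝ x u :=
    (continuous_id.inner continuous_const).measurable
  exact (measurableSet_le measurable_const h1).inter (measurableSet_lt h1 measurable_const)

theorem fub (S : Set (EE n)) (hS : MeasurableSet S) (u : EE n) (hu : ‖u‖ = 1) :
    volume S = ∫⁻ x in sl u, volume (ch S u x) := by
  have hm1 : Measurable fun p : EE n × ℝ => p.1 + p.2 • u :=
    (continuous_fst.add (continuous_snd.smul continuous_const)).measurable
  have hm2 : Measurable fun p : EE n × ℝ => p.1 - p.2 • u :=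
    (continuous_fst.sub (continuous_snd.smul continuous_const)).measurable
  have hI1 : Measurable fun x : EE n => (sl u).indicator (fun _ => (1 : ℝ≥0∞)) x :=
    measurable_const.indicator (sl_meas u)
  have hI2 : Measurable fun x : EE n => S.indicator (fun _ => (1 : ℝ≥0∞)) x :=
    measurable_const.indicator hS
  have e1 : ∫⁻ x in sl u, volume (ch S u x) =
      ∫⁻ x : EE n, ∫⁻ t : ℝ, (sl u).indicator (fun _ => (1 : ℝ≥0∞)) x *
        S.indicator (fun _ => (1 : ℝ≥0∞)) (x + t • u) := by
    rw [← lintegral_indicator (sl_meas u)]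
    refine lintegral_congr fun x => ?_
    have e2 : ∫⁻ t : ℝ, (sl u).indicator (fun _ => (1 : ℝ≥0∞)) x *
        S.indicator (fun _ => (1 : ℝ≥0∞)) (x + t • u) =
        (sl u).indicator (fun _ => (1 : ℝ≥0∞)) x *
          ∫⁻ t : ℝ, S.indicator (fun _ => (1 : ℝ≥0∞)) (x + t • u) := by
      refine lintegral_const_mul _ ?_
      exact hI2.comp (hm1.comp (measurable_const.prodMk measurable_id))
    have hms : MeasurableSet (ch S u x) := by
      have : Measurable fun t : ℝ => x + t • u :=
        (continuous_const.add (continuous_id.smul continuous_const)).measurable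
      exact this hS
    have e3 : ∫⁻ t : ℝ, S.indicator (fun _ => (1 : ℝ≥0∞)) (x + t • u) = volume (ch S u x) := by
      rw [← lintegral_indicator_one hms]
      refine lintegral_congr fun t => ?_
      by_cases ht : x + t • u ∈ S
      · rw [indicator_of_mem ht, indicator_of_mem (show t ∈ ch S u x from ht)]
        rfl
      · rw [indicator_of_notMem ht, indicator_of_notMem (show t ∉ ch S u x from ht)]
    rw [e2, e3]
    by_cases hx : x ∈ sl u
    · rw [indicator_of_mem hx, indicator_of_mem hx, one_mul]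
    · rw [indicator_of_notMem hx, indicator_of_notMem hx, zero_mul]
  rw [e1]
  rw [lintegral_lintegral_swap]
  swap
  · refine Measurable.aemeasurable ?_
    exact (hI1.comp measurable_fst).mul (hI2.comp hm1)
  have e4 : ∀ t : ℝ, ∫⁻ x : EE n, (sl u).indicator (fun _ => (1 : ℝ≥0∞)) x *
        S.indicator (fun _ => (1 : ℝ≥0∞)) (x + t • u) =
      ∫⁻ y : EE n, (sl u).indicator (fun _ => (1 : ℝ≥0∞)) (y - t • u) *
        S.indicator (fun _ => (1 : ℝ≥0∞)) y := by
    intro t
    rw [← lintegral_add_right_eq_self (fun y : EE n =>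
      (sl u).indicator (fun _ => (1 : ℝ≥0∞)) (y - t • u) *
        S.indicator (fun _ => (1 : ℝ≥0∞)) y) (t • u)]
    refine lintegral_congr fun x => ?_
    rw [add_sub_cancel_right]
  simp_rw [e4]
  rw [lintegral_lintegral_swap]
  swap
  · refine Measurable.aemeasurable ?_
    exact (hI1.comp (hm2.comp measurable_swap)).mul (hI2.comp measurable_snd)
  rw [← lintegral_indicator_one hS]
  refine lintegral_congr fun y => ?_
  by_cases hy : y ∈ S
  · rw [indicator_of_mem hy, indicator_of_mem hy]
    have e5 : ∀ t : ℝ, (sl u).indicator (fun _ => (1 : ℝ≥0∞)) (y - t • u) * 1 =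
        (Ioc (inner ℝ y u - 1) (inner ℝ y u)).indicator 1 t := by
      intro t
      have h1 : inner ℝ (y - t • u) u = inner ℝ y u - t := by
        rw [inner_sub_left, real_inner_smul_left, real_inner_self_eq_norm_sq, hu]
        ring
      by_cases ht : t ∈ Ioc (inner ℝ y u - 1) (inner ℝ y u)
      · have : y - t • u ∈ sl u := by
          refine ⟨?_, ?_⟩
          · rw [h1]
            linarith [ht.2]
          · rw [h1]
            linarith [ht.1]
        rw [indicator_of_mem this, indicator_of_mem ht, mul_one]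
        rfl
      · have : y - t • u ∉ sl u := by
          intro h
          have h2 := h.1
          have h3 := h.2
          rw [h1] at h2 h3
          exact ht ⟨by linarith, by linarith⟩
        rw [indicator_of_notMem this, indicator_of_notMem ht, zero_mul]
    simp_rw [e5]
    rw [lintegral_indicator_one measurableSet_Ioc, Real.volume_Ioc]
    simp
  · rw [indicator_of_notMem hy, indicator_of_notMem hy]
    simp

/-- points of the average -/
theorem avg {K : Set (EE n)} {u y z : EE n} (hy : y ∈ K) (hz : z ∈ K) :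
    (1 / 2 : ℝ) • (y + z) + (-inner ℝ z u) • u ∈ (1 / 2 : ℝ) • (K + rf u '' K) := by
  refine ⟨y + rf u z, ⟨y, hy, rf u z, ⟨z, hz, rfl⟩, rfl⟩, ?_⟩
  simp only [rf]
  module

/-- the chord of the average is long -/
theorem chM {K : Set (EE n)} {u y z : EE n} (hK : Convex ℝ ((1 / 2 : ℝ) • (K + rf u '' K)))
    (hy : y ∈ K) (hz : z ∈ K) :
    ENNReal.ofReal (inner ℝ (y - z) u) ≤
      volume (ch ((1 / 2 : ℝ) • (K + rf u '' K)) u ((1 / 2 : ℝ) • (y + z))) := by
  have h1 := avg (u := u) hy hz
  have h2 := avg (u := u) hz hy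
  rw [add_comm z y] at h2
  have h3 : Icc (-inner ℝ y u) (-inner ℝ z u) ⊆
      ch ((1 / 2 : ℝ) • (K + rf u '' K)) u ((1 / 2 : ℝ) • (y + z)) := by
    have hc : Convex ℝ (ch ((1 / 2 : ℝ) • (K + rf u '' K)) u ((1 / 2 : ℝ) • (y + z))) := by
      intro a ha b hb s t hs ht hst
      have h4 := hK ha hb hs ht hst
      have e : s • ((1 / 2 : ℝ) • (y + z) + a • u) + t • ((1 / 2 : ℝ) • (y + z) + b • u) =
          (1 / 2 : ℝ) • (y + z) + (s • a + t • b) • u := by
        have : t = 1 - s := by linarith
        subst this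
        simp only [smul_eq_mul]
        module
      rw [e] at h4
      exact h4
    intro t ht
    exact hc.ordConnected.out h2 h1 ht
  calc ENNReal.ofReal (inner ℝ (y - z) u)
      = volume (Icc (-inner ℝ y u) (-inner ℝ z u)) := by
        rw [Real.volume_Icc, inner_sub_left]
        congr 1
        ring
    _ ≤ _ := measure_mono h3

/-- the chord is compact -/
theorem ch_comp {K : Set (EE n)} (hK : IsCompact K) {u : EE n} (hu : ‖u‖ = 1) (x : EE n) :
    IsCompact (ch K u x) := by
  refine Metric.isCompact_of_isClosed_isBounded ?_ ?_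
  · have : Continuous fun t : ℝ => x + t • u := by fun_prop
    exact hK.isClosed.preimage this
  · obtain ⟨R, hR⟩ := hK.isBounded.exists_norm_le
    refine (Metric.isBounded_iff_subset_closedBall (0 : ℝ)).2 ⟨R + ‖x‖, fun t ht => ?_⟩
    rw [mem_closedBall_zero_iff]
    have h1 := hR _ ht
    have h2 : ‖t • u‖ = ‖t‖ := by rw [norm_smul, hu, mul_one]
    rw [← h2]
    calc ‖t • u‖ = ‖(x + t • u) - x‖ := by rw [add_sub_cancel_left]
      _ ≤ ‖x + t • u‖ + ‖x‖ := norm_sub_le _ _
      _ ≤ R + ‖x‖ := by linarith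

/-- short chords -/
def sh (K : Set (EE n)) (u : EE n) (a : ℝ) (x : EE n) : Prop :=
  ∀ s r : ℝ, x + s • u ∈ K → x + r • u ∈ K → s - r < a

theorem sh_vol {K : Set (EE n)} (hK : IsCompact K) {u : EE n} (hu : ‖u‖ = 1) {x : EE n} {a : ℝ}
    (ha : 0 < a) (h : sh K u a x) : volume (ch K u x) < ENNReal.ofReal a := by
  rcases (ch K u x).eq_empty_or_nonempty with h0 | h0
  · rw [h0, measure_empty]
    exact ENNReal.ofReal_pos.2 ha
  · obtain ⟨s, hs, hs'⟩ := (ch_comp hK hu x).exists_isMaxOn h0 continuous_id.continuousOn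
    obtain ⟨r, hr, hr'⟩ := (ch_comp hK hu x).exists_isMinOn h0 continuous_id.continuousOn
    have h1 : ch K u x ⊆ Icc r s := fun t ht => ⟨hr' ht, hs' ht⟩
    calc volume (ch K u x) ≤ volume (Icc r s) := measure_mono h1
      _ = ENNReal.ofReal (s - r) := Real.volume_Icc
      _ < ENNReal.ofReal a := (ENNReal.ofReal_lt_ofReal_iff ha).2 (h s r hs hr)

/-- short chords: an open condition -/
theorem sh_open {K : Set (EE n)} (hK : IsCompact K) (u : EE n) (hu : ‖u‖ = 1) (a : ℝ) :
    IsOpen {x : EE n | sh K u a x} := by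
  rw [← isClosed_compl_iff]
  set C : Set (EE n) := (fun p : EE n × EE n => p.1) ''
    ((K ×ˢ K) ∩ {p | p.1 - p.2 = (inner ℝ (p.1 - p.2) u) • u ∧ a ≤ inner ℝ (p.1 - p.2) u})
    with hC
  have hCc : IsCompact C := by
    refine IsCompact.image ?_ continuous_fst
    refine (hK.prod hK).inter_right ?_
    have h1 : IsClosed {p : EE n × EE n | p.1 - p.2 = (inner ℝ (p.1 - p.2) u) • u} :=
      isClosed_eq (by fun_prop) (by fun_prop)
    have h2 : IsClosed {p : EE n × EE n | a ≤ inner ℝ (p.1 - p.2) u} :=
      isClosed_le (by fun_prop) (by fun_prop)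
    exact h1.inter h2
  have hL : IsClosed {v : EE n | v = (inner ℝ v u) • u} :=
    isClosed_eq (by fun_prop) (by fun_prop)
  have hS : IsClosed (C + {v : EE n | v = (inner ℝ v u) • u}) := hL.add_left_of_isCompact hCc
  have huu : ∀ t : ℝ, inner ℝ (t • u) u = t := by
    intro t
    rw [real_inner_smul_left, real_inner_self_eq_norm_sq, hu]
    ring
  have e : {x : EE n | sh K u a x}ᶜ = C + {v : EE n | v = (inner ℝ v u) • u} := by
    ext x
    constructor
    · intro hx
      have hx' : ¬ sh K u a x := hx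
      unfold sh at hx'
      push Not at hx'
      obtain ⟨s, r, hs, hr, hsr⟩ := hx'
      refine ⟨x + s • u, ⟨(x + s • u, x + r • u), ⟨⟨hs, hr⟩, ?_⟩, rfl⟩, (-s) • u, ?_, ?_⟩
      · have e1 : (x + s • u) - (x + r • u) = (s - r) • u := by module
        refine ⟨?_, ?_⟩
        · show (x + s • u) - (x + r • u) = (inner ℝ ((x + s • u) - (x + r • u)) u) • u
          rw [e1, huu]
        · show a ≤ inner ℝ ((x + s • u) - (x + r • u)) u
          rw [e1, huu]
          exact hsr
      · show (-s) • u = (inner ℝ ((-s) • u) u) • u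
        rw [huu]
      · show (x + s • u) + (-s) • u = x
        module
    · rintro ⟨p, ⟨⟨p', q⟩, ⟨⟨hp, hq⟩, h1, h2⟩, rfl⟩, v, hv, rfl⟩
      simp only at hp hq h1 h2
      intro hsh
      have hsh' : sh K u a (p' + v) := hsh
      have hv' : v = (inner ℝ v u) • u := hv
      have h3 := hsh' (-(inner ℝ v u)) (-(inner ℝ v u) - inner ℝ (p' - q) u)
      have e1 : (p' + v) + (-(inner ℝ v u)) • u = p' := by
        conv_lhs => rw [hv']
        rw [huu]
        module
      have e2 : (p' + v) + (-(inner ℝ v u) - inner ℝ (p' - q) u) • u = q := by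
        have : (p' + v) + (-(inner ℝ v u) - inner ℝ (p' - q) u) • u =
            ((p' + v) + (-(inner ℝ v u)) • u) - (inner ℝ (p' - q) u) • u := by module
        rw [this, e1, ← h1]
        abel
      rw [e1, e2] at h3
      have h4 := h3 hp hq
      linarith
  rw [e]
  exact hS

end EQ3_

open EQ3_ in
theorem eq3_proof : Stmt_EQ3 := by
  intro n K u _hn hKc hKk hKi hu hvol
  by_contra hCH
  unfold CH at hCH
  push Not at hCH
  obtain ⟨y, hy, z, hz, hyz⟩ := hCH
  set M : Set (EE n) := (1 / 2 : ℝ) • (K + rf u '' K) with hM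
  have hrf : IsLinearMap ℝ (rf u) := by
    refine ⟨fun x y => ?_, fun c x => ?_⟩
    · simp only [rf, inner_add_left]
      module
    · simp only [rf, real_inner_smul_left]
      module
  have hrc : Continuous (rf u) := by
    unfold rf
    fun_prop
  have hMc : Convex ℝ M := (hKc.add (hKc.is_linear_image hrf)).smul _
  have hMk : IsCompact M := (hKk.add (hKk.image hrc)).smul _
  set a : ℝ := inner ℝ (y - z) u with ha
  have hyzs : sh K u a ((1 / 2 : ℝ) • (y + z)) := by
    intro s r hs hr
    exact hyz s r hs hr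
  have hmem : (1 / 2 : ℝ) • (y + z) ∈ K := by
    have := hKc hy hz (show (0 : ℝ) ≤ 1 / 2 by norm_num) (show (0 : ℝ) ≤ 1 / 2 by norm_num)
      (by norm_num)
    rw [← smul_add] at this
    exact this
  have ha0 : 0 < a := by
    have := hyzs 0 0 (by simpa using hmem) (by simpa using hmem)
    linarith
  -- a slightly smaller length
  obtain ⟨b, hb0, hba, hbs⟩ : ∃ b : ℝ, 0 < b ∧ b < a ∧ sh K u b ((1 / 2 : ℝ) • (y + z)) := by
    have hne : (ch K u ((1 / 2 : ℝ) • (y + z))).Nonempty := ⟨0, by
      show (1 / 2 : ℝ) • (y + z) + (0 : ℝ) • u ∈ K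
      simpa using hmem⟩
    obtain ⟨s, hs, hs'⟩ := (ch_comp hKk hu _).exists_isMaxOn hne continuous_id.continuousOn
    obtain ⟨r, hr, hr'⟩ := (ch_comp hKk hu _).exists_isMinOn hne continuous_id.continuousOn
    have h1 := hyzs s r hs hr
    have h2 : 0 ≤ s - r := by
      have : r ≤ s := hr' hs
      linarith
    refine ⟨((s - r) + a) / 2, by linarith, by linarith, fun s' r' h3 h4 => ?_⟩
    have h5 : s' ≤ s := hs' h3
    have h6 : r ≤ r' := hr' h4
    linarith
  obtain ⟨c, hc⟩ := hKi
  -- move to interior points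
  obtain ⟨ε, hε0, hε1, hε2, hε3⟩ : ∃ ε : ℝ, 0 < ε ∧ ε < 1 ∧ b < (1 - ε) * a ∧
      sh K u b ((1 / 2 : ℝ) • (((1 - ε) • y + ε • c) + ((1 - ε) • z + ε • c))) := by
    have hcont : Continuous fun ε : ℝ =>
        (1 / 2 : ℝ) • (((1 - ε) • y + ε • c) + ((1 - ε) • z + ε • c)) := by fun_prop
    have h1 : ∀ᶠ ε in 𝓝 (0 : ℝ),
        sh K u b ((1 / 2 : ℝ) • (((1 - ε) • y + ε • c) + ((1 - ε) • z + ε • c))) := by
      refine hcont.continuousAt.eventually_mem ((sh_open hKk u hu b).mem_nhds ?_)
      show sh K u b _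
      simpa using hbs
    have h2 : ∀ᶠ ε in 𝓝 (0 : ℝ), b < (1 - ε) * a := by
      have hcont2 : Continuous fun ε : ℝ => (1 - ε) * a := by fun_prop
      refine hcont2.continuousAt.eventually_mem (isOpen_Ioi.mem_nhds ?_)
      show b < (1 - 0) * a
      linarith
    have h3 : ∀ᶠ ε in 𝓝 (0 : ℝ), ε < 1 := gt_mem_nhds one_pos
    have h4 := (h1.and (h2.and h3)).filter_mono (nhdsWithin_le_nhds (s := Ioi (0 : ℝ)))
    have h5 : ∀ᶠ ε in 𝓝[>] (0 : ℝ), 0 < ε := self_mem_nhdsWithin
    obtain ⟨ε, hε, hε'⟩ := (h4.and h5).exists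
    exact ⟨ε, hε', hε.2.2, hε.2.1, hε.1⟩
  set y' : EE n := (1 - ε) • y + ε • c with hy'
  set z' : EE n := (1 - ε) • z + ε • c with hz'
  have hyi : y' ∈ interior K :=
    hKc.combo_self_interior_mem_interior hy hc (by linarith) hε0 (by linarith)
  have hzi : z' ∈ interior K :=
    hKc.combo_self_interior_mem_interior hz hc (by linarith) hε0 (by linarith)
  have hin : inner ℝ (y' - z') u = (1 - ε) * a := by
    rw [ha, ← real_inner_smul_left]
    congr 1
    rw [hy', hz']
    module
  -- the open set
  set m : EE n := (1 / 2 : ℝ) • (y' + z') with hm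
  set τ : ℝ := 1 / 2 - inner ℝ m u with hτ
  set U : Set (EE n) := {x | sh K u b (x - τ • u)} ∩
    ({x | y' + (x - τ • u - m) ∈ interior K} ∩ ({x | z' + (x - τ • u - m) ∈ interior K} ∩
    ({x | 0 < inner ℝ x u} ∩ {x | inner ℝ x u < 1}))) with hU
  have hUo : IsOpen U := by
    refine IsOpen.inter ?_ (IsOpen.inter ?_ (IsOpen.inter ?_ (IsOpen.inter ?_ ?_)))
    · exact (sh_open hKk u hu b).preimage (by fun_prop)
    · exact isOpen_interior.preimage (by fun_prop)
    · exact isOpen_interior.preimage (by fun_prop)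
    · exact isOpen_lt (by fun_prop) (by fun_prop)
    · exact isOpen_lt (by fun_prop) (by fun_prop)
  have huu : ∀ t : ℝ, inner ℝ (t • u) u = t := by
    intro t
    rw [real_inner_smul_left, real_inner_self_eq_norm_sq, hu]
    ring
  have hUn : (m + τ • u) ∈ U := by
    have e1 : m + τ • u - τ • u = m := by module
    have e2 : m + τ • u - τ • u - m = 0 := by module
    have e3 : inner ℝ (m + τ • u) u = 1 / 2 := by
      rw [inner_add_left, huu, hτ]
      ring
    refine ⟨?_, ?_, ?_, ?_, ?_⟩
    · show sh K u b (m + τ • u - τ • u)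
      rw [e1]
      exact hε3
    · show y' + (m + τ • u - τ • u - m) ∈ interior K
      rw [e2, add_zero]
      exact hyi
    · show z' + (m + τ • u - τ • u - m) ∈ interior K
      rw [e2, add_zero]
      exact hzi
    · show 0 < inner ℝ (m + τ • u) u
      rw [e3]
      norm_num
    · show inner ℝ (m + τ • u) u < 1
      rw [e3]
      norm_num
  have hshift : ∀ (S : Set (EE n)) (x : EE n), volume (ch S u x) = volume (ch S u (x - τ • u)) := by
    intro S x
    have e : ch S u x = (fun t => t + τ) ⁻¹' ch S u (x - τ • u) := by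
      ext t
      show x + t • u ∈ S ↔ x - τ • u + (t + τ) • u ∈ S
      have : x - τ • u + (t + τ) • u = x + t • u := by module
      rw [this]
    rw [e, measure_preimage_add_right]
  have hlt : ∀ x ∈ U, volume (ch K u x) < volume (ch M u x) := by
    intro x hx
    obtain ⟨h1, h2, h3, -, -⟩ := hx
    rw [hshift K, hshift M]
    have h4 := sh_vol hKk hu hb0 h1
    have h5 := chM (u := u) (hM ▸ hMc) (interior_subset h2) (interior_subset h3)
    have e1 : inner ℝ (y' + (x - τ • u - m) - (z' + (x - τ • u - m))) u = (1 - ε) * a := by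
      rw [← hin]
      congr 1
      abel
    have e2 : (1 / 2 : ℝ) • (y' + (x - τ • u - m) + (z' + (x - τ • u - m))) = x - τ • u := by
      rw [hm]
      module
    rw [e1, e2] at h5
    calc volume (ch K u (x - τ • u)) < ENNReal.ofReal b := h4
      _ ≤ ENNReal.ofReal ((1 - ε) * a) := ENNReal.ofReal_le_ofReal hε2.le
      _ ≤ _ := h5
  have hle : ∀ x, volume (ch K u x) ≤ volume (ch M u x) := by
    intro x
    rcases (ch K u x).eq_empty_or_nonempty with h0 | h0
    · rw [h0, measure_empty]
      exact zero_le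
    · obtain ⟨s, hs, hs'⟩ := (ch_comp hKk hu x).exists_isMaxOn h0 continuous_id.continuousOn
      obtain ⟨r, hr, hr'⟩ := (ch_comp hKk hu x).exists_isMinOn h0 continuous_id.continuousOn
      have h1 : ch K u x ⊆ Icc r s := fun t ht => ⟨hr' ht, hs' ht⟩
      have h2 := chM (u := u) (hM ▸ hMc) (show x + s • u ∈ K from hs) (show x + r • u ∈ K from hr)
      have e1 : inner ℝ ((x + s • u) - (x + r • u)) u = s - r := by
        have : (x + s • u) - (x + r • u) = (s - r) • u := by module
        rw [this, huu]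
      have e2 : (1 / 2 : ℝ) • ((x + s • u) + (x + r • u)) = x + ((s + r) / 2) • u := by module
      rw [e1, e2] at h2
      have e3 : volume (ch M u (x + ((s + r) / 2) • u)) = volume (ch M u x) := by
        have e : ch M u (x + ((s + r) / 2) • u) = (fun t => t + (s + r) / 2) ⁻¹' ch M u x := by
          ext t
          show x + ((s + r) / 2) • u + t • u ∈ M ↔ x + (t + (s + r) / 2) • u ∈ M
          have : x + ((s + r) / 2) • u + t • u = x + (t + (s + r) / 2) • u := by module
          rw [this]
        rw [e, measure_preimage_add_right]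
      calc volume (ch K u x) ≤ volume (Icc r s) := measure_mono h1
        _ = ENNReal.ofReal (s - r) := Real.volume_Icc
        _ ≤ _ := h2
        _ = _ := e3
  have hmK : MeasurableSet K := hKk.isClosed.measurableSet
  have hmM : MeasurableSet M := hMk.isClosed.measurableSet
  have hfinK : volume K ≠ ∞ := hKk.measure_lt_top.ne
  have hfinM : volume M ≠ ∞ := hMk.measure_lt_top.ne
  have hvol' : volume M ≤ volume K := by
    unfold vl at hvol
    exact (ENNReal.toReal_le_toReal hfinM hfinK).1 hvol
  have hfK := fub K hmK u hu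
  have hfM := fub M hmM u hu
  have hmeas : ∀ S : Set (EE n), MeasurableSet S → Measurable fun x => volume (ch S u x) := by
    intro S hS
    have hm1 : Measurable fun p : EE n × ℝ => p.1 + p.2 • u :=
      (continuous_fst.add (continuous_snd.smul continuous_const)).measurable
    exact measurable_measure_prodMk_left (hm1 hS)
  have hae : (fun x => volume (ch K u x)) =ᵐ[volume.restrict (sl u)]
      fun x => volume (ch M u x) := by
    refine ae_eq_of_ae_le_of_lintegral_le (Eventually.of_forall hle) ?_
      (hmeas M hmM).aemeasurable ?_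
    · rw [← hfK]
      exact hfinK
    · rw [← hfK, ← hfM]
      exact hvol'
  have hUs : U ⊆ sl u := fun x hx => ⟨le_of_lt hx.2.2.2.1, hx.2.2.2.2⟩
  have h0 : volume.restrict (sl u) U = 0 := by
    refine measure_mono_null ?_ (ae_iff.1 hae)
    intro x hx
    exact (hlt x hx).ne
  rw [Measure.restrict_apply hUo.measurableSet, inter_eq_left.2 hUs] at h0
  exact (hUo.measure_pos volume ⟨_, hUn⟩).ne' h0

end PPW
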