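import Pool.Agent.PPW.Stmts2

/-!
# Squad PPW (MP_0bf616_gt), module EQ4: the midpoints of the chords
-/

set_option autoImplicit false

namespace PPW

open MeasureTheory Set Filter Topology ProbabilityTheory
open PPI PPG PPX
open scoped Pointwise ENNReal

namespace EQ4_

variable {n : ℕ}

/-- the top function of the chords in direction `u` -/
def IsTop (K : Set (EE n)) (u : EE n) (T : EE n → ℝ) : Prop :=
  ∀ x ∈ K, x + T x • u ∈ K ∧ ∀ s : ℝ, x + s • u ∈ K → s ≤ T x

theorem exists_top (K : Set (EE n)) (u : EE n) (hK : IsCompact K) (hu : ‖u‖ = 1) :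
    ∃ T : EE n → ℝ, IsTop K u T := by
  have h : ∀ x : EE n, ∃ t : ℝ, x ∈ K → x + t • u ∈ K ∧ ∀ s : ℝ, x + s • u ∈ K → s ≤ t := by
    intro x
    by_cases hx : x ∈ K
    · have hcl : IsClosed {s : ℝ | x + s • u ∈ K} :=
        hK.isClosed.preimage (by fun_prop : Continuous fun s : ℝ => x + s • u)
      obtain ⟨R, hR⟩ := hK.isBounded.exists_norm_le
      have hbd : Bornology.IsBounded {s : ℝ | x + s • u ∈ K} := by
        rw [isBounded_iff_forall_norm_le]
        refine ⟨R + ‖x‖, fun s hs => ?_⟩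
        have h1 : s • u = (x + s • u) - x := by abel
        have h2 : ‖s • u‖ = ‖s‖ := by rw [norm_smul, hu, mul_one]
        rw [← h2, h1]
        exact (norm_sub_le _ _).trans (by have := hR _ hs; linarith)
      have hc : IsCompact {s : ℝ | x + s • u ∈ K} := Metric.isCompact_of_isClosed_isBounded hcl hbd
      have hne : {s : ℝ | x + s • u ∈ K}.Nonempty := ⟨0, by simpa using hx⟩
      obtain ⟨t, ht, hmax⟩ := hc.exists_isGreatest hne
      exact ⟨t, fun _ => ⟨ht, fun s hs => hmax hs⟩⟩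
    · exact ⟨0, fun h => absurd h hx⟩
  choose T hT using h
  exact ⟨T, fun x hx => hT x hx⟩

theorem usc (K : Set (EE n)) (u : EE n) (hK : IsCompact K) (hu : ‖u‖ = 1) (T : EE n → ℝ)
    (hT : IsTop K u T) (p : EE n) (hp : p ∈ K) (ε : ℝ) (hε : 0 < ε) :
    ∃ δ > 0, ∀ x ∈ K, ‖x - p‖ < δ → inner ℝ x u + T x ≤ inner ℝ p u + T p + ε := by
  by_contra hcon
  push Not at hcon
  have h1 : ∀ k : ℕ, ∃ x ∈ K, ‖x - p‖ < 1 / ((k : ℝ) + 1) ∧
      inner ℝ p u + T p + ε < inner ℝ x u + T x := fun k => by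
    obtain ⟨x, hx, h2, h3⟩ := hcon (1 / ((k : ℝ) + 1)) (by positivity)
    exact ⟨x, hx, h2, h3⟩
  choose x hxK hxp hxT using h1
  have hxlim : Tendsto x atTop (𝓝 p) := by
    rw [tendsto_iff_norm_sub_tendsto_zero]
    exact squeeze_zero (fun _ => norm_nonneg _) (fun k => (hxp k).le)
      tendsto_one_div_add_atTop_nhds_zero_nat
  obtain ⟨a, haK, φ, hφ, hlim⟩ := hK.tendsto_subseq (fun k => (hT (x k) (hxK k)).1)
  have hxφ : Tendsto (fun k => x (φ k)) atTop (𝓝 p) := hxlim.comp hφ.tendsto_atTop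
  have hlim' : Tendsto (fun k => x (φ k) + T (x (φ k)) • u) atTop (𝓝 a) := hlim
  have hin : ∀ k, T (x (φ k)) = inner ℝ ((x (φ k) + T (x (φ k)) • u) - x (φ k)) u := by
    intro k
    rw [add_sub_cancel_left, inner_smul_left, real_inner_self_eq_norm_sq, hu]
    simp
  have htl : Tendsto (fun k => T (x (φ k))) atTop (𝓝 (inner ℝ (a - p) u)) := by
    have h2 : Tendsto (fun k => inner ℝ ((x (φ k) + T (x (φ k)) • u) - x (φ k)) u) atTop
        (𝓝 (inner ℝ (a - p) u)) := (hlim'.sub hxφ).inner tendsto_const_nhds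
    exact h2.congr fun k => (hin k).symm
  have ha : a = p + (inner ℝ (a - p) u : ℝ) • u := by
    have h3 : Tendsto (fun k => x (φ k) + T (x (φ k)) • u) atTop
        (𝓝 (p + (inner ℝ (a - p) u : ℝ) • u)) := hxφ.add (htl.smul tendsto_const_nhds)
    exact tendsto_nhds_unique hlim' h3
  have ht : inner ℝ (a - p) u ≤ T p := (hT p hp).2 _ (by rw [← ha]; exact haK)
  have h4 : Tendsto (fun k => inner ℝ (x (φ k)) u + T (x (φ k))) atTop
      (𝓝 (inner ℝ p u + inner ℝ (a - p) u)) := (hxφ.inner tendsto_const_nhds).add htl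
  have h5 : inner ℝ p u + T p + ε ≤ inner ℝ p u + inner ℝ (a - p) u :=
    ge_of_tendsto' h4 fun k => (hxT (φ k)).le
  linarith

theorem half_ineq (K : Set (EE n)) (u : EE n) (hconv : Convex ℝ K) (hK : IsCompact K)
    (hu : ‖u‖ = 1) (hCH : CH K u) (T T' : EE n → ℝ) (hT : IsTop K u T) (hT' : IsTop K (-u) T')
    (p q : EE n) (hp : p ∈ K) (hq : q ∈ K) :
    (inner ℝ q u + T q) + (inner ℝ q u - T' q) ≤ (inner ℝ p u + T p) + (inner ℝ p u - T' p) := by
  have huu : inner ℝ u u = (1 : ℝ) := by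
    rw [real_inner_self_eq_norm_sq, hu]; norm_num
  -- the local inequality
  have hloc : ∀ a b c : EE n, a ∈ K → b ∈ K → c ∈ K → (1 / 2 : ℝ) • (c + a) = b →
      (inner ℝ c u + T c) - (inner ℝ b u + T b) ≤ (inner ℝ a u - T' a) - (inner ℝ b u - T' b) := by
    intro a b c ha hb hc hm
    have hy := (hT c hc).1
    have hz := (hT' a ha).1
    obtain ⟨s, r, hs, hr, hsr⟩ := hCH _ hy _ hz
    have e : (1 / 2 : ℝ) • (c + T c • u + (a + T' a • -u)) = b + ((T c - T' a) / 2) • u := by
      rw [← hm]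
      module
    rw [e] at hs hr
    have hs' : (T c - T' a) / 2 + s ≤ T b := by
      apply (hT b hb).2
      have : b + ((T c - T' a) / 2 + s) • u = b + ((T c - T' a) / 2) • u + s • u := by module
      rw [this]; exact hs
    have hr' : -((T c - T' a) / 2 + r) ≤ T' b := by
      apply (hT' b hb).2
      have : b + (-((T c - T' a) / 2 + r)) • (-u) = b + ((T c - T' a) / 2) • u + r • u := by module
      rw [this]; exact hr
    have e2 : inner ℝ (c + T c • u - (a + T' a • -u)) u = inner ℝ c u + T c - inner ℝ a u + T' a := by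
      rw [inner_sub_left, inner_add_left, inner_add_left, inner_smul_left, inner_smul_left,
        inner_neg_left, huu]
      simp
      ring
    rw [e2] at hsr
    linarith
  refine le_of_forall_pos_le_add fun ε hε => ?_
  obtain ⟨δ₁, hδ₁, h1⟩ := usc K u hK hu T hT p hp (ε / 2) (by positivity)
  obtain ⟨δ₂, hδ₂, h2⟩ := usc K (-u) hK (by rw [norm_neg, hu]) T' hT' q hq (ε / 2) (by positivity)
  -- the number of steps
  obtain ⟨M, hM⟩ := exists_nat_gt (‖q - p‖ / min δ₁ δ₂)
  have hmin : 0 < min δ₁ δ₂ := lt_min hδ₁ hδ₂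
  set N : ℕ := M + 1 with hN
  have hN0 : (0 : ℝ) < N := by rw [hN]; positivity
  have hsmall : ‖q - p‖ / N < min δ₁ δ₂ := by
    rw [div_lt_iff₀ hN0]
    rw [div_lt_iff₀ hmin] at hM
    have : (M : ℝ) ≤ N := by rw [hN]; push_cast; linarith
    nlinarith
  set x : ℕ → EE n := fun i => p + ((i : ℝ) / N) • (q - p) with hx
  have hxK : ∀ i, i ≤ N → x i ∈ K := by
    intro i hi
    have hi' : (i : ℝ) ≤ N := by exact_mod_cast hi
    have h3 := hconv.add_smul_sub_mem hp hq (t := (i : ℝ) / N)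
      ⟨by positivity, by rw [div_le_one hN0]; exact hi'⟩
    exact h3
  have hmid : ∀ i : ℕ, (1 / 2 : ℝ) • (x (i + 2) + x i) = x (i + 1) := by
    intro i
    simp only [hx]
    have e1 : (((i + 2 : ℕ) : ℝ) / N) = (i : ℝ) / N + 2 * (1 / N) := by push_cast; ring
    have e2 : (((i + 1 : ℕ) : ℝ) / N) = (i : ℝ) / N + 1 / N := by push_cast; ring
    rw [e1, e2]
    module
  have htel : ∀ j : ℕ, j + 1 ≤ N → (inner ℝ (x (j + 1)) u + T (x (j + 1))) -
      (inner ℝ (x 1) u + T (x 1)) ≤ (inner ℝ (x 0) u - T' (x 0)) - (inner ℝ (x j) u - T' (x j)) := by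
    intro j
    induction j with
    | zero => intro _; simp
    | succ j ih =>
      intro hj
      have h3 := ih (by omega)
      have h4 := hloc (x j) (x (j + 1)) (x (j + 2)) (hxK _ (by omega)) (hxK _ (by omega))
        (hxK _ (by omega)) (hmid j)
      linarith
  have h3 := htel M (by omega)
  have ex0 : x 0 = p := by simp [hx]
  have exN : x (M + 1) = q := by
    simp only [hx]
    rw [← hN, div_self hN0.ne', one_smul]
    abel
  rw [ex0, exN] at h3
  have hN1 : 1 ≤ N := by omega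
  have hx1 : inner ℝ (x 1) u + T (x 1) ≤ inner ℝ p u + T p + ε / 2 := by
    refine h1 _ (hxK _ hN1) ?_
    have : x 1 - p = ((1 : ℝ) / N) • (q - p) := by simp [hx]
    rw [this, norm_smul, Real.norm_of_nonneg (by positivity)]
    calc (1 : ℝ) / N * ‖q - p‖ = ‖q - p‖ / N := by ring
      _ < min δ₁ δ₂ := hsmall
      _ ≤ δ₁ := min_le_left _ _
  have hxM : inner ℝ (x M) (-u) + T' (x M) ≤ inner ℝ q (-u) + T' q + ε / 2 := by
    refine h2 _ (hxK _ (by omega)) ?_
    have hc : ((M : ℝ) / N) = 1 - 1 / N := by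
      rw [eq_sub_iff_add_eq, ← add_div, div_eq_one_iff_eq hN0.ne', hN]
      push_cast; ring
    have : x M - q = (-((1 : ℝ) / N)) • (q - p) := by
      simp only [hx]
      rw [hc]
      module
    rw [this, norm_smul, norm_neg, Real.norm_of_nonneg (by positivity)]
    calc (1 : ℝ) / N * ‖q - p‖ = ‖q - p‖ / N := by ring
      _ < min δ₁ δ₂ := hsmall
      _ ≤ δ₂ := min_le_right _ _
  rw [inner_neg_right, inner_neg_right] at hxM
  linarith

end EQ4_

open EQ4_ in
theorem eq4_proof : Stmt_EQ4 := by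
  intro n K u _ hconv hK hne hu hCH
  obtain ⟨T, hT⟩ := exists_top K u hK hu
  obtain ⟨T', hT'⟩ := exists_top K (-u) hK (by rw [norm_neg, hu])
  obtain ⟨x₀, hx₀⟩ := hne
  have hx₀ : x₀ ∈ K := interior_subset hx₀
  refine ⟨((inner ℝ x₀ u + T x₀) + (inner ℝ x₀ u - T' x₀)) / 2, fun x hx => ?_⟩
  have h1 := half_ineq K u hconv hK hu hCH T T' hT hT' x x₀ hx hx₀
  have h2 := half_ineq K u hconv hK hu hCH T T' hT hT' x₀ x hx₀ hx
  have e : 2 * (((inner ℝ x₀ u + T x₀) + (inner ℝ x₀ u - T' x₀)) / 2 - inner ℝ x u) =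
      T x - T' x := by linarith
  rw [e]
  have hT0 : 0 ≤ T x := (hT x hx).2 0 (by simpa using hx)
  have hT'0 : 0 ≤ T' x := (hT' x hx).2 0 (by simpa using hx)
  rcases eq_or_lt_of_le (add_nonneg hT0 hT'0) with h0 | h0
  · have h3 : T x = 0 := by linarith
    have h4 : T' x = 0 := by linarith
    rw [h3, h4]; simpa using hx
  · have h5 := hconv (hT x hx).1 (hT' x hx).1 (div_nonneg hT0 h0.le) (div_nonneg hT'0 h0.le)
      (by rw [← add_div, div_self h0.ne'])
    have e2 : (T x / (T x + T' x)) • (x + T x • u) + (T' x / (T x + T' x)) • (x + T' x • -u) =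
        x + (T x - T' x) • u := by
      have e3 : T x / (T x + T' x) = 1 - T' x / (T x + T' x) := by
        field_simp
        ring
      have e4 : T x - T' x = T x - T' x / (T x + T' x) * (T x + T' x) := by
        rw [div_mul_cancel₀ _ h0.ne']
      rw [e3, e4]
      module
    rw [e2] at h5
    exact h5

end PPW
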