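import Pool.Agent.PPW.Stmts2

/-!
# Squad PPW (MP_0bf616_gt), module EQ5: a body with all symmetries is a ball
-/

set_option autoImplicit false

open MeasureTheory Set Filter Topology ProbabilityTheory
open PPI PPG PPX
open scoped Pointwise ENNReal

namespace PPW

namespace EQ5_

/-- composition of the reflections in the coordinate hyperplanes -/
theorem center (n : ℕ) (K : Set (EE n)) (c : Fin n → ℝ)
    (h : ∀ i, ∀ x ∈ K, x + (2 * (c i - x i) : ℝ) • EuclideanSpace.single i (1 : ℝ) ∈ K)
    (S : Finset (Fin n)) : ∀ x ∈ K,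
      x + ∑ i ∈ S, (2 * (c i - x i) : ℝ) • EuclideanSpace.single i (1 : ℝ) ∈ K := by
  classical
  induction S using Finset.induction_on with
  | empty =>
    intro x hx
    simpa using hx
  | insert j S hj ih =>
    intro x hx
    have h1 := ih x hx
    have h2 := h j _ h1
    have h3 : (x + ∑ i ∈ S, (2 * (c i - x i) : ℝ) • EuclideanSpace.single i (1 : ℝ)) j = x j := by
      have h4 : (∑ i ∈ S, (2 * (c i - x i) : ℝ) • EuclideanSpace.single i (1 : ℝ)) j = 0 := by
        rw [WithLp.ofLp_sum, Finset.sum_apply]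
        refine Finset.sum_eq_zero fun i hi => ?_
        have hij : j ≠ i := by
          rintro rfl
          exact hj hi
        rw [PiLp.smul_apply, PiLp.single_apply, if_neg hij, smul_zero]
      rw [PiLp.add_apply, h4, add_zero]
    rw [h3] at h2
    rw [Finset.sum_insert hj]
    have h5 : x + ((2 * (c j - x j) : ℝ) • EuclideanSpace.single j (1 : ℝ) +
        ∑ i ∈ S, (2 * (c i - x i) : ℝ) • EuclideanSpace.single i (1 : ℝ)) =
        x + ∑ i ∈ S, (2 * (c i - x i) : ℝ) • EuclideanSpace.single i (1 : ℝ) +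
          (2 * (c j - x j) : ℝ) • EuclideanSpace.single j (1 : ℝ) := by
      abel
    rw [h5]
    exact h2

theorem iterate {n : ℕ} {K : Set (EE n)} (hK : IsCompact K) (hne : K.Nonempty) (w : EE n)
    (h : ∀ x ∈ K, x + w ∈ K) : w = 0 := by
  obtain ⟨x, hx⟩ := hne
  have h1 : ∀ m : ℕ, x + (m : ℝ) • w ∈ K := by
    intro m
    induction m with
    | zero => simpa using hx
    | succ m ih =>
      have h2 := h _ ih
      have h3 : x + ((m + 1 : ℕ) : ℝ) • w = x + (m : ℝ) • w + w := by
        push_cast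
        rw [add_smul, one_smul]
        abel
      rw [h3]
      exact h2
  obtain ⟨R, hR⟩ := hK.isBounded.exists_norm_le
  by_contra hw
  have hw' : 0 < ‖w‖ := norm_pos_iff.2 hw
  obtain ⟨m, hm⟩ := exists_nat_gt ((R + ‖x‖) / ‖w‖)
  have h4 := hR _ (h1 m)
  have h5 : (m : ℝ) * ‖w‖ ≤ R + ‖x‖ := by
    have h6 : ‖(m : ℝ) • w‖ ≤ ‖x + (m : ℝ) • w‖ + ‖x‖ := by
      have h7 : (m : ℝ) • w = (x + (m : ℝ) • w) - x := by abel
      calc ‖(m : ℝ) • w‖ = ‖(x + (m : ℝ) • w) - x‖ := by rw [← h7]
        _ ≤ ‖x + (m : ℝ) • w‖ + ‖x‖ := norm_sub_le _ _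
    rw [norm_smul, Real.norm_of_nonneg (Nat.cast_nonneg m)] at h6
    linarith
  rw [div_lt_iff₀ hw'] at hm
  linarith

theorem sum_coord {n : ℕ} (y : EE n) :
    ∑ i, (y i) • EuclideanSpace.single i (1 : ℝ) = y := by
  ext j
  rw [WithLp.ofLp_sum, Finset.sum_apply, Finset.sum_eq_single j]
  · rw [PiLp.smul_apply, PiLp.single_apply, if_pos rfl, smul_eq_mul, mul_one]
  · intro i _ hij
    rw [PiLp.smul_apply, PiLp.single_apply, if_neg (Ne.symm hij), smul_zero]
  · intro h
    exact absurd (Finset.mem_univ j) h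

end EQ5_

theorem eq5_proof : Stmt_EQ5 := by
  classical
  intro n K hn hconv hcomp hint href
  have hne : K.Nonempty := hint.mono interior_subset
  -- the centre
  choose c hc using fun i : Fin n => href (EuclideanSpace.single i (1 : ℝ)) (by simp)
  have hc' : ∀ i, ∀ x ∈ K, x + (2 * (c i - x i) : ℝ) • EuclideanSpace.single i (1 : ℝ) ∈ K := by
    intro i x hx
    have h := hc i x hx
    have h1 : inner ℝ x (EuclideanSpace.single i (1 : ℝ)) = x i := by
      rw [EuclideanSpace.inner_single_right]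
      simp
    rw [h1] at h
    exact h
  set z : EE n := WithLp.toLp 2 c with hz
  have hzi : ∀ i, z i = c i := fun i => rfl
  have hpt : ∀ x ∈ K, (2 : ℝ) • z - x ∈ K := by
    intro x hx
    have h := EQ5_.center n K c hc' Finset.univ x hx
    have h1 : x + ∑ i, (2 * (c i - x i) : ℝ) • EuclideanSpace.single i (1 : ℝ) =
        (2 : ℝ) • z - x := by
      have h2 : ∑ i, (2 * (c i - x i) : ℝ) • EuclideanSpace.single i (1 : ℝ) =
          (2 : ℝ) • (z - x) := by
        rw [← EQ5_.sum_coord ((2 : ℝ) • (z - x))]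
        refine Finset.sum_congr rfl fun i _ => ?_
        rw [PiLp.smul_apply, PiLp.sub_apply, hzi, smul_eq_mul]
      rw [h2, smul_sub, two_smul, two_smul]
      abel
    rw [h1] at h
    exact h
  -- all reflections fix the centre
  have hfix : ∀ u : EE n, ‖u‖ = 1 → ∀ x ∈ K, x - (2 * inner ℝ (x - z) u : ℝ) • u ∈ K := by
    intro u hu
    obtain ⟨d, hd⟩ := href u hu
    have huu : inner ℝ u u = (1 : ℝ) := by
      rw [real_inner_self_eq_norm_sq, hu, one_pow]
    have h0 : (4 * (d - inner ℝ z u) : ℝ) • u = 0 := by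
      refine EQ5_.iterate hcomp hne _ fun x hx => ?_
      -- start from `2 z - x`
      have h1 := hd _ (hpt x hx)
      have h2 := hpt _ h1
      have h3 := hd _ h2
      have e1 : inner ℝ ((2 : ℝ) • z - x) u = 2 * inner ℝ z u - inner ℝ x u := by
        rw [inner_sub_left, real_inner_smul_left]
      have e2 : inner ℝ ((2 : ℝ) • z - ((2 : ℝ) • z - x +
          (2 * (d - inner ℝ ((2 : ℝ) • z - x) u) : ℝ) • u)) u =
          inner ℝ x u - 2 * (d - (2 * inner ℝ z u - inner ℝ x u)) := by
        rw [inner_sub_left, inner_add_left, e1, real_inner_smul_left, real_inner_smul_left, huu]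
        ring
      rw [e2, e1] at h3
      have e3 : (2 : ℝ) • z - ((2 : ℝ) • z - x +
          (2 * (d - (2 * inner ℝ z u - inner ℝ x u)) : ℝ) • u) +
          (2 * (d - (inner ℝ x u - 2 * (d - (2 * inner ℝ z u - inner ℝ x u)))) : ℝ) • u =
          x + (4 * (d - inner ℝ z u) : ℝ) • u := by
        module
      rw [e3] at h3
      exact h3
    have hu0 : u ≠ 0 := by
      rintro rfl
      simp at hu
    have hd' : d = inner ℝ z u := by
      rcases smul_eq_zero.1 h0 with h1 | h1
      · linarith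
      · exact absurd h1 hu0
    intro x hx
    have h1 := hd x hx
    have h2 : x + (2 * (d - inner ℝ x u) : ℝ) • u = x - (2 * inner ℝ (x - z) u : ℝ) • u := by
      rw [hd', inner_sub_left]
      module
    rw [h2] at h1
    exact h1
  -- rotations
  have hrot : ∀ x ∈ K, ∀ y : EE n, ‖y - z‖ = ‖x - z‖ → y ∈ K := by
    intro x hx y hy
    by_cases hxy : x = y
    · rw [← hxy]
      exact hx
    · have hxy' : x - y ≠ 0 := sub_ne_zero.2 hxy
      have hpos : 0 < ‖x - y‖ := norm_pos_iff.2 hxy'
      have h1 := hfix (‖x - y‖⁻¹ • (x - y)) (by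
        rw [norm_smul, norm_inv, norm_norm, inv_mul_cancel₀ hpos.ne']) x hx
      have h2 : 2 * inner ℝ (x - z) (x - y) = ‖x - y‖ ^ 2 := by
        have h3 : x - y = (x - z) - (y - z) := by abel
        rw [h3, inner_sub_right, norm_sub_sq_real, real_inner_self_eq_norm_sq, hy]
        ring
      have h4 : x - (2 * inner ℝ (x - z) (‖x - y‖⁻¹ • (x - y)) : ℝ) • (‖x - y‖⁻¹ • (x - y)) =
          y := by
        rw [inner_smul_right, smul_smul]
        have h5 : 2 * (‖x - y‖⁻¹ * inner ℝ (x - z) (x - y)) * ‖x - y‖⁻¹ = 1 := by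
          have h6 : 2 * (‖x - y‖⁻¹ * inner ℝ (x - z) (x - y)) * ‖x - y‖⁻¹ =
              (2 * inner ℝ (x - z) (x - y)) * (‖x - y‖⁻¹ * ‖x - y‖⁻¹) := by ring
          rw [h6, h2, sq]
          field_simp
        rw [h5, one_smul]
        abel
      rw [h4] at h1
      exact h1
  -- the radius
  obtain ⟨x0, hx0, hmax⟩ := hcomp.exists_isMaxOn hne
    (f := fun x : EE n => ‖x - z‖) (by fun_prop)
  have hzK : z ∈ K := by
    have h1 := hconv hx0 (hpt x0 hx0) (by norm_num : (0 : ℝ) ≤ 1 / 2)
      (by norm_num : (0 : ℝ) ≤ 1 / 2) (by norm_num)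
    have h2 : (1 / 2 : ℝ) • x0 + (1 / 2 : ℝ) • ((2 : ℝ) • z - x0) = z := by module
    rw [h2] at h1
    exact h1
  have hball : K = Metric.closedBall z ‖x0 - z‖ := by
    ext y
    rw [Metric.mem_closedBall, dist_eq_norm]
    constructor
    · intro hy
      exact hmax hy
    · intro hy
      by_cases hyz : y = z
      · rw [hyz]
        exact hzK
      · have hpos : 0 < ‖y - z‖ := norm_pos_iff.2 (sub_ne_zero.2 hyz)
        set w : EE n := z + (‖x0 - z‖ / ‖y - z‖) • (y - z) with hw
        have hwK : w ∈ K := by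
          refine hrot x0 hx0 w ?_
          have h1 : w - z = (‖x0 - z‖ / ‖y - z‖) • (y - z) := by
            rw [hw]
            abel
          rw [h1, norm_smul, Real.norm_of_nonneg (by positivity), div_mul_cancel₀ _ hpos.ne']
        have hr : 0 < ‖x0 - z‖ := hpos.trans_le hy
        have ht0 : 0 ≤ ‖y - z‖ / ‖x0 - z‖ := by positivity
        have ht1 : ‖y - z‖ / ‖x0 - z‖ ≤ 1 := by
          rw [div_le_one hr]
          exact hy
        have h1 := hconv hzK hwK (by linarith : (0 : ℝ) ≤ 1 - ‖y - z‖ / ‖x0 - z‖) ht0 (by ring)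
        have h2 : (1 - ‖y - z‖ / ‖x0 - z‖ : ℝ) • z + (‖y - z‖ / ‖x0 - z‖) • w = y := by
          rw [hw, smul_add, smul_smul]
          have h3 : ‖y - z‖ / ‖x0 - z‖ * (‖x0 - z‖ / ‖y - z‖) = 1 := by
            field_simp
          rw [h3]
          module
        rw [h2] at h1
        exact h1
  refine ⟨z, ‖x0 - z‖, ?_, hball⟩
  rcases (norm_nonneg (x0 - z)).lt_or_eq with h | h
  · exact h
  · exfalso
    rw [← h, Metric.closedBall_zero] at hball
    have : Nonempty (Fin n) := ⟨⟨0, hn⟩⟩
    have : Nontrivial (EE n) := inferInstance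
    rw [hball, interior_singleton] at hint
    exact Set.not_nonempty_empty hint

end PPW
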