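import Pool.Agent.PPW.Stmts2

/-!
Squad PPW, module EQB: equality in the Brunn-Minkowski inequality for a ball.
-/

set_option autoImplicit false

namespace PPW

open MeasureTheory Set Filter Topology ProbabilityTheory
open PPI PPG PPX
open scoped Pointwise ENNReal

namespace EQB_

theorem rf_lin {n : ℕ} (u : EE n) : IsLinearMap ℝ (rf u) where
  map_add x y := by
    simp only [rf, inner_add_left, mul_add, add_smul]
    abel
  map_smul c x := by
    simp only [rf, real_inner_smul_left, smul_sub, smul_smul]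
    congr 2
    ring

theorem rf_cont {n : ℕ} (u : EE n) : Continuous (rf u) := by
  unfold rf
  fun_prop

theorem vl_closedBall {n : ℕ} (z : EE n) {r : ℝ} (hr : 0 ≤ r) :
    vl (Metric.closedBall z r) = r ^ n * kap n := by
  have h1 := Measure.addHaar_closedBall (volume : Measure (EE n)) z hr
  have h2 := Measure.addHaar_closedBall (volume : Measure (EE n)) 0 zero_le_one
  rw [one_pow, ENNReal.ofReal_one, one_mul] at h2
  unfold kap vl Bn
  rw [h1, h2, ENNReal.toReal_mul, ENNReal.toReal_ofReal (by positivity), finrank_euclideanSpace_fin]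

theorem interior_nonempty {n : ℕ} {K : Set (EE n)} (hc : Convex ℝ K) (hk : IsCompact K)
    (h : 0 < vl K) : (interior K).Nonempty := by
  by_contra hcon
  rw [not_nonempty_iff_eq_empty] at hcon
  have h1 : volume (frontier K) = 0 := hc.addHaar_frontier volume
  have h2 : frontier K = K := by
    rw [hk.isClosed.frontier_eq, hcon, sdiff_empty]
  rw [h2] at h1
  unfold vl at h
  rw [h1] at h
  simp at h

end EQB_

open EQB_ in
theorem eqb_proof (hEQ1 : Stmt_EQ1) (hEQ2 : Stmt_EQ2) (hEQR : Stmt_EQR) (hEQ3 : Stmt_EQ3)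
    (hEQ4 : Stmt_EQ4) (hEQ5 : Stmt_EQ5) (hAVE : PPI.Stmt_AVE) : Stmt_EQB := by
  intro n K hn hc hk hvl hstep
  have hn1 : 1 ≤ n := by omega
  have hkap : 0 < kap n := (hAVE n hn1).1
  have hvp : 0 < vl K := by rw [hvl]; exact hkap
  have hint := interior_nonempty hc hk hvp
  have hne : K.Nonempty := hint.mono interior_subset
  have h1 := hEQ1 n K hn1 hc hk hne hstep
  have hch : ∀ u : EE n, ‖u‖ = 1 → ∃ c : ℝ, ∀ x ∈ K, x + (2 * (c - inner ℝ x u) : ℝ) • u ∈ K := by
    intro u hu
    refine hEQ4 n K u hn hc hk hint hu (hEQ3 n K u hn hc hk hint hu ?_)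
    have hMc : Convex ℝ ((1 / 2 : ℝ) • (K + rf u '' K)) :=
      (hc.add (hc.is_linear_image (rf_lin u))).smul _
    have hMk : IsCompact ((1 / 2 : ℝ) • (K + rf u '' K)) :=
      (hk.add (hk.image (rf_cont u))).smul _
    have hMn : ((1 / 2 : ℝ) • (K + rf u '' K)).Nonempty :=
      (hne.add (hne.image _)).smul_set
    obtain ⟨h2, h3⟩ := hEQ2 n _ hn1 hMc hMk hMn
    rw [hEQR n K u hn1 hc hk hne hu] at h2 h3
    refine h3.trans ?_
    rw [hvl]
    have h4 := pow_le_one₀ (n := n) h2 h1
    nlinarith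
  obtain ⟨z, r, hr, hK⟩ := hEQ5 n K hn1 hc hk hint hch
  refine ⟨z, ?_⟩
  have h5 : r ^ n = 1 := by
    have h6 := hvl
    rw [hK, vl_closedBall z hr.le] at h6
    have h7 : (r ^ n - 1) * kap n = 0 := by linarith
    rcases mul_eq_zero.1 h7 with h8 | h8
    · linarith
    · exact absurd h8 hkap.ne'
  have h6 : r = 1 := (pow_eq_one_iff_of_nonneg hr.le (by omega)).1 h5
  rw [hK, h6]
  unfold Bn
  ext x
  simp only [Metric.mem_closedBall, mem_image, dist_eq_norm, sub_zero]
  constructor
  · intro h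
    exact ⟨x - z, h, by abel⟩
  · rintro ⟨y, hy, rfl⟩
    rw [add_sub_cancel_right]
    exact hy

end PPW
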