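import Pool.Agent.PPW.Stmts2

/-!
# Squad PPW (MP_0bf616_gt): module EQR
-/

set_option autoImplicit false

namespace PPW

open MeasureTheory Set Filter Topology ProbabilityTheory
open PPI PPG PPX
open scoped Pointwise ENNReal

namespace EQR_

variable {n : ℕ}

/-- the maximum is attained -/
theorem exists_max {K : Set (EE n)} (hK : IsCompact K) (hne : K.Nonempty) (v : EE n) :
    ∃ x ∈ K, (∀ y ∈ K, (inner ℝ y v : ℝ) ≤ inner ℝ x v) ∧ sf K v = inner ℝ x v := by
  have hc : ContinuousOn (fun x : EE n => (inner ℝ x v : ℝ)) K :=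
    (continuous_id.inner continuous_const).continuousOn
  obtain ⟨x, hx, hmax⟩ := hK.exists_isMaxOn hne hc
  refine ⟨x, hx, fun y hy => hmax hy, ?_⟩
  refine IsGreatest.csSup_eq ⟨mem_image_of_mem _ hx, ?_⟩
  rintro _ ⟨y, hy, rfl⟩
  exact hmax hy

/-- the reflection as an isometry -/
theorem exists_iso (u : EE n) (hu : ‖u‖ = 1) : ∃ g : EE n ≃ₗᵢ[ℝ] EE n, ∀ x, g x = rf u x := by
  refine ⟨((ℝ ∙ u).reflection).trans (LinearIsometryEquiv.neg ℝ), fun x => ?_⟩
  rw [LinearIsometryEquiv.trans_apply, LinearIsometryEquiv.coe_neg,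
    Submodule.reflection_singleton_apply, rf]
  rw [real_inner_comm x u, hu]
  simp only [RCLike.ofReal_real_eq_id, id_eq, one_pow, div_one]
  rw [neg_sub, mul_smul, two_smul, two_smul]

theorem inner_rf (u x v : EE n) : (inner ℝ (rf u x) v : ℝ) = inner ℝ x (rf u v) := by
  unfold rf
  rw [inner_sub_left, inner_sub_right, inner_smul_left, inner_smul_right, real_inner_comm v u]
  simp only [conj_trivial]
  rw [real_inner_comm u v]
  ring

theorem sf_avg {K : Set (EE n)} (hK : IsCompact K) (hne : K.Nonempty) (u v : EE n) :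
    sf ((1 / 2 : ℝ) • (K + rf u '' K)) v = (1 / 2 : ℝ) * (sf K v + sf K (rf u v)) := by
  obtain ⟨x, hx, hx1, hx2⟩ := exists_max hK hne v
  obtain ⟨y, hy, hy1, hy2⟩ := exists_max hK hne (rf u v)
  have hval : ∀ a b : EE n, (inner ℝ ((1 / 2 : ℝ) • (a + rf u b)) v : ℝ) =
      (1 / 2 : ℝ) * (inner ℝ a v + inner ℝ b (rf u v)) := by
    intro a b
    rw [real_inner_smul_left, inner_add_left, inner_rf]
  rw [hx2, hy2]
  refine IsGreatest.csSup_eq ⟨?_, ?_⟩
  · refine ⟨(1 / 2 : ℝ) • (x + rf u y), ?_, hval x y⟩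
    exact smul_mem_smul_set (add_mem_add hx (mem_image_of_mem _ hy))
  · rintro _ ⟨z, hz, rfl⟩
    obtain ⟨w, hw, rfl⟩ := mem_smul_set.1 hz
    obtain ⟨a, ha, b', ⟨b, hb, rfl⟩, rfl⟩ := mem_add.1 hw
    show (inner ℝ ((1 / 2 : ℝ) • (a + rf u b)) v : ℝ) ≤ _
    rw [hval]
    have h1 := hx1 a ha
    have h2 := hy1 b hb
    linarith

theorem continuous_sf {K : Set (EE n)} (hK : IsCompact K) : Continuous (sf K) := by
  have h : Continuous (fun p : EE n × EE n => (inner ℝ p.2 p.1 : ℝ)) :=
    continuous_snd.inner continuous_fst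
  exact hK.continuous_sSup (f := fun v x => (inner ℝ x v : ℝ)) h

end EQR_

open EQR_

theorem eqr_proof (hSPH : PPX.Stmt_SPH) : Stmt_EQR := by
  intro n K u hn _ hK hne hu
  obtain ⟨hprob, hnorm, hmap, -, -, -⟩ := hSPH n hn
  obtain ⟨g, hg⟩ := exists_iso u hu
  obtain ⟨M, hM⟩ := hK.isBounded.exists_norm_le
  have hint : Integrable (fun v => sf K v) (sph n) := by
    refine Integrable.of_bound (continuous_sf hK).aestronglyMeasurable M ?_
    filter_upwards [hnorm] with v hv
    obtain ⟨x, hx, -, hx2⟩ := exists_max hK hne v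
    rw [hx2]
    refine (norm_inner_le_norm x v).trans ?_
    rw [hv, mul_one]
    exact hM x hx
  have hint' : Integrable (fun v => sf K (g v)) (sph n) := by
    have h1 : Integrable (fun v => sf K v) ((sph n).map g) := by
      rw [hmap g]
      exact hint
    exact h1.comp_measurable g.continuous.measurable
  have heq : ∫ v, sf K (g v) ∂(sph n) = ∫ v, sf K v ∂(sph n) := by
    have h1 : ∫ v, sf K v ∂((sph n).map g) = ∫ v, sf K (g v) ∂(sph n) :=
      integral_map g.continuous.measurable.aemeasurable (continuous_sf hK).aestronglyMeasurable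
    rw [hmap g] at h1
    exact h1.symm
  have h2 : (fun v => sf ((1 / 2 : ℝ) • (K + rf u '' K)) v) =
      fun v => (1 / 2 : ℝ) * (sf K v + sf K (g v)) := by
    funext v
    rw [sf_avg hK hne, hg]
  rw [h2, integral_const_mul, integral_add hint hint', heq]
  ring

end PPW
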