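import Pool.Agent.PPW.Stmts

/-!
EST: the corrections outside the main block are small in Hilbert-Schmidt norm.
-/

set_option autoImplicit false

namespace PPW

open MeasureTheory Set Filter Topology ProbabilityTheory
open PPI PPG PPX
open scoped Pointwise ENNReal

namespace EST_

variable {n : ℕ} {ι : Type}

/-- mixed sums -/
noncomputable def am (S : Finset ι) (α : ι → ℝ) (a b : ι → EE n) : Matrix (Fin n) (Fin n) ℝ :=
  Matrix.of fun k l => ∑ i ∈ S, α i * (a i k * b i l)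

/-- a matrix as a vector -/
noncomputable def vec (M : Matrix (Fin n) (Fin n) ℝ) : EuclideanSpace ℝ (Fin n × Fin n) :=
  WithLp.toLp 2 fun q => M q.1 q.2

lemma vec_norm (M : Matrix (Fin n) (Fin n) ℝ) : ‖vec M‖ = √(hs M) := by
  rw [EuclideanSpace.norm_eq, hs, Fintype.sum_prod_type]
  simp [vec]

lemma tri (M N : Matrix (Fin n) (Fin n) ℝ) : √(hs (M + N)) ≤ √(hs M) + √(hs N) := by
  rw [← vec_norm, ← vec_norm, ← vec_norm]
  exact norm_add_le (vec M) (vec N)

lemma tris (M N : Matrix (Fin n) (Fin n) ℝ) : √(hs (M - N)) ≤ √(hs M) + √(hs N) := by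
  rw [← vec_norm, ← vec_norm, ← vec_norm]
  exact norm_sub_le (vec M) (vec N)

lemma hs_nonneg (M : Matrix (Fin n) (Fin n) ℝ) : 0 ≤ hs M :=
  Finset.sum_nonneg fun _ _ => Finset.sum_nonneg fun _ _ => sq_nonneg _

lemma nsq (v : EE n) : ‖v‖ ^ 2 = ∑ k, v k ^ 2 := by
  rw [EuclideanSpace.norm_sq_eq]
  simp

lemma key (S : Finset ι) (α : ι → ℝ) (a b : ι → EE n) (Q : ℝ) (hα : ∀ i ∈ S, 0 ≤ α i)
    (hQ : 0 ≤ Q) (h : ∀ e : EE n, ∑ i ∈ S, α i * (inner ℝ (b i) e) ^ 2 ≤ Q * ‖e‖ ^ 2) :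
    hs (am S α a b) ≤ Q * ∑ i ∈ S, α i * ‖a i‖ ^ 2 := by
  have row : ∀ k, ∑ l, (am S α a b k l) ^ 2 ≤ Q * ∑ i ∈ S, α i * (a i k) ^ 2 := by
    intro k
    set V : EE n := ∑ i ∈ S, (α i * a i k) • b i with hV
    have e1 : ∑ l, (am S α a b k l) ^ 2 = ‖V‖ ^ 2 := by
      rw [nsq]
      apply Finset.sum_congr rfl
      intro l _
      congr 1
      simp [hV, am, mul_assoc]
    have e2 : ‖V‖ ^ 2 = ∑ i ∈ S, (α i * a i k) * inner ℝ (b i) V := by
      calc ‖V‖ ^ 2 = inner ℝ V V := (real_inner_self_eq_norm_sq V).symm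
        _ = inner ℝ (∑ i ∈ S, (α i * a i k) • b i) V := by rw [← hV]
        _ = _ := by
          rw [sum_inner]
          exact Finset.sum_congr rfl fun i _ => by rw [real_inner_smul_left]
    set R := ∑ i ∈ S, α i * (a i k) ^ 2 with hR
    have hR0 : 0 ≤ R := Finset.sum_nonneg fun i hi => mul_nonneg (hα i hi) (sq_nonneg _)
    have cs : (∑ i ∈ S, (α i * a i k) * inner ℝ (b i) V) ^ 2 ≤
        R * ∑ i ∈ S, α i * (inner ℝ (b i) V) ^ 2 := by
      apply Finset.sum_sq_le_sum_mul_sum_of_sq_le_mul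
      · exact fun i hi => mul_nonneg (hα i hi) (sq_nonneg _)
      · exact fun i hi => mul_nonneg (hα i hi) (sq_nonneg _)
      · intro i _
        apply le_of_eq
        ring
    rw [← e2] at cs
    have h1 := mul_le_mul_of_nonneg_left (h V) hR0
    rw [e1]
    have h2 : ‖V‖ ^ 2 * ‖V‖ ^ 2 ≤ (Q * R) * ‖V‖ ^ 2 := by nlinarith
    rcases (sq_nonneg ‖V‖).eq_or_lt with h0 | h0
    · rw [← h0]; exact mul_nonneg hQ hR0
    · exact le_of_mul_le_mul_right h2 h0
  calc hs (am S α a b) ≤ ∑ k, Q * ∑ i ∈ S, α i * (a i k) ^ 2 :=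
        Finset.sum_le_sum fun k _ => row k
    _ = Q * ∑ i ∈ S, α i * ‖a i‖ ^ 2 := by
        rw [← Finset.mul_sum, Finset.sum_comm]
        congr 1
        apply Finset.sum_congr rfl
        intro i _
        rw [nsq, Finset.mul_sum]

lemma hs_swap (S : Finset ι) (α : ι → ℝ) (a b : ι → EE n) :
    hs (am S α a b) = hs (am S α b a) := by
  rw [hs, hs, Finset.sum_comm]
  apply Finset.sum_congr rfl
  intro k _
  apply Finset.sum_congr rfl
  intro l _
  congr 1
  simp only [am, Matrix.of_apply]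
  exact Finset.sum_congr rfl fun i _ => by ring

lemma sm_add (S : Finset ι) (α : ι → ℝ) (a b : ι → EE n) :
    sm S α (fun i => a i + b i) = sm S α a + (am S α a b + am S α b a + am S α b b) := by
  ext k l
  simp only [sm, am, Matrix.of_apply, Matrix.add_apply, PiLp.add_apply]
  rw [← Finset.sum_add_distrib, ← Finset.sum_add_distrib, ← Finset.sum_add_distrib]
  exact Finset.sum_congr rfl fun i _ => by ring

lemma tr_sm (S : Finset ι) (α : ι → ℝ) (u : ι → EE n) :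
    (sm S α u).trace = ∑ i ∈ S, α i * ‖u i‖ ^ 2 := by
  simp only [Matrix.trace, Matrix.diag_apply, sm, Matrix.of_apply]
  rw [Finset.sum_comm]
  apply Finset.sum_congr rfl
  intro i _
  rw [nsq, Finset.mul_sum]
  exact Finset.sum_congr rfl fun k _ => by ring

lemma orth {m : ℕ} {P : EE n →L[ℝ] EE n} (hP : PR m P) (x y : EE n) :
    inner ℝ (P x) (y - P y) = 0 := by
  rw [hP.sym, map_sub, hP.idem, sub_self, inner_zero_right]

lemma pyth {m : ℕ} {P : EE n →L[ℝ] EE n} (hP : PR m P) (x y : EE n) :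
    ‖P x + (y - P y)‖ ^ 2 = ‖P x‖ ^ 2 + ‖y - P y‖ ^ 2 := by
  rw [@norm_add_sq_real, orth hP]
  ring

lemma pyth' {m : ℕ} {P : EE n →L[ℝ] EE n} (hP : PR m P) (x : EE n) :
    ‖x‖ ^ 2 = ‖P x‖ ^ 2 + ‖x - P x‖ ^ 2 := by
  rw [← pyth hP]
  congr 2
  abel

lemma sq2 (u v : EE n) : ‖u + v‖ ^ 2 ≤ 2 * ‖u‖ ^ 2 + 2 * ‖v‖ ^ 2 := by
  have := norm_add_le u v
  have h0 := norm_nonneg (u + v)
  nlinarith [sq_nonneg (‖u‖ - ‖v‖), norm_nonneg u, norm_nonneg v]

end EST_

open EST_ in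
theorem est_proof : Stmt_EST := by
  intro n m ι _ S μ a y w P z A Λ Φ ρ hP hμ hz hPz hA h1A hΛ hΦ hρ hlam hphi
  have hfz : ∀ i, w i + y i • z = (P (w i) + y i • (z - P z)) +
      ((w i - P (w i)) + y i • P z) := by
    intro i
    rw [smul_sub]
    abel
  have hw : ∀ i, w i = P (w i) + (w i - P (w i)) := fun i => by abel
  have h0 : ∀ i ∈ S, 0 ≤ μ i * a i := fun i hi => mul_nonneg (hμ i hi).1 (hμ i hi).2.1
  have hmuA : ∑ i ∈ S, μ i * a i ≤ A ^ 2 := by
    calc ∑ i ∈ S, μ i * a i ≤ ∑ i ∈ S, μ i * A :=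
          Finset.sum_le_sum fun i hi => mul_le_mul_of_nonneg_left (hμ i hi).2.2.1 (hμ i hi).1
      _ = (∑ i ∈ S, μ i) * A := by rw [Finset.sum_mul]
      _ ≤ A * A := mul_le_mul_of_nonneg_right hA (by linarith)
      _ = A ^ 2 := by ring
  have hz2 : ‖z‖ ^ 2 ≤ 1 := by nlinarith [norm_nonneg z]
  have hzF := pyth' hP z
  have hh : ∀ i ∈ S, ‖P (w i)‖ ^ 2 + ‖w i - P (w i)‖ ^ 2 = 1 := fun i hi => by
    rw [← pyth' hP, (hμ i hi).2.2.2]; norm_num
  have nP := sq_nonneg ‖P z‖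
  have nF := sq_nonneg ‖z - P z‖
  -- sizes
  have nA1 : ∀ i, ‖P (w i) + y i • (z - P z)‖ ^ 2 = ‖P (w i)‖ ^ 2 + y i ^ 2 * ‖z - P z‖ ^ 2 := by
    intro i
    have e : P (w i) + y i • (z - P z) = P (w i) + (y i • z - P (y i • z)) := by
      rw [map_smul, smul_sub]
    have e2 : y i • z - P (y i • z) = y i • (z - P z) := by rw [map_smul, smul_sub]
    rw [e, pyth hP, e2, norm_smul, mul_pow, Real.norm_eq_abs, sq_abs]
  have nA : ∀ i ∈ S, ‖P (w i) + y i • (z - P z)‖ ^ 2 ≤ 1 + y i ^ 2 := by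
    intro i hi
    rw [nA1]
    have h1 := hh i hi
    have h2 := sq_nonneg ‖w i - P (w i)‖
    have h3 : y i ^ 2 * ‖z - P z‖ ^ 2 ≤ y i ^ 2 * 1 :=
      mul_le_mul_of_nonneg_left (by linarith) (sq_nonneg _)
    linarith
  have nB : ∀ i ∈ S, ‖(w i - P (w i)) + y i • P z‖ ^ 2 ≤ 2 * (1 + y i ^ 2) := by
    intro i hi
    have h1 := hh i hi
    have h2 := sq_nonneg ‖P (w i)‖
    have h3 : y i ^ 2 * ‖P z‖ ^ 2 ≤ y i ^ 2 * 1 :=
      mul_le_mul_of_nonneg_left (by linarith) (sq_nonneg _)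
    have h4 := sq2 (w i - P (w i)) (y i • P z)
    rw [norm_smul, mul_pow, Real.norm_eq_abs, sq_abs] at h4
    linarith
  set q := A * Λ + Φ * ρ ^ 2 with hq
  have hq0 : 0 ≤ q := by positivity
  have hAB0 : 0 ≤ A ^ 2 + Φ := by positivity
  have sumA : ∑ i ∈ S, μ i * a i * (1 + y i ^ 2) ≤ A ^ 2 + Φ := by
    have : ∑ i ∈ S, μ i * a i * (1 + y i ^ 2) =
        (∑ i ∈ S, μ i * a i) + ∑ i ∈ S, μ i * a i * y i ^ 2 := by
      rw [← Finset.sum_add_distrib]
      exact Finset.sum_congr rfl fun i _ => by ring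
    rw [this]
    linarith
  have sA : ∑ i ∈ S, μ i * a i * ‖P (w i) + y i • (z - P z)‖ ^ 2 ≤ A ^ 2 + Φ :=
    (Finset.sum_le_sum fun i hi => mul_le_mul_of_nonneg_left (nA i hi) (h0 i hi)).trans sumA
  have sB : ∑ i ∈ S, μ i * a i * ‖(w i - P (w i)) + y i • P z‖ ^ 2 ≤ 2 * (A ^ 2 + Φ) := by
    calc _ ≤ ∑ i ∈ S, μ i * a i * (2 * (1 + y i ^ 2)) :=
          Finset.sum_le_sum fun i hi => mul_le_mul_of_nonneg_left (nB i hi) (h0 i hi)
      _ = 2 * ∑ i ∈ S, μ i * a i * (1 + y i ^ 2) := by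
          rw [Finset.mul_sum]
          exact Finset.sum_congr rfl fun i _ => by ring
      _ ≤ _ := by linarith
  -- quadratic form of B
  have qB : ∀ e : EE n, ∑ i ∈ S, μ i * a i *
      (inner ℝ ((w i - P (w i)) + y i • P z) e) ^ 2 ≤ (2 * q) * ‖e‖ ^ 2 := by
    intro e
    have c1 : (inner ℝ (P z) e) ^ 2 ≤ ρ ^ 2 * ‖e‖ ^ 2 := by
      have h1 := abs_real_inner_le_norm (P z) e
      have h2 : |inner ℝ (P z) e| ≤ ρ * ‖e‖ :=
        h1.trans (mul_le_mul_of_nonneg_right hPz (norm_nonneg _))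
      calc (inner ℝ (P z) e) ^ 2 = |inner ℝ (P z) e| ^ 2 := (sq_abs _).symm
        _ ≤ (ρ * ‖e‖) ^ 2 := pow_le_pow_left₀ (abs_nonneg _) h2 2
        _ = _ := by ring
    have c2 : ∑ i ∈ S, μ i * a i * (inner ℝ (w i - P (w i)) e) ^ 2 ≤ A * (Λ * ‖e‖ ^ 2) := by
      calc _ ≤ ∑ i ∈ S, A * (μ i * (inner ℝ (w i - P (w i)) e) ^ 2) := by
            apply Finset.sum_le_sum
            intro i hi
            have h1 := mul_le_mul_of_nonneg_left (hμ i hi).2.2.1
              (mul_nonneg (hμ i hi).1 (sq_nonneg (inner ℝ (w i - P (w i)) e)))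
            nlinarith
        _ = A * ∑ i ∈ S, μ i * (inner ℝ (w i - P (w i)) e) ^ 2 := by rw [Finset.mul_sum]
        _ ≤ _ := mul_le_mul_of_nonneg_left (hlam e) (by linarith)
    have c3 : ∑ i ∈ S, μ i * a i * y i ^ 2 * (inner ℝ (P z) e) ^ 2 ≤ Φ * (ρ ^ 2 * ‖e‖ ^ 2) := by
      rw [← Finset.sum_mul]
      exact mul_le_mul hphi c1 (sq_nonneg _) hΦ
    calc _ ≤ ∑ i ∈ S, (2 * (μ i * a i * (inner ℝ (w i - P (w i)) e) ^ 2) +
          2 * (μ i * a i * y i ^ 2 * (inner ℝ (P z) e) ^ 2)) := by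
          apply Finset.sum_le_sum
          intro i hi
          rw [inner_add_left, real_inner_smul_left]
          have h1 : (inner ℝ (w i - P (w i)) e + y i * inner ℝ (P z) e) ^ 2 ≤
              2 * (inner ℝ (w i - P (w i)) e) ^ 2 + 2 * (y i ^ 2 * (inner ℝ (P z) e) ^ 2) := by
            nlinarith [sq_nonneg (inner ℝ (w i - P (w i)) e - y i * inner ℝ (P z) e)]
          have h2 := mul_le_mul_of_nonneg_left h1 (h0 i hi)
          calc _ ≤ _ := h2
            _ = _ := by ring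
      _ = 2 * (∑ i ∈ S, μ i * a i * (inner ℝ (w i - P (w i)) e) ^ 2) +
          2 * ∑ i ∈ S, μ i * a i * y i ^ 2 * (inner ℝ (P z) e) ^ 2 := by
          rw [Finset.sum_add_distrib, Finset.mul_sum, Finset.mul_sum]
      _ ≤ 2 * (A * (Λ * ‖e‖ ^ 2)) + 2 * (Φ * (ρ ^ 2 * ‖e‖ ^ 2)) := by linarith
      _ = _ := by rw [hq]; ring
  -- quadratic form of f and sizes
  have sh : ∑ i ∈ S, μ i * ‖P (w i)‖ ^ 2 ≤ A := by
    calc _ ≤ ∑ i ∈ S, μ i := Finset.sum_le_sum fun i hi => by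
          have h1 := hh i hi
          have h2 := sq_nonneg ‖w i - P (w i)‖
          have h3 := mul_le_mul_of_nonneg_left (by linarith : ‖P (w i)‖ ^ 2 ≤ 1) (hμ i hi).1
          linarith
      _ ≤ A := hA
  have sf : ∑ i ∈ S, μ i * ‖w i - P (w i)‖ ^ 2 ≤ A := by
    calc _ ≤ ∑ i ∈ S, μ i := Finset.sum_le_sum fun i hi => by
          have h1 := hh i hi
          have h2 := sq_nonneg ‖P (w i)‖
          have h3 := mul_le_mul_of_nonneg_left (by linarith : ‖w i - P (w i)‖ ^ 2 ≤ 1) (hμ i hi).1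
          linarith
      _ ≤ A := hA
  have hμ0 : ∀ i ∈ S, 0 ≤ μ i := fun i hi => (hμ i hi).1
  -- six terms
  have t1 : √(hs (am S μ (fun i => P (w i)) (fun i => w i - P (w i)))) ≤ √(Λ * A) :=
    Real.sqrt_le_sqrt ((key S μ _ _ Λ hμ0 hΛ hlam).trans (mul_le_mul_of_nonneg_left sh hΛ))
  have t2 : √(hs (am S μ (fun i => w i - P (w i)) (fun i => P (w i)))) ≤ √(Λ * A) := by
    rw [hs_swap]; exact t1
  have t3 : √(hs (am S μ (fun i => w i - P (w i)) (fun i => w i - P (w i)))) ≤ √(Λ * A) :=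
    Real.sqrt_le_sqrt ((key S μ _ _ Λ hμ0 hΛ hlam).trans (mul_le_mul_of_nonneg_left sf hΛ))
  set s := √(q * (A ^ 2 + Φ)) with hs'
  have s0 : 0 ≤ s := Real.sqrt_nonneg _
  have ssq : s ^ 2 = q * (A ^ 2 + Φ) := Real.sq_sqrt (by positivity)
  have t4 : √(hs (am S (fun i => μ i * a i) (fun i => P (w i) + y i • (z - P z))
      (fun i => (w i - P (w i)) + y i • P z))) ≤ 2 * s := by
    apply Real.sqrt_le_iff.2
    refine ⟨by positivity, ?_⟩
    calc _ ≤ 2 * q * ∑ i ∈ S, μ i * a i * ‖P (w i) + y i • (z - P z)‖ ^ 2 :=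
          key S _ _ _ (2 * q) h0 (by positivity) qB
      _ ≤ 2 * q * (A ^ 2 + Φ) := mul_le_mul_of_nonneg_left sA (by positivity)
      _ ≤ (2 * s) ^ 2 := by rw [mul_pow, ssq]; nlinarith [mul_nonneg hq0 hAB0]
  have t5 : √(hs (am S (fun i => μ i * a i) (fun i => (w i - P (w i)) + y i • P z)
      (fun i => P (w i) + y i • (z - P z)))) ≤ 2 * s := by
    rw [hs_swap]; exact t4
  have t6 : √(hs (am S (fun i => μ i * a i) (fun i => (w i - P (w i)) + y i • P z)
      (fun i => (w i - P (w i)) + y i • P z))) ≤ 2 * s := by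
    apply Real.sqrt_le_iff.2
    refine ⟨by positivity, ?_⟩
    calc _ ≤ 2 * q * ∑ i ∈ S, μ i * a i * ‖(w i - P (w i)) + y i • P z‖ ^ 2 :=
          key S _ _ _ (2 * q) h0 (by positivity) qB
      _ ≤ 2 * q * (2 * (A ^ 2 + Φ)) := mul_le_mul_of_nonneg_left sB (by positivity)
      _ ≤ (2 * s) ^ 2 := by rw [mul_pow, ssq]; nlinarith [mul_nonneg hq0 hAB0]
  -- the matrix
  have eA : sm S (fun i => μ i * a i) (fun i => w i + y i • z) =
      sm S (fun i => μ i * a i) (fun i => P (w i) + y i • (z - P z)) +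
      (am S (fun i => μ i * a i) (fun i => P (w i) + y i • (z - P z))
        (fun i => (w i - P (w i)) + y i • P z) +
      am S (fun i => μ i * a i) (fun i => (w i - P (w i)) + y i • P z)
        (fun i => P (w i) + y i • (z - P z)) +
      am S (fun i => μ i * a i) (fun i => (w i - P (w i)) + y i • P z)
        (fun i => (w i - P (w i)) + y i • P z)) := by
    rw [← sm_add]
    congr 1
    funext i
    exact hfz i
  have eW : sm S μ w = sm S μ (fun i => P (w i)) +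
      (am S μ (fun i => P (w i)) (fun i => w i - P (w i)) +
      am S μ (fun i => w i - P (w i)) (fun i => P (w i)) +
      am S μ (fun i => w i - P (w i)) (fun i => w i - P (w i))) := by
    rw [← sm_add]
    congr 1
    funext i
    exact hw i
  constructor
  · set M1 := am S (fun i => μ i * a i) (fun i => P (w i) + y i • (z - P z))
        (fun i => (w i - P (w i)) + y i • P z)
    set M2 := am S (fun i => μ i * a i) (fun i => (w i - P (w i)) + y i • P z)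
        (fun i => P (w i) + y i • (z - P z))
    set M3 := am S (fun i => μ i * a i) (fun i => (w i - P (w i)) + y i • P z)
        (fun i => (w i - P (w i)) + y i • P z)
    set N1 := am S μ (fun i => P (w i)) (fun i => w i - P (w i))
    set N2 := am S μ (fun i => w i - P (w i)) (fun i => P (w i))
    set N3 := am S μ (fun i => w i - P (w i)) (fun i => w i - P (w i))
    have e : sm S (fun i => μ i * a i) (fun i => w i + y i • z) - sm S μ w -
        (sm S (fun i => μ i * a i) (fun i => P (w i) + y i • (z - P z)) -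
          sm S μ (fun i => P (w i))) = (M1 + M2 + M3) - (N1 + N2 + N3) := by
      rw [eA, eW]
      abel
    rw [e]
    have u1 := tris (M1 + M2 + M3) (N1 + N2 + N3)
    have u2 := tri (M1 + M2) M3
    have u3 := tri M1 M2
    have u4 := tri (N1 + N2) N3
    have u5 := tri N1 N2
    have u : √(hs ((M1 + M2 + M3) - (N1 + N2 + N3))) ≤ 3 * √(Λ * A) + 6 * s := by linarith
    calc hs ((M1 + M2 + M3) - (N1 + N2 + N3)) =
          √(hs ((M1 + M2 + M3) - (N1 + N2 + N3))) ^ 2 := (Real.sq_sqrt (hs_nonneg _)).symm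
      _ ≤ _ := pow_le_pow_left₀ (Real.sqrt_nonneg _) u 2
  · intro hy
    rw [Matrix.trace_sub, Matrix.trace_sub, Matrix.trace_sub, tr_sm, tr_sm, tr_sm, tr_sm]
    rw [← Finset.sum_sub_distrib, ← Finset.sum_sub_distrib, ← Finset.sum_sub_distrib,
      ← Finset.sum_neg_distrib]
    apply Finset.sum_le_sum
    intro i hi
    have e1 : ‖w i + y i • z‖ ^ 2 = 1 + 2 * (y i * inner ℝ (w i) z) + y i ^ 2 * ‖z‖ ^ 2 := by
      rw [@norm_add_sq_real, real_inner_smul_right, (hμ i hi).2.2.2, norm_smul, mul_pow,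
        Real.norm_eq_abs, sq_abs]
      ring
    rw [e1, nA1, (hμ i hi).2.2.2]
    have h1 := hy i hi
    have h2 : y i ^ 2 * ‖z - P z‖ ^ 2 ≤ y i ^ 2 * ‖z‖ ^ 2 :=
      mul_le_mul_of_nonneg_left (by linarith) (sq_nonneg _)
    have h3 := mul_le_mul_of_nonneg_left
      (by linarith : 1 - ‖P (w i)‖ ^ 2 ≤ (1 + 2 * (y i * inner ℝ (w i) z) + y i ^ 2 * ‖z‖ ^ 2) -
        (‖P (w i)‖ ^ 2 + y i ^ 2 * ‖z - P z‖ ^ 2)) (h0 i hi)
    linarith [h3]

end PPW
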