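import Pool.Agent.PPW.Stmts

/-!
# Squad PPW (MP_0bf616_gt), module EXB: the exponential distribution
-/

set_option autoImplicit false

namespace PPW

open MeasureTheory Set Filter Topology ProbabilityTheory
open PPI PPG PPX
open scoped Pointwise ENNReal

namespace EXB_

theorem ex_apply (A : Set ℝ) (hA : MeasurableSet A) :
    ex A = ∫⁻ t in A ∩ Ioi 0, ENNReal.ofReal (Real.exp (-t)) := by
  unfold ex
  rw [withDensity_apply _ hA, Measure.restrict_restrict hA]

theorem tail (s : ℝ) (hs : 0 ≤ s) : ex {t | s < t} = ENNReal.ofReal (Real.exp (-s)) := by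
  have h : {t : ℝ | s < t} = Ioi s := rfl
  rw [h, ex_apply _ measurableSet_Ioi]
  have h2 : Ioi s ∩ Ioi 0 = Ioi s := by
    rw [Ioi_inter_Ioi, max_eq_left hs]
  rw [h2, ← ofReal_integral_eq_lintegral_ofReal (integrableOn_exp_neg_Ioi s)
    (Eventually.of_forall fun t => (Real.exp_pos _).le), integral_exp_neg_Ioi]

theorem prob : IsProbabilityMeasure ex := by
  constructor
  rw [ex_apply _ MeasurableSet.univ, univ_inter,
    ← ofReal_integral_eq_lintegral_ofReal (integrableOn_exp_neg_Ioi 0)
    (Eventually.of_forall fun t => (Real.exp_pos _).le), integral_exp_neg_Ioi]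
  simp

theorem low (s : ℝ) : ex {t | t < s} ≤ ENNReal.ofReal s := by
  have h : {t : ℝ | t < s} = Iio s := rfl
  rw [h, ex_apply _ measurableSet_Iio]
  calc ∫⁻ t in Iio s ∩ Ioi 0, ENNReal.ofReal (Real.exp (-t))
      ≤ ∫⁻ _ in Iio s ∩ Ioi 0, 1 := by
        refine setLIntegral_mono' (measurableSet_Iio.inter measurableSet_Ioi) ?_
        intro t ht
        rw [← ENNReal.ofReal_one]
        refine ENNReal.ofReal_le_ofReal ?_
        rw [Real.exp_le_one_iff]
        have : (0 : ℝ) < t := ht.2
        linarith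
    _ = ENNReal.ofReal s := by
        have h2 : Iio s ∩ Ioi (0 : ℝ) = Ioo 0 s := by
          ext t
          simp only [mem_inter_iff, mem_Iio, mem_Ioi, mem_Ioo]
          exact and_comm
        rw [h2, setLIntegral_one, Real.volume_Ioo, sub_zero]

theorem pos : ∀ᵐ t ∂ex, 0 < t := by
  have h : ∀ᵐ t ∂(volume.restrict (Ioi (0 : ℝ))), 0 < t :=
    ae_restrict_mem measurableSet_Ioi
  exact (withDensity_absolutelyContinuous _ _).ae_le h

theorem meas : Measurable fun t : ℝ => ENNReal.ofReal (Real.exp (-t)) := by fun_prop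

theorem gint : IntegrableOn (fun t : ℝ => t * (ENNReal.ofReal (Real.exp (-t))).toReal) (Ioi 0) := by
  have h := Real.GammaIntegral_convergent (s := 2) (by norm_num)
  refine h.congr_fun ?_ measurableSet_Ioi
  intro t _
  have h1 : (2 : ℝ) - 1 = 1 := by norm_num
  simp only [h1, Real.rpow_one]
  rw [ENNReal.toReal_ofReal (Real.exp_pos _).le, mul_comm]

theorem int1 : Integrable (fun t : ℝ => t) ex := by
  unfold ex
  rw [integrable_withDensity_iff meas (Eventually.of_forall fun t => ENNReal.ofReal_lt_top)]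
  exact gint

theorem int2 : ∫ t, t ∂ex = 1 := by
  unfold ex
  rw [integral_withDensity_eq_integral_toReal_smul meas
    (Eventually.of_forall fun t => ENNReal.ofReal_lt_top)]
  have h := Real.Gamma_eq_integral (s := 2) (by norm_num)
  have h2 : Real.Gamma 2 = 1 := Real.Gamma_two
  rw [← h2, h]
  refine integral_congr_ae (Eventually.of_forall fun t => ?_)
  have h1 : (2 : ℝ) - 1 = 1 := by norm_num
  simp only [h1, Real.rpow_one, smul_eq_mul]
  rw [ENNReal.toReal_ofReal (Real.exp_pos _).le]

end EXB_

open EXB_ in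
theorem exb_proof : Stmt_EXB :=
  ⟨prob, tail, fun s _ => low s, pos, int1, int2⟩

end PPW
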