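import Pool.Agent.PPW.Stmts2

/-!
# Squad PPW, module FIN
-/

set_option autoImplicit false

namespace PPW

open MeasureTheory Set Filter Topology ProbabilityTheory
open PPI PPG PPX
open scoped Pointwise ENNReal

namespace FIN_

lemma vl_image {n : ℕ} (A : EE n →L[ℝ] EE n) (K : Set (EE n)) :
    vl (A '' K) = |A.det| * vl K := by
  unfold vl
  rw [Measure.addHaar_image_continuousLinearMap, ENNReal.toReal_mul,
    ENNReal.toReal_ofReal (abs_nonneg _)]

lemma vl_translate {n : ℕ} (z : EE n) (K : Set (EE n)) :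
    vl ((fun x => x + z) '' K) = vl K := by
  unfold vl
  rw [image_add_right, measure_preimage_add_right]

lemma vl_smul {n : ℕ} (r : ℝ) (hr : 0 ≤ r) (K : Set (EE n)) :
    vl (r • K) = r ^ n * vl K := by
  unfold vl
  rw [Measure.addHaar_smul, ENNReal.toReal_mul, ENNReal.toReal_ofReal (abs_nonneg _),
    finrank_euclideanSpace_fin, abs_of_nonneg (pow_nonneg hr n)]

lemma vl_pos {n : ℕ} {K : Set (EE n)} (hK : IsCompact K) (hi : (interior K).Nonempty) :
    0 < vl K := by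
  unfold vl
  refine ENNReal.toReal_pos ?_ hK.measure_lt_top.ne
  exact (lt_of_lt_of_le (isOpen_interior.measure_pos volume hi)
    (measure_mono interior_subset)).ne'

lemma convex_Pol {n N : ℕ} (v : Fin N → EE n) : Convex ℝ (Pol v) := by
  intro x hx y hy a b ha hb hab i
  rw [inner_add_right, inner_smul_right, inner_smul_right]
  have h1 := mul_le_mul_of_nonneg_left (hx i) ha
  have h2 := mul_le_mul_of_nonneg_left (hy i) hb
  calc a * inner ℝ (v i) x + b * inner ℝ (v i) y ≤ a * 1 + b * 1 := add_le_add h1 h2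
    _ = 1 := by rw [mul_one, mul_one, hab]

lemma smul_sub {n : ℕ} {K : Set (EE n)} (hK : Convex ℝ K) (h0 : (0 : EE n) ∈ K) {a b : ℝ}
    (ha : 0 ≤ a) (hb : 0 < b) (hab : a ≤ b) : a • K ⊆ b • K := by
  rintro _ ⟨x, hx, rfl⟩
  refine ⟨(a / b) • x, ?_, ?_⟩
  · have h1 : 0 ≤ a / b := div_nonneg ha hb.le
    have h2 : a / b ≤ 1 := (div_le_one hb).2 hab
    have h3 := hK h0 hx (sub_nonneg.2 h2) h1 (by ring)
    simpa using h3
  · show b • (a / b) • x = a • x
    rw [smul_smul, mul_div_cancel₀ _ hb.ne']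

/-- the real number inequality -/
lemma reals {n : ℕ} (hn : 2 ≤ n) {c δ δ' D P X Y : ℝ} (hc : 0 < c) (hδ : 0 < δ)
    (hδ' : 1 - δ' = max (1 - δ) (Real.exp (-(c * Real.log (1 + δ) / n))))
    (hX : 0 < X) (hP : 0 < P) (hY : (1 - δ') ^ n * X ≤ Y)
    (h : Real.exp (c * D) * P * Y ^ (n - 1) ≤ P * X ^ (n - 1)) :
    Real.exp (D / n) ≤ 1 + δ := by
  have hn0 : (0 : ℝ) < n := by exact_mod_cast (by omega : 0 < n)
  set e := 1 - δ' with he
  have he1 : Real.exp (-(c * Real.log (1 + δ) / n)) ≤ e := by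
    rw [hδ']
    exact le_max_right _ _
  have he0 : 0 < e := (Real.exp_pos _).trans_le he1
  have h1 : (e ^ n * X) ^ (n - 1) ≤ Y ^ (n - 1) :=
    pow_le_pow_left₀ (by positivity) hY _
  have h2 : Real.exp (c * D) * (e ^ n) ^ (n - 1) ≤ 1 := by
    have h3 : Real.exp (c * D) * P * (e ^ n * X) ^ (n - 1) ≤ P * X ^ (n - 1) :=
      (mul_le_mul_of_nonneg_left h1 (by positivity)).trans h
    rw [mul_pow] at h3
    have h4 : (Real.exp (c * D) * (e ^ n) ^ (n - 1)) * (P * X ^ (n - 1)) ≤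
        1 * (P * X ^ (n - 1)) := by
      calc (Real.exp (c * D) * (e ^ n) ^ (n - 1)) * (P * X ^ (n - 1))
          = Real.exp (c * D) * P * ((e ^ n) ^ (n - 1) * X ^ (n - 1)) := by ring
        _ ≤ P * X ^ (n - 1) := h3
        _ = 1 * (P * X ^ (n - 1)) := (one_mul _).symm
    exact le_of_mul_le_mul_right h4 (by positivity)
  have h5 : c * D + (n * (n - 1 : ℕ) : ℝ) * Real.log e ≤ 0 := by
    have h6 : Real.exp (c * D + (n * (n - 1 : ℕ) : ℝ) * Real.log e) =
        Real.exp (c * D) * (e ^ n) ^ (n - 1) := by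
      rw [Real.exp_add, ← pow_mul]
      congr 1
      rw [mul_comm, Real.exp_mul, Real.exp_log he0]
      rw [← Real.rpow_natCast]
      congr 1
      push_cast
      ring
    rw [← h6] at h2
    exact Real.exp_le_one_iff.1 h2
  have h7 : -(c * Real.log (1 + δ) / n) ≤ Real.log e := (Real.le_log_iff_exp_le he0).2 he1
  have h8 : 0 ≤ Real.log (1 + δ) := Real.log_nonneg (by linarith)
  have h9 : ((n - 1 : ℕ) : ℝ) ≤ n := by exact_mod_cast Nat.sub_le n 1
  have h10 : (0 : ℝ) ≤ ((n - 1 : ℕ) : ℝ) := Nat.cast_nonneg _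
  have h11 : c * D ≤ ((n - 1 : ℕ) : ℝ) * (c * Real.log (1 + δ)) := by
    have h12 : (n * (n - 1 : ℕ) : ℝ) * (-(c * Real.log (1 + δ) / n)) ≤
        (n * (n - 1 : ℕ) : ℝ) * Real.log e := mul_le_mul_of_nonneg_left h7 (by positivity)
    have h13 : (n * (n - 1 : ℕ) : ℝ) * (-(c * Real.log (1 + δ) / n)) =
        -(((n - 1 : ℕ) : ℝ) * (c * Real.log (1 + δ))) := by
      field_simp
    linarith
  have h14 : c * D ≤ c * (n * Real.log (1 + δ)) := by
    have h15 : ((n - 1 : ℕ) : ℝ) * (c * Real.log (1 + δ)) ≤ n * (c * Real.log (1 + δ)) :=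
      mul_le_mul_of_nonneg_right h9 (by positivity)
    linarith
  have h16 : D ≤ n * Real.log (1 + δ) := le_of_mul_le_mul_left h14 hc
  have h17 : D / n ≤ Real.log (1 + δ) := by
    rw [div_le_iff₀ hn0]
    linarith
  calc Real.exp (D / n) ≤ Real.exp (Real.log (1 + δ)) := Real.exp_le_exp.2 h17
    _ = 1 + δ := Real.exp_log (by linarith)

end FIN_

open FIN_ in
theorem fin_proof (hPST : Stmt_PST) (hBST : Stmt_BST) (hCPT : Stmt_CPT) (hEQB : Stmt_EQB)
    (hELL : Stmt_ELL) (hAP2 : PPG.Stmt_AP2) (hMON : PPI.Stmt_MON) (hAVE : PPI.Stmt_AVE) :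
    Stmt_FIN := by
  obtain ⟨c₁, n₁, hc₁, hP⟩ := hPST
  obtain ⟨c₂, n₂, hc₂, hB⟩ := hBST
  refine ⟨c₂, max n₁ n₂, hc₂, ?_⟩
  intro n hn hn2 K hKc hK hKi
  obtain ⟨hB1, hB2⟩ := hB n ((le_max_right _ _).trans hn) hn2 K hKc hK hKi
  refine ⟨hB1, ⟨?_, ?_⟩, hB2⟩
  swap
  · rintro ⟨T, z, hT, rfl⟩
    exact hELL n T z hn2 hT
  intro heq
  have hn1 : 1 ≤ n := by omega
  have hn0 : (0 : ℝ) < n := by exact_mod_cast hn1
  have hkap : 0 < kap n := (hAVE n hn1).1
  have hkap' : 0 < kap (n - 1) := (hAVE (n - 1) (by omega)).1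
  have hPn : 0 < Pn n := by unfold Pn; positivity
  obtain ⟨hM1, hM2, hM3⟩ := hMON n hn2
  obtain ⟨z₀, hz₀⟩ := hKi
  set K₀ : Set (EE n) := (fun x => x + -z₀) '' K with hK₀
  have hK₀c : Convex ℝ K₀ := by
    have := hKc.translate (-z₀)
    have h2 : (fun z : EE n => -z₀ + z) = fun x => x + -z₀ := by
      funext x; rw [add_comm]
    rw [h2] at this
    exact this
  have hK₀k : IsCompact K₀ := hK.image (continuous_id.add continuous_const)
  have hK₀0 : (0 : EE n) ∈ interior K₀ := by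
    rw [hK₀]
    have h1 : (fun x : EE n => x + -z₀) = Homeomorph.addRight (-z₀) := rfl
    rw [h1, ← Homeomorph.image_interior]
    exact ⟨z₀, hz₀, by simp⟩
  have h00 : (0 : EE n) ∈ K₀ := interior_subset hK₀0
  have hvK₀ : vl K₀ = vl K := vl_translate _ _
  have hpK₀ : projBody K₀ = projBody K := hM3 K (-z₀)
  have hX : 0 < vl K₀ := vl_pos hK₀k ⟨0, hK₀0⟩
  obtain ⟨A, hA1, hA2⟩ := hCPT n K₀ hn1 hK₀c hK₀k hK₀0 (by
    intro δ hδ hδ1
    set E := Real.exp (-(c₁ * Real.log (1 + δ) / n)) with hE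
    have hlog : 0 < Real.log (1 + δ) := Real.log_pos (by linarith)
    have hE1 : E < 1 := by
      rw [hE, Real.exp_lt_one_iff]
      have : 0 < c₁ * Real.log (1 + δ) / n := by positivity
      linarith
    have hE0 : 0 < E := Real.exp_pos _
    set δ' := 1 - max (1 - δ) E with hδ'
    have h1 : 0 < δ' := by
      rw [hδ', sub_pos]
      exact max_lt (by linarith) hE1
    have h2 : δ' < 1 := by
      rw [hδ']
      have : 0 < max (1 - δ) E := lt_max_of_lt_right hE0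
      linarith
    have h3 : 1 - δ ≤ 1 - δ' := by
      rw [hδ']
      have := le_max_left (1 - δ) E
      linarith
    have h3' : 1 - δ' = max (1 - δ) E := by rw [hδ']; ring
    obtain ⟨N, v, hv1, hv2, hv3⟩ := hAP2 n K₀ δ' hn1 hK₀c hK₀k hK₀0 h1 h2
    have hY : (1 - δ') ^ n * vl K₀ ≤ vl (Pol v) := by
      rw [← vl_smul _ (by linarith)]
      exact ENNReal.toReal_mono hv1.measure_lt_top.ne (measure_mono hv3)
    have hY0 : 0 < vl (Pol v) := by
      refine lt_of_lt_of_le ?_ hY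
      have : 0 < 1 - δ' := by linarith
      positivity
    obtain ⟨D, A, hD, hA1, hA2, hA3⟩ := hP n N v ((le_max_left _ _).trans hn) hn2 hv1 hY0
    refine ⟨Pol v, A, Real.exp (D / n), hv1, convex_Pol v, hv2, ?_, hA1, ?_, hA2⟩
    · exact (smul_sub hK₀c h00 (by linarith) (by linarith) h3).trans hv3
    · have h4 : vl (projBody (Pol v)) ≤ Pn n * vl K₀ ^ (n - 1) := by
        rw [hvK₀, ← heq, ← hpK₀]
        exact ENNReal.toReal_mono (hM1 K₀ hK₀k) (measure_mono (hM2 _ _ hv1 hK₀k hv2))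
      exact reals hn2 hc₁ hδ h3' hX hPn hY (hA3.trans h4))
  have hdet : A.det ≠ 0 := by
    intro h
    rw [h, abs_zero, zero_mul] at hA1
    exact hX.ne hA1
  set Ae := A.toContinuousLinearEquivOfDetNeZero hdet with hAe
  have hAe1 : ∀ x, Ae x = A x := fun x => rfl
  set B : EE n →L[ℝ] EE n := (Ae.symm : EE n →L[ℝ] EE n) with hBdef
  have hBA : ∀ x, B (A x) = x := fun x => by
    rw [← hAe1]; exact Ae.symm_apply_apply x
  have hAB : ∀ x, A (B x) = x := fun x => by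
    rw [← hAe1]; exact Ae.apply_symm_apply x
  have hBdet : |B.det| * |A.det| = 1 := by
    rw [← abs_mul, ← abs_one]
    congr 1
    have h1 : B.comp A = ContinuousLinearMap.id ℝ (EE n) := by
      ext1 x
      exact hBA x
    have h2 : (B.comp A).det = B.det * A.det := by
      show LinearMap.det ((B : EE n →ₗ[ℝ] EE n).comp (A : EE n →ₗ[ℝ] EE n)) = _
      rw [LinearMap.det_comp]
    rw [← h2, h1]
    show LinearMap.det (LinearMap.id : EE n →ₗ[ℝ] EE n) = 1
    exact LinearMap.det_id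
  have hBv : |B.det| * vl K₀ = kap n := by
    rw [← hA1, ← mul_assoc, hBdet, one_mul]
  obtain ⟨z, hz⟩ := hEQB n (B '' K₀) hn2 (hK₀c.linear_image (B : EE n →ₗ[ℝ] EE n))
    (hK₀k.image B.continuous) (by rw [vl_image, hBv]) (by
      intro t ht
      have h1 : B '' K₀ + t • Bn n = B '' (K₀ + t • (A '' Bn n)) := by
        ext y
        constructor
        · rintro ⟨_, ⟨x, hx, rfl⟩, _, ⟨b, hb, rfl⟩, rfl⟩
          refine ⟨x + t • A b, ⟨x, hx, t • A b, ⟨A b, ⟨b, hb, rfl⟩, rfl⟩, rfl⟩, ?_⟩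
          show B (x + t • A b) = B x + t • b
          rw [map_add, map_smul, hBA]
        · rintro ⟨_, ⟨x, hx, _, ⟨_, ⟨b, hb, rfl⟩, rfl⟩, rfl⟩, rfl⟩
          refine ⟨B x, ⟨x, hx, rfl⟩, t • b, ⟨b, hb, rfl⟩, ?_⟩
          show B x + t • b = B (x + t • A b)
          rw [map_add, map_smul, hBA]
      rw [h1, vl_image]
      calc |B.det| * vl (K₀ + t • (A '' Bn n)) ≤ |B.det| * (vl K₀ * (1 + t) ^ n) :=
            mul_le_mul_of_nonneg_left (hA2 t ht) (abs_nonneg _)
        _ = kap n * (1 + t) ^ n := by rw [← mul_assoc, hBv])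
  refine ⟨A, A z + z₀, hdet, ?_⟩
  ext y
  constructor
  · intro hy
    have h1 : B (y + -z₀) ∈ (fun x => x + z) '' Bn n := by
      rw [← hz]
      exact ⟨y + -z₀, ⟨y, hy, rfl⟩, rfl⟩
    obtain ⟨b, hb, hb2⟩ := h1
    refine ⟨b, hb, ?_⟩
    have h2 : A (b + z) = y + -z₀ := by
      have : b + z = B (y + -z₀) := hb2
      rw [this, hAB]
    show A b + (A z + z₀) = y
    rw [← add_assoc, ← map_add, h2]
    abel
  · rintro ⟨b, hb, rfl⟩
    have h1 : b + z ∈ B '' K₀ := by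
      rw [hz]
      exact ⟨b, hb, rfl⟩
    obtain ⟨_, ⟨x, hx, rfl⟩, h2⟩ := h1
    have h3 : x + -z₀ = A (b + z) := by rw [← h2, hAB]
    have h4 : A b + (A z + z₀) = x := by
      rw [← add_assoc, ← map_add, ← h3]
      abel
    show A b + (A z + z₀) ∈ K
    rw [h4]
    exact hx

end PPW
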