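import Pool.Agent.PPW.Stmts

/-!
# Squad PPW (MP_0bf616_gt), module GC1: the Gaussian profiles for small `x`
-/

set_option autoImplicit false

namespace PPW

open MeasureTheory Set Filter Topology ProbabilityTheory
open PPI PPG PPX
open scoped Pointwise ENNReal

namespace GC1_

/-- the tangent type bound of the integrand -/
lemma ptw (b x r : ℝ) (hb : 0 < b) (hx : 0 < x) (hr : 0 ≤ r) :
    Real.log (b + r) + x / (b + r) ≤ Real.log b + x / b + r / (4 * x) := by
  let g : ℝ → ℝ := fun r => r / (4 * x) - (Real.log (b + r) + x / (b + r))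
  have hd : ∀ s : ℝ, 0 ≤ s → HasDerivAt g (1 / (4 * x) - (1 / (b + s) + (-x / (b + s) ^ 2))) s := by
    intro s hs
    have h0 : b + s ≠ 0 := by positivity
    have h1 : HasDerivAt (fun r : ℝ => b + r) 1 s := (hasDerivAt_id s).const_add b
    have h2 : HasDerivAt (fun r : ℝ => Real.log (b + r)) (1 / (b + s)) s := h1.log h0
    have h3 : HasDerivAt (fun r : ℝ => x / (b + r)) (-x / (b + s) ^ 2) s := by
      have h4 := (hasDerivAt_const s x).fun_div h1 h0
      have h5 : (0 * (b + s) - x * 1) / (b + s) ^ 2 = -x / (b + s) ^ 2 := by ring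
      rw [h5] at h4
      exact h4
    have h6 : HasDerivAt (fun r : ℝ => r / (4 * x)) (1 / (4 * x)) s :=
      (hasDerivAt_id s).div_const (4 * x)
    exact h6.sub (h2.add h3)
  have hmono : MonotoneOn g (Ici 0) := by
    apply monotoneOn_of_deriv_nonneg (convex_Ici 0)
    · intro s hs
      exact (hd s hs).continuousAt.continuousWithinAt
    · intro s hs
      rw [interior_Ici] at hs
      exact (hd s (le_of_lt hs)).differentiableAt.differentiableWithinAt
    · intro s hs
      rw [interior_Ici] at hs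
      rw [(hd s (le_of_lt hs)).deriv]
      have hs0 : (0 : ℝ) < s := hs
      have h0 : 0 < b + s := by positivity
      have h7 : 1 / (4 * x) - (1 / (b + s) + (-x / (b + s) ^ 2)) =
          ((b + s) - 2 * x) ^ 2 / (4 * x * (b + s) ^ 2) := by
        field_simp
        ring
      rw [h7]
      positivity
  have h8 := hmono (mem_Ici.2 le_rfl) (mem_Ici.2 hr) hr
  have h9 : (0 : ℝ) / (4 * x) - (Real.log (b + 0) + x / (b + 0)) ≤
      r / (4 * x) - (Real.log (b + r) + x / (b + r)) := h8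
  rw [add_zero, zero_div] at h9
  linarith

/-- `1 - (1+2w)^(-1/2) ≤ w` -/
lemma bern (w : ℝ) (hw : 0 ≤ w) : 1 - (1 + 2 * w) ^ (-(1 / 2 : ℝ)) ≤ w := by
  have h0 : (0 : ℝ) < 1 + 2 * w := by positivity
  have h1 : (1 + 2 * w) ^ (-(1 / 2 : ℝ)) = (√(1 + 2 * w))⁻¹ := by
    rw [Real.rpow_neg h0.le, Real.sqrt_eq_rpow]
  rw [h1]
  have h2 : √(1 + 2 * w) ≤ 1 + w := by
    rw [show 1 + w = √((1 + w) ^ 2) from (Real.sqrt_sq (by positivity)).symm]
    apply Real.sqrt_le_sqrt
    nlinarith
  have h3 : 0 < √(1 + 2 * w) := Real.sqrt_pos.2 h0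
  have h4 : (1 + w)⁻¹ ≤ (√(1 + 2 * w))⁻¹ := inv_anti₀ h3 h2
  have h5 : 1 - w ≤ (1 + w)⁻¹ := by
    rw [← one_div, le_div_iff₀ (by positivity)]
    nlinarith
  linarith

/-- the series bound of the logarithm -/
lemma logb (x : ℝ) (hx : 0 ≤ x) (hx1 : x < 1) :
    Real.log (1 - x) ≤ -x - x ^ 2 / 2 - x ^ 3 / 3 := by
  have h := Real.hasSum_pow_div_log_of_abs_lt_one (x := x) (by rw [abs_of_nonneg hx]; exact hx1)
  have h1 := sum_le_hasSum (Finset.range 3) (fun n _ => by positivity) h
  rw [Finset.sum_range_succ, Finset.sum_range_succ, Finset.sum_range_one] at h1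
  norm_num at h1
  linarith

/-- the polynomial inequality -/
lemma poly (y : ℝ) (hy : 7 / 20 ≤ y) (hy1 : y ≤ 1) :
    (3 + y) / 2 * (y * (1 / 4 + y) / 10 +
      1 / 2 * (1 - y) ^ 2 * (1 - y / 2 - y * (1 - y) / 3)) ≤ 199 / 200 * y := by
  have h1 : 0 ≤ y - 7 / 20 := by linarith
  have h2 : 0 ≤ 1 - y := by linarith
  nlinarith [mul_nonneg h1 h2, mul_nonneg (mul_nonneg h1 h2) h2,
    mul_nonneg (mul_nonneg h1 h2) h1,
    mul_nonneg (mul_nonneg (mul_nonneg h1 h2) h1) h2,
    mul_nonneg (mul_nonneg (mul_nonneg h1 h2) h2) h2,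
    mul_nonneg (mul_nonneg (mul_nonneg (mul_nonneg h1 h2) h2) h2) h2]

end GC1_

theorem gc1_proof (hGCO : Stmt_GCO) (hEXB : Stmt_EXB) : Stmt_GC1 := by
  obtain ⟨hpr, -, -, hpos, hint, hone⟩ := hEXB
  have hprob : IsProbabilityMeasure ex := hpr
  have key : ∀ (F : ℝ → ℝ) (A B : ℝ), Integrable F ex → (∀ t, 0 < t → F t ≤ A + B * t) →
      ∫ t, F t ∂ex ≤ A + B := by
    intro F A B hF hFle
    have h1 : ∫ t, F t ∂ex ≤ ∫ t, (A + B * t) ∂ex := by
      apply integral_mono_ae hF ((integrable_const A).add (hint.const_mul B))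
      filter_upwards [hpos] with t ht
      exact hFle t ht
    have h2 : ∫ t, (A + B * t) ∂ex = A + B := by
      rw [integral_add (integrable_const A) (hint.const_mul B), integral_const_mul, hone,
        integral_const]
      simp
    linarith
  constructor
  · intro x hx hx1
    have ha : 0 < √(x / 10) := Real.sqrt_pos.2 (by positivity)
    obtain ⟨hi, hco⟩ := hGCO √(x / 10) x ha hx.le (by linarith)
    have ha2 : √(x / 10) ^ 2 = x / 10 := Real.sq_sqrt (by positivity)
    rw [ha2] at hi hco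
    have hb : 0 < 1 - x := by linarith
    have h1 : ∫ t, (Real.log (1 - x + 2 * (x / 10) * t) + x / (1 - x + 2 * (x / 10) * t)) ∂ex ≤
        (Real.log (1 - x) + x / (1 - x)) + 1 / 20 := by
      apply key _ _ _ hi
      intro t ht
      have h2 := GC1_.ptw (1 - x) x (2 * (x / 10) * t) hb hx (by positivity)
      have h3 : 2 * (x / 10) * t / (4 * x) = 1 / 20 * t := by
        field_simp
        ring
      rw [h3] at h2
      exact h2
    have h4 := GC1_.bern (x / 10) (by positivity)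
    have h5 := GC1_.logb x hx.le (by linarith)
    have h6 : x / (1 - x) = 1 / (1 - x) - 1 := by
      field_simp
      ring
    have hr0 : 0 ≤ √(1 - x) := Real.sqrt_nonneg _
    have hr2 : √(1 - x) ^ 2 = 1 - x := Real.sq_sqrt hb.le
    have hco2 : co (gp √(x / 10)) x ≤ (1 - x) * (x / 10) +
        x / 2 * (-x - x ^ 2 / 2 - x ^ 3 / 3 + x / (1 - x) + 1 / 20) := by
      have h7 := mul_le_mul_of_nonneg_left h4 hb.le
      have h8 := mul_le_mul_of_nonneg_left h1 (show 0 ≤ x / 2 by positivity)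
      have h9 := mul_le_mul_of_nonneg_left h5 (show 0 ≤ x / 2 by positivity)
      linarith
    refine hco2.trans ?_
    set r := √(1 - x) with hr
    have hr1 : r ≤ 1 := by nlinarith
    have hpoly := GC1_.poly (1 - x) (by linarith) (by linarith)
    have hrl : 1 + r ≤ (3 + (1 - x)) / 2 := by nlinarith [sq_nonneg (r - 1)]
    -- the bracket
    have hBr : (1 - x) * (x / 10) +
        x / 2 * (-x - x ^ 2 / 2 - x ^ 3 / 3 + x / (1 - x) + 1 / 20) =
        (1 - r) * ((1 + r) * (((1 - x) * (1 / 4 + (1 - x)) / 10 +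
          1 / 2 * (1 - (1 - x)) ^ 2 * (1 - (1 - x) / 2 - (1 - x) * (1 - (1 - x)) / 3)) /
          (1 - x))) := by
      have h10 : (1 - r) * (1 + r) = x := by nlinarith
      rw [← mul_assoc, h10]
      field_simp
      ring
    rw [hBr, mul_comm (199 / 200 : ℝ)]
    apply mul_le_mul_of_nonneg_left _ (by linarith)
    rw [← mul_div_assoc, div_le_iff₀ hb]
    refine le_trans ?_ hpoly
    apply mul_le_mul_of_nonneg_right hrl
    have h11 : 0 ≤ 1 - (1 - x) / 2 - (1 - x) * (1 - (1 - x)) / 3 := by nlinarith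
    positivity
  · intro x hx hx1
    obtain ⟨hi, hco⟩ := hGCO (1 / 10) x (by norm_num) hx (by linarith)
    have hb : 0 < 1 - x := by linarith
    have h1 : ∫ t, (Real.log (1 - x + 2 * (1 / 10) ^ 2 * t) +
        x / (1 - x + 2 * (1 / 10) ^ 2 * t)) ∂ex ≤ 1 + 1 / 50 := by
      apply key _ _ _ hi
      intro t ht
      have h2 : 0 < 1 - x + 2 * (1 / 10) ^ 2 * t := by positivity
      have h3 := Real.log_le_sub_one_of_pos h2
      have h4 : x / (1 - x + 2 * (1 / 10) ^ 2 * t) ≤ 1 := by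
        rw [div_le_one h2]
        nlinarith
      nlinarith
    have h5 := GC1_.bern ((1 / 10) ^ 2) (by positivity)
    have h7 := mul_le_mul_of_nonneg_left h5 hb.le
    have h8 := mul_le_mul_of_nonneg_left h1 (show 0 ≤ x / 2 by positivity)
    nlinarith

end PPW
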