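import Pool.Agent.PPW.Stmts

/-!
# Squad PPW, module GC2: the cost of the Gaussian profile for middle `x`.
-/

set_option autoImplicit false

namespace PPW

open MeasureTheory Set Filter Topology ProbabilityTheory
open PPI PPG PPX
open scoped Pointwise ENNReal

namespace GC2_

/-- tangent line of `y ↦ y^(-1/2)` -/
lemma inv_bound {y s : ℝ} (hy : 0 < y) (hs : 0 < s) :
    (3 * s ^ 2 - y) / (2 * s ^ 3) ≤ y ^ (-(1 / 2 : ℝ)) := by
  rw [Real.rpow_neg hy.le, ← Real.sqrt_eq_rpow]
  set q := √y with hq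
  have hq0 : 0 < q := Real.sqrt_pos.2 hy
  have hqy : y = q ^ 2 := (Real.sq_sqrt hy.le).symm
  rw [hqy, div_le_iff₀ (by positivity), inv_mul_eq_div, le_div_iff₀ hq0]
  have h : 0 ≤ (q - s) ^ 2 * (q + 2 * s) := by positivity
  nlinarith [h]

lemma sqrt_bound {b r : ℝ} (hb : 0 ≤ b) (hr : 0 < r) : √b ≤ (b + r ^ 2) / (2 * r) := by
  rw [le_div_iff₀ (by positivity)]
  have h := Real.sq_sqrt hb
  nlinarith [sq_nonneg (√b - r)]

lemma log_bound {b e k : ℝ} (hb : 0 < b) (he : Real.exp k ≤ e) :
    Real.log b ≤ b * e - 1 - k := by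
  have h1 := Real.log_le_sub_one_of_pos (mul_pos hb (Real.exp_pos k))
  rw [Real.log_mul hb.ne' (Real.exp_pos k).ne', Real.log_exp] at h1
  have h2 : b * Real.exp k ≤ b * e := mul_le_mul_of_nonneg_left he hb.le
  linarith

lemma chord {b l u : ℝ} (hl : 0 < l) (h1 : l ≤ b) (h2 : b ≤ u) :
    1 / b ≤ (l + u - b) / (l * u) := by
  have hb : 0 < b := by linarith
  have hu : 0 < u := by linarith
  rw [div_le_div_iff₀ hb (by positivity)]
  nlinarith [mul_nonneg (sub_nonneg.2 h1) (sub_nonneg.2 h2)]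

lemma fin {A B C l b L R : ℝ} (h : l ≤ b) (hA : A ≤ 0) (hB : B ≤ 0) (hC : C ≤ 0)
    (he : L - R = A + B * (b - l) + C * (b - l) ^ 2) : L ≤ R := by
  have h1 : B * (b - l) ≤ 0 := mul_nonpos_of_nonpos_of_nonneg hB (by linarith)
  have h2 : C * (b - l) ^ 2 ≤ 0 := mul_nonpos_of_nonpos_of_nonneg hC (sq_nonneg _)
  linarith

/-- the cost for `2 a² = b / z` -/
lemma cost (hGCO : Stmt_GCO) (hKAP : Stmt_KAP) (hEXB : Stmt_EXB) {a b z x : ℝ} (ha : 0 < a)
    (hb : 0 < b) (hz : 0 < z) (hx : x = 1 - b) (hx0 : 0 ≤ x) (h2 : 2 * a ^ 2 = b / z) :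
    co (gp a) x ≤ b * (1 - (1 + b / z) ^ (-(1 / 2 : ℝ))) +
      x / 2 * (Real.log b + kz z + x * z / b * kz z) := by
  obtain ⟨-, h⟩ := hGCO a x ha hx0 (by linarith)
  have e1 : 1 - x = b := by linarith
  rw [h2, e1] at h
  obtain ⟨hp, -, -, hpos, -, -⟩ := hEXB
  obtain ⟨hI1, hI2, hI3⟩ := hKAP.1 z hz
  have e2 : ∫ t, (Real.log (b + b / z * t) + x / (b + b / z * t)) ∂ex =
      Real.log b + kz z + x * z / b * kz z := by
    have e3 : ∫ t, (Real.log (b + b / z * t) + x / (b + b / z * t)) ∂ex =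
        ∫ t, ((Real.log b + Real.log (1 + t / z)) + x * z / b * (1 / (z + t))) ∂ex := by
      apply integral_congr_ae
      filter_upwards [hpos] with t ht
      have e4 : b + b / z * t = b * (1 + t / z) := by ring
      have h1 : 0 < 1 + t / z := by positivity
      rw [e4, Real.log_mul hb.ne' h1.ne']
      have h5 : 0 < z + t := by linarith
      have e6 : x / (b * (1 + t / z)) = x * z / b * (1 / (z + t)) := by
        field_simp
      rw [e6]
    have hc : Integrable (fun _ : ℝ => Real.log b) ex := integrable_const _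
    have hc2 : Integrable (fun t : ℝ => Real.log b + Real.log (1 + t / z)) ex := hc.add hI2
    have hc3 : ∫ t, (Real.log b + Real.log (1 + t / z)) ∂ex = Real.log b + kz z := by
      rw [integral_add hc hI2, hI3]
      simp
    have hc4 : ∫ t, x * z / b * (1 / (z + t)) ∂ex = x * z / b * kz z := by
      rw [integral_const_mul]
      rfl
    rw [e3, integral_add hc2 (hI1.const_mul _), hc3, hc4]
  rw [e2] at h
  exact h

/-- reduction to a rational inequality -/
lemma red (hGCO : Stmt_GCO) (hKAP : Stmt_KAP) (hEXB : Stmt_EXB) {x z K e k s r l u : ℝ}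
    (hz : 0 < z) (hl : 0 < l) (hu : u < 1) (h1 : l ≤ 1 - x) (h2 : 1 - x ≤ u)
    (hK : kz z ≤ K) (hK0 : 0 ≤ K) (he : Real.exp k ≤ e) (hs : 0 < s) (hr : 0 < r)
    (hz1 : u ≤ 2 * z) (hz2 : u ≤ 2 * z * (1 - u)) (hz3 : 2 * z ≤ 100 * l)
    (hP : ∀ b : ℝ, l ≤ b → b ≤ u →
      b * (1 - (3 * s ^ 2 - (1 + b / z)) / (2 * s ^ 3)) +
        ((1 - b) / 2 * (b * e - 1 - k + K) +
          K * z / 2 * ((l + u - b) / (l * u) - 2 + b)) ≤
        199 / 200 * (1 - (b + r ^ 2) / (2 * r))) :
    ∃ a : ℝ, 0 < a ∧ a ≤ 1 ∧ a ^ 2 ≤ x ∧ x ≤ 100 * a ^ 2 ∧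
      co (gp a) x ≤ 199 / 200 * (1 - √(1 - x)) := by
  obtain ⟨b, hb⟩ : ∃ b, b = 1 - x := ⟨_, rfl⟩
  have hx : x = 1 - b := by linarith
  rw [← hb] at h1 h2 ⊢
  have hb0 : 0 < b := by linarith
  have hx0 : 0 ≤ x := by linarith
  refine ⟨√(b / (2 * z)), Real.sqrt_pos.2 (by positivity), ?_, ?_, ?_, ?_⟩
  · apply Real.sqrt_le_one.2
    rw [div_le_one (by positivity)]
    linarith
  · rw [Real.sq_sqrt (by positivity), div_le_iff₀ (by positivity)]
    have : 2 * z * (1 - u) ≤ 2 * z * x := by
      apply mul_le_mul_of_nonneg_left _ (by positivity)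
      linarith
    linarith
  · rw [Real.sq_sqrt (by positivity)]
    have h3 : 1 ≤ 100 * (b / (2 * z)) := by
      rw [mul_div_assoc', le_div_iff₀ (by positivity)]
      linarith
    linarith
  · have h2a : 2 * (√(b / (2 * z))) ^ 2 = b / z := by
      rw [Real.sq_sqrt (by positivity)]
      field_simp
    refine (cost hGCO hKAP hEXB (Real.sqrt_pos.2 (by positivity)) hb0 hz hx hx0 h2a).trans ?_
    have i1 := inv_bound (y := 1 + b / z) (s := s) (by positivity) hs
    have i2 := sqrt_bound (b := b) hb0.le hr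
    have i3 := log_bound (e := e) (k := k) hb0 he
    have i4 := chord hl h1 h2
    have hkz : kz z + x * z / b * kz z ≤ K + x * z / b * K := by
      have : 0 ≤ x * z / b := by positivity
      nlinarith [mul_le_mul_of_nonneg_left hK this]
    have j1 : b * (1 - (1 + b / z) ^ (-(1 / 2 : ℝ))) ≤
        b * (1 - (3 * s ^ 2 - (1 + b / z)) / (2 * s ^ 3)) := by
      apply mul_le_mul_of_nonneg_left _ hb0.le
      linarith
    have j2 : x / 2 * (Real.log b + kz z + x * z / b * kz z) ≤
        x / 2 * ((b * e - 1 - k) + (K + x * z / b * K)) := by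
      apply mul_le_mul_of_nonneg_left _ (by positivity)
      linarith
    have j3 : x / 2 * ((b * e - 1 - k) + (K + x * z / b * K)) =
        (1 - b) / 2 * (b * e - 1 - k + K) + K * z / 2 * (1 / b - 2 + b) := by
      rw [hx]
      field_simp
      ring
    have j4 : K * z / 2 * (1 / b - 2 + b) ≤ K * z / 2 * ((l + u - b) / (l * u) - 2 + b) := by
      apply mul_le_mul_of_nonneg_left _ (by positivity)
      linarith
    have j5 : 199 / 200 * (1 - (b + r ^ 2) / (2 * r)) ≤ 199 / 200 * (1 - √b) := by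
      apply mul_le_mul_of_nonneg_left _ (by norm_num)
      linarith
    have := hP b h1 h2
    linarith

end GC2_

open GC2_ in
theorem gc2_proof (hGCO : Stmt_GCO) (hKAP : Stmt_KAP) (hEXB : Stmt_EXB) : Stmt_GC2 := by
  intro x hx1 hx2
  have hK1 : kz 1 ≤ 3 / 5 := hKAP.2.1
  have hK2 : kz (3 / 10) ≤ 1226 / 1000 := hKAP.2.2.1
  have hK3 : kz (3 / 20) ≤ 1706 / 1000 := hKAP.2.2.2.1
  have hK4 : kz (1 / 10) ≤ 2018 / 1000 := hKAP.2.2.2.2
  have he := Real.exp_one_lt_d9
  have he0 := Real.exp_pos 1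
  have e1 : Real.exp 1 ≤ 27183 / 10000 := by linarith
  have e2 : Real.exp 2 ≤ 7390 / 1000 := by
    have : Real.exp 2 = Real.exp 1 ^ 2 := by
      rw [← Real.exp_nat_mul]; norm_num
    rw [this]
    calc Real.exp 1 ^ 2 ≤ (2.7182818286 : ℝ) ^ 2 := by
          apply pow_le_pow_left₀ he0.le he.le
      _ ≤ 7390 / 1000 := by norm_num
  have e3 : Real.exp (3 / 2) ≤ 4482 / 1000 := by
    have h3 : Real.exp (3 / 2) ^ 2 = Real.exp 1 ^ 3 := by
      rw [← Real.exp_nat_mul, ← Real.exp_nat_mul]; norm_num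
    have h4 : Real.exp 1 ^ 3 ≤ (4482 / 1000 : ℝ) ^ 2 := by
      calc Real.exp 1 ^ 3 ≤ (2.7182818286 : ℝ) ^ 3 := by
            apply pow_le_pow_left₀ he0.le he.le
        _ ≤ (4482 / 1000 : ℝ) ^ 2 := by norm_num
    rw [← h3] at h4
    exact le_of_sq_le_sq h4 (by norm_num)
  rcases le_total (1 / 4) (1 - x) with h | h
  · refine red hGCO hKAP hEXB (z := 1) (K := 3 / 5) (e := 27183 / 10000) (k := 1) (s := 114 / 100)
      (r := 55 / 100) (l := 1 / 4) (u := 35 / 100) (by norm_num) (by norm_num) (by norm_num) h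
      (by linarith) hK1 (by norm_num) e1 (by norm_num) (by norm_num) (by norm_num) (by norm_num)
      (by norm_num) ?_
    intro b hb1 hb2
    refine fin (A := -41642757793/651879360000) (B := -124348233479/190131480000) (C := -3784101319/3703860000) (l := 1 / 4)
      hb1 (by norm_num) (by norm_num) (by norm_num) ?_
    ring
  · rcases le_total (17 / 100) (1 - x) with h' | h'
    · refine red hGCO hKAP hEXB (z := 3 / 10) (K := 1226 / 1000) (e := 4482 / 1000) (k := 3 / 2)
        (s := 130 / 100) (r := 46 / 100) (l := 17 / 100) (u := 1 / 4) (by norm_num) (by norm_num)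
        (by norm_num) h' h hK2 (by norm_num) e3 (by norm_num) (by norm_num) (by norm_num)
        (by norm_num) (by norm_num) ?_
      intro b hb1 hb2
      refine fin (A := -389381155939/25770810000000) (B := -4944071057/8053378125) (C := -9770431/6591000) (l := 17 / 100)
        hb1 (by norm_num) (by norm_num) (by norm_num) ?_
      ring
    · rcases le_total (14 / 100) (1 - x) with h'' | h''
      · refine red hGCO hKAP hEXB (z := 3 / 20) (K := 1706 / 1000) (e := 7390 / 1000) (k := 2)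
          (s := 143 / 100) (r := 39 / 100) (l := 14 / 100) (u := 17 / 100) (by norm_num)
          (by norm_num) (by norm_num) h'' h' hK3 (by norm_num) e2 (by norm_num) (by norm_num)
          (by norm_num) (by norm_num) (by norm_num) ?_
        intro b hb1 hb2
        refine fin (A := -284911371097/15352086750000) (B := -1557902788469/6959612660000) (C := -4482966919/1754524200) (l := 14 / 100)
          hb1 (by norm_num) (by norm_num) (by norm_num) ?_
        ring
      · refine red hGCO hKAP hEXB (z := 1 / 10) (K := 2018 / 1000) (e := 7390 / 1000) (k := 2)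
          (s := 152 / 100) (r := 36 / 100) (l := 12 / 100) (u := 14 / 100) (by norm_num)
          (by norm_num) (by norm_num) (by linarith) h'' hK4 (by norm_num) e2 (by norm_num)
          (by norm_num) (by norm_num) (by norm_num) (by norm_num) ?_
        intro b hb1 hb2
        refine fin (A := -1694423/1028850000) (B := -3140059883/4321170000) (C := -778919/342950) (l := 12 / 100)
          hb1 (by norm_num) (by norm_num) (by norm_num) ?_
        ring

end PPW
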