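import Pool.Agent.PPW.Stmts

/-! # PPW GCO: the cost of the Gaussian profile -/

set_option autoImplicit false

namespace PPW

open MeasureTheory Set Filter Topology ProbabilityTheory
open PPI PPG PPX
open scoped Pointwise ENNReal

namespace GCO_

theorem ga1_int_sq : Integrable (fun u : ℝ => u ^ 2) ga1 := by
  have h := memLp_id_gaussianReal (μ := 0) (v := 1) 2
  have h2 := h.integrable_sq
  exact h2

theorem ga1_sq : ∫ u, u ^ 2 ∂ga1 = 1 := by
  have h := variance_fun_id_gaussianReal (μ := 0) (v := 1)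
  rw [variance_of_integral_eq_zero (by fun_prop) (by
    have := integral_id_gaussianReal (μ := 0) (v := 1)
    simpa using this)] at h
  unfold ga1
  simpa using h

variable {a x : ℝ}

theorem B_bounds (ha : 0 < a) (hx1 : x < 1) {t : ℝ} (ht : 0 < t) :
    0 < 1 - x ∧ 1 - x ≤ 1 - x + 2 * a ^ 2 * t := by
  refine ⟨by linarith, ?_⟩
  have : 0 < 2 * a ^ 2 * t := by positivity
  linarith

theorem meas_B : Measurable (fun t : ℝ => 1 - x + 2 * a ^ 2 * t) := by fun_prop

theorem int_inv [IsProbabilityMeasure ex] (hpos : ∀ᵐ t ∂ex, 0 < t) (ha : 0 < a) (hx0 : 0 ≤ x)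
    (hx1 : x < 1) : Integrable (fun t => x / (1 - x + 2 * a ^ 2 * t)) ex := by
  refine Integrable.of_bound (C := x / (1 - x)) ?_ ?_
  · exact (measurable_const.div meas_B).aestronglyMeasurable
  · filter_upwards [hpos] with t ht
    obtain ⟨h1, h2⟩ := B_bounds (a := a) (x := x) ha hx1 ht
    rw [Real.norm_eq_abs, abs_of_nonneg (by positivity)]
    exact div_le_div_of_nonneg_left hx0 h1 h2

theorem int_log [IsProbabilityMeasure ex] (hpos : ∀ᵐ t ∂ex, 0 < t)
    (hid : Integrable (fun t : ℝ => t) ex) (ha : 0 < a)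
    (hx1 : x < 1) : Integrable (fun t => Real.log (1 - x + 2 * a ^ 2 * t)) ex := by
  have hg : Integrable (fun t : ℝ => |Real.log (1 - x)| + 2 * a ^ 2 / (1 - x) * t) ex :=
    (integrable_const _).add (hid.const_mul _)
  refine hg.mono' ?_ ?_
  · exact (Real.measurable_log.comp meas_B).aestronglyMeasurable
  · filter_upwards [hpos] with t ht
    obtain ⟨h1, h2⟩ := B_bounds (a := a) (x := x) ha hx1 ht
    have e : 1 - x + 2 * a ^ 2 * t = (1 - x) * (1 + 2 * a ^ 2 / (1 - x) * t) := by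
      field_simp
    have hr : 0 ≤ 2 * a ^ 2 / (1 - x) * t := by positivity
    rw [e, Real.log_mul h1.ne' (by positivity), Real.norm_eq_abs]
    refine (abs_add_le _ _).trans (add_le_add le_rfl ?_)
    rw [abs_of_nonneg (Real.log_nonneg (by linarith))]
    have := Real.log_le_sub_one_of_pos (x := 1 + 2 * a ^ 2 / (1 - x) * t) (by positivity)
    linarith

end GCO_

open GCO_ in
theorem gco_proof (hGZB : Stmt_GZB) (hGPB : Stmt_GPB) (hEXB : Stmt_EXB) : Stmt_GCO := by
  obtain ⟨hprob, -, -, hpos, hid, -⟩ := hEXB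
  have := hprob
  have : IsProbabilityMeasure ga1 := by unfold ga1; infer_instance
  intro a x ha hx0 hx1
  have i1 := int_log hpos hid ha hx1
  have i2 := int_inv hpos ha hx0 hx1
  refine ⟨i1.add i2, ?_⟩
  have hEZ : (1 + 2 * a ^ 2) ^ (-(1 / 2 : ℝ)) ≤ EZ (gp a) := (hGPB a ha).2.2.2.2.2.2
  have hEL : EL (gp a) x = -(1 / 2) * ∫ t, (Real.log (1 - x + 2 * a ^ 2 * t) +
      x / (1 - x + 2 * a ^ 2 * t)) ∂ex := by
    unfold EL
    have hae : ∀ᵐ z ∂(ex.prod ga1), Real.log (zb (gp a) x z.1 z.2) =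
        (-(1 / 2) * Real.log (1 - x + 2 * a ^ 2 * z.1)) * 1 +
          (-(1 / 2) * (x / (1 - x + 2 * a ^ 2 * z.1))) * z.2 ^ 2 := by
      have hz : ∀ᵐ z ∂(ex.prod ga1), 0 < z.1 := by
        exact Measure.quasiMeasurePreserving_fst.ae hpos
      filter_upwards [hz] with z hz
      obtain ⟨h1, h2⟩ := B_bounds (a := a) (x := x) ha hx1 hz
      have hB : 0 < 2 * a ^ 2 * z.1 + (1 - x) := by linarith
      rw [hGZB a x z.1 z.2 ha hx0 hx1.le hz, Real.log_mul (by positivity) (Real.exp_pos _).ne',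
        Real.log_exp, Real.log_rpow hB, show 2 * a ^ 2 * z.1 + (1 - x) =
          1 - x + 2 * a ^ 2 * z.1 by ring]
      have hB' : 1 - x + 2 * a ^ 2 * z.1 ≠ 0 := by linarith
      field_simp
    rw [integral_congr_ae hae, integral_add]
    · have e1 := integral_prod_mul (μ := ex) (ν := ga1)
        (fun t : ℝ => -(1 / 2) * Real.log (1 - x + 2 * a ^ 2 * t)) (fun _ : ℝ => (1 : ℝ))
      have e2 := integral_prod_mul (μ := ex) (ν := ga1)
        (fun t : ℝ => -(1 / 2) * (x / (1 - x + 2 * a ^ 2 * t))) (fun u : ℝ => u ^ 2)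
      rw [ga1_sq] at e2
      rw [e1, e2, integral_add i1 i2, integral_const_mul, integral_const_mul]
      simp
      ring
    · exact (i1.const_mul _).mul_prod (integrable_const 1)
    · exact (i2.const_mul _).mul_prod ga1_int_sq
  unfold co
  rw [hEL]
  have h1x : 0 ≤ 1 - x := by linarith
  have := mul_le_mul_of_nonneg_left (sub_le_sub_left hEZ 1) h1x
  linarith

end PPW
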