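import Pool.Agent.PPW.Stmts

/-!
Module GLA: linear images of the standard Gaussian measure.
-/

set_option autoImplicit false

namespace PPW

open MeasureTheory Set Filter Topology ProbabilityTheory
open PPI PPG PPX
open scoped Pointwise ENNReal

noncomputable section

namespace GLA_

theorem probGam (n : ℕ) : IsProbabilityMeasure (gam n) := by unfold gam; infer_instance

theorem probGa1 : IsProbabilityMeasure ga1 := by unfold ga1; infer_instance

theorem cf (n : ℕ) (a : EE n) : charFun (gam n) a = Complex.exp ((-(‖a‖ ^ 2 / 2) : ℝ) : ℂ) := by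
  unfold gam
  rw [charFun_stdGaussian]
  congr 1
  push_cast
  ring

theorem mapInner (n : ℕ) (w : EE n) :
    (gam n).map (fun y => inner ℝ y w) = ga1.map (fun v => ‖w‖ * v) := by
  have := probGam n
  have := probGa1
  have hm : Measurable (fun y : EE n => inner ℝ y w) := by fun_prop
  have hm2 : Measurable (fun v : ℝ => ‖w‖ * v) := by fun_prop
  have : IsProbabilityMeasure ((gam n).map (fun y => inner ℝ y w)) :=
    Measure.isProbabilityMeasure_map hm.aemeasurable
  have : IsProbabilityMeasure (ga1.map (fun v => ‖w‖ * v)) :=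
    Measure.isProbabilityMeasure_map hm2.aemeasurable
  apply Measure.ext_of_charFun
  funext t
  have h1 : charFun ((gam n).map (fun y => inner ℝ y w)) t = charFun (gam n) (t • w) := by
    rw [charFun_apply, charFun_apply, integral_map hm.aemeasurable (by fun_prop)]
    congr 1
    funext y
    congr 2
    rw [inner_smul_right]
    simp
  have h2 : ga1.map (fun v => ‖w‖ * v) =
      gaussianReal (‖w‖ * 0) (.mk (‖w‖ ^ 2) (sq_nonneg _) * 1) := by
    unfold ga1
    exact gaussianReal_map_const_mul ‖w‖
  rw [h1, h2, cf, charFun_gaussianReal]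
  congr 1
  rw [norm_smul, mul_pow, Real.norm_eq_abs, sq_abs]
  simp
  ring

theorem conv (n : ℕ) (P : EE n →L[ℝ] EE n) (hs : ∀ x y, inner ℝ (P x) y = inner ℝ x (P y))
    (hi : ∀ x, P (P x) = P x) :
    ((gam n).prod (gam n)).map (fun z => P z.1 + (z.2 - P z.2)) = gam n := by
  have := probGam n
  have hm : Measurable (fun z : EE n × EE n => P z.1 + (z.2 - P z.2)) := by fun_prop
  have : IsProbabilityMeasure (((gam n).prod (gam n)).map (fun z => P z.1 + (z.2 - P z.2))) :=
    Measure.isProbabilityMeasure_map hm.aemeasurable
  apply Measure.ext_of_charFun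
  funext a
  have h1 : charFun (((gam n).prod (gam n)).map (fun z => P z.1 + (z.2 - P z.2))) a =
      charFun (gam n) (P a) * charFun (gam n) (a - P a) := by
    rw [charFun_apply, charFun_apply, charFun_apply, integral_map hm.aemeasurable (by fun_prop),
      ← integral_prod_mul]
    congr 1
    funext z
    rw [← Complex.exp_add, ← add_mul]
    congr 2
    rw [inner_add_left, inner_sub_left, hs, hs, inner_sub_right]
    push_cast
    ring
  rw [h1, cf, cf, cf, ← Complex.exp_add, ← Complex.ofReal_add]
  congr 2
  have h2 : ‖a‖ ^ 2 = ‖P a‖ ^ 2 + ‖a - P a‖ ^ 2 := by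
    have h3 : a = P a + (a - P a) := by abel
    have h4 : inner ℝ (P a) (a - P a) = 0 := by
      rw [hs, map_sub, hi, sub_self, inner_zero_right]
    conv_lhs => rw [h3]
    rw [norm_add_sq_real, h4]
    ring
  rw [h2]
  ring

end GLA_

open GLA_ in
theorem gla_proof : Stmt_GLA := by
  constructor
  · intro n w F hF
    have hm : Measurable (fun y : EE n => inner ℝ y w) := by fun_prop
    have hm2 : Measurable (fun v : ℝ => ‖w‖ * v) := by fun_prop
    rw [← lintegral_map hF hm, mapInner, lintegral_map hF hm2]
  · intro n m P F hP hF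
    have := probGam n
    have hm : Measurable (fun z : EE n × EE n => P z.1 + (z.2 - P z.2)) := by fun_prop
    have h1 := lintegral_prod (μ := gam n) (ν := gam n)
      (fun z : EE n × EE n => F (P z.1 + (z.2 - P z.2))) (hF.comp hm).aemeasurable
    rw [← h1]
    conv_rhs => rw [← conv n P hP.sym hP.idem]
    rw [lintegral_map hF hm]

end

end PPW
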