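import Pool.Agent.PPW.Stmts

/-!
# Squad PPW, module GMA: a mixed mean
-/

set_option autoImplicit false

namespace PPW

open MeasureTheory Set Filter Topology ProbabilityTheory
open PPI PPG PPX
open scoped Pointwise ENNReal

namespace GMA_

/-! ### The constants -/

theorem kap0_aux : (volume (univ : Set (EE 0))).toReal = 1 := by
  have h := (PiLp.volume_preserving_toLp (Fin 0)).measure_preimage
    (s := univ) MeasurableSet.univ.nullMeasurableSet
  rw [preimage_univ] at h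
  rw [← h, volume_pi, Measure.pi_univ]
  simp

/-- recursion for the volumes of balls -/
theorem kap_succ (m : ℕ) : kap (m + 2) = 2 * Real.pi * kap m / (m + 2) := by
  have hform : ∀ k : ℕ, kap k = √Real.pi ^ k / Real.Gamma ((k : ℝ) / 2 + 1) := by
    intro k
    rcases Nat.eq_zero_or_pos k with rfl | hk
    · unfold kap vl Bn
      have : Metric.closedBall (0 : EE 0) 1 = univ := by
        ext x
        simp [Subsingleton.elim x 0]
      rw [this, kap0_aux]
      simp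
    · have : Nonempty (Fin k) := ⟨⟨0, hk⟩⟩
      unfold kap vl Bn
      rw [EuclideanSpace.volume_closedBall, ENNReal.ofReal_one, one_pow, one_mul,
        ENNReal.toReal_ofReal, Fintype.card_fin]
      have := Real.Gamma_pos_of_pos (show (0 : ℝ) < (Fintype.card (Fin k) : ℝ) / 2 + 1 by positivity)
      positivity
  rw [hform, hform]
  have h1 : ((m + 2 : ℕ) : ℝ) / 2 + 1 = ((m : ℝ) / 2 + 1) + 1 := by push_cast; ring
  have h2 := Real.Gamma_add_one (s := (m : ℝ) / 2 + 1) (by positivity)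
  have h3 : 0 < Real.Gamma ((m : ℝ) / 2 + 1) := Real.Gamma_pos_of_pos (by positivity)
  rw [h1, h2, pow_add, Real.sq_sqrt Real.pi_pos.le]
  field_simp

/-! ### The weights -/

theorem cont_wv {n : ℕ} (a : EE n) : Continuous fun x : EE n => wv x a := by
  unfold wv
  refine Continuous.mul (by fun_prop) ?_
  exact Continuous.rpow_const (by fun_prop) (fun x => Or.inl (by positivity))

theorem wv_pos {n : ℕ} (x a : EE n) : 0 < wv x a := by
  unfold wv
  exact mul_pos (Real.sqrt_pos.2 (by positivity)) (Real.rpow_pos_of_pos (by positivity) _)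

theorem ww_eq {n : ℕ} (x a : EE n) : ww x a = wv x a * (1 + (inner ℝ x a) ^ 2) := by
  unfold ww wv
  have h : (0 : ℝ) < 1 + (inner ℝ x a) ^ 2 := by positivity
  rw [Real.rpow_sub h, Real.rpow_one]
  field_simp

theorem meas_dens (n : ℕ) (K : ℝ) :
    Measurable fun x : EE n => ENNReal.ofReal ((1 + ‖x‖ ^ 2) ^ (-((n : ℝ) / 2) - 1) / K) := by
  apply ENNReal.measurable_ofReal.comp
  exact ((measurable_const.add (measurable_norm.pow_const 2)).pow_const _).div_const _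

theorem point (n : ℕ) (K : ℝ) (hK : 0 < K) (x a : EE n) :
    ENNReal.ofReal ((1 + ‖x‖ ^ 2) ^ (-((n : ℝ) / 2) - 1) / K) * ENNReal.ofReal (wv x a)
      = ENNReal.ofReal (1 / K) * (ENNReal.ofReal ((1 + ‖x‖ ^ 2) ^ (-(((n : ℝ) + 1) / 2))) *
        ENNReal.ofReal ((1 + (inner ℝ x a) ^ 2) ^ (-((n : ℝ) / 2) - 1))) := by
  have h1 : 0 < 1 + ‖x‖ ^ 2 := by positivity
  have h2 : (0 : ℝ) ≤ (1 + (inner ℝ x a) ^ 2) ^ (-((n : ℝ) / 2) - 1) :=
    Real.rpow_nonneg (by positivity) _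
  rw [← ENNReal.ofReal_mul (by positivity), ← ENNReal.ofReal_mul (Real.rpow_nonneg h1.le _),
    ← ENNReal.ofReal_mul (by positivity)]
  congr 1
  unfold wv
  have h3 : (1 + ‖x‖ ^ 2) ^ (-((n : ℝ) / 2) - 1) * √(1 + ‖x‖ ^ 2)
      = (1 + ‖x‖ ^ 2) ^ (-(((n : ℝ) + 1) / 2)) := by
    rw [Real.sqrt_eq_rpow, ← Real.rpow_add h1]
    congr 1
    ring
  rw [← h3]
  field_simp

theorem int_wv (hRD1 : PPX.Stmt_RD1) (hC1D : PPX.Stmt_C1D) (hAVE : PPI.Stmt_AVE) (n : ℕ)
    (a : EE n) (hn : 2 ≤ n) (ha : ‖a‖ = 1) :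
    Integrable (fun x : EE n => wv x a) (mun n) ∧
      ∫ x, wv x a ∂(mun n) = ((n : ℝ) + 1) / (n + 2) := by
  have hK : 0 < kap n := (hAVE n (by omega)).1
  have hK' : 0 < kap (n - 1) := (hAVE (n - 1) (by omega)).1
  have hK1 : 0 < kap (n + 1) := (hAVE (n + 1) (by omega)).1
  have hr1 : kap (n + 2) = 2 * Real.pi * kap n / (n + 2) := kap_succ n
  have hr2 : kap (n + 1) = 2 * Real.pi * kap (n - 1) / (n + 1) := by
    obtain ⟨m, rfl⟩ : ∃ m, n = m + 1 := ⟨n - 1, by omega⟩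
    have := kap_succ m
    rw [show m + 1 + 1 = m + 2 from rfl, show m + 1 - 1 = m from rfl, this]
    push_cast
    ring
  have hlin : ∫⁻ x, ENNReal.ofReal (wv x a) ∂(mun n) =
      ENNReal.ofReal (((n : ℝ) + 1) / (n + 2)) := by
    unfold mun
    have hm : Measurable fun x : EE n => ENNReal.ofReal (wv x a) :=
      ENNReal.measurable_ofReal.comp (cont_wv a).measurable
    rw [lintegral_withDensity_eq_lintegral_mul _ (meas_dens n (kap n)) hm]
    simp only [Pi.mul_apply]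
    rw [lintegral_congr (fun x => point n (kap n) hK x a)]
    rw [lintegral_const_mul' _ _ ENNReal.ofReal_ne_top]
    have hg : Measurable fun t : ℝ => ENNReal.ofReal ((1 + t ^ 2) ^ (-((n : ℝ) / 2) - 1)) := by
      apply ENNReal.measurable_ofReal.comp
      exact (measurable_const.add (measurable_id.pow_const 2)).pow_const _
    rw [hRD1 n a (fun t => ENNReal.ofReal ((1 + t ^ 2) ^ (-((n : ℝ) / 2) - 1))) (by omega) ha hg]
    have h2 : ∀ t : ℝ, ENNReal.ofReal ((1 + t ^ 2) ^ (-((n : ℝ) / 2) - 1)) *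
        ENNReal.ofReal (1 / (1 + t ^ 2)) =
          ENNReal.ofReal ((1 + t ^ 2) ^ (-(((n + 2 : ℕ) : ℝ) / 2) - 1)) := by
      intro t
      have ht : 0 < 1 + t ^ 2 := by positivity
      have he : (-(((n + 2 : ℕ) : ℝ) / 2) - 1) = (-((n : ℝ) / 2) - 1) - 1 := by
        push_cast
        ring
      rw [← ENNReal.ofReal_mul (Real.rpow_nonneg ht.le _), he,
        Real.rpow_sub ht (-((n : ℝ) / 2) - 1) 1, Real.rpow_one]
      congr 1
      ring
    rw [lintegral_congr h2, hC1D (n + 2) (by omega)]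
    rw [← ENNReal.ofReal_mul hK'.le, ← ENNReal.ofReal_mul (by positivity)]
    congr 1
    rw [show n + 2 - 1 = n + 1 from rfl, hr1, hr2]
    have hpi := Real.pi_pos
    field_simp
  have hnn : 0 ≤ᵐ[mun n] fun x : EE n => wv x a :=
    Filter.Eventually.of_forall (fun x => (wv_pos x a).le)
  have hint : Integrable (fun x : EE n => wv x a) (mun n) := by
    refine ⟨(cont_wv a).aestronglyMeasurable, ?_⟩
    rw [hasFiniteIntegral_iff_ofReal hnn, hlin]
    exact ENNReal.ofReal_lt_top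
  refine ⟨hint, ?_⟩
  rw [integral_eq_lintegral_of_nonneg_ae hnn (cont_wv a).aestronglyMeasurable, hlin]
  exact ENNReal.toReal_ofReal (by positivity)

/-- the second moment of `⟨x, a⟩` with the weight -/
theorem int_y2 (hEW1 : PPX.Stmt_EW1) (hRD1 : PPX.Stmt_RD1) (hC1D : PPX.Stmt_C1D)
    (hAVE : PPI.Stmt_AVE) (n : ℕ) (a : EE n) (hn : 2 ≤ n) (ha : ‖a‖ = 1) :
    Integrable (fun x : EE n => wv x a * (inner ℝ x a) ^ 2) (mun n) ∧
      ∫ x, wv x a * (inner ℝ x a) ^ 2 ∂(mun n) = 1 / ((n : ℝ) + 2) := by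
  obtain ⟨h1, h2⟩ := hEW1 n a hn ha
  obtain ⟨h3, h4⟩ := int_wv hRD1 hC1D hAVE n a hn ha
  have he : (fun x : EE n => wv x a * (inner ℝ x a) ^ 2) = fun x => ww x a - wv x a := by
    funext x
    rw [ww_eq]
    ring
  rw [he]
  refine ⟨h1.sub h3, ?_⟩
  rw [integral_sub h1 h3, h2, h4]
  field_simp
  ring

/-! ### Reflections -/

theorem int_comp {n : ℕ} (hMUN : PPX.Stmt_MUN) (hn : 1 ≤ n) (g : EE n ≃ₗᵢ[ℝ] EE n)
    (F : EE n → ℝ) (hF : Continuous F) : ∫ x, F (g x) ∂(mun n) = ∫ x, F x ∂(mun n) := by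
  have h := (hMUN n hn).2.2 g
  conv_rhs => rw [← h]
  rw [integral_map g.continuous.measurable.aemeasurable hF.aestronglyMeasurable]

theorem refl_fix {n : ℕ} (a v : EE n) (h : inner ℝ a v = (0 : ℝ)) :
    (ℝ ∙ v)ᗮ.reflection a = a := by
  apply Submodule.reflection_mem_subspace_eq_self
  rw [Submodule.mem_orthogonal_singleton_iff_inner_left]
  exact h

/-! ### The pieces -/

/-- `1 + r` -/
noncomputable def rr {n : ℕ} (x : EE n) : ℝ := 1 + √(1 + ‖x‖ ^ 2)

theorem rr_pos {n : ℕ} (x : EE n) : 0 < rr x := by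
  unfold rr
  positivity

theorem cont_rr {n : ℕ} : Continuous fun x : EE n => rr x := by
  unfold rr
  fun_prop

theorem rr_sq {n : ℕ} (x : EE n) : rr x ^ 2 = 2 * rr x + ‖x‖ ^ 2 := by
  unfold rr
  have h := Real.sq_sqrt (show (0 : ℝ) ≤ 1 + ‖x‖ ^ 2 by positivity)
  nlinarith [h]

theorem rr_isom {n : ℕ} (g : EE n ≃ₗᵢ[ℝ] EE n) (x : EE n) : rr (g x) = rr x := by
  unfold rr
  rw [g.norm_map]

theorem wv_isom {n : ℕ} (g : EE n ≃ₗᵢ[ℝ] EE n) (x a : EE n) (h : g a = a) :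
    wv (g x) a = wv x a := by
  unfold wv
  have h1 : inner ℝ (g x) a = (inner ℝ x a : ℝ) := by
    conv_lhs => rw [← h]
    exact g.inner_map_map x a
  rw [g.norm_map, h1]

theorem norm_le_rr {n : ℕ} (x : EE n) : ‖x‖ ≤ rr x := by
  have h := rr_sq x
  have h1 := rr_pos x
  nlinarith [norm_nonneg x]

/-- the first coefficient -/
theorem first_le {n : ℕ} (x a : EE n) (ha : ‖a‖ = 1) :
    (1 + (inner ℝ x a) ^ 2 / rr x) ^ 2 ≤ 1 + (inner ℝ x a) ^ 2 := by
  have h1 := rr_pos x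
  have h2 := rr_sq x
  have h3 : (inner ℝ x a) ^ 2 ≤ ‖x‖ ^ 2 := by
    have h := abs_real_inner_le_norm x a
    rw [ha, mul_one] at h
    have h' : |inner ℝ x a| ^ 2 ≤ ‖x‖ ^ 2 := pow_le_pow_left₀ (abs_nonneg _) h 2
    rwa [sq_abs] at h'
  set y2 : ℝ := (inner ℝ x a) ^ 2 with hy
  have hy0 : 0 ≤ y2 := sq_nonneg _
  have h4 : 1 + y2 / rr x = (rr x + y2) / rr x := by field_simp
  rw [h4, div_pow, div_le_iff₀ (by positivity)]
  nlinarith [mul_nonneg hy0 (sub_nonneg.2 h3)]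

/-- the transversal weight -/
noncomputable def Fe {n : ℕ} (a e x : EE n) : ℝ :=
  wv x a * (inner ℝ x a * inner ℝ x e / rr x) ^ 2

theorem cont_Fe {n : ℕ} (a e : EE n) : Continuous fun x : EE n => Fe a e x := by
  unfold Fe
  refine (cont_wv a).mul (Continuous.pow (Continuous.div (by fun_prop) cont_rr ?_) 2)
  intro x
  exact (rr_pos x).ne'

theorem Fe_nonneg {n : ℕ} (a e x : EE n) : 0 ≤ Fe a e x :=
  mul_nonneg (wv_pos x a).le (sq_nonneg _)

theorem ratio_le {n : ℕ} (x e : EE n) (he : ‖e‖ ≤ 1) : (inner ℝ x e / rr x) ^ 2 ≤ 1 := by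
  have h1 := rr_pos x
  have h : |inner ℝ x e| ≤ rr x := by
    refine (abs_real_inner_le_norm x e).trans ?_
    calc ‖x‖ * ‖e‖ ≤ ‖x‖ * 1 := mul_le_mul_of_nonneg_left he (norm_nonneg _)
      _ ≤ rr x := by rw [mul_one]; exact norm_le_rr x
  rw [div_pow, div_le_one (by positivity), ← sq_abs (inner ℝ x e)]
  exact pow_le_pow_left₀ (abs_nonneg _) h 2

theorem Fe_le {n : ℕ} (a e x : EE n) (he : ‖e‖ ≤ 1) :
    Fe a e x ≤ wv x a * (inner ℝ x a) ^ 2 := by
  unfold Fe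
  have h : (inner ℝ x a * inner ℝ x e / rr x) ^ 2 =
      (inner ℝ x a) ^ 2 * (inner ℝ x e / rr x) ^ 2 := by ring
  rw [h]
  refine mul_le_mul_of_nonneg_left ?_ (wv_pos x a).le
  calc (inner ℝ x a) ^ 2 * (inner ℝ x e / rr x) ^ 2 ≤ (inner ℝ x a) ^ 2 * 1 :=
        mul_le_mul_of_nonneg_left (ratio_le x e he) (sq_nonneg _)
    _ = (inner ℝ x a) ^ 2 := mul_one _

theorem int_Fe_eq {n : ℕ} (hMUN : PPX.Stmt_MUN) (hn : 1 ≤ n) (a e e' : EE n)
    (he : ‖e‖ = 1) (he' : ‖e'‖ = 1) (h : inner ℝ a e = (0 : ℝ)) (h' : inner ℝ a e' = (0 : ℝ)) :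
    ∫ x, Fe a e x ∂(mun n) = ∫ x, Fe a e' x ∂(mun n) := by
  set g : EE n ≃ₗᵢ[ℝ] EE n := (ℝ ∙ (e - e'))ᗮ.reflection with hg
  have hga : g a = a := refl_fix a (e - e') (by rw [inner_sub_right, h, h', sub_zero])
  have hge : g e = e' := Submodule.reflection_sub (by rw [he, he'])
  rw [← int_comp hMUN hn g (fun x => Fe a e' x) (cont_Fe a e')]
  congr 1
  funext x
  unfold Fe
  rw [wv_isom g x a hga, rr_isom]
  have h1 : inner ℝ (g x) a = (inner ℝ x a : ℝ) := by
    conv_lhs => rw [← hga]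
    exact g.inner_map_map x a
  have h2 : inner ℝ (g x) e' = (inner ℝ x e : ℝ) := by
    rw [← hge]
    exact g.inner_map_map x e
  rw [h1, h2]

theorem exists_basis {n : ℕ} (hn : 1 ≤ n) (a : EE n) (ha : ‖a‖ = 1) :
    ∃ b : OrthonormalBasis (Fin n) ℝ (EE n), b ⟨0, by omega⟩ = a := by
  have hcard : Module.finrank ℝ (EE n) = Fintype.card (Fin n) := by simp
  obtain ⟨b, hb⟩ := Orthonormal.exists_orthonormalBasis_extension_of_card_eq (𝕜 := ℝ)
    (E := EE n) hcard (v := fun _ => a) (s := {⟨0, by omega⟩}) (by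
      constructor
      · intro i
        simpa using ha
      · intro i j hij
        exact absurd (Subsingleton.elim i j) hij)
  exact ⟨b, hb _ rfl⟩

theorem int_Fe_le (hEW1 : PPX.Stmt_EW1) (hRD1 : PPX.Stmt_RD1) (hMUN : PPX.Stmt_MUN)
    (hC1D : PPX.Stmt_C1D) (hAVE : PPI.Stmt_AVE) (n : ℕ) (a e : EE n) (hn : 2 ≤ n)
    (ha : ‖a‖ = 1) (he : ‖e‖ = 1) (h : inner ℝ a e = (0 : ℝ)) :
    ∫ x, Fe a e x ∂(mun n) ≤ 1 / (((n : ℝ) - 1) * (n + 2)) := by
  obtain ⟨hy1, hy2⟩ := int_y2 hEW1 hRD1 hC1D hAVE n a hn ha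
  have hint : ∀ e : EE n, ‖e‖ ≤ 1 → Integrable (fun x : EE n => Fe a e x) (mun n) := by
    intro e he
    refine Integrable.mono' hy1 (cont_Fe a e).aestronglyMeasurable
      (Filter.Eventually.of_forall fun x => ?_)
    rw [Real.norm_of_nonneg (Fe_nonneg a e x)]
    exact Fe_le a e x he
  obtain ⟨b, hb⟩ := exists_basis (by omega) a ha
  set i0 : Fin n := ⟨0, by omega⟩ with hi0
  have hbn : ∀ i, ‖b i‖ = 1 := fun i => b.orthonormal.1 i
  have hbo : ∀ i, i ≠ i0 → inner ℝ a (b i) = (0 : ℝ) := by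
    intro i hi
    rw [← hb]
    exact b.orthonormal.2 (Ne.symm hi)
  have hsum : ∑ i ∈ Finset.univ.erase i0, ∫ x, Fe a (b i) x ∂(mun n) =
      ((n : ℝ) - 1) * ∫ x, Fe a e x ∂(mun n) := by
    rw [Finset.sum_congr rfl (fun i hi => int_Fe_eq hMUN (by omega) a (b i) e (hbn i) he
      (hbo i (Finset.ne_of_mem_erase hi)) h), Finset.sum_const,
      Finset.card_erase_of_mem (Finset.mem_univ _), Finset.card_univ, Fintype.card_fin,
      nsmul_eq_mul, Nat.cast_sub (by omega), Nat.cast_one]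
  have hle : ∑ i ∈ Finset.univ.erase i0, ∫ x, Fe a (b i) x ∂(mun n) ≤ 1 / ((n : ℝ) + 2) := by
    rw [← integral_finsetSum _ (fun i _ => hint (b i) (hbn i).le), ← hy2]
    refine integral_mono (integrable_finsetSum _ (fun i _ => hint (b i) (hbn i).le)) hy1 ?_
    intro x
    show ∑ i ∈ Finset.univ.erase i0, Fe a (b i) x ≤ wv x a * (inner ℝ x a) ^ 2
    unfold Fe
    rw [← Finset.mul_sum]
    refine mul_le_mul_of_nonneg_left ?_ (wv_pos x a).le
    have h1 : ∀ i, (inner ℝ x a * inner ℝ x (b i) / rr x) ^ 2 =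
        (inner ℝ x a) ^ 2 / rr x ^ 2 * (inner ℝ x (b i)) ^ 2 := by
      intro i
      ring
    simp_rw [h1]
    rw [← Finset.mul_sum]
    have h2 : ∑ i ∈ Finset.univ.erase i0, (inner ℝ x (b i)) ^ 2 ≤ ‖x‖ ^ 2 := by
      rw [← b.sum_sq_inner_left x]
      exact Finset.sum_le_sum_of_subset_of_nonneg (Finset.erase_subset _ _)
        (fun _ _ _ => sq_nonneg _)
    have h3 : ‖x‖ ^ 2 ≤ rr x ^ 2 := pow_le_pow_left₀ (norm_nonneg _) (norm_le_rr x) 2
    have h4 := rr_pos x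
    calc (inner ℝ x a) ^ 2 / rr x ^ 2 * ∑ i ∈ Finset.univ.erase i0, (inner ℝ x (b i)) ^ 2
        ≤ (inner ℝ x a) ^ 2 / rr x ^ 2 * rr x ^ 2 :=
          mul_le_mul_of_nonneg_left (h2.trans h3) (by positivity)
      _ = (inner ℝ x a) ^ 2 := by field_simp
  have hn' : (0 : ℝ) < (n : ℝ) - 1 := by
    have : (2 : ℝ) ≤ n := by exact_mod_cast hn
    linarith
  rw [hsum] at hle
  rw [le_div_iff₀ (by positivity)]
  rw [le_div_iff₀ (by positivity)] at hle
  linarith

theorem int_Fc_le (hEW1 : PPX.Stmt_EW1) (hRD1 : PPX.Stmt_RD1) (hMUN : PPX.Stmt_MUN)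
    (hC1D : PPX.Stmt_C1D) (hAVE : PPI.Stmt_AVE) (n : ℕ) (a c : EE n) (hn : 2 ≤ n)
    (ha : ‖a‖ = 1) (hc : ‖c‖ ≤ 1) (h : inner ℝ a c = (0 : ℝ)) :
    ∫ x, Fe a c x ∂(mun n) ≤ 2 / (n : ℝ) ^ 2 := by
  have hn2 : (2 : ℝ) ≤ n := by exact_mod_cast hn
  rcases eq_or_ne c 0 with rfl | hc0
  · have h0 : (fun x : EE n => Fe a 0 x) = fun _ => 0 := by
      funext x
      unfold Fe
      simp
    rw [h0, integral_zero]
    positivity
  · have hcn : 0 < ‖c‖ := norm_pos_iff.2 hc0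
    have he : ‖(‖c‖⁻¹ • c : EE n)‖ = 1 := by
      rw [norm_smul, norm_inv, norm_norm]
      field_simp
    have ho : inner ℝ a (‖c‖⁻¹ • c) = (0 : ℝ) := by
      rw [inner_smul_right, h, mul_zero]
    have h1 := int_Fe_le hEW1 hRD1 hMUN hC1D hAVE n a (‖c‖⁻¹ • c) hn ha he ho
    have h2 : (fun x : EE n => Fe a c x) = fun x => ‖c‖ ^ 2 * Fe a (‖c‖⁻¹ • c) x := by
      funext x
      unfold Fe
      rw [inner_smul_right]
      field_simp
    have h0 : 0 ≤ ∫ x, Fe a (‖c‖⁻¹ • c) x ∂(mun n) :=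
      integral_nonneg (fun x => Fe_nonneg _ _ _)
    rw [h2, integral_const_mul]
    have h3 : ‖c‖ ^ 2 ≤ 1 := by
      have := pow_le_pow_left₀ (norm_nonneg c) hc 2
      simpa using this
    calc ‖c‖ ^ 2 * ∫ x, Fe a (‖c‖⁻¹ • c) x ∂(mun n)
        ≤ 1 * ∫ x, Fe a (‖c‖⁻¹ • c) x ∂(mun n) := mul_le_mul_of_nonneg_right h3 h0
      _ ≤ 1 / (((n : ℝ) - 1) * (n + 2)) := by rw [one_mul]; exact h1
      _ ≤ 2 / (n : ℝ) ^ 2 := by
          have h4 : (0 : ℝ) < ((n : ℝ) - 1) * (n + 2) := by nlinarith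
          rw [div_le_div_iff₀ h4 (by positivity)]
          nlinarith

end GMA_

open GMA_ in
theorem gma_proof (hEW1 : PPX.Stmt_EW1) (hRD1 : PPX.Stmt_RD1) (hMUN : PPX.Stmt_MUN)
    (hC1D : PPX.Stmt_C1D) (hAVE : PPI.Stmt_AVE) : Stmt_GMA := by
  intro n a b hn ha hb
  set s : ℝ := inner ℝ a b with hs
  set c : EE n := b - s • a with hc
  have haa : inner ℝ a a = (1 : ℝ) := by rw [real_inner_self_eq_norm_sq, ha, one_pow]
  have hac : inner ℝ a c = (0 : ℝ) := by
    rw [hc, inner_sub_right, inner_smul_right, haa, ← hs, mul_one, sub_self]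
  have hs1 : s ^ 2 ≤ 1 := by
    have h := abs_real_inner_le_norm a b
    rw [ha, hb, one_mul] at h
    have h' : |inner ℝ a b| ^ 2 ≤ 1 ^ 2 := pow_le_pow_left₀ (abs_nonneg _) h 2
    rwa [sq_abs, one_pow] at h'
  have hcn : ‖c‖ ≤ 1 := by
    have h1 : ‖c‖ ^ 2 = 1 - s ^ 2 := by
      rw [hc, ← real_inner_self_eq_norm_sq, inner_sub_left, inner_sub_right, inner_sub_right,
        inner_smul_left, inner_smul_left, inner_smul_right, inner_smul_right, haa,
        real_inner_self_eq_norm_sq, hb, real_inner_comm a b, ← hs]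
      simp
      ring
    have h2 : ‖c‖ ^ 2 ≤ 1 ^ 2 := by rw [h1]; nlinarith [sq_nonneg s]
    exact (pow_le_pow_iff_left₀ (norm_nonneg _) zero_le_one (by norm_num)).1 h2
  have htx : ∀ x : EE n, inner ℝ (tx x a) b =
      s * (1 + (inner ℝ x a) ^ 2 / rr x) + inner ℝ x a * inner ℝ x c / rr x := by
    intro x
    have hr := rr_pos x
    have h1 : inner ℝ x b = s * inner ℝ x a + (inner ℝ x c : ℝ) := by
      rw [hc, inner_sub_right, inner_smul_right]
      ring
    have h2 : tx x a = a + (inner ℝ x a / rr x) • x := rfl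
    rw [h2, inner_add_left, inner_smul_left, h1, ← hs]
    simp only [conj_trivial]
    ring
  -- the three pieces
  set fA : EE n → ℝ := fun x => wv x a * (s * (1 + (inner ℝ x a) ^ 2 / rr x)) ^ 2 with hfA
  set fM : EE n → ℝ := fun x => wv x a * (2 * (s * (1 + (inner ℝ x a) ^ 2 / rr x)) *
    (inner ℝ x a * inner ℝ x c / rr x)) with hfM
  obtain ⟨hw1, hw2⟩ := hEW1 n a hn ha
  obtain ⟨hy1, hy2⟩ := int_y2 hEW1 hRD1 hC1D hAVE n a hn ha
  have hcq : Continuous fun x : EE n => (inner ℝ x a) ^ 2 / rr x :=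
    Continuous.div (by fun_prop) cont_rr (fun x => (rr_pos x).ne')
  have hcA : Continuous fA := by
    rw [hfA]
    exact (cont_wv a).mul ((continuous_const.mul (continuous_const.add hcq)).pow 2)
  have hcM : Continuous fM := by
    rw [hfM]
    exact (cont_wv a).mul ((continuous_const.mul
      (continuous_const.mul (continuous_const.add hcq))).mul
      (Continuous.div (by fun_prop) cont_rr (fun x => (rr_pos x).ne')))
  have hA2 : ∀ x : EE n, (s * (1 + (inner ℝ x a) ^ 2 / rr x)) ^ 2 ≤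
      s ^ 2 * (1 + (inner ℝ x a) ^ 2) := by
    intro x
    rw [mul_pow]
    exact mul_le_mul_of_nonneg_left (first_le x a ha) (sq_nonneg _)
  have hA3 : ∀ x : EE n, fA x ≤ s ^ 2 * ww x a := by
    intro x
    rw [ww_eq]
    have := mul_le_mul_of_nonneg_left (hA2 x) (wv_pos x a).le
    show wv x a * _ ≤ _
    linarith
  have hB2 : ∀ x : EE n, (inner ℝ x a * inner ℝ x c / rr x) ^ 2 ≤ (inner ℝ x a) ^ 2 := by
    intro x
    have h : (inner ℝ x a * inner ℝ x c / rr x) ^ 2 =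
      (inner ℝ x a) ^ 2 * (inner ℝ x c / rr x) ^ 2 := by ring
    rw [h]
    calc (inner ℝ x a) ^ 2 * (inner ℝ x c / rr x) ^ 2 ≤ (inner ℝ x a) ^ 2 * 1 :=
        mul_le_mul_of_nonneg_left (ratio_le x c hcn) (sq_nonneg _)
      _ = (inner ℝ x a) ^ 2 := mul_one _
  have hiA : Integrable fA (mun n) := by
    refine Integrable.mono' hw1 hcA.aestronglyMeasurable (Filter.Eventually.of_forall fun x => ?_)
    have h0 : 0 ≤ fA x := mul_nonneg (wv_pos x a).le (sq_nonneg _)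
    rw [Real.norm_of_nonneg h0]
    have h1 : 0 ≤ ww x a := by rw [ww_eq]; exact mul_nonneg (wv_pos x a).le (by positivity)
    nlinarith [hA3 x]
  have hiM : Integrable fM (mun n) := by
    refine Integrable.mono' (hw1.const_mul 2) hcM.aestronglyMeasurable
      (Filter.Eventually.of_forall fun x => ?_)
    have hw := wv_pos x a
    have h1 := hA2 x
    have h2 := hB2 x
    rw [ww_eq, hfM, Real.norm_eq_abs, abs_mul, abs_of_pos hw]
    have h3 : |2 * (s * (1 + (inner ℝ x a) ^ 2 / rr x)) * (inner ℝ x a * inner ℝ x c / rr x)| ≤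
        2 * (1 + (inner ℝ x a) ^ 2) := by
      rw [abs_le]
      have h4 : s ^ 2 * (1 + (inner ℝ x a) ^ 2) ≤ 1 * (1 + (inner ℝ x a) ^ 2) :=
        mul_le_mul_of_nonneg_right hs1 (by positivity)
      constructor <;> nlinarith [sq_nonneg ((s * (1 + (inner ℝ x a) ^ 2 / rr x)) +
        (inner ℝ x a * inner ℝ x c / rr x)), sq_nonneg ((s * (1 + (inner ℝ x a) ^ 2 / rr x)) -
        (inner ℝ x a * inner ℝ x c / rr x))]
    calc wv x a * _ ≤ wv x a * (2 * (1 + (inner ℝ x a) ^ 2)) :=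
          mul_le_mul_of_nonneg_left h3 hw.le
      _ = 2 * (wv x a * (1 + (inner ℝ x a) ^ 2)) := by ring
  have hiB : Integrable (fun x : EE n => Fe a c x) (mun n) := by
    refine Integrable.mono' hy1 (cont_Fe a c).aestronglyMeasurable
      (Filter.Eventually.of_forall fun x => ?_)
    rw [Real.norm_of_nonneg (Fe_nonneg a c x)]
    exact Fe_le a c x hcn
  have hM0 : ∫ x, fM x ∂(mun n) = 0 := by
    set g : EE n ≃ₗᵢ[ℝ] EE n := (ℝ ∙ c)ᗮ.reflection with hg
    have hga : g a = a := refl_fix a c hac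
    have hgc : g c = -c := Submodule.reflection_orthogonalComplement_singleton_eq_neg c
    have h1 := int_comp hMUN (by omega) g fM hcM
    have h2 : ∀ x, fM (g x) = - fM x := by
      intro x
      have e1 : inner ℝ (g x) a = (inner ℝ x a : ℝ) := by
        conv_lhs => rw [← hga]
        exact g.inner_map_map x a
      have e2 : inner ℝ (g x) c = -(inner ℝ x c : ℝ) := by
        have := g.inner_map_map x c
        rw [hgc, inner_neg_right] at this
        linarith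
      rw [hfM]
      simp only
      rw [wv_isom g x a hga, rr_isom, e1, e2]
      ring
    simp_rw [h2] at h1
    rw [integral_neg] at h1
    linarith
  have hsplit : ∀ x : EE n, wv x a * (inner ℝ (tx x a) b) ^ 2 = fA x + fM x + Fe a c x := by
    intro x
    rw [htx]
    simp only [hfA, hfM, Fe]
    ring
  simp_rw [hsplit]
  refine ⟨(hiA.add hiM).add hiB, ?_⟩
  have hsp1 : ∫ x, fA x + fM x + Fe a c x ∂(mun n) =
      ∫ x, fA x + fM x ∂(mun n) + ∫ x, Fe a c x ∂(mun n) := integral_add (hiA.add hiM) hiB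
  have hsp2 : ∫ x, fA x + fM x ∂(mun n) = ∫ x, fA x ∂(mun n) + ∫ x, fM x ∂(mun n) :=
    integral_add hiA hiM
  rw [hsp1, hsp2, hM0, add_zero]
  have hI1 : ∫ x, fA x ∂(mun n) ≤ s ^ 2 := by
    calc ∫ x, fA x ∂(mun n) ≤ ∫ x, s ^ 2 * ww x a ∂(mun n) :=
          integral_mono hiA (hw1.const_mul _) hA3
      _ = s ^ 2 := by rw [integral_const_mul, hw2, mul_one]
  have hI2 := int_Fc_le hEW1 hRD1 hMUN hC1D hAVE n a c hn ha hcn hac
  linarith

end PPW
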