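import Pool.Agent.PPW.Stmts

/-!
# Squad PPW, module GMX: the measure `mun n` is a mixture of Gaussian measures
-/

set_option autoImplicit false

namespace PPW

open MeasureTheory Set Filter Topology ProbabilityTheory
open PPI PPG PPX
open scoped Pointwise ENNReal

noncomputable section

namespace GMX_

/-- the Gaussian density -/
def dens (n : ℕ) (y : EE n) : ℝ :=
  (1 / (2 * Real.pi)) ^ ((n : ℝ) / 2) * Real.exp (-(‖y‖ ^ 2 / 2))

lemma dens_nonneg (n : ℕ) (y : EE n) : 0 ≤ dens n y := by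
  have := Real.pi_pos
  unfold dens
  positivity

lemma dens_meas (n : ℕ) : Measurable (dens n) := by
  unfold dens
  fun_prop

lemma integrable_dens (n : ℕ) : Integrable (dens n) := by
  have h : Integrable (fun y : EE n => Real.exp (-((1 : ℝ) / 2) * ‖y‖ ^ 2)) := by
    have := GaussianFourier.integrable_cexp_neg_mul_sq_norm_add (V := EE n)
      (b := ((1 : ℝ) / 2 : ℝ)) (by simp) 0 0
    have h2 := this.norm
    refine h2.congr (Filter.Eventually.of_forall fun y => ?_)
    simp only [zero_mul, add_zero, Complex.norm_exp]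
    norm_cast
  have h2 := h.const_mul ((1 / (2 * Real.pi)) ^ ((n : ℝ) / 2))
  refine h2.congr (Filter.Eventually.of_forall fun y => ?_)
  simp only [dens]
  congr 2
  ring

lemma const_mul_const (n : ℕ) :
    ((((1 / (2 * Real.pi)) ^ ((n : ℝ) / 2) : ℝ)) : ℂ) *
      ((Real.pi : ℂ) / (((1 : ℝ) / 2 : ℝ) : ℂ)) ^ ((Fintype.card (Fin n) : ℂ) / 2) = 1 := by
  have hpi := Real.pi_pos
  have h1 : ((Real.pi : ℂ) / (((1 : ℝ) / 2 : ℝ) : ℂ)) = ((2 * Real.pi : ℝ) : ℂ) := by
    push_cast
    field_simp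
  have h2 : ((Fintype.card (Fin n) : ℂ) / 2) = (((n : ℝ) / 2 : ℝ) : ℂ) := by
    rw [Fintype.card_fin]
    push_cast
    ring
  rw [h1, h2, ← Complex.ofReal_cpow (by positivity), ← Complex.ofReal_mul,
    ← Real.mul_rpow (by positivity) (by positivity)]
  have h3 : (1 : ℝ) / (2 * Real.pi) * (2 * Real.pi) = 1 := by
    field_simp
  rw [h3, Real.one_rpow]
  norm_num

theorem gam_eq (n : ℕ) :
    gam n = (volume : Measure (EE n)).withDensity (fun y => ENNReal.ofReal (dens n y)) := by
  have hint := integrable_dens n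
  have hfin : IsFiniteMeasure ((volume : Measure (EE n)).withDensity
      (fun y => ENNReal.ofReal (dens n y))) := by
    refine isFiniteMeasure_withDensity ?_
    exact (hint.lintegral_lt_top).ne
  have hfin2 : IsFiniteMeasure (gam n) := by
    unfold gam
    infer_instance
  apply Measure.ext_of_charFun
  ext t
  unfold gam
  rw [charFun_stdGaussian, charFun_apply]
  rw [integral_withDensity_eq_integral_toReal_smul (by
    exact (dens_meas n).ennreal_ofReal) (by
    exact Filter.Eventually.of_forall fun y => ENNReal.ofReal_lt_top)]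
  have h1 : ∀ y : EE n, (ENNReal.ofReal (dens n y)).toReal • Complex.exp (inner ℝ y t * Complex.I) =
      ((((1 / (2 * Real.pi)) ^ ((n : ℝ) / 2) : ℝ)) : ℂ) *
      Complex.exp (-(((1 : ℝ) / 2 : ℝ) : ℂ) * (‖y‖ : ℂ) ^ 2 + Complex.I * (inner ℝ t y : ℝ)) := by
    intro y
    rw [ENNReal.toReal_ofReal (dens_nonneg n y), real_inner_comm, Complex.exp_add]
    simp only [dens, Complex.real_smul, Complex.ofReal_mul, Complex.ofReal_exp]
    rw [mul_assoc]
    congr 1
    congr 1
    · congr 1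
      push_cast
      ring
    · congr 1
      ring
  simp_rw [h1]
  rw [integral_const_mul]
  rw [GaussianFourier.integral_cexp_neg_mul_sq_norm_add_of_euclideanSpace (by
    simp) Complex.I t]
  rw [← mul_assoc, const_mul_const n, one_mul]
  congr 1
  rw [Complex.I_sq]
  push_cast
  ring

theorem pt_meas (n : ℕ) : Measurable (pt : ℝ × EE n → EE n) := by
  unfold pt sg
  exact (((measurable_fst.const_mul 2).sqrt).inv).smul measurable_snd

/-- the constant of the Gaussian density -/
def cg (n : ℕ) : ℝ := (1 / (2 * Real.pi)) ^ ((n : ℝ) / 2)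

lemma cg_nonneg (n : ℕ) : 0 ≤ cg n := by
  have := Real.pi_pos
  unfold cg
  positivity

/-- the inner integral -/
theorem inner_int {n : ℕ} {F : EE n → ℝ≥0∞} (hF : Measurable F) {t : ℝ} (ht : 0 < t) :
    ∫⁻ y, F (sg t • y) ∂(gam n) = ∫⁻ x, ENNReal.ofReal ((2 * t) ^ ((n : ℝ) / 2)) *
      (ENNReal.ofReal (cg n * Real.exp (-(t * ‖x‖ ^ 2))) * F x) := by
  have hr : 0 < sg t := by
    unfold sg
    positivity
  set r := sg t with hrdef
  have hr0 : r ≠ 0 := hr.ne'
  have hFr : Measurable (fun y : EE n => F (r • y)) := hF.comp (measurable_const_smul r)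
  rw [gam_eq, lintegral_withDensity_eq_lintegral_mul _ (dens_meas n).ennreal_ofReal hFr]
  set H : EE n → ℝ≥0∞ := fun x => ENNReal.ofReal (dens n (r⁻¹ • x)) * F x with hH
  have hHm : Measurable H :=
    (((dens_meas n).comp (measurable_const_smul r⁻¹)).ennreal_ofReal).mul hF
  have h1 : ∀ y : EE n, ((fun y => ENNReal.ofReal (dens n y)) * fun y => F (r • y)) y =
      H (r • y) := by
    intro y
    simp only [hH, Pi.mul_apply, smul_smul, inv_mul_cancel₀ hr0, one_smul]
  rw [lintegral_congr h1]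
  have h2 : ∫⁻ y, H (r • y) = ∫⁻ x, H x ∂(Measure.map (fun y : EE n => r • y) volume) := by
    rw [lintegral_map hHm (measurable_const_smul r)]
  rw [h2, Measure.map_addHaar_smul volume hr0, lintegral_smul_measure, smul_eq_mul,
    ← lintegral_const_mul _ hHm]
  refine lintegral_congr fun x => ?_
  have h3 : |(r ^ Module.finrank ℝ (EE n))⁻¹| = (2 * t) ^ ((n : ℝ) / 2) := by
    rw [finrank_euclideanSpace_fin, abs_of_nonneg (by positivity), hrdef]
    unfold sg
    rw [inv_pow, inv_inv, Real.sqrt_eq_rpow, ← Real.rpow_natCast, ← Real.rpow_mul (by positivity)]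
    congr 1
    ring
  have h4 : dens n (r⁻¹ • x) = cg n * Real.exp (-(t * ‖x‖ ^ 2)) := by
    unfold dens cg
    congr 2
    rw [norm_smul, Real.norm_of_nonneg (by positivity), hrdef]
    unfold sg
    rw [inv_inv, mul_pow, Real.sq_sqrt (by positivity)]
    ring
  rw [h3]
  simp only [hH, h4]

/-- the integral in `t` -/
theorem gamma_int (n : ℕ) {s : ℝ} (hs : 0 ≤ s) :
    ∫⁻ t in Ioi (0 : ℝ), ENNReal.ofReal (Real.exp (-t)) *
      (ENNReal.ofReal ((2 * t) ^ ((n : ℝ) / 2)) *
        ENNReal.ofReal (cg n * Real.exp (-(t * s)))) =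
      ENNReal.ofReal (cg n * 2 ^ ((n : ℝ) / 2) * Real.Gamma ((n : ℝ) / 2 + 1)) *
        ENNReal.ofReal ((1 + s) ^ (-((n : ℝ) / 2) - 1)) := by
  have hn : (0 : ℝ) ≤ n := Nat.cast_nonneg n
  have h1s : 0 < 1 + s := by linarith
  have hint : IntegrableOn (fun t : ℝ => t ^ ((n : ℝ) / 2) * Real.exp (-(1 + s) * t ^ (1 : ℝ)))
      (Ioi 0) := integrableOn_rpow_mul_exp_neg_mul_rpow (by linarith) one_pos h1s
  have hint2 : IntegrableOn (fun t : ℝ => cg n * 2 ^ ((n : ℝ) / 2) *
      (t ^ ((n : ℝ) / 2 + 1 - 1) * Real.exp (-((1 + s) * t)))) (Ioi 0) := by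
    have hint3 : IntegrableOn (fun t : ℝ => cg n * 2 ^ ((n : ℝ) / 2) *
        (t ^ ((n : ℝ) / 2) * Real.exp (-(1 + s) * t ^ (1 : ℝ)))) (Ioi 0) := hint.const_mul _
    refine hint3.congr_fun (fun t _ => ?_) measurableSet_Ioi
    simp only [Real.rpow_one]
    rw [show (n : ℝ) / 2 + 1 - 1 = (n : ℝ) / 2 by ring]
    congr 3
    ring
  have hnn : ∀ᵐ t ∂(volume.restrict (Ioi (0 : ℝ))), 0 ≤ cg n * 2 ^ ((n : ℝ) / 2) *
      (t ^ ((n : ℝ) / 2 + 1 - 1) * Real.exp (-((1 + s) * t))) := by
    rw [ae_restrict_iff' measurableSet_Ioi]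
    refine Eventually.of_forall fun t ht => ?_
    have h0 := cg_nonneg n
    have h1 : (0 : ℝ) < t := ht
    positivity
  have h2 : ∫⁻ t in Ioi (0 : ℝ), ENNReal.ofReal (Real.exp (-t)) *
      (ENNReal.ofReal ((2 * t) ^ ((n : ℝ) / 2)) *
        ENNReal.ofReal (cg n * Real.exp (-(t * s)))) =
      ∫⁻ t in Ioi (0 : ℝ), ENNReal.ofReal (cg n * 2 ^ ((n : ℝ) / 2) *
      (t ^ ((n : ℝ) / 2 + 1 - 1) * Real.exp (-((1 + s) * t)))) := by
    refine setLIntegral_congr_fun measurableSet_Ioi fun t ht => ?_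
    have h1 : (0 : ℝ) < t := ht
    have h0 := cg_nonneg n
    rw [← ENNReal.ofReal_mul (by positivity), ← ENNReal.ofReal_mul (by positivity)]
    congr 1
    rw [Real.mul_rpow (by norm_num) h1.le, show (n : ℝ) / 2 + 1 - 1 = (n : ℝ) / 2 by ring,
      show -((1 + s) * t) = -t + -(t * s) by ring, Real.exp_add]
    ring
  rw [h2, ← ofReal_integral_eq_lintegral_ofReal hint2 hnn, integral_const_mul,
    Real.integral_rpow_mul_exp_neg_mul_Ioi (by positivity) h1s,
    ← ENNReal.ofReal_mul (by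
      have h0 := cg_nonneg n
      have h3 := Real.Gamma_pos_of_pos (show 0 < (n : ℝ) / 2 + 1 by positivity)
      positivity)]
  congr 1
  rw [one_div, Real.inv_rpow h1s.le, ← Real.rpow_neg h1s.le,
    show -((n : ℝ) / 2 + 1) = -((n : ℝ) / 2) - 1 by ring]
  ring

/-- the density of `mun` up to a constant -/
def w (n : ℕ) (x : EE n) : ℝ≥0∞ := ENNReal.ofReal ((1 + ‖x‖ ^ 2) ^ (-((n : ℝ) / 2) - 1))

lemma w_meas (n : ℕ) : Measurable (w n) := by
  unfold w
  fun_prop

theorem key (n : ℕ) : ∃ C : ℝ≥0∞, ∀ F : EE n → ℝ≥0∞, Measurable F →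
    ∫⁻ z, F (pt z) ∂(pm n) = C * ∫⁻ x, w n x * F x := by
  refine ⟨ENNReal.ofReal (cg n * 2 ^ ((n : ℝ) / 2) * Real.Gamma ((n : ℝ) / 2 + 1)),
    fun F hF => ?_⟩
  have hsf : SFinite (gam n) := by
    unfold gam
    infer_instance
  have hFp : Measurable (fun z : ℝ × EE n => F (pt z)) := hF.comp (pt_meas n)
  unfold pm
  rw [lintegral_prod _ hFp.aemeasurable]
  unfold ex
  rw [lintegral_withDensity_eq_lintegral_mul _ (by fun_prop) hFp.lintegral_prod_right']
  have h1 : ∫⁻ t in Ioi (0 : ℝ), ((fun t => ENNReal.ofReal (Real.exp (-t))) *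
      fun t => ∫⁻ y, F (pt (t, y)) ∂(gam n)) t =
      ∫⁻ t in Ioi (0 : ℝ), ∫⁻ x : EE n, (ENNReal.ofReal (Real.exp (-t)) *
        (ENNReal.ofReal ((2 * t) ^ ((n : ℝ) / 2)) *
          ENNReal.ofReal (cg n * Real.exp (-(t * ‖x‖ ^ 2))))) * F x := by
    refine setLIntegral_congr_fun measurableSet_Ioi fun t ht => ?_
    simp only [Pi.mul_apply]
    have h2 : ∫⁻ y, F (pt (t, y)) ∂(gam n) = ∫⁻ y, F (sg t • y) ∂(gam n) := rfl
    rw [h2, inner_int hF ht, ← lintegral_const_mul _ (by fun_prop)]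
    refine lintegral_congr fun x => ?_
    ring
  rw [h1, lintegral_lintegral_swap (by
    refine Measurable.aemeasurable ?_
    simp only [Function.uncurry_def]
    fun_prop)]
  have h3 : ∀ x : EE n, ∫⁻ t in Ioi (0 : ℝ), (ENNReal.ofReal (Real.exp (-t)) *
        (ENNReal.ofReal ((2 * t) ^ ((n : ℝ) / 2)) *
          ENNReal.ofReal (cg n * Real.exp (-(t * ‖x‖ ^ 2))))) * F x =
      ENNReal.ofReal (cg n * 2 ^ ((n : ℝ) / 2) * Real.Gamma ((n : ℝ) / 2 + 1)) *
        (w n x * F x) := by
    intro x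
    rw [lintegral_mul_const _ (by fun_prop), gamma_int n (sq_nonneg ‖x‖), mul_assoc]
    rfl
  have hwF : Measurable (fun x => w n x * F x) := (w_meas n).mul hF
  rw [lintegral_congr h3, lintegral_const_mul _ hwF]

end GMX_

open GMX_ in
theorem gmx_proof (_hEXB : Stmt_EXB) (_hAVE : PPI.Stmt_AVE) (_hMUN : PPX.Stmt_MUN) : Stmt_GMX := by
  intro n hn
  refine ⟨pt_meas n, ?_⟩
  have hprob : IsProbabilityMeasure (mun n) := (_hMUN n hn).1
  have hkap : 0 < kap n := (_hAVE n hn).1
  obtain ⟨C, hC⟩ := key n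
  have hex : IsProbabilityMeasure ex := _hEXB.1
  have hgam : IsProbabilityMeasure (gam n) := by
    unfold gam
    infer_instance
  have hpm : IsProbabilityMeasure (pm n) := by
    unfold pm
    infer_instance
  -- integrals against `mun`
  have hmun : ∀ s : Set (EE n), MeasurableSet s →
      mun n s = ENNReal.ofReal (1 / kap n) * ∫⁻ x, w n x * s.indicator 1 x := by
    intro s hs
    have hind : Measurable (s.indicator (1 : EE n → ℝ≥0∞)) := measurable_one.indicator hs
    unfold mun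
    have hwI : Measurable (fun x => w n x * s.indicator (1 : EE n → ℝ≥0∞) x) :=
      (w_meas n).mul hind
    rw [withDensity_apply _ hs, ← lintegral_const_mul _ hwI,
      ← lintegral_indicator hs]
    refine lintegral_congr fun x => ?_
    by_cases hx : x ∈ s
    · rw [indicator_of_mem hx, indicator_of_mem hx, Pi.one_apply, mul_one]
      unfold w
      rw [← ENNReal.ofReal_mul (by positivity)]
      congr 1
      ring
    · rw [indicator_of_notMem hx, indicator_of_notMem hx, mul_zero, mul_zero]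
  have hmap : ∀ s : Set (EE n), MeasurableSet s →
      (pm n).map pt s = C * ∫⁻ x, w n x * s.indicator 1 x := by
    intro s hs
    have hind : Measurable (s.indicator (1 : EE n → ℝ≥0∞)) := measurable_one.indicator hs
    rw [← hC _ hind, ← lintegral_map hind (pt_meas n), lintegral_indicator_one hs]
  have hmapprob : IsProbabilityMeasure ((pm n).map pt) :=
    Measure.isProbabilityMeasure_map (pt_meas n).aemeasurable
  have e1 := hmun univ MeasurableSet.univ
  have e2 := hmap univ MeasurableSet.univ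
  rw [measure_univ] at e1 e2
  set I := ∫⁻ x, w n x * (univ : Set (EE n)).indicator 1 x with hI
  have hI0 : I ≠ 0 := by
    intro h
    rw [h, mul_zero] at e1
    exact one_ne_zero e1
  have hIt : I ≠ ⊤ := by
    intro h
    rw [h, ENNReal.mul_top (by
      rw [Ne, ENNReal.ofReal_eq_zero, not_le]
      positivity)] at e1
    exact ENNReal.one_ne_top e1
  have hCeq : C = ENNReal.ofReal (1 / kap n) := by
    have h3 : C * I = ENNReal.ofReal (1 / kap n) * I := by rw [← e1, ← e2]
    exact (ENNReal.mul_left_inj hI0 hIt).1 h3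
  ext s hs
  rw [hmap s hs, hmun s hs, hCeq]

end

end PPW
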