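import Pool.Agent.PPW.Stmts

/-!
Module GNM: norms of Gaussian vectors.
-/

set_option autoImplicit false

namespace PPW

open MeasureTheory Set Filter Topology ProbabilityTheory
open PPI PPG PPX
open scoped Pointwise ENNReal

noncomputable section

namespace GNM_

theorem m2 : ∫ x, x ^ 2 ∂(gaussianReal 0 1) = 1 := by
  have h := variance_fun_id_gaussianReal (μ := 0) (v := 1)
  rw [variance_eq_integral (by fun_prop)] at h
  simpa using h

theorem gam52 : Real.Gamma ((4 + 1) / 2) = 3 / 4 * √Real.pi := by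
  have h1 : ((4 : ℝ) + 1) / 2 = 3 / 2 + 1 := by norm_num
  have h2 : (3 : ℝ) / 2 = 1 / 2 + 1 := by norm_num
  rw [h1, Real.Gamma_add_one (by norm_num), h2, Real.Gamma_add_one (by norm_num),
    Real.Gamma_one_half_eq]
  ring

theorem m4 : ∫ x, x ^ 4 ∂(gaussianReal 0 1) = 3 := by
  rw [integral_gaussianReal_eq_integral_smul one_ne_zero]
  have e : ∀ x : ℝ, gaussianPDFReal 0 1 x • x ^ 4 =
      (√(2 * Real.pi))⁻¹ * (fun y : ℝ => y ^ (4 : ℝ) * Real.exp (-(1 / 2) * y ^ (2 : ℝ))) |x| := by
    intro x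
    rw [gaussianPDFReal_def, smul_eq_mul]
    have h1 : |x| ^ (4 : ℝ) = x ^ 4 := by
      have : |x| ^ (4 : ℝ) = |x| ^ (4 : ℕ) := by
        rw [← Real.rpow_natCast]
        norm_num
      rw [this]
      exact (by decide : Even 4).pow_abs x
    have h2 : |x| ^ (2 : ℝ) = x ^ 2 := by
      have : |x| ^ (2 : ℝ) = |x| ^ (2 : ℕ) := by
        rw [← Real.rpow_natCast]
        norm_num
      rw [this, sq_abs]
    simp only [h1, h2, NNReal.coe_one, mul_one, sub_zero]
    have h3 : -x ^ 2 / 2 = -(1 / 2) * x ^ 2 := by ring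
    rw [h3]
    ring
  have hab := integral_comp_abs (f := fun y : ℝ => y ^ (4 : ℝ) * Real.exp (-(1 / 2) * y ^ (2 : ℝ)))
  simp only [e]
  rw [integral_const_mul, hab,
    integral_rpow_mul_exp_neg_mul_rpow (by norm_num) (by norm_num) (by norm_num), gam52]
  have h4 : (1 / 2 : ℝ) ^ (-((4 : ℝ) + 1) / 2) = 4 * √2 := by
    rw [one_div, Real.inv_rpow (by norm_num), ← Real.rpow_neg (by norm_num)]
    have : -(-((4 : ℝ) + 1) / 2) = 2 + 1 / 2 := by norm_num
    rw [this, Real.rpow_add (by norm_num), ← Real.sqrt_eq_rpow]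
    norm_num
  rw [h4, Real.sqrt_mul (by norm_num)]
  have h5 : 0 < √Real.pi := Real.sqrt_pos.mpr Real.pi_pos
  have h6 : 0 < √(2 : ℝ) := Real.sqrt_pos.mpr (by norm_num)
  field_simp

theorem lint_sq : ∫⁻ v, ENNReal.ofReal (v ^ 2) ∂ga1 = 1 := by
  have hi : Integrable (fun v : ℝ => v ^ 2) (gaussianReal 0 1) :=
    (memLp_id_gaussianReal 2).integrable_sq
  unfold ga1
  rw [← ofReal_integral_eq_lintegral_ofReal hi (Eventually.of_forall fun v => sq_nonneg v), m2]
  simp

theorem int4 : Integrable (fun x : ℝ => x ^ 4) (gaussianReal 0 1) := by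
  have h := (memLp_id_gaussianReal (μ := 0) (v := 1) 4).integrable_norm_pow (by norm_num)
  have e : (fun x : ℝ => ‖(id x : ℝ)‖ ^ ((4 : ℕ))) = fun x => x ^ 4 := by
    funext x
    rw [Real.norm_eq_abs]
    exact (by decide : Even 4).pow_abs x
  rw [← e]
  exact h

theorem memsq : MemLp (fun x : ℝ => x ^ 2) 2 (gaussianReal 0 1) := by
  rw [memLp_two_iff_integrable_sq (by fun_prop)]
  have e : (fun x : ℝ => (x ^ 2) ^ 2) = fun x => x ^ 4 := by
    funext x
    ring
  rw [e]
  exact int4

theorem varsq : variance (fun x : ℝ => x ^ 2) (gaussianReal 0 1) = 2 := by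
  rw [variance_eq_sub memsq]
  have e : ((fun x : ℝ => x ^ 2) ^ 2) = fun x : ℝ => x ^ 4 := by
    funext x
    simp only [Pi.pow_apply]
    ring
  rw [e, m4, m2]
  norm_num

end GNM_

open GNM_ in
theorem gnm_proof (hGLA : Stmt_GLA) : Stmt_GNM := by
  intro n
  constructor
  · intro m P hP
    have h1 : ∀ y : EE n, ENNReal.ofReal (‖P y‖ ^ 2) =
        ∑ k : Fin n, (fun s : ℝ => ENNReal.ofReal (s ^ 2))
          (inner ℝ y (P (EuclideanSpace.single k 1))) := by
      intro y
      simp only
      rw [← ENNReal.ofReal_sum_of_nonneg (fun k _ => sq_nonneg _), EuclideanSpace.real_norm_sq_eq]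
      congr 1
      apply Finset.sum_congr rfl
      intro k _
      rw [← hP.sym, EuclideanSpace.inner_single_right]
      simp
    simp only [h1]
    have hmF : Measurable (fun s : ℝ => ENNReal.ofReal (s ^ 2)) := by
      apply Measurable.ennreal_ofReal
      fun_prop
    rw [lintegral_finsetSum]
    · have h2 : ∀ k : Fin n, ∫⁻ y, ENNReal.ofReal ((inner ℝ y (P (EuclideanSpace.single k 1))) ^ 2)
          ∂(gam n) = ENNReal.ofReal (‖P (EuclideanSpace.single k 1)‖ ^ 2) := by
        intro k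
        have := hGLA.1 n (P (EuclideanSpace.single k 1)) (fun s => ENNReal.ofReal (s ^ 2)) hmF
        have this' : ∫⁻ y, ENNReal.ofReal ((inner ℝ y (P (EuclideanSpace.single k 1))) ^ 2)
          ∂(gam n) = ∫⁻ v, ENNReal.ofReal ((‖P (EuclideanSpace.single k 1)‖ * v) ^ 2) ∂ga1 := this
        rw [this']
        have h3 : ∀ v : ℝ, ENNReal.ofReal ((‖P (EuclideanSpace.single k 1)‖ * v) ^ 2) =
            ENNReal.ofReal (‖P (EuclideanSpace.single k 1)‖ ^ 2) * ENNReal.ofReal (v ^ 2) := by
          intro v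
          rw [mul_pow, ENNReal.ofReal_mul (sq_nonneg _)]
        simp only [h3]
        rw [lintegral_const_mul _ hmF, lint_sq, mul_one]
      simp only [h2]
      rw [← ENNReal.ofReal_sum_of_nonneg (fun k _ => sq_nonneg _), hP.rk]
      simp
    · intro k _
      exact hmF.comp (by fun_prop)
  · have hmf : Measurable (fun y : EE n => ENNReal.ofReal ((‖y‖ ^ 2 - n) ^ 2)) := by
      apply Measurable.ennreal_ofReal
      fun_prop
    have hto : Measurable (WithLp.toLp 2 : (Fin n → ℝ) → EE n) := by fun_prop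
    have hg : gam n = (Measure.pi (fun _ : Fin n => gaussianReal 0 1)).map (WithLp.toLp 2) := by
      unfold gam
      exact map_pi_eq_stdGaussian.symm
    rw [hg, lintegral_map hmf hto]
    have hn : ∀ x : Fin n → ℝ, ‖(WithLp.toLp 2 x : EE n)‖ ^ 2 = ∑ i, x i ^ 2 := by
      intro x
      rw [EuclideanSpace.real_norm_sq_eq]
    simp only [hn]
    have hmem : ∀ i : Fin n, MemLp (fun ω : Fin n → ℝ => ω i ^ 2) 2
        (Measure.pi (fun _ : Fin n => gaussianReal 0 1)) := fun i =>
      memsq.comp_measurePreserving (measurePreserving_eval _ i)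
    have hsum : MemLp (∑ i, fun ω : Fin n → ℝ => ω i ^ 2) 2
        (Measure.pi (fun _ : Fin n => gaussianReal 0 1)) := memLp_finsetSum' _ fun i _ => hmem i
    have hmean1 : ∀ i : Fin n, ∫ ω : Fin n → ℝ, ω i ^ 2
        ∂(Measure.pi (fun _ : Fin n => gaussianReal 0 1)) = 1 := by
      intro i
      have := (measurePreserving_eval (fun _ : Fin n => gaussianReal 0 1) i).map_eq
      have h4 := integral_map (μ := Measure.pi (fun _ : Fin n => gaussianReal 0 1))
        (φ := Function.eval i) (measurable_pi_apply i).aemeasurable (f := fun x : ℝ => x ^ 2)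
        (by fun_prop)
      rw [this, m2] at h4
      exact h4.symm
    have hmean : ∫ ω : Fin n → ℝ, (∑ i, fun ω : Fin n → ℝ => ω i ^ 2) ω
        ∂(Measure.pi (fun _ : Fin n => gaussianReal 0 1)) = n := by
      have h5 : ∀ ω : Fin n → ℝ, (∑ i, fun ω : Fin n → ℝ => ω i ^ 2) ω = ∑ i, ω i ^ 2 := by
        intro ω
        simp
      simp only [h5]
      rw [integral_finsetSum _ fun i _ => (hmem i).integrable (by norm_num)]
      simp only [hmean1]
      simp
    have hvar := variance_sum_pi (μ := fun _ : Fin n => gaussianReal 0 1)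
      (X := fun (_ : Fin n) (x : ℝ) => x ^ 2) (fun i => memsq)
    rw [variance_eq_integral hsum.aestronglyMeasurable.aemeasurable, hmean] at hvar
    simp only [varsq] at hvar
    have h6 : ∀ x : Fin n → ℝ, (∑ i, x i ^ 2 - (n : ℝ)) ^ 2 =
        ((∑ i, fun ω : Fin n → ℝ => ω i ^ 2) x - n) ^ 2 := by
      intro x
      simp
    simp only [h6]
    have h7 : Integrable (fun x : Fin n → ℝ => ((∑ i, fun ω : Fin n → ℝ => ω i ^ 2) x - n) ^ 2)
        (Measure.pi (fun _ : Fin n => gaussianReal 0 1)) := by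
      exact (hsum.sub (memLp_const (n : ℝ))).integrable_sq
    rw [← ofReal_integral_eq_lintegral_ofReal h7 (Eventually.of_forall fun x => sq_nonneg _), hvar]
    simp
    rw [mul_comm]

end

end PPW
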