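import Pool.Agent.PPW.Stmts

/-!
# Squad PPW (MP_0bf616_gt), module GPB: basic properties of the Gaussian profile
-/

set_option autoImplicit false

namespace PPW

open MeasureTheory Set Filter Topology ProbabilityTheory
open PPI PPG PPX
open scoped Pointwise ENNReal

namespace GPB_

theorem sqrt_low : (2 : ℝ) ≤ √(2 * Real.pi) := by
  have h : (2 : ℝ) = √(2 ^ 2) := (Real.sqrt_sq (by norm_num)).symm
  rw [h]
  refine Real.sqrt_le_sqrt ?_
  have := Real.pi_gt_three
  nlinarith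

theorem coef_pos (a : ℝ) (ha : 0 < a) : 0 < 2 / (√(2 * Real.pi) * a) := by
  have := sqrt_low
  have h : 0 < √(2 * Real.pi) := by linarith
  positivity

theorem coef_le (a : ℝ) (ha : 0 < a) : 2 / (√(2 * Real.pi) * a) ≤ 1 / a := by
  have := sqrt_low
  have h : 0 < √(2 * Real.pi) := by linarith
  rw [div_le_div_iff₀ (by positivity) ha]
  nlinarith

theorem gp_pos (a s : ℝ) (ha : 0 < a) : 0 < gp a s :=
  mul_pos (coef_pos a ha) (Real.exp_pos _)

theorem gp_le (a s : ℝ) (ha : 0 < a) : gp a s ≤ 1 / a := by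
  unfold gp
  have h1 : Real.exp (-(s ^ 2 / (2 * a ^ 2))) ≤ 1 := by
    rw [Real.exp_le_one_iff]
    have : 0 ≤ s ^ 2 / (2 * a ^ 2) := by positivity
    linarith
  calc 2 / (√(2 * Real.pi) * a) * Real.exp (-(s ^ 2 / (2 * a ^ 2)))
      ≤ 2 / (√(2 * Real.pi) * a) * 1 := mul_le_mul_of_nonneg_left h1 (coef_pos a ha).le
    _ ≤ 1 / a := by rw [mul_one]; exact coef_le a ha

theorem gp_even (a s : ℝ) : gp a (-s) = gp a s := by
  unfold gp
  rw [neg_sq]

theorem gp_diff (a : ℝ) : ContDiff ℝ 1 (gp a) := by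
  unfold gp
  fun_prop

theorem gp_deriv (a s : ℝ) (ha : 0 < a) : HasDerivAt (gp a) (gp a s * (-(s / a ^ 2))) s := by
  unfold gp
  have h1 : HasDerivAt (fun s : ℝ => -(s ^ 2 / (2 * a ^ 2))) (-(s / a ^ 2)) s := by
    have h2 := ((hasDerivAt_pow 2 s).div_const (2 * a ^ 2)).neg
    have e : -(((2 : ℕ) : ℝ) * s ^ (2 - 1) / (2 * a ^ 2)) = -(s / a ^ 2) := by
      simp only [Nat.add_one_sub_one, pow_one, Nat.cast_ofNat]
      field_simp
    rw [e] at h2
    exact h2
  have h3 := (h1.exp).const_mul (2 / (√(2 * Real.pi) * a))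
  have e : 2 / (√(2 * Real.pi) * a) * (Real.exp (-(s ^ 2 / (2 * a ^ 2))) * -(s / a ^ 2)) =
      2 / (√(2 * Real.pi) * a) * Real.exp (-(s ^ 2 / (2 * a ^ 2))) * -(s / a ^ 2) := by ring
  rw [e] at h3
  exact h3

theorem gp_der (a s : ℝ) (ha : 0 < a) : |deriv (gp a) s| ≤ 1 / a ^ 2 := by
  rw [(gp_deriv a s ha).deriv, abs_mul, abs_neg, abs_div, abs_of_pos (gp_pos a s ha),
    abs_of_pos (by positivity : (0 : ℝ) < a ^ 2)]
  have h1 : |s| / a * Real.exp (-(s ^ 2 / (2 * a ^ 2))) ≤ 1 := by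
    have h2 : s ^ 2 / (2 * a ^ 2) + 1 ≤ Real.exp (s ^ 2 / (2 * a ^ 2)) := Real.add_one_le_exp _
    have h3 : s ^ 2 / (2 * a ^ 2) = (|s| / a) ^ 2 / 2 := by
      rw [div_pow, sq_abs]
      field_simp
    have h4 : |s| / a ≤ Real.exp (s ^ 2 / (2 * a ^ 2)) := by
      rw [h3] at h2 ⊢
      nlinarith [sq_nonneg (|s| / a - 1)]
    rw [Real.exp_neg, ← div_eq_mul_inv, div_le_one (Real.exp_pos _)]
    exact h4
  have h5 : gp a s * (|s| / a ^ 2) = 2 / (√(2 * Real.pi) * a) * (1 / a) *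
      (|s| / a * Real.exp (-(s ^ 2 / (2 * a ^ 2)))) := by
    unfold gp
    have h : 0 < √(2 * Real.pi) := by linarith [sqrt_low]
    field_simp
  rw [h5]
  have h6 : 0 ≤ |s| / a * Real.exp (-(s ^ 2 / (2 * a ^ 2))) := by positivity
  have h7 := coef_le a ha
  have h8 := (coef_pos a ha).le
  calc 2 / (√(2 * Real.pi) * a) * (1 / a) * (|s| / a * Real.exp (-(s ^ 2 / (2 * a ^ 2))))
      ≤ (1 / a) * (1 / a) * 1 := by
        refine mul_le_mul ?_ h1 h6 (by positivity)
        exact mul_le_mul_of_nonneg_right h7 (by positivity)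
    _ = 1 / a ^ 2 := by field_simp

theorem gp_eq (a s : ℝ) : gp a s =
    2 / (√(2 * Real.pi) * a) * Real.exp (-(1 / (2 * a ^ 2)) * s ^ 2) := by
  unfold gp
  congr 2
  ring

theorem gp_int (a : ℝ) (ha : 0 < a) : Integrable (gp a) := by
  have h := (integrable_exp_neg_mul_sq (b := 1 / (2 * a ^ 2)) (by positivity)).const_mul
    (2 / (√(2 * Real.pi) * a))
  refine h.congr (Eventually.of_forall fun s => ?_)
  exact (gp_eq a s).symm

theorem gp_mass (a : ℝ) (ha : 0 < a) : ∫ s, gp a s = 2 := by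
  rw [integral_congr_ae (Eventually.of_forall (gp_eq a)), integral_const_mul, integral_gaussian]
  have h : 0 < √(2 * Real.pi) := by linarith [sqrt_low]
  have e : √(Real.pi / (1 / (2 * a ^ 2))) = √(2 * Real.pi) * a := by
    have e1 : Real.pi / (1 / (2 * a ^ 2)) = (2 * Real.pi) * a ^ 2 := by field_simp
    rw [e1, Real.sqrt_mul (by positivity), Real.sqrt_sq ha.le]
  rw [e]
  field_simp

/-- second moment -/
theorem gp_mom (a : ℝ) (ha : 0 < a) :
    Integrable (fun s => gp a s * s ^ 2) ∧ ∫ s, gp a s * s ^ 2 = 2 * a ^ 2 := by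
  set V : NNReal := Real.toNNReal (a ^ 2) with hVd
  have hV : (V : ℝ) = a ^ 2 := Real.coe_toNNReal _ (by positivity)
  have hv : V ≠ 0 := by
    intro h
    rw [h] at hV
    have : 0 < a ^ 2 := by positivity
    rw [← hV] at this
    simp at this
  have e : ∀ s, gp a s * s ^ 2 = 2 * (gaussianPDFReal 0 V s • s ^ 2) := by
    intro s
    unfold gp gaussianPDFReal
    rw [hV]
    simp only [smul_eq_mul, sub_zero]
    have e1 : √(2 * Real.pi * a ^ 2) = √(2 * Real.pi) * a := by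
      rw [Real.sqrt_mul (by positivity), Real.sqrt_sq ha.le]
    have e2 : -(s ^ 2 / (2 * a ^ 2)) = -s ^ 2 / (2 * a ^ 2) := by ring
    rw [e1, e2]
    have h : 0 < √(2 * Real.pi) := by linarith [sqrt_low]
    field_simp
  have hi : Integrable (fun s : ℝ => gp a s * s ^ 2) := by
    have h := (integrable_rpow_mul_exp_neg_mul_sq (b := 1 / (2 * a ^ 2)) (by positivity)
      (s := 2) (by norm_num)).const_mul (2 / (√(2 * Real.pi) * a))
    refine h.congr (Eventually.of_forall fun s => ?_)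
    simp only [gp_eq, Real.rpow_ofNat]
    ring
  refine ⟨hi, ?_⟩
  rw [integral_congr_ae (Eventually.of_forall e), integral_const_mul,
    ← integral_gaussianReal_eq_integral_smul hv]
  congr 1
  have h1 := variance_id_gaussianReal (μ := 0) (v := V)
  rw [variance_eq_integral aemeasurable_id] at h1
  simp only [id_eq, integral_id_gaussianReal, sub_zero] at h1
  rw [h1, hV]

theorem gp_ez_int (a : ℝ) (ha : 0 < a) : Integrable (fun s => gp a s / (1 + s ^ 2)) := by
  refine (gp_int a ha).mono' ?_ (Eventually.of_forall fun s => ?_)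
  · have h1 : Continuous (gp a) := (gp_diff a).continuous
    have h2 : Continuous fun s : ℝ => gp a s / (1 + s ^ 2) :=
      h1.div (by fun_prop) (fun s => by positivity)
    exact h2.aestronglyMeasurable
  · rw [Real.norm_eq_abs, abs_of_nonneg (div_nonneg (gp_pos a s ha).le (by positivity))]
    exact div_le_self (gp_pos a s ha).le (by nlinarith [sq_nonneg s])

theorem gp_ml_int (a : ℝ) (ha : 0 < a) :
    Integrable (fun s => gp a s * (s ^ 2 / (1 + s ^ 2))) := by
  have e : ∀ s, gp a s - gp a s / (1 + s ^ 2) = gp a s * (s ^ 2 / (1 + s ^ 2)) := by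
    intro s
    have : (0 : ℝ) < 1 + s ^ 2 := by positivity
    field_simp
    ring
  exact ((gp_int a ha).sub (gp_ez_int a ha)).congr (Eventually.of_forall e)

theorem gp_ml (a : ℝ) (ha : 0 < a) : ML (gp a) ≤ a ^ 2 := by
  unfold ML
  have h : ∫ s, gp a s * (s ^ 2 / (1 + s ^ 2)) ≤ ∫ s, gp a s * s ^ 2 := by
    refine integral_mono (gp_ml_int a ha) (gp_mom a ha).1 fun s => ?_
    refine mul_le_mul_of_nonneg_left ?_ (gp_pos a s ha).le
    exact div_le_self (sq_nonneg s) (by nlinarith [sq_nonneg s])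
  rw [(gp_mom a ha).2] at h
  linarith

theorem gp_ez (a : ℝ) (ha : 0 < a) : EZ (gp a) = 1 - ML (gp a) := by
  unfold EZ ML
  have e : ∀ s, gp a s - gp a s / (1 + s ^ 2) = gp a s * (s ^ 2 / (1 + s ^ 2)) := by
    intro s
    have : (0 : ℝ) < 1 + s ^ 2 := by positivity
    field_simp
    ring
  have h := integral_sub (gp_int a ha) (gp_ez_int a ha)
  rw [integral_congr_ae (Eventually.of_forall e), gp_mass a ha] at h
  rw [h]
  ring

theorem gp_low (a : ℝ) (ha : 0 < a) : (1 + 2 * a ^ 2) ^ (-(1 / 2 : ℝ)) ≤ EZ (gp a) := by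
  unfold EZ
  have hq : (0 : ℝ) < 1 + 2 * a ^ 2 := by positivity
  have e : ∀ s, gp a s * Real.exp (-s ^ 2) = 2 / (√(2 * Real.pi) * a) *
      Real.exp (-(1 / (2 * a ^ 2) + 1) * s ^ 2) := by
    intro s
    rw [gp_eq, mul_assoc, ← Real.exp_add]
    congr 2
    ring
  have hi : Integrable (fun s : ℝ => gp a s * Real.exp (-s ^ 2)) := by
    have h := (integrable_exp_neg_mul_sq (b := 1 / (2 * a ^ 2) + 1) (by positivity)).const_mul
      (2 / (√(2 * Real.pi) * a))
    exact h.congr (Eventually.of_forall fun s => (e s).symm)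
  have h1 : ∫ s, gp a s * Real.exp (-s ^ 2) = 2 * (1 + 2 * a ^ 2) ^ (-(1 / 2 : ℝ)) := by
    rw [integral_congr_ae (Eventually.of_forall e), integral_const_mul, integral_gaussian,
      Real.rpow_neg hq.le, ← Real.sqrt_eq_rpow]
    have h : 0 < √(2 * Real.pi) := by linarith [sqrt_low]
    have e2 : √(Real.pi / (1 / (2 * a ^ 2) + 1)) = √(2 * Real.pi) * a / √(1 + 2 * a ^ 2) := by
      have e1 : Real.pi / (1 / (2 * a ^ 2) + 1) = (2 * Real.pi) * a ^ 2 / (1 + 2 * a ^ 2) := by
        field_simp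
      rw [e1, Real.sqrt_div (by positivity), Real.sqrt_mul (by positivity), Real.sqrt_sq ha.le]
    rw [e2]
    have h2 : 0 < √(1 + 2 * a ^ 2) := Real.sqrt_pos.2 hq
    field_simp
  have h2 : ∫ s, gp a s * Real.exp (-s ^ 2) ≤ ∫ s, gp a s / (1 + s ^ 2) := by
    refine integral_mono hi (gp_ez_int a ha) fun s => ?_
    show gp a s * Real.exp (-s ^ 2) ≤ gp a s / (1 + s ^ 2)
    rw [div_eq_mul_inv]
    refine mul_le_mul_of_nonneg_left ?_ (gp_pos a s ha).le
    rw [Real.exp_neg]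
    refine inv_anti₀ (by positivity) ?_
    have := Real.add_one_le_exp (s ^ 2)
    linarith
  linarith

end GPB_

open GPB_ in
theorem gpb_proof : Stmt_GPB := by
  intro a ha
  refine ⟨fun s => ⟨gp_pos a s ha, gp_le a s ha, gp_even a s⟩, gp_diff a,
    fun s => gp_der a s ha, ?_, gp_ml a ha, gp_ez a ha, gp_low a ha⟩
  rw [← ofReal_integral_eq_lintegral_ofReal (gp_int a ha)
    (Eventually.of_forall fun s => (gp_pos a s ha).le), gp_mass a ha]
  simp

end PPW
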