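import Pool.Agent.PPW.Stmts

/-!
# Squad PPW: GPF
-/

set_option autoImplicit false

namespace PPW

open MeasureTheory Set Filter Topology ProbabilityTheory
open PPI PPG PPX
open scoped Pointwise ENNReal

noncomputable section

namespace GPF_

instance : IsProbabilityMeasure ga1 := by unfold ga1; infer_instance

lemma int_sq : Integrable (fun v : ℝ => v ^ 2) ga1 := by
  unfold ga1
  have h : MemLp (id : ℝ → ℝ) 2 (gaussianReal 0 1) := memLp_id_gaussianReal 2
  have := (memLp_two_iff_integrable_sq (f := (id : ℝ → ℝ)) (μ := gaussianReal 0 1)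
    aestronglyMeasurable_id).1 h
  simpa using this

lemma int_exp : Integrable (fun v : ℝ => Real.exp (11 / 30 * v ^ 2)) ga1 := by
  unfold ga1
  rw [gaussianReal_of_var_ne_zero _ (by norm_num)]
  rw [integrable_withDensity_iff_integrable_smul' (measurable_gaussianPDF 0 1)
    (ae_of_all _ fun _ => ENNReal.ofReal_lt_top)]
  have h := (integrable_exp_neg_mul_sq (b := 2 / 15) (by norm_num)).const_mul
    ((√(2 * Real.pi * 1))⁻¹)
  refine h.congr (ae_of_all _ fun v => ?_)
  simp only [gaussianPDF, gaussianPDFReal, smul_eq_mul]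
  rw [ENNReal.toReal_ofReal (by positivity)]
  simp only [NNReal.coe_one, mul_one, sub_zero]
  rw [mul_assoc, ← Real.exp_add]
  congr 2
  ring

end GPF_

open GPF_ in
theorem gpf_proof (hGZB : Stmt_GZB) (hGPB : Stmt_GPB) (hEXB : Stmt_EXB) : Stmt_GPF := by
  obtain ⟨hprob, -, -, hpos, hid, -⟩ := hEXB
  have hG : Integrable (fun z : ℝ × ℝ => (1 + 2 * z.1) * Real.exp (11 / 30 * z.2 ^ 2))
      (ex.prod ga1) :=
    Integrable.mul_prod (f := fun t : ℝ => 1 + 2 * t) (g := fun v => Real.exp (11 / 30 * v ^ 2))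
      ((integrable_const _).add (hid.const_mul 2)) int_exp
  obtain ⟨I, hI⟩ : ∃ I : ℝ, I = ∫ z : ℝ × ℝ, |(1 + 2 * z.1) * Real.exp (11 / 30 * z.2 ^ 2)|
      ∂(ex.prod ga1) := ⟨_, rfl⟩
  have hI0 : 0 ≤ I := by rw [hI]; positivity
  have hfst : ∀ᵐ z : ℝ × ℝ ∂(ex.prod ga1), 0 < z.1 :=
    Measure.quasiMeasurePreserving_fst.ae hpos
  refine ⟨100 + I, by positivity, ?_⟩
  intro a ω x ha ha1 hx0 hx1 hω hω1 haω hωa hco
  obtain ⟨h1, h2, h3, h4, h5, h6, h7⟩ := hGPB a ha
  have hb : 3 / 25 ≤ 1 - x := by linarith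
  have hC : (1 : ℝ) ≤ 100 + I := by linarith
  -- the formula
  have hz : ∀ t u : ℝ, 0 < t → 0 < 2 * a ^ 2 * t + (1 - x) := by
    intro t u ht; positivity
  refine ⟨fun s => (h1 s).1, fun s => (h1 s).2.2, h2, fun s => ?_, fun s => ?_, h4.le, ?_, ?_,
    ?_, ?_, hco⟩
  · refine (h3 s).trans ?_
    rw [div_le_div_iff₀ (by positivity) hω]
    nlinarith [mul_nonneg hI0 (sq_nonneg a)]
  · refine (h1 s).2.1.trans ?_
    have h8 : √ω ≤ 10 * a := by
      rw [show 10 * a = √((10 * a) ^ 2) from (Real.sqrt_sq (by positivity)).symm]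
      exact Real.sqrt_le_sqrt (by nlinarith)
    rw [div_le_div_iff₀ ha (Real.sqrt_pos.mpr hω)]
    nlinarith [mul_nonneg hI0 ha.le]
  · calc ML (gp a) ≤ a ^ 2 := h5
      _ ≤ 1 * ω := by linarith
      _ ≤ (100 + I) * ω := mul_le_mul_of_nonneg_right hC hω.le
  · calc 1 - EZ (gp a) = ML (gp a) := by rw [h6]; ring
      _ ≤ a ^ 2 := h5
      _ ≤ 1 * ω := by linarith
      _ ≤ (100 + I) * ω := mul_le_mul_of_nonneg_right hC hω.le
  · intro r hr
    have hsub : ∀ z : ℝ × ℝ, 0 < z.1 → zb (gp a) x z.1 z.2 < r →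
        ENNReal.ofReal (r ^ (-(1 / 10 : ℝ))) ≤
          ENNReal.ofReal |(1 + 2 * z.1) * Real.exp (11 / 30 * z.2 ^ 2)| := by
      rintro ⟨t, u⟩ ht hlt
      simp only at ht hlt ⊢
      refine ENNReal.ofReal_le_ofReal ?_
      have hy := hz t u ht
      obtain ⟨y, hy'⟩ : ∃ y, y = 2 * a ^ 2 * t + (1 - x) := ⟨_, rfl⟩
      rw [hGZB a x t u ha hx0 (by linarith) ht, ← hy'] at hlt
      rw [← hy'] at hy
      have hyb : 3 / 25 ≤ y := by
        rw [hy']
        have : 0 ≤ 2 * a ^ 2 * t := by positivity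
        linarith
      have hy1 : y ≤ 1 + 2 * t := by
        rw [hy']
        have : 2 * a ^ 2 * t ≤ 2 * 1 * t := by
          have : a ^ 2 ≤ 1 := by nlinarith
          nlinarith
        linarith
      have hzp : 0 < y ^ (-(1 / 2 : ℝ)) * Real.exp (-(x * u ^ 2 / (2 * y))) := by positivity
      have e1 : r ^ (-(1 / 10 : ℝ)) ≤
          (y ^ (-(1 / 2 : ℝ)) * Real.exp (-(x * u ^ 2 / (2 * y)))) ^ (-(1 / 10 : ℝ)) :=
        Real.rpow_le_rpow_of_nonpos hzp hlt.le (by norm_num)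
      have e2 : (y ^ (-(1 / 2 : ℝ)) * Real.exp (-(x * u ^ 2 / (2 * y)))) ^ (-(1 / 10 : ℝ)) =
          y ^ (1 / 20 : ℝ) * Real.exp (x * u ^ 2 / (20 * y)) := by
        rw [Real.mul_rpow (by positivity) (by positivity), ← Real.rpow_mul hy.le,
          ← Real.exp_mul]
        have e3 : -(1 / 2 : ℝ) * -(1 / 10 : ℝ) = 1 / 20 := by norm_num
        have e4 : -(x * u ^ 2 / (2 * y)) * -(1 / 10 : ℝ) = x * u ^ 2 / (20 * y) := by
          field_simp; ring
        rw [e3, e4]
      have e5 : y ^ (1 / 20 : ℝ) ≤ 1 + 2 * t := by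
        calc y ^ (1 / 20 : ℝ) ≤ (1 + 2 * t) ^ (1 / 20 : ℝ) :=
              Real.rpow_le_rpow hy.le hy1 (by norm_num)
          _ ≤ (1 + 2 * t) ^ (1 : ℝ) :=
              Real.rpow_le_rpow_of_exponent_le (by linarith) (by norm_num)
          _ = 1 + 2 * t := Real.rpow_one _
      have e6 : x * u ^ 2 / (20 * y) ≤ 11 / 30 * u ^ 2 := by
        rw [div_le_iff₀ (by positivity)]
        have : x ≤ 11 / 30 * (20 * y) := by linarith
        calc x * u ^ 2 ≤ 11 / 30 * (20 * y) * u ^ 2 :=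
              mul_le_mul_of_nonneg_right this (sq_nonneg u)
          _ = _ := by ring
      calc r ^ (-(1 / 10 : ℝ)) ≤ y ^ (1 / 20 : ℝ) * Real.exp (x * u ^ 2 / (20 * y)) :=
            e1.trans_eq e2
        _ ≤ (1 + 2 * t) * Real.exp (11 / 30 * u ^ 2) :=
            mul_le_mul e5 (Real.exp_le_exp.mpr e6) (Real.exp_pos _).le (by linarith)
        _ ≤ _ := le_abs_self _
    have hm : Measurable fun z : ℝ × ℝ =>
        ENNReal.ofReal |(1 + 2 * z.1) * Real.exp (11 / 30 * z.2 ^ 2)| := by fun_prop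
    have hrp : 0 < r ^ (-(1 / 10 : ℝ)) := Real.rpow_pos_of_pos hr _
    calc (ex.prod ga1) {z : ℝ × ℝ | zb (gp a) x z.1 z.2 < r}
        ≤ (ex.prod ga1) {z : ℝ × ℝ | ENNReal.ofReal (r ^ (-(1 / 10 : ℝ))) ≤
          ENNReal.ofReal |(1 + 2 * z.1) * Real.exp (11 / 30 * z.2 ^ 2)|} := by
          refine measure_mono_ae ?_
          filter_upwards [hfst] with z hz1 hz2
          exact hsub z hz1 hz2
      _ ≤ (∫⁻ z : ℝ × ℝ, ENNReal.ofReal |(1 + 2 * z.1) * Real.exp (11 / 30 * z.2 ^ 2)|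
          ∂(ex.prod ga1)) / ENNReal.ofReal (r ^ (-(1 / 10 : ℝ))) :=
          meas_ge_le_lintegral_div hm.aemeasurable (by simpa using hrp) ENNReal.ofReal_ne_top
      _ = ENNReal.ofReal I / ENNReal.ofReal (r ^ (-(1 / 10 : ℝ))) := by
          rw [hI, ofReal_integral_eq_lintegral_ofReal hG.abs (ae_of_all _ fun z => abs_nonneg _)]
      _ = ENNReal.ofReal (I * r ^ (1 / 10 : ℝ)) := by
          rw [← ENNReal.ofReal_div_of_pos hrp]
          congr 1
          rw [Real.rpow_neg hr.le, div_inv_eq_mul]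
      _ ≤ ENNReal.ofReal ((100 + I) * r ^ (1 / 10 : ℝ)) := by
          refine ENNReal.ofReal_le_ofReal ?_
          have : 0 < r ^ (1 / 10 : ℝ) := Real.rpow_pos_of_pos hr _
          nlinarith
  · have hF : Integrable (fun z : ℝ × ℝ => -(1 / 2) * Real.log (2 * a ^ 2 * z.1 + (1 - x)) -
        x * z.2 ^ 2 / (2 * (2 * a ^ 2 * z.1 + (1 - x)))) (ex.prod ga1) := by
      have hB : Integrable (fun z : ℝ × ℝ => (z.1 * 1 + 1 * (4 * z.2 ^ 2)) + 4) (ex.prod ga1) := by
        refine ((Integrable.mul_prod (f := fun t : ℝ => t) (g := fun _ => (1 : ℝ)) hid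
          (integrable_const _)).add (Integrable.mul_prod (f := fun _ : ℝ => (1 : ℝ))
          (g := fun v : ℝ => 4 * v ^ 2) (integrable_const _) (int_sq.const_mul 4))).add
          (integrable_const _)
      refine hB.mono' (Measurable.aestronglyMeasurable (by fun_prop)) ?_
      filter_upwards [hfst] with z hz1
      have hy := hz z.1 z.2 hz1
      obtain ⟨y, hy'⟩ : ∃ y, y = 2 * a ^ 2 * z.1 + (1 - x) := ⟨_, rfl⟩
      rw [← hy'] at hy ⊢
      have hyb : 3 / 25 ≤ y := by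
        rw [hy']
        have : 0 ≤ 2 * a ^ 2 * z.1 := by positivity
        linarith
      have hy1 : y ≤ 1 + 2 * z.1 := by
        rw [hy']
        have : 2 * a ^ 2 * z.1 ≤ 2 * 1 * z.1 := by
          have : a ^ 2 ≤ 1 := by nlinarith
          nlinarith
        linarith
      have l1 : Real.log y ≤ 2 * z.1 := by
        have := Real.log_le_sub_one_of_pos hy; linarith
      have l2 : -8 ≤ Real.log y := by
        have h := Real.log_le_sub_one_of_pos (inv_pos.mpr hy)
        rw [Real.log_inv] at h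
        have : y⁻¹ ≤ 25 / 3 := by
          rw [inv_le_comm₀ hy (by norm_num)]; linarith
        linarith
      have l3 : 0 ≤ x * z.2 ^ 2 / (2 * y) := by positivity
      have l4 : x * z.2 ^ 2 / (2 * y) ≤ 4 * z.2 ^ 2 := by
        rw [div_le_iff₀ (by positivity)]
        have : x ≤ 4 * (2 * y) := by linarith
        calc x * z.2 ^ 2 ≤ 4 * (2 * y) * z.2 ^ 2 :=
              mul_le_mul_of_nonneg_right this (sq_nonneg _)
          _ = _ := by ring
      rw [Real.norm_eq_abs, abs_le]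
      constructor <;> nlinarith
    refine hF.congr ?_
    filter_upwards [hfst] with z hz1
    have hy := hz z.1 z.2 hz1
    rw [hGZB a x z.1 z.2 ha hx0 (by linarith) hz1,
      Real.log_mul (Real.rpow_pos_of_pos hy _).ne' (Real.exp_pos _).ne', Real.log_rpow hy,
      Real.log_exp]
    ring

end

end PPW
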