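import Pool.Agent.PPW.Stmts

/-!
# Module GPI: the Gaussian Poincare inequality.
-/

set_option autoImplicit false

namespace PPW

open MeasureTheory Set Filter Topology ProbabilityTheory
open PPI PPG PPX
open scoped Pointwise ENNReal

namespace GPI_

/-- Cauchy-Schwarz on the quarter circle -/
theorem cs (g : ℝ → ℝ) (hg : Continuous g) :
    (∫ θ in (0 : ℝ)..(Real.pi / 2), g θ) ^ 2 ≤
      Real.pi / 2 * ∫ θ in (0 : ℝ)..(Real.pi / 2), g θ ^ 2 := by
  have hp := Real.pi_pos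
  set I := ∫ θ in (0 : ℝ)..(Real.pi / 2), g θ with hI
  have h0 : 0 ≤ ∫ θ in (0 : ℝ)..(Real.pi / 2), (g θ - 2 / Real.pi * I) ^ 2 :=
    intervalIntegral.integral_nonneg (by positivity) (fun θ _ => sq_nonneg _)
  have e : ∫ θ in (0 : ℝ)..(Real.pi / 2), (g θ - 2 / Real.pi * I) ^ 2 =
      (∫ θ in (0 : ℝ)..(Real.pi / 2), g θ ^ 2) - 2 / Real.pi * I ^ 2 := by
    have h1 : (fun θ => (g θ - 2 / Real.pi * I) ^ 2) = fun θ =>
        (g θ ^ 2 - (4 / Real.pi * I) * g θ) + (2 / Real.pi * I) ^ 2 := by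
      funext θ; ring
    rw [h1]
    rw [intervalIntegral.integral_add, intervalIntegral.integral_sub,
      intervalIntegral.integral_const_mul, intervalIntegral.integral_const, ← hI]
    · simp only [sub_zero, smul_eq_mul]
      field_simp
      ring
    · exact (hg.pow 2).intervalIntegrable _ _
    · exact (continuous_const.mul hg).intervalIntegrable _ _
    · exact ((hg.pow 2).sub (continuous_const.mul hg)).intervalIntegrable _ _
    · exact continuous_const.intervalIntegrable _ _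
  rw [e] at h0
  have h2 : 2 / Real.pi * I ^ 2 ≤ ∫ θ in (0 : ℝ)..(Real.pi / 2), g θ ^ 2 := by linarith
  calc I ^ 2 = Real.pi / 2 * (2 / Real.pi * I ^ 2) := by field_simp
    _ ≤ _ := mul_le_mul_of_nonneg_left h2 (by positivity)

variable {n : ℕ}

/-- the rotated point -/
noncomputable def ro (y y' : EE n) (θ : ℝ) : EE n := Real.cos θ • y + Real.sin θ • y'

/-- its derivative -/
noncomputable def rp (y y' : EE n) (θ : ℝ) : EE n := Real.cos θ • y' - Real.sin θ • y

theorem path (F : EE n → ℝ) (hF : ContDiff ℝ 1 F) (y y' : EE n) :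
    (F y - F y') ^ 2 ≤ Real.pi / 2 *
      ∫ θ in (0 : ℝ)..(Real.pi / 2), (fderiv ℝ F (ro y y' θ) (rp y y' θ)) ^ 2 := by
  have hd : Differentiable ℝ F := hF.differentiable (by norm_num)
  have hder : ∀ θ ∈ uIcc (0 : ℝ) (Real.pi / 2),
      HasDerivAt (fun θ => F (ro y y' θ)) (fderiv ℝ F (ro y y' θ) (rp y y' θ)) θ := by
    intro θ _
    have h1 : HasDerivAt (ro y y') (rp y y' θ) θ := by
      have h2 := (Real.hasDerivAt_cos θ).smul_const y
      have h3 := (Real.hasDerivAt_sin θ).smul_const y'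
      have h4 := h2.add h3
      have e : rp y y' θ = -Real.sin θ • y + Real.cos θ • y' := by
        unfold rp; rw [neg_smul]; abel
      rw [e]
      exact h4
    exact (hd (ro y y' θ)).hasFDerivAt.comp_hasDerivAt θ h1
  have hc : Continuous (fun θ => fderiv ℝ F (ro y y' θ) (rp y y' θ)) := by
    have h1 : Continuous (fderiv ℝ F) := hF.continuous_fderiv (by norm_num)
    have h2 : Continuous (ro y y') := by unfold ro; fun_prop
    have h3 : Continuous (rp y y') := by unfold rp; fun_prop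
    exact (h1.comp h2).clm_apply h3
  have h5 := intervalIntegral.integral_eq_sub_of_hasDerivAt hder (hc.intervalIntegrable _ _)
  have e1 : ro y y' (Real.pi / 2) = y' := by simp [ro]
  have e2 : ro y y' 0 = y := by simp [ro]
  rw [e1, e2] at h5
  have h6 := cs _ hc
  rw [h5] at h6
  calc (F y - F y') ^ 2 = (F y' - F y) ^ 2 := by ring
    _ ≤ _ := h6

theorem ga1_sq : ∫⁻ v, ENNReal.ofReal (v ^ 2) ∂ga1 = 1 := by
  have h1 : MemLp (fun x : ℝ => x) 2 (gaussianReal 0 1) :=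
    memLp_id_gaussianReal' 2 (by simp)
  have h2 := h1.ofReal_variance_eq
  rw [variance_fun_id_gaussianReal, evariance_eq_lintegral_ofReal] at h2
  simp only [integral_id_gaussianReal, sub_zero] at h2
  unfold ga1
  rw [← h2]
  simp

theorem dir (hGLA : Stmt_GLA) (L : EE n →L[ℝ] ℝ) :
    ∫⁻ y', ENNReal.ofReal ((L y') ^ 2) ∂(gam n) = ENNReal.ofReal (‖L‖ ^ 2) := by
  set w := (InnerProductSpace.toDual ℝ (EE n)).symm L with hw
  have h1 : ∀ y', L y' = inner ℝ y' w := by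
    intro y'
    rw [real_inner_comm, hw, InnerProductSpace.toDual_symm_apply]
  have h2 : ‖w‖ = ‖L‖ := by rw [hw]; simp
  have h3 := hGLA.1 n w (fun s => ENNReal.ofReal (s ^ 2)) (by fun_prop)
  simp_rw [h1]
  rw [h3]
  have h4 : ∀ v : ℝ, ENNReal.ofReal ((‖w‖ * v) ^ 2) =
      ENNReal.ofReal (‖w‖ ^ 2) * ENNReal.ofReal (v ^ 2) := by
    intro v
    rw [← ENNReal.ofReal_mul (by positivity), mul_pow]
  simp_rw [h4]
  rw [lintegral_const_mul _ (by fun_prop), ga1_sq, mul_one, h2]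

instance : IsProbabilityMeasure (gam n) := by
  unfold gam; infer_instance

theorem int3 {α : Type*} [MeasurableSpace α] (μ : Measure α) [IsProbabilityMeasure μ]
    (F : α → ℝ) (h1 : Integrable F μ) (h2 : Integrable (fun y => F y ^ 2) μ) (a b c : ℝ) :
    Integrable (fun y => a * F y ^ 2 + b * F y + c) μ ∧
    ∫ y, (a * F y ^ 2 + b * F y + c) ∂μ = a * (∫ y, F y ^ 2 ∂μ) + b * (∫ y, F y ∂μ) + c := by
  have i1 : Integrable (fun y => a * F y ^ 2) μ := h2.const_mul a
  have i2 : Integrable (fun y => b * F y) μ := h1.const_mul b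
  have i3 : Integrable (fun y => a * F y ^ 2 + b * F y) μ := i1.add i2
  have i4 : Integrable (fun _ : α => c) μ := integrable_const c
  refine ⟨i3.add i4, ?_⟩
  rw [integral_add i3 i4, integral_add i1 i2, integral_const_mul, integral_const_mul]
  simp

theorem swap3 {α : Type*} [MeasurableSpace α] (μ : Measure α) [IsProbabilityMeasure μ]
    (ν : Measure ℝ) [SFinite ν] (G : (α × α) × ℝ → ℝ≥0∞) (hG : Measurable G) (c : ℝ≥0∞) :
    ∫⁻ y, ∫⁻ y', c * ∫⁻ θ, G ((y, y'), θ) ∂ν ∂μ ∂μ =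
      c * ∫⁻ θ, ∫⁻ y, ∫⁻ y', G ((y, y'), θ) ∂μ ∂μ ∂ν := by
  have hm1 : Measurable (fun z : α × α => ∫⁻ θ, G (z, θ) ∂ν) := hG.lintegral_prod_right'
  have h1 : ∫⁻ z, ∫⁻ θ, G (z, θ) ∂ν ∂(μ.prod μ) = ∫⁻ θ, ∫⁻ z, G (z, θ) ∂(μ.prod μ) ∂ν :=
    lintegral_lintegral_swap hG.aemeasurable
  have h2 : ∀ θ, ∫⁻ z, G (z, θ) ∂(μ.prod μ) = ∫⁻ y, ∫⁻ y', G ((y, y'), θ) ∂μ ∂μ := by
    intro θ
    have hm2 : Measurable (fun z : α × α => G (z, θ)) :=
      hG.comp (measurable_id.prodMk measurable_const)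
    rw [lintegral_prod _ hm2.aemeasurable]
  simp_rw [h2] at h1
  rw [← h1, ← lintegral_const_mul _ hm1, lintegral_prod _ (hm1.const_mul _).aemeasurable]

theorem memLp_F (F : EE n → ℝ) (l : ℝ) (hF : ContDiff ℝ 1 F) (hl : ∀ y, ‖fderiv ℝ F y‖ ≤ l) :
    MemLp F 2 (gam n) := by
  have hd : Differentiable ℝ F := hF.differentiable (by norm_num)
  have hlip : ∀ y, ‖F y‖ ≤ ‖F 0‖ + l * ‖y‖ := by
    intro y
    have h1 : ‖F y - F 0‖ ≤ l * ‖y - 0‖ :=
      Convex.norm_image_sub_le_of_norm_fderiv_le (𝕜 := ℝ) (fun x _ => hd x) (fun x _ => hl x)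
        convex_univ (mem_univ _) (mem_univ _)
    rw [sub_zero] at h1
    have h2 : ‖F y‖ ≤ ‖F y - F 0‖ + ‖F 0‖ := by
      have := norm_add_le (F y - F 0) (F 0)
      rwa [sub_add_cancel] at this
    linarith
  have hid : MemLp (fun y : EE n => y) 2 (gam n) := by
    unfold gam
    exact IsGaussian.memLp_id (stdGaussian (EE n)) 2 (by simp)
  have hn : MemLp (fun y : EE n => ‖F 0‖ + l * ‖y‖) 2 (gam n) := by
    have h1 : MemLp (fun _ : EE n => ‖F 0‖) 2 (gam n) := memLp_const _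
    exact h1.add (hid.norm.const_mul l)
  refine hn.mono' hF.continuous.aestronglyMeasurable ?_
  exact Filter.Eventually.of_forall hlip

end GPI_

open GPI_ in
theorem gpi_proof (hGRT : Stmt_GRT) (hGLA : Stmt_GLA) : Stmt_GPI := by
  intro n F l hF hl
  have hp := Real.pi_pos
  have hL2 := memLp_F F l hF hl
  have hInt : Integrable F (gam n) := hL2.integrable (by norm_num)
  have hSq : Integrable (fun y => F y ^ 2) (gam n) := hL2.integrable_sq
  set m := ∫ y', F y' ∂(gam n) with hm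
  have hVi : Integrable (fun y => (F y - m) ^ 2) (gam n) := by
    have : MemLp (fun y => F y - m) 2 (gam n) := hL2.sub (memLp_const m)
    exact this.integrable_sq
  refine ⟨hInt, hVi, ?_⟩
  have hfd : Continuous (fderiv ℝ F) := hF.continuous_fderiv (by norm_num)
  have hDi : Integrable (fun y => ‖fderiv ℝ F y‖ ^ 2) (gam n) := by
    have hb : ∀ y, ‖(‖fderiv ℝ F y‖ ^ 2 : ℝ)‖ ≤ l ^ 2 := by
      intro y
      rw [Real.norm_of_nonneg (by positivity)]
      exact pow_le_pow_left₀ (norm_nonneg _) (hl y) 2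
    exact Integrable.of_bound (hfd.norm.pow 2).aestronglyMeasurable (l ^ 2)
      (Filter.Eventually.of_forall hb)
  -- the variance as a double integral
  set E2 := ∫ y, F y ^ 2 ∂(gam n) with hE2
  have hinner : ∀ y, ∫ y', (F y - F y') ^ 2 ∂(gam n) = F y ^ 2 - 2 * m * F y + E2 := by
    intro y
    have h1 : (fun y' => (F y - F y') ^ 2) = fun y' =>
        1 * F y' ^ 2 + (-(2 * F y)) * F y' + F y ^ 2 := by
      funext y'; ring
    rw [h1, (int3 (gam n) F hInt hSq 1 (-(2 * F y)) (F y ^ 2)).2, ← hm, ← hE2]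
    ring
  have hinnerInt : ∀ y, Integrable (fun y' => (F y - F y') ^ 2) (gam n) := by
    intro y
    have : MemLp (fun y' => F y - F y') 2 (gam n) := (memLp_const (F y)).sub hL2
    exact this.integrable_sq
  have hof : (fun y => F y ^ 2 - 2 * m * F y + E2) =
      fun y => 1 * F y ^ 2 + (-(2 * m)) * F y + E2 := by
    funext y; ring
  have hout : Integrable (fun y => F y ^ 2 - 2 * m * F y + E2) (gam n) := by
    rw [hof]; exact (int3 (gam n) F hInt hSq 1 (-(2 * m)) E2).1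
  have houtv : ∫ y, (F y ^ 2 - 2 * m * F y + E2) ∂(gam n) = 2 * E2 - 2 * m ^ 2 := by
    rw [hof, (int3 (gam n) F hInt hSq 1 (-(2 * m)) E2).2, ← hm, ← hE2]
    ring
  have hvar : ∫ y, (F y - m) ^ 2 ∂(gam n) = E2 - m ^ 2 := by
    have h1 : (fun y => (F y - m) ^ 2) = fun y => 1 * F y ^ 2 + (-(2 * m)) * F y + m ^ 2 := by
      funext y; ring
    rw [h1, (int3 (gam n) F hInt hSq 1 (-(2 * m)) (m ^ 2)).2, ← hm, ← hE2]
    ring
  have hnn : ∀ y, 0 ≤ F y ^ 2 - 2 * m * F y + E2 := by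
    intro y
    rw [← hinner y]
    exact integral_nonneg fun y' => sq_nonneg _
  have hdouble : ∫⁻ y, ∫⁻ y', ENNReal.ofReal ((F y - F y') ^ 2) ∂(gam n) ∂(gam n) =
      ENNReal.ofReal (2 * ∫ y, (F y - m) ^ 2 ∂(gam n)) := by
    have h1 : ∀ y, ∫⁻ y', ENNReal.ofReal ((F y - F y') ^ 2) ∂(gam n) =
        ENNReal.ofReal (F y ^ 2 - 2 * m * F y + E2) := by
      intro y
      rw [← hinner y]
      exact (ofReal_integral_eq_lintegral_ofReal (hinnerInt y)
        (Filter.Eventually.of_forall fun y' => sq_nonneg _)).symm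
    simp_rw [h1]
    rw [← ofReal_integral_eq_lintegral_ofReal hout (Filter.Eventually.of_forall hnn), houtv, hvar]
    congr 1
    ring
  -- the upper bound
  have hjc : Continuous (fun z : (EE n × EE n) × ℝ =>
      (fderiv ℝ F (ro z.1.1 z.1.2 z.2) (rp z.1.1 z.1.2 z.2)) ^ 2) := by
    have h2 : Continuous (fun z : (EE n × EE n) × ℝ => ro z.1.1 z.1.2 z.2) := by
      unfold ro; fun_prop
    have h3 : Continuous (fun z : (EE n × EE n) × ℝ => rp z.1.1 z.1.2 z.2) := by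
      unfold rp; fun_prop
    exact ((hfd.comp h2).clm_apply h3).pow 2
  set ν : Measure ℝ := volume.restrict (Ioc (0 : ℝ) (Real.pi / 2)) with hν
  have hpath : ∀ y y' : EE n, ENNReal.ofReal ((F y - F y') ^ 2) ≤ ENNReal.ofReal (Real.pi / 2) *
      ∫⁻ θ, ENNReal.ofReal ((fderiv ℝ F (ro y y' θ) (rp y y' θ)) ^ 2) ∂ν := by
    intro y y'
    have hc : Continuous (fun θ => (fderiv ℝ F (ro y y' θ) (rp y y' θ)) ^ 2) :=
      hjc.comp (f := fun θ : ℝ => ((y, y'), θ)) (by fun_prop)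
    have h1 := path F hF y y'
    have h2 : ∫⁻ θ, ENNReal.ofReal ((fderiv ℝ F (ro y y' θ) (rp y y' θ)) ^ 2) ∂ν =
        ENNReal.ofReal (∫ θ in (0 : ℝ)..(Real.pi / 2),
          (fderiv ℝ F (ro y y' θ) (rp y y' θ)) ^ 2) := by
      rw [intervalIntegral.integral_of_le (by positivity)]
      refine (ofReal_integral_eq_lintegral_ofReal ?_
        (Filter.Eventually.of_forall fun θ => sq_nonneg _)).symm
      have := hc.intervalIntegrable (μ := volume) 0 (Real.pi / 2)
      rwa [intervalIntegrable_iff_integrableOn_Ioc_of_le (by positivity)] at this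
    rw [h2, ← ENNReal.ofReal_mul (by positivity)]
    exact ENNReal.ofReal_le_ofReal h1
  have hmeas : Measurable (fun z : (EE n × EE n) × ℝ =>
      ENNReal.ofReal ((fderiv ℝ F (ro z.1.1 z.1.2 z.2) (rp z.1.1 z.1.2 z.2)) ^ 2)) :=
    hjc.measurable.ennreal_ofReal
  have hrot : ∀ θ : ℝ, ∫⁻ y, ∫⁻ y', ENNReal.ofReal ((fderiv ℝ F (ro y y' θ) (rp y y' θ)) ^ 2)
      ∂(gam n) ∂(gam n) = ∫⁻ y, ENNReal.ofReal (‖fderiv ℝ F y‖ ^ 2) ∂(gam n) := by
    intro θ
    have hG : Measurable (fun z : EE n × EE n => ENNReal.ofReal ((fderiv ℝ F z.1 z.2) ^ 2)) := by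
      have : Continuous (fun z : EE n × EE n => (fderiv ℝ F z.1 z.2) ^ 2) :=
        ((hfd.comp continuous_fst).clm_apply continuous_snd).pow 2
      exact this.measurable.ennreal_ofReal
    have h1 := hGRT n θ (fun z : EE n × EE n => ENNReal.ofReal ((fderiv ℝ F z.1 z.2) ^ 2)) hG
    simp only at h1
    unfold ro rp
    rw [h1]
    refine lintegral_congr fun y => ?_
    exact dir hGLA (fderiv ℝ F y)
  have hup : ∫⁻ y, ∫⁻ y', ENNReal.ofReal ((F y - F y') ^ 2) ∂(gam n) ∂(gam n) ≤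
      ENNReal.ofReal (Real.pi / 2) * (ENNReal.ofReal (Real.pi / 2) *
        ∫⁻ y, ENNReal.ofReal (‖fderiv ℝ F y‖ ^ 2) ∂(gam n)) := by
    refine (lintegral_mono fun y => lintegral_mono fun y' => hpath y y').trans ?_
    have h1 := swap3 (gam n) ν _ hmeas (ENNReal.ofReal (Real.pi / 2))
    refine h1.le.trans ?_
    refine mul_le_mul_right (le_of_eq ?_) _
    have h2 : ∀ θ, ∫⁻ y, ∫⁻ y', ENNReal.ofReal ((fderiv ℝ F (ro y y' θ) (rp y y' θ)) ^ 2)
        ∂(gam n) ∂(gam n) = ∫⁻ y, ENNReal.ofReal (‖fderiv ℝ F y‖ ^ 2) ∂(gam n) := hrot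
    refine (lintegral_congr h2).trans ?_
    rw [lintegral_const, hν, Measure.restrict_apply_univ, Real.volume_Ioc, sub_zero, mul_comm]
  rw [hdouble, ← ofReal_integral_eq_lintegral_ofReal hDi
    (Filter.Eventually.of_forall fun y => by positivity), ← ENNReal.ofReal_mul (by positivity),
    ← ENNReal.ofReal_mul (by positivity)] at hup
  have hint0 : 0 ≤ ∫ y, ‖fderiv ℝ F y‖ ^ 2 ∂(gam n) := integral_nonneg fun y => by positivity
  rw [ENNReal.ofReal_le_ofReal_iff (by positivity)] at hup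
  calc ∫ y, (F y - m) ^ 2 ∂(gam n) = 1 / 2 * (2 * ∫ y, (F y - m) ^ 2 ∂(gam n)) := by ring
    _ ≤ 1 / 2 * (Real.pi / 2 * (Real.pi / 2 * ∫ y, ‖fderiv ℝ F y‖ ^ 2 ∂(gam n))) :=
        mul_le_mul_of_nonneg_left hup (by norm_num)
    _ = Real.pi ^ 2 / 8 * ∫ y, ‖fderiv ℝ F y‖ ^ 2 ∂(gam n) := by ring

end PPW
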