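import Pool.Agent.PPW.Stmts

/-!
Module GRT: rotation invariance of a pair of Gaussian vectors.
-/

set_option autoImplicit false

namespace PPW

open MeasureTheory Set Filter Topology ProbabilityTheory
open PPI PPG PPX
open scoped Pointwise ENNReal

noncomputable section

theorem grt_proof : Stmt_GRT := by
  intro n θ F hF
  have : IsProbabilityMeasure (gam n) := by unfold gam; infer_instance
  have hrot : ((gam n).prod (gam n)).map (ContinuousLinearMap.rotation θ) =
      (gam n).prod (gam n) := by
    unfold gam
    exact IsGaussian.map_rotation_eq_self_of_forall_strongDual_eq_zero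
      (fun L => integral_strongDual_stdGaussian L) θ
  have hm : Measurable (ContinuousLinearMap.rotation (E := EE n) θ) :=
    (ContinuousLinearMap.rotation (E := EE n) θ).continuous.measurable
  have h1 := lintegral_prod (μ := gam n) (ν := gam n) F hF.aemeasurable
  have h2 := lintegral_prod (μ := gam n) (ν := gam n)
    (fun z => F (ContinuousLinearMap.rotation (E := EE n) θ z)) (hF.comp hm).aemeasurable
  have h3 : ∫⁻ z, F z ∂((gam n).prod (gam n)) =
      ∫⁻ z, F (ContinuousLinearMap.rotation (E := EE n) θ z) ∂((gam n).prod (gam n)) := by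
    conv_lhs => rw [← hrot]
    rw [lintegral_map hF hm]
  have h1' : ∫⁻ y, ∫⁻ y', F (y, y') ∂(gam n) ∂(gam n) = ∫⁻ z, F z ∂((gam n).prod (gam n)) := h1.symm
  rw [h1', h3, h2]
  apply lintegral_congr
  intro y
  apply lintegral_congr
  intro y'
  rw [ContinuousLinearMap.rotation_apply]
  congr 2
  simp only [neg_smul]
  abel

end

end PPW
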