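import Pool.Agent.PPW.Stmts

/-!
# Squad PPW (MP_0bf616_gt), module GZB: the averaged Gaussian profile
-/

set_option autoImplicit false

namespace PPW

open MeasureTheory Set Filter Topology ProbabilityTheory
open PPI PPG PPX
open scoped Pointwise ENNReal

namespace GZB_

/-- shifted Gaussian integral -/
theorem shifted (b c : ℝ) : ∫ v : ℝ, Real.exp (-b * (v + c) ^ 2) = √(Real.pi / b) := by
  rw [integral_add_right_eq_self (fun v : ℝ => Real.exp (-b * v ^ 2)) c, integral_gaussian]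

theorem core (a s0 τ : ℝ) (ha : 0 < a) :
    ∫ v, gp a (s0 + τ * v) ∂ga1 =
      2 / √(2 * Real.pi * (a ^ 2 + τ ^ 2)) * Real.exp (-(s0 ^ 2 / (2 * (a ^ 2 + τ ^ 2)))) := by
  unfold ga1
  rw [integral_gaussianReal_eq_integral_smul one_ne_zero]
  have hpi : (0 : ℝ) < Real.pi := Real.pi_pos
  have hA : 0 < a ^ 2 + τ ^ 2 := by positivity
  set b : ℝ := (a ^ 2 + τ ^ 2) / (2 * a ^ 2) with hb
  set c : ℝ := s0 * τ / (a ^ 2 + τ ^ 2) with hc
  have hbpos : 0 < b := by positivity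
  have e : ∀ v : ℝ, gaussianPDFReal 0 1 v • gp a (s0 + τ * v) =
      ((√(2 * Real.pi))⁻¹ * (2 / (√(2 * Real.pi) * a)) *
        Real.exp (-(s0 ^ 2 / (2 * (a ^ 2 + τ ^ 2))))) * Real.exp (-b * (v + c) ^ 2) := by
    intro v
    unfold gaussianPDFReal gp
    simp only [smul_eq_mul, NNReal.coe_one, mul_one, sub_zero]
    have e1 : Real.exp (-v ^ 2 / 2) * Real.exp (-((s0 + τ * v) ^ 2 / (2 * a ^ 2))) =
        Real.exp (-(s0 ^ 2 / (2 * (a ^ 2 + τ ^ 2)))) * Real.exp (-b * (v + c) ^ 2) := by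
      rw [← Real.exp_add, ← Real.exp_add]
      congr 1
      rw [hb, hc]
      field_simp
      ring
    calc (√(2 * Real.pi))⁻¹ * Real.exp (-v ^ 2 / 2) *
          (2 / (√(2 * Real.pi) * a) * Real.exp (-((s0 + τ * v) ^ 2 / (2 * a ^ 2))))
        = (√(2 * Real.pi))⁻¹ * (2 / (√(2 * Real.pi) * a)) *
          (Real.exp (-v ^ 2 / 2) * Real.exp (-((s0 + τ * v) ^ 2 / (2 * a ^ 2)))) := by ring
      _ = _ := by rw [e1]; ring
  rw [integral_congr_ae (Eventually.of_forall e), integral_const_mul, shifted]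
  have hs1 : √(Real.pi / b) = √(2 * Real.pi) * a / √(a ^ 2 + τ ^ 2) := by
    have h1 : Real.pi / b = (2 * Real.pi) * a ^ 2 / (a ^ 2 + τ ^ 2) := by
      rw [hb]
      field_simp
    rw [h1, Real.sqrt_div (by positivity), Real.sqrt_mul (by positivity), Real.sqrt_sq ha.le]
  have hs2 : √(2 * Real.pi * (a ^ 2 + τ ^ 2)) = √(2 * Real.pi) * √(a ^ 2 + τ ^ 2) :=
    Real.sqrt_mul (by positivity) _
  rw [hs1, hs2]
  have h3 : 0 < √(2 * Real.pi) := Real.sqrt_pos.2 (by positivity)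
  have h4 : 0 < √(a ^ 2 + τ ^ 2) := Real.sqrt_pos.2 hA
  field_simp

end GZB_

open GZB_ in
theorem gzb_proof : Stmt_GZB := by
  intro a x t u ha hx0 hx1 ht
  unfold zb
  have h2t : (0 : ℝ) < 2 * t := by linarith
  have hpi : (0 : ℝ) < Real.pi := Real.pi_pos
  have hsg : 0 < sg t := by
    unfold sg
    exact inv_pos.2 (Real.sqrt_pos.2 h2t)
  have hsg2 : sg t ^ 2 = (2 * t)⁻¹ := by
    unfold sg
    rw [inv_pow, Real.sq_sqrt h2t.le]
  have hx : (0 : ℝ) ≤ 1 - x := by linarith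
  have e : ∀ v : ℝ, gp a (sg t * (√x * u + √(1 - x) * v)) =
      gp a (sg t * √x * u + (sg t * √(1 - x)) * v) := by
    intro v
    congr 1
    ring
  rw [integral_congr_ae (Eventually.of_forall e), core a _ _ ha]
  have hB : 0 < 2 * a ^ 2 * t + (1 - x) := by positivity
  have hA : a ^ 2 + (sg t * √(1 - x)) ^ 2 = (2 * a ^ 2 * t + (1 - x)) / (2 * t) := by
    rw [mul_pow, hsg2, Real.sq_sqrt hx]
    field_simp
  have hs0 : (sg t * √x * u) ^ 2 = x * u ^ 2 / (2 * t) := by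
    rw [mul_pow, mul_pow, hsg2, Real.sq_sqrt hx0]
    field_simp
  rw [hA, hs0]
  have e2 : x * u ^ 2 / (2 * t) / (2 * ((2 * a ^ 2 * t + (1 - x)) / (2 * t))) =
      x * u ^ 2 / (2 * (2 * a ^ 2 * t + (1 - x))) := by
    field_simp
  rw [e2, ← mul_assoc]
  congr 1
  rw [Real.rpow_neg hB.le, ← Real.sqrt_eq_rpow]
  have e3 : √(2 * Real.pi * ((2 * a ^ 2 * t + (1 - x)) / (2 * t))) =
      √(2 * Real.pi) * √(2 * a ^ 2 * t + (1 - x)) / √(2 * t) := by
    rw [← mul_div_assoc, Real.sqrt_div (by positivity), Real.sqrt_mul (by positivity)]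
  have e4 : √(2 * Real.pi) = 2 * √(Real.pi / 2) := by
    have h1 : 2 * Real.pi = 2 ^ 2 * (Real.pi / 2) := by ring
    rw [h1, Real.sqrt_mul (by positivity), Real.sqrt_sq (by norm_num)]
  rw [e3, e4]
  unfold sg
  have h5 : 0 < √(2 * t) := Real.sqrt_pos.2 h2t
  have h6 : 0 < √(Real.pi / 2) := Real.sqrt_pos.2 (by positivity)
  have h7 : 0 < √(2 * a ^ 2 * t + (1 - x)) := Real.sqrt_pos.2 hB
  field_simp

end PPW
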