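import Pool.Agent.PPW.Stmts

/-!
# Squad PPW, module JTB: the test body with constraints from clusters and from a subspace
-/

set_option autoImplicit false

namespace PPW

open MeasureTheory Set Filter Topology ProbabilityTheory
open PPI PPG PPX
open scoped Pointwise ENNReal

namespace JTB_

/-- a maximal subfamily with disjoint neighbourhoods -/
theorem max_fam {ι : Type} [Fintype ι] [DecidableEq ι] (S : Finset ι) (N : ι → Finset ι)
    (hN : ∀ i ∈ S, (N i).Nonempty) :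
    ∃ T : Finset ι, T ⊆ S ∧ (∀ a ∈ T, ∀ b ∈ T, a ≠ b → Disjoint (N a) (N b)) ∧
      ∀ i ∈ S, ∃ a ∈ T, ¬ Disjoint (N i) (N a) := by
  classical
  obtain ⟨T, hT, hmax⟩ := Finset.exists_max_image
    (S.powerset.filter fun T => ∀ a ∈ T, ∀ b ∈ T, a ≠ b → Disjoint (N a) (N b)) Finset.card
    ⟨∅, by simp⟩
  rw [Finset.mem_filter, Finset.mem_powerset] at hT
  refine ⟨T, hT.1, hT.2, ?_⟩
  intro i hi
  by_contra hcon
  push Not at hcon
  by_cases hiT : i ∈ T
  · have h1 := hcon i hiT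
    rw [disjoint_self] at h1
    have h2 := hN i hi
    rw [h1] at h2
    exact Finset.not_nonempty_empty h2
  · have h1 := hmax (insert i T) (by
      rw [Finset.mem_filter, Finset.mem_powerset]
      refine ⟨Finset.insert_subset hi hT.1, ?_⟩
      intro a ha b hb hab
      rw [Finset.mem_insert] at ha hb
      rcases ha with ha | ha
      · rcases hb with hb | hb
        · exact absurd (ha.trans hb.symm) hab
        · rw [ha]; exact hcon b hb
      · rcases hb with hb | hb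
        · rw [hb]; exact (hcon a ha).symm
        · exact hT.2 a ha b hb hab)
    rw [Finset.card_insert_of_notMem hiT] at h1
    omega

theorem norm_sub_proj {n : ℕ} (u v : EE n) (hu : ‖u‖ = 1) (hv : ‖v‖ = 1) :
    ‖u - (inner ℝ u v : ℝ) • v‖ ^ 2 = 1 - (inner ℝ u v) ^ 2 := by
  rw [@norm_sub_sq_real, inner_smul_right, norm_smul, hu, hv, Real.norm_eq_abs, mul_one, sq_abs]
  ring

theorem close_of_common {n : ℕ} (wi wa u x : EE n) (θ h : ℝ) (hwi : ‖wi‖ = 1) (hwa : ‖wa‖ = 1)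
    (hu : ‖u‖ = 1) (hx : ‖x‖ ≤ 1) (hθ : 0 ≤ θ) (h1 : 1 - (inner ℝ wi u) ^ 2 ≤ θ ^ 2)
    (h2 : 1 - (inner ℝ wa u) ^ 2 ≤ θ ^ 2) (hh : |inner ℝ x wa| ≤ h) :
    inner ℝ wi x ≤ h + 2 * θ := by
  have e1 : ‖wi - (inner ℝ wi u : ℝ) • u‖ ≤ θ := by
    have := norm_sub_proj wi u hwi hu
    have h3 : ‖wi - (inner ℝ wi u : ℝ) • u‖ ^ 2 ≤ θ ^ 2 := by rw [this]; exact h1
    exact abs_le_of_sq_le_sq' h3 hθ |>.2
  have e2 : ‖u - (inner ℝ u wa : ℝ) • wa‖ ≤ θ := by
    have := norm_sub_proj u wa hu hwa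
    have h3 : ‖u - (inner ℝ u wa : ℝ) • wa‖ ^ 2 ≤ θ ^ 2 := by
      rw [this, real_inner_comm]; exact h2
    exact abs_le_of_sq_le_sq' h3 hθ |>.2
  have a1 : |inner ℝ wi u| ≤ 1 := by
    have := abs_real_inner_le_norm wi u
    rwa [hwi, hu, one_mul] at this
  have a2 : |inner ℝ u wa| ≤ 1 := by
    have := abs_real_inner_le_norm u wa
    rwa [hwa, hu, one_mul] at this
  have f1 : |inner ℝ x (wi - (inner ℝ wi u : ℝ) • u)| ≤ θ := by
    refine (abs_real_inner_le_norm _ _).trans ?_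
    calc ‖x‖ * ‖wi - (inner ℝ wi u : ℝ) • u‖ ≤ 1 * θ := by gcongr
      _ = θ := one_mul _
  have f2 : |inner ℝ x (u - (inner ℝ u wa : ℝ) • wa)| ≤ θ := by
    refine (abs_real_inner_le_norm _ _).trans ?_
    calc ‖x‖ * ‖u - (inner ℝ u wa : ℝ) • wa‖ ≤ 1 * θ := by gcongr
      _ = θ := one_mul _
  have key : inner ℝ wi x = inner ℝ x (wi - (inner ℝ wi u : ℝ) • u) +
      inner ℝ wi u * (inner ℝ x (u - (inner ℝ u wa : ℝ) • wa) +
        inner ℝ u wa * inner ℝ x wa) := by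
    rw [inner_sub_right, inner_sub_right, inner_smul_right, inner_smul_right,
      real_inner_comm wi x]
    ring
  rw [key]
  have hh0 : 0 ≤ h := (abs_nonneg _).trans hh
  have g1 : |inner ℝ u wa * inner ℝ x wa| ≤ h := by
    rw [abs_mul]
    calc |inner ℝ u wa| * |inner ℝ x wa| ≤ 1 * h := by gcongr
      _ = h := one_mul _
  have g2 : |inner ℝ wi u * (inner ℝ x (u - (inner ℝ u wa : ℝ) • wa) +
        inner ℝ u wa * inner ℝ x wa)| ≤ θ + h := by
    rw [abs_mul]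
    have g3 : |inner ℝ x (u - (inner ℝ u wa : ℝ) • wa) + inner ℝ u wa * inner ℝ x wa| ≤ θ + h :=
      (abs_add_le _ _).trans (add_le_add f2 g1)
    calc _ ≤ 1 * (θ + h) := by gcongr
      _ = θ + h := one_mul _
  have g4 := le_abs_self (inner ℝ wi u * (inner ℝ x (u - (inner ℝ u wa : ℝ) • wa) +
        inner ℝ u wa * inner ℝ x wa))
  have g5 := le_abs_self (inner ℝ x (wi - (inner ℝ wi u : ℝ) • u))
  linarith

/-- the test body -/
def MM {n : ℕ} {ι : Type} (w : ι → EE n) (T : Finset ι) (h : ℝ) : Set (EE n) :=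
  {x | x ∈ Bn n ∧ ∀ a ∈ T, |inner ℝ x (w a)| ≤ h}

theorem MM_closed {n : ℕ} {ι : Type} (w : ι → EE n) (T : Finset ι) (h : ℝ) :
    IsClosed {x : EE n | ∀ a ∈ T, |inner ℝ x (w a)| ≤ h} := by
  have : {x : EE n | ∀ a ∈ T, |inner ℝ x (w a)| ≤ h} =
      ⋂ a ∈ T, {x : EE n | |inner ℝ x (w a)| ≤ h} := by
    ext x; simp
  rw [this]
  refine isClosed_biInter fun a _ => ?_
  exact isClosed_le (by fun_prop) continuous_const

theorem MM_compact {n : ℕ} {ι : Type} (w : ι → EE n) (T : Finset ι) (h : ℝ) :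
    IsCompact (MM w T h) := by
  have : MM w T h = Bn n ∩ {x : EE n | ∀ a ∈ T, |inner ℝ x (w a)| ≤ h} := rfl
  rw [this]
  exact (isCompact_closedBall _ _).inter_right (MM_closed w T h)

theorem MM_convex {n : ℕ} {ι : Type} (w : ι → EE n) (T : Finset ι) (h : ℝ) :
    Convex ℝ (MM w T h) := by
  intro x hx y hy s t hs ht hst
  refine ⟨(convex_closedBall (0 : EE n) 1) hx.1 hy.1 hs ht hst, ?_⟩
  intro a ha
  rw [inner_add_left, inner_smul_left, inner_smul_left]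
  simp only [conj_trivial]
  calc |s * inner ℝ x (w a) + t * inner ℝ y (w a)|
      ≤ |s * inner ℝ x (w a)| + |t * inner ℝ y (w a)| := abs_add_le _ _
    _ = s * |inner ℝ x (w a)| + t * |inner ℝ y (w a)| := by
        rw [abs_mul, abs_mul, abs_of_nonneg hs, abs_of_nonneg ht]
    _ ≤ s * h + t * h := by
        have := hx.2 a ha
        have := hy.2 a ha
        gcongr
    _ = h := by rw [← add_mul, hst, one_mul]

theorem MM_zero {n : ℕ} {ι : Type} (w : ι → EE n) (T : Finset ι) (h : ℝ) (hh : 0 ≤ h) :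
    (0 : EE n) ∈ MM w T h := by
  refine ⟨?_, ?_⟩
  · simp [Bn]
  · intro a _
    simpa using hh

theorem Bn_fin (n : ℕ) : volume (Bn n) ≠ ⊤ := by
  unfold Bn
  exact (isCompact_closedBall (0 : EE n) 1).measure_lt_top.ne

theorem MM_vol {n : ℕ} {ι : Type} (hcap : PPF.Stmt_CAP) (w : ι → EE n) (T : Finset ι) (h : ℝ)
    (hn : 1 ≤ n) (hw : ∀ a, ‖w a‖ = 1) (h0 : 0 ≤ h) (h1 : h ≤ 1) :
    kap n ≤ vl (MM w T h) + T.card * (2 * (√(1 - h ^ 2) ^ n * kap n)) := by
  classical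
  let C1 : ι → Set (EE n) := fun a => {x : EE n | x ∈ Bn n ∧ h ≤ inner ℝ x (w a)}
  let C2 : ι → Set (EE n) := fun a => {x : EE n | x ∈ Bn n ∧ h ≤ inner ℝ x (-(w a))}
  have hsub : Bn n ⊆ MM w T h ∪ ⋃ a ∈ T, (C1 a ∪ C2 a) := by
    intro x hx
    by_cases hM : ∀ a ∈ T, |inner ℝ x (w a)| ≤ h
    · exact Or.inl ⟨hx, hM⟩
    · push Not at hM
      obtain ⟨a, ha, hlt⟩ := hM
      right
      rw [mem_iUnion₂]
      refine ⟨a, ha, ?_⟩
      rcases le_or_gt 0 (inner ℝ x (w a) : ℝ) with hs | hs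
      · left
        refine ⟨hx, ?_⟩
        rw [abs_of_nonneg hs] at hlt
        exact hlt.le
      · right
        refine ⟨hx, ?_⟩
        rw [abs_of_neg hs] at hlt
        rw [inner_neg_right]
        exact hlt.le
  have hC1 : ∀ a, volume (C1 a) ≠ ⊤ := fun a =>
    ne_top_of_le_ne_top (Bn_fin n) (measure_mono fun x hx => hx.1)
  have hC2 : ∀ a, volume (C2 a) ≠ ⊤ := fun a =>
    ne_top_of_le_ne_top (Bn_fin n) (measure_mono fun x hx => hx.1)
  have hMf : volume (MM w T h) ≠ ⊤ :=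
    ne_top_of_le_ne_top (Bn_fin n) (measure_mono fun x hx => hx.1)
  have hle : volume (Bn n) ≤ volume (MM w T h) + ∑ a ∈ T, (volume (C1 a) + volume (C2 a)) := by
    refine (measure_mono hsub).trans ((measure_union_le _ _).trans ?_)
    gcongr
    refine (measure_biUnion_finset_le _ _).trans ?_
    exact Finset.sum_le_sum fun a _ => measure_union_le _ _
  have hsf : ∑ a ∈ T, (volume (C1 a) + volume (C2 a)) ≠ ⊤ := by
    refine (ENNReal.sum_lt_top.2 fun a _ => ?_).ne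
    exact ENNReal.add_lt_top.2 ⟨(hC1 a).lt_top, (hC2 a).lt_top⟩
  have hr := ENNReal.toReal_mono (ENNReal.add_ne_top.2 ⟨hMf, hsf⟩) hle
  rw [ENNReal.toReal_add hMf hsf, ENNReal.toReal_sum (fun a _ =>
    ENNReal.add_ne_top.2 ⟨hC1 a, hC2 a⟩)] at hr
  have hb : ∀ a ∈ T, (volume (C1 a) + volume (C2 a)).toReal ≤ 2 * (√(1 - h ^ 2) ^ n * kap n) := by
    intro a _
    rw [ENNReal.toReal_add (hC1 a) (hC2 a)]
    have c1 := hcap n (w a) h hn (hw a) h0 h1
    have c2 := hcap n (-(w a)) h hn (by rw [norm_neg]; exact hw a) h0 h1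
    have d1 : (volume (C1 a)).toReal ≤ √(1 - h ^ 2) ^ n * kap n := c1
    have d2 : (volume (C2 a)).toReal ≤ √(1 - h ^ 2) ^ n * kap n := c2
    linarith
  have hs := Finset.sum_le_sum hb
  rw [Finset.sum_const, nsmul_eq_mul] at hs
  have e2 : vl (MM w T h) = (volume (MM w T h)).toReal := rfl
  rw [e2]
  have hr' : kap n ≤ (volume (MM w T h)).toReal +
      ∑ a ∈ T, (volume (C1 a) + volume (C2 a)).toReal := hr
  linarith

/-- the asymptotic estimate -/
theorem asym (A B : ℕ) : ∃ n₀ : ℕ, ∀ n : ℕ, n₀ ≤ n →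
    8 * ((n : ℝ) ^ ((A + 1 : ℕ) : ℝ) * Real.exp (-((n : ℝ) ^ (1 / 2 : ℝ) / 2))) ≤
      (n : ℝ) ^ (-(B : ℝ)) := by
  have t1 : Tendsto (fun x : ℝ => x ^ (2 * (A + 1 + B)) * Real.exp (-x)) atTop (𝓝 0) :=
    Real.tendsto_pow_mul_exp_neg_atTop_nhds_zero _
  have t2 : Tendsto (fun n : ℕ => (n : ℝ) ^ (1 / 2 : ℝ) / 2) atTop atTop := by
    refine Tendsto.atTop_div_const (by norm_num) ?_
    exact (tendsto_rpow_atTop (by norm_num)).comp tendsto_natCast_atTop_atTop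
  have t3 := t1.comp t2
  have t4 : ∀ᶠ n : ℕ in atTop, ((n : ℝ) ^ (1 / 2 : ℝ) / 2) ^ (2 * (A + 1 + B)) *
      Real.exp (-((n : ℝ) ^ (1 / 2 : ℝ) / 2)) < 1 / (8 * 4 ^ (A + 1 + B)) := by
    have := t3.eventually (gt_mem_nhds (show (0 : ℝ) < 1 / (8 * 4 ^ (A + 1 + B)) by positivity))
    filter_upwards [this] with n hn
    exact hn
  obtain ⟨n₁, hn₁⟩ := eventually_atTop.1 t4
  refine ⟨max n₁ 1, ?_⟩
  intro n hn
  have h1 := hn₁ n (le_trans (le_max_left _ _) hn)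
  have hn1 : 1 ≤ n := le_trans (le_max_right _ _) hn
  have hnp : (0 : ℝ) < n := by exact_mod_cast hn1
  have hpow : ((n : ℝ) ^ (1 / 2 : ℝ)) ^ 2 = n := by
    rw [← Real.rpow_natCast, ← Real.rpow_mul hnp.le]
    norm_num
  have h2 : ((n : ℝ) ^ (1 / 2 : ℝ) / 2) ^ (2 * (A + 1 + B)) =
      (n : ℝ) ^ (A + 1 + B) / 4 ^ (A + 1 + B) := by
    rw [pow_mul, div_pow, hpow, div_pow]
    norm_num
  rw [h2] at h1
  obtain ⟨E, hE⟩ : ∃ E, E = Real.exp (-((n : ℝ) ^ (1 / 2 : ℝ) / 2)) := ⟨_, rfl⟩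
  rw [← hE] at h1 ⊢
  have hEpos : 0 < E := hE ▸ Real.exp_pos _
  have h3 : (n : ℝ) ^ (A + 1 + B) * E * 8 < 1 := by
    have h8 : (0 : ℝ) < 4 ^ (A + 1 + B) := by positivity
    rw [lt_div_iff₀ (by positivity)] at h1
    calc (n : ℝ) ^ (A + 1 + B) * E * 8 =
          (n : ℝ) ^ (A + 1 + B) / 4 ^ (A + 1 + B) * E * (8 * 4 ^ (A + 1 + B)) := by
          field_simp
      _ < 1 := h1
  rw [Real.rpow_neg hnp.le, Real.rpow_natCast, Real.rpow_natCast]
  rw [le_inv_comm₀ (by positivity) (by positivity)]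
  rw [← one_div, le_div_iff₀ (by positivity)]
  rw [pow_add] at h3
  nlinarith [h3]

/-! ## the projection -/

theorem pj_apply {n m : ℕ} (e : Fin m → EE n) (x : EE n) :
    pj e x = ∑ j, (inner ℝ (e j) x : ℝ) • e j := by
  unfold pj
  rw [sum_apply]
  refine Finset.sum_congr rfl fun j _ => ?_
  rw [ContinuousLinearMap.smulRight_apply, innerSL_apply_apply]

theorem inner_pj {n m : ℕ} (e : Fin m → EE n) (x y : EE n) :
    inner ℝ (pj e x) y = ∑ j, (inner ℝ (e j) x : ℝ) * inner ℝ (e j) y := by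
  rw [pj_apply, sum_inner]
  refine Finset.sum_congr rfl fun j _ => ?_
  rw [real_inner_smul_left]

theorem inner_pj' {n m : ℕ} (e : Fin m → EE n) (x y : EE n) :
    inner ℝ x (pj e y) = inner ℝ (pj e x) y := by
  rw [real_inner_comm, inner_pj, inner_pj]
  refine Finset.sum_congr rfl fun j _ => ?_
  ring

theorem inner_e_pj {n m : ℕ} {e : Fin m → EE n} (he : Orthonormal ℝ e) (x : EE n) (k : Fin m) :
    inner ℝ (e k) (pj e x) = (inner ℝ (e k) x : ℝ) := by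
  rw [pj_apply, inner_sum]
  rw [Finset.sum_eq_single k]
  · rw [real_inner_smul_right, real_inner_self_eq_norm_sq, he.1 k]
    ring
  · intro j _ hj
    rw [real_inner_smul_right, he.2 hj.symm, mul_zero]
  · intro h
    exact absurd (Finset.mem_univ k) h

theorem inner_pj_pj {n m : ℕ} {e : Fin m → EE n} (he : Orthonormal ℝ e) (x y : EE n) :
    inner ℝ (pj e x) (pj e y) = (inner ℝ (pj e x) y : ℝ) := by
  rw [inner_pj, inner_pj]
  refine Finset.sum_congr rfl fun j _ => ?_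
  rw [inner_e_pj he]

theorem norm_pj_sq {n m : ℕ} {e : Fin m → EE n} (he : Orthonormal ℝ e) (x : EE n) :
    ‖pj e x‖ ^ 2 = ∑ j, (inner ℝ (e j) x : ℝ) ^ 2 := by
  rw [← real_inner_self_eq_norm_sq, inner_pj_pj he, inner_pj]
  refine Finset.sum_congr rfl fun j _ => ?_
  ring

theorem norm_sub_pj_sq {n m : ℕ} {e : Fin m → EE n} (he : Orthonormal ℝ e) (x : EE n) :
    ‖x - pj e x‖ ^ 2 = ‖x‖ ^ 2 - ‖pj e x‖ ^ 2 := by
  rw [@norm_sub_sq_real, inner_pj', ← inner_pj_pj he, real_inner_self_eq_norm_sq]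
  ring

theorem inner_split {n m : ℕ} {e : Fin m → EE n} (he : Orthonormal ℝ e) (x y : EE n) :
    (inner ℝ x y : ℝ) = inner ℝ (pj e x) (pj e y) + inner ℝ (x - pj e x) (y - pj e y) := by
  have h1 := inner_pj' e x y
  have h2 := inner_pj_pj he x y
  rw [inner_sub_left, inner_sub_right, inner_sub_right, h2, h1]
  ring

theorem norm_pj_le {n m : ℕ} {e : Fin m → EE n} (he : Orthonormal ℝ e) (x : EE n) :
    ‖pj e x‖ ≤ ‖x‖ := by
  have h := norm_sub_pj_sq he x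
  have h1 : ‖pj e x‖ ^ 2 ≤ ‖x‖ ^ 2 := by nlinarith [sq_nonneg ‖x - pj e x‖]
  exact (sq_le_sq₀ (norm_nonneg _) (norm_nonneg _)).1 h1

theorem inner_le_T {n m : ℕ} {e : Fin m → EE n} (he : Orthonormal ℝ e) (w x : EE n) (h : ℝ)
    (hw : ‖w‖ = 1) (hx : ‖x‖ ≤ 1) (hh : ‖pj e x‖ ≤ h) :
    inner ℝ w x ≤ √(1 - ‖pj e w‖ ^ 2) + h := by
  have h1 := inner_split he w x
  have h2 : (inner ℝ (pj e w) (pj e x) : ℝ) ≤ h := by
    refine (real_inner_le_norm _ _).trans ?_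
    have h3 := norm_pj_le he w
    rw [hw] at h3
    calc ‖pj e w‖ * ‖pj e x‖ ≤ 1 * h := by gcongr
      _ = h := one_mul h
  have h4 : (inner ℝ (w - pj e w) (x - pj e x) : ℝ) ≤ √(1 - ‖pj e w‖ ^ 2) := by
    refine (real_inner_le_norm _ _).trans ?_
    have h5 : ‖w - pj e w‖ = √(1 - ‖pj e w‖ ^ 2) := by
      have h6 := norm_sub_pj_sq he w
      rw [hw, one_pow] at h6
      rw [← h6, Real.sqrt_sq (norm_nonneg _)]
    have h7 : ‖x - pj e x‖ ≤ 1 := by
      have h8 := norm_sub_pj_sq he x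
      have h9 : ‖x - pj e x‖ ^ 2 ≤ 1 ^ 2 := by
        have := sq_nonneg ‖pj e x‖
        have : ‖x‖ ^ 2 ≤ 1 := by
          have := norm_nonneg x
          nlinarith
        linarith
      exact (sq_le_sq₀ (norm_nonneg _) zero_le_one).1 h9
    rw [h5]
    calc √(1 - ‖pj e w‖ ^ 2) * ‖x - pj e x‖ ≤ √(1 - ‖pj e w‖ ^ 2) * 1 := by
          have := Real.sqrt_nonneg (1 - ‖pj e w‖ ^ 2)
          gcongr
      _ = _ := mul_one _
  linarith

end JTB_

open JTB_ in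
theorem jtb_proof (hcap : PPF.Stmt_CAP) (have_ : PPI.Stmt_AVE) : Stmt_JTB := by
  classical
  intro A B
  obtain ⟨n₁, hn₁⟩ := asym A B
  refine ⟨max n₁ 1, ?_⟩
  intro n m ι _ p w D θ e S T hn hIS hMI hθ0 hθ1 he hm hST hS
  have hna := hn₁ n (le_trans (le_max_left _ _) hn)
  have hn1 : 1 ≤ n := le_trans (le_max_right _ _) hn
  have hnp : (0 : ℝ) < n := by exact_mod_cast hn1
  have hn1r : (1 : ℝ) ≤ n := by exact_mod_cast hn1
  have hkap : 0 < kap n := (have_ n hn1).1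
  obtain ⟨h, hh⟩ : ∃ h : ℝ, h = (n : ℝ) ^ (-(1 / 5 : ℝ)) := ⟨_, rfl⟩
  obtain ⟨τ, hτ⟩ : ∃ τ : ℝ, τ = (n : ℝ) ^ (-(1 / 4 : ℝ)) := ⟨_, rfl⟩
  have hh0 : 0 < h := hh ▸ Real.rpow_pos_of_pos hnp _
  have hτ0 : 0 < τ := hτ ▸ Real.rpow_pos_of_pos hnp _
  have hτ1 : τ ≤ 1 := hτ ▸ Real.rpow_le_one_of_one_le_of_nonpos hn1r (by norm_num)
  have hτh : τ ≤ h := by
    rw [hτ, hh]
    exact Real.rpow_le_rpow_of_exponent_le hn1r (by norm_num)
  have hmτ : (m : ℝ) * τ ^ 2 ≤ h ^ 2 := by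
    have e1 : τ ^ 2 = (n : ℝ) ^ (-(1 / 2 : ℝ)) := by
      rw [hτ, ← Real.rpow_natCast, ← Real.rpow_mul hnp.le]
      norm_num
    have e2 : h ^ 2 = (n : ℝ) ^ (1 / 10 : ℝ) * (n : ℝ) ^ (-(1 / 2 : ℝ)) := by
      rw [hh, ← Real.rpow_natCast, ← Real.rpow_mul hnp.le, ← Real.rpow_add hnp]
      norm_num
    rw [e1, e2]
    have := Real.rpow_pos_of_pos hnp (-(1 / 2 : ℝ))
    gcongr
  rw [← hh]
  let N : ι → Finset ι := fun i => Finset.univ.filter fun j => 1 - (inner ℝ (w i) (w j)) ^ 2 ≤ θ ^ 2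
  have hnm : ∀ i, nm θ p w i = ∑ j ∈ N i, p j := by
    intro i
    unfold nm
    rw [Finset.sum_filter]
  have hAp : 0 < (n : ℝ) ^ (-(A : ℝ)) := Real.rpow_pos_of_pos hnp _
  have hNne : ∀ i ∈ S, (N i).Nonempty := by
    intro i hi
    by_contra hcon
    rw [Finset.not_nonempty_iff_eq_empty] at hcon
    have h1 := hS i hi
    rw [hnm, hcon, Finset.sum_empty] at h1
    linarith
  obtain ⟨U, hUS, hUd, hUm⟩ := max_fam S N hNne
  -- the number of elements of `U`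
  have hcard : (U.card : ℝ) ≤ (n : ℝ) ^ (A : ℝ) := by
    have h1 : ∑ i ∈ U, (n : ℝ) ^ (-(A : ℝ)) ≤ ∑ i ∈ U, ∑ j ∈ N i, p j :=
      Finset.sum_le_sum fun i hi => by rw [← hnm]; exact hS i (hUS hi)
    rw [← Finset.sum_biUnion (fun a ha b hb hab => hUd a ha b hb hab)] at h1
    have h2 : ∑ j ∈ U.biUnion N, p j ≤ ∑ j, p j :=
      Finset.sum_le_sum_of_subset_of_nonneg (Finset.subset_univ _) fun j _ _ => (hIS.ppos j).le
    rw [hIS.psum] at h2
    rw [Finset.sum_const, nsmul_eq_mul, Real.rpow_neg hnp.le] at h1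
    have h3 : 0 < (n : ℝ) ^ (A : ℝ) := Real.rpow_pos_of_pos hnp _
    have h4 : (U.card : ℝ) * ((n : ℝ) ^ (A : ℝ))⁻¹ ≤ 1 := h1.trans h2
    rwa [← div_eq_mul_inv, div_le_one h3] at h4
  -- all constraints
  obtain ⟨v, hv⟩ : ∃ v : Fin m ⊕ ι → EE n, v = Sum.elim e w := ⟨_, rfl⟩
  obtain ⟨V, hV⟩ : ∃ V : Finset (Fin m ⊕ ι), V = (Finset.univ : Finset (Fin m)).disjSum U :=
    ⟨_, rfl⟩
  have hv1 : ∀ a, ‖v a‖ = 1 := by
    intro a
    rw [hv]
    rcases a with j | i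
    · exact he.1 j
    · exact hIS.nrm i
  have hVc : (V.card : ℝ) ≤ 2 * (n : ℝ) ^ ((A + 1 : ℕ) : ℝ) := by
    rw [hV, Finset.card_disjSum, Finset.card_univ, Fintype.card_fin, Nat.cast_add]
    have h1 : (n : ℝ) ^ (1 / 10 : ℝ) ≤ (n : ℝ) ^ ((A + 1 : ℕ) : ℝ) := by
      refine Real.rpow_le_rpow_of_exponent_le hn1r ?_
      push_cast
      have : (0 : ℝ) ≤ A := Nat.cast_nonneg A
      linarith
    have h2 : (n : ℝ) ^ (A : ℝ) ≤ (n : ℝ) ^ ((A + 1 : ℕ) : ℝ) := by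
      refine Real.rpow_le_rpow_of_exponent_le hn1r ?_
      push_cast
      linarith
    linarith
  -- the volume of the test body
  have hvol := MM_vol hcap v V τ hn1 hv1 hτ0.le hτ1
  have hsq : √(1 - τ ^ 2) ^ n ≤ Real.exp (-((n : ℝ) ^ (1 / 2 : ℝ) / 2)) := by
    have h1 : √(1 - τ ^ 2) ≤ Real.exp (-(τ ^ 2 / 2)) := by
      rw [Real.sqrt_le_left (Real.exp_pos _).le, ← Real.exp_nat_mul]
      have := Real.add_one_le_exp (-(τ ^ 2))
      have e : ((2 : ℕ) : ℝ) * (-(τ ^ 2 / 2)) = -(τ ^ 2) := by push_cast; ring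
      rw [e]
      linarith
    calc √(1 - τ ^ 2) ^ n ≤ Real.exp (-(τ ^ 2 / 2)) ^ n := by gcongr
      _ = Real.exp (-((n : ℝ) ^ (1 / 2 : ℝ) / 2)) := by
          rw [← Real.exp_nat_mul]
          congr 1
          have : (n : ℝ) * τ ^ 2 = (n : ℝ) ^ (1 / 2 : ℝ) := by
            rw [hτ, ← Real.rpow_natCast, ← Real.rpow_mul hnp.le]
            nth_rewrite 1 [← Real.rpow_one (n : ℝ)]
            rw [← Real.rpow_add hnp]
            norm_num
          rw [← this]; ring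
  obtain ⟨E, hE⟩ : ∃ E, E = Real.exp (-((n : ℝ) ^ (1 / 2 : ℝ) / 2)) := ⟨_, rfl⟩
  rw [← hE] at hsq hna
  have hEpos : 0 < E := hE ▸ Real.exp_pos _
  obtain ⟨δ, hδ⟩ : ∃ δ : ℝ, δ = 4 * ((n : ℝ) ^ ((A + 1 : ℕ) : ℝ) * E) := ⟨_, rfl⟩
  have hδ0 : 0 < δ := by
    have : 0 < (n : ℝ) ^ ((A + 1 : ℕ) : ℝ) := Real.rpow_pos_of_pos hnp _
    rw [hδ]
    positivity
  have hδB : 2 * δ ≤ (n : ℝ) ^ (-(B : ℝ)) := by
    rw [hδ]; linarith
  have hB1 : (n : ℝ) ^ (-(B : ℝ)) ≤ 1 :=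
    Real.rpow_le_one_of_one_le_of_nonpos hn1r (by
      have : (0 : ℝ) ≤ B := Nat.cast_nonneg B
      linarith)
  have hδ1 : δ ≤ 1 / 2 := by linarith
  have hvol2 : kap n * (1 - δ) ≤ vl (MM v V τ) := by
    have h1 : (V.card : ℝ) * (2 * (√(1 - τ ^ 2) ^ n * kap n)) ≤
        (2 * (n : ℝ) ^ ((A + 1 : ℕ) : ℝ)) * (2 * (E * kap n)) := by
      gcongr
    have h2 : (2 * (n : ℝ) ^ ((A + 1 : ℕ) : ℝ)) * (2 * (E * kap n)) = kap n * δ := by
      rw [hδ]; ring
    rw [h2] at h1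
    linarith
  -- Minkowski
  obtain ⟨r, hr⟩ : ∃ r : ι → ℝ, r = fun i => √(1 - ‖pj e (w i)‖ ^ 2) := ⟨_, rfl⟩
  have hri : ∀ i, √(1 - ‖pj e (w i)‖ ^ 2) = r i := fun i => by rw [hr]
  have hMI2 := hMI (MM v V τ)
    (fun i => if i ∈ S then h + 2 * θ else if i ∈ T then r i + h else 1) (MM_compact v V τ)
    (MM_convex v V τ) ⟨0, MM_zero v V τ hτ0.le⟩ (by
      intro i x hx
      have hx1 : ‖x‖ ≤ 1 := by simpa [Bn] using hx.1
      by_cases hi : i ∈ S
      · rw [if_pos hi]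
        obtain ⟨a, ha, hd⟩ := hUm i hi
        rw [Finset.not_disjoint_iff] at hd
        obtain ⟨j, hj1, hj2⟩ := hd
        rw [Finset.mem_filter] at hj1 hj2
        have hxa : |inner ℝ x (w a)| ≤ h := by
          have h1 := hx.2 (Sum.inr a) (by
            rw [hV, Finset.inr_mem_disjSum]
            exact ha)
          rw [hv] at h1
          exact h1.trans hτh
        exact close_of_common (w i) (w a) (w j) x θ h (hIS.nrm i) (hIS.nrm a) (hIS.nrm j) hx1 hθ0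
          hj1.2 hj2.2 hxa
      · rw [if_neg hi]
        by_cases hi' : i ∈ T
        · rw [if_pos hi', ← hri]
          refine inner_le_T he (w i) x h (hIS.nrm i) hx1 ?_
          have h1 : ‖pj e x‖ ^ 2 ≤ h ^ 2 := by
            rw [norm_pj_sq he]
            refine le_trans ?_ hmτ
            have h2 : ∀ j ∈ (Finset.univ : Finset (Fin m)), (inner ℝ (e j) x : ℝ) ^ 2 ≤ τ ^ 2 := by
              intro j _
              have h3 := hx.2 (Sum.inl j) (by
                rw [hV, Finset.inl_mem_disjSum]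
                exact Finset.mem_univ j)
              rw [hv] at h3
              have h4 : |inner ℝ x (e j)| ≤ τ := h3
              rw [real_inner_comm, ← sq_abs]
              have := abs_nonneg (inner ℝ x (e j) : ℝ)
              nlinarith
            have h5 := Finset.sum_le_sum h2
            rw [Finset.sum_const, Finset.card_univ, Fintype.card_fin, nsmul_eq_mul] at h5
            exact h5
          exact (sq_le_sq₀ (norm_nonneg _) hh0.le).1 h1
        · rw [if_neg hi']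
          have := real_inner_le_norm (w i) x
          rw [hIS.nrm i, one_mul] at this
          exact this.trans hx1)
  obtain ⟨X, hX⟩ : ∃ X, X = ∑ i ∈ S, p i * (1 - 2 * θ - h) + ∑ i ∈ T, p i * (1 - r i - h) :=
    ⟨_, rfl⟩
  have hsum : ∑ i, p i * (if i ∈ S then h + 2 * θ else if i ∈ T then r i + h else 1) =
      1 - X := by
    have h1 : ∀ i, p i * (if i ∈ S then h + 2 * θ else if i ∈ T then r i + h else 1) =
        p i - ((if i ∈ S then p i * (1 - 2 * θ - h) else 0) +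
          (if i ∈ T then p i * (1 - r i - h) else 0)) := by
      intro i
      by_cases hi : i ∈ S
      · have hi' : i ∉ T := Finset.disjoint_left.1 hST hi
        rw [if_pos hi, if_pos hi, if_neg hi']; ring
      · by_cases hi' : i ∈ T
        · rw [if_neg hi, if_neg hi, if_pos hi', if_pos hi']; ring
        · rw [if_neg hi, if_neg hi, if_neg hi', if_neg hi']; ring
    rw [Finset.sum_congr rfl fun i _ => h1 i, Finset.sum_sub_distrib, hIS.psum,
      Finset.sum_add_distrib, Finset.sum_ite_mem, Finset.sum_ite_mem, Finset.univ_inter,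
      Finset.univ_inter, hX]
  rw [hsum] at hMI2
  have hb : (1 - X) ^ n ≤ Real.exp (-((n : ℝ) * X)) := by
    have h1 : 1 - X ≤ Real.exp (-X) := by
      have := Real.add_one_le_exp (-X)
      linarith
    calc (1 - X) ^ n ≤ Real.exp (-X) ^ n := pow_le_pow_left₀ hMI2.1 h1 n
      _ = Real.exp (-((n : ℝ) * X)) := by
          rw [← Real.exp_nat_mul]
          congr 1
          ring
  have hfin : 1 - δ ≤ Real.exp (D - n * X) := by
    have h1 : kap n * (1 - δ) ≤ kap n * Real.exp (D - n * X) := by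
      calc kap n * (1 - δ) ≤ vl (MM v V τ) := hvol2
        _ ≤ kap n * Real.exp D * (1 - X) ^ n := hMI2.2
        _ ≤ kap n * Real.exp D * Real.exp (-((n : ℝ) * X)) := by
            have : 0 ≤ kap n * Real.exp D := by positivity
            gcongr
        _ = kap n * Real.exp (D - n * X) := by
            rw [mul_assoc, ← Real.exp_add]
            congr 2
    exact le_of_mul_le_mul_left h1 hkap
  have hlog : Real.log (1 - δ) ≤ D - n * X := by
    rw [Real.log_le_iff_le_exp (by linarith)]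
    exact hfin
  have hlog2 : -(2 * δ) ≤ Real.log (1 - δ) := by
    have h1 := Real.one_sub_inv_le_log_of_pos (show (0 : ℝ) < 1 - δ by linarith)
    have h2 : (1 - δ)⁻¹ ≤ 1 + 2 * δ := by
      rw [inv_le_iff_one_le_mul₀ (by linarith)]
      nlinarith
    linarith
  have hXX : (n : ℝ) * ∑ i ∈ S, p i * (1 - 2 * θ - h) +
      n * ∑ i ∈ T, p i * (1 - √(1 - ‖pj e (w i)‖ ^ 2) - h) = n * X := by
    simp only [hri]
    rw [hX]; ring
  rw [hXX]
  linarith

end PPW
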