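import Pool.Agent.PPW.Stmts

/-!
# Squad PPW, module KAP: the constants `kz` (helper49)
-/

set_option autoImplicit false

namespace PPW

open MeasureTheory Set Filter Topology ProbabilityTheory
open PPI PPG PPX
open scoped Pointwise ENNReal

namespace KAP_

theorem integral_ex (f : ℝ → ℝ) : ∫ t, f t ∂ex = ∫ t in Ioi (0 : ℝ), Real.exp (-t) * f t := by
  unfold ex
  rw [integral_withDensity_eq_integral_toReal_smul (by fun_prop)
    (ae_of_all _ fun _ => ENNReal.ofReal_lt_top)]
  simp only [ENNReal.toReal_ofReal (Real.exp_pos _).le, smul_eq_mul]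

theorem integrable_ex (f : ℝ → ℝ) : Integrable f ex ↔
    IntegrableOn (fun t => Real.exp (-t) * f t) (Ioi (0 : ℝ)) := by
  unfold ex
  rw [integrable_withDensity_iff_integrable_smul' (by fun_prop)
    (ae_of_all _ fun _ => ENNReal.ofReal_lt_top)]
  simp only [ENNReal.toReal_ofReal (Real.exp_pos _).le, smul_eq_mul]
  rfl

theorem int_exp : IntegrableOn (fun t : ℝ => Real.exp (-t)) (Ioi (0 : ℝ)) := by
  simpa using integrableOn_exp_neg_Ioi 0

theorem int_inv {z : ℝ} (hz : 0 < z) :
    IntegrableOn (fun t : ℝ => Real.exp (-t) * (1 / (z + t))) (Ioi (0 : ℝ)) := by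
  refine Integrable.mono' (int_exp.const_mul (1 / z)) (by fun_prop) ?_
  filter_upwards [ae_restrict_mem measurableSet_Ioi] with t ht
  have ht : 0 < t := ht
  rw [Real.norm_of_nonneg (by positivity), mul_comm]
  gcongr
  linarith

theorem log_bd {z t : ℝ} (hz : 0 < z) (ht : 0 < t) :
    0 ≤ Real.log (1 + t / z) ∧ Real.log (1 + t / z) ≤ t / z := by
  have h : 0 < t / z := by positivity
  refine ⟨Real.log_nonneg (by linarith), ?_⟩
  have := Real.log_le_sub_one_of_pos (show 0 < 1 + t / z by linarith)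
  linarith

theorem int_log (hE : Integrable (fun t : ℝ => t) ex) {z : ℝ} (hz : 0 < z) :
    IntegrableOn (fun t : ℝ => Real.exp (-t) * Real.log (1 + t / z)) (Ioi (0 : ℝ)) := by
  rw [integrable_ex] at hE
  refine Integrable.mono' (hE.const_mul (1 / z)) (by fun_prop) ?_
  filter_upwards [ae_restrict_mem measurableSet_Ioi] with t ht
  have ht : 0 < t := ht
  obtain ⟨h1, h2⟩ := log_bd hz ht
  rw [Real.norm_of_nonneg (by positivity)]
  calc Real.exp (-t) * Real.log (1 + t / z) ≤ Real.exp (-t) * (t / z) := by gcongr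
    _ = 1 / z * (Real.exp (-t) * t) := by ring

theorem ident (hE : Integrable (fun t : ℝ => t) ex) {z : ℝ} (hz : 0 < z) :
    ∫ t in Ioi (0 : ℝ), Real.exp (-t) * Real.log (1 + t / z) =
      ∫ t in Ioi (0 : ℝ), Real.exp (-t) * (1 / (z + t)) := by
  have key := integral_Ioi_of_hasDerivAt_of_tendsto (a := 0) (m := 0)
    (f := fun t : ℝ => -(Real.exp (-t) * Real.log (1 + t / z)))
    (f' := fun t : ℝ => Real.exp (-t) * Real.log (1 + t / z) - Real.exp (-t) * (1 / (z + t)))
    ?_ ?_ ((int_log hE hz).sub (int_inv hz)) ?_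
  · rw [integral_sub (int_log hE hz) (int_inv hz)] at key
    simp only [zero_div, add_zero, Real.log_one, mul_zero, neg_zero, sub_zero] at key
    linarith
  · apply ContinuousAt.continuousWithinAt
    have : (1 : ℝ) + 0 / z ≠ 0 := by simp
    fun_prop (disch := assumption)
  · intro t ht
    have ht : 0 < t := ht
    have h1 : HasDerivAt (fun t : ℝ => Real.exp (-t)) (-Real.exp (-t)) t := by
      simpa using (hasDerivAt_neg t).exp
    have h2 : HasDerivAt (fun t : ℝ => 1 + t / z) (1 / z) t := by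
      simpa using ((hasDerivAt_id t).div_const z).const_add 1
    have h3 := (h1.mul (h2.log (by positivity))).neg
    refine h3.congr_deriv ?_
    field_simp
    ring
  · have h0 : Tendsto (fun t : ℝ => t ^ 1 * Real.exp (-t) * (1 / z)) atTop (𝓝 (0 * (1 / z))) :=
      (Real.tendsto_pow_mul_exp_neg_atTop_nhds_zero 1).mul_const _
    rw [zero_mul] at h0
    have h1 : Tendsto (fun t : ℝ => Real.exp (-t) * Real.log (1 + t / z)) atTop (𝓝 0) := by
      refine squeeze_zero' ?_ ?_ h0
      · filter_upwards [eventually_gt_atTop 0] with t ht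
        have := (log_bd hz ht).1
        positivity
      · filter_upwards [eventually_gt_atTop 0] with t ht
        have := (log_bd hz ht).2
        calc Real.exp (-t) * Real.log (1 + t / z) ≤ Real.exp (-t) * (t / z) := by gcongr
          _ = t ^ 1 * Real.exp (-t) * (1 / z) := by ring
    simpa using h1.neg

/-- numerator of the continued fraction -/
def nu (s : ℝ) : ℝ := s ^ 4 + 19 * s ^ 3 + 102 * s ^ 2 + 154 * s + 24

/-- denominator of the continued fraction -/
def de (s : ℝ) : ℝ := s * (s ^ 4 + 20 * s ^ 3 + 120 * s ^ 2 + 240 * s + 120)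

theorem de_pos {s : ℝ} (hs : 0 < s) : 0 < de s := by unfold de; positivity

theorem nu_pos {s : ℝ} (hs : 0 < s) : 0 < nu s := by unfold nu; positivity

theorem nu_de {s : ℝ} (hs : 0 < s) : nu s / de s ≤ 1 / s := by
  rw [div_le_div_iff₀ (de_pos hs) hs]
  unfold nu de
  have : 0 ≤ s * (s ^ 3 + 18 * s ^ 2 + 86 * s + 96) := by positivity
  nlinarith

theorem tail_le {z a : ℝ} (hz : 0 < z) (ha : 0 ≤ a) (h1 : z + a = 1) :
    ∫ t in Ioi a, Real.exp (-t) * (1 / (z + t)) ≤ Real.exp (-a) * (300 / 501) := by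
  have hd : ∀ t ∈ Ioi a, HasDerivAt (fun t : ℝ => -(Real.exp (-t) * (nu (z + t) / de (z + t))))
      (Real.exp (-t) * (1 / (z + t) + 2880 / de (z + t) ^ 2)) t := by
    intro t ht
    have ht : a < t := ht
    have hs : 0 < z + t := by linarith
    have hs5 : 0 < (z + t) ^ 4 + 20 * (z + t) ^ 3 + 120 * (z + t) ^ 2 + 240 * (z + t) + 120 := by
      positivity
    have h1 : HasDerivAt (fun t : ℝ => Real.exp (-t)) (-Real.exp (-t)) t := by
      simpa using (hasDerivAt_neg t).exp
    have h0 : HasDerivAt (fun t : ℝ => z + t) 1 t := (hasDerivAt_id t).const_add z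
    have hn : HasDerivAt (fun t : ℝ => nu (z + t))
        (4 * (z + t) ^ 3 + 57 * (z + t) ^ 2 + 204 * (z + t) + 154) t := by
      unfold nu
      have := ((((h0.pow 4).add ((h0.pow 3).const_mul 19)).add ((h0.pow 2).const_mul 102)).add
        (h0.const_mul 154)).add_const 24
      refine this.congr_deriv ?_
      push_cast
      ring
    have hdd : HasDerivAt (fun t : ℝ => de (z + t))
        (5 * (z + t) ^ 4 + 80 * (z + t) ^ 3 + 360 * (z + t) ^ 2 + 480 * (z + t) + 120) t := by
      unfold de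
      have := h0.mul (((((h0.pow 4).add ((h0.pow 3).const_mul 20)).add
        ((h0.pow 2).const_mul 120)).add (h0.const_mul 240)).add_const 120)
      refine this.congr_deriv ?_
      simp only [Pi.add_apply, Pi.pow_apply]
      push_cast
      ring
    have h3 := (h1.mul (hn.div hdd (de_pos hs).ne')).neg
    refine h3.congr_deriv ?_
    simp only [Pi.div_apply]
    unfold nu de
    field_simp
    ring
  have hc : ContinuousWithinAt (fun t : ℝ => -(Real.exp (-t) * (nu (z + t) / de (z + t))))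
      (Ici a) a := by
    apply ContinuousAt.continuousWithinAt
    have : de (z + a) ≠ 0 := (de_pos (by linarith)).ne'
    unfold nu
    unfold de at this ⊢
    fun_prop (disch := assumption)
  have ht0 : Tendsto (fun t : ℝ => -(Real.exp (-t) * (nu (z + t) / de (z + t)))) atTop (𝓝 0) := by
    have h0 : Tendsto (fun t : ℝ => t ^ 0 * Real.exp (-t) * (1 / z)) atTop (𝓝 (0 * (1 / z))) :=
      (Real.tendsto_pow_mul_exp_neg_atTop_nhds_zero 0).mul_const _
    rw [zero_mul] at h0
    have h1 : Tendsto (fun t : ℝ => Real.exp (-t) * (nu (z + t) / de (z + t))) atTop (𝓝 0) := by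
      refine squeeze_zero' ?_ ?_ h0
      · filter_upwards [eventually_gt_atTop 0] with t ht
        have h1 := nu_pos (show 0 < z + t by linarith)
        have h2 := de_pos (show 0 < z + t by linarith)
        positivity
      · filter_upwards [eventually_gt_atTop 0] with t ht
        have h1 := nu_de (show 0 < z + t by linarith)
        have h2 : 1 / (z + t) ≤ 1 / z := by gcongr; linarith
        calc Real.exp (-t) * (nu (z + t) / de (z + t)) ≤ Real.exp (-t) * (1 / z) :=
              mul_le_mul_of_nonneg_left (h1.trans h2) (Real.exp_pos _).le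
          _ = t ^ 0 * Real.exp (-t) * (1 / z) := by ring
    simpa using h1.neg
  have hp : ∀ t ∈ Ioi a, 0 ≤ Real.exp (-t) * (1 / (z + t) + 2880 / de (z + t) ^ 2) := by
    intro t ht
    have ht : a < t := ht
    have hs : 0 < z + t := by linarith
    positivity
  have hi := integrableOn_Ioi_deriv_of_nonneg hc hd hp ht0
  have e := integral_Ioi_of_hasDerivAt_of_tendsto hc hd hi ht0
  have hm : ∫ t in Ioi a, Real.exp (-t) * (1 / (z + t)) ≤
      ∫ t in Ioi a, Real.exp (-t) * (1 / (z + t) + 2880 / de (z + t) ^ 2) := by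
    refine setIntegral_mono_on ((int_inv hz).mono_set (Ioi_subset_Ioi ha)) hi
      measurableSet_Ioi ?_
    intro t ht
    have ht : a < t := ht
    gcongr
    have : 0 ≤ 2880 / de (z + t) ^ 2 := by positivity
    linarith
  rw [e, h1] at hm
  refine hm.trans (le_of_eq ?_)
  unfold nu de
  norm_num

/-- the antiderivative -/
noncomputable def pf (s : ℝ) : ℝ :=
  Real.log s - s + s ^ 2 / 4 - s ^ 3 / 18 + s ^ 4 / 96 - s ^ 5 / 600 + s ^ 6 / 4320

theorem exp_le {s : ℝ} (h0 : 0 ≤ s) (h1 : s ≤ 1) : Real.exp (-s) ≤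
    1 - s + s ^ 2 / 2 - s ^ 3 / 6 + s ^ 4 / 24 - s ^ 5 / 120 + s ^ 6 / 720 := by
  have h := Real.exp_bound (x := -s) (by rw [abs_neg, abs_of_nonneg h0]; exact h1)
    (n := 8) (by norm_num)
  have h2 := (abs_le.1 h).2
  rw [abs_neg, abs_of_nonneg h0] at h2
  simp only [Finset.sum_range_succ, Finset.sum_range_zero, Nat.factorial] at h2
  norm_num at h2
  have h3 : s ^ 8 ≤ s ^ 7 := by
    calc s ^ 8 = s ^ 7 * s := by ring
      _ ≤ s ^ 7 * 1 := by gcongr
      _ = s ^ 7 := by ring
  have h4 : 0 ≤ s ^ 7 := by positivity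
  nlinarith

theorem first_le {z a : ℝ} (hz : 0 < z) (ha : 0 ≤ a) (h1 : z + a = 1) :
    ∫ t in Ioc 0 a, Real.exp (-t) * (1 / (z + t)) ≤ Real.exp z * (pf 1 - pf z) := by
  rw [← intervalIntegral.integral_of_le ha]
  have hs : ∀ t ∈ Set.uIcc 0 a, 0 < z + t := by
    intro t ht
    rw [uIcc_of_le ha] at ht
    linarith [ht.1]
  have hd : ∀ t ∈ Set.uIcc 0 a, HasDerivAt (fun t => Real.exp z * pf (z + t))
      (Real.exp z * (1 / (z + t) - 1 + (z + t) / 2 - (z + t) ^ 2 / 6 + (z + t) ^ 3 / 24 -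
        (z + t) ^ 4 / 120 + (z + t) ^ 5 / 720)) t := by
    intro t ht
    have h0 : HasDerivAt (fun t : ℝ => z + t) 1 t := (hasDerivAt_id t).const_add z
    have := ((((((h0.log (hs t ht).ne').sub h0).add ((h0.pow 2).div_const 4)).sub
      ((h0.pow 3).div_const 18)).add ((h0.pow 4).div_const 96)).sub
      ((h0.pow 5).div_const 600)).add ((h0.pow 6).div_const 4320)
    have := this.const_mul (Real.exp z)
    unfold pf
    refine this.congr_deriv ?_
    push_cast
    ring
  have hc : ContinuousOn (fun t => Real.exp z * (1 / (z + t) - 1 + (z + t) / 2 -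
      (z + t) ^ 2 / 6 + (z + t) ^ 3 / 24 - (z + t) ^ 4 / 120 + (z + t) ^ 5 / 720))
      (Set.uIcc 0 a) := by
    have : ∀ t ∈ Set.uIcc 0 a, z + t ≠ 0 := fun t ht => (hs t ht).ne'
    fun_prop (disch := assumption)
  have e := intervalIntegral.integral_eq_sub_of_hasDerivAt hd hc.intervalIntegrable
  rw [h1, add_zero, ← mul_sub] at e
  rw [← e]
  refine intervalIntegral.integral_mono_on ha ?_ hc.intervalIntegrable ?_
  · have : ∀ t ∈ Set.uIcc 0 a, z + t ≠ 0 := fun t ht => (hs t ht).ne'
    apply ContinuousOn.intervalIntegrable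
    fun_prop (disch := assumption)
  · intro t ht
    have h2 : 0 < z + t := by linarith [ht.1]
    have h3 := exp_le h2.le (by linarith [ht.2])
    have e1 : Real.exp (-t) = Real.exp z * Real.exp (-(z + t)) := by
      rw [← Real.exp_add]; congr 1; ring
    rw [e1, mul_assoc]
    gcongr
    calc Real.exp (-(z + t)) * (1 / (z + t)) ≤ (1 - (z + t) + (z + t) ^ 2 / 2 - (z + t) ^ 3 / 6 +
          (z + t) ^ 4 / 24 - (z + t) ^ 5 / 120 + (z + t) ^ 6 / 720) * (1 / (z + t)) := by gcongr
      _ = _ := by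
        field_simp

theorem kz_le {z a : ℝ} (hz : 0 < z) (ha : 0 ≤ a) (h1 : z + a = 1) :
    kz z ≤ Real.exp z * (pf 1 - pf z) + Real.exp (-a) * (300 / 501) := by
  unfold kz
  rw [integral_ex]
  have hu : Ioi (0 : ℝ) = Ioc 0 a ∪ Ioi a := (Ioc_union_Ioi_eq_Ioi ha).symm
  have hi := int_inv hz
  rw [hu, setIntegral_union Ioc_disjoint_Ioi_same measurableSet_Ioi
    (hi.mono_set (by rw [hu]; exact subset_union_left))
    (hi.mono_set (by rw [hu]; exact subset_union_right))]
  exact add_le_add (first_le hz ha h1) (tail_le hz ha h1)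

theorem log_inv_le {x y : ℝ} (hx : 0 < x) (h : 1 / x ≤ Real.exp y) : -Real.log x ≤ y := by
  rw [← Real.log_inv, Real.log_le_iff_le_exp (by positivity), ← one_div]
  exact h

theorem exp_up {x : ℝ} (h0 : 0 ≤ x) (h1 : x ≤ 1) : Real.exp x ≤
    1 + x + x ^ 2 / 2 + x ^ 3 / 6 + x ^ 4 / 24 + x ^ 5 / 120 + x ^ 6 * 7 / 4320 := by
  have h := Real.exp_bound' h0 h1 (n := 6) (by norm_num)
  simp only [Finset.sum_range_succ, Finset.sum_range_zero, Nat.factorial] at h
  norm_num at h
  linarith

theorem exp_lo {x : ℝ} (h0 : 0 ≤ x) : 1 + x + x ^ 2 / 2 + x ^ 3 / 6 + x ^ 4 / 24 + x ^ 5 / 120 +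
    x ^ 6 / 720 + x ^ 7 / 5040 + x ^ 8 / 40320 + x ^ 9 / 362880 ≤ Real.exp x := by
  have h := Real.sum_le_exp_of_nonneg h0 10
  simp only [Finset.sum_range_succ, Finset.sum_range_zero, Nat.factorial] at h
  norm_num at h
  linarith

/-- `e^(x-1)` -/
theorem exp_sub {x u : ℝ} (h : Real.exp x ≤ u) : Real.exp (-(1 - x)) ≤ u * (100 / 271) := by
  have e : Real.exp (-(1 - x)) * Real.exp 1 = Real.exp x := by
    rw [← Real.exp_add]; congr 1; ring
  have h1 := Real.exp_one_gt_d9
  have h2 := Real.exp_pos (-(1 - x))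
  have h3 : Real.exp (-(1 - x)) * (271 / 100) ≤ u := by
    calc Real.exp (-(1 - x)) * (271 / 100) ≤ Real.exp (-(1 - x)) * Real.exp 1 := by
          gcongr
          linarith
      _ ≤ u := by rw [e]; exact h
  linarith

theorem num (x y u b : ℝ) (h0 : 0 < x) (h1 : x ≤ 1) (hy : 1 / x ≤ Real.exp y)
    (hu : Real.exp x ≤ u) (hb : u * (pf 1 + y + x - x ^ 2 / 4 + x ^ 3 / 18 - x ^ 4 / 96 +
      x ^ 5 / 600 - x ^ 6 / 4320) + u * (100 / 271) * (300 / 501) ≤ b)
    (hp : 0 ≤ pf 1 + y + x - x ^ 2 / 4 + x ^ 3 / 18 - x ^ 4 / 96 +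
      x ^ 5 / 600 - x ^ 6 / 4320) : kz x ≤ b := by
  refine (kz_le h0 (show 0 ≤ 1 - x by linarith) (by ring)).trans (le_trans ?_ hb)
  have hl := log_inv_le h0 hy
  have h2 := exp_sub hu
  gcongr ?_ + ?_ * _
  calc Real.exp x * (pf 1 - pf x) ≤ Real.exp x * (pf 1 + y + x - x ^ 2 / 4 + x ^ 3 / 18 -
        x ^ 4 / 96 + x ^ 5 / 600 - x ^ 6 / 4320) := by
        refine mul_le_mul_of_nonneg_left ?_ (Real.exp_pos _).le
        have : pf x = Real.log x - x + x ^ 2 / 4 - x ^ 3 / 18 + x ^ 4 / 96 - x ^ 5 / 600 +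
          x ^ 6 / 4320 := rfl
        rw [this]
        linarith
    _ ≤ _ := by gcongr

theorem pf1 : pf 1 = -1 + 1 / 4 - 1 / 18 + 1 / 96 - 1 / 600 + 1 / 4320 := by
  unfold pf
  rw [Real.log_one]
  norm_num

end KAP_

open KAP_ in
theorem kap_proof (hEXB : Stmt_EXB) : Stmt_KAP := by
  obtain ⟨-, -, -, -, hE, -⟩ := hEXB
  refine ⟨?_, ?_, ?_, ?_, ?_⟩
  · intro z hz
    refine ⟨(integrable_ex _).2 (int_inv hz), (integrable_ex _).2 (int_log hE hz), ?_⟩
    unfold kz
    rw [integral_ex, integral_ex]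
    exact ident hE hz
  · have := kz_le (z := 1) (a := 0) one_pos le_rfl (by norm_num)
    refine this.trans ?_
    rw [sub_self, mul_zero, neg_zero, Real.exp_zero]
    norm_num
  · refine num (3 / 10) (12041 / 10000) (13499 / 10000) _ (by norm_num) (by norm_num) ?_ ?_ ?_ ?_
    · refine le_trans ?_ (exp_lo (by norm_num))
      norm_num
    · refine (exp_up (by norm_num) (by norm_num)).trans ?_
      norm_num
    · rw [pf1]; norm_num
    · rw [pf1]; norm_num
  · refine num (3 / 20) (18972 / 10000) (11619 / 10000) _ (by norm_num) (by norm_num) ?_ ?_ ?_ ?_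
    · refine le_trans ?_ (exp_lo (by norm_num))
      norm_num
    · refine (exp_up (by norm_num) (by norm_num)).trans ?_
      norm_num
    · rw [pf1]; norm_num
    · rw [pf1]; norm_num
  · refine num (1 / 10) (23029 / 10000) (11052 / 10000) _ (by norm_num) (by norm_num) ?_ ?_ ?_ ?_
    · refine le_trans ?_ (exp_lo (by norm_num))
      norm_num
    · refine (exp_up (by norm_num) (by norm_num)).trans ?_
      norm_num
    · rw [pf1]; norm_num
    · rw [pf1]; norm_num

end PPW
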