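import Pool.Agent.PPW.Stmts
import Pool.Agent.PPX.KSR
import Pool.Agent.PPX.BTS

/-!
# Squad PPW, module KE2: the kernel again, with a bound for the second coefficient
-/

set_option autoImplicit false

namespace PPW

open MeasureTheory Set Filter Topology ProbabilityTheory
open PPI PPG PPX
open scoped Pointwise ENNReal

namespace KE2_

open PPX.KSR_

noncomputable section

theorem ser (hB : PPX.Stmt_BTS) (n : ℕ) (hn : 4 ≤ n) :
    ∃ c : ℕ → ℝ, (∀ k, 0 ≤ c k ∧ c k ≤ 2 * bt k) ∧ c 1 ≤ 1 / 2 + 2 / (n : ℝ) ∧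
    ∀ s : ℝ, s ^ 2 ≤ 1 → HasSum (fun k : ℕ => c k * s ^ (2 * k)) (kk n s) := by
  obtain ⟨hB1, hB2, hB3, hB4, hB5⟩ := hB
  have hn' : (4 : ℝ) ≤ n := by exact_mod_cast hn
  set A : ℝ := (n : ℝ) / 2 / Real.Gamma ((n : ℝ) / 2) ^ 2 with hA
  have hG : 0 < Real.Gamma ((n : ℝ) / 2) := Real.Gamma_pos_of_pos (by linarith)
  have hA0 : 0 < A := by
    rw [hA]
    positivity
  have hI0 : ∀ k, 0 ≤ ∫ y, HH n k y ∂mu3 := by
    intro k
    refine integral_nonneg_of_ae ?_
    filter_upwards [ae_pos] with y hy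
    exact HH_nonneg n k hy
  have hgb := gamma_bound hn
  have hAG : A * Real.Gamma (((n : ℝ) - 1) / 2) ^ 2 ≤ (n : ℝ) / ((n : ℝ) - 2) := by
    have h1 : A * Real.Gamma (((n : ℝ) - 1) / 2) ^ 2 ≤
        A * (2 / ((n : ℝ) - 2) * Real.Gamma ((n : ℝ) / 2) ^ 2) :=
      mul_le_mul_of_nonneg_left hgb hA0.le
    refine h1.trans (le_of_eq ?_)
    have h2 : (n : ℝ) - 2 ≠ 0 := by linarith
    rw [hA]
    field_simp
  have hc2 : ∀ k, A * ∫ y, HH n k y ∂mu3 ≤ 2 := by
    intro k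
    refine (mul_le_mul_of_nonneg_left (HH_val hn k) hA0.le).trans (hAG.trans ?_)
    rw [div_le_iff₀ (by linarith)]
    linarith
  have hc3 : ∀ m : ℕ, A * ∫ y, HH n (m + 2) y ∂mu3 ≤ 3 * n / (2 * ((m : ℝ) + 2) - 1) := by
    intro m
    refine (mul_le_mul_of_nonneg_left (HH_val' hn m) hA0.le).trans ?_
    have hm : (0 : ℝ) ≤ m := Nat.cast_nonneg m
    have e1 : A * (((n : ℝ) - 1) / 2 * Real.Gamma (((n : ℝ) - 1) / 2) ^ 2 / (m + 1)) =
        (A * Real.Gamma (((n : ℝ) - 1) / 2) ^ 2) * (((n : ℝ) - 1) / 2 / (m + 1)) := by ring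
    rw [e1]
    have h1 : (A * Real.Gamma (((n : ℝ) - 1) / 2) ^ 2) * (((n : ℝ) - 1) / 2 / (m + 1)) ≤
        (n : ℝ) / ((n : ℝ) - 2) * (((n : ℝ) - 1) / 2 / (m + 1)) :=
      mul_le_mul_of_nonneg_right hAG (div_nonneg (by linarith) (by linarith))
    refine h1.trans ?_
    have h2 : (n : ℝ) / ((n : ℝ) - 2) * (((n : ℝ) - 1) / 2 / (m + 1)) ≤ n / (m + 1) := by
      have h3 : (0 : ℝ) < (n : ℝ) - 2 := by linarith
      have h4 : (n : ℝ) / ((n : ℝ) - 2) * (((n : ℝ) - 1) / 2 / (m + 1)) =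
          (((n : ℝ) - 1) / (2 * ((n : ℝ) - 2))) * (n / (m + 1)) := by
        field_simp
      rw [h4]
      refine mul_le_of_le_one_left (by positivity) ?_
      rw [div_le_one (by linarith)]
      linarith
    refine h2.trans ?_
    rw [div_le_div_iff₀ (by linarith) (by linarith)]
    nlinarith
  refine ⟨fun k => bt k * (A * ∫ y, HH n k y ∂mu3), fun k => ⟨?_, ?_⟩, ?_,
    fun s hs => ?_⟩
  · exact mul_nonneg (hB3 k).1.le (mul_nonneg hA0.le (hI0 k))
  · have := mul_le_mul_of_nonneg_left (hc2 k) (hB3 k).1.le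
    linarith
  · have hb1 : bt 1 = 1 / 2 := by
      unfold bt
      norm_num [Nat.centralBinom]
    have h1 : A * ∫ y, HH n 1 y ∂mu3 ≤ (n : ℝ) / ((n : ℝ) - 2) :=
      (mul_le_mul_of_nonneg_left (HH_val hn 1) hA0.le).trans hAG
    have h2 : (n : ℝ) / ((n : ℝ) - 2) ≤ 1 + 4 / n := by
      rw [div_le_iff₀ (by linarith)]
      have h3 : (1 + 4 / (n : ℝ)) * ((n : ℝ) - 2) = n + 2 - 8 / n := by
        field_simp
        ring
      rw [h3]
      have h4 : 8 / (n : ℝ) ≤ 2 := by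
        rw [div_le_iff₀ (by linarith)]
        linarith
      linarith
    show bt 1 * (A * ∫ y, HH n 1 y ∂mu3) ≤ 1 / 2 + 2 / (n : ℝ)
    rw [hb1]
    have h5 : 4 / (n : ℝ) = 2 * (2 / n) := by ring
    linarith
  · have hec : Summable ec := by
      have := (hB2 1 zero_le_one le_rfl).summable
      simpa using this
    set F : ℕ → ℝ × ℝ × ℝ → ℝ := fun k y => bt k * A * s ^ (2 * k) * HH n k y with hF
    have hFint : ∀ k, Integrable (F k) mu3 := fun k => (HH_int hn k).const_mul _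
    have hs2 : ∀ k : ℕ, 0 ≤ s ^ (2 * k) := fun k => by rw [pow_mul]; positivity
    have hs3 : ∀ k : ℕ, s ^ (2 * k) ≤ 1 := fun k => by
      rw [pow_mul]; exact pow_le_one₀ (sq_nonneg s) hs
    have hFnorm : ∀ k, ∫ y, ‖F k y‖ ∂mu3 = bt k * (A * ∫ y, HH n k y ∂mu3) * s ^ (2 * k) := by
      intro k
      have h1 : ∫ y, ‖F k y‖ ∂mu3 = ∫ y, F k y ∂mu3 := by
        refine integral_congr_ae ?_
        filter_upwards [ae_pos] with y hy
        refine Real.norm_of_nonneg ?_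
        exact mul_nonneg (mul_nonneg (mul_nonneg (hB3 k).1.le hA0.le) (hs2 k))
          (HH_nonneg n k hy)
      rw [h1, hF, integral_const_mul]
      ring
    have hsum : Summable (fun k => ∫ y, ‖F k y‖ ∂mu3) := by
      rw [← summable_nat_add_iff 2]
      refine Summable.of_nonneg_of_le (fun m => integral_nonneg fun y => norm_nonneg _)
        (fun m => ?_) ((((summable_nat_add_iff 2).2 hec).mul_left (3 * (n : ℝ))))
      rw [hFnorm]
      have h1 : bt (m + 2) * (A * ∫ y, HH n (m + 2) y ∂mu3) ≤ 3 * n * ec (m + 2) := by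
        refine (mul_le_mul_of_nonneg_left (hc3 m) (hB3 (m + 2)).1.le).trans (le_of_eq ?_)
        unfold ec
        push_cast
        ring
      refine le_trans ?_ h1
      exact mul_le_of_le_one_right (mul_nonneg (hB3 _).1.le (mul_nonneg hA0.le (hI0 _))) (hs3 _)
    have key := hasSum_integral_of_summable_integral_norm hFint hsum
    have h1 : (fun k => ∫ y, F k y ∂mu3) =
        fun k => bt k * (A * ∫ y, HH n k y ∂mu3) * s ^ (2 * k) := by
      funext k
      rw [hF, integral_const_mul]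
      ring
    rw [h1] at key
    have h2 : ∫ y, ∑' k, F k y ∂mu3 = kk n s := by
      unfold kk
      rw [← mu3_eq, ← integral_const_mul]
      refine integral_congr_ae ?_
      filter_upwards [ae_pos] with y hy
      set lam : ℝ := y.2.1 * y.2.2 / ((y.1 + y.2.1) * (y.1 + y.2.2)) with hlam
      have hden : 0 < (y.1 + y.2.1) * (y.1 + y.2.2) := by
        obtain ⟨h1, h2, h3⟩ := hy
        positivity
      have hlam0 : 0 ≤ lam := by
        obtain ⟨h1, h2, h3⟩ := hy
        positivity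
      have hlam1 : lam < 1 := by
        obtain ⟨h1, h2, h3⟩ := hy
        rw [hlam, div_lt_one hden]
        nlinarith [mul_pos h1 h1, mul_pos h1 h2, mul_pos h1 h3]
      have ht0 : 0 ≤ lam * s ^ 2 := mul_nonneg hlam0 (sq_nonneg s)
      have ht1 : lam * s ^ 2 < 1 := lt_of_le_of_lt (mul_le_of_le_one_right hlam0 hs) hlam1
      have h3 := (hB1 (lam * s ^ 2) ht0 ht1).mul_left (A *
        (Real.exp (-(y.1 + y.2.1 + y.2.2)) * (y.2.1 * y.2.2) ^ ((n : ℝ) / 2 - 1) /
          √((y.1 + y.2.1) * (y.1 + y.2.2))))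
      have h4 : (fun k => F k y) = fun k => A *
        (Real.exp (-(y.1 + y.2.1 + y.2.2)) * (y.2.1 * y.2.2) ^ ((n : ℝ) / 2 - 1) /
          √((y.1 + y.2.1) * (y.1 + y.2.2))) * (bt k * (lam * s ^ 2) ^ k) := by
        funext k
        simp only [hF, HH]
        rw [mul_pow, ← pow_mul]
        ring
      rw [h4, h3.tsum_eq]
      have h5 : (y.1 + y.2.1) * (y.1 + y.2.2) - y.2.1 * y.2.2 * s ^ 2 =
          ((y.1 + y.2.1) * (y.1 + y.2.2)) * (1 - lam * s ^ 2) := by
        have h8 : ((y.1 + y.2.1) * (y.1 + y.2.2)) * lam = y.2.1 * y.2.2 := by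
          rw [hlam, mul_div_cancel₀ _ hden.ne']
        rw [mul_sub, mul_one, ← mul_assoc, h8]
      rw [h5, Real.sqrt_mul hden.le]
      have h6 : √((y.1 + y.2.1) * (y.1 + y.2.2)) ≠ 0 := (Real.sqrt_pos.2 hden).ne'
      have h7 : √(1 - lam * s ^ 2) ≠ 0 := (Real.sqrt_pos.2 (by linarith)).ne'
      rw [← hA]
      generalize Real.exp (-(y.1 + y.2.1 + y.2.2)) * (y.2.1 * y.2.2) ^ ((n : ℝ) / 2 - 1) = T
      rw [mul_assoc, div_mul_div_comm, mul_one]
    rw [h2] at key
    exact key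


/-- comparison of two power series with nonnegative bounded coefficients -/
theorem cmp (c d : ℕ → ℝ) (f : ℝ → ℝ) (hc : ∀ k, 0 ≤ c k) (hd : ∀ k, 0 ≤ d k ∧ d k ≤ 2)
    (h1 : ∀ s : ℝ, s ^ 2 ≤ 1 → HasSum (fun k : ℕ => c k * s ^ (2 * k)) (f s))
    (h2 : ∀ s : ℝ, s ^ 2 ≤ 1 → HasSum (fun k : ℕ => d k * s ^ (2 * k)) (f s)) :
    c 1 ≤ d 1 := by
  have hc0 : c 0 = f 0 := by
    have h := h1 0 (by norm_num)
    have h' : HasSum (fun k : ℕ => c k * (0 : ℝ) ^ (2 * k)) (c 0 * (0 : ℝ) ^ (2 * 0)) :=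
      hasSum_single 0 fun k hk => by
        have : 2 * k ≠ 0 := by omega
        simp [this]
    have := h'.unique h
    simpa using this
  have hd0 : d 0 = f 0 := by
    have h := h2 0 (by norm_num)
    have h' : HasSum (fun k : ℕ => d k * (0 : ℝ) ^ (2 * k)) (d 0 * (0 : ℝ) ^ (2 * 0)) :=
      hasSum_single 0 fun k hk => by
        have : 2 * k ≠ 0 := by omega
        simp [this]
    have := h'.unique h
    simpa using this
  have key : ∀ r : ℝ, 0 < r → r ≤ 1 / 2 → c 1 ≤ d 1 + 4 * r := by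
    intro r hr hr2
    have hs2 : √r ^ 2 = r := Real.sq_sqrt hr.le
    have hs1 : √r ^ 2 ≤ 1 := by rw [hs2]; linarith
    have a1 := h1 (√r) hs1
    have a2 := h2 (√r) hs1
    have b1 : ∀ k : ℕ, c k * √r ^ (2 * k) = c k * r ^ k := by
      intro k
      rw [pow_mul, hs2]
    have b2 : ∀ k : ℕ, d k * √r ^ (2 * k) = d k * r ^ k := by
      intro k
      rw [pow_mul, hs2]
    simp only [b1] at a1
    simp only [b2] at a2
    have e1 : ∑ k ∈ Finset.range 2, c k * r ^ k ≤ f (√r) :=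
      sum_le_hasSum _ (fun k _ => mul_nonneg (hc k) (by positivity)) a1
    have e2 := (hasSum_nat_add_iff' (f := fun k : ℕ => d k * r ^ k) 2).2 a2
    have e3 := (hasSum_geometric_of_lt_one hr.le (by linarith : r < 1)).mul_left (2 * r ^ 2)
    have e4 := hasSum_le (fun j => ?_) e2 e3
    · have e5 : 2 * r ^ 2 * (1 - r)⁻¹ ≤ 4 * r ^ 2 := by
        have : (1 - r)⁻¹ ≤ 2 := by
          rw [inv_le_comm₀ (by linarith) (by norm_num)]
          linarith
        nlinarith [sq_nonneg r]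
      simp only [Finset.sum_range_succ, Finset.sum_range_zero, pow_zero, pow_one, mul_one,
        zero_add] at e1 e4
      rw [hc0] at e1
      rw [hd0] at e4
      have e6 : c 1 * r ≤ (d 1 + 4 * r) * r := by nlinarith
      exact le_of_mul_le_mul_right e6 hr
    · show d (j + 2) * r ^ (j + 2) ≤ 2 * r ^ 2 * r ^ j
      have : r ^ (j + 2) = r ^ 2 * r ^ j := by ring
      rw [this]
      have h3 : 0 ≤ r ^ 2 * r ^ j := by positivity
      nlinarith [(hd (j + 2)).2]
  by_contra hcon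
  push Not at hcon
  have h := key (min (1 / 2) ((c 1 - d 1) / 8)) (lt_min (by norm_num) (by linarith))
    (min_le_left _ _)
  have h' := min_le_right (1 / 2) ((c 1 - d 1) / 8)
  linarith

end

end KE2_

open KE2_ in
theorem ke2_proof (hK : PPX.Stmt_KEN) : Stmt_KE2 := by
  intro n hn
  obtain ⟨c, h0, -, h2, h3, h4, h5⟩ := hK n hn
  obtain ⟨d, g0, g1, g2⟩ := ser bts_proof n hn
  refine ⟨c, h0, ?_, h2, h3, h4, h5⟩
  refine (cmp c d (kk n) (fun k => (h0 k).1) (fun k => ⟨(g0 k).1, ?_⟩) h2 g2).trans g1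
  have := (g0 k).2
  have := (bts_proof.2.2.1 k).2.1
  linarith

end PPW
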