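import Pool.Agent.PPW.Stmts

/-!
Module LAB: the law of the conditional mean.
-/

set_option autoImplicit false

namespace PPW

open MeasureTheory Set Filter Topology ProbabilityTheory
open PPI PPG PPX
open scoped Pointwise ENNReal

namespace LAB_

theorem prob_ga1 : IsProbabilityMeasure ga1 := by
  unfold ga1
  infer_instance

theorem prob_gam (n : ℕ) : IsProbabilityMeasure (gam n) := by
  unfold gam
  infer_instance

theorem meas_sg : Measurable sg := by
  unfold sg
  fun_prop

theorem law (hGLA : Stmt_GLA) (n : ℕ) (w : EE n) :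
    (gam n).map (fun y => inner ℝ y w) = ga1.map (fun v : ℝ => ‖w‖ * v) := by
  have hm1 : Measurable fun y : EE n => inner ℝ y w := by fun_prop
  have hm2 : Measurable fun v : ℝ => ‖w‖ * v := by fun_prop
  refine Measure.ext fun s hs => ?_
  have h := hGLA.1 n w (s.indicator 1) (measurable_one.indicator hs)
  rw [Measure.map_apply hm1 hs, Measure.map_apply hm2 hs]
  have e1 : ∀ y : EE n, s.indicator (1 : ℝ → ℝ≥0∞) (inner ℝ y w) =
      ((fun y : EE n => inner ℝ y w) ⁻¹' s).indicator 1 y := fun y => rfl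
  have e2 : ∀ v : ℝ, s.indicator (1 : ℝ → ℝ≥0∞) (‖w‖ * v) =
      ((fun v : ℝ => ‖w‖ * v) ⁻¹' s).indicator 1 v := fun v => rfl
  simp_rw [e1, e2] at h
  rwa [lintegral_indicator_one (hm1 hs), lintegral_indicator_one (hm2 hs)] at h

/-- the parametric integral -/
noncomputable def G (c : ℝ → ℝ) (κ t r : ℝ) : ℝ :=
  √(Real.pi / 2) * sg t * ∫ v, c (sg t * (r + κ * v)) ∂ga1

theorem meas_G (c : ℝ → ℝ) (κ : ℝ) (hc : Continuous c) :
    Measurable fun z : ℝ × ℝ => G c κ z.1 z.2 := by
  have := prob_ga1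
  have h1 : StronglyMeasurable fun q : (ℝ × ℝ) × ℝ => c (sg q.1.1 * (q.1.2 + κ * q.2)) := by
    refine (hc.measurable.comp ?_).stronglyMeasurable
    exact (meas_sg.comp (measurable_fst.comp measurable_fst)).mul
      ((measurable_snd.comp measurable_fst).add (measurable_snd.const_mul κ))
  have h2 := h1.integral_prod_right' (ν := ga1)
  have h3 : Measurable fun z : ℝ × ℝ => ∫ v, c (sg z.1 * (z.2 + κ * v)) ∂ga1 := h2.measurable
  exact ((meas_sg.comp measurable_fst).const_mul _).mul h3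

end LAB_

open LAB_ in
theorem lab_proof (hGLA : Stmt_GLA) : Stmt_LAB := by
  intro n m c P w hP hw hc _hb
  have i1 := prob_ga1
  have i2 := prob_gam n
  set κ : ℝ := √(1 - ‖P w‖ ^ 2) with hκ
  have hnorm : ‖w - P w‖ = κ := by
    have h1 : ‖w - P w‖ ^ 2 = 1 - ‖P w‖ ^ 2 := by
      rw [norm_sub_sq_real, hw]
      have h2 : inner ℝ w (P w) = ‖P w‖ ^ 2 := by
        rw [← real_inner_self_eq_norm_sq, hP.sym, hP.idem]
      rw [h2]
      ring
    rw [hκ, ← h1, Real.sqrt_sq (norm_nonneg _)]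
  have hin : ∀ x y : EE n, inner ℝ (P x + (y - P y)) w = inner ℝ x (P w) + inner ℝ y (w - P w) := by
    intro x y
    rw [inner_add_left, inner_sub_left, inner_sub_right, hP.sym x w, hP.sym y w]
  have hab : ∀ z, ab c P w z = G c κ z.1 (inner ℝ z.2 (P w)) := by
    intro z
    rw [ab, G]
    congr 1
    simp_rw [hin]
    have hm1 : Measurable fun y : EE n => inner ℝ y (w - P w) := by fun_prop
    have hm2 : Measurable fun v : ℝ => ‖w - P w‖ * v := by fun_prop
    have hcm : Continuous fun r : ℝ => c (sg z.1 * (inner ℝ z.2 (P w) + r)) := by fun_prop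
    have e1 := integral_map (μ := gam n) hm1.aemeasurable
      (f := fun r : ℝ => c (sg z.1 * (inner ℝ z.2 (P w) + r))) hcm.aestronglyMeasurable
    have e2 := integral_map (μ := ga1) hm2.aemeasurable
      (f := fun r : ℝ => c (sg z.1 * (inner ℝ z.2 (P w) + r))) hcm.aestronglyMeasurable
    rw [← e1, law hGLA n (w - P w), e2, hnorm]
  have hmp : Measurable fun z : ℝ × EE n => (z.1, inner ℝ z.2 (P w)) := by fun_prop
  have hmG := meas_G c κ hc
  have hmab : Measurable (ab c P w) := by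
    have h1 : ab c P w = (fun z : ℝ × ℝ => G c κ z.1 z.2) ∘
        fun z : ℝ × EE n => (z.1, inner ℝ z.2 (P w)) := by
      funext z
      exact hab z
    rw [h1]
    exact hmG.comp hmp
  have hzb : ∀ t u, zb c (‖P w‖ ^ 2) t u = G c κ t (‖P w‖ * u) := by
    intro t u
    rw [zb, G, Real.sqrt_sq (norm_nonneg _)]
  have hmzb : Measurable (fun z : ℝ × ℝ => zb c (‖P w‖ ^ 2) z.1 z.2) := by
    have h1 : (fun z : ℝ × ℝ => zb c (‖P w‖ ^ 2) z.1 z.2) = (fun z : ℝ × ℝ => G c κ z.1 z.2) ∘
        fun z : ℝ × ℝ => (z.1, ‖P w‖ * z.2) := by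
      funext z
      exact hzb z.1 z.2
    rw [h1]
    exact hmG.comp (by fun_prop)
  refine ⟨hab, hmab, hmzb, fun F hF => ?_⟩
  have hFG : Measurable fun z : ℝ × ℝ => F (G c κ z.1 z.2) := hF.comp hmG
  have hm1 : Measurable fun z : ℝ × EE n => F (ab c P w z) := hF.comp hmab
  have hm2 : Measurable fun z : ℝ × ℝ => F (zb c (‖P w‖ ^ 2) z.1 z.2) := hF.comp hmzb
  rw [pm, lintegral_prod _ hm1.aemeasurable, lintegral_prod _ hm2.aemeasurable]
  refine lintegral_congr fun t => ?_
  have h1 := hGLA.1 n (P w) (fun r => F (G c κ t r))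
    (hFG.comp (measurable_const.prodMk measurable_id))
  simp only [hab, hzb]
  exact h1

end PPW
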