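import Pool.Agent.PPW.Stmts

/-!
# Squad PPW: LMB
-/

set_option autoImplicit false

namespace PPW

open MeasureTheory Set Filter Topology ProbabilityTheory
open PPI PPG PPX
open scoped Pointwise ENNReal

noncomputable section

namespace LMB_

variable {n m : ℕ}

theorem pj_apply (e : Fin m → EE n) (x : EE n) :
    pj e x = ∑ j, (inner ℝ (e j) x : ℝ) • e j := by
  simp [pj, ContinuousLinearMap.sum_apply]

theorem inner_e (e : Fin m → EE n) (he : Orthonormal ℝ e) (x : EE n) (k : Fin m) :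
    (inner ℝ (e k) (pj e x) : ℝ) = inner ℝ (e k) x := by
  rw [pj_apply, inner_sum]
  simp_rw [inner_smul_right]
  rw [orthonormal_iff_ite] at he
  simp [he]

theorem inner_pj (e : Fin m → EE n) (x y : EE n) :
    (inner ℝ (pj e x) y : ℝ) = ∑ j, (inner ℝ (e j) x : ℝ) * inner ℝ (e j) y := by
  rw [pj_apply, sum_inner]
  exact Finset.sum_congr rfl fun j _ => by rw [real_inner_smul_left]

theorem pj_sym (e : Fin m → EE n) (x y : EE n) :
    (inner ℝ (pj e x) y : ℝ) = inner ℝ x (pj e y) := by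
  rw [inner_pj, real_inner_comm, inner_pj]
  exact Finset.sum_congr rfl fun j _ => by ring

theorem pj_idem (e : Fin m → EE n) (he : Orthonormal ℝ e) (x : EE n) :
    pj e (pj e x) = pj e x := by
  rw [pj_apply e (pj e x)]
  simp_rw [inner_e e he]
  rw [pj_apply]

theorem norm_pj (e : Fin m → EE n) (he : Orthonormal ℝ e) (x : EE n) :
    ‖pj e x‖ ^ 2 = ∑ j, (inner ℝ (e j) x : ℝ) ^ 2 := by
  rw [← real_inner_self_eq_norm_sq, inner_pj]
  refine Finset.sum_congr rfl fun j _ => ?_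
  rw [inner_e e he]; ring

theorem pr (e : Fin m → EE n) (he : Orthonormal ℝ e) : PR m (pj e) := by
  refine ⟨pj_sym e, pj_idem e he, ?_⟩
  have h1 : ∀ k : Fin n, ‖pj e (EuclideanSpace.single k 1)‖ ^ 2 = ∑ j, (e j k) ^ 2 := by
    intro k
    rw [norm_pj e he]
    refine Finset.sum_congr rfl fun j _ => ?_
    rw [EuclideanSpace.inner_single_right]
    simp
  rw [Finset.sum_congr rfl fun k _ => h1 k, Finset.sum_comm]
  have h2 : ∀ j : Fin m, ∑ k, (e j k) ^ 2 = (1 : ℝ) := by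
    intro j
    have h := he.1 j
    have h3 : ‖e j‖ ^ 2 = ∑ k, (e j k) ^ 2 := by
      rw [EuclideanSpace.norm_sq_eq]
      exact Finset.sum_congr rfl fun k _ => by rw [Real.norm_eq_abs, sq_abs]
    rw [← h3, h]; norm_num
  rw [Finset.sum_congr rfl fun j _ => h2 j]
  simp

/-- the orthogonal part -/
theorem perp (e : Fin m → EE n) (he : Orthonormal ℝ e) (v : EE n) :
    (∀ j, (inner ℝ (e j) (v - pj e v) : ℝ) = 0) ∧
      ‖pj e v‖ ^ 2 + ‖v - pj e v‖ ^ 2 = ‖v‖ ^ 2 := by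
  refine ⟨fun j => by rw [inner_sub_right, inner_e e he, sub_self], ?_⟩
  have h1 : (inner ℝ (pj e v) (v - pj e v) : ℝ) = 0 := by
    rw [inner_sub_right, real_inner_self_eq_norm_sq, norm_pj e he, inner_pj]
    simp only [sq, sub_self]
  have h2 : v = pj e v + (v - pj e v) := by abel
  have h3 := norm_add_sq_real (pj e v) (v - pj e v)
  rw [← h2, h1] at h3
  linarith

/-- the fourth moment in the orthogonal complement -/
theorem four {ι : Type} [Fintype ι] (p : ι → ℝ) (w : ι → EE n) (e : Fin m → EE n) (q : ℝ)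
    (hq : 0 ≤ q)
    (h : ∀ v : EE n, ‖v‖ = 1 → (∀ j, inner ℝ (e j) v = (0 : ℝ)) →
        (n : ℝ) * ∑ i, p i * (inner ℝ (w i) v) ^ 4 ≤ q) (u : EE n)
    (hu : ∀ j, inner ℝ (e j) u = (0 : ℝ)) :
    (n : ℝ) * ∑ i, p i * (inner ℝ (w i) u) ^ 4 ≤ q * ‖u‖ ^ 4 := by
  rcases eq_or_ne u 0 with rfl | h0
  · simp
  · have hn : 0 < ‖u‖ := norm_pos_iff.mpr h0
    have h1 := h (‖u‖⁻¹ • u) (by rw [norm_smul, norm_inv, norm_norm, inv_mul_cancel₀ hn.ne'])
      (fun j => by rw [real_inner_smul_right, hu j, mul_zero])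
    have h2 : (n : ℝ) * ∑ i, p i * (inner ℝ (w i) u) ^ 4 =
        ‖u‖ ^ 4 * ((n : ℝ) * ∑ i, p i * (inner ℝ (w i) (‖u‖⁻¹ • u)) ^ 4) := by
      rw [mul_left_comm, Finset.mul_sum (a := ‖u‖ ^ 4)]
      refine congrArg _ (Finset.sum_congr rfl fun i _ => ?_)
      rw [real_inner_smul_right, mul_pow, inv_pow]
      field_simp
    rw [h2, mul_comm]
    exact mul_le_mul_of_nonneg_right h1 (by positivity)

end LMB_

open LMB_ in
theorem lmb_proof : Stmt_LMB := by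
  intro n m ι _ p w e q η hn hIS he hq hη h
  have hp0 : ∀ i, 0 ≤ p i := fun i => (hIS.ppos i).le
  have hn0 : (0 : ℝ) ≤ n := Nat.cast_nonneg n
  refine ⟨pr e he, ?_, ?_⟩
  · intro S v
    obtain ⟨u, hu⟩ : ∃ u, u = v - pj e v := ⟨_, rfl⟩
    obtain ⟨h1, h2⟩ := perp e he v
    rw [← hu] at h1 h2
    have h3 := four p w e q hq h u h1
    have h4 : ∀ i, (inner ℝ (w i - pj e (w i)) v : ℝ) = inner ℝ (w i) u := by
      intro i
      rw [inner_sub_left, pj_sym, hu, inner_sub_right]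
    simp_rw [h4]
    have h5 : (∑ i ∈ S, p i * (inner ℝ (w i) u : ℝ) ^ 2) ^ 2 ≤
        (∑ i ∈ S, p i) * ∑ i ∈ S, p i * (inner ℝ (w i) u : ℝ) ^ 4 := by
      have h6 := Finset.sum_mul_sq_le_sq_mul_sq S (fun i => √(p i))
        (fun i => √(p i) * (inner ℝ (w i) u : ℝ) ^ 2)
      have h7 : ∀ i, √(p i) * (√(p i) * (inner ℝ (w i) u : ℝ) ^ 2) =
          p i * (inner ℝ (w i) u : ℝ) ^ 2 := by
        intro i; rw [← mul_assoc, Real.mul_self_sqrt (hp0 i)]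
      have h8 : ∀ i, √(p i) ^ 2 = p i := fun i => Real.sq_sqrt (hp0 i)
      have h9 : ∀ i, (√(p i) * (inner ℝ (w i) u : ℝ) ^ 2) ^ 2 =
          p i * (inner ℝ (w i) u : ℝ) ^ 4 := by
        intro i; rw [mul_pow, h8, ← pow_mul]
      simp_rw [h7, h8, h9] at h6
      exact h6
    have h10 : ∑ i ∈ S, p i * (inner ℝ (w i) u : ℝ) ^ 4 ≤
        ∑ i, p i * (inner ℝ (w i) u : ℝ) ^ 4 :=
      Finset.sum_le_sum_of_subset_of_nonneg (Finset.subset_univ S) fun i _ _ => by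
        have := hp0 i; positivity
    have hS0 : 0 ≤ ∑ i ∈ S, p i := Finset.sum_nonneg fun i _ => hp0 i
    have h11 : ((n : ℝ) * ∑ i ∈ S, p i * (inner ℝ (w i) u : ℝ) ^ 2) ^ 2 ≤
        (n * (∑ i ∈ S, p i) * q) * (‖u‖ ^ 2) ^ 2 := by
      calc ((n : ℝ) * ∑ i ∈ S, p i * (inner ℝ (w i) u : ℝ) ^ 2) ^ 2
          = (n : ℝ) ^ 2 * (∑ i ∈ S, p i * (inner ℝ (w i) u : ℝ) ^ 2) ^ 2 := by ring
        _ ≤ (n : ℝ) ^ 2 * ((∑ i ∈ S, p i) * ∑ i, p i * (inner ℝ (w i) u : ℝ) ^ 4) := by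
          refine mul_le_mul_of_nonneg_left (h5.trans ?_) (by positivity)
          exact mul_le_mul_of_nonneg_left h10 hS0
        _ = (n * (∑ i ∈ S, p i)) * (n * ∑ i, p i * (inner ℝ (w i) u : ℝ) ^ 4) := by ring
        _ ≤ (n * (∑ i ∈ S, p i)) * (q * ‖u‖ ^ 4) :=
          mul_le_mul_of_nonneg_left h3 (by positivity)
        _ = (n * (∑ i ∈ S, p i) * q) * (‖u‖ ^ 2) ^ 2 := by ring
    have h12 : (n : ℝ) * ∑ i ∈ S, p i * (inner ℝ (w i) u : ℝ) ^ 2 ≤
        √(n * (∑ i ∈ S, p i) * q) * ‖u‖ ^ 2 := by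
      refine le_of_sq_le_sq ?_ (by positivity)
      have h13 : (√(n * (∑ i ∈ S, p i) * q) * ‖u‖ ^ 2) ^ 2 =
          (n * (∑ i ∈ S, p i) * q) * (‖u‖ ^ 2) ^ 2 := by
        rw [mul_pow (√ _), Real.sq_sqrt (by positivity)]
      rw [h13]
      exact h11
    refine h12.trans (mul_le_mul_of_nonneg_left ?_ (Real.sqrt_nonneg _))
    nlinarith [sq_nonneg ‖pj e v‖]
  · intro g hg v hv
    obtain ⟨u, hu⟩ : ∃ u, u = v - pj e v := ⟨_, rfl⟩
    obtain ⟨h1, h2⟩ := perp e he v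
    rw [← hu] at h1 h2
    have h3 := four p w e q hq h u h1
    have hu1 : ‖u‖ ^ 4 ≤ 1 := by
      have : ‖u‖ ^ 2 ≤ 1 := by
        rw [hv] at h2; nlinarith [sq_nonneg ‖pj e v‖]
      nlinarith [sq_nonneg ‖u‖]
    have h4 : ∀ i ∈ g, p i * (inner ℝ (w i) v : ℝ) ^ 4 ≤
        8 * (η * (p i * (inner ℝ (w i) (pj e v) : ℝ) ^ 2) +
          p i * (inner ℝ (w i) u : ℝ) ^ 4) := by
      intro i hi
      obtain ⟨a, ha⟩ : ∃ a : ℝ, a = inner ℝ (w i) (pj e v) := ⟨_, rfl⟩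
      obtain ⟨b, hb⟩ : ∃ b : ℝ, b = inner ℝ (w i) u := ⟨_, rfl⟩
      have h5 : (inner ℝ (w i) v : ℝ) = a + b := by
        rw [ha, hb, hu, inner_sub_right]; ring
      have h6 : a ^ 2 ≤ η := by
        have h7 : a = inner ℝ (pj e (w i)) v := by rw [ha, pj_sym]
        have h8 := abs_real_inner_le_norm (pj e (w i)) v
        rw [hv, mul_one, ← h7] at h8
        have h9 : a ^ 2 ≤ ‖pj e (w i)‖ ^ 2 := by
          rw [← sq_abs a]
          exact pow_le_pow_left₀ (abs_nonneg _) h8 2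
        exact h9.trans (hg i hi)
      have h10 : (a + b) ^ 4 ≤ 8 * (a ^ 4 + b ^ 4) := by
        nlinarith [sq_nonneg (a - b), sq_nonneg (a ^ 2 - b ^ 2), sq_nonneg (a * b),
          mul_self_nonneg (a ^ 2 - b ^ 2), sq_nonneg (a + b), mul_nonneg (sq_nonneg (a - b))
          (sq_nonneg (a + b)), mul_nonneg (sq_nonneg (a - b)) (sq_nonneg (a - b)),
          mul_nonneg (sq_nonneg (a - b)) (sq_nonneg a), mul_nonneg (sq_nonneg (a - b)) (sq_nonneg b)]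
      have h11 : a ^ 4 ≤ η * a ^ 2 := by
        calc a ^ 4 = a ^ 2 * a ^ 2 := by ring
          _ ≤ η * a ^ 2 := mul_le_mul_of_nonneg_right h6 (sq_nonneg a)
      rw [h5, ← ha, ← hb]
      calc p i * (a + b) ^ 4 ≤ p i * (8 * (η * a ^ 2 + b ^ 4)) :=
            mul_le_mul_of_nonneg_left (by linarith) (hp0 i)
        _ = 8 * (η * (p i * a ^ 2) + p i * b ^ 4) := by ring
    have h5 : (n : ℝ) * ∑ i ∈ g, p i * (inner ℝ (w i) v : ℝ) ^ 4 ≤
        8 * (η * ((n : ℝ) * ∑ i ∈ g, p i * (inner ℝ (w i) (pj e v) : ℝ) ^ 2) +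
          (n : ℝ) * ∑ i ∈ g, p i * (inner ℝ (w i) u : ℝ) ^ 4) := by
      calc (n : ℝ) * ∑ i ∈ g, p i * (inner ℝ (w i) v : ℝ) ^ 4
          ≤ (n : ℝ) * ∑ i ∈ g, 8 * (η * (p i * (inner ℝ (w i) (pj e v) : ℝ) ^ 2) +
          p i * (inner ℝ (w i) u : ℝ) ^ 4) :=
            mul_le_mul_of_nonneg_left (Finset.sum_le_sum h4) hn0
        _ = _ := by
          rw [← Finset.mul_sum, Finset.sum_add_distrib, ← Finset.mul_sum]; ring
    have h6 : (n : ℝ) * ∑ i ∈ g, p i * (inner ℝ (w i) (pj e v) : ℝ) ^ 2 ≤ 1 := by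
      calc (n : ℝ) * ∑ i ∈ g, p i * (inner ℝ (w i) (pj e v) : ℝ) ^ 2
          ≤ (n : ℝ) * ∑ i, p i * (inner ℝ (w i) (pj e v) : ℝ) ^ 2 := by
            refine mul_le_mul_of_nonneg_left ?_ hn0
            exact Finset.sum_le_sum_of_subset_of_nonneg (Finset.subset_univ g) fun i _ _ => by
              have := hp0 i; positivity
        _ = ‖pj e v‖ ^ 2 := hIS.iso _
        _ ≤ 1 := by rw [hv] at h2; nlinarith [sq_nonneg ‖u‖]
    have h7 : (n : ℝ) * ∑ i ∈ g, p i * (inner ℝ (w i) u : ℝ) ^ 4 ≤ q := by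
      calc (n : ℝ) * ∑ i ∈ g, p i * (inner ℝ (w i) u : ℝ) ^ 4
          ≤ (n : ℝ) * ∑ i, p i * (inner ℝ (w i) u : ℝ) ^ 4 := by
            refine mul_le_mul_of_nonneg_left ?_ hn0
            exact Finset.sum_le_sum_of_subset_of_nonneg (Finset.subset_univ g) fun i _ _ => by
              have := hp0 i; positivity
        _ ≤ q * ‖u‖ ^ 4 := h3
        _ ≤ q * 1 := mul_le_mul_of_nonneg_left hu1 hq
        _ = q := mul_one q
    calc (n : ℝ) * ∑ i ∈ g, p i * (inner ℝ (w i) v : ℝ) ^ 4 ≤ _ := h5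
      _ ≤ 8 * (η * 1 + q) := by
        have := mul_le_mul_of_nonneg_left h6 hη
        linarith
      _ = 8 * (η + q) := by ring

end

end PPW
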