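import Pool.Agent.PPW.Stmts

/-!
MD0: the first correction increases the determinant.
-/

set_option autoImplicit false

namespace PPW

open MeasureTheory Set Filter Topology ProbabilityTheory
open PPI PPG PPX
open scoped Pointwise ENNReal

namespace MD0_

open Matrix

variable {n : ℕ} {ι : Type}

lemma det1 (u v : Fin n → ℝ) : (1 + vecMulVec u v).det = 1 + v ⬝ᵥ u := by
  rw [vecMulVec_eq Unit, det_one_add_replicateCol_mul_replicateRow]

lemma det_rank1 {A : Matrix (Fin n) (Fin n) ℝ} (hA : A.PosSemidef) (hdet : A.det ≠ 0)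
    (z : Fin n → ℝ) {c : ℝ} (hc : 0 ≤ c) : A.det ≤ (A + c • vecMulVec z z).det := by
  have hu : IsUnit A.det := isUnit_iff_ne_zero.2 hdet
  have e : A + c • vecMulVec z z = A * (1 + vecMulVec (A⁻¹ *ᵥ (c • z)) z) := by
    rw [Matrix.mul_add, Matrix.mul_one, mul_vecMulVec, mulVec_mulVec, Matrix.mul_nonsing_inv A hu,
      one_mulVec, smul_vecMulVec]
  rw [e, det_mul, det1]
  have h1 : 0 ≤ z ⬝ᵥ (A⁻¹ *ᵥ z) := by
    have := hA.inv.dotProduct_mulVec_nonneg z
    simpa using this
  have h2 : z ⬝ᵥ A⁻¹ *ᵥ (c • z) = c * (z ⬝ᵥ (A⁻¹ *ᵥ z)) := by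
    rw [mulVec_smul, dotProduct_smul, smul_eq_mul]
  rw [h2]
  have h3 := hA.det_nonneg
  nlinarith [mul_nonneg h3 (mul_nonneg hc h1)]

lemma sm_quad (S : Finset ι) (α : ι → ℝ) (u : ι → EE n) (x : Fin n → ℝ) :
    x ⬝ᵥ (sm S α u *ᵥ x) = ∑ i ∈ S, α i * (∑ k, u i k * x k) ^ 2 := by
  simp only [dotProduct, mulVec, sm, Matrix.of_apply, Finset.sum_mul, Finset.mul_sum]
  have : ∀ i, α i * (∑ k, u i k * x k) ^ 2 =
      ∑ k, ∑ l, x k * (α i * (u i k * u i l) * x l) := by
    intro i
    rw [sq, Finset.sum_mul_sum, Finset.mul_sum]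
    apply Finset.sum_congr rfl
    intro k _
    rw [Finset.mul_sum]
    exact Finset.sum_congr rfl fun l _ => by ring
  simp only [this]
  symm
  rw [Finset.sum_comm]
  apply Finset.sum_congr rfl
  intro k _
  rw [Finset.sum_comm]

lemma sm_symm (S : Finset ι) (α : ι → ℝ) (u : ι → EE n) : (sm S α u)ᵀ = sm S α u := by
  ext k l
  simp only [Matrix.transpose_apply, sm, Matrix.of_apply]
  exact Finset.sum_congr rfl fun i _ => by ring

lemma sm_psd (S : Finset ι) (α : ι → ℝ) (u : ι → EE n) (hα : ∀ i ∈ S, 0 ≤ α i) :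
    (sm S α u).PosSemidef := by
  apply PosSemidef.of_dotProduct_mulVec_nonneg
  · rw [IsHermitian, conjTranspose_eq_transpose_of_trivial]
    exact sm_symm S α u
  · intro x
    rw [star_trivial, sm_quad]
    exact Finset.sum_nonneg fun i hi => mul_nonneg (hα i hi) (sq_nonneg _)

/-- the congruence -/
lemma congr_ {N : Matrix (Fin n) (Fin n) ℝ} (hN : Nᵀ = N) {z k v : Fin n → ℝ} (hv : N *ᵥ v = k)
    (hz : N *ᵥ z = z) (hkz : k ⬝ᵥ z = 0) :
    (1 + vecMulVec v z)ᵀ * N * (1 + vecMulVec v z) =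
      N + vecMulVec k z + vecMulVec z k + (v ⬝ᵥ k) • vecMulVec z z ∧
    (1 + vecMulVec v z).det = 1 := by
  have e1 : v ᵥ* N = k := by rw [← hv, ← vecMul_transpose, hN]
  have hvz : z ⬝ᵥ v = 0 := by
    have h1 : z ⬝ᵥ v = (z ᵥ* N) ⬝ᵥ v := by rw [← hN, vecMul_transpose, hz]
    rw [h1, ← dotProduct_mulVec, hv, dotProduct_comm, hkz]
  constructor
  · have e2 : (vecMulVec v z)ᵀ = vecMulVec z v := by
      ext i j
      simp [vecMulVec_apply, mul_comm]
    rw [transpose_add, transpose_one, e2, Matrix.add_mul, Matrix.one_mul, Matrix.mul_add,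
      Matrix.mul_one, Matrix.add_mul, mul_vecMulVec, vecMulVec_mul, e1, hv,
      vecMulVec_mul_vecMulVec, dotProduct_comm k v]
    rw [vecMulVec_smul]
    abel
  · rw [det1, hvz, add_zero]

end MD0_

open MD0_ Matrix in
theorem md0_proof : Stmt_MD0 := by
  intro n m ι _ S μ α y h P z hP hμ hPh hPz hpsd
  set N := 1 - sm S μ h + sm S α h with hNdef
  set kv : Fin n → ℝ := fun l => ∑ i ∈ S, α i * y i * h i l with hkv
  set zv : Fin n → ℝ := fun l => z l with hzv
  set φ := ∑ i ∈ S, α i * y i ^ 2 with hφ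
  have hα : ∀ i ∈ S, 0 ≤ α i := fun i hi => (hμ i hi).2
  have hhz : ∀ i ∈ S, ∑ l, h i l * zv l = 0 := by
    intro i hi
    have h1 : inner ℝ z (h i) = 0 := by
      rw [← hPh i hi, ← hP.sym, hPz, inner_zero_left]
    rw [PiLp.inner_apply] at h1
    simpa [hzv] using h1
  have hM : (1 - sm S μ h + sm S α (fun i => h i + y i • z)) =
      N + vecMulVec kv zv + vecMulVec zv kv + φ • vecMulVec zv zv := by
    ext k l
    simp only [hNdef, sm, Matrix.add_apply, Matrix.sub_apply, Matrix.of_apply, vecMulVec_apply,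
      Matrix.smul_apply, smul_eq_mul, hkv, hzv, hφ, PiLp.add_apply, PiLp.smul_apply,
      Finset.sum_mul, Finset.mul_sum]
    have e : ∀ i, α i * ((h i k + y i * z k) * (h i l + y i * z l)) =
        α i * (h i k * h i l) + α i * y i * h i k * z l + z k * (α i * y i * h i l) +
        α i * y i ^ 2 * (z k * z l) := fun i => by ring
    simp only [e, Finset.sum_add_distrib]
    ring
  have hNp : N.PosSemidef := hpsd.add (sm_psd S α h hα)
  have hNs : Nᵀ = N := by
    have := hNp.isHermitian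
    rwa [IsHermitian, conjTranspose_eq_transpose_of_trivial] at this
  have hNz : N *ᵥ zv = zv := by
    have e : ∀ β : ι → ℝ, sm S β h *ᵥ zv = 0 := by
      intro β
      funext k
      simp only [mulVec, dotProduct, sm, Matrix.of_apply, Finset.sum_mul, Pi.zero_apply]
      rw [Finset.sum_comm]
      apply Finset.sum_eq_zero
      intro i hi
      have e2 : ∀ l, β i * (h i k * h i l) * zv l = β i * h i k * (h i l * zv l) :=
        fun l => by ring
      simp only [e2]
      rw [← Finset.mul_sum, hhz i hi, mul_zero]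
    rw [hNdef, add_mulVec, sub_mulVec, one_mulVec, e, e]
    simp
  have hkz : kv ⬝ᵥ zv = 0 := by
    simp only [dotProduct, hkv, Finset.sum_mul]
    rw [Finset.sum_comm]
    apply Finset.sum_eq_zero
    intro i hi
    have e2 : ∀ l, α i * y i * h i l * zv l = α i * y i * (h i l * zv l) := fun l => by ring
    simp only [e2]
    rw [← Finset.mul_sum, hhz i hi, mul_zero]
  by_cases hdet : N.det = 0
  · rw [hdet]
    exact (hpsd.add (sm_psd S α _ hα)).det_nonneg
  · have hu : IsUnit N.det := isUnit_iff_ne_zero.2 hdet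
    set v := N⁻¹ *ᵥ kv with hv
    have hNv : N *ᵥ v = kv := by
      rw [hv, mulVec_mulVec, Matrix.mul_nonsing_inv _ hu, one_mulVec]
    obtain ⟨c1, c2⟩ := congr_ hNs hNv hNz hkz
    set T := 1 + vecMulVec v zv with hT
    have ha : v ⬝ᵥ kv ≤ φ := by
      set c : ι → ℝ := fun i => ∑ k, h i k * v k with hc
      have a1 : v ⬝ᵥ kv = ∑ i ∈ S, α i * y i * c i := by
        simp only [dotProduct, hkv, hc, Finset.mul_sum]
        rw [Finset.sum_comm]
        apply Finset.sum_congr rfl
        intro i _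
        exact Finset.sum_congr rfl fun k _ => by ring
      have a2 : ∑ i ∈ S, α i * c i ^ 2 ≤ v ⬝ᵥ kv := by
        rw [← hNv, hNdef, add_mulVec, dotProduct_add, sm_quad]
        have := hpsd.dotProduct_mulVec_nonneg v
        rw [star_trivial] at this
        linarith
      have a3 : ∑ i ∈ S, (2 * (α i * y i * c i) - α i * c i ^ 2) ≤ φ := by
        apply Finset.sum_le_sum
        intro i hi
        nlinarith [mul_nonneg (hα i hi) (sq_nonneg (y i - c i))]
      rw [Finset.sum_sub_distrib, ← Finset.mul_sum] at a3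
      linarith
    have hTN : (Tᵀ * N * T).PosSemidef := by
      have := hNp.conjTranspose_mul_mul_same T
      rwa [conjTranspose_eq_transpose_of_trivial] at this
    have hTd : (Tᵀ * N * T).det = N.det := by
      rw [det_mul, det_mul, det_transpose, c2]; ring
    have e : (1 - sm S μ h + sm S α (fun i => h i + y i • z)) =
        Tᵀ * N * T + (φ - v ⬝ᵥ kv) • vecMulVec zv zv := by
      rw [hM, c1, sub_smul]
      abel
    rw [e, ← hTd]
    exact det_rank1 hTN (by rw [hTd]; exact hdet) zv (by linarith)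

end PPW
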