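import Pool.Agent.PPW.Stmts

/-!
# Squad PPW (MP_0bf616_gt), module MLB: bounds for the corrected matrix
-/

set_option autoImplicit false

namespace PPW

open MeasureTheory Set Filter Topology ProbabilityTheory
open PPI PPG PPX
open scoped Pointwise ENNReal

namespace MLB_

variable {n : ℕ}

/-- the quadratic form -/
noncomputable def Q (M : Matrix (Fin n) (Fin n) ℝ) (u : EE n) : ℝ := ∑ k, ∑ l, u k * M k l * u l

theorem inner_sum (a b : EE n) : inner ℝ a b = ∑ k, a k * b k := by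
  rw [PiLp.inner_apply]
  refine Finset.sum_congr rfl fun k _ => ?_
  simp [mul_comm]

theorem norm_sq_sum (a : EE n) : ‖a‖ ^ 2 = ∑ k, a k ^ 2 := by
  rw [EuclideanSpace.norm_sq_eq]
  simp

theorem Q_add (A B : Matrix (Fin n) (Fin n) ℝ) (u : EE n) : Q (A + B) u = Q A u + Q B u := by
  simp only [Q, Matrix.add_apply, mul_add, add_mul, Finset.sum_add_distrib]

theorem Q_sub (A B : Matrix (Fin n) (Fin n) ℝ) (u : EE n) : Q (A - B) u = Q A u - Q B u := by
  simp only [Q, Matrix.sub_apply, mul_sub, sub_mul, Finset.sum_sub_distrib]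

theorem Q_smul (c : ℝ) (A : Matrix (Fin n) (Fin n) ℝ) (u : EE n) : Q (c • A) u = c * Q A u := by
  simp only [Q, Matrix.smul_apply, smul_eq_mul, Finset.mul_sum]
  refine Finset.sum_congr rfl fun k _ => Finset.sum_congr rfl fun l _ => ?_
  ring

theorem Q_one (u : EE n) : Q (1 : Matrix (Fin n) (Fin n) ℝ) u = ‖u‖ ^ 2 := by
  rw [norm_sq_sum, Q]
  refine Finset.sum_congr rfl fun k _ => ?_
  rw [Finset.sum_eq_single k]
  · rw [Matrix.one_apply_eq]; ring
  · intro l _ hl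
    rw [Matrix.one_apply_ne hl.symm]; ring
  · intro h; exact absurd (Finset.mem_univ k) h

theorem Q_sm {ι : Type} [Fintype ι] (S : Finset ι) (α : ι → ℝ) (h : ι → EE n) (u : EE n) :
    Q (sm S α h) u = ∑ i ∈ S, α i * (inner ℝ (h i) u) ^ 2 := by
  have e : ∀ i, (inner ℝ (h i) u) ^ 2 = ∑ k, ∑ l, (h i k * u k) * (h i l * u l) := by
    intro i
    rw [inner_sum, sq, Finset.sum_mul_sum]
  simp only [Q, sm, Matrix.of_apply, e, Finset.mul_sum, Finset.sum_mul]
  calc ∑ k, ∑ l, ∑ i ∈ S, u k * (α i * (h i k * h i l)) * u l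
      = ∑ k, ∑ i ∈ S, ∑ l, u k * (α i * (h i k * h i l)) * u l :=
        Finset.sum_congr rfl fun k _ => Finset.sum_comm
    _ = ∑ i ∈ S, ∑ k, ∑ l, u k * (α i * (h i k * h i l)) * u l := Finset.sum_comm
    _ = ∑ i ∈ S, ∑ k, ∑ l, α i * (h i k * u k * (h i l * u l)) := by
        refine Finset.sum_congr rfl fun i _ => Finset.sum_congr rfl fun k _ =>
          Finset.sum_congr rfl fun l _ => ?_
        ring

theorem dot_eq_Q (M : Matrix (Fin n) (Fin n) ℝ) (x : Fin n → ℝ) :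
    star x ⬝ᵥ M.mulVec x = Q M (WithLp.toLp 2 x) := by
  simp only [dotProduct, Matrix.mulVec, Q, star_trivial, Finset.mul_sum]
  refine Finset.sum_congr rfl fun k _ => Finset.sum_congr rfl fun l _ => ?_
  ring

theorem Q_nonneg {M : Matrix (Fin n) (Fin n) ℝ} (h : M.PosSemidef) (u : EE n) : 0 ≤ Q M u := by
  have h1 := (Matrix.posSemidef_iff_dotProduct_mulVec.1 h).2 (WithLp.ofLp u)
  rw [dot_eq_Q] at h1
  exact h1

theorem psd_of_Q {M : Matrix (Fin n) (Fin n) ℝ} (hs : M.IsHermitian)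
    (h : ∀ u : EE n, 0 ≤ Q M u) : M.PosSemidef := by
  rw [Matrix.posSemidef_iff_dotProduct_mulVec]
  refine ⟨hs, fun x => ?_⟩
  rw [dot_eq_Q]
  exact h _

theorem sm_herm {ι : Type} [Fintype ι] (S : Finset ι) (α : ι → ℝ) (h : ι → EE n) :
    (sm S α h).IsHermitian := by
  ext k l
  simp only [Matrix.conjTranspose_apply, sm, Matrix.of_apply, star_trivial]
  refine Finset.sum_congr rfl fun i _ => ?_
  ring

theorem hs_nonneg (M : Matrix (Fin n) (Fin n) ℝ) : 0 ≤ hs M :=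
  Finset.sum_nonneg fun _ _ => Finset.sum_nonneg fun _ _ => sq_nonneg _

/-- Cauchy-Schwarz for the Frobenius product -/
theorem frob_sq_le (A B : Matrix (Fin n) (Fin n) ℝ) :
    (∑ k, ∑ l, A k l * B k l) ^ 2 ≤ hs A * hs B := by
  have h := Finset.sum_mul_sq_le_sq_mul_sq (Finset.univ : Finset (Fin n × Fin n))
    (fun p => A p.1 p.2) (fun p => B p.1 p.2)
  rw [Fintype.sum_prod_type, Fintype.sum_prod_type, Fintype.sum_prod_type] at h
  exact h

theorem hs_add_le {A B : Matrix (Fin n) (Fin n) ℝ} {a b : ℝ} (ha : 0 ≤ a) (hb : 0 ≤ b)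
    (hA : hs A ≤ a ^ 2) (hB : hs B ≤ b ^ 2) : hs (A + B) ≤ (a + b) ^ 2 := by
  have e : hs (A + B) = hs A + 2 * (∑ k, ∑ l, A k l * B k l) + hs B := by
    simp only [hs, Matrix.add_apply, Finset.mul_sum, ← Finset.sum_add_distrib]
    refine Finset.sum_congr rfl fun k _ => Finset.sum_congr rfl fun l _ => ?_
    ring
  have h1 : (∑ k, ∑ l, A k l * B k l) ≤ a * b := by
    refine le_of_sq_le_sq ?_ (mul_nonneg ha hb)
    calc (∑ k, ∑ l, A k l * B k l) ^ 2 ≤ hs A * hs B := frob_sq_le A B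
      _ ≤ a ^ 2 * b ^ 2 := mul_le_mul hA hB (hs_nonneg _) (sq_nonneg _)
      _ = (a * b) ^ 2 := by ring
  rw [e]
  nlinarith

/-- the rank one matrix -/
def rk (a b : EE n) : Matrix (Fin n) (Fin n) ℝ := Matrix.of fun k l => a k * b l

theorem hs_rk (a b : EE n) : hs (rk a b) = ‖a‖ ^ 2 * ‖b‖ ^ 2 := by
  rw [norm_sq_sum, norm_sq_sum, Finset.sum_mul_sum, hs]
  refine Finset.sum_congr rfl fun k _ => Finset.sum_congr rfl fun l _ => ?_
  simp only [rk, Matrix.of_apply]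
  ring

theorem Q_sq_le (M : Matrix (Fin n) (Fin n) ℝ) (u : EE n) : Q M u ^ 2 ≤ hs M * (‖u‖ ^ 2) ^ 2 := by
  have h := frob_sq_le M (rk u u)
  rw [hs_rk] at h
  have e : (∑ k, ∑ l, M k l * rk u u k l) = Q M u := by
    simp only [Q, rk, Matrix.of_apply]
    refine Finset.sum_congr rfl fun k _ => Finset.sum_congr rfl fun l _ => ?_
    ring
  rw [e] at h
  calc Q M u ^ 2 ≤ hs M * (‖u‖ ^ 2 * ‖u‖ ^ 2) := h
    _ = hs M * (‖u‖ ^ 2) ^ 2 := by ring

end MLB_

open MLB_ in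
theorem mlb_proof : Stmt_MLB := by
  intro n m ι _ S μ α y h P z L hP hμα hPh hPz hz hN hL hy hM hD
  have hL0 : 0 < L := by linarith
  set φ := ∑ i ∈ S, α i * y i ^ 2 with hφ
  have hφ0 : 0 ≤ φ := Finset.sum_nonneg fun i hi => mul_nonneg (hμα i hi).2 (sq_nonneg _)
  have hin : ∀ i ∈ S, ∀ u : EE n, inner ℝ (h i) u = inner ℝ (h i) (P u) := by
    intro i hi u
    rw [← hP.sym, hPh i hi]
  have hzP : ∀ u : EE n, inner ℝ z (P u) = 0 := by
    intro u
    rw [← hP.sym, hPz, inner_zero_left]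
  refine ⟨?_, ?_⟩
  · refine psd_of_Q ?_ fun u => ?_
    · refine (((Matrix.isHermitian_one).sub (sm_herm _ _ _)).add (sm_herm _ _ _)).sub ?_
      exact (Matrix.isHermitian_one).smul (IsSelfAdjoint.all _)
    set uH := P u with huH
    set uF := u - P u with huF
    have horth : inner ℝ uH uF = (0 : ℝ) := by
      rw [huH, huF, hP.sym, map_sub, hP.idem, sub_self, inner_zero_right]
    have hu : ‖u‖ ^ 2 = ‖uH‖ ^ 2 + ‖uF‖ ^ 2 := by
      have : u = uH + uF := by rw [huH, huF]; abel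
      rw [this, norm_add_sq_real, horth]
      ring
    have hPuH : P uH = uH := hP.idem u
    -- the form of N at uH
    have hb := Q_nonneg hN uH
    rw [Q_sub, Q_one, Q_sm] at hb
    have hbA := Q_nonneg hM uH
    rw [Q_sub, Q_add, Q_sub, Q_one, Q_sm, Q_sm, Q_smul, Q_one] at hbA
    have e1 : ∀ i ∈ S, inner ℝ (h i) u = inner ℝ (h i) uH := fun i hi => hin i hi u
    have e2 : ∑ i ∈ S, μ i * (inner ℝ (h i) u) ^ 2 = ∑ i ∈ S, μ i * (inner ℝ (h i) uH) ^ 2 :=
      Finset.sum_congr rfl fun i hi => by rw [e1 i hi]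
    set t : ℝ := inner ℝ z u with ht
    have ht2 : t ^ 2 ≤ ‖uF‖ ^ 2 := by
      have h1 : t = inner ℝ z uF := by
        rw [ht, huF, inner_sub_right, hzP, sub_zero]
      have h2 := abs_real_inner_le_norm z uF
      rw [← h1] at h2
      have h3 : |t| ≤ ‖uF‖ := h2.trans (by nlinarith [norm_nonneg uF])
      have := pow_le_pow_left₀ (abs_nonneg t) h3 2
      rwa [sq_abs] at this
    set b := ‖uH‖ ^ 2 - ∑ i ∈ S, μ i * (inner ℝ (h i) uH) ^ 2 with hbdef
    set A := ∑ i ∈ S, α i * (inner ℝ (h i) uH) ^ 2 with hA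
    set T' := ∑ i ∈ S, α i * (inner ℝ (h i + y i • z) u) ^ 2 with hT
    have hT0 : 0 ≤ T' := Finset.sum_nonneg fun i hi => mul_nonneg (hμα i hi).2 (sq_nonneg _)
    have hTA : A / 2 - φ * t ^ 2 ≤ T' := by
      rw [hT, hA, hφ, Finset.sum_div, Finset.sum_mul, ← Finset.sum_sub_distrib]
      refine Finset.sum_le_sum fun i hi => ?_
      have h1 : inner ℝ (h i + y i • z) u = inner ℝ (h i) uH + y i * t := by
        rw [inner_add_left, e1 i hi, inner_smul_left]
        simp [ht]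
      rw [h1]
      have h2 := (hμα i hi).2
      have h3 : (inner ℝ (h i) uH) ^ 2 / 2 - y i ^ 2 * t ^ 2 ≤
          (inner ℝ (h i) uH + y i * t) ^ 2 := by
        nlinarith [sq_nonneg (inner ℝ (h i) uH + 2 * (y i * t))]
      have h4 := mul_le_mul_of_nonneg_left h3 h2
      calc α i * (inner ℝ (h i) uH) ^ 2 / 2 - α i * y i ^ 2 * t ^ 2
          = α i * ((inner ℝ (h i) uH) ^ 2 / 2 - y i ^ 2 * t ^ 2) := by ring
        _ ≤ _ := h4
    rw [Q_sub, Q_add, Q_sub, Q_one, Q_sm, Q_sm, Q_smul, Q_one, e2, hu]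
    have hφt : φ * t ^ 2 ≤ L * ‖uF‖ ^ 2 := mul_le_mul hy ht2 (sq_nonneg _) hL0.le
    set x := ‖uH‖ ^ 2 with hx
    set f := ‖uF‖ ^ 2 with hf
    have hx0 : 0 ≤ x := sq_nonneg _
    have hf0 : 0 ≤ f := sq_nonneg _
    have hbA' : L⁻¹ * x ≤ b + A := by linarith
    -- eps = 1/(2(1+L))
    set ε : ℝ := 1 / (2 * (1 + L)) with hε
    have hε0 : 0 < ε := by positivity
    have hε1 : ε ≤ 1 := by
      rw [hε, div_le_one (by positivity)]; linarith
    have hεL : ε * L ≤ 1 / 2 := by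
      rw [hε, div_mul_eq_mul_div, div_le_iff₀ (by positivity)]; linarith
    have h1 : ε * (b + T') ≤ b + T' := by nlinarith
    have h2 : ε * (b / 2 + A / 2 - L * f) ≤ ε * (b + T') := by
      refine mul_le_mul_of_nonneg_left ?_ hε0.le
      linarith
    have h3 : ε * (L⁻¹ * x / 2) ≤ ε * ((b + A) / 2) := by
      refine mul_le_mul_of_nonneg_left ?_ hε0.le
      linarith
    have h4 : (8 * L ^ 2)⁻¹ ≤ ε * (L⁻¹ / 2) := by
      rw [hε, inv_eq_one_div, inv_eq_one_div, div_le_iff₀ (by positivity)]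
      have : 1 / (2 * (1 + L)) * (1 / L / 2) * (8 * L ^ 2) = 2 * L / (1 + L) := by
        field_simp
        ring
      rw [this, le_div_iff₀ (by positivity)]
      linarith
    have h5 : (8 * L ^ 2)⁻¹ ≤ 1 / 2 := by
      rw [inv_eq_one_div]
      apply div_le_div_of_nonneg_left (by norm_num) (by norm_num)
      nlinarith
    have h6 : (8 * L ^ 2)⁻¹ * x ≤ ε * (L⁻¹ / 2) * x := mul_le_mul_of_nonneg_right h4 hx0
    have h7 : (8 * L ^ 2)⁻¹ * f ≤ 1 / 2 * f := mul_le_mul_of_nonneg_right h5 hf0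
    have h8 : ε * L * f ≤ 1 / 2 * f := mul_le_mul_of_nonneg_right hεL hf0
    have h9 : x + f - ∑ i ∈ S, μ i * (inner ℝ (h i) uH) ^ 2 = b + f := by
      rw [hbdef]; ring
    rw [h9]
    nlinarith
  · -- part 2
    set k : EE n := ∑ i ∈ S, (α i * y i) • h i with hk
    set D := sm S α h - sm S μ h with hDdef
    have e : sm S α (fun i => h i + y i • z) - sm S μ h = D + rk k z + rk z k + rk (φ • z) z := by
      ext a b
      simp only [hDdef, Matrix.add_apply, Matrix.sub_apply, sm, Matrix.of_apply, rk, hk, hφ,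
        PiLp.add_apply, PiLp.smul_apply, smul_eq_mul, WithLp.ofLp_sum, Finset.sum_apply,
        WithLp.ofLp_smul, Pi.smul_apply]
      rw [Finset.sum_mul, Finset.mul_sum, Finset.sum_mul, Finset.sum_mul]
      have : (∑ i ∈ S, α i * ((h i a + y i * z a) * (h i b + y i * z b))) =
          (∑ i ∈ S, α i * (h i a * h i b)) + (∑ i ∈ S, α i * y i * h i a * z b) +
          (∑ i ∈ S, z a * (α i * y i * h i b)) + ∑ i ∈ S, α i * y i ^ 2 * z a * z b := by
        rw [← Finset.sum_add_distrib, ← Finset.sum_add_distrib, ← Finset.sum_add_distrib]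
        refine Finset.sum_congr rfl fun i _ => ?_
        ring
      rw [this]
      ring
    have hk2 : ‖k‖ ^ 2 ≤ 2 * L ^ 2 := by
      -- the form of `sm α h` at `k`
      have h1 : ∑ i ∈ S, α i * (inner ℝ (h i) k) ^ 2 ≤ (L + 1) * ‖k‖ ^ 2 := by
        have h2 := Q_nonneg hN k
        rw [Q_sub, Q_one, Q_sm] at h2
        have h3 : Q D k ≤ L * ‖k‖ ^ 2 := by
          refine le_of_sq_le_sq ?_ (mul_nonneg hL0.le (sq_nonneg _))
          calc Q D k ^ 2 ≤ hs D * (‖k‖ ^ 2) ^ 2 := Q_sq_le _ _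
            _ ≤ L ^ 2 * (‖k‖ ^ 2) ^ 2 := mul_le_mul_of_nonneg_right hD (sq_nonneg _)
            _ = (L * ‖k‖ ^ 2) ^ 2 := by ring
        rw [hDdef, Q_sub, Q_sm, Q_sm] at h3
        linarith
      have h4 : ‖k‖ ^ 2 = ∑ i ∈ S, α i * y i * inner ℝ (h i) k := by
        rw [← real_inner_self_eq_norm_sq]
        nth_rewrite 1 [hk]
        rw [sum_inner]
        refine Finset.sum_congr rfl fun i _ => ?_
        rw [inner_smul_left]
        simp
      have h5 : (‖k‖ ^ 2) ^ 2 ≤ φ * ((L + 1) * ‖k‖ ^ 2) := by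
        have h6 := Finset.sum_mul_sq_le_sq_mul_sq S (fun i => √(α i) * y i)
          (fun i => √(α i) * inner ℝ (h i) k)
        have e1 : ∑ i ∈ S, √(α i) * y i * (√(α i) * inner ℝ (h i) k) = ‖k‖ ^ 2 := by
          rw [h4]
          refine Finset.sum_congr rfl fun i hi => ?_
          have := Real.mul_self_sqrt (hμα i hi).2
          calc √(α i) * y i * (√(α i) * inner ℝ (h i) k)
              = (√(α i) * √(α i)) * y i * inner ℝ (h i) k := by ring
            _ = _ := by rw [this]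
        have e2 : ∑ i ∈ S, (√(α i) * y i) ^ 2 = φ := by
          rw [hφ]
          refine Finset.sum_congr rfl fun i hi => ?_
          rw [mul_pow, Real.sq_sqrt (hμα i hi).2]
        have e3 : ∑ i ∈ S, (√(α i) * inner ℝ (h i) k) ^ 2 =
            ∑ i ∈ S, α i * (inner ℝ (h i) k) ^ 2 := by
          refine Finset.sum_congr rfl fun i hi => ?_
          rw [mul_pow, Real.sq_sqrt (hμα i hi).2]
        rw [e1, e2, e3] at h6
        exact h6.trans (mul_le_mul_of_nonneg_left h1 hφ0)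
      rcases eq_or_ne (‖k‖ ^ 2) 0 with h0 | h0
      · rw [h0]; positivity
      · have hpos : 0 < ‖k‖ ^ 2 := lt_of_le_of_ne (sq_nonneg _) (Ne.symm h0)
        have h7 : ‖k‖ ^ 2 ≤ φ * (L + 1) := by
          have : ‖k‖ ^ 2 * ‖k‖ ^ 2 ≤ (φ * (L + 1)) * ‖k‖ ^ 2 := by
            calc ‖k‖ ^ 2 * ‖k‖ ^ 2 = (‖k‖ ^ 2) ^ 2 := by ring
              _ ≤ φ * ((L + 1) * ‖k‖ ^ 2) := h5
              _ = (φ * (L + 1)) * ‖k‖ ^ 2 := by ring
          exact le_of_mul_le_mul_right this hpos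
        have h8 : φ * (L + 1) ≤ L * (L + 1) := mul_le_mul_of_nonneg_right hy (by linarith)
        nlinarith
    have hz2 : ‖z‖ ^ 2 ≤ 1 := by nlinarith [norm_nonneg z]
    have hK1 : hs (rk k z) ≤ (3 * L / 2) ^ 2 := by
      rw [hs_rk]
      calc ‖k‖ ^ 2 * ‖z‖ ^ 2 ≤ (2 * L ^ 2) * 1 :=
            mul_le_mul hk2 hz2 (sq_nonneg _) (by positivity)
        _ ≤ (3 * L / 2) ^ 2 := by nlinarith [sq_nonneg L]
    have hK2 : hs (rk z k) ≤ (3 * L / 2) ^ 2 := by
      rw [hs_rk]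
      calc ‖z‖ ^ 2 * ‖k‖ ^ 2 ≤ 1 * (2 * L ^ 2) :=
            mul_le_mul hz2 hk2 (sq_nonneg _) (by norm_num)
        _ ≤ (3 * L / 2) ^ 2 := by nlinarith [sq_nonneg L]
    have hK3 : hs (rk (φ • z) z) ≤ L ^ 2 := by
      rw [hs_rk, norm_smul, mul_pow]
      have h1 : ‖φ‖ ^ 2 ≤ L ^ 2 := by
        rw [Real.norm_of_nonneg hφ0]
        exact pow_le_pow_left₀ hφ0 hy 2
      calc ‖φ‖ ^ 2 * ‖z‖ ^ 2 * ‖z‖ ^ 2 ≤ L ^ 2 * 1 * 1 := by gcongr
        _ = L ^ 2 := by ring
    rw [e]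
    have s1 := hs_add_le hL0.le (by positivity : (0 : ℝ) ≤ 3 * L / 2) hD hK1
    have s2 := hs_add_le (by positivity) (by positivity : (0 : ℝ) ≤ 3 * L / 2) s1 hK2
    have s3 := hs_add_le (by positivity) hL0.le s2 hK3
    calc hs (D + rk k z + rk z k + rk (φ • z) z) ≤ (L + 3 * L / 2 + 3 * L / 2 + L) ^ 2 := s3
      _ = (5 * L) ^ 2 := by ring

end PPW
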