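import Pool.Agent.PPW.Stmts

/-!
# Squad PPW, module PBD: the narrow part and the mass outside of the subspace.
-/

set_option autoImplicit false

namespace PPW

open MeasureTheory Set Filter Topology ProbabilityTheory
open PPI PPG PPX
open scoped Pointwise ENNReal

namespace PBD_

/-- Markov's inequality -/
lemma markov {α : Type*} [MeasurableSpace α] {μ : Measure α} {f : α → ℝ} (h0 : ∀ x, 0 ≤ f x)
    (hf : Integrable f μ) {t I : ℝ} (ht : 0 < t) (hI : ∫ x, f x ∂μ ≤ I) :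
    μ {x | t < f x} ≤ ENNReal.ofReal (I / t) := by
  have h1 : μ {x | ENNReal.ofReal t ≤ ENNReal.ofReal (f x)} ≤
      (∫⁻ x, ENNReal.ofReal (f x) ∂μ) / ENNReal.ofReal t :=
    meas_ge_le_lintegral_div hf.1.aemeasurable.ennreal_ofReal
      (by simpa using ht) ENNReal.ofReal_ne_top
  have h2 : ∫⁻ x, ENNReal.ofReal (f x) ∂μ = ENNReal.ofReal (∫ x, f x ∂μ) :=
    (ofReal_integral_eq_lintegral_ofReal hf (Eventually.of_forall h0)).symm
  have h3 : {x | t < f x} ⊆ {x | ENNReal.ofReal t ≤ ENNReal.ofReal (f x)} := by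
    intro x hx
    exact ENNReal.ofReal_le_ofReal (le_of_lt hx)
  refine (measure_mono h3).trans (h1.trans ?_)
  rw [h2, ENNReal.ofReal_div_of_pos ht]
  gcongr

/-- a measurable set of good points for one function -/
lemma good {n : ℕ} (hpt : Measurable (pt : ℝ × EE n → EE n)) (hmap : (pm n).map pt = mun n)
    {f : EE n → ℝ} (h0 : ∀ x, 0 ≤ f x) (hf : Integrable f (mun n)) {t I : ℝ} (ht : 0 < t)
    (hI : ∫ x, f x ∂(mun n) ≤ I) :
    ∃ G : Set (ℝ × EE n), MeasurableSet G ∧ (pm n) Gᶜ ≤ ENNReal.ofReal (I / t) ∧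
      ∀ z ∈ G, f (pt z) ≤ t := by
  set B := {x | t < f x} with hB
  refine ⟨pt ⁻¹' (toMeasurable (mun n) B)ᶜ,
    hpt (measurableSet_toMeasurable _ _).compl, ?_, ?_⟩
  · have e : (pt ⁻¹' (toMeasurable (mun n) B)ᶜ : Set (ℝ × EE n))ᶜ =
        pt ⁻¹' (toMeasurable (mun n) B) := by
      rw [← preimage_compl, compl_compl]
    rw [e, ← Measure.map_apply hpt (measurableSet_toMeasurable _ _), hmap,
      measure_toMeasurable]
    exact markov h0 hf ht hI
  · intro z hz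
    by_contra hn
    push Not at hn
    exact hz (subset_toMeasurable _ _ hn)

lemma hs_nonneg {n : ℕ} (M : Matrix (Fin n) (Fin n) ℝ) : 0 ≤ hs M := by
  unfold hs
  exact Finset.sum_nonneg fun _ _ => Finset.sum_nonneg fun _ _ => sq_nonneg _

end PBD_

open PBD_ in
theorem pbd_proof (hGMX : Stmt_GMX) (hXI1 : Stmt_XI1) : Stmt_PBD := by
  intro C κ hC hκ
  -- the threshold
  set T : ℝ := max 1 (max (80000 / κ ^ 2) (2 * C)) with hT
  obtain ⟨n₀, hn₀⟩ := exists_nat_ge (Real.exp T)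
  refine ⟨max 2 n₀, ?_⟩
  intro n m ι _ P S p ω w c hn hW
  have hn2 : 2 ≤ n := (le_max_left _ _).trans hn
  have hn' : Real.exp T ≤ n := hn₀.trans (by exact_mod_cast (le_max_right _ _).trans hn)
  set l : ℝ := Real.log n with hl
  have hlT : T ≤ l := by
    rw [hl, Real.le_log_iff_exp_le (by positivity)]
    exact hn'
  have hl1 : 1 ≤ l := (le_max_left _ _).trans hlT
  have hl2 : 80000 / κ ^ 2 ≤ l := ((le_max_left _ _).trans (le_max_right _ _)).trans hlT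
  have hl3 : 2 * C ≤ l := ((le_max_right _ _).trans (le_max_right _ _)).trans hlT
  have hl0 : 0 < l := by linarith
  obtain ⟨hpt, hmap⟩ := hGMX n (by omega)
  -- first function
  have ht1 : 0 < (κ / (200 * (l ^ 125) ^ 4)) ^ 2 := by positivity
  obtain ⟨G1, hG1, hG1m, hG1b⟩ := good hpt hmap (f := fun x => hs (Dg S p w x))
    (fun x => hs_nonneg _) hW.di ht1 hW.dh
  -- second function
  set φ : EE n → ℝ := fun x =>
    (n : ℝ) * ∑ i ∈ S, p i * xi (c i) x (w i) * (inner ℝ x (w i)) ^ 2 with hφ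
  have hxi : ∀ i ∈ S, Integrable (fun x : EE n => xi (c i) x (w i) * (inner ℝ x (w i)) ^ 2)
      (mun n) ∧ ∫ x, xi (c i) x (w i) * (inner ℝ x (w i)) ^ 2 ∂(mun n) = ML (c i) := by
    intro i hi
    have hpf := hW.pf i hi
    have h := hXI1 n (w i) (c i) hn2 (hW.iso.nrm i) hpf.dif.continuous
      (fun s => (hpf.pos s).le) hpf.mass
    exact ⟨h.2.2.1, h.2.2.2⟩
  have hi1 : ∀ i ∈ S, Integrable (fun x : EE n =>
      p i * xi (c i) x (w i) * (inner ℝ x (w i)) ^ 2) (mun n) := by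
    intro i hi
    have h := (hxi i hi).1.const_mul (p i)
    refine h.congr (Eventually.of_forall fun x => ?_)
    ring
  have hφi : Integrable φ (mun n) :=
    (integrable_finsetSum S hi1).const_mul _
  have hφI : ∫ x, φ x ∂(mun n) ≤ C * l ^ 2 := by
    have e : ∫ x, φ x ∂(mun n) = (n : ℝ) * ∑ i ∈ S, p i * ML (c i) := by
      rw [hφ, integral_const_mul, integral_finsetSum S hi1]
      congr 1
      refine Finset.sum_congr rfl fun i hi => ?_
      rw [← (hxi i hi).2, ← integral_const_mul]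
      refine integral_congr_ae (Eventually.of_forall fun x => ?_)
      ring
    rw [e]
    have h1 : (n : ℝ) * ∑ i ∈ S, p i * ML (c i) ≤ (n : ℝ) * ∑ i ∈ S, p i * (C * ω i) := by
      apply mul_le_mul_of_nonneg_left _ (by positivity)
      refine Finset.sum_le_sum fun i hi => ?_
      exact mul_le_mul_of_nonneg_left (hW.pf i hi).mom (hW.iso.ppos i).le
    have h2 : (n : ℝ) * ∑ i ∈ S, p i * (C * ω i) = C * ((n : ℝ) * ∑ i ∈ S, p i * ω i) := by
      have : ∑ i ∈ S, p i * (C * ω i) = C * ∑ i ∈ S, p i * ω i := by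
        rw [Finset.mul_sum]
        refine Finset.sum_congr rfl fun i _ => ?_
        ring
      rw [this]
      ring
    have h3 := mul_le_mul_of_nonneg_left hW.sum hC.le
    linarith
  have hcn : 0 ≤ PPX.cn n := by
    unfold PPX.cn kap
    have h1 : 0 ≤ vl (Bn n) := by unfold vl; exact ENNReal.toReal_nonneg
    have h2 : 0 ≤ vl (Bn (n - 1)) := by unfold vl; exact ENNReal.toReal_nonneg
    positivity
  have hφ0 : ∀ x, 0 ≤ φ x := by
    intro x
    apply mul_nonneg (by positivity)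
    refine Finset.sum_nonneg fun i hi => ?_
    apply mul_nonneg (mul_nonneg (hW.iso.ppos i).le _) (sq_nonneg _)
    unfold xi
    apply div_nonneg (mul_nonneg (Real.sqrt_nonneg _) ((hW.pf i hi).pos _).le) hcn
  obtain ⟨G2, hG2, hG2m, hG2b⟩ := good hpt hmap hφ0 hφi (t := l ^ 125) (by positivity) hφI
  refine ⟨G1 ∩ G2, hG1.inter hG2, ?_, fun z hz => ⟨hG1b z hz.1, hG2b z hz.2⟩⟩
  rw [compl_inter]
  refine (measure_union_le _ _).trans ((add_le_add hG1m hG2m).trans ?_)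
  rw [← ENNReal.ofReal_add (by positivity) (by positivity)]
  apply ENNReal.ofReal_le_ofReal
  -- numerical estimate
  have e1 : l ^ (-1050 : ℝ) = (l ^ 1050)⁻¹ := by
    rw [Real.rpow_neg hl0.le, show (1050 : ℝ) = ((1050 : ℕ) : ℝ) by norm_num,
      Real.rpow_natCast]
  have e2 : l ^ (-9 : ℝ) = (l ^ 9)⁻¹ := by
    rw [Real.rpow_neg hl0.le, show (9 : ℝ) = ((9 : ℕ) : ℝ) by norm_num,
      Real.rpow_natCast]
  rw [e1, e2]
  have e3 : (l ^ 1050)⁻¹ / (κ / (200 * (l ^ 125) ^ 4)) ^ 2 = 40000 / κ ^ 2 * (l ^ 50)⁻¹ := by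
    have e31 : l ^ 1050 = l ^ 1000 * l ^ 50 := by rw [← pow_add]
    have e32 : (κ / (200 * (l ^ 125) ^ 4)) ^ 2 = κ ^ 2 / (40000 * l ^ 1000) := by
      rw [div_pow, mul_pow, ← pow_mul, ← pow_mul]
      norm_num
    rw [e31, e32]
    field_simp
  have e4 : C * l ^ 2 / l ^ 125 = C * (l ^ 123)⁻¹ := by
    have e41 : l ^ 125 = l ^ 2 * l ^ 123 := by rw [← pow_add]
    rw [e41]
    field_simp
  rw [e3, e4]
  have p1 : 40000 / κ ^ 2 * (l ^ 50)⁻¹ ≤ 1 / 2 * (l ^ 9)⁻¹ := by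
    have q1 : (l ^ 50)⁻¹ = (l ^ 9)⁻¹ * (l ^ 41)⁻¹ := by
      rw [← mul_inv, ← pow_add]
    have q2 : 40000 / κ ^ 2 ≤ 1 / 2 * l := by
      have : 80000 / κ ^ 2 = 2 * (40000 / κ ^ 2) := by ring
      linarith
    have q3 : l ≤ l ^ 41 := le_self_pow₀ hl1 (by norm_num)
    have q4 : 40000 / κ ^ 2 * (l ^ 41)⁻¹ ≤ 1 / 2 := by
      rw [← div_eq_mul_inv, div_le_iff₀ (by positivity)]
      linarith
    rw [q1]
    have q5 : 0 < (l ^ 9)⁻¹ := by positivity
    calc 40000 / κ ^ 2 * ((l ^ 9)⁻¹ * (l ^ 41)⁻¹)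
        = (40000 / κ ^ 2 * (l ^ 41)⁻¹) * (l ^ 9)⁻¹ := by ring
      _ ≤ 1 / 2 * (l ^ 9)⁻¹ := mul_le_mul_of_nonneg_right q4 q5.le
  have p2 : C * (l ^ 123)⁻¹ ≤ 1 / 2 * (l ^ 9)⁻¹ := by
    have q1 : (l ^ 123)⁻¹ = (l ^ 9)⁻¹ * (l ^ 114)⁻¹ := by
      rw [← mul_inv, ← pow_add]
    have q3 : l ≤ l ^ 114 := le_self_pow₀ hl1 (by norm_num)
    have q4 : C * (l ^ 114)⁻¹ ≤ 1 / 2 := by
      rw [← div_eq_mul_inv, div_le_iff₀ (by positivity)]
      linarith
    rw [q1]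
    have q5 : 0 < (l ^ 9)⁻¹ := by positivity
    calc C * ((l ^ 9)⁻¹ * (l ^ 114)⁻¹) = (C * (l ^ 114)⁻¹) * (l ^ 9)⁻¹ := by ring
      _ ≤ 1 / 2 * (l ^ 9)⁻¹ := mul_le_mul_of_nonneg_right q4 q5.le
  linarith

end PPW
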