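import Pool.Agent.PPW.Stmts

/-!
Module PBL: Markov's inequality for the conditional means.
-/

set_option autoImplicit false

namespace PPW

open MeasureTheory Set Filter Topology ProbabilityTheory
open PPI PPG PPX
open scoped Pointwise ENNReal

noncomputable section

namespace PBL_

theorem probGam (n : ℕ) : IsProbabilityMeasure (gam n) := by unfold gam; infer_instance

theorem probEx : IsProbabilityMeasure ex := by
  constructor
  unfold ex
  rw [withDensity_apply _ MeasurableSet.univ, Measure.restrict_univ,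
    ← ofReal_integral_eq_lintegral_ofReal]
  · rw [integral_exp_neg_Ioi]
    simp
  · exact integrableOn_exp_neg_Ioi 0
  · exact Eventually.of_forall fun t => (Real.exp_pos _).le

theorem probPm (n : ℕ) : IsProbabilityMeasure (pm n) := by
  have := probGam n
  have := probEx
  unfold pm
  infer_instance

theorem numerics (C l : ℝ) (hC : 0 < C) (h1 : 2 ≤ l) (h2 : 8 * C ≤ l) :
    l ^ 2 * (C * (8 / l ^ 125) ^ (1 / 10 : ℝ)) / (1 / 2) ≤ l ^ (-9 : ℝ) / 2 ∧
    l ^ 2 * 2 / (l ^ 125 / 2) ≤ l ^ (-9 : ℝ) / 2 := by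
  have hl : 0 < l := by linarith
  have hm9 : l ^ (-9 : ℝ) = (l ^ 9)⁻¹ := by
    rw [Real.rpow_neg hl.le]
    congr 1
    exact_mod_cast Real.rpow_natCast l 9
  rw [hm9]
  constructor
  · have h3 : (8 / l ^ 125) ^ (1 / 10 : ℝ) ≤ 2 * (l ^ 12)⁻¹ := by
      have h4 : 8 / l ^ 125 ≤ (2 * (l ^ 12)⁻¹) ^ 10 := by
        rw [mul_pow, inv_pow, ← pow_mul, div_eq_mul_inv]
        have h5 : (l ^ 125)⁻¹ ≤ (l ^ (12 * 10))⁻¹ := by
          apply inv_anti₀ (by positivity)
          exact pow_le_pow_right₀ (by linarith) (by norm_num)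
        have h6 : (0 : ℝ) ≤ (l ^ (12 * 10))⁻¹ := by positivity
        nlinarith
      calc (8 / l ^ 125) ^ (1 / 10 : ℝ) ≤ ((2 * (l ^ 12)⁻¹) ^ 10) ^ (1 / 10 : ℝ) := by
            apply Real.rpow_le_rpow (by positivity) h4 (by norm_num)
        _ = 2 * (l ^ 12)⁻¹ := by
            rw [← Real.rpow_natCast, ← Real.rpow_mul (by positivity)]
            norm_num
    calc l ^ 2 * (C * (8 / l ^ 125) ^ (1 / 10 : ℝ)) / (1 / 2) ≤
          l ^ 2 * (C * (2 * (l ^ 12)⁻¹)) / (1 / 2) := by gcongr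
      _ = 4 * C * (l ^ 10)⁻¹ := by
          field_simp
          ring
      _ ≤ l / 2 * (l ^ 10)⁻¹ := by
          apply mul_le_mul_of_nonneg_right _ (by positivity)
          linarith
      _ = (l ^ 9)⁻¹ / 2 := by
          field_simp
  · rw [div_le_iff₀ (by positivity)]
    have : (l ^ 9)⁻¹ / 2 * (l ^ 125 / 2) = l ^ 116 / 4 := by
      field_simp
      ring
    rw [this]
    have h7 : l ^ 2 * 8 ≤ l ^ 116 := by
      have : l ^ 116 = l ^ 2 * l ^ 114 := by ring
      rw [this]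
      apply mul_le_mul_of_nonneg_left _ (by positivity)
      calc (8 : ℝ) = 2 ^ 3 := by norm_num
        _ ≤ l ^ 3 := pow_le_pow_left₀ (by norm_num) h1 3
        _ ≤ l ^ 114 := pow_le_pow_right₀ (by linarith) (by norm_num)
    linarith

/-- Markov's inequality -/
theorem markov {α : Type} [MeasurableSpace α] (μ : Measure α) (X : α → ℝ) (hX : Measurable X)
    (a b : ℝ) (ha : 0 < a) (h : ∫⁻ z, ENNReal.ofReal (X z) ∂μ ≤ ENNReal.ofReal b) :
    μ {z | ¬ X z ≤ a} ≤ ENNReal.ofReal (b / a) := by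
  have h1 : μ {z | ¬ X z ≤ a} ≤ μ {z | ENNReal.ofReal a ≤ ENNReal.ofReal (X z)} := by
    apply measure_mono
    intro z hz
    simp only [mem_ofPred_eq, not_le] at hz ⊢
    exact ENNReal.ofReal_le_ofReal hz.le
  have h2 := meas_ge_le_lintegral_div (μ := μ) (f := fun z => ENNReal.ofReal (X z))
    hX.ennreal_ofReal.aemeasurable (ε := ENNReal.ofReal a)
    (by simpa using ha) ENNReal.ofReal_ne_top
  refine h1.trans (h2.trans ?_)
  rw [ENNReal.ofReal_div_of_pos ha]
  gcongr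

theorem lint_le {α ι : Type} [MeasurableSpace α] (μ : Measure α) (S : Finset ι) (a : ι → ℝ)
    (g : ι → α → ℝ) (N b B : ℝ) (ha : ∀ i ∈ S, 0 ≤ a i) (hg : ∀ i ∈ S, Measurable (g i))
    (hg0 : ∀ i ∈ S, ∀ z, 0 ≤ g i z) (hN : 0 ≤ N) (hb : 0 ≤ b)
    (hi : ∀ i ∈ S, ∫⁻ z, ENNReal.ofReal (g i z) ∂μ ≤ ENNReal.ofReal b)
    (hB : N * ∑ i ∈ S, a i ≤ B) :
    ∫⁻ z, ENNReal.ofReal (N * ∑ i ∈ S, a i * g i z) ∂μ ≤ ENNReal.ofReal (B * b) := by
  have h1 : ∀ z, ENNReal.ofReal (N * ∑ i ∈ S, a i * g i z) =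
      ENNReal.ofReal N * ∑ i ∈ S, ENNReal.ofReal (a i) * ENNReal.ofReal (g i z) := by
    intro z
    rw [ENNReal.ofReal_mul hN,
      ENNReal.ofReal_sum_of_nonneg fun i hi => mul_nonneg (ha i hi) (hg0 i hi z)]
    congr 1
    apply Finset.sum_congr rfl
    intro i hi
    rw [ENNReal.ofReal_mul (ha i hi)]
  simp only [h1]
  have hm : ∀ i ∈ S, Measurable fun z => ENNReal.ofReal (a i) * ENNReal.ofReal (g i z) :=
    fun i hi => (hg i hi).ennreal_ofReal.const_mul _
  rw [lintegral_const_mul _ (Finset.measurable_fun_sum S hm), lintegral_finsetSum' _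
    fun i hi => (hm i hi).aemeasurable]
  calc ENNReal.ofReal N * ∑ i ∈ S, ∫⁻ z, ENNReal.ofReal (a i) * ENNReal.ofReal (g i z) ∂μ ≤
        ENNReal.ofReal N * ∑ i ∈ S, ENNReal.ofReal (a i) * ENNReal.ofReal b := by
        gcongr with i hi'
        rw [lintegral_const_mul _ (hg i hi').ennreal_ofReal]
        gcongr
        exact hi i hi'
    _ = ENNReal.ofReal (N * (∑ i ∈ S, a i) * b) := by
        rw [← Finset.sum_mul, ← ENNReal.ofReal_sum_of_nonneg ha, ← mul_assoc,
          ← ENNReal.ofReal_mul hN, ← ENNReal.ofReal_mul]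
        exact mul_nonneg hN (Finset.sum_nonneg ha)
    _ ≤ ENNReal.ofReal (B * b) := by
        apply ENNReal.ofReal_le_ofReal
        exact mul_le_mul_of_nonneg_right hB hb

end PBL_

open PBL_ in
theorem pbl_proof (hLAB : Stmt_LAB) (hEAB : Stmt_EAB) : Stmt_PBL := by
  intro C hC
  obtain ⟨n₀, hn₀⟩ := exists_nat_gt (Real.exp (max 2 (8 * C)))
  refine ⟨n₀, ?_⟩
  intro n m ι _ P S p ω w c hn hW
  have := probPm n
  have hlog : max 2 (8 * C) ≤ Real.log n := by
    rw [Real.le_log_iff_exp_le]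
    · have : (n₀ : ℝ) ≤ n := by exact_mod_cast hn
      linarith
    · have h1 : (n₀ : ℝ) ≤ n := by exact_mod_cast hn
      linarith [Real.exp_pos (max 2 (8 * C))]
  have hl2 : 2 ≤ Real.log n := le_trans (le_max_left _ _) hlog
  have hl8 : 8 * C ≤ Real.log n := le_trans (le_max_right _ _) hlog
  set l := Real.log n with hl
  have hl0 : 0 < l := by linarith
  set r : ℝ := 8 / l ^ 125 with hr
  have hr0 : 0 < r := by positivity
  -- facts on the profiles
  have hcc : ∀ i ∈ S, Continuous (c i) := fun i hi => (hW.pf i hi).dif.continuous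
  have hcb : ∀ i ∈ S, ∃ M, ∀ s, |c i s| ≤ M := fun i hi =>
    ⟨C / √(ω i), fun s => by
      rw [abs_of_pos ((hW.pf i hi).pos s)]
      exact (hW.pf i hi).bdd s⟩
  have hlab := fun i (hi : i ∈ S) => hLAB n m (c i) P (w i) hW.pr (hW.iso.nrm i) (hcc i hi)
    (hcb i hi)
  have hx1 : ∀ i ∈ S, ‖P (w i)‖ ^ 2 ≤ 1 := fun i hi => ((hW.om i hi).1).trans (hW.om i hi).2.1
  have heab := fun i (hi : i ∈ S) => hEAB (c i) (‖P (w i)‖ ^ 2) (sq_nonneg _) (hx1 i hi) (hcc i hi)
    (fun s => ((hW.pf i hi).pos s).le) (hW.pf i hi).mass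
  have hmass : (n : ℝ) * ∑ i ∈ S, p i * ‖P (w i)‖ ^ 2 ≤ l ^ 2 := by
    refine le_trans ?_ hW.sum
    apply mul_le_mul_of_nonneg_left _ (Nat.cast_nonneg n)
    apply Finset.sum_le_sum
    intro i hi
    exact mul_le_mul_of_nonneg_left (hW.om i hi).1 (hW.iso.ppos i).le
  have hab0 : ∀ i ∈ S, ∀ z, 0 ≤ ab (c i) P (w i) z := by
    intro i hi z
    rw [(hlab i hi).1 z]
    apply mul_nonneg
    · unfold sg
      positivity
    · exact integral_nonneg fun v => ((hW.pf i hi).pos _).le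
  set X1 : ℝ × EE n → ℝ := fun z => (n : ℝ) * ∑ i ∈ S, p i * ‖P (w i)‖ ^ 2 *
    (if ab (c i) P (w i) z < 8 / l ^ 125 then 1 else 0) with hX1
  set X2 : ℝ × EE n → ℝ := fun z => (n : ℝ) * ∑ i ∈ S, p i * ‖P (w i)‖ ^ 2 *
    (1 + ab (c i) P (w i) z) with hX2
  have hF1 : Measurable (fun s : ℝ => if s < r then (1 : ℝ) else 0) :=
    Measurable.ite measurableSet_Iio measurable_const measurable_const
  have hmX1 : Measurable X1 := by
    apply Measurable.const_mul
    apply Finset.measurable_sum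
    intro i hi
    apply Measurable.const_mul
    exact hF1.comp (hlab i hi).2.1
  have hmX2 : Measurable X2 := by
    apply Measurable.const_mul
    apply Finset.measurable_sum
    intro i hi
    apply Measurable.const_mul
    exact (hlab i hi).2.1.const_add 1
  have hE1 : ∫⁻ z, ENNReal.ofReal (X1 z) ∂(pm n) ≤
      ENNReal.ofReal (l ^ 2 * (C * r ^ (1 / 10 : ℝ))) := by
    refine lint_le (pm n) S (fun i => p i * ‖P (w i)‖ ^ 2)
      (fun i z => if ab (c i) P (w i) z < 8 / l ^ 125 then 1 else 0) n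
      (C * r ^ (1 / 10 : ℝ)) (l ^ 2) (fun i hi => mul_nonneg (hW.iso.ppos i).le (sq_nonneg _))
      (fun i hi => hF1.comp (hlab i hi).2.1) ?_ (Nat.cast_nonneg n) (by positivity) ?_ hmass
    · intro i hi z
      split_ifs <;> norm_num
    · intro i hi
      have h1 := (hlab i hi).2.2.2 (fun s => ENNReal.ofReal (if s < r then (1 : ℝ) else 0))
        hF1.ennreal_ofReal
      have h2 : ∫⁻ z, ENNReal.ofReal (if ab (c i) P (w i) z < 8 / l ^ 125 then 1 else 0) ∂(pm n) =
        ∫⁻ z : ℝ × ℝ, ENNReal.ofReal (if zb (c i) (‖P (w i)‖ ^ 2) z.1 z.2 < r then (1 : ℝ) else 0)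
          ∂(ex.prod ga1) := h1
      rw [h2]
      have h3 : ∀ z : ℝ × ℝ, ENNReal.ofReal (if zb (c i) (‖P (w i)‖ ^ 2) z.1 z.2 < r
          then (1 : ℝ) else 0) =
          {z : ℝ × ℝ | zb (c i) (‖P (w i)‖ ^ 2) z.1 z.2 < r}.indicator 1 z := by
        intro z
        by_cases h : zb (c i) (‖P (w i)‖ ^ 2) z.1 z.2 < r
        · rw [if_pos h, indicator_of_mem (by exact h)]
          simp
        · rw [if_neg h, indicator_of_notMem (by exact h)]
          simp
      simp only [h3]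
      rw [lintegral_indicator_one (measurableSet_lt (hlab i hi).2.2.1 measurable_const)]
      exact (hW.pf i hi).inv r hr0
  have hE2 : ∫⁻ z, ENNReal.ofReal (X2 z) ∂(pm n) ≤ ENNReal.ofReal (l ^ 2 * 2) := by
    refine lint_le (pm n) S (fun i => p i * ‖P (w i)‖ ^ 2)
      (fun i z => 1 + ab (c i) P (w i) z) n 2 (l ^ 2)
      (fun i hi => mul_nonneg (hW.iso.ppos i).le (sq_nonneg _))
      (fun i hi => (hlab i hi).2.1.const_add 1)
      (fun i hi z => by linarith [hab0 i hi z]) (Nat.cast_nonneg n) (by norm_num) ?_ hmass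
    intro i hi
    have h1 : ∀ z, ENNReal.ofReal (1 + ab (c i) P (w i) z) =
        1 + ENNReal.ofReal (ab (c i) P (w i) z) := by
      intro z
      rw [ENNReal.ofReal_add zero_le_one (hab0 i hi z), ENNReal.ofReal_one]
    simp only [h1]
    rw [lintegral_add_left measurable_const, lintegral_const, measure_univ, mul_one]
    have h2 := (hlab i hi).2.2.2 (fun s => ENNReal.ofReal s) ENNReal.measurable_ofReal
    have h3 : ∫⁻ z, ENNReal.ofReal (ab (c i) P (w i) z) ∂(pm n) = ENNReal.ofReal (EZ (c i)) :=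
      h2.trans (heab i hi).1
    rw [h3]
    calc 1 + ENNReal.ofReal (EZ (c i)) ≤ 1 + ENNReal.ofReal 1 :=
          add_le_add_right (ENNReal.ofReal_le_ofReal (heab i hi).2.2.1) 1
      _ = ENNReal.ofReal 2 := by
          rw [ENNReal.ofReal_one]
          norm_num
  obtain ⟨hn1, hn2⟩ := numerics C l hC hl2 hl8
  refine ⟨{z | X1 z ≤ 1 / 2 ∧ X2 z ≤ l ^ 125 / 2}, ?_, ?_, ?_⟩
  · exact (measurableSet_le hmX1 measurable_const).inter (measurableSet_le hmX2 measurable_const)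
  · have h1 := markov (pm n) X1 hmX1 (1 / 2) _ (by norm_num) hE1
    have h2 := markov (pm n) X2 hmX2 (l ^ 125 / 2) _ (by positivity) hE2
    have hsub : {z | X1 z ≤ 1 / 2 ∧ X2 z ≤ l ^ 125 / 2}ᶜ ⊆
        {z | ¬ X1 z ≤ 1 / 2} ∪ {z | ¬ X2 z ≤ l ^ 125 / 2} := by
      intro z hz
      by_cases h : X1 z ≤ 1 / 2
      · right
        exact fun h' => hz ⟨h, h'⟩
      · left
        exact h
    calc (pm n) {z | X1 z ≤ 1 / 2 ∧ X2 z ≤ l ^ 125 / 2}ᶜ ≤
          (pm n) {z | ¬ X1 z ≤ 1 / 2} + (pm n) {z | ¬ X2 z ≤ l ^ 125 / 2} :=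
          (measure_mono hsub).trans (measure_union_le _ _)
      _ ≤ ENNReal.ofReal (l ^ (-9 : ℝ) / 2) + ENNReal.ofReal (l ^ (-9 : ℝ) / 2) :=
          add_le_add (h1.trans (ENNReal.ofReal_le_ofReal hn1))
            (h2.trans (ENNReal.ofReal_le_ofReal hn2))
      _ = ENNReal.ofReal (l ^ (-9 : ℝ)) := by
          rw [← ENNReal.ofReal_add (by positivity) (by positivity)]
          congr 1
          ring
  · intro z hz
    exact hz

end

end PPW
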