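import Pool.Agent.PPW.Stmts

/-!
# Squad PPW (MP_0bf616_gt), module PBQ: Markov's inequality for the difference between the
coefficients and their conditional means
-/

set_option autoImplicit false

namespace PPW

open MeasureTheory Set Filter Topology ProbabilityTheory
open PPI PPG PPX
open scoped Pointwise ENNReal

noncomputable section

namespace PBQ_

theorem probGam (n : ℕ) : IsProbabilityMeasure (gam n) := by unfold gam; infer_instance

theorem meas_sg : Measurable sg := by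
  unfold sg
  fun_prop

theorem meas_ab {n : ℕ} (c : ℝ → ℝ) (hc : Continuous c) (P : EE n →L[ℝ] EE n) (w : EE n) :
    Measurable (fun z : ℝ × EE n => ab c P w z) := by
  have := probGam n
  have h1 : Measurable (fun z : (ℝ × EE n) × EE n => sg z.1.1) :=
    meas_sg.comp (measurable_fst.comp measurable_fst)
  have h2 : Measurable (fun z : (ℝ × EE n) × EE n => (inner ℝ (P z.1.2 + (z.2 - P z.2)) w : ℝ)) := by
    apply Continuous.measurable
    fun_prop
  have h : StronglyMeasurable (fun z : (ℝ × EE n) × EE n =>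
      c (sg z.1.1 * inner ℝ (P z.1.2 + (z.2 - P z.2)) w)) :=
    (hc.measurable.comp (h1.mul h2)).stronglyMeasurable
  have h3 : Measurable (fun z : ℝ × EE n =>
      ∫ y', c (sg z.1 * inner ℝ (P z.2 + (y' - P y')) w) ∂(gam n)) :=
    (h.integral_prod_right' (ν := gam n)).measurable
  have h4 : Measurable (fun z : ℝ × EE n => √(Real.pi / 2) * sg z.1) :=
    (meas_sg.comp measurable_fst).const_mul _
  exact h4.mul h3

theorem meas_aa {n : ℕ} (c : ℝ → ℝ) (hc : Continuous c) (w : EE n) :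
    Measurable (fun z : ℝ × EE n => aa c w z) := by
  have h1 : Measurable (fun z : ℝ × EE n => sg z.1) := meas_sg.comp measurable_fst
  have h2 : Measurable (fun z : ℝ × EE n => (inner ℝ (pt z) w : ℝ)) := by
    have h5 : (fun z : ℝ × EE n => (inner ℝ (pt z) w : ℝ)) =
        fun z => sg z.1 * inner ℝ z.2 w := by
      funext z
      unfold pt
      rw [inner_smul_left]
      simp
    rw [h5]
    refine h1.mul ?_
    apply Continuous.measurable
    fun_prop
  exact (h1.const_mul (√(Real.pi / 2))).mul (hc.measurable.comp h2)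

theorem meas_hs {n : ℕ} {ι : Type} [Fintype ι] (S : Finset ι) (α : ι → ℝ × EE n → ℝ)
    (u : ι → EE n) (hα : ∀ i ∈ S, Measurable (α i)) :
    Measurable (fun z : ℝ × EE n => hs (sm S (fun i => α i z) u)) := by
  unfold hs sm
  simp only [Matrix.of_apply]
  refine Finset.measurable_sum _ fun k _ => Finset.measurable_sum _ fun l _ => ?_
  refine Measurable.pow_const ?_ 2
  refine Finset.measurable_sum _ fun i hi => ?_
  exact (hα i hi).mul_const _

theorem numerics (C κ l : ℝ) (hC : 0 < C) (hκ : 0 < κ) (h1 : 2 ≤ l) (h2 : 4 * C ^ 2 / κ ^ 2 ≤ l) :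
    4 * l ^ (-4400 : ℝ) * (l ^ 5) ^ 4 * (C ^ 2 * l ^ 1102) / (κ / (l ^ 125) ^ 2) ^ 2 ≤
      l ^ (-9 : ℝ) := by
  have hl : 0 < l := by linarith
  have hm9 : l ^ (-9 : ℝ) = (l ^ 9)⁻¹ := by
    rw [Real.rpow_neg hl.le]
    congr 1
    exact_mod_cast Real.rpow_natCast l 9
  have hm4 : l ^ (-4400 : ℝ) = (l ^ 4400)⁻¹ := by
    rw [Real.rpow_neg hl.le]
    congr 1
    exact_mod_cast Real.rpow_natCast l 4400
  rw [hm9, hm4]
  have h3 : 4 * (l ^ 4400)⁻¹ * (l ^ 5) ^ 4 * (C ^ 2 * l ^ 1102) / (κ / (l ^ 125) ^ 2) ^ 2 =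
      4 * C ^ 2 / κ ^ 2 * (l ^ 2778)⁻¹ := by
    have e1 : l ^ 4400 = l ^ 2778 * l ^ 1622 := by rw [← pow_add]
    have e2 : l ^ 1622 = l ^ 20 * l ^ 1102 * l ^ 500 := by rw [← pow_add, ← pow_add]
    have e3 : (l ^ 5) ^ 4 = l ^ 20 := by rw [← pow_mul]
    have e4 : ((l ^ 125) ^ 2) ^ 2 = l ^ 500 := by rw [← pow_mul, ← pow_mul]
    have e5 : (κ / (l ^ 125) ^ 2) ^ 2 = κ ^ 2 / l ^ 500 := by rw [div_pow, e4]
    rw [e1, e2, e3, e5]
    have p1 : l ^ 20 ≠ 0 := by positivity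
    have p2 : l ^ 1102 ≠ 0 := by positivity
    have p3 : l ^ 500 ≠ 0 := by positivity
    have p4 : l ^ 2778 ≠ 0 := by positivity
    generalize l ^ 20 = a at *
    generalize l ^ 1102 = b at *
    generalize l ^ 500 = d at *
    generalize l ^ 2778 = e at *
    field_simp
  rw [h3]
  calc 4 * C ^ 2 / κ ^ 2 * (l ^ 2778)⁻¹ ≤ l * (l ^ 10)⁻¹ := by
        apply mul_le_mul h2 _ (by positivity) hl.le
        apply inv_anti₀ (by positivity)
        exact pow_le_pow_right₀ (by linarith) (by norm_num)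
    _ = (l ^ 9)⁻¹ := by
        field_simp

end PBQ_

open PBQ_ in
theorem pbq_proof (hQAB : Stmt_QAB) : Stmt_PBQ := by
  intro C κ hC hκ
  obtain ⟨n₀, hn₀⟩ := exists_nat_gt (Real.exp (max 2 (4 * C ^ 2 / κ ^ 2)))
  refine ⟨max 16 n₀, ?_⟩
  intro n m ι _ P S p ω w c hn hW
  have hn16 : 16 ≤ n := le_trans (le_max_left _ _) hn
  have hnn : n₀ ≤ n := le_trans (le_max_right _ _) hn
  have hlog : max 2 (4 * C ^ 2 / κ ^ 2) ≤ Real.log n := by
    have h1 : (n₀ : ℝ) ≤ n := by exact_mod_cast hnn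
    rw [Real.le_log_iff_exp_le]
    · linarith
    · linarith [Real.exp_pos (max 2 (4 * C ^ 2 / κ ^ 2))]
  have hl2 : 2 ≤ Real.log n := le_trans (le_max_left _ _) hlog
  have hl8 : 4 * C ^ 2 / κ ^ 2 ≤ Real.log n := le_trans (le_max_right _ _) hlog
  set l := Real.log n with hl
  have hl0 : 0 < l := by linarith
  have hcc : ∀ i ∈ S, Continuous (c i) := fun i hi => (hW.pf i hi).dif.continuous
  have hcb : ∀ i ∈ S, ∃ M, ∀ s, |c i s| ≤ M := fun i hi =>
    ⟨C / √(ω i), fun s => by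
      rw [abs_of_pos ((hW.pf i hi).pos s)]
      exact (hW.pf i hi).bdd s⟩
  have hR : (1 : ℝ) ≤ l ^ 5 := one_le_pow₀ (by linarith)
  have hq := hQAB n m ι P S p (fun i => C / ω i) w c (l ^ (-4400 : ℝ)) (l ^ 5) hn16 hW.iso hW.pr hR
    (fun i hi => (hW.pf i hi).dif) (fun i hi s => (hW.pf i hi).der s) hcb hW.lam
  have hm4 : l ^ (-1100 : ℝ) = (l ^ 1100)⁻¹ := by
    rw [Real.rpow_neg hl0.le]
    congr 1
    exact_mod_cast Real.rpow_natCast l 1100
  have hsum : (n : ℝ) * ∑ i ∈ S, p i * (C / ω i) ^ 2 * ‖P (w i)‖ ^ 4 ≤ C ^ 2 * l ^ 1102 := by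
    have h1 : (n : ℝ) * ∑ i ∈ S, p i * (C / ω i) ^ 2 * ‖P (w i)‖ ^ 4 ≤
        n * ∑ i ∈ S, C ^ 2 * l ^ 1100 * (p i * ω i) := by
      apply mul_le_mul_of_nonneg_left _ (Nat.cast_nonneg n)
      apply Finset.sum_le_sum
      intro i hi
      obtain ⟨h2, h3, h4⟩ := hW.om i hi
      have hω : 0 < ω i := lt_of_lt_of_le (Real.rpow_pos_of_pos hl0 _) h4
      have h5 : (C / ω i) ^ 2 * ‖P (w i)‖ ^ 4 ≤ C ^ 2 := by
        have h6 : ‖P (w i)‖ ^ 4 = (‖P (w i)‖ ^ 2) ^ 2 := by ring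
        rw [h6, div_pow, div_mul_eq_mul_div, div_le_iff₀ (by positivity)]
        apply mul_le_mul_of_nonneg_left _ (by positivity)
        exact pow_le_pow_left₀ (by positivity) h2 2
      have h7 : 1 ≤ l ^ 1100 * ω i := by
        rw [hm4] at h4
        have h8 : 0 < l ^ 1100 := by positivity
        calc (1 : ℝ) = l ^ 1100 * (l ^ 1100)⁻¹ := (mul_inv_cancel₀ h8.ne').symm
          _ ≤ l ^ 1100 * ω i := mul_le_mul_of_nonneg_left h4 h8.le
      have hp : 0 < p i := hW.iso.ppos i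
      calc p i * (C / ω i) ^ 2 * ‖P (w i)‖ ^ 4 = p i * ((C / ω i) ^ 2 * ‖P (w i)‖ ^ 4) := by ring
        _ ≤ p i * C ^ 2 := mul_le_mul_of_nonneg_left h5 hp.le
        _ ≤ p i * C ^ 2 * (l ^ 1100 * ω i) := le_mul_of_one_le_right (by positivity) h7
        _ = C ^ 2 * l ^ 1100 * (p i * ω i) := by ring
    have h9 : (n : ℝ) * ∑ i ∈ S, C ^ 2 * l ^ 1100 * (p i * ω i) =
        C ^ 2 * l ^ 1100 * (n * ∑ i ∈ S, p i * ω i) := by
      rw [← Finset.mul_sum]
      ring
    rw [h9] at h1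
    refine h1.trans ?_
    calc C ^ 2 * l ^ 1100 * (n * ∑ i ∈ S, p i * ω i) ≤ C ^ 2 * l ^ 1100 * l ^ 2 :=
          mul_le_mul_of_nonneg_left hW.sum (by positivity)
      _ = C ^ 2 * l ^ 1102 := by
          rw [mul_assoc, ← pow_add]
  set X : ℝ × EE n → ℝ := fun z => hs (sm S (fun i =>
        n * p i * ((1 - de n) * (aa (c i) (w i) z - ab (c i) P (w i) z)))
        (fun i => P (w i))) with hX
  have hmX : Measurable X := by
    refine meas_hs S (fun i z => n * p i * ((1 - de n) *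
      (aa (c i) (w i) z - ab (c i) P (w i) z))) (fun i => P (w i)) fun i hi => ?_
    exact (((meas_aa (c i) (hcc i hi) (w i)).sub (meas_ab (c i) (hcc i hi) P (w i))).const_mul
      (1 - de n)).const_mul ((n : ℝ) * p i)
  set A : Set (ℝ × EE n) := {z | 0 < z.1 ∧ sg z.1 ≤ l ^ 5} with hA
  have hmA : MeasurableSet A := by
    apply MeasurableSet.inter
    · exact measurableSet_lt measurable_const measurable_fst
    · exact measurableSet_le (meas_sg.comp measurable_fst) measurable_const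
  set θ : ℝ := (κ / (l ^ 125) ^ 2) ^ 2 with hθ
  have hθ0 : 0 < θ := by positivity
  have hint : ∫⁻ z in A, ENNReal.ofReal (X z) ∂(pm n) ≤
      ENNReal.ofReal (4 * l ^ (-4400 : ℝ) * (l ^ 5) ^ 4 * (C ^ 2 * l ^ 1102)) := by
    refine hq.trans (ENNReal.ofReal_le_ofReal ?_)
    apply mul_le_mul_of_nonneg_left hsum
    have : 0 < l ^ (-4400 : ℝ) := Real.rpow_pos_of_pos hl0 _
    positivity
  refine ⟨(A ∩ {z | ¬ X z ≤ θ})ᶜ, ?_, ?_, ?_⟩
  · exact (hmA.inter (measurableSet_le hmX measurable_const).compl).compl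
  · rw [compl_compl]
    have h1 : (pm n) (A ∩ {z | ¬ X z ≤ θ}) ≤
        ((pm n).restrict A) {z | ENNReal.ofReal θ ≤ ENNReal.ofReal (X z)} := by
      rw [Measure.restrict_apply' hmA, inter_comm]
      apply measure_mono
      rintro z ⟨hz, hz'⟩
      refine ⟨?_, hz'⟩
      simp only [mem_ofPred_eq, not_le] at hz ⊢
      exact ENNReal.ofReal_le_ofReal hz.le
    have h2 := meas_ge_le_lintegral_div (μ := (pm n).restrict A)
      (f := fun z => ENNReal.ofReal (X z)) hmX.ennreal_ofReal.aemeasurable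
      (ε := ENNReal.ofReal θ) (by simpa using hθ0) ENNReal.ofReal_ne_top
    calc (pm n) (A ∩ {z | ¬ X z ≤ θ}) ≤ _ := h1
      _ ≤ _ := h2
      _ ≤ ENNReal.ofReal (4 * l ^ (-4400 : ℝ) * (l ^ 5) ^ 4 * (C ^ 2 * l ^ 1102)) /
          ENNReal.ofReal θ := by gcongr
      _ = ENNReal.ofReal (4 * l ^ (-4400 : ℝ) * (l ^ 5) ^ 4 * (C ^ 2 * l ^ 1102) / θ) := by
          rw [ENNReal.ofReal_div_of_pos hθ0]
      _ ≤ ENNReal.ofReal (l ^ (-9 : ℝ)) :=
          ENNReal.ofReal_le_ofReal (numerics C κ l hC hκ hl2 hl8)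
  · intro z hz h0 h1
    by_contra h
    exact hz ⟨⟨h0, h1⟩, h⟩

end

end PPW
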