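import Pool.Agent.PPW.Stmts

/-!
# Squad PPW, module POM: concentration of matrices
-/

set_option autoImplicit false

namespace PPW

open MeasureTheory Set Filter Topology ProbabilityTheory
open PPI PPG PPX
open scoped Pointwise ENNReal

namespace POM_

instance (n : ℕ) : IsProbabilityMeasure (gam n) := by
  unfold gam
  infer_instance

theorem vec_bound {n : ℕ} {ι : Type} (S : Finset ι) (μ c : ι → ℝ) (f : ι → EE n) (Λ : ℝ)
    (hΛ0 : 0 ≤ Λ) (hμ : ∀ i ∈ S, 0 ≤ μ i)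
    (hΛ : ∀ e : EE n, ∑ i ∈ S, μ i * (inner ℝ (f i) e) ^ 2 ≤ Λ * ‖e‖ ^ 2) :
    ‖∑ i ∈ S, (μ i * c i) • f i‖ ^ 2 ≤ Λ * ∑ i ∈ S, μ i * c i ^ 2 := by
  obtain ⟨V, hV⟩ : ∃ V, V = ∑ i ∈ S, (μ i * c i) • f i := ⟨_, rfl⟩
  rw [← hV]
  have hQ : 0 ≤ ∑ i ∈ S, μ i * c i ^ 2 :=
    Finset.sum_nonneg fun i hi => mul_nonneg (hμ i hi) (sq_nonneg _)
  have h1 : ‖V‖ ^ 2 = ∑ i ∈ S, (√(μ i) * c i) * (√(μ i) * (inner ℝ (f i) V : ℝ)) := by
    rw [← real_inner_self_eq_norm_sq]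
    nth_rewrite 1 [hV]
    rw [sum_inner]
    refine Finset.sum_congr rfl fun i hi => ?_
    rw [real_inner_smul_left]
    have := Real.mul_self_sqrt (hμ i hi)
    calc μ i * c i * (inner ℝ (f i) V : ℝ) = (√(μ i) * √(μ i)) * c i * (inner ℝ (f i) V : ℝ) := by
          rw [this]
      _ = _ := by ring
  have h2 := Finset.sum_mul_sq_le_sq_mul_sq S (fun i => √(μ i) * c i)
    (fun i => √(μ i) * (inner ℝ (f i) V : ℝ))
  rw [← h1] at h2
  have h3 : ∑ i ∈ S, (√(μ i) * c i) ^ 2 = ∑ i ∈ S, μ i * c i ^ 2 :=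
    Finset.sum_congr rfl fun i hi => by rw [mul_pow, Real.sq_sqrt (hμ i hi)]
  have h4 : ∑ i ∈ S, (√(μ i) * (inner ℝ (f i) V : ℝ)) ^ 2 =
      ∑ i ∈ S, μ i * (inner ℝ (f i) V) ^ 2 :=
    Finset.sum_congr rfl fun i hi => by rw [mul_pow, Real.sq_sqrt (hμ i hi)]
  rw [h3, h4] at h2
  have h5 := hΛ V
  rcases eq_or_ne (‖V‖ ^ 2) 0 with h0 | h0
  · rw [h0]
    exact mul_nonneg hΛ0 hQ
  · have h6 : 0 < ‖V‖ ^ 2 := lt_of_le_of_ne (sq_nonneg _) (Ne.symm h0)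
    have h7 : ‖V‖ ^ 2 * ‖V‖ ^ 2 ≤ (Λ * ∑ i ∈ S, μ i * c i ^ 2) * ‖V‖ ^ 2 := by
      calc ‖V‖ ^ 2 * ‖V‖ ^ 2 = (‖V‖ ^ 2) ^ 2 := by ring
        _ ≤ (∑ i ∈ S, μ i * c i ^ 2) * ∑ i ∈ S, μ i * (inner ℝ (f i) V) ^ 2 := h2
        _ ≤ (∑ i ∈ S, μ i * c i ^ 2) * (Λ * ‖V‖ ^ 2) := by gcongr
        _ = _ := by ring
    exact le_of_mul_le_mul_right h7 h6

theorem hasF {n : ℕ} (φ : ℝ → ℝ) (hφ : ContDiff ℝ 1 φ) (f y : EE n) :
    HasFDerivAt (fun y : EE n => φ (inner ℝ y f)) (deriv φ (inner ℝ y f) • innerSL ℝ f) y := by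
  have h1 : HasFDerivAt (fun y : EE n => (inner ℝ y f : ℝ)) (innerSL ℝ f) y := by
    have h2 : (fun y : EE n => (inner ℝ y f : ℝ)) = fun y => innerSL ℝ f y := by
      funext y
      rw [innerSL_apply_apply, real_inner_comm]
    rw [h2]
    exact (innerSL ℝ f).hasFDerivAt
  have h3 : HasDerivAt φ (deriv φ (inner ℝ y f)) (inner ℝ y f) :=
    ((hφ.differentiable (by norm_num)) _).hasDerivAt
  exact h3.comp_hasFDerivAt y h1

theorem contF {n : ℕ} (φ : ℝ → ℝ) (hφ : ContDiff ℝ 1 φ) (f : EE n) :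
    ContDiff ℝ 1 (fun y : EE n => φ (inner ℝ y f)) := by
  have h1 : ContDiff ℝ 1 (fun y : EE n => (inner ℝ y f : ℝ)) :=
    contDiff_id.inner ℝ contDiff_const
  exact hφ.comp h1

theorem norm4 {n : ℕ} (h : EE n) : ∑ k, ∑ l, (h k * h l) ^ 2 = ‖h‖ ^ 4 := by
  have h1 : ‖h‖ ^ 2 = ∑ k, (h k) ^ 2 := by
    rw [EuclideanSpace.norm_sq_eq]
    refine Finset.sum_congr rfl fun k _ => ?_
    rw [Real.norm_eq_abs, sq_abs]
  calc ∑ k, ∑ l, (h k * h l) ^ 2 = (∑ k, (h k) ^ 2) * ∑ l, (h l) ^ 2 := by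
        rw [Finset.sum_mul_sum]
        refine Finset.sum_congr rfl fun k _ => Finset.sum_congr rfl fun l _ => ?_
        ring
    _ = ‖h‖ ^ 4 := by rw [← h1]; ring

end POM_

open POM_ in
theorem pom_proof (hGPI : Stmt_GPI) : Stmt_POM := by
  intro n ι _ S μ l h f φ Λ hμ hφ hl hΛ
  rcases Nat.eq_zero_or_pos n with hn | hn
  · subst hn
    have : ∀ M : Matrix (Fin 0) (Fin 0) ℝ, hs M = 0 := fun M => by simp [hs]
    simp [this]
  have hΛ0 : 0 ≤ Λ := by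
    have h1 := hΛ (EuclideanSpace.single ⟨0, hn⟩ 1)
    have h0 : ‖(EuclideanSpace.single (⟨0, hn⟩ : Fin n) (1 : ℝ))‖ = 1 := by simp
    rw [h0, one_pow, mul_one] at h1
    refine le_trans ?_ h1
    exact Finset.sum_nonneg fun i hi => mul_nonneg (hμ i hi) (sq_nonneg _)
  obtain ⟨ψ, hψ⟩ : ∃ ψ : ι → EE n → ℝ, ψ = fun i y => φ i (inner ℝ y (f i)) := ⟨_, rfl⟩
  have hψ' : ∀ i y, φ i (inner ℝ y (f i)) = ψ i y := fun i y => by rw [hψ]
  obtain ⟨M, hM⟩ : ∃ M : ι → ℝ, M = fun i => ∫ y', ψ i y' ∂(gam n) := ⟨_, rfl⟩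
  have hM' : ∀ i, ∫ y', ψ i y' ∂(gam n) = M i := fun i => by rw [hM]
  have hint : ∀ i ∈ S, Integrable (ψ i) (gam n) := by
    intro i hi
    have h1 : ContDiff ℝ 1 (ψ i) := by
      rw [hψ]
      exact contF (φ i) (hφ i hi) (f i)
    refine (hGPI n (ψ i) (l i * ‖f i‖) h1 ?_).1
    intro y
    have h2 : HasFDerivAt (ψ i) (deriv (φ i) (inner ℝ y (f i)) • innerSL ℝ (f i)) y := by
      rw [hψ]
      exact hasF (φ i) (hφ i hi) (f i) y
    rw [h2.fderiv, norm_smul, innerSL_apply_norm, Real.norm_eq_abs]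
    have := hl i hi (inner ℝ y (f i))
    gcongr
  -- the entries
  obtain ⟨F, hF⟩ : ∃ F : Fin n → Fin n → EE n → ℝ,
    F = fun k l' y => ∑ i ∈ S, (μ i * (h i k * h i l')) * ψ i y := ⟨_, rfl⟩
  have hFm : ∀ k l', ∫ y, F k l' y ∂(gam n) = ∑ i ∈ S, (μ i * (h i k * h i l')) * M i := by
    intro k l'
    rw [hF]
    show ∫ y, ∑ i ∈ S, (μ i * (h i k * h i l')) * ψ i y ∂(gam n) = _
    rw [integral_finsetSum]
    · refine Finset.sum_congr rfl fun i _ => ?_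
      rw [integral_const_mul, hM']
    · intro i hi
      exact (hint i hi).const_mul _
  have hentry : ∀ k l' y, (sm S (fun i => μ i * (ψ i y - M i)) h) k l' =
      F k l' y - ∫ y', F k l' y' ∂(gam n) := by
    intro k l' y
    rw [hFm, hF]
    show ∑ i ∈ S, μ i * (ψ i y - M i) * (h i k * h i l') =
      ∑ i ∈ S, (μ i * (h i k * h i l')) * ψ i y - ∑ i ∈ S, (μ i * (h i k * h i l')) * M i
    rw [← Finset.sum_sub_distrib]
    refine Finset.sum_congr rfl fun i _ => ?_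
    ring
  have hFc : ∀ k l', ContDiff ℝ 1 (F k l') := by
    intro k l'
    rw [hF, hψ]
    show ContDiff ℝ 1 fun y => ∑ i ∈ S, (μ i * (h i k * h i l')) * φ i (inner ℝ y (f i))
    refine ContDiff.sum fun i hi => ?_
    exact contDiff_const.mul (contF (φ i) (hφ i hi) (f i))
  have hFd : ∀ k l' y, ‖fderiv ℝ (F k l') y‖ ^ 2 ≤
      Λ * ∑ i ∈ S, μ i * l i ^ 2 * (h i k * h i l') ^ 2 := by
    intro k l' y
    have h1 : HasFDerivAt (F k l') (∑ i ∈ S, (μ i * (h i k * h i l')) •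
        (deriv (φ i) (inner ℝ y (f i)) • innerSL ℝ (f i))) y := by
      rw [hF, hψ]
      show HasFDerivAt (fun y => ∑ i ∈ S, (μ i * (h i k * h i l')) * φ i (inner ℝ y (f i))) _ y
      refine HasFDerivAt.fun_sum fun i hi => ?_
      exact (hasF (φ i) (hφ i hi) (f i) y).const_mul _
    have h2 : (∑ i ∈ S, (μ i * (h i k * h i l')) •
        (deriv (φ i) (inner ℝ y (f i)) • innerSL ℝ (f i)) : EE n →L[ℝ] ℝ) =
        innerSL ℝ (∑ i ∈ S, (μ i * ((h i k * h i l') * deriv (φ i) (inner ℝ y (f i)))) • f i) := by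
      ext z
      rw [innerSL_apply_apply, sum_inner]
      simp only [sum_apply, smul_apply, innerSL_apply_apply, smul_eq_mul, real_inner_smul_left]
      refine Finset.sum_congr rfl fun i _ => ?_
      ring
    rw [h1.fderiv, h2, innerSL_apply_norm]
    refine (vec_bound S μ _ f Λ hΛ0 hμ hΛ).trans ?_
    refine mul_le_mul_of_nonneg_left ?_ hΛ0
    refine Finset.sum_le_sum fun i hi => ?_
    have h3 : (deriv (φ i) (inner ℝ y (f i))) ^ 2 ≤ l i ^ 2 := by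
      have h4 := hl i hi (inner ℝ y (f i))
      rw [← sq_abs]
      have := abs_nonneg (deriv (φ i) (inner ℝ y (f i)))
      gcongr
    have h5 := hμ i hi
    calc μ i * ((h i k * h i l') * deriv (φ i) (inner ℝ y (f i))) ^ 2 =
          μ i * ((h i k * h i l') ^ 2 * (deriv (φ i) (inner ℝ y (f i))) ^ 2) := by ring
      _ ≤ μ i * ((h i k * h i l') ^ 2 * l i ^ 2) := by gcongr
      _ = μ i * l i ^ 2 * (h i k * h i l') ^ 2 := by ring
  have hFG : ∀ k l', Integrable (fun y => (F k l' y - ∫ y', F k l' y' ∂(gam n)) ^ 2) (gam n) ∧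
      ∫ y, (F k l' y - ∫ y', F k l' y' ∂(gam n)) ^ 2 ∂(gam n) ≤
        2 * (Λ * ∑ i ∈ S, μ i * l i ^ 2 * (h i k * h i l') ^ 2) := by
    intro k l'
    obtain ⟨Q, hQ⟩ : ∃ Q, Q = Λ * ∑ i ∈ S, μ i * l i ^ 2 * (h i k * h i l') ^ 2 := ⟨_, rfl⟩
    have hQ0 : 0 ≤ Q := by
      have := hFd k l' 0
      rw [← hQ] at this
      exact (sq_nonneg _).trans this
    have h1 := hGPI n (F k l') (√Q) (hFc k l') (by
      intro y
      have := hFd k l' y
      rw [← hQ] at this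
      exact Real.le_sqrt_of_sq_le this)
    refine ⟨h1.2.1, h1.2.2.trans ?_⟩
    rw [← hQ]
    have h2 : ∫ y, ‖fderiv ℝ (F k l') y‖ ^ 2 ∂(gam n) ≤ ∫ _y, Q ∂(gam n) := by
      refine integral_mono_of_nonneg (Eventually.of_forall fun y => sq_nonneg _)
        (integrable_const _) (Eventually.of_forall fun y => ?_)
      rw [hQ]
      exact hFd k l' y
    rw [integral_const, smul_eq_mul, probReal_univ, one_mul] at h2
    have h3 : Real.pi ^ 2 / 8 ≤ 2 := by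
      have := Real.pi_lt_four
      have := Real.pi_pos
      nlinarith
    have h4 : 0 ≤ Real.pi ^ 2 / 8 := by positivity
    calc Real.pi ^ 2 / 8 * ∫ y, ‖fderiv ℝ (F k l') y‖ ^ 2 ∂(gam n) ≤ Real.pi ^ 2 / 8 * Q := by
          gcongr
      _ ≤ 2 * Q := by gcongr
  -- assembly
  simp only [hψ', hM']
  have hhs : ∀ y, hs (sm S (fun i => μ i * (ψ i y - M i)) h) =
      ∑ k, ∑ l', (F k l' y - ∫ y', F k l' y' ∂(gam n)) ^ 2 := by
    intro y
    show ∑ k, ∑ l', (sm S (fun i => μ i * (ψ i y - M i)) h) k l' ^ 2 = _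
    refine Finset.sum_congr rfl fun k _ => Finset.sum_congr rfl fun l' _ => ?_
    rw [hentry]
  simp only [hhs]
  rw [← ofReal_integral_eq_lintegral_ofReal]
  · refine ENNReal.ofReal_le_ofReal ?_
    rw [integral_finsetSum _ (fun k _ => integrable_finsetSum _ fun l' _ => (hFG k l').1)]
    have h1 : ∀ k, ∫ y, ∑ l', (F k l' y - ∫ y', F k l' y' ∂(gam n)) ^ 2 ∂(gam n) =
        ∑ l', ∫ y, (F k l' y - ∫ y', F k l' y' ∂(gam n)) ^ 2 ∂(gam n) := fun k =>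
      integral_finsetSum _ fun l' _ => (hFG k l').1
    simp only [h1]
    calc ∑ k, ∑ l', ∫ y, (F k l' y - ∫ y', F k l' y' ∂(gam n)) ^ 2 ∂(gam n) ≤
          ∑ k, ∑ l', 2 * (Λ * ∑ i ∈ S, μ i * l i ^ 2 * (h i k * h i l') ^ 2) :=
          Finset.sum_le_sum fun k _ => Finset.sum_le_sum fun l' _ => (hFG k l').2
      _ = 2 * Λ * ∑ i ∈ S, μ i * l i ^ 2 * ∑ k, ∑ l', (h i k * h i l') ^ 2 := by
          simp only [← Finset.mul_sum, mul_assoc]
          congr 2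
          have h2 : ∀ k, ∑ l', ∑ i ∈ S, μ i * (l i ^ 2 * (h i k * h i l') ^ 2) =
              ∑ i ∈ S, ∑ l', μ i * (l i ^ 2 * (h i k * h i l') ^ 2) := fun k => Finset.sum_comm
          simp only [h2]
          rw [Finset.sum_comm]
          refine Finset.sum_congr rfl fun i _ => ?_
          simp only [Finset.mul_sum]
      _ = 2 * Λ * ∑ i ∈ S, μ i * l i ^ 2 * ‖h i‖ ^ 4 := by
          simp only [norm4]
  · exact integrable_finsetSum _ fun k _ => integrable_finsetSum _ fun l' _ => (hFG k l').1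
  · exact Eventually.of_forall fun y =>
      Finset.sum_nonneg fun k _ => Finset.sum_nonneg fun l' _ => sq_nonneg _

end PPW
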