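import Pool.Agent.PPW.Stmts

/-!
# Squad PPW (MP_0bf616_gt): module PRB (the good set)
-/

set_option autoImplicit false

namespace PPW

open MeasureTheory Set Filter Topology ProbabilityTheory
open PPI PPG PPX
open scoped Pointwise ENNReal

namespace PRB_

lemma exp_lower {y : ℝ} (hy : 0 < y) : Real.exp (-y) ≤ 1 / y := by
  have h1 : y ≤ Real.exp y := by linarith [Real.add_one_le_exp y]
  rw [Real.exp_neg, ← one_div]
  exact one_div_le_one_div_of_le hy h1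

lemma exp_pow {x : ℝ} (hx : 0 < x) :
    Real.exp (-(2 / 5 * x)) ≤ (10 : ℕ).factorial * (5 / 2) ^ 10 / x ^ 10 := by
  have h1 := Real.pow_div_factorial_le_exp (2 / 5 * x) (by positivity) 10
  have h2 : (0 : ℝ) < (2 / 5 * x) ^ 10 / (10 : ℕ).factorial := by positivity
  rw [Real.exp_neg, ← one_div]
  refine (one_div_le_one_div_of_le h2 h1).trans (le_of_eq ?_)
  field_simp

lemma asym : ∃ n₀ : ℕ, ∀ n m : ℕ, n₀ ≤ n → (m : ℝ) ≤ (n : ℝ) ^ (1 / 10 : ℝ) →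
    1 ≤ n ∧ 1 ≤ Real.log n ∧
    Real.exp (-((Real.log n ^ 5) ^ 2 / 2)) + 1 / (2 * (Real.log n ^ 5) ^ 2) + 2 / √(n : ℝ) +
      m / √(n : ℝ) + 3 * Real.log n ^ (-9 : ℝ) ≤ Real.log n ^ (-8 : ℝ) := by
  set K : ℝ := 3 + 3 * ((10 : ℕ).factorial * (5 / 2) ^ 10) with hK
  have hK0 : (3 : ℝ) ≤ K := by
    have : (0 : ℝ) ≤ 3 * ((10 : ℕ).factorial * (5 / 2) ^ 10) := by positivity
    rw [hK]
    exact le_add_of_nonneg_right this
  have hlog : Tendsto (fun n : ℕ => Real.log n) atTop atTop :=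
    Real.tendsto_log_atTop.comp tendsto_natCast_atTop_atTop
  obtain ⟨n₀, hn₀⟩ := (hlog.eventually_ge_atTop (K + 3)).exists_forall_of_atTop
  refine ⟨max n₀ 1, fun n m hn hm => ?_⟩
  have hn1 : 1 ≤ n := (le_max_right _ _).trans hn
  have hx := hn₀ n ((le_max_left _ _).trans hn)
  set x := Real.log n with hxd
  have hx1 : 1 ≤ x := by linarith
  have hx0 : 0 < x := by linarith
  have hnpos : (0 : ℝ) < n := by exact_mod_cast hn1
  have hnx : (n : ℝ) = Real.exp x := (Real.exp_log hnpos).symm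
  have hsq : √(n : ℝ) = Real.exp (x / 2) := by
    rw [hnx, Real.sqrt_eq_rpow, ← Real.exp_mul]
    congr 1; ring
  have hm' : (m : ℝ) ≤ Real.exp (x / 10) := by
    refine hm.trans (le_of_eq ?_)
    rw [hnx, ← Real.exp_mul]
    congr 1; ring
  refine ⟨hn1, hx1, ?_⟩
  have e1 : Real.exp (-((x ^ 5) ^ 2 / 2)) ≤ 2 / x ^ 10 := by
    refine (exp_lower (by positivity)).trans (le_of_eq ?_)
    field_simp
  have e2 : 1 / (2 * (x ^ 5) ^ 2) ≤ 1 / x ^ 10 := by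
    apply one_div_le_one_div_of_le (by positivity)
    have : (x ^ 5) ^ 2 = x ^ 10 := by ring
    rw [this]
    have := pow_pos hx0 10
    linarith
  have e3 : 2 / √(n : ℝ) ≤ 2 * Real.exp (-(2 / 5 * x)) := by
    rw [hsq, div_eq_mul_inv, ← Real.exp_neg]
    have : Real.exp (-(x / 2)) ≤ Real.exp (-(2 / 5 * x)) := Real.exp_le_exp.mpr (by linarith)
    linarith
  have e4 : m / √(n : ℝ) ≤ Real.exp (-(2 / 5 * x)) := by
    rw [hsq, div_le_iff₀ (Real.exp_pos _), ← Real.exp_add]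
    refine hm'.trans (le_of_eq ?_)
    congr 1; ring
  have e5 := exp_pow hx0
  have e9 : x ^ (-9 : ℝ) = 1 / x ^ 9 := by
    rw [Real.rpow_neg hx0.le, one_div]
    congr 1
    exact_mod_cast Real.rpow_natCast x 9
  have e8 : x ^ (-8 : ℝ) = 1 / x ^ 8 := by
    rw [Real.rpow_neg hx0.le, one_div]
    congr 1
    exact_mod_cast Real.rpow_natCast x 8
  rw [e9, e8]
  have hp8 : 0 < x ^ 8 := pow_pos hx0 8
  have hp9 : 0 < x ^ 9 := pow_pos hx0 9
  have hp10 : 0 < x ^ 10 := pow_pos hx0 10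
  have s1 : Real.exp (-((x ^ 5) ^ 2 / 2)) + 1 / (2 * (x ^ 5) ^ 2) + 2 / √(n : ℝ) + m / √(n : ℝ) ≤
      K / x ^ 10 := by
    have : K / x ^ 10 = 2 / x ^ 10 + 1 / x ^ 10 +
        3 * ((10 : ℕ).factorial * (5 / 2) ^ 10 / x ^ 10) := by
      rw [hK]; ring
    rw [this]
    linarith
  have s2 : K / x ^ 10 ≤ K / x ^ 9 := by
    apply div_le_div_of_nonneg_left (by linarith) hp9
    calc x ^ 9 = x ^ 9 * 1 := (mul_one _).symm
      _ ≤ x ^ 9 * x := by gcongr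
      _ = x ^ 10 := by ring
  have s3 : K / x ^ 9 + 3 * (1 / x ^ 9) ≤ 1 / x ^ 8 := by
    rw [mul_one_div, ← add_div, div_le_div_iff₀ hp9 hp8, one_mul]
    calc (K + 3) * x ^ 8 ≤ x * x ^ 8 := by gcongr
      _ = x ^ 9 := by ring
  linarith

end PRB_

theorem prb_proof (hPB1 : Stmt_PB1) (hPBL : Stmt_PBL) (hPBQ : Stmt_PBQ) (hPBD : Stmt_PBD) :
    Stmt_PRB := by
  intro C κ hC hκ
  obtain ⟨n₀, h₀⟩ := PRB_.asym
  obtain ⟨n₁, h₁⟩ := hPBL C hC
  obtain ⟨n₂, h₂⟩ := hPBQ C κ hC hκ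
  obtain ⟨n₃, h₃⟩ := hPBD C κ hC hκ
  refine ⟨max (max n₀ n₁) (max n₂ n₃), ?_⟩
  intro n m ι _ P S p ω w c hn hW
  have hn0 : n₀ ≤ n := (le_max_left _ _).trans ((le_max_left _ _).trans hn)
  have hn1 : n₁ ≤ n := (le_max_right _ _).trans ((le_max_left _ _).trans hn)
  have hn2 : n₂ ≤ n := (le_max_left _ _).trans ((le_max_right _ _).trans hn)
  have hn3 : n₃ ≤ n := (le_max_right _ _).trans ((le_max_right _ _).trans hn)
  obtain ⟨hn', hlog, hsum⟩ := h₀ n m hn0 hW.mle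
  obtain ⟨G₁, hG₁m, hG₁μ, hG₁⟩ := hPB1 n m P (Real.log n ^ 5) hn' hW.pr (one_le_pow₀ hlog)
  obtain ⟨G₂, hG₂m, hG₂μ, hG₂⟩ := h₁ n m ι P S p ω w c hn1 hW
  obtain ⟨G₃, hG₃m, hG₃μ, hG₃⟩ := h₂ n m ι P S p ω w c hn2 hW
  obtain ⟨G₄, hG₄m, hG₄μ, hG₄⟩ := h₃ n m ι P S p ω w c hn3 hW
  refine ⟨G₁ ∩ (G₂ ∩ (G₃ ∩ G₄)), hG₁m.inter (hG₂m.inter (hG₃m.inter hG₄m)), ?_, ?_⟩
  · have hx0 : 0 ≤ Real.log n := by linarith
    have hr : 0 ≤ Real.log n ^ (-9 : ℝ) := Real.rpow_nonneg hx0 _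
    calc (pm n) (G₁ ∩ (G₂ ∩ (G₃ ∩ G₄)))ᶜ
        ≤ (pm n) G₁ᶜ + ((pm n) G₂ᶜ + ((pm n) G₃ᶜ + (pm n) G₄ᶜ)) := by
          rw [compl_inter, compl_inter, compl_inter]
          refine (measure_union_le _ _).trans (add_le_add le_rfl ?_)
          refine (measure_union_le _ _).trans (add_le_add le_rfl ?_)
          exact measure_union_le _ _
      _ ≤ ENNReal.ofReal (Real.exp (-((Real.log n ^ 5) ^ 2 / 2)) +
            1 / (2 * (Real.log n ^ 5) ^ 2) + 2 / √(n : ℝ) + m / √(n : ℝ)) +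
          (ENNReal.ofReal (Real.log n ^ (-9 : ℝ)) + (ENNReal.ofReal (Real.log n ^ (-9 : ℝ)) +
            ENNReal.ofReal (Real.log n ^ (-9 : ℝ)))) := by gcongr
      _ ≤ ENNReal.ofReal (Real.log n ^ (-8 : ℝ)) := by
          rw [← ENNReal.ofReal_add hr hr, ← ENNReal.ofReal_add hr (by positivity),
            ← ENNReal.ofReal_add (by positivity) (by positivity)]
          apply ENNReal.ofReal_le_ofReal
          linarith
  · rintro z ⟨hz1, hz2, hz3, hz4⟩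
    obtain ⟨a1, a2, a3, a4, a5⟩ := hG₁ z hz1
    obtain ⟨b1, b2⟩ := hG₂ z hz2
    have c1 := hG₃ z hz3 a1 a3
    obtain ⟨d1, d2⟩ := hG₄ z hz4
    exact { s1 := a1, s2 := a2, s3 := a3, nrm := a4, prj := a5, dg := d1, low := b1, qab := c1,
            phi := d2, sab := b2 }

end PPW
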