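import Pool.Agent.PPW.Stmts

/-!
# PPW, module PS2: quadratic means
-/

set_option autoImplicit false

namespace PPW

open MeasureTheory Set Filter Topology ProbabilityTheory
open PPI PPG PPX
open scoped Pointwise ENNReal

namespace PS2_

lemma integ {n : ℕ} (hP : IsProbabilityMeasure (sph n)) (h1 : ∀ᵐ v ∂(sph n), ‖v‖ = 1)
    (f : EE n → ℝ) (hf : Continuous f) : Integrable f (sph n) := by
  obtain ⟨C, hC⟩ := (isCompact_sphere (0 : EE n) 1).exists_bound_of_continuousOn hf.continuousOn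
  refine Integrable.of_bound hf.aestronglyMeasurable C ?_
  filter_upwards [h1] with v hv
  exact hC v (by simpa using hv)

lemma integ2 {n : ℕ} (hP : IsProbabilityMeasure (sph n)) (h1 : ∀ᵐ v ∂(sph n), ‖v‖ = 1)
    (f : EE n × EE n → ℝ) (hf : Continuous f) : Integrable f ((sph n).prod (sph n)) := by
  obtain ⟨C, hC⟩ := ((isCompact_sphere (0 : EE n) 1).prod
    (isCompact_sphere (0 : EE n) 1)).exists_bound_of_continuousOn hf.continuousOn
  refine Integrable.of_bound hf.aestronglyMeasurable C ?_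
  have hA : ∀ᵐ z ∂((sph n).prod (sph n)), ‖z.1‖ = 1 :=
    Measure.quasiMeasurePreserving_fst.ae h1
  have hB : ∀ᵐ z ∂((sph n).prod (sph n)), ‖z.2‖ = 1 :=
    Measure.quasiMeasurePreserving_snd.ae h1
  filter_upwards [hA, hB] with z h2 h3
  exact hC z ⟨by simpa using h2, by simpa using h3⟩

lemma core {n : ℕ} (hP : IsProbabilityMeasure (sph n)) (h1 : ∀ᵐ v ∂(sph n), ‖v‖ = 1)
    {ι : Type} (s : Finset ι) (p : ι → ℝ) (m : ℝ) (hp : ∑ i ∈ s, p i = m)
    (h : ι → ι → EE n → ℝ)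
    (f g : ι → EE n → ℝ) (r : EE n → ℝ) (ch : ∀ i j, Continuous (h i j))
    (cf : ∀ i, Continuous (f i)) (cg : ∀ i, Continuous (g i)) (cr : Continuous r)
    (H : ι → ι → ℝ) (a b : ℝ) (hh : ∀ i j, ∫ v, h i j v ∂(sph n) = H i j)
    (hf : ∀ i, ∫ v, f i v ∂(sph n) = a) (hg : ∀ i, ∫ v, g i v ∂(sph n) = b)
    (hr : ∫ v, r v ∂(sph n) = 1) :
    ∫ v, ((∑ i ∈ s, ∑ j ∈ s, p i * p j * h i j v) - m * b * (∑ i ∈ s, p i * f i v) -
      m * a * (∑ j ∈ s, p j * g j v) + m ^ 2 * (a * b) * r v) ∂(sph n) =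
      (∑ i ∈ s, ∑ j ∈ s, p i * p j * H i j) - m ^ 2 * (a * b) := by
  have i1 : Integrable (fun v => ∑ i ∈ s, ∑ j ∈ s, p i * p j * h i j v) (sph n) :=
    integ hP h1 _ (by fun_prop)
  have i2 : Integrable (fun v => m * b * (∑ i ∈ s, p i * f i v)) (sph n) :=
    integ hP h1 _ (by fun_prop)
  have i3 : Integrable (fun v => m * a * (∑ j ∈ s, p j * g j v)) (sph n) :=
    integ hP h1 _ (by fun_prop)
  have i4 : Integrable (fun v => m ^ 2 * (a * b) * r v) (sph n) := integ hP h1 _ (by fun_prop)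
  have e1 : ∫ v, (∑ i ∈ s, ∑ j ∈ s, p i * p j * h i j v) ∂(sph n) =
      ∑ i ∈ s, ∑ j ∈ s, p i * p j * H i j := by
    rw [integral_finsetSum _ fun i _ => integ hP h1 _ (by fun_prop)]
    refine Finset.sum_congr rfl fun i _ => ?_
    rw [integral_finsetSum _ fun j _ => integ hP h1 _ (by have := ch i j; fun_prop)]
    refine Finset.sum_congr rfl fun j _ => ?_
    rw [integral_const_mul, hh]
  have e2 : ∫ v, (m * b * (∑ i ∈ s, p i * f i v)) ∂(sph n) = m * b * (m * a) := by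
    rw [integral_const_mul, integral_finsetSum _ fun i _ => integ hP h1 _ (by fun_prop)]
    simp_rw [integral_const_mul, hf]
    rw [← Finset.sum_mul, hp]
  have e3 : ∫ v, (m * a * (∑ i ∈ s, p i * g i v)) ∂(sph n) = m * a * (m * b) := by
    rw [integral_const_mul, integral_finsetSum _ fun i _ => integ hP h1 _ (by fun_prop)]
    simp_rw [integral_const_mul, hg]
    rw [← Finset.sum_mul, hp]
  have e4 : ∫ v, (m ^ 2 * (a * b) * r v) ∂(sph n) = m ^ 2 * (a * b) := by
    rw [integral_const_mul, hr, mul_one]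
  have i12 : Integrable (fun v => (∑ i ∈ s, ∑ j ∈ s, p i * p j * h i j v) -
      m * b * (∑ i ∈ s, p i * f i v)) (sph n) := i1.sub i2
  have i123 : Integrable (fun v => (∑ i ∈ s, ∑ j ∈ s, p i * p j * h i j v) -
      m * b * (∑ i ∈ s, p i * f i v) - m * a * (∑ j ∈ s, p j * g j v)) (sph n) := i12.sub i3
  rw [integral_add i123 i4, integral_sub i12 i3, integral_sub i1 i2, e1, e2, e3, e4]
  ring

lemma tg0 {n : ℕ} {ι : Type} [Fintype ι] (g : Finset ι) (p : ι → ℝ) (w : ι → EE n) :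
    TG g p w 0 = 0 := by
  unfold TG smo
  simp only [mul_zero, pow_zero, mul_one, Finset.range_zero, Finset.prod_empty]
  simp_rw [← Finset.mul_sum]
  rw [← Finset.sum_mul]
  ring

lemma fin_sum {n : ℕ} (hT : Stmt_TP2) {ι : Type} [Fintype ι] (g : Finset ι) {p : ι → ℝ}
    {w : ι → EE n} (hn : 2 ≤ n) (hp : ∀ i, 0 ≤ p i) (hw : ∀ i, ‖w i‖ = 1) (N : ℕ) (c : ℕ → ℝ)
    (S A : ℝ) (hc : ∀ r, 0 ≤ c r)
    (hS : ∑ r ∈ Finset.range (N + 1), c r = S)
    (hA : ∑ r ∈ Finset.range (N + 1), c r * smo n r = A) :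
    (∑ i ∈ g, ∑ j ∈ g, p i * p j *
      ∑ r ∈ Finset.range (N + 1), c r * (inner ℝ (w i) (w j)) ^ (2 * r)) -
        (∑ i ∈ g, p i) ^ 2 * A
      ≤ S * ∑ r ∈ Finset.Icc 1 N, TG g p w r := by
  have e1 : (∑ i ∈ g, ∑ j ∈ g, p i * p j *
      ∑ r ∈ Finset.range (N + 1), c r * (inner ℝ (w i) (w j)) ^ (2 * r)) -
        (∑ i ∈ g, p i) ^ 2 * A =
      ∑ r ∈ Finset.range (N + 1), c r * TG g p w r := by
    rw [← hA]
    unfold TG
    simp_rw [mul_sub, Finset.sum_sub_distrib]
    congr 1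
    · simp_rw [Finset.mul_sum]
      have : ∀ i : ι, ∑ j ∈ g, ∑ r ∈ Finset.range (N + 1),
          p i * p j * (c r * (inner ℝ (w i) (w j)) ^ (2 * r)) =
          ∑ r ∈ Finset.range (N + 1), ∑ j ∈ g,
          p i * p j * (c r * (inner ℝ (w i) (w j)) ^ (2 * r)) := fun i => Finset.sum_comm
      simp_rw [this]
      rw [Finset.sum_comm]
      refine Finset.sum_congr rfl fun r _ => Finset.sum_congr rfl fun i _ =>
        Finset.sum_congr rfl fun j _ => ?_
      ring
    · rw [Finset.mul_sum]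
      refine Finset.sum_congr rfl fun r _ => ?_
      ring
  rw [e1]
  have e2 : ∑ r ∈ Finset.range (N + 1), c r * TG g p w r =
      ∑ r ∈ Finset.Icc 1 N, c r * TG g p w r := by
    symm
    apply Finset.sum_subset
    · intro r hr
      rw [Finset.mem_Icc] at hr
      rw [Finset.mem_range]
      omega
    · intro r hr hr2
      rw [Finset.mem_range] at hr
      rw [Finset.mem_Icc] at hr2
      have : r = 0 := by omega
      rw [this, tg0, mul_zero]
  rw [e2, Finset.mul_sum]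
  refine Finset.sum_le_sum fun r hr => ?_
  refine mul_le_mul_of_nonneg_right ?_ (hT n ι g p w r (by omega) hp hw)
  rw [← hS]
  refine Finset.single_le_sum (f := c) (fun r _ => hc r) ?_
  rw [Finset.mem_Icc] at hr
  rw [Finset.mem_range]
  omega

lemma exists_unit {n : ℕ} (hn : 2 ≤ n) :
    ∃ a b : EE n, ‖a‖ = 1 ∧ ‖b‖ = 1 ∧ inner ℝ a b = (0 : ℝ) := by
  refine ⟨EuclideanSpace.single (⟨0, by omega⟩ : Fin n) 1,
    EuclideanSpace.single (⟨1, by omega⟩ : Fin n) 1, by simp, by simp, ?_⟩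
  simp [EuclideanSpace.inner_single_left]

lemma smm1 {n : ℕ} (hM : PPX.Stmt_SMM) (hn : 2 ≤ n) (k : ℕ) {a : EE n} (ha : ‖a‖ = 1) :
    ∫ v, (inner ℝ a v) ^ (2 * k) ∂(sph n) = smo n k := by
  rw [hM n k a (by omega), ha, one_pow, mul_one]

/-- the first sum rule -/
lemma rule1 {n : ℕ} (hM : PPX.Stmt_SMM) (hn : 2 ≤ n) (hP : IsProbabilityMeasure (sph n))
    (h1 : ∀ᵐ v ∂(sph n), ‖v‖ = 1) (k l N : ℕ) (c : ℕ → ℝ)
    (hc : ∀ a b : EE n, ‖a‖ = 1 → ‖b‖ = 1 →
        ∫ v, (inner ℝ a v) ^ (2 * k) * (inner ℝ b v) ^ (2 * l) ∂(sph n) =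
          ∑ r ∈ Finset.range (N + 1), c r * (inner ℝ a b) ^ (2 * r)) :
    ∑ r ∈ Finset.range (N + 1), c r * smo n r = smo n k * smo n l := by
  obtain ⟨a, -, ha, -, -⟩ := exists_unit hn
  have e1 : ∑ r ∈ Finset.range (N + 1), c r * smo n r =
      ∫ b, ∫ v, (inner ℝ a v) ^ (2 * k) * (inner ℝ b v) ^ (2 * l) ∂(sph n) ∂(sph n) := by
    have e2 : ∫ b, ∫ v, (inner ℝ a v) ^ (2 * k) * (inner ℝ b v) ^ (2 * l) ∂(sph n) ∂(sph n) =
        ∫ b, ∑ r ∈ Finset.range (N + 1), c r * (inner ℝ a b) ^ (2 * r) ∂(sph n) := by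
      refine integral_congr_ae ?_
      filter_upwards [h1] with b hb
      exact hc a b ha hb
    rw [e2, integral_finsetSum _ fun r _ => integ hP h1 _ (by fun_prop)]
    refine Finset.sum_congr rfl fun r _ => ?_
    rw [integral_const_mul, smm1 hM hn r ha]
  rw [e1, integral_integral_swap]
  · have e3 : ∀ᵐ v ∂(sph n), ∫ b, (inner ℝ a v) ^ (2 * k) * (inner ℝ b v) ^ (2 * l) ∂(sph n) =
        (inner ℝ a v) ^ (2 * k) * smo n l := by
      filter_upwards [h1] with v hv
      rw [integral_const_mul]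
      congr 1
      have := smm1 hM hn l hv
      rw [← this]
      refine integral_congr_ae (Eventually.of_forall fun b => ?_)
      simp only
      rw [real_inner_comm]
    rw [integral_congr_ae e3, integral_mul_const, smm1 hM hn k ha]
  · exact integ2 hP h1 (fun z : EE n × EE n =>
      (inner ℝ a z.2) ^ (2 * k) * (inner ℝ z.1 z.2) ^ (2 * l)) (by fun_prop)

/-- the mixed moment of degree one in one vector -/
lemma mixed {n : ℕ} (hPM : PPX.Stmt_PMM) (hn : 2 ≤ n) (l : ℕ) (hl : 1 ≤ l) {a v : EE n}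
    (ha : ‖a‖ = 1) (hv : ‖v‖ = 1) :
    inner ℝ a v * ∫ b, (inner ℝ a b) * (inner ℝ v b) ^ (2 * l - 1) ∂(sph n) =
      smo n l * (inner ℝ a v) ^ 2 := by
  obtain ⟨-, c, -, hs, hc⟩ := hPM n 1 l hn le_rfl hl
  have hmin : min 1 l = 1 := by omega
  rw [hmin] at hs hc
  obtain ⟨x, y, hx, hy, hxy⟩ := exists_unit hn
  have h0 := hc x y hx hy
  rw [hxy] at h0
  simp only [zero_mul, Finset.sum_range_succ, Finset.range_zero, Finset.sum_empty, mul_zero,
    pow_zero, mul_one, zero_add, ne_eq, OfNat.ofNat_ne_zero, not_false_eq_true, zero_pow,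
    add_zero] at h0
  have h2 := hc a v ha hv
  simp only [Finset.sum_range_succ, Finset.range_zero, Finset.sum_empty, mul_zero,
    pow_zero, mul_one, zero_add] at h2 hs
  have e : (2 * 1 - 1 : ℕ) = 1 := rfl
  simp only [e, pow_one] at h2
  rw [h2, ← h0]
  have h3 : c 1 = smo n l := by
    rw [← h0, zero_add] at hs
    rw [hs]
    congr 1
    omega
  rw [h3]
  ring

/-- the second sum rule -/
lemma rule2 {n : ℕ} (hPM : PPX.Stmt_PMM) (hM : PPX.Stmt_SMM) (hn : 2 ≤ n)
    (hP : IsProbabilityMeasure (sph n))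
    (h1 : ∀ᵐ v ∂(sph n), ‖v‖ = 1) (k l N : ℕ) (hk : 1 ≤ k) (hl : 1 ≤ l) (c : ℕ → ℝ)
    (hc : ∀ a b : EE n, ‖a‖ = 1 → ‖b‖ = 1 → inner ℝ a b *
        ∫ v, (inner ℝ a v) ^ (2 * k - 1) * (inner ℝ b v) ^ (2 * l - 1) ∂(sph n) =
          ∑ r ∈ Finset.range (N + 1), c r * (inner ℝ a b) ^ (2 * r)) :
    ∑ r ∈ Finset.range (N + 1), c r * smo n r = smo n k * smo n l := by
  obtain ⟨a, -, ha, -, -⟩ := exists_unit hn
  have e1 : ∑ r ∈ Finset.range (N + 1), c r * smo n r =
      ∫ b, ∫ v, inner ℝ a b * ((inner ℝ a v) ^ (2 * k - 1) * (inner ℝ b v) ^ (2 * l - 1))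
        ∂(sph n) ∂(sph n) := by
    have e2 : ∫ b, ∫ v, inner ℝ a b * ((inner ℝ a v) ^ (2 * k - 1) *
          (inner ℝ b v) ^ (2 * l - 1)) ∂(sph n) ∂(sph n) =
        ∫ b, ∑ r ∈ Finset.range (N + 1), c r * (inner ℝ a b) ^ (2 * r) ∂(sph n) := by
      refine integral_congr_ae ?_
      filter_upwards [h1] with b hb
      rw [integral_const_mul]
      exact hc a b ha hb
    rw [e2, integral_finsetSum _ fun r _ => integ hP h1 _ (by fun_prop)]
    refine Finset.sum_congr rfl fun r _ => ?_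
    rw [integral_const_mul, smm1 hM hn r ha]
  rw [e1, integral_integral_swap]
  · have e3 : ∀ᵐ v ∂(sph n), ∫ b, inner ℝ a b * ((inner ℝ a v) ^ (2 * k - 1) *
          (inner ℝ b v) ^ (2 * l - 1)) ∂(sph n) =
        (inner ℝ a v) ^ (2 * k) * smo n l := by
      filter_upwards [h1] with v hv
      have e4 : ∫ b, inner ℝ a b * ((inner ℝ a v) ^ (2 * k - 1) *
          (inner ℝ b v) ^ (2 * l - 1)) ∂(sph n) =
          (inner ℝ a v) ^ (2 * k - 1) *
            ∫ b, (inner ℝ a b) * (inner ℝ v b) ^ (2 * l - 1) ∂(sph n) := by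
        rw [← integral_const_mul]
        refine integral_congr_ae (Eventually.of_forall fun b => ?_)
        simp only
        rw [real_inner_comm v b]
        ring
      rw [e4]
      by_cases hav : inner ℝ a v = (0 : ℝ)
      · rw [hav, zero_pow (by omega), zero_pow (by omega)]
        ring
      · have h5 := mixed hPM hn l hl ha hv
        have h6 : ∫ b, (inner ℝ a b) * (inner ℝ v b) ^ (2 * l - 1) ∂(sph n) =
            smo n l * inner ℝ a v := by
          apply mul_left_cancel₀ hav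
          rw [h5]
          ring
        rw [h6]
        obtain ⟨m, rfl⟩ : ∃ m, k = m + 1 := ⟨k - 1, by omega⟩
        have e5 : 2 * (m + 1) - 1 = 2 * m + 1 := by omega
        rw [e5]
        ring
    rw [integral_congr_ae e3, integral_mul_const, smm1 hM hn k ha]
  · exact integ2 hP h1 (fun z : EE n × EE n =>
      inner ℝ a z.1 * ((inner ℝ a z.2) ^ (2 * k - 1) * (inner ℝ z.1 z.2) ^ (2 * l - 1)))
      (by fun_prop)

end PS2_

open PS2_ in
theorem ps2_proof (hPM : PPX.Stmt_PMM) (hM : PPX.Stmt_SMM) (hT : Stmt_TP2)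
    (hS : PPX.Stmt_SPH) : Stmt_PS2 := by
  intro n ι _ g p w k l hn hp hw hk hl
  obtain ⟨hP, h1, -⟩ := hS n (by omega)
  constructor
  · obtain ⟨⟨c, hc0, hcs, hc⟩, -⟩ := hPM n k l hn (by omega) (by omega)
    have hr := rule1 hM hn hP h1 k l _ c hc
    -- unit vectors are needed only for the indices
    have e := core hP h1 g p _ rfl
      (fun i j v => (inner ℝ (w i) v) ^ (2 * k) * (inner ℝ (w j) v) ^ (2 * l))
      (fun i v => (inner ℝ (w i) v) ^ (2 * k)) (fun i v => (inner ℝ (w i) v) ^ (2 * l))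
      (fun _ => 1) (fun i j => by fun_prop) (fun i => by fun_prop) (fun i => by fun_prop)
      (by fun_prop)
      (fun i j => ∑ r ∈ Finset.range (min k l + 1), c r * (inner ℝ (w i) (w j)) ^ (2 * r))
      (smo n k) (smo n l) (fun i j => hc _ _ (hw i) (hw j))
      (fun i => smm1 hM hn k (hw i)) (fun i => smm1 hM hn l (hw i)) (by simp)
    have e2 : ∫ v, FG g p w k v * FG g p w l v ∂(sph n) =
        (∑ i ∈ g, ∑ j ∈ g, p i * p j *
          ∑ r ∈ Finset.range (min k l + 1), c r * (inner ℝ (w i) (w j)) ^ (2 * r)) -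
          (∑ i ∈ g, p i) ^ 2 * (smo n k * smo n l) := by
      rw [← e]
      refine integral_congr_ae (Eventually.of_forall fun v => ?_)
      simp only [FG]
      have e3 : (∑ i ∈ g, p i * (inner ℝ (w i) v) ^ (2 * k)) *
          (∑ j ∈ g, p j * (inner ℝ (w j) v) ^ (2 * l))
          = ∑ i ∈ g, ∑ j ∈ g, p i * p j *
            ((inner ℝ (w i) v) ^ (2 * k) * (inner ℝ (w j) v) ^ (2 * l)) := by
        rw [Finset.sum_mul_sum]
        refine Finset.sum_congr rfl fun i _ => Finset.sum_congr rfl fun j _ => ?_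
        ring
      rw [← e3]
      ring
    rw [e2]
    exact fin_sum hT g hn hp hw (min k l) c _ _ hc0 hcs hr
  · obtain ⟨-, c, hc0, hcs, hc⟩ := hPM n k l hn (by omega) (by omega)
    have hr := rule2 hPM hM hn hP h1 k l _ (by omega) (by omega) c hc
    have e := core hP h1 g p _ rfl
      (fun i j v => inner ℝ (w i) (w j) *
        ((inner ℝ (w i) v) ^ (2 * k - 1) * (inner ℝ (w j) v) ^ (2 * l - 1)))
      (fun i v => (inner ℝ (w i) v) ^ (2 * k)) (fun i v => (inner ℝ (w i) v) ^ (2 * l))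
      (fun v => ‖v‖ ^ 2) (fun i j => by fun_prop) (fun i => by fun_prop) (fun i => by fun_prop)
      (by fun_prop)
      (fun i j => ∑ r ∈ Finset.range (min k l + 1), c r * (inner ℝ (w i) (w j)) ^ (2 * r))
      (smo n k) (smo n l)
      (fun i j => by rw [integral_const_mul]; exact hc _ _ (hw i) (hw j))
      (fun i => smm1 hM hn k (hw i)) (fun i => smm1 hM hn l (hw i))
      (by
        have : ∫ v, ‖v‖ ^ 2 ∂(sph n) = ∫ _v, (1 : ℝ) ∂(sph n) := by
          refine integral_congr_ae ?_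
          filter_upwards [h1] with v hv
          rw [hv, one_pow]
        rw [this]
        simp)
    have e2 : ∫ v, inner ℝ (GG g p w k v) (GG g p w l v) ∂(sph n) =
        4 * k * l * ((∑ i ∈ g, ∑ j ∈ g, p i * p j *
          ∑ r ∈ Finset.range (min k l + 1), c r * (inner ℝ (w i) (w j)) ^ (2 * r)) -
          (∑ i ∈ g, p i) ^ 2 * (smo n k * smo n l)) := by
      rw [← e, ← integral_const_mul]
      refine integral_congr_ae (Eventually.of_forall fun v => ?_)
      simp only [GG]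
      have e3 : inner ℝ (∑ i ∈ g, (p i * (inner ℝ (w i) v) ^ (2 * k - 1)) • w i)
          (∑ j ∈ g, (p j * (inner ℝ (w j) v) ^ (2 * l - 1)) • w j) =
          ∑ i ∈ g, ∑ j ∈ g, p i * p j * (inner ℝ (w i) (w j) *
            ((inner ℝ (w i) v) ^ (2 * k - 1) * (inner ℝ (w j) v) ^ (2 * l - 1))) := by
        rw [sum_inner]
        refine Finset.sum_congr rfl fun i _ => ?_
        rw [inner_sum]
        refine Finset.sum_congr rfl fun j _ => ?_
        rw [real_inner_smul_left, real_inner_smul_right]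
        ring
      have e4 : ∀ m : ℕ, 1 ≤ m →
          inner ℝ (∑ i ∈ g, (p i * (inner ℝ (w i) v) ^ (2 * m - 1)) • w i) v =
          ∑ i ∈ g, p i * (inner ℝ (w i) v) ^ (2 * m) := by
        intro m hm
        rw [sum_inner]
        refine Finset.sum_congr rfl fun i _ => ?_
        rw [real_inner_smul_left]
        obtain ⟨m', rfl⟩ : ∃ m', m = m' + 1 := ⟨m - 1, by omega⟩
        have e5 : 2 * (m' + 1) - 1 = 2 * m' + 1 := by omega
        rw [e5]
        ring
      rw [real_inner_smul_left, real_inner_smul_right, inner_sub_left, inner_sub_right,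
        inner_sub_right, e3, real_inner_smul_left, real_inner_smul_left, real_inner_smul_right,
        real_inner_smul_right, e4 k (by omega), real_inner_comm, e4 l (by omega),
        real_inner_self_eq_norm_sq]
      ring
    rw [e2]
    have h7 := fin_sum hT g hn hp hw (min k l) c _ _ hc0 hcs hr
    have h8 : (0 : ℝ) ≤ 4 * k * l := by positivity
    calc _ ≤ 4 * (k : ℝ) * l * (smo n (k + l - 1) *
          ∑ r ∈ Finset.Icc 1 (min k l), TG g p w r) :=
          mul_le_mul_of_nonneg_left h7 h8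
      _ = _ := by ring

end PPW
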