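import Pool.Agent.PPW.Stmts2

/-!
# Squad PPW, module PST: stability for polytopes (helper49)
-/

set_option autoImplicit false

namespace PPW

open MeasureTheory Set Filter Topology ProbabilityTheory
open PPI PPG PPX
open scoped Pointwise ENNReal

theorem pst_proof (hTHS : Stmt_THS) (hISP : PPG.Stmt_ISP) (hAVE : PPI.Stmt_AVE) : Stmt_PST := by
  obtain ⟨c, n₀, hc, h⟩ := hTHS
  refine ⟨c, n₀, hc, ?_⟩
  intro n N v hn h2 hK hV
  obtain ⟨ι, _, p, w, D, A, -, hIS, hMI, hA, hv, ht⟩ := hISP n N v h2 hK hV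
  obtain ⟨hD, hX⟩ := h n ι p w D hn hIS hMI
  refine ⟨D, A, hD, hA, ht, ?_⟩
  have hk : 0 < kap n := (hAVE n (by omega)).1
  have hn0 : (0 : ℝ) < n := by
    have : 0 < n := by omega
    exact_mod_cast this
  have hf : (0 : ℝ) < n.factorial := by exact_mod_cast n.factorial_pos
  have hV' : 0 < vl (Pol v) ^ (n - 1) := pow_pos hV _
  have e : kap n * (n : ℝ) ^ n * X0 n = n.factorial * Pn n := by
    have e1 : kap n ^ (n - 1) = kap n ^ (n - 2) * kap n := by
      rw [← pow_succ]
      congr 1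
      omega
    unfold X0 Pn
    rw [e1]
    have : kap n ^ (n - 2) ≠ 0 := (pow_pos hk _).ne'
    field_simp
  have h3 : n.factorial * (Real.exp (c * D) * Pn n * vl (Pol v) ^ (n - 1)) ≤
      n.factorial * vl (projBody (Pol v)) := by
    refine le_trans ?_ hv
    calc n.factorial * (Real.exp (c * D) * Pn n * vl (Pol v) ^ (n - 1))
        = (n.factorial * Pn n) * (Real.exp (c * D) * vl (Pol v) ^ (n - 1)) := by ring
      _ = kap n * (n : ℝ) ^ n * vl (Pol v) ^ (n - 1) * (X0 n * Real.exp (c * D)) := by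
          rw [← e]; ring
      _ ≤ kap n * (n : ℝ) ^ n * vl (Pol v) ^ (n - 1) * (Real.exp D * XT p w) := by
          gcongr
      _ = _ := by ring
  exact le_of_mul_le_mul_left h3 hf

end PPW
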