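import Pool.Agent.PPW.Stmts

/-!
# Squad PPW (MP_0bf616_gt): module PTB (perturbation of determinants)
-/

set_option autoImplicit false

namespace PPW

open MeasureTheory Set Filter Topology ProbabilityTheory
open PPI PPG PPX
open scoped Pointwise ENNReal

namespace PTB_

variable {n : ℕ}

/-- diagonalisation -/
theorem diag (A : Matrix (Fin n) (Fin n) ℝ) (hA : A.IsHermitian) :
    ∃ (U : Matrix (Fin n) (Fin n) ℝ) (a : Fin n → ℝ), U.conjTranspose * U = 1 ∧
      U * U.conjTranspose = 1 ∧ A = U * Matrix.diagonal a * U.conjTranspose := by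
  refine ⟨(hA.eigenvectorUnitary : Matrix (Fin n) (Fin n) ℝ), hA.eigenvalues, ?_, ?_, ?_⟩
  · exact Unitary.coe_star_mul_self hA.eigenvectorUnitary
  · exact Unitary.coe_mul_star_self hA.eigenvectorUnitary
  · have h := hA.spectral_theorem
    rw [Unitary.conjStarAlgAut_apply] at h
    exact h

theorem hs_trace (M : Matrix (Fin n) (Fin n) ℝ) : hs M = (M * M.conjTranspose).trace := by
  rw [hs, Matrix.trace]
  refine Finset.sum_congr rfl fun k _ => ?_
  rw [Matrix.diag_apply, Matrix.mul_apply]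
  refine Finset.sum_congr rfl fun l _ => ?_
  rw [Matrix.conjTranspose_apply, sq]
  rfl

/-- invariance of the Hilbert-Schmidt norm -/
theorem hs_conj (U M : Matrix (Fin n) (Fin n) ℝ) (h : U * U.conjTranspose = 1) :
    hs (U.conjTranspose * M * U) = hs M := by
  rw [hs_trace, hs_trace]
  have h1 : U.conjTranspose * M * U * (U.conjTranspose * M * U).conjTranspose =
      U.conjTranspose * (M * M.conjTranspose) * U := by
    rw [Matrix.conjTranspose_mul, Matrix.conjTranspose_mul, Matrix.conjTranspose_conjTranspose]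
    calc _ = U.conjTranspose * M * (U * U.conjTranspose) * (M.conjTranspose * U) := by
          simp only [mul_assoc]
      _ = _ := by rw [h, mul_one]; simp only [mul_assoc]
  rw [h1, Matrix.trace_mul_cycle, h, one_mul]

theorem hs_diagonal (a : Fin n → ℝ) : hs (Matrix.diagonal a) = ∑ i, a i ^ 2 := by
  rw [hs]
  refine Finset.sum_congr rfl fun k _ => ?_
  rw [Finset.sum_eq_single k]
  · rw [Matrix.diagonal_apply_eq]
  · intro l _ hl
    rw [Matrix.diagonal_apply_ne _ hl.symm]
    ring
  · intro h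
    exact absurd (Finset.mem_univ k) h

theorem hs_diag (U : Matrix (Fin n) (Fin n) ℝ) (a : Fin n → ℝ) (h1 : U.conjTranspose * U = 1)
    (h2 : U * U.conjTranspose = 1) :
    hs (U * Matrix.diagonal a * U.conjTranspose) = ∑ i, a i ^ 2 := by
  rw [← hs_conj U _ h2]
  have h3 : U.conjTranspose * (U * Matrix.diagonal a * U.conjTranspose) * U =
      Matrix.diagonal a := by
    calc _ = (U.conjTranspose * U) * Matrix.diagonal a * (U.conjTranspose * U) := by
          simp only [mul_assoc]
      _ = _ := by rw [h1, one_mul, mul_one]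
  rw [h3, hs_diagonal]

theorem det_conj (U M : Matrix (Fin n) (Fin n) ℝ) (h : U * U.conjTranspose = 1) :
    (U * M * U.conjTranspose).det = M.det := by
  rw [Matrix.det_mul, Matrix.det_mul, mul_right_comm, ← Matrix.det_mul, h,
    Matrix.det_one, one_mul]

theorem shift (U : Matrix (Fin n) (Fin n) ℝ) (a : Fin n → ℝ) (t : ℝ)
    (h2 : U * U.conjTranspose = 1) :
    U * Matrix.diagonal a * U.conjTranspose + t • (1 : Matrix (Fin n) (Fin n) ℝ) =
      U * Matrix.diagonal (fun i => a i + t) * U.conjTranspose := by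
  have h3 : Matrix.diagonal (fun i => a i + t) =
      Matrix.diagonal a + t • (1 : Matrix (Fin n) (Fin n) ℝ) := by
    ext i j
    rw [Matrix.add_apply, Matrix.smul_apply, Matrix.one_apply, Matrix.diagonal_apply,
      Matrix.diagonal_apply]
    by_cases h : i = j
    · simp [h]
    · simp [h]
  rw [h3, mul_add, add_mul, mul_smul_comm, smul_mul_assoc, mul_one, h2]

/-- a symmetric matrix of Hilbert-Schmidt norm at most `ε` is at least `-ε` -/
theorem add_smul_psd (E : Matrix (Fin n) (Fin n) ℝ) (hE : E.IsHermitian) (ε : ℝ) (hε : 0 ≤ ε)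
    (h : hs E ≤ ε ^ 2) : (E + ε • (1 : Matrix (Fin n) (Fin n) ℝ)).PosSemidef := by
  obtain ⟨U, a, h1, h2, h3⟩ := diag E hE
  have h4 : ∑ i, a i ^ 2 ≤ ε ^ 2 := by
    rw [← hs_diag U a h1 h2, ← h3]
    exact h
  have h5 : ∀ i, 0 ≤ a i + ε := by
    intro i
    have h6 : a i ^ 2 ≤ ε ^ 2 :=
      (Finset.single_le_sum (f := fun i => a i ^ 2) (fun i _ => sq_nonneg _)
        (Finset.mem_univ i)).trans h4
    have := abs_le_of_sq_le_sq' h6 hε
    linarith [this.1]
  rw [h3, shift U a ε h2]
  exact (Matrix.PosSemidef.diagonal h5).mul_mul_conjTranspose_same U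

theorem log_ge (t : ℝ) (ht : -(1 / 2) ≤ t) : Real.exp (t - t ^ 2) ≤ 1 + t := by
  have hpos : 0 < 1 + t := by linarith
  rw [← Real.le_log_iff_exp_le hpos]
  rcases le_or_gt 0 t with h0 | h0
  · -- `t ≥ 0`
    have h1 := Real.log_le_sub_one_of_pos (inv_pos.2 hpos)
    rw [Real.log_inv] at h1
    have h2 : t - t ^ 2 ≤ 1 - (1 + t)⁻¹ := by
      have h3 : 1 - (1 + t)⁻¹ = t / (1 + t) := by
        field_simp; ring
      rw [h3, le_div_iff₀ hpos]
      nlinarith [pow_nonneg h0 3]
    linarith
  · -- `-1/2 ≤ t < 0`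
    obtain ⟨s, hs⟩ : ∃ s : ℝ, s = -t := ⟨_, rfl⟩
    have ht' : t = -s := by rw [hs]; ring
    have hs0 : 0 < s := by linarith
    have hs1 : s ≤ 1 / 2 := by linarith
    have h1 : |s| < 1 := by rw [abs_of_pos hs0]; linarith
    have h2 := Real.abs_log_sub_add_sum_range_le h1 4
    rw [abs_of_pos hs0] at h2
    have h3 := (abs_le.mp h2).1
    simp only [Finset.sum_range_succ, Finset.sum_range_zero, zero_add] at h3
    norm_num at h3
    have h4 : s ^ 5 / (1 - s) ≤ 2 * s ^ 5 := by
      rw [div_le_iff₀ (by linarith)]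
      nlinarith [pow_pos hs0 5]
    have h5 : 0 ≤ s ^ 2 * (1 / 2 - s / 3 - s ^ 2 / 4 - 2 * s ^ 3) := by
      apply mul_nonneg (sq_nonneg _)
      have h6 : s ^ 2 ≤ 1 / 4 := by nlinarith
      have h7 : s ^ 3 ≤ 1 / 8 := by
        calc s ^ 3 ≤ (1 / 2) ^ 3 := pow_le_pow_left₀ hs0.le hs1 3
          _ = 1 / 8 := by norm_num
      linarith
    rw [ht', show (1 : ℝ) + -s = 1 - s by ring]
    nlinarith

theorem main (N E : Matrix (Fin n) (Fin n) ℝ) (lam ε : ℝ) (hlam : 0 < lam) (hε : 0 ≤ ε)
    (hε2 : ε ≤ lam / 2) (hN : (N - lam • (1 : Matrix (Fin n) (Fin n) ℝ)).PosSemidef)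
    (hEt : E.transpose = E) (hE : hs E ≤ ε ^ 2) :
    (N + E - (lam - ε) • (1 : Matrix (Fin n) (Fin n) ℝ)).PosSemidef ∧
    N.det * Real.exp (E.trace - √(hs (N - 1)) * ε / lam - ε ^ 2 / lam ^ 2) ≤ (N + E).det := by
  have hEh : E.IsHermitian := by
    rw [Matrix.IsHermitian, Matrix.conjTranspose_eq_transpose_of_trivial]
    exact hEt
  refine ⟨?_, ?_⟩
  · have h1 : N + E - (lam - ε) • (1 : Matrix (Fin n) (Fin n) ℝ) =
        (N - lam • (1 : Matrix (Fin n) (Fin n) ℝ)) +
          (E + ε • (1 : Matrix (Fin n) (Fin n) ℝ)) := by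
      rw [sub_smul]
      abel
    rw [h1]
    exact hN.add (add_smul_psd E hEh ε hε hE)
  have hNh : N.IsHermitian := by
    have h1 : N = (N - lam • (1 : Matrix (Fin n) (Fin n) ℝ)) +
        lam • (1 : Matrix (Fin n) (Fin n) ℝ) := by abel
    rw [h1]
    refine hN.1.add ?_
    rw [Matrix.IsHermitian, Matrix.conjTranspose_smul, Matrix.conjTranspose_one]
    rfl
  obtain ⟨U, a, h1, h2, h3⟩ := diag N hNh
  have ha : ∀ i, lam ≤ a i := by
    intro i
    have h4 : N - lam • (1 : Matrix (Fin n) (Fin n) ℝ) =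
        U * Matrix.diagonal (fun i => a i + -lam) * U.conjTranspose := by
      rw [← shift U a (-lam) h2, ← h3, neg_smul, sub_eq_add_neg]
    have h5 := hN.conjTranspose_mul_mul_same U
    rw [h4] at h5
    have h6 : U.conjTranspose * (U * Matrix.diagonal (fun i => a i + -lam) * U.conjTranspose) *
        U = Matrix.diagonal (fun i => a i + -lam) := by
      calc _ = (U.conjTranspose * U) * Matrix.diagonal (fun i => a i + -lam) *
            (U.conjTranspose * U) := by simp only [mul_assoc]
        _ = _ := by rw [h1, one_mul, mul_one]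
    rw [h6] at h5
    have h7 := h5.diag_nonneg (i := i)
    rw [Matrix.diagonal_apply_eq] at h7
    linarith
  have ha0 : ∀ i, 0 < a i := fun i => hlam.trans_le (ha i)
  have hdetN : N.det = ∏ i, a i := by
    rw [h3, det_conj U _ h2, Matrix.det_diagonal]
  have hhs : hs (N - 1) = ∑ i, (a i - 1) ^ 2 := by
    have h4 : N - 1 = U * Matrix.diagonal (fun i => a i + -1) * U.conjTranspose := by
      rw [← shift U a (-1) h2, ← h3, neg_smul, one_smul, sub_eq_add_neg]
    rw [h4, hs_diag U _ h1 h2]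
    rfl
  set E' : Matrix (Fin n) (Fin n) ℝ := U.conjTranspose * E * U with hE'
  have hE'h : E'.IsHermitian := by
    rw [hE', Matrix.IsHermitian, Matrix.conjTranspose_mul, Matrix.conjTranspose_mul,
      Matrix.conjTranspose_conjTranspose, hEh.eq, mul_assoc]
  have hE'hs : hs E' ≤ ε ^ 2 := by
    rw [hE', hs_conj U E h2]
    exact hE
  have hE'tr : E'.trace = E.trace := by
    rw [hE', Matrix.trace_mul_cycle, h2, one_mul]
  have hdet : (N + E).det = (Matrix.diagonal a + E').det := by
    have h5 : N + E = U * (Matrix.diagonal a + E') * U.conjTranspose := by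
      have h4 : U * E' * U.conjTranspose = E := by
        rw [hE']
        calc _ = (U * U.conjTranspose) * E * (U * U.conjTranspose) := by simp only [mul_assoc]
          _ = E := by rw [h2, one_mul, mul_one]
      rw [mul_add, add_mul, ← h3, h4]
    rw [h5, det_conj U _ h2]
  -- the normalised perturbation
  let d : Fin n → ℝ := fun i => (Real.sqrt (a i))⁻¹
  let e : Fin n → ℝ := fun i => Real.sqrt (a i)
  have hse : ∀ i, 0 < Real.sqrt (a i) := fun i => Real.sqrt_pos.2 (ha0 i)
  set K : Matrix (Fin n) (Fin n) ℝ := Matrix.diagonal d * E' * Matrix.diagonal d with hK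
  have hKij : ∀ i j, K i j = d i * E' i j * d j := by
    intro i j
    rw [hK, Matrix.mul_diagonal, Matrix.diagonal_mul]
  have hd2 : ∀ i, d i * d i = (a i)⁻¹ := by
    intro i
    show (Real.sqrt (a i))⁻¹ * (Real.sqrt (a i))⁻¹ = _
    rw [← mul_inv, Real.mul_self_sqrt (ha0 i).le]
  have hd2' : ∀ i, d i ^ 2 ≤ lam⁻¹ := by
    intro i
    rw [sq, hd2]
    exact inv_anti₀ hlam (ha i)
  have hKh : K.IsHermitian := by
    ext i j
    rw [Matrix.conjTranspose_apply, hKij, hKij]
    have h4 := congrFun (congrFun hE'h.eq i) j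
    rw [Matrix.conjTranspose_apply] at h4
    simp only [star_trivial] at h4 ⊢
    rw [h4]
    ring
  have hKhs : hs K ≤ ε ^ 2 / lam ^ 2 := by
    have h4 : hs K ≤ lam⁻¹ ^ 2 * hs E' := by
      rw [hs, hs, Finset.mul_sum]
      refine Finset.sum_le_sum fun i _ => ?_
      rw [Finset.mul_sum]
      refine Finset.sum_le_sum fun j _ => ?_
      rw [hKij]
      calc (d i * E' i j * d j) ^ 2 = d i ^ 2 * d j ^ 2 * E' i j ^ 2 := by ring
        _ ≤ lam⁻¹ * lam⁻¹ * E' i j ^ 2 := by
            have := mul_le_mul (hd2' i) (hd2' j) (sq_nonneg _) (by positivity)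
            exact mul_le_mul_of_nonneg_right this (sq_nonneg _)
        _ = lam⁻¹ ^ 2 * E' i j ^ 2 := by ring
    refine h4.trans ?_
    calc lam⁻¹ ^ 2 * hs E' ≤ lam⁻¹ ^ 2 * ε ^ 2 := by gcongr
      _ = ε ^ 2 / lam ^ 2 := by field_simp
  have hdet2 : (Matrix.diagonal a + E').det = (∏ i, a i) * (1 + K).det := by
    have h4 : Matrix.diagonal e * Matrix.diagonal d = 1 := by
      rw [Matrix.diagonal_mul_diagonal, ← Matrix.diagonal_one]
      congr 1
      ext i
      exact mul_inv_cancel₀ (hse i).ne'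
    have h5 : Matrix.diagonal d * Matrix.diagonal e = 1 := by
      rw [Matrix.diagonal_mul_diagonal, ← Matrix.diagonal_one]
      congr 1
      ext i
      exact inv_mul_cancel₀ (hse i).ne'
    have h6 : Matrix.diagonal e * Matrix.diagonal e = Matrix.diagonal a := by
      rw [Matrix.diagonal_mul_diagonal]
      congr 1
      ext i
      exact Real.mul_self_sqrt (ha0 i).le
    have h7 : Matrix.diagonal e * K * Matrix.diagonal e = E' := by
      rw [hK]
      calc _ = (Matrix.diagonal e * Matrix.diagonal d) * E' *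
            (Matrix.diagonal d * Matrix.diagonal e) := by simp only [mul_assoc]
        _ = E' := by rw [h4, h5, one_mul, mul_one]
    have h8 : Matrix.diagonal a + E' = Matrix.diagonal e * (1 + K) * Matrix.diagonal e := by
      rw [mul_add, add_mul, mul_one, h6, h7]
    rw [h8, Matrix.det_mul, Matrix.det_mul, Matrix.det_diagonal, mul_right_comm,
      ← Finset.prod_mul_distrib]
    congr 1
    exact Finset.prod_congr rfl fun i _ => Real.mul_self_sqrt (ha0 i).le
  have hdetK : Real.exp (K.trace - ε ^ 2 / lam ^ 2) ≤ (1 + K).det := by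
    obtain ⟨V, k, g1, g2, g3⟩ := diag K hKh
    have g4 : hs K = ∑ i, k i ^ 2 := by
      conv_lhs => rw [g3]
      exact hs_diag V k g1 g2
    have g5 : K.trace = ∑ i, k i := by
      conv_lhs => rw [g3]
      rw [Matrix.trace_mul_cycle, g1, one_mul, Matrix.trace_diagonal]
    have g6 : (1 + K).det = ∏ i, (1 + k i) := by
      have g7 : 1 + K = V * Matrix.diagonal (fun i => k i + 1) * V.conjTranspose := by
        rw [← shift V k 1 g2, ← g3, one_smul, add_comm]
      rw [g7, det_conj V _ g2, Matrix.det_diagonal]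
      exact Finset.prod_congr rfl fun i _ => add_comm _ _
    have g8 : ∀ i, -(1 / 2) ≤ k i := by
      intro i
      have g9 : k i ^ 2 ≤ (1 / 2) ^ 2 := by
        have g10 : k i ^ 2 ≤ hs K := by
          rw [g4]
          exact Finset.single_le_sum (f := fun i => k i ^ 2) (fun i _ => sq_nonneg _)
            (Finset.mem_univ i)
        refine g10.trans (hKhs.trans ?_)
        rw [← div_pow]
        apply pow_le_pow_left₀ (by positivity)
        rw [div_le_div_iff₀ hlam (by norm_num)]
        linarith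
      exact (abs_le_of_sq_le_sq' g9 (by norm_num)).1
    calc Real.exp (K.trace - ε ^ 2 / lam ^ 2) ≤ Real.exp (∑ i, (k i - k i ^ 2)) := by
          apply Real.exp_le_exp.mpr
          rw [Finset.sum_sub_distrib, ← g5, ← g4]
          linarith
      _ = ∏ i, Real.exp (k i - k i ^ 2) := Real.exp_sum _ _
      _ ≤ ∏ i, (1 + k i) := by
          apply Finset.prod_le_prod
          · intro i _; exact (Real.exp_pos _).le
          · intro i _; exact log_ge (k i) (g8 i)
      _ = (1 + K).det := g6.symm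
  have htrK : E.trace - √(hs (N - 1)) * ε / lam ≤ K.trace := by
    have h4 : K.trace - E.trace = ∑ i, ((a i)⁻¹ - 1) * E' i i := by
      rw [← hE'tr, Matrix.trace, Matrix.trace, ← Finset.sum_sub_distrib]
      refine Finset.sum_congr rfl fun i _ => ?_
      rw [Matrix.diag_apply, Matrix.diag_apply, hKij, ← hd2]
      ring
    have h5 : (∑ i, ((a i)⁻¹ - 1) * E' i i) ^ 2 ≤
        (∑ i, ((a i)⁻¹ - 1) ^ 2) * ∑ i, (E' i i) ^ 2 := Finset.sum_mul_sq_le_sq_mul_sq _ _ _
    have h6 : ∑ i, ((a i)⁻¹ - 1) ^ 2 ≤ hs (N - 1) / lam ^ 2 := by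
      rw [hhs, Finset.sum_div]
      refine Finset.sum_le_sum fun i _ => ?_
      have h7 : (a i)⁻¹ - 1 = -(a i - 1) / a i := by
        have := (ha0 i).ne'
        field_simp
        ring
      rw [h7, div_pow, neg_sq]
      apply div_le_div_of_nonneg_left (sq_nonneg _) (by positivity)
      exact pow_le_pow_left₀ hlam.le (ha i) 2
    have h7 : ∑ i, (E' i i) ^ 2 ≤ ε ^ 2 := by
      refine le_trans ?_ hE'hs
      rw [hs]
      refine Finset.sum_le_sum fun i _ => ?_
      exact Finset.single_le_sum (f := fun j => E' i j ^ 2) (fun j _ => sq_nonneg _)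
        (Finset.mem_univ i)
    have hh0 : 0 ≤ hs (N - 1) := by
      rw [hhs]
      exact Finset.sum_nonneg fun i _ => sq_nonneg _
    have h8 : (K.trace - E.trace) ^ 2 ≤ (√(hs (N - 1)) * ε / lam) ^ 2 := by
      rw [h4]
      refine h5.trans ?_
      calc (∑ i, ((a i)⁻¹ - 1) ^ 2) * ∑ i, (E' i i) ^ 2 ≤ (hs (N - 1) / lam ^ 2) * ε ^ 2 := by
            apply mul_le_mul h6 h7 (Finset.sum_nonneg fun i _ => sq_nonneg _)
            positivity
        _ = (√(hs (N - 1)) * ε / lam) ^ 2 := by
            rw [div_pow, mul_pow, Real.sq_sqrt hh0]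
            ring
    have h9 := (abs_le_of_sq_le_sq' h8 (by positivity)).1
    linarith
  rw [hdet, hdet2, hdetN]
  apply mul_le_mul_of_nonneg_left _ (Finset.prod_nonneg fun i _ => (ha0 i).le)
  refine le_trans (Real.exp_le_exp.mpr ?_) hdetK
  linarith

end PTB_

theorem ptb_proof : Stmt_PTB := fun _ N E lam ε hlam hε hε2 hN hEt hE =>
  PTB_.main N E lam ε hlam hε hε2 hN hEt hE

end PPW
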