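import Pool.Agent.PPW.Stmts

/-!
# Module PWB of squad PPW: the whole matrix at a point
-/

set_option autoImplicit false

namespace PPW

open MeasureTheory Set Filter Topology ProbabilityTheory
open PPI PPG PPX
open scoped Pointwise ENNReal

namespace PWB_

open Matrix

theorem det_one_add_ge {m : Type*} [Fintype m] [DecidableEq m] {W : Matrix m m ℝ}
    (hW : W.PosSemidef) : 1 ≤ (1 + W).det := by
  have hH : (1 + W).IsHermitian := Matrix.isHermitian_one.add hW.isHermitian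
  rw [hH.det_eq_prod_eigenvalues]
  have h : ∀ i, 1 ≤ hH.eigenvalues i := by
    intro i
    have h1 := hH.mulVec_eigenvectorBasis i
    set v : m → ℝ := (hH.eigenvectorBasis i).ofLp with hv
    have h2 : (v ⬝ᵥ v) = 1 := by
      have h3 := hH.eigenvectorBasis.orthonormal.1 i
      have h4 : ‖hH.eigenvectorBasis i‖ ^ 2 = 1 := by rw [h3]; norm_num
      rw [EuclideanSpace.norm_sq_eq] at h4
      simpa [dotProduct, hv, sq] using h4
    have h5 : v ⬝ᵥ (W *ᵥ v) = hH.eigenvalues i - 1 := by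
      have h6 : (1 + W) *ᵥ v = v + W *ᵥ v := by rw [add_mulVec, one_mulVec]
      rw [h6] at h1
      have h7 : W *ᵥ v = hH.eigenvalues i • v - v := by rw [← h1]; abel
      rw [h7, dotProduct_sub, dotProduct_smul, h2]
      simp
    have h8 := hW.dotProduct_mulVec_nonneg v
    rw [star_trivial, h5] at h8
    linarith
  simp only [RCLike.ofReal_real_eq_id, id_eq]
  calc (1 : ℝ) = ∏ _i : m, (1 : ℝ) := by simp
    _ ≤ ∏ i, hH.eigenvalues i := Finset.prod_le_prod (fun _ _ => zero_le_one) (fun i _ => h i)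

open scoped MatrixOrder in
theorem det_mono {m : Type*} [Fintype m] [DecidableEq m] {X Y : Matrix m m ℝ}
    (hX : X.PosDef) (h : (Y - X).PosSemidef) : X.det ≤ Y.det := by
  obtain ⟨B, hB⟩ := CStarAlgebra.nonneg_iff_eq_star_mul_self.mp hX.posSemidef.nonneg
  rw [star_eq_conjTranspose] at hB
  have hXdet := hX.det_pos
  have hBdet : IsUnit B.det := by
    rw [hB, det_mul] at hXdet
    exact (right_ne_zero_of_mul hXdet.ne').isUnit
  have hBB : B⁻¹ * B = 1 := nonsing_inv_mul B hBdet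
  set W : Matrix m m ℝ := (B⁻¹)ᴴ * (Y - X) * B⁻¹ with hW
  have hWp : W.PosSemidef := h.conjTranspose_mul_mul_same B⁻¹
  have hY : Y = Bᴴ * (1 + W) * B := by
    rw [Matrix.mul_add, Matrix.add_mul, Matrix.mul_one, ← hB, hW]
    have : Bᴴ * ((B⁻¹)ᴴ * (Y - X) * B⁻¹) * B = (B⁻¹ * B)ᴴ * (Y - X) * (B⁻¹ * B) := by
      rw [conjTranspose_mul]; simp only [Matrix.mul_assoc]
    rw [this, hBB]
    simp
  have h1 := det_one_add_ge hWp
  calc X.det = X.det * 1 := by ring
    _ ≤ X.det * (1 + W).det := mul_le_mul_of_nonneg_left h1 hXdet.le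
    _ = Y.det := by
      conv_rhs => rw [hY]
      rw [det_mul, det_mul]
      conv_lhs => rw [hB, det_mul]
      ring

variable {n : ℕ} {ι : Type} [Fintype ι]

omit [Fintype ι] in
theorem sm_quad (S : Finset ι) (α : ι → ℝ) (u : ι → EE n) (x : Fin n → ℝ) :
    x ⬝ᵥ (sm S α u *ᵥ x) = ∑ i ∈ S, α i * (∑ k, u i k * x k) ^ 2 := by
  have h1 : ∀ k, (sm S α u *ᵥ x) k = ∑ i ∈ S, α i * (u i k * ∑ l, u i l * x l) := by
    intro k
    simp only [mulVec, dotProduct, sm, of_apply, Finset.sum_mul]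
    rw [Finset.sum_comm]
    refine Finset.sum_congr rfl fun i _ => ?_
    rw [Finset.mul_sum, Finset.mul_sum]
    exact Finset.sum_congr rfl fun l _ => by ring
  simp only [dotProduct, h1, Finset.mul_sum]
  rw [Finset.sum_comm]
  refine Finset.sum_congr rfl fun i _ => ?_
  rw [sq, Finset.sum_mul_sum, Finset.mul_sum]
  refine Finset.sum_congr rfl fun k _ => ?_
  rw [Finset.mul_sum]
  exact Finset.sum_congr rfl fun l _ => by ring

omit [Fintype ι] in
theorem sm_herm (S : Finset ι) (α : ι → ℝ) (u : ι → EE n) : (sm S α u).IsHermitian := by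
  ext k l
  simp only [conjTranspose_apply, sm, of_apply, star_trivial]
  exact Finset.sum_congr rfl fun i _ => by ring

omit [Fintype ι] in
theorem sm_psd (S : Finset ι) (α : ι → ℝ) (u : ι → EE n) (hα : ∀ i ∈ S, 0 ≤ α i) :
    (sm S α u).PosSemidef := by
  refine posSemidef_iff_dotProduct_mulVec.2 ⟨sm_herm S α u, fun x => ?_⟩
  rw [star_trivial, sm_quad]
  exact Finset.sum_nonneg fun i hi => mul_nonneg (hα i hi) (sq_nonneg _)

omit [Fintype ι] in
theorem inner_sum (v x : EE n) : inner ℝ v x = ∑ k, v k * x k := by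
  rw [PiLp.inner_apply]
  exact Finset.sum_congr rfl fun k _ => by
    simp only [RCLike.inner_apply, conj_trivial]
    ring

theorem norm_proj_le {m : ℕ} {P : EE n →L[ℝ] EE n} (hP : PR m P) (v : EE n) :
    ‖P v‖ ≤ ‖v‖ := by
  have h1 : ‖P v‖ ^ 2 ≤ ‖v‖ * ‖P v‖ := by
    rw [← real_inner_self_eq_norm_sq, hP.sym, hP.idem]
    exact real_inner_le_norm v (P v)
  rcases (norm_nonneg (P v)).eq_or_lt with h | h
  · rw [← h]
    exact norm_nonneg _
  · rw [sq] at h1
    exact le_of_mul_le_mul_right h1 h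

theorem one_sub_psd {m : ℕ} (S : Finset ι) (p : ι → ℝ) (w : ι → EE n) {P : EE n →L[ℝ] EE n}
    (hI : IS p w) (hP : PR m P) :
    (1 - sm S (fun i => n * p i) (fun i => P (w i))).PosSemidef := by
  refine posSemidef_iff_dotProduct_mulVec.2
    ⟨Matrix.isHermitian_one.sub (sm_herm _ _ _), fun x => ?_⟩
  rw [star_trivial, sub_mulVec, one_mulVec, dotProduct_sub, sm_quad, sub_nonneg]
  set v : EE n := WithLp.toLp 2 x with hv
  have h1 : x ⬝ᵥ x = ‖v‖ ^ 2 := by
    rw [EuclideanSpace.norm_sq_eq]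
    simp [dotProduct, hv, sq]
  have h2 : ∀ i, ∑ k, (P (w i)) k * x k = inner ℝ (w i) (P v) := by
    intro i
    rw [← hP.sym, inner_sum]
  rw [h1]
  calc ∑ i ∈ S, (n : ℝ) * p i * (∑ k, (P (w i)) k * x k) ^ 2
      ≤ ∑ i, (n : ℝ) * p i * (∑ k, (P (w i)) k * x k) ^ 2 := by
        refine Finset.sum_le_sum_of_subset_of_nonneg (Finset.subset_univ _) fun i _ _ => ?_
        have := (hI.ppos i).le
        positivity
    _ = ‖P v‖ ^ 2 := by
        rw [← hI.iso (P v), Finset.mul_sum]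
        refine Finset.sum_congr rfl fun i _ => ?_
        rw [h2]
        ring
    _ ≤ ‖v‖ ^ 2 := by
        have := norm_proj_le hP v
        have := norm_nonneg (P v)
        gcongr

theorem hs_add (X Y : Matrix (Fin n) (Fin n) ℝ) {a b : ℝ} (ha : 0 ≤ a) (hb : 0 ≤ b)
    (hX : hs X ≤ a ^ 2) (hY : hs Y ≤ b ^ 2) : hs (X + Y) ≤ (a + b) ^ 2 := by
  have e1 : ∀ Z : Matrix (Fin n) (Fin n) ℝ, hs Z = ∑ q : Fin n × Fin n, Z q.1 q.2 ^ 2 := by
    intro Z
    rw [Fintype.sum_prod_type]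
    rfl
  rw [e1] at hX hY ⊢
  have h1 : (∑ q : Fin n × Fin n, X q.1 q.2 * Y q.1 q.2) ^ 2 ≤ (a * b) ^ 2 := by
    calc (∑ q : Fin n × Fin n, X q.1 q.2 * Y q.1 q.2) ^ 2
        ≤ (∑ q : Fin n × Fin n, X q.1 q.2 ^ 2) * (∑ q : Fin n × Fin n, Y q.1 q.2 ^ 2) :=
          Finset.sum_mul_sq_le_sq_mul_sq _ _ _
      _ ≤ a ^ 2 * b ^ 2 := mul_le_mul hX hY
          (Finset.sum_nonneg fun _ _ => sq_nonneg _) (sq_nonneg _)
      _ = (a * b) ^ 2 := by ring
  have h2 : ∑ q : Fin n × Fin n, X q.1 q.2 * Y q.1 q.2 ≤ a * b :=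
    (le_abs_self _).trans (abs_le_of_sq_le_sq h1 (mul_nonneg ha hb))
  have h3 : ∑ q : Fin n × Fin n, (X + Y) q.1 q.2 ^ 2 =
      ∑ q : Fin n × Fin n, X q.1 q.2 ^ 2 + 2 * ∑ q : Fin n × Fin n, X q.1 q.2 * Y q.1 q.2 +
        ∑ q : Fin n × Fin n, Y q.1 q.2 ^ 2 := by
    rw [Finset.mul_sum, ← Finset.sum_add_distrib, ← Finset.sum_add_distrib]
    exact Finset.sum_congr rfl fun q _ => by
      rw [Matrix.add_apply]
      ring
  rw [h3]
  nlinarith

end PWB_

open PWB_ in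
theorem pwb_proof (hPTB : Stmt_PTB) (hMD0 : Stmt_MD0) (hMLB : Stmt_MLB) (hEST : Stmt_EST) :
    Stmt_PWB := by
  intro n m ι _ S p a ξ w P x L A κ Λ ρ hn hI hP hL hLA hκ hκ1 hΛ hρ ha hpA hw hPx hphi hQ hQ1
    hDg hbig
  have hL0 : 0 < L := by linarith
  have hA1 : 1 ≤ A := hL.trans hLA
  have hA0 : 0 < A := by linarith
  set q : ℝ := 1 + √(1 + ‖x‖ ^ 2) with hq
  have hq1 : ‖x‖ ≤ √(1 + ‖x‖ ^ 2) := by
    refine Real.le_sqrt_of_sq_le ?_
    linarith
  have hq0 : 0 < q := by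
    have := Real.sqrt_nonneg (1 + ‖x‖ ^ 2)
    linarith
  set z : EE n := q⁻¹ • x with hz
  have hz1 : ‖z‖ ≤ 1 := by
    rw [hz, norm_smul, Real.norm_eq_abs, abs_of_pos (inv_pos.2 hq0), inv_mul_le_iff₀ hq0]
    linarith
  have hPz : ‖P z‖ ≤ ρ := by
    rw [hz, map_smul, norm_smul, Real.norm_eq_abs, abs_of_pos (inv_pos.2 hq0),
      inv_mul_le_iff₀ hq0]
    linarith
  set y : ι → ℝ := fun i => inner ℝ x (w i) with hy
  have htx : ∀ i, tx x (w i) = w i + y i • z := by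
    intro i
    rw [hz, hy, tx, smul_smul]
    congr 2
  have htx' : (fun i => tx x (w i)) = fun i => w i + y i • z := funext htx
  set z' : EE n := z - P z with hz'
  have hPz' : P z' = 0 := by
    rw [hz', map_sub, hP.idem, sub_self]
  have hz'1 : ‖z'‖ ≤ 1 := by
    have h1 : ‖z‖ ^ 2 = ‖z'‖ ^ 2 + ‖P z‖ ^ 2 := by
      have h2 : z = z' + P z := by rw [hz']; abel
      have h3 : inner ℝ z' (P z) = 0 := by
        rw [← hP.sym, hPz', inner_zero_left]
      conv_lhs => rw [h2]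
      rw [@norm_add_sq_real, h3]
      ring
    have h2 : ‖z'‖ ^ 2 ≤ 1 := by
      have : ‖z‖ ^ 2 ≤ 1 := by
        have := norm_nonneg z
        nlinarith
      nlinarith [sq_nonneg ‖P z‖]
    exact (sq_le_one_iff₀ (norm_nonneg _)).1 h2
  have hn0 : (0 : ℝ) ≤ n := Nat.cast_nonneg n
  set μ : ι → ℝ := fun i => (n : ℝ) * p i with hμ
  set α : ι → ℝ := fun i => μ i * a i with hα
  set h : ι → EE n := fun i => P (w i) with hh
  have hμ0 : ∀ i, 0 ≤ μ i := fun i => mul_nonneg hn0 (hI.ppos i).le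
  have hμα : ∀ i ∈ S, 0 ≤ μ i ∧ 0 ≤ α i := fun i hi =>
    ⟨hμ0 i, mul_nonneg (hμ0 i) (ha i hi).1⟩
  have hPh : ∀ i ∈ S, P (h i) = h i := fun i _ => hP.idem _
  have hpsd0 : (1 - sm S μ h).PosSemidef := one_sub_psd S p w hI hP
  have hQm : Qm S P p w a = 1 - sm S μ h + sm S α h := by
    have e : sm S (fun i => (n : ℝ) * p i * (1 - a i)) (fun i => P (w i)) =
        sm S μ h - sm S α h := by
      ext k l
      simp only [sm, Matrix.of_apply, Matrix.sub_apply, hμ, hα, hh]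
      rw [← Finset.sum_sub_distrib]
      exact Finset.sum_congr rfl fun i _ => by ring
    unfold Qm
    rw [e]
    abel
  have hay : ∑ i ∈ S, α i * y i ^ 2 ≤ L := by
    refine le_trans (le_of_eq ?_) hphi
    rw [Finset.mul_sum]
    exact Finset.sum_congr rfl fun i _ => by
      simp only [hα, hμ, hy]
      ring
  obtain ⟨hM1, hM2⟩ := hMLB n m ι S μ α y h P z' L hP hμα hPh hPz' hz'1 hpsd0 hL hay
    (hQm ▸ hQ) (by
      have e : Qm S P p w a - 1 = sm S α h - sm S μ h := by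
        rw [hQm]
        abel
      rw [← e]
      exact hQ1)
  set M0 : Matrix (Fin n) (Fin n) ℝ := 1 - sm S μ h + sm S α (fun i => h i + y i • z') with hM0
  have hdet0 : (Qm S P p w a).det ≤ M0.det := by
    rw [hQm]
    exact hMD0 n m ι S μ α y h P z' hP hμα hPh hPz' hpsd0
  set X : Matrix (Fin n) (Fin n) ℝ := sm S (fun i => μ i * a i) (fun i => w i + y i • z) -
      sm S μ w - (sm S (fun i => μ i * a i) (fun i => P (w i) + y i • (z - P z)) -
          sm S μ (fun i => P (w i))) with hX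
  obtain ⟨hE1, hE2⟩ := hEST n m ι S μ a y w P z A Λ L ρ hP
    (fun i hi => ⟨hμ0 i, (ha i hi).1, (ha i hi).2.1, hI.nrm i⟩) hz1 hPz
    (by rw [hμ, ← Finset.mul_sum]; exact hpA) hA1 hΛ hL0.le hρ
    (fun e => by
      refine le_trans (le_of_eq ?_) (hw e)
      rw [Finset.mul_sum]
      exact Finset.sum_congr rfl fun i _ => by
        simp only [hμ]
        ring) hay
  have hE3 := hE2 (fun i _ => by
    have e : inner ℝ (w i) z = q⁻¹ * y i := by
      rw [hz, real_inner_smul_right, real_inner_comm]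
    rw [e]
    have : y i * (q⁻¹ * y i) = q⁻¹ * y i ^ 2 := by ring
    rw [this]
    have := inv_pos.2 hq0
    positivity)
  set E : Matrix (Fin n) (Fin n) ℝ := Dg S p w x + X with hE
  set M' : Matrix (Fin n) (Fin n) ℝ :=
    sm (cpl S) (fun i => n * p i * wv x (w i)) (fun i => tx x (w i)) +
      sm S α (fun i => tx x (w i)) with hM'
  have hsum : M0 + E = M' := by
    rw [hM0, hE, hM', hX, Dg, htx']
    have e1 : sm S (fun i => (n : ℝ) * p i) w = sm S μ w := rfl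
    have e2 : sm S (fun i => μ i * a i) (fun i => P (w i) + y i • (z - P z)) =
        sm S α (fun i => h i + y i • z') := rfl
    have e3 : sm S (fun i => μ i * a i) (fun i => w i + y i • z) =
        sm S α (fun i => w i + y i • z) := rfl
    have e4 : sm S μ (fun i => P (w i)) = sm S μ h := rfl
    rw [e1, e2, e3, e4]
    abel
  set B : ℝ := √(A ^ 3 * (Λ + ρ ^ 2)) with hB
  have hB0 : 0 ≤ B := Real.sqrt_nonneg _
  have hin0 : 0 ≤ A ^ 3 * (Λ + ρ ^ 2) := by positivity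
  have hBsq : B ^ 2 = A ^ 3 * (Λ + ρ ^ 2) := Real.sq_sqrt hin0
  have hBle : B ≤ κ / (2400 * L ^ 4) := by
    rw [le_div_iff₀ (by positivity)]
    refine (le_abs_self _).trans (abs_le_of_sq_le_sq ?_ hκ.le)
    calc (B * (2400 * L ^ 4)) ^ 2 = B ^ 2 * L ^ 8 * 2400 ^ 2 := by ring
      _ ≤ κ ^ 2 := by rw [hBsq]; exact hbig
  have hs1 : √(Λ * A) ≤ B := by
    refine Real.sqrt_le_sqrt ?_
    have h1 : A ≤ A ^ 3 := by
      calc A = A ^ 1 := (pow_one A).symm
        _ ≤ A ^ 3 := pow_le_pow_right₀ hA1 (by norm_num)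
    have h2 : Λ ≤ Λ + ρ ^ 2 := by
      have := sq_nonneg ρ
      linarith
    calc Λ * A = A * Λ := by ring
      _ ≤ A ^ 3 * (Λ + ρ ^ 2) := mul_le_mul h1 h2 hΛ (by positivity)
  have hs2 : √((A * Λ + L * ρ ^ 2) * (A ^ 2 + L)) ≤ 3 / 2 * B := by
    rw [Real.sqrt_le_left (by positivity)]
    rw [mul_pow, hBsq]
    have h1 : A * Λ + L * ρ ^ 2 ≤ A * (Λ + ρ ^ 2) := by
      have : L * ρ ^ 2 ≤ A * ρ ^ 2 := mul_le_mul_of_nonneg_right hLA (sq_nonneg _)
      linarith
    have h2 : A ^ 2 + L ≤ 2 * A ^ 2 := by nlinarith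
    have h3 : (A * Λ + L * ρ ^ 2) * (A ^ 2 + L) ≤ (A * (Λ + ρ ^ 2)) * (2 * A ^ 2) :=
      mul_le_mul h1 h2 (by positivity) (by positivity)
    nlinarith
  have hXle : hs X ≤ (κ / (200 * L ^ 4)) ^ 2 := by
    refine hE1.trans ?_
    have h1 : 3 * √(Λ * A) + 6 * √((A * Λ + L * ρ ^ 2) * (A ^ 2 + L)) ≤
        κ / (200 * L ^ 4) := by
      calc 3 * √(Λ * A) + 6 * √((A * Λ + L * ρ ^ 2) * (A ^ 2 + L)) ≤ 12 * B := by linarith
        _ ≤ 12 * (κ / (2400 * L ^ 4)) := by linarith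
        _ = κ / (200 * L ^ 4) := by
          field_simp
          ring
    have h0 : 0 ≤ 3 * √(Λ * A) + 6 * √((A * Λ + L * ρ ^ 2) * (A ^ 2 + L)) := by positivity
    exact pow_le_pow_left₀ h0 h1 2
  have hEle : hs E ≤ (κ / (100 * L ^ 4)) ^ 2 := by
    have h1 := hs_add (Dg S p w x) X (a := κ / (200 * L ^ 4)) (b := κ / (200 * L ^ 4))
      (by positivity) (by positivity) hDg hXle
    have e : κ / (200 * L ^ 4) + κ / (200 * L ^ 4) = κ / (100 * L ^ 4) := by
      field_simp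
      ring
    rw [e] at h1
    exact h1
  have hEsym : E.transpose = E := by
    have h1 : M0.IsHermitian :=
      (Matrix.isHermitian_one.sub (sm_herm _ _ _)).add (sm_herm _ _ _)
    have h2 : M'.IsHermitian := (sm_herm _ _ _).add (sm_herm _ _ _)
    have h3 : E = M' - M0 := by
      rw [← hsum]
      abel
    have h4 : E.IsHermitian := h3 ▸ h2.sub h1
    exact h4
  set lam : ℝ := (8 * L ^ 2)⁻¹ with hlam
  set ε : ℝ := κ / (100 * L ^ 4) with hε
  have hlam0 : 0 < lam := by positivity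
  have hε0 : 0 < ε := by positivity
  have hL2 : 1 ≤ L ^ 2 := one_le_pow₀ hL
  have hεl : ε ≤ lam / 2 := by
    rw [hε, hlam, div_le_iff₀ (by positivity)]
    have : (8 * L ^ 2)⁻¹ / 2 * (100 * L ^ 4) = 25 / 4 * L ^ 2 := by
      field_simp
      ring
    rw [this]
    nlinarith
  obtain ⟨hP1, hP2⟩ := hPTB n M0 E lam ε hlam0 hε0.le hεl hM1 hEsym hEle
  rw [hsum] at hP1 hP2
  have hM'pd : M'.PosDef := by
    have h1 : ((lam - ε) • (1 : Matrix (Fin n) (Fin n) ℝ)).PosDef :=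
      Matrix.PosDef.one.smul (by linarith)
    have h2 := h1.add_posSemidef hP1
    have e : (lam - ε) • (1 : Matrix (Fin n) (Fin n) ℝ) + (M' - (lam - ε) • 1) = M' := by abel
    rw [e] at h2
    exact h2
  have hM0pd : 0 ≤ M0.det := by
    have h1 : (lam • (1 : Matrix (Fin n) (Fin n) ℝ)).PosDef :=
      Matrix.PosDef.one.smul hlam0
    have h2 := h1.add_posSemidef hM1
    have e : lam • (1 : Matrix (Fin n) (Fin n) ℝ) + (M0 - lam • 1) = M0 := by abel
    rw [e] at h2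
    exact h2.det_pos.le
  have hfin : M'.det ≤ (sm (cpl S) (fun i => n * p i * wv x (w i)) (fun i => tx x (w i)) +
        sm S (fun i => n * p i * ξ i) (fun i => tx x (w i))).det := by
    refine det_mono hM'pd ?_
    have e : sm (cpl S) (fun i => n * p i * wv x (w i)) (fun i => tx x (w i)) +
        sm S (fun i => n * p i * ξ i) (fun i => tx x (w i)) - M' =
        sm S (fun i => n * p i * (ξ i - a i)) (fun i => tx x (w i)) := by
      rw [hM', add_sub_add_left_eq_sub]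
      ext k l
      simp only [sm, Matrix.of_apply, Matrix.sub_apply, hα, hμ]
      rw [← Finset.sum_sub_distrib]
      exact Finset.sum_congr rfl fun i _ => by ring
    rw [e]
    exact sm_psd _ _ _ fun i hi => mul_nonneg (hμ0 i) (sub_nonneg.2 (ha i hi).2.2)
  refine le_trans ?_ hfin
  refine le_trans ?_ hP2
  refine mul_le_mul hdet0 ?_ (Real.exp_pos _).le hM0pd
  rw [Real.exp_le_exp]
  have hN1 : √(hs (M0 - 1)) ≤ 5 * L := by
    rw [Real.sqrt_le_left (by positivity)]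
    have e : M0 - 1 = sm S α (fun i => h i + y i • z') - sm S μ h := by
      rw [hM0]
      abel
    rw [e]
    exact hM2
  have hL3 : 1 ≤ L ^ 4 := one_le_pow₀ hL
  have herr1 : √(hs (M0 - 1)) * ε / lam ≤ 2 / 5 * κ := by
    have h1 : √(hs (M0 - 1)) * ε / lam ≤ (5 * L) * ε / lam := by gcongr
    have h2 : (5 * L) * ε / lam = 2 / 5 * κ / L := by
      rw [hε, hlam]
      field_simp
      ring
    have h3 : 2 / 5 * κ / L ≤ 2 / 5 * κ := div_le_self (by positivity) hL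
    linarith
  have herr2 : ε ^ 2 / lam ^ 2 ≤ 1 / 10 * κ := by
    have h2 : ε ^ 2 / lam ^ 2 = 4 / 625 * κ ^ 2 / L ^ 4 := by
      rw [hε, hlam]
      field_simp
      ring
    have h3 : 4 / 625 * κ ^ 2 / L ^ 4 ≤ 4 / 625 * κ ^ 2 := div_le_self (by positivity) hL3
    nlinarith
  have htr : E.trace = (Dg S p w x).trace + X.trace := Matrix.trace_add _ _
  have hsm : (n : ℝ) * ∑ i ∈ S, p i * (1 - ‖P (w i)‖ ^ 2) * (1 - a i) =
      ∑ i ∈ S, μ i * (1 - ‖P (w i)‖ ^ 2) * (1 - a i) := by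
    rw [Finset.mul_sum]
    exact Finset.sum_congr rfl fun i _ => by
      simp only [hμ]
      ring
  rw [htr, hsm]
  linarith

end PPW
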