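import Pool.Agent.PPW.Stmts

/-!
# Squad PPW (MP_0bf616_gt), module QAB: the difference between the coefficients and their
conditional means
-/

set_option autoImplicit false

namespace PPW

open MeasureTheory Set Filter Topology ProbabilityTheory
open PPI PPG PPX
open scoped Pointwise ENNReal

noncomputable section

namespace QAB_

theorem ex_apply (A : Set ℝ) (hA : MeasurableSet A) :
    ex A = ∫⁻ t in A ∩ Ioi 0, ENNReal.ofReal (Real.exp (-t)) := by
  unfold ex
  rw [withDensity_apply _ hA, Measure.restrict_restrict hA]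

theorem prob : IsProbabilityMeasure ex := by
  constructor
  rw [ex_apply _ MeasurableSet.univ, univ_inter,
    ← ofReal_integral_eq_lintegral_ofReal (integrableOn_exp_neg_Ioi 0)
    (Eventually.of_forall fun t => (Real.exp_pos _).le), integral_exp_neg_Ioi]
  simp

theorem probGam (n : ℕ) : IsProbabilityMeasure (gam n) := by unfold gam; infer_instance

theorem meas_sg : Measurable sg := by
  unfold sg
  fun_prop

/-- measurability of the conditional mean in `y` -/
theorem meas_ab {n : ℕ} (c : ℝ → ℝ) (hc : Continuous c) (P : EE n →L[ℝ] EE n) (w : EE n)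
    (t : ℝ) : Measurable (fun y : EE n => ab c P w (t, y)) := by
  have := probGam n
  have h : StronglyMeasurable (fun z : EE n × EE n =>
      c (sg t * inner ℝ (P z.1 + (z.2 - P z.2)) w)) := by
    apply Continuous.stronglyMeasurable
    fun_prop
  have h2 : Measurable (fun y : EE n =>
      ∫ y', c (sg t * inner ℝ (P y + (y' - P y')) w) ∂(gam n)) :=
    (h.integral_prod_right' (ν := gam n)).measurable
  exact h2.const_mul (√(Real.pi / 2) * sg t)

theorem meas_aa {n : ℕ} (c : ℝ → ℝ) (hc : Continuous c) (w : EE n)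
    (t : ℝ) : Measurable (fun y : EE n => aa c w (t, y)) := by
  have h2 : Measurable (fun y : EE n => c (inner ℝ (sg t • y) w)) := by
    apply Continuous.measurable
    fun_prop
  exact h2.const_mul (√(Real.pi / 2) * sg t)

theorem meas_hs {n : ℕ} {ι : Type} [Fintype ι] (S : Finset ι) (α : ι → EE n → ℝ)
    (u : ι → EE n) (hα : ∀ i ∈ S, Measurable (α i)) :
    Measurable (fun y : EE n => hs (sm S (fun i => α i y) u)) := by
  unfold hs sm
  simp only [Matrix.of_apply]
  refine Finset.measurable_sum _ fun k _ => Finset.measurable_sum _ fun l _ => ?_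
  refine Measurable.pow_const ?_ 2
  refine Finset.measurable_sum _ fun i hi => ?_
  exact (hα i hi).mul_const _

theorem aa_eq {n m : ℕ} (c : ℝ → ℝ) (P : EE n →L[ℝ] EE n) (hP : PR m P) (w : EE n)
    (t : ℝ) (y y' : EE n) :
    aa c w (t, P y + (y' - P y')) =
      √(Real.pi / 2) * sg t * c (sg t * (inner ℝ y (P w) + inner ℝ y' (w - P w))) := by
  unfold aa pt
  simp only
  rw [inner_smul_left, inner_add_left, inner_sub_left, hP.sym, hP.sym, inner_sub_right]
  simp

theorem ab_eq {n m : ℕ} (c : ℝ → ℝ) (P : EE n →L[ℝ] EE n) (hP : PR m P) (w : EE n)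
    (t : ℝ) (y y' : EE n) :
    ab c P w (t, P y + (y' - P y')) =
      √(Real.pi / 2) * sg t * ∫ y'', c (sg t * (inner ℝ y (P w) + inner ℝ y'' (w - P w)))
        ∂(gam n) := by
  unfold ab
  simp only
  congr 1
  refine integral_congr_ae (Eventually.of_forall fun y'' => ?_)
  simp only
  rw [map_add, map_sub, hP.idem, hP.idem, sub_self, add_zero]
  rw [inner_add_left, inner_sub_left, hP.sym, hP.sym y'', inner_sub_right]

theorem de_pos (n : ℕ) (hn : 16 ≤ n) : 0 < de n ∧ de n ≤ 1 := by
  unfold de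
  have h1 : (1 : ℝ) ≤ n := by
    have : (16 : ℝ) ≤ n := by exact_mod_cast hn
    linarith
  constructor
  · exact Real.rpow_pos_of_pos (by linarith) _
  · exact Real.rpow_le_one_of_one_le_of_nonpos h1 (by norm_num)

theorem deriv_phi (c : ℝ → ℝ) (hc : ContDiff ℝ 1 c) (a s q : ℝ) (r : ℝ) :
    HasDerivAt (fun r => a * c (s * (q + r))) (a * (deriv c (s * (q + r)) * s)) r := by
  have h1 : HasDerivAt (fun r : ℝ => s * (q + r)) s r := by
    have := ((hasDerivAt_id r).const_add q).const_mul s
    simpa using this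
  have h2 : HasDerivAt c (deriv c (s * (q + r))) (s * (q + r)) :=
    ((hc.differentiable one_ne_zero) _).hasDerivAt
  exact (h2.comp r h1).const_mul a

theorem contDiff_phi (c : ℝ → ℝ) (hc : ContDiff ℝ 1 c) (a s q : ℝ) :
    ContDiff ℝ 1 (fun r => a * c (s * (q + r))) := by
  fun_prop

end QAB_

open QAB_ in
theorem qab_proof (hGLA : Stmt_GLA) (hPOM : Stmt_POM) : Stmt_QAB := by
  intro n m ι _ P S p d w c Λ R hn hIS hPR hR hc hd hb hΛ
  have hpg := probGam n
  have hpe := prob
  obtain ⟨hde0, hde1⟩ := de_pos n hn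
  have hn0 : (0 : ℝ) ≤ n := Nat.cast_nonneg n
  -- `Λ` is nonnegative
  have hΛ0 : 0 ≤ Λ := by
    have h1 := hΛ (EuclideanSpace.single ⟨0, by omega⟩ (1 : ℝ))
    have h2 : ‖(EuclideanSpace.single (⟨0, by omega⟩ : Fin n) (1 : ℝ))‖ = 1 := by simp
    rw [h2] at h1
    have h3 : 0 ≤ (n : ℝ) * ∑ i ∈ S, p i * (inner ℝ (w i - P (w i))
        (EuclideanSpace.single (⟨0, by omega⟩ : Fin n) (1 : ℝ))) ^ 2 :=
      mul_nonneg hn0 (Finset.sum_nonneg fun i _ => mul_nonneg (hIS.ppos i).le (sq_nonneg _))
    linarith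
  have hd0 : ∀ i ∈ S, 0 ≤ d i := fun i hi => (abs_nonneg _).trans (hd i hi 0)
  set A : Set ℝ := {t | 0 < t ∧ sg t ≤ R} with hA
  have hAm : MeasurableSet A :=
    (measurableSet_lt measurable_const measurable_id).inter
      (measurableSet_le meas_sg measurable_const)
  have hset : {z : ℝ × EE n | 0 < z.1 ∧ sg z.1 ≤ R} = A ×ˢ (univ : Set (EE n)) := by
    ext z
    simp [hA]
  set F : ℝ × EE n → ℝ≥0∞ := fun z => ENNReal.ofReal (hs (sm S (fun i =>
        n * p i * ((1 - de n) * (aa (c i) (w i) z - ab (c i) P (w i) z)))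
        (fun i => P (w i)))) with hF
  set B : ℝ≥0∞ := ENNReal.ofReal (4 * Λ * R ^ 4 * (n * ∑ i ∈ S, p i * d i ^ 2 * ‖P (w i)‖ ^ 4))
    with hB
  -- the inner integral
  have key : ∀ t ∈ A, ∫⁻ y, F (t, y) ∂(gam n) ≤ B := by
    intro t ht
    obtain ⟨ht0, htR⟩ := ht
    have hs0 : 0 ≤ sg t := by
      unfold sg
      positivity
    have hFm : Measurable (fun y => F (t, y)) := by
      rw [hF]
      refine ENNReal.measurable_ofReal.comp ?_
      refine meas_hs S (fun i y => n * p i * ((1 - de n) * (aa (c i) (w i) (t, y) -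
        ab (c i) P (w i) (t, y)))) _ ?_
      intro i hi
      exact (((meas_aa _ (hc i hi).continuous _ t).sub
        (meas_ab _ (hc i hi).continuous P _ t)).const_mul _).const_mul _
    rw [← hGLA.2 n m P (fun y => F (t, y)) hPR hFm]
    have h1 : ∀ y, ∫⁻ y', F (t, P y + (y' - P y')) ∂(gam n) ≤ B := by
      intro y
      set φ : ι → ℝ → ℝ := fun i r => ((1 - de n) * (√(Real.pi / 2) * sg t)) *
        c i (sg t * (inner ℝ y (P (w i)) + r)) with hφ
      have h2 := hPOM n ι S (fun i => n * p i) (fun i => √(Real.pi / 2) * R ^ 2 * d i)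
        (fun i => P (w i)) (fun i => w i - P (w i)) φ Λ
        (fun i _ => mul_nonneg hn0 (hIS.ppos i).le)
        (fun i hi => contDiff_phi (c i) (hc i hi) _ _ _)
        ?_ ?_
      · refine le_trans (le_of_eq ?_) (h2.trans ?_)
        · refine lintegral_congr fun y' => ?_
          simp only [hF]
          congr 3
          funext i
          rw [aa_eq (c i) P hPR, ab_eq (c i) P hPR]
          simp only [hφ]
          rw [integral_const_mul]
          ring
        · rw [hB]
          refine ENNReal.ofReal_le_ofReal ?_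
          have h3 : ∑ i ∈ S, (n : ℝ) * p i * (√(Real.pi / 2) * R ^ 2 * d i) ^ 2 *
              ‖P (w i)‖ ^ 4 = (Real.pi / 2 * R ^ 4) *
              (n * ∑ i ∈ S, p i * d i ^ 2 * ‖P (w i)‖ ^ 4) := by
            rw [Finset.mul_sum, Finset.mul_sum]
            refine Finset.sum_congr rfl fun i _ => ?_
            have h4 : √(Real.pi / 2) ^ 2 = Real.pi / 2 :=
              Real.sq_sqrt (by positivity)
            calc (n : ℝ) * p i * (√(Real.pi / 2) * R ^ 2 * d i) ^ 2 * ‖P (w i)‖ ^ 4
                = √(Real.pi / 2) ^ 2 * R ^ 4 * (n * (p i * d i ^ 2 * ‖P (w i)‖ ^ 4)) := by ring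
              _ = _ := by rw [h4]
          rw [h3]
          have h5 : 0 ≤ (n : ℝ) * ∑ i ∈ S, p i * d i ^ 2 * ‖P (w i)‖ ^ 4 :=
            mul_nonneg hn0 (Finset.sum_nonneg fun i _ =>
              mul_nonneg (mul_nonneg (hIS.ppos i).le (sq_nonneg _)) (by positivity))
          have h6 : Real.pi ≤ 4 := Real.pi_le_four
          have h7 : 0 ≤ Λ * R ^ 4 * ((n : ℝ) * ∑ i ∈ S, p i * d i ^ 2 * ‖P (w i)‖ ^ 4) := by
            positivity
          nlinarith
      · intro i hi s
        rw [(deriv_phi (c i) (hc i hi) _ _ _ s).deriv]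
        have h3 := hd i hi (sg t * (inner ℝ y (P (w i)) + s))
        rw [abs_mul, abs_mul, abs_mul, abs_mul, abs_of_nonneg (by linarith : 0 ≤ 1 - de n),
          abs_of_nonneg hs0, abs_of_nonneg (Real.sqrt_nonneg _)]
        have h4 : (1 - de n) * (√(Real.pi / 2) * sg t) ≤ √(Real.pi / 2) * R := by
          calc (1 - de n) * (√(Real.pi / 2) * sg t) ≤ 1 * (√(Real.pi / 2) * sg t) :=
                mul_le_mul_of_nonneg_right (by linarith) (by positivity)
            _ ≤ √(Real.pi / 2) * R := by
                rw [one_mul]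
                exact mul_le_mul_of_nonneg_left htR (Real.sqrt_nonneg _)
        have h5 : |deriv (c i) (sg t * (inner ℝ y (P (w i)) + s))| * sg t ≤ d i * R :=
          mul_le_mul h3 htR hs0 (hd0 i hi)
        calc (1 - de n) * (√(Real.pi / 2) * sg t) *
              (|deriv (c i) (sg t * (inner ℝ y (P (w i)) + s))| * sg t)
            ≤ √(Real.pi / 2) * R * (d i * R) :=
              mul_le_mul h4 h5 (by positivity) (by positivity)
          _ = √(Real.pi / 2) * R ^ 2 * d i := by ring
      · intro e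
        have h3 := hΛ e
        rw [Finset.mul_sum] at h3
        simpa only [mul_assoc] using h3
    calc ∫⁻ y, ∫⁻ y', F (t, P y + (y' - P y')) ∂(gam n) ∂(gam n)
        ≤ ∫⁻ _, B ∂(gam n) := lintegral_mono h1
      _ = B := by simp
  rw [hset]
  have h8 : (pm n).restrict (A ×ˢ (univ : Set (EE n))) = (ex.restrict A).prod (gam n) := by
    unfold pm
    rw [← Measure.prod_restrict, Measure.restrict_univ]
  rw [h8]
  calc ∫⁻ z, F z ∂((ex.restrict A).prod (gam n))
      ≤ ∫⁻ t, ∫⁻ y, F (t, y) ∂(gam n) ∂(ex.restrict A) := lintegral_prod_le _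
    _ ≤ ∫⁻ _, B ∂(ex.restrict A) := setLIntegral_mono' hAm key
    _ = B * ex A := by simp
    _ ≤ B * 1 := by gcongr; exact prob_le_one
    _ = B := mul_one _

end

end PPW
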