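import Pool.Agent.PPW.Stmts

/-!
# Squad PPW (MP_0bf616_gt), module QBB: comparison of `Q_a` and `Q_b`
-/

set_option autoImplicit false

namespace PPW

open MeasureTheory Set Filter Topology ProbabilityTheory
open PPI PPG PPX
open scoped Pointwise ENNReal

namespace QBB_

variable {n : ℕ} {ι : Type}

theorem sm_tr (S : Finset ι) (α : ι → ℝ) (u : ι → EE n) :
    (sm S α u).transpose = sm S α u := by
  ext k l
  simp only [Matrix.transpose_apply, sm, Matrix.of_apply]
  refine Finset.sum_congr rfl fun i _ => ?_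
  ring

theorem qf_sm (S : Finset ι) (α : ι → ℝ) (u : ι → EE n) (x : Fin n → ℝ) :
    x ⬝ᵥ (Matrix.mulVec (sm S α u) x) =
      ∑ i ∈ S, α i * (inner ℝ (u i) (WithLp.toLp 2 x : EE n)) ^ 2 := by
  have e0 : ∀ i, inner ℝ (u i) (WithLp.toLp 2 x : EE n) = ∑ k, x k * u i k := by
    intro i
    simp only [PiLp.inner_apply, RCLike.inner_apply, conj_trivial]
  simp only [e0, dotProduct, Matrix.mulVec, sm, Matrix.of_apply]
  have e1 : ∀ i, α i * (∑ k, x k * u i k) ^ 2 =
      ∑ k, x k * ∑ l, α i * (u i k * u i l) * x l := by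
    intro i
    rw [sq, Finset.sum_mul_sum, Finset.mul_sum]
    refine Finset.sum_congr rfl fun k _ => ?_
    rw [Finset.mul_sum, Finset.mul_sum]
    refine Finset.sum_congr rfl fun l _ => ?_
    ring
  simp only [e1]
  rw [Finset.sum_comm]
  refine Finset.sum_congr rfl fun k _ => ?_
  rw [← Finset.mul_sum]
  congr 1
  rw [Finset.sum_comm]
  refine Finset.sum_congr rfl fun l _ => ?_
  rw [Finset.sum_mul]

theorem qf_one (x : Fin n → ℝ) (c : ℝ) :
    x ⬝ᵥ (Matrix.mulVec (c • (1 : Matrix (Fin n) (Fin n) ℝ)) x) =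
      c * ‖(WithLp.toLp 2 x : EE n)‖ ^ 2 := by
  rw [Matrix.smul_mulVec, Matrix.one_mulVec, dotProduct_smul, smul_eq_mul,
    EuclideanSpace.real_norm_sq_eq]
  congr 1
  simp only [dotProduct]
  refine Finset.sum_congr rfl fun k _ => ?_
  ring

theorem psd_of (S : Finset ι) (α : ι → ℝ) (u : ι → EE n) (c : ℝ)
    (h : ∀ e : EE n, ∑ i ∈ S, α i * (inner ℝ (u i) e) ^ 2 ≤ c * ‖e‖ ^ 2) :
    (c • (1 : Matrix (Fin n) (Fin n) ℝ) - sm S α u).PosSemidef := by
  refine Matrix.PosSemidef.of_dotProduct_mulVec_nonneg ?_ ?_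
  · unfold Matrix.IsHermitian
    rw [Matrix.conjTranspose_eq_transpose_of_trivial, Matrix.transpose_sub, sm_tr,
      Matrix.transpose_smul, Matrix.transpose_one]
  · intro x
    rw [star_trivial, Matrix.sub_mulVec, dotProduct_sub, qf_one, qf_sm]
    linarith [h (WithLp.toLp 2 x)]

theorem hs_sm (S : Finset ι) (α : ι → ℝ) (u : ι → EE n) :
    hs (sm S α u) = ∑ i ∈ S, ∑ j ∈ S, α i * α j * (inner ℝ (u i) (u j)) ^ 2 := by
  have e0 : ∀ i j, inner ℝ (u i) (u j) = ∑ k, u i k * u j k := by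
    intro i j
    simp only [PiLp.inner_apply, RCLike.inner_apply, conj_trivial]
    refine Finset.sum_congr rfl fun k _ => ?_
    ring
  have e1 : ∀ i j, α i * α j * (inner ℝ (u i) (u j)) ^ 2 =
      ∑ k, ∑ l, α i * α j * ((u i k * u j k) * (u i l * u j l)) := by
    intro i j
    rw [e0, sq, Finset.sum_mul_sum, Finset.mul_sum]
    refine Finset.sum_congr rfl fun k _ => ?_
    rw [Finset.mul_sum]
  simp only [e1]
  unfold hs
  simp only [sm, Matrix.of_apply]
  have e2 : ∀ k l, (∑ i ∈ S, α i * (u i k * u i l)) ^ 2 =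
      ∑ i ∈ S, ∑ j ∈ S, α i * α j * ((u i k * u j k) * (u i l * u j l)) := by
    intro k l
    rw [sq, Finset.sum_mul_sum]
    refine Finset.sum_congr rfl fun i _ => ?_
    refine Finset.sum_congr rfl fun j _ => ?_
    ring
  simp only [e2]
  rw [Finset.sum_congr rfl fun k _ => Finset.sum_comm]
  rw [Finset.sum_comm]
  refine Finset.sum_congr rfl fun i _ => ?_
  rw [Finset.sum_congr rfl fun k _ => Finset.sum_comm]
  rw [Finset.sum_comm]

theorem hs_le (S : Finset ι) (α β : ι → ℝ) (u : ι → EE n) (h : ∀ i ∈ S, |α i| ≤ β i) :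
    hs (sm S α u) ≤ (∑ i ∈ S, β i * ‖u i‖ ^ 2) ^ 2 := by
  rw [hs_sm, sq, Finset.sum_mul_sum]
  refine Finset.sum_le_sum fun i hi => Finset.sum_le_sum fun j hj => ?_
  have h1 : (inner ℝ (u i) (u j)) ^ 2 ≤ ‖u i‖ ^ 2 * ‖u j‖ ^ 2 := by
    have h2 := abs_real_inner_le_norm (u i) (u j)
    rw [← sq_abs, ← mul_pow]
    exact pow_le_pow_left₀ (abs_nonneg _) h2 2
  have h3 : α i * α j ≤ β i * β j := by
    calc α i * α j ≤ |α i * α j| := le_abs_self _
      _ = |α i| * |α j| := abs_mul _ _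
      _ ≤ β i * β j := mul_le_mul (h i hi) (h j hj) (abs_nonneg _)
          ((abs_nonneg _).trans (h i hi))
  have h4 : 0 ≤ β i * β j := mul_nonneg ((abs_nonneg _).trans (h i hi))
    ((abs_nonneg _).trans (h j hj))
  calc α i * α j * (inner ℝ (u i) (u j)) ^ 2 ≤ β i * β j * (inner ℝ (u i) (u j)) ^ 2 :=
        mul_le_mul_of_nonneg_right h3 (sq_nonneg _)
    _ ≤ β i * β j * (‖u i‖ ^ 2 * ‖u j‖ ^ 2) := mul_le_mul_of_nonneg_left h1 h4
    _ = β i * ‖u i‖ ^ 2 * (β j * ‖u j‖ ^ 2) := by ring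

theorem hs_add (A B : Matrix (Fin n) (Fin n) ℝ) : hs (A + B) ≤ 2 * hs A + 2 * hs B := by
  unfold hs
  rw [Finset.mul_sum, Finset.mul_sum, ← Finset.sum_add_distrib]
  refine Finset.sum_le_sum fun k _ => ?_
  rw [Finset.mul_sum, Finset.mul_sum, ← Finset.sum_add_distrib]
  refine Finset.sum_le_sum fun l _ => ?_
  rw [Matrix.add_apply]
  nlinarith [sq_nonneg (A k l - B k l)]

theorem tr_sm (S : Finset ι) (α : ι → ℝ) (u : ι → EE n) :
    (sm S α u).trace = ∑ i ∈ S, α i * ‖u i‖ ^ 2 := by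
  unfold Matrix.trace
  simp only [Matrix.diag_apply, sm, Matrix.of_apply]
  rw [Finset.sum_comm]
  refine Finset.sum_congr rfl fun i _ => ?_
  rw [EuclideanSpace.real_norm_sq_eq, Finset.mul_sum]
  refine Finset.sum_congr rfl fun k _ => ?_
  ring

theorem sm_smul (S : Finset ι) (c : ℝ) (α : ι → ℝ) (u : ι → EE n) :
    sm S (fun i => c * α i) u = c • sm S α u := by
  ext k l
  simp only [sm, Matrix.of_apply, Matrix.smul_apply, smul_eq_mul, Finset.mul_sum]
  refine Finset.sum_congr rfl fun i _ => ?_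
  ring

theorem pr_le {m : ℕ} {P : EE n →L[ℝ] EE n} (h : PR m P) (e : EE n) : ‖P e‖ ^ 2 ≤ ‖e‖ ^ 2 := by
  have h1 : ‖P e‖ ^ 2 = inner ℝ e (P e) := by
    rw [← real_inner_self_eq_norm_sq, h.sym, h.idem]
  have h2 : inner ℝ e (P e) ≤ ‖e‖ * ‖P e‖ := real_inner_le_norm _ _
  have h3 : ‖P e‖ ≤ ‖e‖ := by
    by_contra hc
    push Not at hc
    have h4 : 0 ≤ ‖e‖ := norm_nonneg e
    nlinarith
  exact pow_le_pow_left₀ (norm_nonneg _) h3 2

end QBB_

open QBB_ in
open Classical in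
theorem qbb_proof (hPTB : Stmt_PTB) (hBAL : Stmt_BAL) : Stmt_QBB := by
  intro n m ι _ S p a b w P L κ hn hIS hPR hL hκ0 hκ1 hb hlow hsab hhs
  have hn0 : (0 : ℝ) ≤ n := Nat.cast_nonneg n
  have hLp : (0 : ℝ) < L := by linarith
  set μ : ι → ℝ := fun i => n * p i with hμ
  have hμ0 : ∀ i, 0 ≤ μ i := fun i => mul_nonneg hn0 (hIS.ppos i).le
  set h : ι → EE n := fun i => P (w i) with hh
  -- isotropy
  have hiso : ∀ e : EE n, ∑ i ∈ S, μ i * (inner ℝ (h i) e) ^ 2 ≤ ‖e‖ ^ 2 := by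
    intro e
    calc ∑ i ∈ S, μ i * (inner ℝ (h i) e) ^ 2
        ≤ ∑ i, μ i * (inner ℝ (h i) e) ^ 2 :=
          Finset.sum_le_sum_of_subset_of_nonneg (Finset.subset_univ _) fun i _ _ =>
            mul_nonneg (hμ0 i) (sq_nonneg _)
      _ = (n : ℝ) * ∑ i, p i * (inner ℝ (w i) (P e)) ^ 2 := by
          rw [Finset.mul_sum]
          refine Finset.sum_congr rfl fun i _ => ?_
          simp only [hμ, hh]
          rw [hPR.sym]
          ring
      _ = ‖P e‖ ^ 2 := hIS.iso (P e)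
      _ ≤ ‖e‖ ^ 2 := pr_le hPR e
  have hpsd : (1 - sm S μ h).PosSemidef := by
    have := psd_of S μ h 1 (fun e => by rw [one_mul]; exact hiso e)
    rw [one_smul] at this
    exact this
  set s : ℝ := 4 / L with hs'
  have hs0 : 0 < s := by positivity
  have hs1 : s ≤ 1 / 2 := by
    rw [hs', div_le_div_iff₀ hLp (by norm_num)]
    linarith
  -- lower bound for `Q_b`
  have hlow' : ∑ i ∈ S, μ i * ‖h i‖ ^ 2 * (if b i < s then 1 else 0) ≤ 1 / 2 := by
    have e : ∑ i ∈ S, μ i * ‖h i‖ ^ 2 * (if b i < s then (1 : ℝ) else 0) =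
        (n : ℝ) * ∑ i ∈ S, p i * ‖P (w i)‖ ^ 2 * (if b i < 4 / L then 1 else 0) := by
      rw [Finset.mul_sum]
      refine Finset.sum_congr rfl fun i _ => ?_
      simp only [hμ, hh, hs']
      ring
    rw [e]
    exact hlow
  have hQb : (Qm S P p w b - (2 / L) • (1 : Matrix (Fin n) (Fin n) ℝ)).PosSemidef := by
    have key : ∀ e : EE n, ∑ i ∈ S, (n * p i * (1 - b i)) * (inner ℝ (h i) e) ^ 2 ≤
        (1 - 2 / L) * ‖e‖ ^ 2 := by
      intro e
      have h1 : ∀ i ∈ S, (n * p i * (1 - b i)) * (inner ℝ (h i) e) ^ 2 ≤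
          (1 - s) * (μ i * (inner ℝ (h i) e) ^ 2) +
            s * ((μ i * ‖h i‖ ^ 2 * (if b i < s then 1 else 0)) * ‖e‖ ^ 2) := by
        intro i hi
        have h2 : (inner ℝ (h i) e) ^ 2 ≤ ‖h i‖ ^ 2 * ‖e‖ ^ 2 := by
          have h3 := abs_real_inner_le_norm (h i) e
          rw [← sq_abs, ← mul_pow]
          exact pow_le_pow_left₀ (abs_nonneg _) h3 2
        have h4 : 0 ≤ (inner ℝ (h i) e) ^ 2 := sq_nonneg _
        have h5 := hμ0 i
        have e1 : n * p i * (1 - b i) * (inner ℝ (h i) e) ^ 2 =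
            (1 - b i) * (μ i * (inner ℝ (h i) e) ^ 2) := by
          simp only [hμ]
          ring
        rw [e1]
        have h6 : 0 ≤ μ i * (inner ℝ (h i) e) ^ 2 := mul_nonneg h5 h4
        by_cases hbs : b i < s
        · rw [if_pos hbs]
          have h7 : (1 - b i) * (μ i * (inner ℝ (h i) e) ^ 2) ≤
              1 * (μ i * (inner ℝ (h i) e) ^ 2) :=
            mul_le_mul_of_nonneg_right (by linarith [hb i hi]) h6
          have h8 : s * (μ i * (inner ℝ (h i) e) ^ 2) ≤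
              s * ((μ i * ‖h i‖ ^ 2 * 1) * ‖e‖ ^ 2) := by
            refine mul_le_mul_of_nonneg_left ?_ hs0.le
            calc μ i * (inner ℝ (h i) e) ^ 2 ≤ μ i * (‖h i‖ ^ 2 * ‖e‖ ^ 2) :=
                  mul_le_mul_of_nonneg_left h2 h5
              _ = (μ i * ‖h i‖ ^ 2 * 1) * ‖e‖ ^ 2 := by ring
          linarith
        · rw [if_neg hbs]
          push Not at hbs
          have h7 : (1 - b i) * (μ i * (inner ℝ (h i) e) ^ 2) ≤
              (1 - s) * (μ i * (inner ℝ (h i) e) ^ 2) :=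
            mul_le_mul_of_nonneg_right (by linarith) h6
          simp only [mul_zero, zero_mul, add_zero]
          exact h7
      have h9 := Finset.sum_le_sum h1
      rw [Finset.sum_add_distrib, ← Finset.mul_sum, ← Finset.mul_sum, ← Finset.sum_mul] at h9
      have h10 : (1 - s) * ∑ i ∈ S, μ i * (inner ℝ (h i) e) ^ 2 ≤ (1 - s) * ‖e‖ ^ 2 :=
        mul_le_mul_of_nonneg_left (hiso e) (by linarith)
      have h11 : s * ((∑ i ∈ S, μ i * ‖h i‖ ^ 2 * (if b i < s then (1 : ℝ) else 0)) *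
          ‖e‖ ^ 2) ≤ s * (1 / 2 * ‖e‖ ^ 2) :=
        mul_le_mul_of_nonneg_left (mul_le_mul_of_nonneg_right hlow' (sq_nonneg _)) hs0.le
      have h12 : 2 / L = s / 2 := by rw [hs']; ring
      rw [h12]
      nlinarith
    have h13 := psd_of S (fun i => n * p i * (1 - b i)) h (1 - 2 / L) key
    have e : Qm S P p w b - (2 / L) • (1 : Matrix (Fin n) (Fin n) ℝ) =
        (1 - 2 / L) • (1 : Matrix (Fin n) (Fin n) ℝ) -
          sm S (fun i => n * p i * (1 - b i)) h := by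
      unfold Qm
      rw [sub_smul, one_smul]
      abel
    rw [e]
    exact h13
  -- norm of `Q_b - 1`
  have hsm : ∑ i ∈ S, μ i * (1 + b i) * ‖h i‖ ^ 2 ≤ L / 2 := by
    have e : ∑ i ∈ S, μ i * (1 + b i) * ‖h i‖ ^ 2 =
        (n : ℝ) * ∑ i ∈ S, p i * ‖P (w i)‖ ^ 2 * (1 + b i) := by
      rw [Finset.mul_sum]
      refine Finset.sum_congr rfl fun i _ => ?_
      simp only [hμ, hh]
      ring
    rw [e]
    exact hsab
  have hsm0 : 0 ≤ ∑ i ∈ S, μ i * (1 + b i) * ‖h i‖ ^ 2 :=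
    Finset.sum_nonneg fun i hi =>
      mul_nonneg (mul_nonneg (hμ0 i) (by linarith [hb i hi])) (sq_nonneg _)
  have hQb1 : hs (Qm S P p w b - 1) ≤ (L / 2) ^ 2 := by
    have e : Qm S P p w b - 1 = sm S (fun i => -(n * p i * (1 - b i))) h := by
      unfold Qm
      ext k l
      simp only [Matrix.sub_apply, sm, Matrix.of_apply, neg_mul, Finset.sum_neg_distrib]
      simp only [hh]
      ring
    rw [e]
    refine (hs_le S _ (fun i => μ i * (1 + b i)) h ?_).trans ?_
    · intro i hi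
      rw [abs_neg, abs_mul, abs_of_nonneg (hμ0 i)]
      refine mul_le_mul_of_nonneg_left ?_ (hμ0 i)
      rw [abs_le]
      constructor <;> linarith [hb i hi]
    · exact pow_le_pow_left₀ hsm0 hsm 2
  -- the perturbation
  set E : Matrix (Fin n) (Fin n) ℝ := sm S (fun i => n * p i * (a i - b i)) h with hE
  have hQa : Qm S P p w a = Qm S P p w b + E := by
    unfold Qm
    ext k l
    simp only [Matrix.sub_apply, Matrix.add_apply, hE, sm, Matrix.of_apply]
    have e : ∑ i ∈ S, n * p i * (1 - b i) * (P (w i) k * P (w i) l) =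
        ∑ i ∈ S, n * p i * (1 - a i) * (P (w i) k * P (w i) l) +
          ∑ i ∈ S, n * p i * (a i - b i) * (h i k * h i l) := by
      rw [← Finset.sum_add_distrib]
      refine Finset.sum_congr rfl fun i _ => ?_
      simp only [hh]
      ring
    rw [e]
    ring
  have hε : κ / L ^ 2 ≤ 2 / L / 2 := by
    rw [div_div, div_le_div_iff₀ (by positivity) (by positivity)]
    nlinarith
  have hε0 : 0 ≤ κ / L ^ 2 := by positivity
  obtain ⟨g1, g2⟩ := hPTB n (Qm S P p w b) E (2 / L) (κ / L ^ 2) (by positivity) hε0 hε hQb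
    (sm_tr _ _ _) hhs
  rw [← hQa] at g1 g2
  refine ⟨?_, ?_, ?_⟩
  · have e : Qm S P p w a - L⁻¹ • (1 : Matrix (Fin n) (Fin n) ℝ) =
        (Qm S P p w a - (2 / L - κ / L ^ 2) • (1 : Matrix (Fin n) (Fin n) ℝ)) +
          (2 / L - κ / L ^ 2 - L⁻¹) • (1 : Matrix (Fin n) (Fin n) ℝ) := by
      rw [sub_smul (2 / L - κ / L ^ 2)]
      abel
    rw [e]
    refine g1.add (Matrix.PosSemidef.smul Matrix.PosSemidef.one ?_)
    have h1 : 2 / L / 2 = L⁻¹ := by field_simp
    have h2 : 2 / L = L⁻¹ + L⁻¹ := by ring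
    linarith
  · have e : Qm S P p w a - 1 = (Qm S P p w b - 1) + E := by
      rw [hQa]
      abel
    rw [e]
    refine (hs_add _ _).trans ?_
    have h1 : (κ / L ^ 2) ^ 2 ≤ 1 := by
      have h2 : κ / L ^ 2 ≤ 1 := by
        rw [div_le_one (by positivity)]
        nlinarith
      exact pow_le_one₀ hε0 h2
    have h3 : hs E ≤ 1 := hhs.trans h1
    nlinarith
  · have h1 : Real.exp (∑ i ∈ S, μ i * ‖h i‖ ^ 2 * Real.log (b i)) ≤ (Qm S P p w b).det := by
      have := hBAL n ι S μ b h (fun i _ => hμ0 i) hb hpsd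
      exact this
    have h2 : √(hs (Qm S P p w b - 1)) ≤ L / 2 := by
      have h3 := Real.sqrt_le_sqrt hQb1
      rwa [Real.sqrt_sq (by positivity)] at h3
    have h3 : √(hs (Qm S P p w b - 1)) * (κ / L ^ 2) / (2 / L) ≤ κ / 4 := by
      have e : √(hs (Qm S P p w b - 1)) * (κ / L ^ 2) / (2 / L) =
          √(hs (Qm S P p w b - 1)) * (κ / (2 * L)) := by
        field_simp
      rw [e]
      calc √(hs (Qm S P p w b - 1)) * (κ / (2 * L)) ≤ L / 2 * (κ / (2 * L)) :=
            mul_le_mul_of_nonneg_right h2 (by positivity)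
        _ = κ / 4 := by field_simp; norm_num
    have h4 : (κ / L ^ 2) ^ 2 / (2 / L) ^ 2 ≤ κ / 4 := by
      have e : (κ / L ^ 2) ^ 2 / (2 / L) ^ 2 = κ ^ 2 / (4 * L ^ 2) := by
        field_simp
        norm_num
      rw [e, div_le_div_iff₀ (by positivity) (by norm_num)]
      have h5 : κ ^ 2 ≤ κ := by nlinarith
      have h6 : 1 ≤ L ^ 2 := by nlinarith
      nlinarith
    have h5 : E.trace = ∑ i ∈ S, μ i * ‖h i‖ ^ 2 * (a i - b i) := by
      rw [hE, tr_sm]
      refine Finset.sum_congr rfl fun i _ => ?_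
      simp only [hμ]
      ring
    have e1 : (n : ℝ) * ∑ i ∈ S, p i * ‖P (w i)‖ ^ 2 * Real.log (b i) =
        ∑ i ∈ S, μ i * ‖h i‖ ^ 2 * Real.log (b i) := by
      rw [Finset.mul_sum]
      refine Finset.sum_congr rfl fun i _ => ?_
      simp only [hμ, hh]
      ring
    have e2 : (n : ℝ) * ∑ i ∈ S, p i * ‖P (w i)‖ ^ 2 * (a i - b i) =
        ∑ i ∈ S, μ i * ‖h i‖ ^ 2 * (a i - b i) := by
      rw [Finset.mul_sum]
      refine Finset.sum_congr rfl fun i _ => ?_
      simp only [hμ, hh]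
      ring
    refine le_trans ?_ g2
    rw [e1, e2, ← h5, add_sub_assoc, Real.exp_add]
    refine mul_le_mul h1 (Real.exp_le_exp.2 (by linarith)) (Real.exp_pos _).le
      ((Real.exp_pos _).le.trans h1)

end PPW
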