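import Pool.Agent.PPW.Stmts2
import Pool.Agent.PPX.RG1

/-!
# Squad PPW: module R1B (the main regime with gain), a variant of the module RG1 of PPX
-/

set_option autoImplicit false

namespace PPW

open MeasureTheory Set Filter Topology
open PPI PPG PPX
open scoped Pointwise ENNReal

namespace R1B_

theorem fin1 (cJ θ0 u L D β y X M : ℝ) (hcJ : 0 < cJ) (hcJ1 : cJ ≤ 1) (hθ : 0 < θ0)
    (hθ1 : 104 * θ0 ≤ cJ) (hL : 1 ≤ L) (hD : 0 < D) (hDL : D ≤ L) (hu : u = D / L)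
    (hβ0 : 0 ≤ β) (hβ : β ≤ D + 12 * θ0 * u) (hy : y ≤ θ0 * u)
    (hM : Real.exp (-β - y) ≤ M) (hX : 256 * X ≤ cJ * u) :
    1 + cJ / 16 * u ≤ Real.exp D * (M * (1 + cJ * min 1 β - 32 * X)) := by
  have hu0 : 0 < u := by rw [hu]; positivity
  have hu1 : u ≤ 1 := by rw [hu]; exact (div_le_one (by linarith)).2 hDL
  have huD : u ≤ D := by rw [hu]; exact div_le_self hD.le hL
  have hM0 : 0 < M := lt_of_lt_of_le (Real.exp_pos _) hM
  rw [← mul_assoc]
  have hDM : Real.exp (D - β - y) ≤ Real.exp D * M := by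
    rw [show D - β - y = D + (-β - y) by ring, Real.exp_add]
    exact mul_le_mul_of_nonneg_left hM (Real.exp_pos _).le
  by_cases hc : D / 2 ≤ β
  · have h1 : u / 2 ≤ min 1 β := le_min (by linarith) (by linarith)
    have h2 : 1 + cJ * u / 4 ≤ 1 + cJ * min 1 β - 32 * X := by nlinarith
    have h3 : 1 - cJ * u / 8 ≤ Real.exp D * M := by
      refine le_trans ?_ hDM
      have h4 := Real.add_one_le_exp (D - β - y)
      nlinarith
    have h5 : 0 ≤ 1 - cJ * u / 8 := by nlinarith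
    have h6 : cJ * u ≤ 1 := mul_le_one₀ hcJ1 hu0.le hu1
    have h7 : 0 < cJ * u := mul_pos hcJ hu0
    calc (1 : ℝ) + cJ / 16 * u ≤ (1 - cJ * u / 8) * (1 + cJ * u / 4) := by
          nlinarith
      _ ≤ Real.exp D * M * (1 + cJ * min 1 β - 32 * X) := by
          apply mul_le_mul h3 h2 (by nlinarith [mul_pos hcJ hu0]) (by positivity)
  · push Not at hc
    have h1 : 0 ≤ min 1 β := le_min zero_le_one hβ0
    have h2 : 1 - u / 8 ≤ 1 + cJ * min 1 β - 32 * X := by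
      nlinarith [mul_nonneg hcJ.le h1]
    have h3 : 1 + u / 4 ≤ Real.exp D * M := by
      refine le_trans ?_ hDM
      have h4 := Real.add_one_le_exp (D - β - y)
      nlinarith
    calc (1 : ℝ) + cJ / 16 * u ≤ (1 + u / 4) * (1 - u / 8) := by nlinarith
      _ ≤ Real.exp D * M * (1 + cJ * min 1 β - 32 * X) := by
          apply mul_le_mul h3 h2 (by linarith) (by positivity)

end R1B_

open Classical in
theorem r1b_proof (hJLB : Stmt_JLB) (hXUB : Stmt_XUB) (hBQQ : Stmt_BQQ) (hTBD : Stmt_TBD)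
    (hCLU : Stmt_CLU) (hLAY : Stmt_LAY) (hKEN : Stmt_KEN) (hAVE : PPI.Stmt_AVE) : Stmt_R1B := by
  obtain ⟨cJ, hcJ, hcJ1, hJLB⟩ := hJLB
  obtain ⟨CX, hCX, hXUB⟩ := hXUB 16 (by norm_num)
  obtain ⟨CT, n₁, hCT, hTBD⟩ := hTBD 17
  obtain ⟨n₂, hCLU⟩ := hCLU 3 20
  obtain ⟨n₃, hLAY⟩ := hLAY 20 20
  obtain ⟨θ0, hθ0⟩ : ∃ x, x = cJ / 104 := ⟨_, rfl⟩
  obtain ⟨δ, hδ⟩ : ∃ x, x = cJ / 2048 := ⟨_, rfl⟩
  obtain ⟨ε0, hε0⟩ : ∃ x, x = δ / 256 := ⟨_, rfl⟩
  have hθp : 0 < θ0 := by rw [hθ0]; positivity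
  have hδp : 0 < δ := by rw [hδ]; positivity
  have hεp : 0 < ε0 := by rw [hε0]; positivity
  have hθ1 : θ0 ≤ 1 / 104 := by rw [hθ0]; linarith
  have hδ1 : δ ≤ 1 / 2048 := by rw [hδ]; linarith
  have hε1 : ε0 ≤ 1 := by rw [hε0]; linarith
  obtain ⟨n₄, hlarge⟩ := RG1_.large
    (max 8 (max (4 / θ0) (max (CX / (θ0 * δ)) (max (4 * CX / δ) (max (16 / δ) (9 / ε0))))))
  obtain ⟨c, hc⟩ : ∃ c, c = min (δ * θ0 / (CX * CT)) ((δ / (3 * CX)) ^ 2) := ⟨_, rfl⟩
  have hcp : 0 < c := by rw [hc]; exact lt_min (by positivity) (by positivity)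
  refine ⟨c, cJ / 16, max n₁ (max n₂ (max n₃ (max n₄ 4))), hcp, by positivity, ?_⟩
  intro n ι _ p w D q hn hIS hMI hQB hD hDL hq
  obtain ⟨L, hLL⟩ : ∃ L : ℝ, L = 1 := ⟨_, rfl⟩
  have hL : 1 ≤ L := hLL.ge
  rw [← hLL] at hDL
  have hLn : L ≤ (n : ℝ) ^ (1 / 100 : ℝ) := by
    rw [hLL]
    apply Real.one_le_rpow _ (by norm_num)
    have h4 : 4 ≤ n := le_trans (le_trans (le_trans (le_trans (le_max_right _ _)
      (le_max_right _ _)) (le_max_right _ _)) (le_max_right _ _)) hn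
    exact_mod_cast (by omega : 1 ≤ n)
  replace hq : q * L ^ 6 ≤ c := by rw [hLL]; simpa using hq
  have hn1 : n₁ ≤ n := le_trans (le_max_left _ _) hn
  have hn2 : n₂ ≤ n := le_trans (le_trans (le_max_left _ _) (le_max_right _ _)) hn
  have hn3 : n₃ ≤ n := le_trans (le_trans (le_trans (le_max_left _ _) (le_max_right _ _))
    (le_max_right _ _)) hn
  have hn4 : n₄ ≤ n := le_trans (le_trans (le_trans (le_trans (le_max_left _ _)
    (le_max_right _ _)) (le_max_right _ _)) (le_max_right _ _)) hn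
  have hn5 : 4 ≤ n := le_trans (le_trans (le_trans (le_trans (le_max_right _ _)
    (le_max_right _ _)) (le_max_right _ _)) (le_max_right _ _)) hn
  obtain ⟨s, hs0, hs, hs12, hs3, hsL, hsq⟩ := hlarge n hn4
  have g1 : 8 ≤ s := le_trans (le_max_left _ _) hs0
  have g2 : 4 / θ0 ≤ s := le_trans (le_trans (le_max_left _ _) (le_max_right _ _)) hs0
  have g3 : CX / (θ0 * δ) ≤ s := le_trans (le_trans (le_trans (le_max_left _ _)
    (le_max_right _ _)) (le_max_right _ _)) hs0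
  have g4 : 4 * CX / δ ≤ s := le_trans (le_trans (le_trans (le_trans (le_max_left _ _)
    (le_max_right _ _)) (le_max_right _ _)) (le_max_right _ _)) hs0
  have g5 : 16 / δ ≤ s := le_trans (le_trans (le_trans (le_trans (le_trans (le_max_left _ _)
    (le_max_right _ _)) (le_max_right _ _)) (le_max_right _ _)) (le_max_right _ _)) hs0
  have g6 : 9 / ε0 ≤ s := le_trans (le_trans (le_trans (le_trans (le_trans (le_max_right _ _)
    (le_max_right _ _)) (le_max_right _ _)) (le_max_right _ _)) (le_max_right _ _)) hs0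
  have hs1 : 1 ≤ s := by linarith
  have hsp : 0 < s := by linarith
  have hs3' : (1 : ℝ) ≤ s ^ 3 := one_le_pow₀ hs1
  have hLs : L ≤ s ^ 3 := by
    refine le_trans hLn (le_trans hsL ?_)
    rw [max_eq_right hs3']
  have hLp : 0 < L := by linarith
  obtain ⟨N, hN⟩ : ∃ N : ℝ, N = n := ⟨_, rfl⟩
  have hNs : N = s ^ 12 := by rw [hN, hs12]
  have hNp : 0 < N := by rw [hNs]; positivity
  -- the parameters
  obtain ⟨θ, hθ⟩ : ∃ x, x = θ0 / L := ⟨_, rfl⟩
  obtain ⟨ε, hε⟩ : ∃ x, x = ε0 / L := ⟨_, rfl⟩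
  have hθp' : 0 < θ := by rw [hθ]; positivity
  have hεp' : 0 < ε := by rw [hε]; positivity
  have hθle : θ ≤ θ0 := by rw [hθ]; exact div_le_self hθp.le hL
  have hεle : ε ≤ ε0 := by rw [hε]; exact div_le_self hεp.le hL
  obtain ⟨u, hu⟩ : ∃ x, x = D / L := ⟨_, rfl⟩
  have hD13 : (N ^ 13)⁻¹ ≤ D := by
    rw [show (-13 : ℝ) = -((13 : ℕ) : ℝ) by norm_num, Real.rpow_neg (Nat.cast_nonneg n),
      Real.rpow_natCast, ← hN] at hD
    exact hD
  have hDp : 0 < D := lt_of_lt_of_le (by positivity) hD13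
  have hup : 0 < u := by rw [hu]; positivity
  have hDu : D = u * L := by rw [hu]; field_simp
  have hN20 : (n : ℝ) ^ (-((20 : ℕ) : ℝ)) ≤ D * (s ^ 84)⁻¹ := by
    rw [Real.rpow_neg (Nat.cast_nonneg n), Real.rpow_natCast, ← hN]
    have : (N ^ 20)⁻¹ = (N ^ 13)⁻¹ * (s ^ 84)⁻¹ := by
      rw [hNs, ← mul_inv]; congr 1; ring
    rw [this]
    exact mul_le_mul_of_nonneg_right hD13 (by positivity)
  have hinvp : 0 < s⁻¹ := by positivity
  -- the small quantities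
  have e1 : s⁻¹ ≤ θ0 / 4 := by
    rw [div_le_iff₀ hθp] at g2
    rw [inv_eq_one_div, div_le_div_iff₀ hsp (by norm_num)]
    linarith
  have e3 : 4 * CX * s⁻¹ ≤ δ := by
    rw [div_le_iff₀ hδp] at g4
    rw [← div_eq_mul_inv, div_le_iff₀ hsp]
    linarith
  have e4 : 16 * s⁻¹ ≤ δ := by
    rw [div_le_iff₀ hδp] at g5
    rw [← div_eq_mul_inv, div_le_iff₀ hsp]
    linarith
  have e5 : 9 ≤ ε0 * s := by
    rw [div_le_iff₀ hεp] at g6
    linarith
  -- good and bad vectors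
  obtain ⟨g, hg⟩ : ∃ g : Finset ι, g = Finset.univ.filter (fun i => JJ θ p w i < ε * n) := ⟨_, rfl⟩
  have hgi : ∀ i ∈ g, JJ θ p w i < ε * n := by
    intro i hi; rw [hg, Finset.mem_filter] at hi; exact hi.2
  have hbi : ∀ i ∈ gᶜ, ε * n ≤ JJ θ p w i := by
    intro i hi
    rw [Finset.mem_compl, hg, Finset.mem_filter, not_and] at hi
    exact not_lt.1 (hi (Finset.mem_univ i))
  obtain ⟨x, hx⟩ : ∃ x, x = ∑ i ∈ gᶜ, p i := ⟨_, rfl⟩
  have hx0 : 0 ≤ x := by rw [hx]; exact Finset.sum_nonneg fun i _ => (hIS.ppos i).le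
  have hnm : ∀ i ∈ gᶜ, (n : ℝ) ^ (-((3 : ℕ) : ℝ)) ≤ nm θ p w i := by
    intro i hi
    have h1 := RG1_.nmb hKEN n ι p w θ hn5 hIS i
    have h2 := hbi i hi
    rw [hsq] at h1
    rw [Real.rpow_neg (Nat.cast_nonneg n), Real.rpow_natCast, ← hN]
    rw [← hN] at h1 h2
    exact RG1_.nmarith s L N ε0 ε _ hs1 hLp hLs hNs hε hεp e5 (le_trans h2 h1)
  have hclu := hCLU n ι p w D θ gᶜ hn2 hIS hMI hθp'.le (by linarith) hnm
  rw [← hx, hs3, ← hN] at hclu
  have hN20' : N ^ (-((20 : ℕ) : ℝ)) ≤ D * (s ^ 84)⁻¹ := by rw [hN]; exact hN20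
  obtain ⟨β, hβ⟩ : ∃ β, β = N * x := ⟨_, rfl⟩
  have hβ0 : 0 ≤ β := by rw [hβ]; positivity
  rw [← hβ] at hclu
  obtain ⟨hβ2, hβ2D⟩ := RG1_.betaarith s L N θ0 θ D u β _ g1 hLp hL hLs hθ hθp hθ1 hDp hup hDu e1
    hβ0 hN20' hclu
  have hxβ : x = β / N := by rw [hβ]; field_simp
  have hDN := RG1_.smallD s L N D u hs1 hLs hNs hup hDu
  have hu1 : u ≤ 1 := by rw [hu]; exact (div_le_one hLp).2 hDL
  have hx1 : x ≤ 2 * (u * (s ^ 9)⁻¹) := by
    rw [hxβ]
    calc β / N ≤ 2 * D / N := div_le_div_of_nonneg_right hβ2D hNp.le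
      _ = 2 * (D / N) := by ring
      _ ≤ _ := by linarith
  have hs9 : (s ^ 9)⁻¹ ≤ 1 / 8 := by
    rw [inv_eq_one_div]
    apply one_div_le_one_div_of_le (by norm_num)
    calc (8 : ℝ) ≤ s := g1
      _ = s ^ 1 := (pow_one s).symm
      _ ≤ s ^ 9 := pow_le_pow_right₀ hs1 (by norm_num)
  have hx2 : x ≤ 1 / 4 := by
    have h2 : u * (s ^ 9)⁻¹ ≤ 1 * (1 / 8) := mul_le_mul hu1 hs9 (by positivity) (by norm_num)
    linarith
  have hsum : ∑ i ∈ g, p i = 1 - x := by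
    have := Finset.sum_add_sum_compl g p
    rw [hIS.psum, ← hx] at this
    linarith
  have hgne : g.Nonempty := by
    rw [Finset.nonempty_iff_ne_empty]
    intro h
    rw [h, Finset.sum_empty] at hsum
    linarith
  have hq0 : 0 ≤ q := by
    have := hQB (EuclideanSpace.single ⟨0, by omega⟩ 1) (by simp)
    refine le_trans ?_ this
    apply mul_nonneg (Nat.cast_nonneg n)
    exact Finset.sum_nonneg fun i _ => mul_nonneg (hIS.ppos i).le (by positivity)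
  -- the energy
  have hT := hTBD n ι p w D q hn1 hIS hMI hQB
  have hB := hBQQ n ι p w q gᶜ (by omega) hIS hQB
  have hS := hLAY n ι p w D θ ε g hn3 hIS hMI hθp'.le (by linarith) hεp' (by linarith) hgi
  have hX := hXUB n ι p w θ g hn5 hIS hθp' (by linarith) (by rw [← hx]; exact hx2)
  have h15 : (n : ℝ) ^ (1 - ((16 : ℕ) : ℝ)) = (N ^ 15)⁻¹ := by
    rw [show (1 : ℝ) - ((16 : ℕ) : ℝ) = -((15 : ℕ) : ℝ) by norm_num,
      Real.rpow_neg (Nat.cast_nonneg n), Real.rpow_natCast, ← hN]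
  rw [h15] at hX
  rw [← hx, ← hN, ← hβ] at hB
  rw [← hN] at hT hS
  rw [← hx, ← hN] at hX
  have hXX := RG1_.Xarith s L N θ0 θ ε0 ε δ D u β x CX CT q c _ _ _ _ _ (XX g p w) g1 hL hLs hNs hθp
    hθ hδp hε0 hε hDp hup hu1 hDu hβ0 hβ2D hxβ hCX hCT hq0 hq (by rw [hc]; exact min_le_left _ _)
    (by rw [hc]; exact min_le_right _ _) hT hB hN20' rfl hD13 g3 e3 e4 hS hX
  -- the lower bound
  have hJ := hJLB n ι p w g gᶜ hn5 hIS hgne disjoint_compl_right
  rw [hsum, ← hx, ← hN, ← hβ] at hJ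
  have hy : N * x ^ 2 ≤ θ0 * u := by
    have h1 : N * x ≤ 2 * s ^ 3 := by
      rw [← hβ]
      calc β ≤ 2 * D := hβ2D
        _ ≤ 2 * L := by linarith
        _ ≤ 2 * s ^ 3 := by linarith
    calc N * x ^ 2 = (N * x) * x := by ring
      _ ≤ (2 * s ^ 3) * (2 * (u * (s ^ 9)⁻¹)) := mul_le_mul h1 hx1 hx0 (by positivity)
      _ = 4 * (u * (s ^ 6)⁻¹) := by field_simp; ring
      _ ≤ 4 * (u * s⁻¹) := by
        have h6 : (s ^ 6)⁻¹ ≤ s⁻¹ := by
          apply inv_anti₀ hsp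
          calc s = s ^ 1 := (pow_one s).symm
            _ ≤ s ^ 6 := pow_le_pow_right₀ hs1 (by norm_num)
        have := mul_le_mul_of_nonneg_left h6 hup.le
        linarith
      _ ≤ 4 * (u * (θ0 / 4)) := by
        have := mul_le_mul_of_nonneg_left e1 hup.le
        linarith
      _ = θ0 * u := by ring
  have hM : Real.exp (-β - N * x ^ 2) ≤ (1 - x) ^ n := by
    have h1 := RG1_.exp_low x hx0 (by linarith)
    calc Real.exp (-β - N * x ^ 2) = Real.exp (-x - x ^ 2) ^ n := by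
          rw [← Real.exp_nat_mul, ← hN, hβ]; congr 1; ring
      _ ≤ (1 - x) ^ n := pow_le_pow_left₀ (Real.exp_pos _).le h1 n
  have hfin := R1B_.fin1 cJ θ0 u L D β (N * x ^ 2) (XX g p w) ((1 - x) ^ n) hcJ hcJ1 hθp
    (by rw [hθ0]; linarith) hL hDp hDL hu hβ0 hβ2 hy hM (by
      calc 256 * XX g p w ≤ 256 * (8 * δ * u) := by linarith
        _ = cJ * u := by rw [hδ]; ring)
  have hX0 : 0 ≤ X0 n := by
    unfold X0 kap vl
    positivity
  have hud : u = D := by rw [hu, hLL, div_one]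
  rw [hud] at hfin
  calc X0 n * (1 + cJ / 16 * D)
      ≤ X0 n * (Real.exp D * ((1 - x) ^ n * (1 + cJ * min 1 β - 32 * XX g p w))) :=
        mul_le_mul_of_nonneg_left hfin hX0
    _ = Real.exp D * (X0 n * ((1 - x) ^ n * (1 + cJ * min 1 β - 32 * XX g p w))) := by ring
    _ ≤ Real.exp D * XT p w := mul_le_mul_of_nonneg_left hJ (Real.exp_pos _).le

end PPW
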