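import Pool.Agent.PPW.Stmts2
import Pool.Agent.PPX.RG4

/-!
# Squad PPW: module R4B (the regime of small `D` with gain), a variant of the module RG4 of PPX
-/

set_option autoImplicit false

namespace PPW

open MeasureTheory Set Filter Topology
open PPI PPG PPX PPX.RG4_
open scoped Pointwise ENNReal

theorem r4b_proof (hJLB : Stmt_JLB) (hQSR : Stmt_QSR) (hHSS : Stmt_HSS) (hSUP : Stmt_SUP)
    (hGRS : Stmt_GRS) (hWLD : Stmt_WLD) (hQBD : Stmt_QBD) (hTBD : Stmt_TBD) (hSQR : Stmt_SQR)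
    (hSPH : Stmt_SPH) (hAVE : PPI.Stmt_AVE) (hTPD : Stmt_TPD) : Stmt_R4B := by
  obtain ⟨c0, hc0, hc1, hJ⟩ := hJLB
  obtain ⟨C2, hC2, hS2⟩ := hSUP 7 (by norm_num)
  obtain ⟨C5, hC5, hG⟩ := hGRS
  obtain ⟨n1, hQ⟩ := hQBD
  obtain ⟨C1, n2, hC1, hT⟩ := hTBD 8
  obtain ⟨n3, hn3⟩ := exists_nat_ge (10 ^ 15 * (1 + (5 * C1 + 1) + C2 * (5 * C1 + 2) + C5))
  refine ⟨max (max n1 n2) (max n3 12), ?_⟩
  intro n ι _ p w D hn hI hM hD
  have hnn1 : n1 ≤ n := le_trans (le_max_left _ _) (le_trans (le_max_left _ _) hn)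
  have hnn2 : n2 ≤ n := le_trans (le_max_right _ _) (le_trans (le_max_left _ _) hn)
  have hnn3 : n3 ≤ n := le_trans (le_max_left _ _) (le_trans (le_max_right _ _) hn)
  have hn12 : 12 ≤ n := le_trans (le_max_right _ _) (le_trans (le_max_right _ _) hn)
  have hN : 10 ^ 15 * (1 + (5 * C1 + 1) + C2 * (5 * C1 + 2) + C5) ≤ (n : ℝ) :=
    le_trans hn3 (by exact_mod_cast hnn3)
  have hB0 : 0 < C2 * (5 * C1 + 2) := by positivity
  set N : ℝ := (n : ℝ) with hNdef
  have hN0 : (10 : ℝ) ^ 15 ≤ N := by linarith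
  have hNpos : 0 < N := by linarith [show (0 : ℝ) < 10 ^ 15 by norm_num]
  have hN1 : 1 ≤ N := le_trans (by norm_num) hN0
  obtain ⟨e, he⟩ : ∃ e : ℝ, e = N⁻¹ := ⟨_, rfl⟩
  have he0 : 0 < e := by rw [he]; positivity
  have hNe : N * e = 1 := by rw [he]; exact mul_inv_cancel₀ hNpos.ne'
  have he15 : e ≤ 1 / 10 ^ 15 := by
    rw [he, ← one_div]
    exact one_div_le_one_div_of_le (by norm_num) hN0
  have heA : (5 * C1 + 1) * e ≤ 1 / 10 ^ 15 := by
    have h1 : 10 ^ 15 * (5 * C1 + 1) ≤ N := by linarith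
    have h2 := mul_le_mul_of_nonneg_right h1 he0.le
    rw [hNe] at h2
    linarith
  have heB : C2 * (5 * C1 + 2) * e ≤ 1 / 10 ^ 15 := by
    have h1 : 10 ^ 15 * (C2 * (5 * C1 + 2)) ≤ N := by linarith
    have h2 := mul_le_mul_of_nonneg_right h1 he0.le
    rw [hNe] at h2
    linarith
  have hC5N : C5 ≤ 1 / 10 ^ 15 * N := by linarith
  have hD0 : 0 ≤ D := D_nonneg hAVE (by omega) p w D hI hM
  have hD13 : D ≤ e ^ 13 := by
    have h1 : (n : ℝ) ^ (-13 : ℝ) = e ^ 13 := by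
      rw [he, Real.rpow_neg (Nat.cast_nonneg n), inv_pow]
      congr 1
      exact Real.rpow_ofNat N 13
    rw [← h1]; exact hD.le
  have he1 : e ≤ 1 := by linarith [show (1 : ℝ) / 10 ^ 15 ≤ 1 by norm_num]
  have hD1 : D ≤ 1 := le_trans hD13 (pow_le_one₀ he0.le he1)
  obtain ⟨hP, -, -, -, -, -⟩ := hSPH n (by omega)
  -- the fourth moments
  have hQB : QB p w (5 / N) := by
    intro x hx
    have h1 := hQ n 1 ι p w D (fun _ => x) hnn1 (by omega) hI hM (fun _ => hx) (fun y => by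
      simp only [Finset.univ_unique, Finset.sum_const, Finset.card_singleton, one_smul]
      have h2 := abs_real_inner_le_norm x y
      rw [hx, one_mul] at h2
      rw [← sq_abs]
      nlinarith [abs_nonneg (inner ℝ x y : ℝ), norm_nonneg y])
    simp only [Finset.univ_unique, Finset.sum_const, Finset.card_singleton, one_smul,
      Nat.cast_one, mul_one] at h1
    refine le_trans h1 ?_
    have h3 : 200 * D ≤ e := by
      have h4 : e ^ 13 ≤ e ^ 2 := pow_le_pow_of_le_one he0.le he1 (by norm_num)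
      have h5 : e ^ 2 ≤ 1 / 10 ^ 15 * e := by nlinarith
      nlinarith
    have h6 : (5 : ℝ) / N = 4 / N + e := by rw [he]; field_simp; norm_num
    rw [h6]
    linarith
  have hTn : ∀ k, 0 ≤ Tk p w k := fun k =>
    le_trans (sq_nonneg _) (hTPD n ι p w k (fun _ => 0) (by omega) (fun i => (hI.ppos i).le)
      hI.psum hI.nrm (by simp))
  have hTs := hT n ι p w D (5 / N) hnn2 hI hM hQB
  obtain ⟨δ, hδ⟩ : ∃ δ : ℝ, δ = (5 * C1 + 1) * e ^ 8 := ⟨_, rfl⟩
  have hδ0 : 0 ≤ δ := by rw [hδ]; positivity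
  have hδ7 : δ ≤ 1 / 10 ^ 15 * e ^ 7 := by
    rw [hδ]
    have : (5 * C1 + 1) * e ^ 8 = ((5 * C1 + 1) * e) * e ^ 7 := by ring
    rw [this]
    exact mul_le_mul_of_nonneg_right heA (by positivity)
  have hTk : ∀ k ∈ Finset.Icc 2 8, Tk p w k ≤ δ ^ 2 := by
    intro k hk
    have h1 : Tk p w k ≤ ∑ k ∈ Finset.Icc 2 8, Tk p w k :=
      Finset.single_le_sum (fun j _ => hTn j) hk
    have h2 : N ^ 2 * Tk p w k ≤ C1 * (5 / N) * D :=
      le_trans (mul_le_mul_of_nonneg_left h1 (by positivity)) hTs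
    have h3 : C1 * (5 / N) * D ≤ 5 * C1 * e ^ 14 := by
      have : C1 * (5 / N) * D = 5 * C1 * e * D := by rw [he]; field_simp
      rw [this]
      have h4 : 5 * C1 * e * D ≤ 5 * C1 * e * e ^ 13 :=
        mul_le_mul_of_nonneg_left hD13 (by positivity)
      refine le_trans h4 (le_of_eq (by ring))
    have h5 : Tk p w k = e ^ 2 * (N ^ 2 * Tk p w k) := by
      have : e ^ 2 * (N ^ 2 * Tk p w k) = (N * e) ^ 2 * Tk p w k := by ring
      rw [this, hNe]; ring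
    rw [h5, hδ]
    have h6 : e ^ 2 * (N ^ 2 * Tk p w k) ≤ e ^ 2 * (5 * C1 * e ^ 14) :=
      mul_le_mul_of_nonneg_left (le_trans h2 h3) (by positivity)
    refine le_trans h6 ?_
    have h7 : e ^ 2 * (5 * C1 * e ^ 14) = 5 * C1 * e ^ 16 := by ring
    have h8 : ((5 * C1 + 1) * e ^ 8) ^ 2 = (5 * C1 + 1) ^ 2 * e ^ 16 := by ring
    rw [h7, h8]
    exact mul_le_mul_of_nonneg_right (by nlinarith) (by positivity)
  obtain ⟨η, hη⟩ : ∃ η : ℝ, η = C2 * (5 * C1 + 2) * e ^ 8 := ⟨_, rfl⟩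
  have hη0 : 0 ≤ η := by rw [hη]; positivity
  have hη7 : η ≤ 1 / 10 ^ 15 * e ^ 7 := by
    rw [hη]
    have : C2 * (5 * C1 + 2) * e ^ 8 = (C2 * (5 * C1 + 2) * e) * e ^ 7 := by ring
    rw [this]
    exact mul_le_mul_of_nonneg_right heB (by positivity)
  have hhb : ∀ v : EE n, ‖v‖ = 1 → |hh p w v - mm n| ≤ η := by
    intro v hv
    have h1 := hS2 n ι p w δ v (by omega) hI hδ0 hTk hv
    refine le_trans h1 (le_of_eq ?_)
    rw [hη, hδ, he]
    simp only [inv_pow]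
    rw [← hNdef]
    ring
  have hNE : Nonempty ι := by
    by_contra h
    rw [not_nonempty_iff] at h
    have := hI.psum
    simp at this
  obtain ⟨i0⟩ := id hNE
  have hmm1 : mm n ≤ 1 := mm_le_one hSQR hP (by omega) (w i0) (hI.nrm i0)
  obtain ⟨E0, hE0⟩ : ∃ E0 : ℝ, E0 = 40 * e ^ 3 + 6 * δ := ⟨_, rfl⟩
  have hE0n : 0 ≤ E0 := by rw [hE0]; positivity
  have hSS : ∀ t v : EE n, ‖t‖ = 1 → ‖v‖ = 1 → hh p w t + inner ℝ (gh p w t) (v - t) +
      1 / 2 * ‖v - t‖ ^ 2 * (1 - ‖v - t‖ ^ 2 / 4) * (mm n - E0 - 4 * ‖v - t‖) ≤ hh p w v := by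
    intro t v ht hv
    have h1 := hHSS n ι p w δ t v (by omega) hI hδ0 (hTk 2 (by simp)) (hTk 3 (by simp)) ht hv
    have h2 : mm n - 40 / (n : ℝ) ^ 3 - 6 * δ - 4 * ‖v - t‖ = mm n - E0 - 4 * ‖v - t‖ := by
      rw [hE0, he, ← hNdef]
      simp only [inv_pow]
      ring
    rw [h2] at h1
    exact h1
  obtain ⟨d0, hd0⟩ : ∃ d0 : ℝ, d0 = e ^ 2 / 102400 := ⟨_, rfl⟩
  have hd0p : 0 < d0 := by rw [hd0]; positivity
  have hd01 : d0 ≤ 1 := by
    rw [hd0]
    have : e ^ 2 ≤ 1 := pow_le_one₀ he0.le he1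
    linarith
  have hnum := num1 he0 he15 hδ7 hη7 hd0
  rw [← hE0] at hnum
  -- the gradient is small
  have hgr : ∀ t : EE n, ‖t‖ = 1 → ‖gh p w t - mm n • t‖ ≤ e ^ 3 / 1000 := by
    intro t ht
    have h1 := tau_bound p w hI.nrm E0 η (mm n) d0 hmm1 hE0n hd0p hd01 hhb t ht
      (fun v hv => hSS t v ht hv)
    have h2 : ‖gh p w t - hh p w t • t‖ ≤ e ^ 3 / 1024 := by
      have h3 : d0 ^ 2 / 2 * (η + d0 ^ 2 / 4 + E0 + 4 * d0) ≤ d0 ^ 2 / 2 * (e ^ 2 / 20000) :=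
        mul_le_mul_of_nonneg_left hnum (by positivity)
      have h4 : 2 * η + d0 ^ 2 / 2 * (e ^ 2 / 20000) ≤ d0 / 2 * (e ^ 3 / 1024) := by
        rw [hd0]
        exact num2 he0 he15 hη7
      have h5 : d0 / 2 * ‖gh p w t - hh p w t • t‖ ≤ d0 / 2 * (e ^ 3 / 1024) := by linarith
      exact le_of_mul_le_mul_left h5 (by positivity)
    have h6 : gh p w t - mm n • t = (gh p w t - hh p w t • t) + (hh p w t - mm n) • t := by
      rw [sub_smul]; abel
    rw [h6]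
    refine le_trans (norm_add_le _ _) ?_
    rw [norm_smul, ht, mul_one, Real.norm_eq_abs]
    have h7 := hhb t ht
    have e7 : e ^ 7 ≤ e ^ 3 := pow_le_pow_of_le_one he0.le he1 (by norm_num)
    have e3 := pow_pos he0 3
    linarith
  have hNe3 : N ^ 3 * e ^ 3 = 1 := by rw [← mul_pow, hNe, one_pow]
  -- the test inequality
  have hW := hWLD n ι p w D (fun v => -(1024 * N ^ 3 * (hh p w v - mm n)))
    (fun v => 1024 * N ^ 3 * ‖gh p w v - mm n • v‖) (by omega) hI hM ?_ ?_ ?_ ?_ ?_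
  · have hint : ∫ v, -(1024 * N ^ 3 * (hh p w v - mm n)) ∂(sph n) = 0 := by
      rw [integral_neg, integral_const_mul, integral_sub (integrable_hh hP p w)
        (integrable_const _), integral_hh hSQR hP (by omega) p w hI]
      simp
    have hsum : ∑ i, p i * -(1024 * N ^ 3 * (hh p w (w i) - mm n)) =
        1024 * N ^ 3 * QQ p w := by
      have h1 := sum_hh p w hI
      have h2 : ∑ i, p i * -(1024 * N ^ 3 * (hh p w (w i) - mm n)) =
          -(1024 * N ^ 3) * ∑ i, p i * (hh p w (w i) - mm n) := by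
        rw [Finset.mul_sum]
        refine Finset.sum_congr rfl fun i _ => ?_
        ring
      rw [h2, h1]; ring
    have hquad : ∫ v, ((-(1024 * N ^ 3 * (hh p w v - mm n))) ^ 2 +
        (1024 * N ^ 3 * ‖gh p w v - mm n • v‖) ^ 2) ∂(sph n) =
        (1024 * N ^ 3) ^ 2 *
          ∫ v, ((hh p w v - mm n) ^ 2 + ‖gh p w v - mm n • v‖ ^ 2) ∂(sph n) := by
      rw [← integral_const_mul]
      congr 1
      funext v
      ring
    have hGG := hG n ι p w hn12 hI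
    have hI0 : 0 ≤ ∫ v, ((hh p w v - mm n) ^ 2 + ‖gh p w v - mm n • v‖ ^ 2) ∂(sph n) :=
      integral_nonneg fun v => by positivity
    rw [← hNdef] at hGG
    have hCN : 0 < C5 / N ^ 3 := by positivity
    have hQQ : 0 ≤ QQ p w := by
      by_contra h
      have := mul_neg_of_pos_of_neg hCN (not_le.1 h)
      linarith
    rw [hint, hsum, hquad, sub_zero] at hW
    have h1 : 3 / N * ((1024 * N ^ 3) ^ 2 *
        ∫ v, ((hh p w v - mm n) ^ 2 + ‖gh p w v - mm n • v‖ ^ 2) ∂(sph n)) ≤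
        3 / N * ((1024 * N ^ 3) ^ 2 * (C5 / N ^ 3 * QQ p w)) :=
      mul_le_mul_of_nonneg_left (mul_le_mul_of_nonneg_left hGG (by positivity)) (by positivity)
    have h2 : 3 / N * ((1024 * N ^ 3) ^ 2 * (C5 / N ^ 3 * QQ p w)) =
        3145728 * C5 * (N ^ 2 * QQ p w) := by
      field_simp
      ring
    have h3 : 3145728 * C5 * (N ^ 2 * QQ p w) ≤ 512 * N ^ 3 * QQ p w := by
      have h4 : 3145728 * C5 ≤ 512 * N := by linarith
      have h5 : 3145728 * C5 * (N ^ 2 * QQ p w) ≤ 512 * N * (N ^ 2 * QQ p w) :=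
        mul_le_mul_of_nonneg_right h4 (by positivity)
      refine le_trans h5 (le_of_eq (by ring))
    have h6 : 512 * N ^ 3 * QQ p w ≤ D := by linarith
    have hXX := (hQSR n ι p w (by omega) hI).2
    rw [← hNdef] at hXX
    have hJJ := hJ n ι p w Finset.univ ∅ (by omega) hI Finset.univ_nonempty
      (Finset.disjoint_empty_right _)
    rw [hI.psum, one_pow, Finset.sum_empty, mul_zero, one_mul] at hJJ
    have hmin : min (1 : ℝ) 0 = 0 := min_eq_right zero_le_one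
    rw [hmin, mul_zero, add_zero] at hJJ
    have hX0 := X0_nonneg n
    have h7 : X0 n * (1 - D / 2) ≤ XT p w := by
      refine le_trans (mul_le_mul_of_nonneg_left ?_ hX0) hJJ
      linarith
    have h8 : 1 + D / 4 ≤ Real.exp D * (1 - D / 2) := by
      have h9 := Real.add_one_le_exp D
      have h10 : 0 ≤ 1 - D / 2 := by linarith
      have h13 : D ≤ 1 / 2 := by
        refine le_trans hD13 (le_trans (pow_le_of_le_one he0.le he1 (by norm_num))
          (le_trans he15 (by norm_num)))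
      have h14 : (D + 1) * (1 - D / 2) ≤ Real.exp D * (1 - D / 2) :=
        mul_le_mul_of_nonneg_right h9 h10
      have h15 : D * D ≤ D * (1 / 2) := mul_le_mul_of_nonneg_left h13 hD0
      have h16 : (D + 1) * (1 - D / 2) = 1 + D / 2 - D * D / 2 := by ring
      linarith only [h14, h15, h16]
    have h11 : X0 n * (1 + D / 4) ≤ X0 n * (Real.exp D * (1 - D / 2)) :=
      mul_le_mul_of_nonneg_left h8 hX0
    have h12 : Real.exp D * (X0 n * (1 - D / 2)) ≤ Real.exp D * XT p w :=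
      mul_le_mul_of_nonneg_left h7 (Real.exp_pos D).le
    linarith
  · exact (((measurable_hh p w).sub_const _).const_mul _).neg
  · exact ((((measurable_gh p w).sub (measurable_id.const_smul (mm n)))).norm).const_mul _
  · intro v hv
    have h1 := hhb v hv
    rw [abs_neg, abs_mul, abs_of_pos (by positivity : (0 : ℝ) < 1024 * N ^ 3)]
    have h2 : 1024 * N ^ 3 * |hh p w v - mm n| ≤ 1024 * N ^ 3 * (1 / 10 ^ 15 * e ^ 7) :=
      mul_le_mul_of_nonneg_left (le_trans h1 hη7) (by positivity)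
    have h3 : 1024 * N ^ 3 * (1 / 10 ^ 15 * e ^ 7) = 1024 / 10 ^ 15 * (N ^ 3 * e ^ 3) * e ^ 4 := by
      ring
    rw [h3, hNe3] at h2
    have h4 : e ^ 4 ≤ 1 := pow_le_one₀ he0.le he1
    rw [← hNdef]
    linarith
  · intro v hv
    have h1 := hgr v hv
    refine ⟨by positivity, ?_⟩
    have h2 : 1024 * N ^ 3 * ‖gh p w v - mm n • v‖ ≤ 1024 * N ^ 3 * (e ^ 3 / 1000) :=
      mul_le_mul_of_nonneg_left h1 (by positivity)
    have h3 : 1024 * N ^ 3 * (e ^ 3 / 1000) = 1024 / 1000 * (N ^ 3 * e ^ 3) := by ring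
    rw [h3, hNe3] at h2
    rw [← hNdef]
    linarith
  · intro v t hv ht
    have h1 := semi p w E0 (mm n) hmm1 hE0n t v ht hv (hSS t v ht hv)
    have hd : 0 ≤ ‖v - t‖ := norm_nonneg _
    rw [← hNdef]
    by_cases hc : ‖v - t‖ ≤ d0
    · have h2 : ‖v - t‖ ^ 2 ≤ d0 ^ 2 := by nlinarith
      have h3 : ‖v - t‖ ^ 2 / 4 + E0 + 4 * ‖v - t‖ ≤ e ^ 2 / 20000 := by linarith
      have h4 : ‖v - t‖ ^ 2 / 2 * (‖v - t‖ ^ 2 / 4 + E0 + 4 * ‖v - t‖) ≤
          ‖v - t‖ ^ 2 / 2 * (e ^ 2 / 20000) := mul_le_mul_of_nonneg_left h3 (by positivity)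
      have h5 : 1024 * N ^ 3 * (hh p w t - hh p w v) ≤ 1024 * N ^ 3 *
          (‖gh p w t - mm n • t‖ * ‖v - t‖ + ‖v - t‖ ^ 2 / 2 * (e ^ 2 / 20000)) :=
        mul_le_mul_of_nonneg_left (by linarith) (by positivity)
      have h6 : 1024 * N ^ 3 * (‖v - t‖ ^ 2 / 2 * (e ^ 2 / 20000)) ≤ N / 8 * ‖v - t‖ ^ 2 := by
        have h7 : 1024 * N ^ 3 * (‖v - t‖ ^ 2 / 2 * (e ^ 2 / 20000)) =
            1024 / 40000 * N * (N * e) ^ 2 * ‖v - t‖ ^ 2 := by ring
        rw [h7, hNe]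
        have h8 : 0 ≤ ‖v - t‖ ^ 2 := by positivity
        nlinarith [mul_nonneg hNpos.le h8]
      linarith
    · have h2 : d0 ^ 2 ≤ ‖v - t‖ ^ 2 := by
        have := (not_le.1 hc).le
        nlinarith
      have h3 := abs_le.1 (hhb v hv)
      have h4 := abs_le.1 (hhb t ht)
      have h5 : 1024 * N ^ 3 * (hh p w t - hh p w v) ≤ 1024 * N ^ 3 *
          (2 * (1 / 10 ^ 15 * e ^ 7)) :=
        mul_le_mul_of_nonneg_left (by linarith [h3.1, h4.2]) (by positivity)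
      have h6 : 1024 * N ^ 3 * (2 * (1 / 10 ^ 15 * e ^ 7)) =
          2048 / 10 ^ 15 * (N ^ 3 * e ^ 3) * e ^ 4 := by ring
      rw [h6, hNe3] at h5
      have h7 : N / 8 * d0 ^ 2 = 1 / (8 * 102400 ^ 2) * (N * e) * e ^ 3 := by
        rw [hd0]; ring
      rw [hNe] at h7
      have h8 : N / 8 * d0 ^ 2 ≤ N / 8 * ‖v - t‖ ^ 2 :=
        mul_le_mul_of_nonneg_left h2 (by positivity)
      have h9 : e ^ 4 ≤ 1 / 10 ^ 15 * e ^ 3 := by
        have : e ^ 4 = e * e ^ 3 := by ring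
        rw [this]
        exact mul_le_mul_of_nonneg_right he15 (pow_pos he0 3).le
      have h10 : 0 ≤ 1024 * N ^ 3 * ‖gh p w t - mm n • t‖ * ‖v - t‖ := by positivity
      have h11 := pow_pos he0 3
      linarith

end PPW
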