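import Pool.Agent.PPW.Stmts

set_option autoImplicit false

namespace PPW

open MeasureTheory Set Filter Topology ProbabilityTheory
open PPI PPG PPX
open scoped Pointwise ENNReal

namespace SCO_

instance : IsProbabilityMeasure ga1 := by unfold ga1; infer_instance

theorem int_sq : Integrable (fun g : ℝ => g ^ 2) ga1 := by
  have h := (memLp_id_gaussianReal (μ := 0) (v := 1) 2).integrable_sq
  exact h

theorem int_id : Integrable (fun g : ℝ => g) ga1 := by
  have h := (memLp_id_gaussianReal (μ := 0) (v := 1) 1).integrable (by simp)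
  exact h

theorem val_id : ∫ g, g ∂ga1 = 0 := integral_id_gaussianReal

theorem val_sq : ∫ g, g ^ 2 ∂ga1 = 1 := by
  have h := variance_fun_id_gaussianReal (μ := 0) (v := 1)
  rw [variance_eq_integral measurable_id'.aemeasurable] at h
  simpa [ga1] using h

theorem ga_val (f : ℝ → ℝ) : ∫ x, f x ∂ga1 = ∫ x, gaussianPDFReal 0 1 x * f x := by
  rw [ga1, integral_gaussianReal_eq_integral_smul one_ne_zero]
  rfl

theorem ga_int (f : ℝ → ℝ) : Integrable f ga1 ↔
    Integrable (fun x => gaussianPDFReal 0 1 x * f x) := by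
  rw [ga1, gaussianReal_of_var_ne_zero 0 one_ne_zero,
    integrable_withDensity_iff_integrable_smul' (measurable_gaussianPDF _ _)
      (ae_of_all _ fun _ ↦ gaussianPDF_lt_top)]
  simp only [toReal_gaussianPDF, smul_eq_mul]

/-- the Gaussian density and its translates -/
theorem pdf_shift (m v g : ℝ) (hv : 0 < v) :
    √v * gaussianPDFReal 0 1 (m + √v * g) =
      gaussianPDFReal 0 1 g * Real.exp (Real.log v / 2 - (m + √v * g) ^ 2 / 2 + g ^ 2 / 2) := by
  have h1 : √v = Real.exp (Real.log v / 2) := by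
    rw [Real.sqrt_eq_rpow, Real.rpow_def_of_pos hv]
    congr 1
    ring
  conv_lhs => rw [h1]
  simp only [gaussianPDFReal]
  rw [← h1]
  have h2 : Real.exp (Real.log v / 2 - (m + √v * g) ^ 2 / 2 + g ^ 2 / 2) =
      Real.exp (Real.log v / 2) * Real.exp (-(m + √v * g - 0) ^ 2 / (2 * ((1 : NNReal) : ℝ))) *
        Real.exp (g ^ 2 / 2) := by
    rw [← Real.exp_add, ← Real.exp_add]
    congr 1
    push_cast
    ring
  have h3 : Real.exp (-(g - 0) ^ 2 / (2 * ((1 : NNReal) : ℝ))) * Real.exp (g ^ 2 / 2) = 1 := by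
    rw [← Real.exp_add]
    have : -(g - 0) ^ 2 / (2 * ((1 : NNReal) : ℝ)) + g ^ 2 / 2 = 0 := by push_cast; ring
    rw [this, Real.exp_zero]
  rw [h2, ← h1]
  linear_combination (-(√v * (√(2 * Real.pi * ((1 : NNReal) : ℝ)))⁻¹ *
    Real.exp (-(m + √v * g - 0) ^ 2 / (2 * ((1 : NNReal) : ℝ))))) * h3

/-- Gibbs' inequality for Gaussian measures -/
theorem gibbs (F : ℝ → ℝ) (hF : Continuous F) (hpos : ∀ w, 0 < F w) (C : ℝ)
    (hC : ∀ w, F w ≤ C) (m v : ℝ) (hv : 0 < v)
    (hlog : Integrable (fun g => Real.log (F (m + √v * g))) ga1) :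
    ∫ g, Real.log (F (m + √v * g)) ∂ga1 - (m ^ 2 + v - 1 - Real.log v) / 2 ≤
      Real.log (∫ w, F w ∂ga1) := by
  have hsv : 0 < √v := Real.sqrt_pos.2 hv
  have hvv : √v ^ 2 = v := Real.sq_sqrt hv.le
  -- the exponent
  set q : ℝ → ℝ := fun g => Real.log v / 2 - (m + √v * g) ^ 2 / 2 + g ^ 2 / 2 with hq
  have hqi : Integrable q ga1 := by
    have : q = fun g => (Real.log v / 2 - m ^ 2 / 2) - (m * √v) * g +
        ((1 - √v ^ 2) / 2) * g ^ 2 := by
      funext g
      simp only [hq]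
      ring
    rw [this]
    exact ((integrable_const _).sub (int_id.const_mul _)).add (int_sq.const_mul _)
  have hqv : ∫ g, q g ∂ga1 = Real.log v / 2 - m ^ 2 / 2 + (1 - v) / 2 := by
    have : q = fun g => ((Real.log v / 2 - m ^ 2 / 2) - (m * √v) * g) +
        ((1 - √v ^ 2) / 2) * g ^ 2 := by
      funext g
      simp only [hq]
      ring
    have i1 : Integrable (fun g : ℝ => (Real.log v / 2 - m ^ 2 / 2) - (m * √v) * g) ga1 :=
      (integrable_const _).sub (int_id.const_mul _)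
    have i2 : Integrable (fun g : ℝ => ((1 - √v ^ 2) / 2) * g ^ 2) ga1 := int_sq.const_mul _
    have i3 : Integrable (fun g : ℝ => (m * √v) * g) ga1 := int_id.const_mul _
    rw [this]
    simp only []
    rw [integral_add i1 i2, integral_sub (integrable_const _) i3, integral_const_mul,
      integral_const_mul, val_id, val_sq, integral_const, hvv]
    simp
  set K := ∫ g, (q g + Real.log (F (m + √v * g))) ∂ga1 with hK
  have hKv : K = ∫ g, Real.log (F (m + √v * g)) ∂ga1 - (m ^ 2 + v - 1 - Real.log v) / 2 := by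
    rw [hK, integral_add hqi hlog, hqv]
    ring
  rw [← hKv]
  have h1 : ∫ w, F w ∂ga1 = ∫ w, gaussianPDFReal 0 1 w * F w := by
    exact ga_val F
  have h2 : ∫ w, gaussianPDFReal 0 1 w * F w =
      ∫ g, √v * (gaussianPDFReal 0 1 (m + √v * g) * F (m + √v * g)) := by
    have h3 := Measure.integral_comp_mul_left
      (fun y => gaussianPDFReal 0 1 (m + y) * F (m + y)) (√v)
    have h4 : ∫ y, gaussianPDFReal 0 1 (m + y) * F (m + y) =
        ∫ w, gaussianPDFReal 0 1 w * F w :=
      integral_add_left_eq_self (fun y => gaussianPDFReal 0 1 y * F y) m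
    rw [integral_const_mul, h3, h4, abs_of_pos (by positivity), smul_eq_mul, ← mul_assoc,
      mul_inv_cancel₀ hsv.ne', one_mul]
  have hFi : Integrable (fun w => gaussianPDFReal 0 1 w * F w) := by
    have h3 : Integrable (fun w => F w * gaussianPDFReal 0 1 w) := by
      refine (integrable_gaussianPDFReal 0 1).bdd_mul (c := C) hF.aestronglyMeasurable ?_
      filter_upwards with w
      rw [Real.norm_eq_abs, abs_of_pos (hpos w)]
      exact hC w
    exact h3.congr (by filter_upwards with w; ring)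
  have hYi : Integrable (fun g => √v * (gaussianPDFReal 0 1 (m + √v * g) * F (m + √v * g))) := by
    have h3 : Integrable (fun y => gaussianPDFReal 0 1 (m + y) * F (m + y)) :=
      hFi.comp_add_left m
    have h4 := h3.comp_mul_left' hsv.ne'
    exact h4.const_mul _
  have h3 : ∀ g, gaussianPDFReal 0 1 g * (Real.exp K * (1 + (q g + Real.log (F (m + √v * g))) - K)) ≤
      √v * (gaussianPDFReal 0 1 (m + √v * g) * F (m + √v * g)) := by
    intro g
    have h4 := pdf_shift m v g hv
    have h5 : √v * (gaussianPDFReal 0 1 (m + √v * g) * F (m + √v * g)) =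
        gaussianPDFReal 0 1 g * Real.exp (q g + Real.log (F (m + √v * g))) := by
      rw [Real.exp_add, Real.exp_log (hpos _), ← mul_assoc, h4]
      simp only [hq]
      ring
    rw [h5]
    refine mul_le_mul_of_nonneg_left ?_ (gaussianPDFReal_nonneg _ _ _)
    have h6 := Real.add_one_le_exp (q g + Real.log (F (m + √v * g)) - K)
    have h7 : Real.exp (q g + Real.log (F (m + √v * g))) =
        Real.exp K * Real.exp (q g + Real.log (F (m + √v * g)) - K) := by
      rw [← Real.exp_add]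
      congr 1
      ring
    rw [h7]
    refine mul_le_mul_of_nonneg_left ?_ (Real.exp_pos _).le
    linarith
  have h8 : Integrable (fun g => Real.exp K * (1 + (q g + Real.log (F (m + √v * g))) - K)) ga1 :=
    (((integrable_const _).add (hqi.add hlog)).sub (integrable_const _)).const_mul _
  have hql : Integrable (fun g => q g + Real.log (F (m + √v * g))) ga1 := hqi.add hlog
  have hql1 : Integrable (fun g => 1 + (q g + Real.log (F (m + √v * g)))) ga1 :=
    (integrable_const _).add hql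
  have h9 : ∫ g, Real.exp K * (1 + (q g + Real.log (F (m + √v * g))) - K) ∂ga1 = Real.exp K := by
    rw [integral_const_mul, integral_sub hql1
      (integrable_const _), integral_add (integrable_const _) hql, ← hK]
    simp
  have h10 : ∫ g, gaussianPDFReal 0 1 g *
      (Real.exp K * (1 + (q g + Real.log (F (m + √v * g))) - K)) = Real.exp K := by
    rw [← ga_val, h9]
  have h11 : Real.exp K ≤ ∫ w, F w ∂ga1 := by
    rw [h1, h2, ← h10]
    exact integral_mono ((ga_int _).1 h8) hYi h3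
  have h12 := Real.log_le_log (Real.exp_pos K) h11
  rwa [Real.log_exp] at h12

theorem law (α β : ℝ) : (ga1.prod ga1).map (fun z : ℝ × ℝ => α * z.1 + β * z.2) =
    ga1.map (fun u => √(α ^ 2 + β ^ 2) * u) := by
  have hm : ∀ c : ℝ, ga1.map (fun u => c * u) = gaussianReal 0 (.mk (c ^ 2) (sq_nonneg _)) := by
    intro c
    have := gaussianReal_map_const_mul (μ := 0) (v := 1) c
    rw [mul_zero, mul_one] at this
    exact this
  have h1 : (ga1.map (fun u => α * u)) ∗ (ga1.map (fun u => β * u)) =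
      (ga1.prod ga1).map (fun z : ℝ × ℝ => α * z.1 + β * z.2) := by
    rw [Measure.conv, Measure.map_prod_map _ _ (by fun_prop) (by fun_prop),
      Measure.map_map (by fun_prop) (by fun_prop)]
    rfl
  rw [← h1, hm, hm, hm, gaussianReal_conv_gaussianReal, add_zero]
  congr 1
  apply NNReal.eq
  push_cast
  exact (Real.sq_sqrt (by positivity)).symm

/-- the logarithmic part -/
noncomputable def hf (a : ℝ) (z : ℝ × ℝ) : ℝ := Real.log (1 + z.2 ^ 2 / a ^ 2 / (2 * z.1))

theorem hf_meas (a : ℝ) : Measurable (hf a) := by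
  unfold hf
  exact Real.measurable_log.comp (measurable_const.add
    (((measurable_snd.pow_const 2).div_const _).div (measurable_const.mul measurable_fst)))

theorem fub [IsProbabilityMeasure ex] (a α β : ℝ)
    (hI : Integrable (fun z : ℝ × ℝ =>
      Real.log (1 + (α ^ 2 + β ^ 2) / a ^ 2 * z.2 ^ 2 / (2 * z.1))) (ex.prod ga1)) :
    Integrable (fun z : ℝ × ℝ => ∫ g, hf a (z.1, α * z.2 + β * g) ∂ga1) (ex.prod ga1) ∧
    ∫ z : ℝ × ℝ, (∫ g, hf a (z.1, α * z.2 + β * g) ∂ga1) ∂(ex.prod ga1) =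
      LV ((α ^ 2 + β ^ 2) / a ^ 2) := by
  have hs : (√(α ^ 2 + β ^ 2)) ^ 2 = α ^ 2 + β ^ 2 := Real.sq_sqrt (by positivity)
  have hT1 : MeasurePreserving (fun z : ℝ × ℝ => (z.1, √(α ^ 2 + β ^ 2) * z.2))
      (ex.prod ga1) (ex.prod (ga1.map (fun u => √(α ^ 2 + β ^ 2) * u))) :=
    (MeasurePreserving.id ex).prod ⟨by fun_prop, rfl⟩
  have hT2 : MeasurePreserving (fun z : ℝ × ℝ × ℝ => (z.1, α * z.2.1 + β * z.2.2))
      (ex.prod (ga1.prod ga1)) (ex.prod (ga1.map (fun u => √(α ^ 2 + β ^ 2) * u))) :=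
    (MeasurePreserving.id ex).prod (g := fun z : ℝ × ℝ => α * z.1 + β * z.2)
      ⟨by fun_prop, law α β⟩
  have hT3 := measurePreserving_prodAssoc ex ga1 ga1
  have hT := hT2.comp hT3
  have hfm := hf_meas a
  have e1 : (fun z : ℝ × ℝ => Real.log (1 + (α ^ 2 + β ^ 2) / a ^ 2 * z.2 ^ 2 / (2 * z.1))) =
      hf a ∘ (fun z : ℝ × ℝ => (z.1, √(α ^ 2 + β ^ 2) * z.2)) := by
    funext z
    simp only [hf, Function.comp]
    rw [mul_pow, hs]
    congr 2
    ring
  rw [e1] at hI
  have hJ : Integrable (hf a) (ex.prod (ga1.map (fun u => √(α ^ 2 + β ^ 2) * u))) :=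
    (hT1.integrable_comp hfm.aestronglyMeasurable).1 hI
  have hK : Integrable (fun z : (ℝ × ℝ) × ℝ => hf a (z.1.1, α * z.1.2 + β * z.2))
      ((ex.prod ga1).prod ga1) := (hT.integrable_comp hfm.aestronglyMeasurable).2 hJ
  refine ⟨hK.integral_prod_left, ?_⟩
  have i1 : ∫ z : ℝ × ℝ, (∫ g, hf a (z.1, α * z.2 + β * g) ∂ga1) ∂(ex.prod ga1) =
      ∫ z : (ℝ × ℝ) × ℝ, hf a (z.1.1, α * z.1.2 + β * z.2) ∂((ex.prod ga1).prod ga1) :=
    (integral_prod _ hK).symm
  have i2 : ∫ z : (ℝ × ℝ) × ℝ, hf a (z.1.1, α * z.1.2 + β * z.2) ∂((ex.prod ga1).prod ga1) =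
      ∫ y, hf a y ∂(ex.prod (ga1.map (fun u => √(α ^ 2 + β ^ 2) * u))) := by
    have := integral_map hT.aemeasurable (f := hf a)
      (by rw [hT.map_eq]; exact hfm.aestronglyMeasurable)
    rw [hT.map_eq] at this
    exact this.symm
  have i3 : ∫ y, hf a y ∂(ex.prod (ga1.map (fun u => √(α ^ 2 + β ^ 2) * u))) =
      LV ((α ^ 2 + β ^ 2) / a ^ 2) := by
    have := integral_map hT1.aemeasurable (f := hf a)
      (by rw [hT1.map_eq]; exact hfm.aestronglyMeasurable)
    rw [hT1.map_eq] at this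
    rw [this, LV, e1]
    rfl
  rw [i1, i2, i3]

theorem logsp (a s : ℝ) (ha : 0 < a) :
    Real.log (sp a s) = -Real.log a - 3 / 2 * Real.log (1 + s ^ 2 / a ^ 2) := by
  have h1 : 0 < 1 + s ^ 2 / a ^ 2 := by positivity
  rw [sp, Real.log_mul (by positivity) (Real.rpow_pos_of_pos h1 _).ne', Real.log_rpow h1,
    one_div, Real.log_inv]
  ring

/-- the pointwise lower bound -/
theorem point (a k v x : ℝ) (ha : 0 < a) (hv : 0 < v) (hc : Continuous (sp a))
    (hp : ∀ s, 0 < sp a s) (hb : ∀ s, sp a s ≤ 2) (t u : ℝ) (ht : 0 < t) :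
    1 / 2 * Real.log (Real.pi / 2) - 1 / 2 * Real.log (2 * t) - Real.log a -
      3 / 2 * (∫ g, hf a (t, (1 - k * √(1 - x)) * √x * u + √(1 - x) * √v * g) ∂ga1) -
      1 / 2 * ((k * √x) ^ 2 * u ^ 2 + v - 1 - Real.log v) ≤ Real.log (zb (sp a) x t u) := by
  have hsg : 0 < sg t := by unfold sg; positivity
  have hsg2 : sg t ^ 2 = 1 / (2 * t) := by
    unfold sg
    rw [inv_pow, Real.sq_sqrt (by positivity), one_div]
  set F : ℝ → ℝ := fun w => sp a (sg t * (√x * u + √(1 - x) * w)) with hF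
  have hFc : Continuous F := hc.comp (by fun_prop)
  have e1 : ∀ g : ℝ, Real.log (F (-(k * √x * u) + √v * g)) =
      -Real.log a - 3 / 2 * hf a (t, (1 - k * √(1 - x)) * √x * u + √(1 - x) * √v * g) := by
    intro g
    simp only [hF]
    rw [logsp a _ ha, hf]
    congr 4
    rw [mul_pow, hsg2]
    simp only []
    have : √x * u + √(1 - x) * (-(k * √x * u) + √v * g) =
      (1 - k * √(1 - x)) * √x * u + √(1 - x) * √v * g := by ring
    rw [this]
    field_simp
  have i0 : Integrable (fun g => hf a (t, (1 - k * √(1 - x)) * √x * u + √(1 - x) * √v * g))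
      ga1 := by
    have j1 : Integrable (fun g : ℝ => ((1 - k * √(1 - x)) * √x * u + √(1 - x) * √v * g) ^ 2 /
        a ^ 2 / (2 * t)) ga1 := by
      have e2 : (fun g : ℝ => ((1 - k * √(1 - x)) * √x * u + √(1 - x) * √v * g) ^ 2 /
        a ^ 2 / (2 * t)) = fun g => ((((1 - k * √(1 - x)) * √x * u) ^ 2 +
          (2 * ((1 - k * √(1 - x)) * √x * u) * (√(1 - x) * √v)) * g) +
          ((√(1 - x) * √v) ^ 2) * g ^ 2) / a ^ 2 / (2 * t) := by
        funext g
        ring
      rw [e2]
      exact ((((integrable_const _).add (int_id.const_mul _)).add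
        (int_sq.const_mul _)).div_const _).div_const _
    refine j1.mono' ((hf_meas a).comp (by fun_prop)).aestronglyMeasurable ?_
    filter_upwards with g
    have h3 : 0 ≤ ((1 - k * √(1 - x)) * √x * u + √(1 - x) * √v * g) ^ 2 / a ^ 2 / (2 * t) := by
      positivity
    rw [hf, Real.norm_eq_abs, abs_of_nonneg (Real.log_nonneg (by simp only []; linarith))]
    have := Real.log_le_sub_one_of_pos
      (show 0 < 1 + ((1 - k * √(1 - x)) * √x * u + √(1 - x) * √v * g) ^ 2 / a ^ 2 / (2 * t) by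
        linarith)
    simp only []
    linarith
  have i1 : Integrable (fun g => Real.log (F (-(k * √x * u) + √v * g))) ga1 := by
    simp only [e1]
    exact (integrable_const _).sub (i0.const_mul _)
  have h1 := gibbs F hFc (fun w => hp _) 2 (fun w => hb _) (-(k * √x * u)) v hv i1
  have h2 : ∫ g, Real.log (F (-(k * √x * u) + √v * g)) ∂ga1 = -Real.log a -
      3 / 2 * (∫ g, hf a (t, (1 - k * √(1 - x)) * √x * u + √(1 - x) * √v * g) ∂ga1) := by
    simp only [e1]
    rw [integral_sub (integrable_const _) (i0.const_mul _), integral_const_mul]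
    simp
  have hpos : 0 < ∫ w, F w ∂ga1 := by
    have hFi : Integrable F ga1 := by
      refine (integrable_const (2 : ℝ)).mono' hFc.aestronglyMeasurable ?_
      filter_upwards with w
      rw [Real.norm_eq_abs, abs_of_pos (hp _)]
      exact hb _
    rw [integral_pos_iff_support_of_nonneg (fun w => (hp _).le) hFi]
    have : Function.support F = univ := by
      ext w
      simp only [Function.mem_support, mem_univ, iff_true]
      exact (hp _).ne'
    rw [this]
    simp
  have h3 : Real.log (zb (sp a) x t u) = 1 / 2 * Real.log (Real.pi / 2) -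
      1 / 2 * Real.log (2 * t) + Real.log (∫ w, F w ∂ga1) := by
    have h4 : zb (sp a) x t u = √(Real.pi / 2) * sg t * ∫ w, F w ∂ga1 := rfl
    have h5 : 0 < √(Real.pi / 2) := by positivity
    rw [h4, Real.log_mul (by positivity) hpos.ne', Real.log_mul h5.ne' hsg.ne', sg,
      Real.log_inv, Real.log_sqrt (by positivity), Real.log_sqrt (by positivity)]
    ring
  rw [h3]
  rw [h2] at h1
  have h6 : (-(k * √x * u)) ^ 2 = (k * √x) ^ 2 * u ^ 2 := by ring
  rw [h6] at h1
  linarith

end SCO_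

open SCO_ in
theorem sco_proof (hSPB : Stmt_SPB) (hSPF : Stmt_SPF) (hSLV : Stmt_SLV) (hSEG : Stmt_SEG)
    (hEXB : Stmt_EXB) : Stmt_SCO := by
  intro a k v x ha ha1 hk hk1 hv hv1 hx hx1
  haveI : IsProbabilityMeasure ex := hEXB.1
  have ha0 : 0 < a := by linarith
  have hx0 : 0 ≤ x := by linarith
  have hx2 : 0 ≤ 1 - x := by linarith
  set α := (1 - k * √(1 - x)) * √x with hα
  set β := √(1 - x) * √v with hβ
  have hV : α ^ 2 + β ^ 2 = (1 - k * √(1 - x)) ^ 2 * x + (1 - x) * v := by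
    rw [hα, hβ, mul_pow, mul_pow, Real.sq_sqrt hx0, Real.sq_sqrt hx2, Real.sq_sqrt hv.le]
  obtain ⟨hs1, hs2, -⟩ := hSPB a ha ha1
  have hI := (hSLV ((α ^ 2 + β ^ 2) / a ^ 2) (by positivity)).1
  obtain ⟨hJ1, hJ2⟩ := fub a α β hI
  rw [← hV]
  have hlog := hSPF.1 a x ha ha1 hx hx1
  have k1 : Integrable (fun z : ℝ × ℝ => Real.log (2 * z.1)) (ex.prod ga1) :=
    hSEG.1.comp_fst ga1
  have k2 : Integrable (fun z : ℝ × ℝ => z.2 ^ 2) (ex.prod ga1) := int_sq.comp_snd ex
  have v1 : ∫ z : ℝ × ℝ, Real.log (2 * z.1) ∂(ex.prod ga1) = ∫ t, Real.log (2 * t) ∂ex := by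
    rw [integral_fun_fst (fun t => Real.log (2 * t))]
    simp
  have v2 : ∫ z : ℝ × ℝ, z.2 ^ 2 ∂(ex.prod ga1) = 1 := by
    rw [integral_fun_snd (fun t : ℝ => t ^ 2), val_sq]
    simp
  -- the lower bound
  set H : ℝ × ℝ → ℝ := fun z => ∫ g, hf a (z.1, α * z.2 + β * g) ∂ga1 with hH
  have m1 : Integrable (fun z : ℝ × ℝ => (1 / 2 * Real.log (Real.pi / 2) - Real.log a -
      1 / 2 * (v - 1 - Real.log v)) - 1 / 2 * Real.log (2 * z.1)) (ex.prod ga1) :=
    (integrable_const _).sub (k1.const_mul _)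
  have m2 : Integrable (fun z : ℝ × ℝ => (1 / 2 * Real.log (Real.pi / 2) - Real.log a -
      1 / 2 * (v - 1 - Real.log v)) - 1 / 2 * Real.log (2 * z.1) - 3 / 2 * H z)
      (ex.prod ga1) := m1.sub (hJ1.const_mul _)
  have m3 : Integrable (fun z : ℝ × ℝ => (1 / 2 * Real.log (Real.pi / 2) - Real.log a -
      1 / 2 * (v - 1 - Real.log v)) - 1 / 2 * Real.log (2 * z.1) - 3 / 2 * H z -
      1 / 2 * (k * √x) ^ 2 * z.2 ^ 2) (ex.prod ga1) := m2.sub (k2.const_mul _)
  have n3 : ∫ z : ℝ × ℝ, ((1 / 2 * Real.log (Real.pi / 2) - Real.log a -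
      1 / 2 * (v - 1 - Real.log v)) - 1 / 2 * Real.log (2 * z.1) - 3 / 2 * H z -
      1 / 2 * (k * √x) ^ 2 * z.2 ^ 2) ∂(ex.prod ga1) =
      (1 / 2 * Real.log (Real.pi / 2) - Real.log a -
      1 / 2 * (v - 1 - Real.log v)) - 1 / 2 * ∫ t, Real.log (2 * t) ∂ex -
      3 / 2 * LV ((α ^ 2 + β ^ 2) / a ^ 2) - 1 / 2 * (k * √x) ^ 2 := by
    rw [integral_sub m2 (k2.const_mul _), integral_sub m1 (hJ1.const_mul _),
      integral_sub (integrable_const _) (k1.const_mul _), integral_const_mul,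
      integral_const_mul, integral_const_mul, v1, v2, hJ2]
    simp
  have key : ∫ z : ℝ × ℝ, ((1 / 2 * Real.log (Real.pi / 2) - Real.log a -
      1 / 2 * (v - 1 - Real.log v)) - 1 / 2 * Real.log (2 * z.1) - 3 / 2 * H z -
      1 / 2 * (k * √x) ^ 2 * z.2 ^ 2) ∂(ex.prod ga1) ≤ EL (sp a) x := by
    refine integral_mono_ae m3 hlog ?_
    have hae : ∀ᵐ z ∂(ex.prod ga1), 0 < z.1 :=
      Measure.quasiMeasurePreserving_fst.ae hEXB.2.2.2.1
    filter_upwards [hae] with z hz
    have := point a k v x ha0 hv hs2.continuous (fun s => (hs1 s).1) (fun s => (hs1 s).2.1)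
      z.1 z.2 hz
    simp only [hH]
    linarith
  rw [n3] at key
  have hkx : (k * √x) ^ 2 = k ^ 2 * x := by rw [mul_pow, Real.sq_sqrt hx0]
  rw [hkx] at key
  linarith

end PPW
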