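import Pool.Agent.PPW.Stmts

set_option autoImplicit false

/-!
# Squad PPW: Euler's constant
-/

namespace PPW

open MeasureTheory Set Filter Topology ProbabilityTheory
open PPI PPG PPX
open scoped Pointwise ENNReal

noncomputable section

namespace SEG_

theorem gamma_ge : (57 / 100 : ℝ) ≤ Real.eulerMascheroniConstant := by
  have h1 := Real.eulerMascheroniSeq_lt_eulerMascheroniConstant 127
  have h2 : (54231 / 10000 : ℚ) ≤ harmonic 127 := by
    unfold harmonic
    decide +kernel
  have h3 : (54231 / 10000 : ℝ) ≤ ((harmonic 127 : ℚ) : ℝ) := by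
    have := (Rat.cast_le (K := ℝ)).2 h2
    push_cast at this
    exact this
  have h4 : Real.log ((127 : ℕ) + 1 : ℝ) = 7 * Real.log 2 := by
    have : ((127 : ℕ) + 1 : ℝ) = 2 ^ 7 := by norm_num
    rw [this, Real.log_pow]
    norm_num
  unfold Real.eulerMascheroniSeq at h1
  rw [h4] at h1
  have h5 := Real.log_two_lt_d9
  linarith

theorem abs_log_le {t : ℝ} (ht : 0 < t) : |Real.log t| ≤ 2 * t ^ ((1 / 2 : ℝ) - 1) + t := by
  have h0 : 0 ≤ t ^ ((1 / 2 : ℝ) - 1) := Real.rpow_nonneg ht.le _
  rcases le_total 1 t with h | h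
  · rw [abs_of_nonneg (Real.log_nonneg h)]
    have := Real.log_le_sub_one_of_pos ht
    linarith
  · rw [abs_of_nonpos (Real.log_nonpos ht.le h)]
    have h1 : -Real.log t = 2 * Real.log (t ^ ((1 / 2 : ℝ) - 1)) := by
      rw [Real.log_rpow ht]
      ring
    have h2 := Real.log_le_sub_one_of_pos (Real.rpow_pos_of_pos ht ((1 / 2 : ℝ) - 1))
    rw [h1]
    linarith

theorem int_log : IntegrableOn (fun t : ℝ => Real.log t * Real.exp (-t)) (Ioi 0) := by
  have h1 := Real.GammaIntegral_convergent (s := 1 / 2) (by norm_num)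
  have h2 := Real.GammaIntegral_convergent (s := 2) (by norm_num)
  have h3 := (h1.const_mul 2).add h2
  refine h3.mono' ?_ ?_
  · exact (Real.measurable_log.mul (Real.measurable_exp.comp measurable_neg)).aestronglyMeasurable
  · refine (ae_restrict_iff' measurableSet_Ioi).2 (Eventually.of_forall fun t ht => ?_)
    have ht' : (0 : ℝ) < t := ht
    have h4 := abs_log_le ht'
    rw [Real.norm_eq_abs, abs_mul, abs_of_pos (Real.exp_pos _)]
    have h5 := mul_le_mul_of_nonneg_right h4 (Real.exp_pos (-t)).le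
    have h6 : t ^ ((2 : ℝ) - 1) = t := by
      norm_num
    simp only [Pi.add_apply]
    rw [h6]
    linarith

theorem val_log : ∫ t in Ioi (0 : ℝ), Real.log t * Real.exp (-t) =
    -Real.eulerMascheroniConstant := by
  have h1 := Complex.hasDerivAt_GammaIntegral (s := 1) (by simp)
  have h2 : HasDerivAt Complex.GammaIntegral (-(Real.eulerMascheroniConstant : ℂ)) 1 := by
    refine Complex.hasDerivAt_Gamma_one.congr_of_eventuallyEq ?_
    have : IsOpen {s : ℂ | 0 < s.re} := isOpen_lt continuous_const Complex.continuous_re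
    filter_upwards [this.mem_nhds (by simp : (1 : ℂ) ∈ {s : ℂ | 0 < s.re})] with a ha
    exact (Complex.Gamma_eq_integral ha).symm
  have h3 := h1.unique h2
  have h4 : ∫ t in Ioi (0 : ℝ), (t : ℂ) ^ ((1 : ℂ) - 1) * ((Real.log t : ℂ) * Real.exp (-t)) =
      ((∫ t in Ioi (0 : ℝ), Real.log t * Real.exp (-t) : ℝ) : ℂ) := by
    refine Eq.trans ?_ (integral_ofReal (𝕜 := ℂ)
      (f := fun t : ℝ => Real.log t * Real.exp (-t)) (μ := volume.restrict (Ioi (0 : ℝ))))
    refine integral_congr_ae (Eventually.of_forall fun t => ?_)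
    simp
  rw [h4] at h3
  exact_mod_cast h3

end SEG_

open SEG_ in
theorem seg_proof (_hEXB : Stmt_EXB) : Stmt_SEG := by
  have hm : Measurable fun t : ℝ => ENNReal.ofReal (Real.exp (-t)) := by fun_prop
  have hlt : ∀ᵐ t : ℝ ∂(volume.restrict (Ioi (0 : ℝ))), ENNReal.ofReal (Real.exp (-t)) < ⊤ :=
    Eventually.of_forall fun t => ENNReal.ofReal_lt_top
  have he : IntegrableOn (fun t : ℝ => Real.exp (-t)) (Ioi 0) := by
    have h := Real.GammaIntegral_convergent (s := 1) (by norm_num)
    refine h.congr_fun (fun t _ => ?_) measurableSet_Ioi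
    simp
  have hval : ∫ t in Ioi (0 : ℝ), Real.exp (-t) = 1 := by
    rw [integral_exp_neg_Ioi]
    simp
  have hcongr : ∀ t ∈ Ioi (0 : ℝ), Real.log (2 * t) * Real.exp (-t) =
      Real.log 2 * Real.exp (-t) + Real.log t * Real.exp (-t) := by
    intro t ht
    have ht' : (0 : ℝ) < t := ht
    rw [Real.log_mul (by norm_num) ht'.ne']
    ring
  have hint : IntegrableOn (fun t : ℝ => Real.log (2 * t) * Real.exp (-t)) (Ioi 0) := by
    have h := (he.const_mul (Real.log 2)).add int_log
    refine IntegrableOn.congr_fun h (fun t ht => ?_) measurableSet_Ioi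
    rw [hcongr t ht]
    rfl
  constructor
  · unfold ex
    rw [integrable_withDensity_iff hm hlt]
    refine hint.congr (Eventually.of_forall fun t => ?_)
    simp only [ENNReal.toReal_ofReal (Real.exp_pos _).le]
  · unfold ex
    rw [integral_withDensity_eq_integral_toReal_smul hm hlt]
    have h1 : ∫ t in Ioi (0 : ℝ), (ENNReal.ofReal (Real.exp (-t))).toReal • Real.log (2 * t) =
        ∫ t in Ioi (0 : ℝ), (Real.log 2 * Real.exp (-t) + Real.log t * Real.exp (-t)) := by
      refine setIntegral_congr_fun measurableSet_Ioi fun t ht => ?_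
      simp only [ENNReal.toReal_ofReal (Real.exp_pos _).le, smul_eq_mul]
      rw [← hcongr t ht]
      ring
    rw [h1, integral_add (he.const_mul _) int_log, integral_const_mul, hval, val_log]
    have := gamma_ge
    linarith

end

end PPW
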