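import Pool.Agent.PPW.Stmts

/-!
Squad PPW, module SEL: the directions with large fourth moment.
-/

set_option autoImplicit false

namespace PPW

open MeasureTheory Set Filter Topology ProbabilityTheory
open PPI PPG PPX
open scoped Pointwise ENNReal

namespace SEL_

/-- extension of an orthonormal family -/
theorem ext {n m : ℕ} (e : Fin m → EE n) (he : Orthonormal ℝ e) (v : EE n) (hv : ‖v‖ = 1)
    (hev : ∀ j, inner ℝ (e j) v = (0 : ℝ)) :
    Orthonormal ℝ (Fin.cons v e : Fin (m + 1) → EE n) := by
  refine ⟨?_, ?_⟩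
  · intro i
    refine Fin.cases ?_ (fun j => ?_) i
    · simpa using hv
    · simpa using he.1 j
  · intro i j hij
    induction i using Fin.cases with
    | zero =>
      induction j using Fin.cases with
      | zero => exact absurd rfl hij
      | succ j =>
        simp only [Fin.cons_zero, Fin.cons_succ]
        rw [real_inner_comm]
        exact hev j
    | succ i =>
      induction j using Fin.cases with
      | zero =>
        simp only [Fin.cons_zero, Fin.cons_succ]
        exact hev i
      | succ j =>
        simp only [Fin.cons_succ]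
        exact he.2 (fun h => hij (by rw [h]))

/-- the length of an orthonormal family -/
theorem len {n m : ℕ} (e : Fin m → EE n) (he : Orthonormal ℝ e) : m ≤ n := by
  have h := he.linearIndependent.fintype_card_le_finrank
  simpa using h

end SEL_

open SEL_ in
theorem sel_proof (hQBD : PPX.Stmt_QBD) : Stmt_SEL := by
  classical
  obtain ⟨n₀, hn₀⟩ := hQBD
  refine ⟨n₀, ?_⟩
  intro n ι _ p w D q hn hIS hMI hq
  set P : ℕ → Prop := fun m => ∃ e : Fin m → EE n, Orthonormal ℝ e ∧
    ∀ j, q < (n : ℝ) * ∑ i, p i * (inner ℝ (w i) (e j)) ^ 4 with hP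
  have h0 : P 0 := by
    refine ⟨fun j => Fin.elim0 j, ?_, fun j => Fin.elim0 j⟩
    exact ⟨fun j => Fin.elim0 j, fun j => Fin.elim0 j⟩
  have hm : P (Nat.findGreatest P n) := Nat.findGreatest_spec (m := 0) (Nat.zero_le n) h0
  obtain ⟨e, he, heq⟩ := hm
  refine ⟨Nat.findGreatest P n, e, he, ?_, ?_⟩
  · have hle : Nat.findGreatest P n ≤ n := Nat.findGreatest_le n
    have h1 := hn₀ n (Nat.findGreatest P n) ι p w D e hn hle hIS hMI he.1 (by
      intro x
      have hb := he.sum_inner_products_le (x := x) (s := Finset.univ)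
      have h2 : ∑ j, (inner ℝ (e j) x) ^ 2 ≤ ‖x‖ ^ 2 := by
        refine le_trans (Finset.sum_le_sum fun j _ => ?_) hb
        rw [Real.norm_eq_abs, sq_abs]
      have h3 : 0 ≤ ‖x‖ ^ 2 := sq_nonneg _
      linarith)
    have h2 : ((Nat.findGreatest P n : ℕ) : ℝ) * q ≤
        ∑ j : Fin (Nat.findGreatest P n), (n : ℝ) * ∑ i, p i * (inner ℝ (w i) (e j)) ^ 4 := by
      have h3 : ∑ _j : Fin (Nat.findGreatest P n), q ≤
          ∑ j : Fin (Nat.findGreatest P n), (n : ℝ) * ∑ i, p i * (inner ℝ (w i) (e j)) ^ 4 :=
        Finset.sum_le_sum fun j _ => (heq j).le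
      simpa using h3
    have h4 : 4 * ((Nat.findGreatest P n : ℕ) : ℝ) / n ≤
        ((Nat.findGreatest P n : ℕ) : ℝ) * q / 2 := by
      have h5 : ((Nat.findGreatest P n : ℕ) : ℝ) * (8 / n) ≤
          ((Nat.findGreatest P n : ℕ) : ℝ) * q :=
        mul_le_mul_of_nonneg_left hq (Nat.cast_nonneg _)
      have h6 : 4 * ((Nat.findGreatest P n : ℕ) : ℝ) / n =
          ((Nat.findGreatest P n : ℕ) : ℝ) * (8 / n) / 2 := by ring
      rw [h6]
      linarith
    linarith
  · intro v hv hev
    by_contra hcon
    push Not at hcon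
    have hex : P (Nat.findGreatest P n + 1) := by
      refine ⟨Fin.cons v e, ext e he v hv hev, ?_⟩
      intro j
      induction j using Fin.cases with
      | zero => simpa only [Fin.cons_zero] using hcon
      | succ j => simpa only [Fin.cons_succ] using heq j
    obtain ⟨e', he', _⟩ := id hex
    have hle' : Nat.findGreatest P n + 1 ≤ n := len e' he'
    have := Nat.le_findGreatest hle' hex
    omega

end PPW
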