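import Pool.Agent.PPW.Stmts

set_option autoImplicit false

/-!
# Squad PPW: the integral `LV`
-/

namespace PPW

open MeasureTheory Set Filter Topology ProbabilityTheory
open PPI PPG PPX
open scoped Pointwise ENNReal

noncomputable section

namespace SLV_

/-! ### the density -/

/-- the density of `u / √(2t)` -/
def hh (y : ℝ) : ℝ := 1 / 2 * ((√(1 + y ^ 2)) ^ 3)⁻¹

theorem one_add_pos (y : ℝ) : 0 < 1 + y ^ 2 := by positivity

theorem w_pos (y : ℝ) : 0 < √(1 + y ^ 2) := Real.sqrt_pos.2 (one_add_pos y)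

theorem w_sq (y : ℝ) : √(1 + y ^ 2) ^ 2 = 1 + y ^ 2 := Real.sq_sqrt (one_add_pos y).le

theorem hh_nonneg (y : ℝ) : 0 ≤ hh y := by
  unfold hh
  have := w_pos y
  positivity

theorem hh_meas : Measurable hh := by
  unfold hh
  fun_prop

theorem hh_rpow (y : ℝ) : hh y = 1 / 2 * (1 / (1 + y ^ 2)) ^ (3 / 2 : ℝ) := by
  unfold hh
  have h := (one_add_pos y).le
  rw [one_div (1 + y ^ 2), Real.inv_rpow h, Real.sqrt_eq_rpow, ← Real.rpow_natCast,
    ← Real.rpow_mul h]
  norm_num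

theorem gamma_three_half : Real.Gamma (3 / 2) = √Real.pi / 2 := by
  have h : (3 / 2 : ℝ) = 1 / 2 + 1 := by norm_num
  rw [h, Real.Gamma_add_one (by norm_num), Real.Gamma_one_half_eq]
  ring

/-- the inner integral -/
theorem inner_eq (y : ℝ) :
    ∫⁻ t in Ioi (0 : ℝ), ENNReal.ofReal (√(2 * t) * (√(2 * Real.pi))⁻¹ *
      Real.exp (-((1 + y ^ 2) * t))) = ENNReal.ofReal (hh y) := by
  have hc := one_add_pos y
  have h1 : ∀ t ∈ Ioi (0 : ℝ), √(2 * t) * (√(2 * Real.pi))⁻¹ * Real.exp (-((1 + y ^ 2) * t)) =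
      (√Real.pi)⁻¹ * (t ^ ((3 / 2 : ℝ) - 1) * Real.exp (-((1 + y ^ 2) * t))) := by
    intro t ht
    have e : t ^ ((3 / 2 : ℝ) - 1) = √t := by
      rw [Real.sqrt_eq_rpow]
      norm_num
    rw [e, Real.sqrt_mul (by norm_num), Real.sqrt_mul (by norm_num)]
    have h2 : √(2 : ℝ) ≠ 0 := by positivity
    have hp : √Real.pi ≠ 0 := (Real.sqrt_pos.2 Real.pi_pos).ne'
    field_simp
  have hint : IntegrableOn (fun t : ℝ => t ^ ((3 / 2 : ℝ) - 1) * Real.exp (-((1 + y ^ 2) * t)))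
      (Ioi 0) := by
    have := integrableOn_rpow_mul_exp_neg_mul_rpow (p := 1) (s := (3 / 2 : ℝ) - 1)
      (b := 1 + y ^ 2) (by norm_num) one_pos hc
    refine this.congr_fun (fun t _ => ?_) measurableSet_Ioi
    simp only [Real.rpow_one, neg_mul]
  rw [setLIntegral_congr_fun measurableSet_Ioi (fun t ht => by rw [h1 t ht]),
    ← ofReal_integral_eq_lintegral_ofReal (hint.const_mul _)]
  · rw [integral_const_mul, Real.integral_rpow_mul_exp_neg_mul_Ioi (by norm_num) hc,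
      gamma_three_half, hh_rpow]
    congr 1
    have hp : √Real.pi ≠ 0 := (Real.sqrt_pos.2 Real.pi_pos).ne'
    field_simp
  · refine (ae_restrict_iff' measurableSet_Ioi).2 (Eventually.of_forall fun t ht => ?_)
    have ht' : (0 : ℝ) < t := ht
    positivity

/-- scaling of the Gaussian -/
theorem scale (f : ℝ → ℝ≥0∞) (hf : Measurable f) {a : ℝ} (ha : 0 < a) :
    ∫⁻ u, f (u / a) ∂ga1 = ∫⁻ y, ENNReal.ofReal (a * (√(2 * Real.pi))⁻¹ *
      Real.exp (-(a ^ 2 * y ^ 2) / 2)) * f y := by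
  unfold ga1
  rw [gaussianReal_of_var_ne_zero 0 one_ne_zero,
    lintegral_withDensity_eq_lintegral_mul _ (measurable_gaussianPDF 0 1)
      (g := fun u => f (u / a)) (hf.comp (measurable_id.div_const a))]
  have h1 := Real.smul_map_volume_mul_left ha.ne'
  conv_lhs => rw [← h1]
  rw [lintegral_smul_measure, lintegral_map (by
    exact (measurable_gaussianPDF 0 1).mul (hf.comp (measurable_id.div_const a)))
    (measurable_const_mul a), smul_eq_mul, ← lintegral_const_mul' _ _ ENNReal.ofReal_ne_top]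
  refine lintegral_congr fun y => ?_
  simp only [Pi.mul_apply]
  rw [mul_div_cancel_left₀ y ha.ne', ← mul_assoc]
  congr 1
  unfold gaussianPDF
  rw [← ENNReal.ofReal_mul (abs_nonneg a), abs_of_pos ha]
  congr 1
  unfold gaussianPDFReal
  have e : -(a * y - 0) ^ 2 / (2 * ((1 : NNReal) : ℝ)) = -(a ^ 2 * y ^ 2) / 2 := by
    simp only [NNReal.coe_one]
    ring
  rw [e]
  simp only [NNReal.coe_one, mul_one]
  ring

/-- the law of `u / √(2t)` -/
theorem law (hEXB : Stmt_EXB) :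
    Measure.map (fun z : ℝ × ℝ => z.2 / √(2 * z.1)) (ex.prod ga1) =
      volume.withDensity fun y => ENNReal.ofReal (hh y) := by
  have : IsProbabilityMeasure ex := hEXB.1
  have : IsProbabilityMeasure ga1 := by unfold ga1; infer_instance
  have hT : Measurable (fun z : ℝ × ℝ => z.2 / √(2 * z.1)) := by fun_prop
  ext s hs
  have hf : Measurable (s.indicator (fun _ => (1 : ℝ≥0∞))) := measurable_const.indicator hs
  have e0 : Measure.map (fun z : ℝ × ℝ => z.2 / √(2 * z.1)) (ex.prod ga1) s =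
      ∫⁻ y, s.indicator (fun _ => (1 : ℝ≥0∞)) y
        ∂(Measure.map (fun z : ℝ × ℝ => z.2 / √(2 * z.1)) (ex.prod ga1)) :=
    (lintegral_indicator_one hs).symm
  have hfT : Measurable (fun z : ℝ × ℝ =>
      s.indicator (fun _ => (1 : ℝ≥0∞)) (z.2 / √(2 * z.1))) := hf.comp hT
  rw [e0, lintegral_map hf hT, withDensity_apply _ hs, lintegral_prod _ hfT.aemeasurable]
  unfold ex
  rw [lintegral_withDensity_eq_lintegral_mul₀' (by fun_prop) (by
    refine (Measurable.lintegral_prod_right' (f := fun z : ℝ × ℝ =>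
      s.indicator (fun _ => (1 : ℝ≥0∞)) (z.2 / √(2 * z.1))) (hf.comp hT)).aemeasurable)]
  have h1 : ∀ t ∈ Ioi (0 : ℝ), ((fun t => ENNReal.ofReal (Real.exp (-t))) * fun t =>
      ∫⁻ u, s.indicator (fun _ => (1 : ℝ≥0∞)) (u / √(2 * t)) ∂ga1) t =
      ∫⁻ y, ENNReal.ofReal (√(2 * t) * (√(2 * Real.pi))⁻¹ *
        Real.exp (-((1 + y ^ 2) * t))) * s.indicator (fun _ => (1 : ℝ≥0∞)) y := by
    intro t ht
    have ht' : (0 : ℝ) < t := ht
    have ha : 0 < √(2 * t) := Real.sqrt_pos.2 (by linarith)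
    simp only [Pi.mul_apply]
    rw [scale _ hf ha, ← lintegral_const_mul' _ _ ENNReal.ofReal_ne_top]
    refine lintegral_congr fun y => ?_
    rw [← mul_assoc, ← ENNReal.ofReal_mul (Real.exp_pos _).le]
    congr 2
    rw [Real.sq_sqrt (by linarith)]
    have e : Real.exp (-((1 + y ^ 2) * t)) = Real.exp (-t) * Real.exp (-(2 * t * y ^ 2) / 2) := by
      rw [← Real.exp_add]
      congr 1
      ring
    rw [e]
    ring
  rw [setLIntegral_congr_fun measurableSet_Ioi h1, lintegral_lintegral_swap]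
  · have h2 : ∀ y : ℝ, ∫⁻ t in Ioi (0 : ℝ), ENNReal.ofReal (√(2 * t) * (√(2 * Real.pi))⁻¹ *
        Real.exp (-((1 + y ^ 2) * t))) * s.indicator (fun _ => (1 : ℝ≥0∞)) y =
        s.indicator (fun y => ENNReal.ofReal (hh y)) y := by
      intro y
      rw [lintegral_mul_const _ (by fun_prop), inner_eq]
      by_cases hy : y ∈ s
      · rw [indicator_of_mem hy, indicator_of_mem hy, mul_one]
      · rw [indicator_of_notMem hy, indicator_of_notMem hy, mul_zero]
    simp only [h2]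
    rw [lintegral_indicator hs]
  · refine Measurable.aemeasurable ?_
    refine Measurable.mul ?_ (hf.comp measurable_snd)
    fun_prop

/-! ### the one-dimensional integrals -/

/-- `y / √(1+y²)` -/
def ss (y : ℝ) : ℝ := y / √(1 + y ^ 2)

theorem ss_deriv (y : ℝ) : HasDerivAt ss ((√(1 + y ^ 2)) ^ 3)⁻¹ y := by
  have hw := w_pos y
  have h1 : HasDerivAt (fun y : ℝ => 1 + y ^ 2) (2 * y) y := by
    have := (hasDerivAt_pow 2 y).const_add 1
    simpa using this
  have h2 := h1.sqrt (one_add_pos y).ne'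
  have h3 := (hasDerivAt_id y).div h2 hw.ne'
  have e : (1 * √(1 + y ^ 2) - id y * (2 * y / (2 * √(1 + y ^ 2)))) / √(1 + y ^ 2) ^ 2 =
      ((√(1 + y ^ 2)) ^ 3)⁻¹ := by
    have h4 := w_sq y
    set w := √(1 + y ^ 2)
    simp only [id]
    field_simp
    linarith
  rw [e] at h3
  exact h3

theorem ss_sq (y : ℝ) : ss y ^ 2 = y ^ 2 / (1 + y ^ 2) := by
  unfold ss
  rw [div_pow, w_sq]

theorem ss_lt (y : ℝ) : -1 < ss y ∧ ss y < 1 := by
  have h : ss y ^ 2 < 1 := by
    rw [ss_sq, div_lt_one (one_add_pos y)]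
    linarith
  exact abs_lt.1 ((sq_lt_one_iff_abs_lt_one _).1 h)

theorem ss_tendsto : Tendsto ss atTop (𝓝 1) := by
  have h1 : Tendsto (fun y : ℝ => 1 + y ^ 2) atTop atTop :=
    tendsto_atTop_add_const_left _ _ (tendsto_pow_atTop two_ne_zero)
  have h2 : Tendsto (fun y : ℝ => √(1 - (1 + y ^ 2)⁻¹)) atTop (𝓝 √(1 - 0)) :=
    (tendsto_const_nhds.sub (tendsto_inv_atTop_zero.comp h1)).sqrt
  rw [sub_zero, Real.sqrt_one] at h2
  refine h2.congr' ?_
  filter_upwards [eventually_gt_atTop (0 : ℝ)] with y hy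
  have h3 : 1 - (1 + y ^ 2)⁻¹ = ss y ^ 2 := by
    rw [ss_sq]
    have := one_add_pos y
    field_simp
    ring
  rw [h3, Real.sqrt_sq]
  unfold ss
  have := w_pos y
  positivity

/-- antiderivative -/
def FF (s : ℝ) : ℝ := (1 - s) * Real.log (1 - s) - (1 + s) * Real.log (1 + s) + 2 * s

theorem FF_cont : Continuous FF := by
  unfold FF
  have h := Real.continuous_mul_log
  exact ((h.comp (continuous_const.sub continuous_id)).sub
    (h.comp (continuous_const.add continuous_id))).add (continuous_const.mul continuous_id)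

theorem FF_deriv {s : ℝ} (h1 : -1 < s) (h2 : s < 1) :
    HasDerivAt FF (-(Real.log (1 - s) + Real.log (1 + s))) s := by
  have e1 : HasDerivAt (fun s : ℝ => 1 - s) (-1) s := by
    simpa using (hasDerivAt_id s).const_sub 1
  have e2 : HasDerivAt (fun s : ℝ => 1 + s) 1 s := by
    simpa using (hasDerivAt_id s).const_add 1
  have h3 := (e1.mul (e1.log (by linarith : (1 : ℝ) - s ≠ 0))).sub
    (e2.mul (e2.log (by linarith : (1 : ℝ) + s ≠ 0)))
  have h4 := h3.add ((hasDerivAt_id s).const_mul 2)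
  have h5 : (1 : ℝ) - s ≠ 0 := by linarith
  have h6 : (1 : ℝ) + s ≠ 0 := by linarith
  have e : -1 * Real.log (1 - s) + (1 - s) * (-1 / (1 - s)) -
      (1 * Real.log (1 + s) + (1 + s) * (1 / (1 + s))) + 2 * 1 =
      -(Real.log (1 - s) + Real.log (1 + s)) := by
    field_simp
    ring
  rw [e] at h4
  exact h4

theorem log_eq (y : ℝ) :
    -(Real.log (1 - ss y) + Real.log (1 + ss y)) = Real.log (1 + y ^ 2) := by
  obtain ⟨h1, h2⟩ := ss_lt y
  rw [← Real.log_mul (by linarith) (by linarith)]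
  have h3 : (1 - ss y) * (1 + ss y) = (1 + y ^ 2)⁻¹ := by
    have : (1 - ss y) * (1 + ss y) = 1 - ss y ^ 2 := by ring
    rw [this, ss_sq]
    have := one_add_pos y
    field_simp
    ring
  rw [h3, Real.log_inv, neg_neg]

theorem half1 : IntegrableOn (fun y : ℝ => Real.log (1 + y ^ 2) * ((√(1 + y ^ 2)) ^ 3)⁻¹) (Ioi 0) ∧
    ∫ y in Ioi (0 : ℝ), Real.log (1 + y ^ 2) * ((√(1 + y ^ 2)) ^ 3)⁻¹ = 2 - 2 * Real.log 2 := by
  have hd : ∀ y ∈ Ici (0 : ℝ), HasDerivAt (fun y => FF (ss y))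
      (Real.log (1 + y ^ 2) * ((√(1 + y ^ 2)) ^ 3)⁻¹) y := by
    intro y _
    have h1 := (FF_deriv (ss_lt y).1 (ss_lt y).2).comp y (ss_deriv y)
    rw [log_eq] at h1
    exact h1
  have hp : ∀ y ∈ Ioi (0 : ℝ), 0 ≤ Real.log (1 + y ^ 2) * ((√(1 + y ^ 2)) ^ 3)⁻¹ := by
    intro y _
    have := w_pos y
    exact mul_nonneg (Real.log_nonneg (by nlinarith [sq_nonneg y])) (by positivity)
  have ht : Tendsto (fun y => FF (ss y)) atTop (𝓝 (FF 1)) :=
    (FF_cont.tendsto 1).comp ss_tendsto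
  refine ⟨integrableOn_Ioi_deriv_of_nonneg' hd hp ht, ?_⟩
  rw [integral_Ioi_of_hasDerivAt_of_nonneg' hd hp ht]
  have h0 : ss 0 = 0 := by simp [ss]
  rw [h0]
  unfold FF
  norm_num
  ring

theorem half2 : IntegrableOn (fun y : ℝ => y ^ 2 / (1 + y ^ 2) * ((√(1 + y ^ 2)) ^ 3)⁻¹) (Ioi 0) ∧
    ∫ y in Ioi (0 : ℝ), y ^ 2 / (1 + y ^ 2) * ((√(1 + y ^ 2)) ^ 3)⁻¹ = 1 / 3 := by
  have hd : ∀ y ∈ Ici (0 : ℝ), HasDerivAt (fun y => ss y ^ 3 / 3)
      (y ^ 2 / (1 + y ^ 2) * ((√(1 + y ^ 2)) ^ 3)⁻¹) y := by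
    intro y _
    have h1 := ((ss_deriv y).pow 3).div_const 3
    have e : (3 : ℕ) * ss y ^ (3 - 1) * ((√(1 + y ^ 2)) ^ 3)⁻¹ / 3 =
        y ^ 2 / (1 + y ^ 2) * ((√(1 + y ^ 2)) ^ 3)⁻¹ := by
      rw [← ss_sq]
      norm_num
      ring
    rw [e] at h1
    exact h1
  have hp : ∀ y ∈ Ioi (0 : ℝ), 0 ≤ y ^ 2 / (1 + y ^ 2) * ((√(1 + y ^ 2)) ^ 3)⁻¹ := by
    intro y _
    have := w_pos y
    positivity
  have ht : Tendsto (fun y => ss y ^ 3 / 3) atTop (𝓝 (1 ^ 3 / 3)) :=
    (ss_tendsto.pow 3).div_const 3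
  refine ⟨integrableOn_Ioi_deriv_of_nonneg' hd hp ht, ?_⟩
  rw [integral_Ioi_of_hasDerivAt_of_nonneg' hd hp ht]
  have h0 : ss 0 = 0 := by simp [ss]
  rw [h0]
  norm_num

theorem even_int {f : ℝ → ℝ} (hf : ∀ y, f (-y) = f y) (h : IntegrableOn f (Ioi 0)) :
    Integrable f ∧ ∫ y, f y = 2 * ∫ y in Ioi (0 : ℝ), f y := by
  constructor
  · have h1 : IntegrableOn f (Iic 0) := by
      rw [integrableOn_Iic_iff_integrableOn_Iio]
      have h2 := ((Measure.measurePreserving_neg (volume : Measure ℝ)).integrableOn_comp_preimage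
        (Homeomorph.neg ℝ).measurableEmbedding).2 h
      have e : (Neg.neg : ℝ → ℝ) ⁻¹' Ioi 0 = Iio 0 := by
        ext x
        simp
      rw [e] at h2
      exact h2.congr_fun (fun y _ => hf y) measurableSet_Iio
    rw [← integrableOn_univ, ← Iic_union_Ioi (a := (0 : ℝ))]
    exact h1.union h
  · rw [← integral_comp_abs]
    refine integral_congr_ae (Eventually.of_forall fun y => ?_)
    rcases abs_cases y with ⟨h1, _⟩ | ⟨h1, _⟩
    · simp only [h1]
    · simp only [h1, hf]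

theorem full1 : Integrable (fun y : ℝ => Real.log (1 + y ^ 2) * hh y) ∧
    ∫ y : ℝ, Real.log (1 + y ^ 2) * hh y = 2 - 2 * Real.log 2 := by
  have h1 := even_int (f := fun y : ℝ => Real.log (1 + y ^ 2) * ((√(1 + y ^ 2)) ^ 3)⁻¹)
    (fun y => by simp only [neg_sq]) half1.1
  have e : (fun y : ℝ => Real.log (1 + y ^ 2) * hh y) =
      fun y => (1 / 2) * (Real.log (1 + y ^ 2) * ((√(1 + y ^ 2)) ^ 3)⁻¹) := by
    funext y
    unfold hh
    ring
  rw [e]
  refine ⟨h1.1.const_mul _, ?_⟩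
  rw [integral_const_mul, h1.2, half1.2]
  ring

theorem full2 : Integrable (fun y : ℝ => y ^ 2 / (1 + y ^ 2) * hh y) ∧
    ∫ y : ℝ, y ^ 2 / (1 + y ^ 2) * hh y = 1 / 3 := by
  have h1 := even_int (f := fun y : ℝ => y ^ 2 / (1 + y ^ 2) * ((√(1 + y ^ 2)) ^ 3)⁻¹)
    (fun y => by simp only [neg_sq]) half2.1
  have e : (fun y : ℝ => y ^ 2 / (1 + y ^ 2) * hh y) =
      fun y => (1 / 2) * (y ^ 2 / (1 + y ^ 2) * ((√(1 + y ^ 2)) ^ 3)⁻¹) := by
    funext y
    unfold hh
    ring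
  rw [e]
  refine ⟨h1.1.const_mul _, ?_⟩
  rw [integral_const_mul, h1.2, half2.2]
  ring

theorem tangent {V : ℝ} (hV : 0 ≤ V) (y : ℝ) : Real.log (1 + V * y ^ 2) ≤
    Real.log (1 + y ^ 2) + (V - 1) * (y ^ 2 / (1 + y ^ 2)) := by
  have h0 := one_add_pos y
  have h1 : 0 < 1 + V * y ^ 2 := by positivity
  have h2 := Real.log_le_sub_one_of_pos (x := (1 + V * y ^ 2) / (1 + y ^ 2)) (by positivity)
  rw [Real.log_div h1.ne' h0.ne'] at h2
  have e : (1 + V * y ^ 2) / (1 + y ^ 2) - 1 = (V - 1) * (y ^ 2 / (1 + y ^ 2)) := by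
    field_simp
    ring
  rw [e] at h2
  linarith

theorem int_V {V : ℝ} (hV : 0 ≤ V) : Integrable (fun y : ℝ => Real.log (1 + V * y ^ 2) * hh y) := by
  have h1 := full1.1.add (full2.1.const_mul V)
  refine h1.mono' ?_ (Eventually.of_forall fun y => ?_)
  · refine Measurable.aestronglyMeasurable ?_
    exact (Real.measurable_log.comp (by fun_prop)).mul hh_meas
  · have h2 : 0 ≤ Real.log (1 + V * y ^ 2) := Real.log_nonneg (by nlinarith [sq_nonneg y, mul_nonneg hV (sq_nonneg y)])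
    rw [Real.norm_of_nonneg (mul_nonneg h2 (hh_nonneg y))]
    have h3 := tangent hV y
    have h4 : 0 ≤ y ^ 2 / (1 + y ^ 2) := by positivity
    have h5 : Real.log (1 + V * y ^ 2) ≤ Real.log (1 + y ^ 2) + V * (y ^ 2 / (1 + y ^ 2)) := by
      nlinarith
    have h6 := mul_le_mul_of_nonneg_right h5 (hh_nonneg y)
    simp only [Pi.add_apply]
    linarith

end SLV_

open SLV_ in
theorem slv_proof (hEXB : Stmt_EXB) : Stmt_SLV := by
  intro V hV
  have hT : Measurable (fun z : ℝ × ℝ => z.2 / √(2 * z.1)) := by fun_prop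
  have : IsProbabilityMeasure ex := hEXB.1
  have : IsProbabilityMeasure ga1 := by unfold ga1; infer_instance
  have hpos : ∀ᵐ z : ℝ × ℝ ∂(ex.prod ga1), 0 < z.1 := by
    have h := hEXB.2.2.2.1
    exact Measure.quasiMeasurePreserving_fst.ae h
  have hcongr : (fun z : ℝ × ℝ => Real.log (1 + V * z.2 ^ 2 / (2 * z.1))) =ᵐ[ex.prod ga1]
      fun z => (fun y : ℝ => Real.log (1 + V * y ^ 2)) (z.2 / √(2 * z.1)) := by
    filter_upwards [hpos] with z hz
    rw [div_pow, Real.sq_sqrt (by linarith), mul_div_assoc]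
  have hm : Measurable (fun y : ℝ => Real.log (1 + V * y ^ 2)) :=
    Real.measurable_log.comp (by fun_prop)
  have hd : Measurable fun y => ENNReal.ofReal (hh y) := hh_meas.ennreal_ofReal
  have hint : Integrable (fun y : ℝ => Real.log (1 + V * y ^ 2))
      (volume.withDensity fun y => ENNReal.ofReal (hh y)) := by
    rw [integrable_withDensity_iff hd (Eventually.of_forall fun y => ENNReal.ofReal_lt_top)]
    refine (int_V hV).congr (Eventually.of_forall fun y => ?_)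
    simp only [ENNReal.toReal_ofReal (hh_nonneg y)]
  have hval : ∫ y, Real.log (1 + V * y ^ 2) ∂(volume.withDensity fun y => ENNReal.ofReal (hh y)) =
      ∫ y : ℝ, Real.log (1 + V * y ^ 2) * hh y := by
    rw [integral_withDensity_eq_integral_toReal_smul hd
      (Eventually.of_forall fun y => ENNReal.ofReal_lt_top)]
    refine integral_congr_ae (Eventually.of_forall fun y => ?_)
    simp only [ENNReal.toReal_ofReal (hh_nonneg y), smul_eq_mul]
    ring
  constructor
  · refine Integrable.congr ?_ hcongr.symm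
    rw [← law hEXB] at hint
    exact (integrable_map_measure hm.aestronglyMeasurable hT.aemeasurable).1 hint
  · unfold LV
    rw [integral_congr_ae hcongr]
    rw [← law hEXB, integral_map hT.aemeasurable hm.aestronglyMeasurable] at hval
    rw [hval]
    have h1 : ∫ y : ℝ, Real.log (1 + V * y ^ 2) * hh y ≤
        ∫ y : ℝ, (Real.log (1 + y ^ 2) * hh y + (V - 1) * (y ^ 2 / (1 + y ^ 2) * hh y)) := by
      refine integral_mono (int_V hV) (full1.1.add (full2.1.const_mul _)) fun y => ?_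
      have h2 := mul_le_mul_of_nonneg_right (tangent hV y) (hh_nonneg y)
      simp only
      linarith
    refine h1.trans (le_of_eq ?_)
    rw [integral_add full1.1 (full2.1.const_mul _), integral_const_mul, full1.2, full2.2]
    ring

end

end PPW
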