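import Pool.Agent.PPW.Stmts

/-!
# Squad PPW (MP_0bf616_gt): large `x`
-/

set_option autoImplicit false

namespace PPW

open MeasureTheory Set Filter Topology ProbabilityTheory
open PPI PPG PPX
open scoped Pointwise ENNReal

namespace SNU_

/-- the constant -/
theorem const_le : -(1 / 2) * Real.log Real.pi - 2 * Real.log 2 +
    1 / 2 * Real.log (87 / 100) + 43 / 20 ≤ 1245 / 10000 := by
  have hpi : (0 : ℝ) < Real.pi := Real.pi_pos
  have h1 : Real.log (Real.pi / (348 / 100)) = Real.log Real.pi - 2 * Real.log 2 -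
      Real.log (87 / 100) := by
    rw [Real.log_div hpi.ne' (by norm_num),
      show (348 / 100 : ℝ) = 2 ^ 2 * (87 / 100) by norm_num,
      Real.log_mul (by norm_num) (by norm_num), Real.log_pow]
    push_cast
    ring
  have h2 : 1 - (Real.pi / (348 / 100))⁻¹ ≤ Real.log (Real.pi / (348 / 100)) :=
    Real.one_sub_inv_le_log_of_pos (by positivity)
  have h3 : (Real.pi / (348 / 100))⁻¹ ≤ 348 / 314.15 := by
    rw [inv_div, div_le_div_iff₀ hpi (by norm_num)]
    have := Real.pi_gt_d4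
    nlinarith
  have h4 := Real.log_two_gt_d9
  rw [h1] at h2
  norm_num at h3 h2 h4 ⊢
  linarith

theorem poly {r : ℝ} (h0 : 0 ≤ r) (h1 : r ≤ 693 / 2000) :
    r ^ 2 * (1 / 3 - 2 * (1 - (87 / 100) ^ 2) / 15) +
      (1 - r ^ 2) * (1245 / 10000 +
        ((1 - 19 / 50 * r) ^ 2 * (1 - r ^ 2) + r ^ 2 * (87 / 100)) / (87 / 100) ^ 2 / 2 +
        1 / 2 * ((19 / 50) ^ 2 * (1 - r ^ 2))) ≤ 199 / 200 * (1 - r) := by
  have hs : 0 ≤ 693 / 2000 - r := by linarith
  rw [← sub_nonneg]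
  have key : 199 / 200 * (1 - r) - (r ^ 2 * (1 / 3 - 2 * (1 - (87 / 100) ^ 2) / 15) +
      (1 - r ^ 2) * (1245 / 10000 +
        ((1 - 19 / 50 * r) ^ 2 * (1 - r ^ 2) + r ^ 2 * (87 / 100)) / (87 / 100) ^ 2 / 2 +
        1 / 2 * ((19 / 50) ^ 2 * (1 - r ^ 2)))) =
    66709292800000000000000 / 838374215395271466681 * (r ^ 0 * (693 / 2000 - r) ^ 6) +
      105837887840000000000000 / 279458071798423822227 * (r ^ 1 * (693 / 2000 - r) ^ 5) +
      207644437717943360000000 / 279458071798423822227 * (r ^ 2 * (693 / 2000 - r) ^ 4) +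
      630547469949720320000000 / 838374215395271466681 * (r ^ 3 * (693 / 2000 - r) ^ 3) +
      109589374542562698557600 / 279458071798423822227 * (r ^ 4 * (693 / 2000 - r) ^ 2) +
      23843086414651472715200 / 279458071798423822227 * (r ^ 5 * (693 / 2000 - r) ^ 1) +
      1099691381130616377022 / 838374215395271466681 * (r ^ 6 * (693 / 2000 - r) ^ 0) := by ring
  rw [key]
  positivity

end SNU_

theorem snu_proof (hSPB : Stmt_SPB) (hSLV : Stmt_SLV) (hSEG : Stmt_SEG) (hSCO : Stmt_SCO) :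
    Stmt_SNU := by
  intro x hx1 hx2
  have hx0 : 0 ≤ 1 - x := by linarith
  set r := √(1 - x) with hr
  have hr0 : 0 ≤ r := Real.sqrt_nonneg _
  have hr2 : r ^ 2 = 1 - x := Real.sq_sqrt hx0
  have hr1 : r ≤ 693 / 2000 := by
    by_contra h
    push Not at h
    nlinarith
  have hEZ := (hSPB (87 / 100) (by norm_num) (by norm_num)).2.2.2.2.2.2
  have hEL := hSCO (87 / 100) (19 / 50) (87 / 100) x (by norm_num) (by norm_num) (by norm_num)
    (by norm_num) (by norm_num) (by norm_num) hx1 hx2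
  rw [← hr] at hEL
  have hV0 : 0 ≤ ((1 - 19 / 50 * r) ^ 2 * x + (1 - x) * (87 / 100)) / (87 / 100) ^ 2 := by
    have : 0 ≤ x := by linarith
    positivity
  have hLV := (hSLV _ hV0).2
  have hlog := hSEG.2
  have hc := SNU_.const_le
  have hp := SNU_.poly hr0 hr1
  have hx' : x = 1 - r ^ 2 := by rw [hr2]; ring
  have hpi : Real.log (Real.pi / 2) = Real.log Real.pi - Real.log 2 :=
    Real.log_div Real.pi_pos.ne' (by norm_num)
  rw [hpi] at hEL
  unfold co
  have hEL' : -EL (sp (87 / 100)) x ≤ 1245 / 10000 +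
        ((1 - 19 / 50 * r) ^ 2 * x + (1 - x) * (87 / 100)) / (87 / 100) ^ 2 / 2 +
        1 / 2 * ((19 / 50) ^ 2 * x) := by
    linarith
  have hxn : 0 ≤ x := by linarith
  have h1 := mul_le_mul_of_nonneg_left hEL' hxn
  have h2 : (1 - x) * (1 - EZ (sp (87 / 100))) ≤ (1 - x) *
      (1 / 3 - 2 * (1 - (87 / 100) ^ 2) / 15) := by
    apply mul_le_mul_of_nonneg_left _ hx0
    linarith
  rw [← hr2] at h2
  have h3 : 1 - x = r ^ 2 := hr2.symm
  rw [h3, hx'] at h1
  rw [h3]
  rw [hx'] at *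
  linarith

end PPW
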