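import Pool.Agent.PPW.Stmts

/-!
Module SPB: elementary properties of the Student profile.
-/

set_option autoImplicit false

namespace PPW

open MeasureTheory Set Filter Topology ProbabilityTheory
open PPI PPG PPX
open scoped Pointwise ENNReal

namespace SPB_

theorem base (a s : ℝ) : 1 ≤ 1 + s ^ 2 / a ^ 2 := by
  have : 0 ≤ s ^ 2 / a ^ 2 := by positivity
  linarith

theorem base_pos (a s : ℝ) : 0 < 1 + s ^ 2 / a ^ 2 := lt_of_lt_of_le one_pos (base a s)

noncomputable def U (a s : ℝ) : ℝ := s / a * (1 + s ^ 2 / a ^ 2) ^ (-(1 / 2 : ℝ))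

theorem rsq (w : ℝ) (hw : 0 < w) : (w ^ (-(1 / 2 : ℝ))) ^ 2 = w⁻¹ := by
  rw [← Real.rpow_natCast, ← Real.rpow_mul hw.le, ← Real.rpow_neg_one]
  norm_num

theorem r3 (w : ℝ) (hw : 0 < w) : w ^ (-(3 / 2 : ℝ)) = w⁻¹ * w ^ (-(1 / 2 : ℝ)) := by
  rw [← Real.rpow_neg_one, ← Real.rpow_add hw]
  norm_num

theorem U_sq (a s : ℝ) (_ha : 0 < a) : U a s ^ 2 = 1 - (1 + s ^ 2 / a ^ 2)⁻¹ := by
  have hw := base_pos a s
  rw [U, mul_pow, rsq _ hw, eq_sub_iff_add_eq, div_pow, ← add_one_mul, add_comm (s ^ 2 / a ^ 2) 1]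
  exact mul_inv_cancel₀ hw.ne'

theorem hasDerivAt_w (a s : ℝ) : HasDerivAt (fun s : ℝ => 1 + s ^ 2 / a ^ 2) (2 * s / a ^ 2) s := by
  have h := ((hasDerivAt_pow 2 s).div_const (a ^ 2)).const_add 1
  simpa using h

theorem hasDerivAt_U (a s : ℝ) (ha : 0 < a) : HasDerivAt (U a) (sp a s) s := by
  have hw := base_pos a s
  have h1 := (hasDerivAt_w a s).rpow_const (p := -(1 / 2 : ℝ)) (Or.inl hw.ne')
  have h2 := ((hasDerivAt_id s).div_const a).mul h1
  have h3 : (1 : ℝ) / a * (1 + s ^ 2 / a ^ 2) ^ (-(1 / 2 : ℝ)) +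
      id s / a * (2 * s / a ^ 2 * (-(1 / 2 : ℝ)) * (1 + s ^ 2 / a ^ 2) ^ (-(1 / 2 : ℝ) - 1)) =
      sp a s := by
    have e1 : (-(1 / 2 : ℝ) - 1) = -(3 / 2 : ℝ) := by norm_num
    rw [e1, sp, r3 _ hw]
    simp only [id]
    set w := 1 + s ^ 2 / a ^ 2 with hwd
    have e2 : s ^ 2 / a ^ 2 = w - 1 := by rw [hwd]; ring
    have e3 : s / a * (2 * s / a ^ 2 * (-(1 / 2 : ℝ)) * (w⁻¹ * w ^ (-(1 / 2 : ℝ)))) =
        -(1 / a) * (s ^ 2 / a ^ 2) * (w⁻¹ * w ^ (-(1 / 2 : ℝ))) := by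
      field_simp
    rw [e3, e2]
    have e4 : w * w⁻¹ = 1 := mul_inv_cancel₀ hw.ne'
    linear_combination (-(1 / a) * w ^ (-(1 / 2 : ℝ))) * e4
  rw [h3] at h2
  exact h2

theorem tendsto_w (a : ℝ) (ha : 0 < a) : Tendsto (fun s : ℝ => 1 + s ^ 2 / a ^ 2) atTop atTop := by
  refine tendsto_atTop_add_const_left _ _ ?_
  exact (tendsto_pow_atTop (by norm_num)).atTop_div_const (by positivity)

theorem tendsto_top (a : ℝ) (ha : 0 < a) : Tendsto (U a) atTop (𝓝 1) := by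
  have h1 : Tendsto (fun s : ℝ => 1 - (1 + s ^ 2 / a ^ 2)⁻¹) atTop (𝓝 (1 - 0)) :=
    tendsto_const_nhds.sub (tendsto_inv_atTop_zero.comp (tendsto_w a ha))
  have h2 := (Real.continuous_sqrt.tendsto (1 - 0)).comp h1
  rw [sub_zero, Real.sqrt_one] at h2
  refine h2.congr' ?_
  filter_upwards [eventually_ge_atTop 0] with s hs
  have h3 : 0 ≤ U a s := by
    have := base_pos a s
    rw [U]
    positivity
  simp only [Function.comp_apply]
  rw [← U_sq a s ha, Real.sqrt_sq h3]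

theorem U_neg (a s : ℝ) : U a (-s) = -U a s := by
  simp [U, neg_div]

theorem tendsto_bot (a : ℝ) (ha : 0 < a) : Tendsto (U a) atBot (𝓝 (-1)) := by
  have h := (tendsto_top a ha).neg.comp tendsto_neg_atBot_atTop
  refine h.congr fun s => ?_
  simp [U_neg]

theorem sp_eq (a s : ℝ) : sp a s = 1 / a * (1 + s ^ 2 / a ^ 2) ^ (-(3 / 2 : ℝ)) := rfl

theorem r_le_one (a s p : ℝ) (hp : 0 ≤ p) : (1 + s ^ 2 / a ^ 2) ^ (-p) ≤ 1 :=
  Real.rpow_le_one_of_one_le_of_nonpos (base a s) (by linarith)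

theorem sp_pos (a s : ℝ) (ha : 0 < a) : 0 < sp a s := by
  rw [sp_eq]
  have := base_pos a s
  positivity

theorem sp_cont (a : ℝ) : ContDiff ℝ 1 (sp a) := by
  have h : sp a = fun s => 1 / a * (1 + s ^ 2 / a ^ 2) ^ (-(3 / 2 : ℝ)) := rfl
  rw [h]
  refine contDiff_const.mul ?_
  refine ContDiff.rpow_const_of_ne ?_ fun s => (base_pos a s).ne'
  fun_prop

theorem sp_int (a : ℝ) (ha : 0 < a) (ha1 : a ≤ 1) : Integrable (sp a) := by
  have h1 : Integrable (fun s : ℝ => 1 / a * (1 + s ^ 2)⁻¹) :=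
    integrable_inv_one_add_sq.const_mul _
  refine h1.mono' (sp_cont a).continuous.aestronglyMeasurable (Eventually.of_forall fun s => ?_)
  rw [Real.norm_eq_abs, abs_of_pos (sp_pos a s ha), sp_eq]
  have hw := base_pos a s
  have h2 : (1 + s ^ 2 / a ^ 2) ^ (-(3 / 2 : ℝ)) ≤ (1 + s ^ 2 / a ^ 2)⁻¹ := by
    rw [r3 _ hw]
    have h3 := r_le_one a s (1 / 2) (by norm_num)
    have h4 : 0 < (1 + s ^ 2 / a ^ 2)⁻¹ := inv_pos.2 hw
    nlinarith
  have h3 : (1 + s ^ 2 / a ^ 2)⁻¹ ≤ (1 + s ^ 2)⁻¹ := by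
    refine inv_anti₀ (by positivity) ?_
    have h5 : s ^ 2 ≤ s ^ 2 / a ^ 2 := by
      rw [le_div_iff₀ (by positivity)]
      have : a ^ 2 ≤ 1 := by nlinarith
      nlinarith [sq_nonneg s]
    linarith
  exact mul_le_mul_of_nonneg_left (h2.trans h3) (by positivity)

theorem U_sq_mem (a s : ℝ) (ha : 0 < a) : 0 ≤ U a s ^ 2 ∧ U a s ^ 2 ≤ 1 := by
  refine ⟨sq_nonneg _, ?_⟩
  rw [U_sq a s ha]
  have := inv_pos.2 (base_pos a s)
  linarith

theorem U_cont (a : ℝ) (ha : 0 < a) : Continuous (U a) :=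
  continuous_iff_continuousAt.2 fun s => (hasDerivAt_U a s ha).continuousAt

theorem int0 (a : ℝ) (ha : 0 < a) (ha1 : a ≤ 1) : ∫ s, sp a s = 2 := by
  have h := integral_of_hasDerivAt_of_tendsto (fun s => hasDerivAt_U a s ha) (sp_int a ha ha1)
    (tendsto_bot a ha) (tendsto_top a ha)
  rw [h]
  norm_num

theorem int1i (a : ℝ) (ha : 0 < a) (ha1 : a ≤ 1) :
    Integrable fun s => (1 - U a s ^ 2) * sp a s := by
  refine (sp_int a ha ha1).mono' ?_ (Eventually.of_forall fun s => ?_)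
  · exact ((continuous_const.sub ((U_cont a ha).pow 2)).mul
      (sp_cont a).continuous).aestronglyMeasurable
  · have h1 := U_sq_mem a s ha
    have h2 := sp_pos a s ha
    rw [Real.norm_eq_abs, abs_of_nonneg (mul_nonneg (by linarith) h2.le)]
    nlinarith

theorem int1 (a : ℝ) (ha : 0 < a) (ha1 : a ≤ 1) :
    ∫ s, (1 - U a s ^ 2) * sp a s = 4 / 3 := by
  have hd : ∀ s, HasDerivAt (fun s => U a s - U a s ^ 3 / 3) ((1 - U a s ^ 2) * sp a s) s := by
    intro s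
    have h1 := hasDerivAt_U a s ha
    have h2 := h1.sub ((h1.pow 3).div_const 3)
    refine h2.congr_deriv ?_
    ring
  have h := integral_of_hasDerivAt_of_tendsto hd (int1i a ha ha1)
    ((tendsto_bot a ha).sub (((tendsto_bot a ha).pow 3).div_const 3))
    ((tendsto_top a ha).sub (((tendsto_top a ha).pow 3).div_const 3))
  rw [h]
  norm_num

theorem int2i (a : ℝ) (ha : 0 < a) (ha1 : a ≤ 1) :
    Integrable fun s => U a s ^ 2 * (1 - U a s ^ 2) * sp a s := by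
  refine (sp_int a ha ha1).mono' ?_ (Eventually.of_forall fun s => ?_)
  · exact ((((U_cont a ha).pow 2).mul (continuous_const.sub ((U_cont a ha).pow 2))).mul
      (sp_cont a).continuous).aestronglyMeasurable
  · have h1 := U_sq_mem a s ha
    have h2 := sp_pos a s ha
    have h3 : 0 ≤ U a s ^ 2 * (1 - U a s ^ 2) := mul_nonneg h1.1 (by linarith)
    rw [Real.norm_eq_abs, abs_of_nonneg (mul_nonneg h3 h2.le)]
    have h4 : U a s ^ 2 * (1 - U a s ^ 2) ≤ 1 := by nlinarith [h1.1, h1.2]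
    nlinarith

theorem int2 (a : ℝ) (ha : 0 < a) (ha1 : a ≤ 1) :
    ∫ s, U a s ^ 2 * (1 - U a s ^ 2) * sp a s = 4 / 15 := by
  have hd : ∀ s, HasDerivAt (fun s => U a s ^ 3 / 3 - U a s ^ 5 / 5)
      (U a s ^ 2 * (1 - U a s ^ 2) * sp a s) s := by
    intro s
    have h1 := hasDerivAt_U a s ha
    have h2 := ((h1.pow 3).div_const 3).sub ((h1.pow 5).div_const 5)
    refine h2.congr_deriv ?_
    ring
  have h := integral_of_hasDerivAt_of_tendsto hd (int2i a ha ha1)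
    ((((tendsto_bot a ha).pow 3).div_const 3).sub (((tendsto_bot a ha).pow 5).div_const 5))
    ((((tendsto_top a ha).pow 3).div_const 3).sub (((tendsto_top a ha).pow 5).div_const 5))
  rw [h]
  norm_num

theorem meas1 (a : ℝ) : Integrable (sp a) → Integrable fun s => sp a s / (1 + s ^ 2) := by
  intro h
  refine h.mono (((sp_cont a).continuous.div (by fun_prop)
    fun s => by positivity)).aestronglyMeasurable (Eventually.of_forall fun s => ?_)
  rw [norm_div, Real.norm_eq_abs (1 + s ^ 2), abs_of_nonneg (by positivity)]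
  exact div_le_self (norm_nonneg _) (by nlinarith [sq_nonneg s])

theorem meas2 (a : ℝ) : Integrable (sp a) → Integrable fun s => sp a s * (s ^ 2 / (1 + s ^ 2)) := by
  intro h
  refine h.mono (((sp_cont a).continuous.mul ((by fun_prop : Continuous fun s : ℝ => s ^ 2).div
    (by fun_prop) fun s => by positivity))).aestronglyMeasurable (Eventually.of_forall fun s => ?_)
  rw [norm_mul, Real.norm_eq_abs (s ^ 2 / (1 + s ^ 2)), abs_of_nonneg (by positivity)]
  refine mul_le_of_le_one_right (norm_nonneg _) ?_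
  rw [div_le_one (by positivity)]
  linarith

end SPB_

open SPB_ in
theorem spb_proof : Stmt_SPB := by
  intro a ha1 ha2
  have ha : 0 < a := by linarith
  have hI := sp_int a ha ha2
  have hint := int0 a ha ha2
  have hsum : EZ (sp a) + ML (sp a) = 1 := by
    rw [EZ, ML, ← mul_add, ← integral_add (meas1 a hI) (meas2 a hI)]
    have h1 : ∀ s, sp a s / (1 + s ^ 2) + sp a s * (s ^ 2 / (1 + s ^ 2)) = sp a s := by
      intro s
      have : (1 + s ^ 2 : ℝ) ≠ 0 := by positivity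
      field_simp
    simp_rw [h1]
    rw [hint]
    norm_num
  have hEZ0 : 0 ≤ EZ (sp a) := by
    rw [EZ]
    refine mul_nonneg (by norm_num) (integral_nonneg fun s => ?_)
    have := sp_pos a s ha
    positivity
  refine ⟨fun s => ⟨sp_pos a s ha, ?_, ?_⟩, sp_cont a, fun s => ?_, ?_, by linarith, by linarith,
    ?_⟩
  · rw [sp_eq]
    have h1 := r_le_one a s (3 / 2) (by norm_num)
    have h2 : 1 / a ≤ 5 / 4 := by
      rw [div_le_iff₀ ha]
      linarith
    have h3 : 0 < (1 + s ^ 2 / a ^ 2) ^ (-(3 / 2 : ℝ)) := by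
      have := base_pos a s
      positivity
    calc 1 / a * (1 + s ^ 2 / a ^ 2) ^ (-(3 / 2 : ℝ)) ≤ 5 / 4 * 1 :=
          mul_le_mul h2 h1 h3.le (by norm_num)
      _ ≤ 2 := by norm_num
  · rw [sp_eq, sp_eq, neg_sq]
  · have hw := base_pos a s
    have h1 := ((hasDerivAt_w a s).rpow_const (p := -(3 / 2 : ℝ)) (Or.inl hw.ne')).const_mul (1 / a)
    have h2 : deriv (sp a) s = 1 / a * (2 * s / a ^ 2 * (-(3 / 2 : ℝ)) *
        (1 + s ^ 2 / a ^ 2) ^ (-(3 / 2 : ℝ) - 1)) := h1.deriv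
    have e1 : (-(3 / 2 : ℝ) - 1) = -(1 : ℝ) - 3 / 2 := by norm_num
    rw [h2, e1, Real.rpow_sub hw, Real.rpow_neg_one]
    set w := 1 + s ^ 2 / a ^ 2 with hwd
    have h3 : |s / a| ≤ w := by
      have h4 : |s / a| ^ 2 = s ^ 2 / a ^ 2 := by rw [sq_abs, div_pow]
      nlinarith [sq_nonneg (|s / a| - 1), abs_nonneg (s / a)]
    have h5 : 1 ≤ w ^ (3 / 2 : ℝ) := Real.one_le_rpow (base a s) (by norm_num)
    have h6 : 1 / a * (2 * s / a ^ 2 * (-(3 / 2 : ℝ)) * (w⁻¹ / w ^ (3 / 2 : ℝ))) =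
        -(3 / a ^ 2) * ((s / a) / w) * (w ^ (3 / 2 : ℝ))⁻¹ := by
      field_simp
    rw [h6, abs_mul, abs_mul, abs_neg, abs_div, abs_div (s / a), abs_of_pos (show (0:ℝ) < 3 by norm_num),
      abs_of_pos (show (0:ℝ) < a ^ 2 by positivity), abs_of_pos hw,
      abs_of_pos (show 0 < (w ^ (3 / 2 : ℝ))⁻¹ by positivity)]
    have h7 : 3 / a ^ 2 ≤ 10 := by
      rw [div_le_iff₀ (by positivity)]
      nlinarith
    have h8 : |s / a| / w ≤ 1 := by
      rw [div_le_one hw]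
      exact h3
    have h9 : (w ^ (3 / 2 : ℝ))⁻¹ ≤ 1 := inv_le_one_of_one_le₀ h5
    calc 3 / a ^ 2 * (|s / a| / w) * (w ^ (3 / 2 : ℝ))⁻¹ ≤ 10 * 1 * 1 := by gcongr
      _ = 10 := by norm_num
  · rw [← ofReal_integral_eq_lintegral_ofReal hI
      (Eventually.of_forall fun s => (sp_pos a s ha).le), hint]
    norm_num
  · have hpt : ∀ s, (1 - U a s ^ 2) * sp a s + (1 - a ^ 2) * (U a s ^ 2 * (1 - U a s ^ 2) * sp a s) ≤
        sp a s / (1 + s ^ 2) := by
      intro s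
      have hw := base_pos a s
      have hs := sp_pos a s ha
      rw [U_sq a s ha]
      set w := 1 + s ^ 2 / a ^ 2 with hwd
      have e1 : 1 + s ^ 2 = 1 + a ^ 2 * (w - 1) := by
        rw [hwd]
        field_simp
        ring
      have hpos : 0 < 1 + a ^ 2 * (w - 1) := by
        rw [← e1]
        positivity
      rw [e1]
      have h1 : (1 - (1 - w⁻¹)) * sp a s + (1 - a ^ 2) * ((1 - w⁻¹) * (1 - (1 - w⁻¹)) * sp a s) =
          sp a s * (w⁻¹ * (1 + (1 - a ^ 2) * (1 - w⁻¹))) := by ring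
      rw [h1, div_eq_mul_inv]
      refine mul_le_mul_of_nonneg_left ?_ hs.le
      rw [le_inv_comm₀ ?_ hpos]
      · have h2 : (w⁻¹ * (1 + (1 - a ^ 2) * (1 - w⁻¹)))⁻¹ = w / (1 + (1 - a ^ 2) * (1 - w⁻¹)) := by
          rw [mul_inv, inv_inv, div_eq_mul_inv]
        have h0 : 0 ≤ (1 - a ^ 2) * (1 - w⁻¹) := by
          have h3 : w⁻¹ ≤ 1 := inv_le_one_of_one_le₀ (base a s)
          have h4 : a ^ 2 ≤ 1 := by nlinarith
          exact mul_nonneg (by linarith) (by linarith)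
        rw [h2, le_div_iff₀ (by linarith)]
        have h5 : w * w⁻¹ = 1 := mul_inv_cancel₀ hw.ne'
        have h6 : 1 + a ^ 2 * (w - 1) = w * (1 - (1 - a ^ 2) * (1 - w⁻¹)) := by
          linear_combination (-(1 - a ^ 2)) * h5
        rw [h6]
        nlinarith [mul_nonneg hw.le (sq_nonneg ((1 - a ^ 2) * (1 - w⁻¹)))]
      · have h3 : w⁻¹ ≤ 1 := inv_le_one_of_one_le₀ (base a s)
        have h4 : a ^ 2 ≤ 1 := by nlinarith
        have h0 : 0 ≤ (1 - a ^ 2) * (1 - w⁻¹) := mul_nonneg (by linarith) (by linarith)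
        have := inv_pos.2 hw
        positivity
    have h1 : ∫ s, ((1 - U a s ^ 2) * sp a s +
        (1 - a ^ 2) * (U a s ^ 2 * (1 - U a s ^ 2) * sp a s)) ≤ ∫ s, sp a s / (1 + s ^ 2) :=
      integral_mono ((int1i a ha ha2).add ((int2i a ha ha2).const_mul (1 - a ^ 2)))
        (meas1 a hI) hpt
    have h2 : ∫ s, ((1 - U a s ^ 2) * sp a s +
        (1 - a ^ 2) * (U a s ^ 2 * (1 - U a s ^ 2) * sp a s)) =
        4 / 3 + (1 - a ^ 2) * (4 / 15) := by
      rw [← int1 a ha ha2, ← int2 a ha ha2, ← integral_const_mul]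
      exact integral_add (int1i a ha ha2) ((int2i a ha ha2).const_mul (1 - a ^ 2))
    rw [h2] at h1
    rw [EZ]
    linarith

end PPW
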