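import Pool.Agent.PPW.Stmts

set_option autoImplicit false

namespace PPW

open MeasureTheory Set Filter Topology ProbabilityTheory
open PPI PPG PPX
open scoped Pointwise ENNReal

noncomputable section

namespace SPF_

lemma int_rpow (s : ℝ) (hs : 0 < s) : Integrable (fun t : ℝ => t ^ (s - 1)) ex := by
  unfold ex
  rw [integrable_withDensity_iff_integrable_smul' (by fun_prop)
    (ae_of_all _ fun _ => ENNReal.ofReal_lt_top)]
  have h := Real.GammaIntegral_convergent hs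
  refine h.congr ?_
  refine ae_of_all _ fun t => ?_
  simp only [smul_eq_mul]
  rw [ENNReal.toReal_ofReal (Real.exp_pos _).le]

lemma int_id_ga : Integrable (fun v : ℝ => v ^ 2) ga1 := by
  unfold ga1
  have h : MemLp (id : ℝ → ℝ) 2 (gaussianReal 0 1) := memLp_id_gaussianReal 2
  have := (memLp_two_iff_integrable_sq (f := (id : ℝ → ℝ)) (μ := gaussianReal 0 1)
    aestronglyMeasurable_id).1 h
  simpa using this

lemma sg_pos {t : ℝ} (ht : 0 < t) : 0 < sg t := by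
  unfold sg; positivity

lemma sg_sq {t : ℝ} (ht : 0 < t) : sg t ^ 2 = 1 / (2 * t) := by
  unfold sg
  rw [inv_pow, Real.sq_sqrt (by positivity), one_div]

lemma meas_sg : Measurable sg := by
  unfold sg; fun_prop

lemma meas_sp (a : ℝ) : Measurable (sp a) := by
  unfold sp; fun_prop

lemma sp_le {a : ℝ} (ha : 4 / 5 ≤ a) (s : ℝ) : sp a s ≤ 2 := by
  unfold sp
  have h1 : 1 / a ≤ 5 / 4 := by
    rw [div_le_iff₀ (by linarith)]; linarith
  have h2 : (1 + s ^ 2 / a ^ 2) ^ (-(3 / 2 : ℝ)) ≤ 1 :=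
    Real.rpow_le_one_of_one_le_of_nonpos (by
      have : 0 ≤ s ^ 2 / a ^ 2 := by positivity
      linarith) (by norm_num)
  have h3 : 0 ≤ (1 + s ^ 2 / a ^ 2) ^ (-(3 / 2 : ℝ)) := by positivity
  nlinarith

lemma sp_pos {a : ℝ} (ha : 4 / 5 ≤ a) (s : ℝ) : 0 < sp a s := by
  unfold sp; positivity

/-- the basic lower bound of the integrand -/
lemma sp_low {a x : ℝ} (ha : 4 / 5 ≤ a) (ha1 : a ≤ 1) (hx0 : 0 ≤ x) (hx1 : x ≤ 1)
    (s u v : ℝ) :
    (1 + 4 * s ^ 2) ^ (-(3 / 2 : ℝ)) * (1 + u ^ 2) ^ (-(3 / 2 : ℝ)) *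
      (1 + v ^ 2) ^ (-(3 / 2 : ℝ)) ≤ sp a (s * (√x * u + √(1 - x) * v)) := by
  unfold sp
  have ha0 : 0 < a := by linarith
  have hsx : √x ^ 2 = x := Real.sq_sqrt hx0
  have hsx1 : √(1 - x) ^ 2 = 1 - x := Real.sq_sqrt (by linarith)
  have hc : (√x * u + √(1 - x) * v) ^ 2 ≤ u ^ 2 + v ^ 2 := by
    have : (√x * u + √(1 - x) * v) ^ 2 + (√(1 - x) * u - √x * v) ^ 2 =
      (√x ^ 2 + √(1 - x) ^ 2) * (u ^ 2 + v ^ 2) := by ring
    rw [hsx, hsx1] at this
    nlinarith [sq_nonneg (√(1 - x) * u - √x * v)]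
  have hb : 1 + (s * (√x * u + √(1 - x) * v)) ^ 2 / a ^ 2 ≤
      (1 + 4 * s ^ 2) * (1 + u ^ 2) * (1 + v ^ 2) := by
    have h1 : (s * (√x * u + √(1 - x) * v)) ^ 2 / a ^ 2 ≤ 4 * s ^ 2 * (u ^ 2 + v ^ 2) := by
      rw [div_le_iff₀ (by positivity), mul_pow]
      have h2 : s ^ 2 * (√x * u + √(1 - x) * v) ^ 2 ≤ s ^ 2 * (u ^ 2 + v ^ 2) :=
        mul_le_mul_of_nonneg_left hc (by positivity)
      have h3 : (1 : ℝ) ≤ 4 * a ^ 2 := by nlinarith
      have h4 : 0 ≤ s ^ 2 * (u ^ 2 + v ^ 2) := by positivity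
      nlinarith
    have h5 : 0 ≤ u ^ 2 * v ^ 2 := by positivity
    have h6 : 0 ≤ s ^ 2 * (u ^ 2 * v ^ 2) := by positivity
    have h7 : 0 ≤ s ^ 2 := by positivity
    nlinarith [sq_nonneg u, sq_nonneg v]
  have h1a : 1 ≤ 1 / a := by
    rw [le_div_iff₀ ha0]; linarith
  have hpos : 0 < 1 + (s * (√x * u + √(1 - x) * v)) ^ 2 / a ^ 2 := by positivity
  calc (1 + 4 * s ^ 2) ^ (-(3 / 2 : ℝ)) * (1 + u ^ 2) ^ (-(3 / 2 : ℝ)) *
      (1 + v ^ 2) ^ (-(3 / 2 : ℝ))
      = ((1 + 4 * s ^ 2) * (1 + u ^ 2) * (1 + v ^ 2)) ^ (-(3 / 2 : ℝ)) := by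
        rw [Real.mul_rpow (by positivity) (by positivity),
          Real.mul_rpow (by positivity) (by positivity)]
    _ ≤ (1 + (s * (√x * u + √(1 - x) * v)) ^ 2 / a ^ 2) ^ (-(3 / 2 : ℝ)) :=
        Real.rpow_le_rpow_of_nonpos hpos hb (by norm_num)
    _ ≤ 1 / a * (1 + (s * (√x * u + √(1 - x) * v)) ^ 2 / a ^ 2) ^ (-(3 / 2 : ℝ)) := by
        have : 0 ≤ (1 + (s * (√x * u + √(1 - x) * v)) ^ 2 / a ^ 2) ^ (-(3 / 2 : ℝ)) := by
          positivity
        nlinarith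

/-- the constant -/
def k0 : ℝ := ∫ v, (1 + v ^ 2) ^ (-(3 / 2 : ℝ)) ∂ga1

instance : IsProbabilityMeasure ga1 := by unfold ga1; infer_instance

lemma int_k0 : Integrable (fun v : ℝ => (1 + v ^ 2) ^ (-(3 / 2 : ℝ))) ga1 := by
  refine Integrable.of_bound (C := 1)
    (Measurable.aestronglyMeasurable ((by fun_prop : Measurable fun v : ℝ => 1 + v ^ 2).pow_const _))
    (ae_of_all _ fun v => ?_)
  rw [Real.norm_of_nonneg (by positivity)]
  exact Real.rpow_le_one_of_one_le_of_nonpos (by nlinarith [sq_nonneg v]) (by norm_num)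

lemma k0_pos : 0 < k0 := by
  unfold k0
  rw [integral_pos_iff_support_of_nonneg (fun v => by positivity) int_k0]
  have : Function.support (fun v : ℝ => (1 + v ^ 2) ^ (-(3 / 2 : ℝ))) = univ := by
    ext v
    simp only [Function.mem_support, mem_univ, iff_true]
    positivity
  rw [this]
  simp

lemma int_zb {a : ℝ} (ha : 4 / 5 ≤ a) (s y z : ℝ) :
    Integrable (fun v : ℝ => sp a (s * (y + z * v))) ga1 := by
  refine Integrable.of_bound (C := 2) ?_ (ae_of_all _ fun v => ?_)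
  · exact ((meas_sp a).comp (by fun_prop)).aestronglyMeasurable
  · rw [Real.norm_of_nonneg (sp_pos ha _).le]
    exact sp_le ha _

/-- the lower bound of zb -/
def k1 : ℝ := √(Real.pi / 2) * k0

lemma k1_pos : 0 < k1 := by
  unfold k1
  have := k0_pos
  have := Real.pi_pos
  positivity

lemma zb_low {a x : ℝ} (ha : 4 / 5 ≤ a) (ha1 : a ≤ 1) (hx0 : 0 ≤ x) (hx1 : x ≤ 1)
    {t : ℝ} (ht : 0 < t) (u : ℝ) :
    k1 * (sg t * (1 + 4 * sg t ^ 2) ^ (-(3 / 2 : ℝ)) * (1 + u ^ 2) ^ (-(3 / 2 : ℝ))) ≤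
      zb (sp a) x t u := by
  unfold zb k1
  have h : (1 + 4 * sg t ^ 2) ^ (-(3 / 2 : ℝ)) * (1 + u ^ 2) ^ (-(3 / 2 : ℝ)) * k0 ≤
      ∫ v, sp a (sg t * (√x * u + √(1 - x) * v)) ∂ga1 := by
    unfold k0
    rw [← integral_const_mul]
    exact integral_mono (int_k0.const_mul _) (int_zb ha _ _ _) fun v =>
      sp_low ha ha1 hx0 hx1 (sg t) u v
  have hs := sg_pos ht
  have hp : 0 ≤ √(Real.pi / 2) * sg t := by positivity
  calc √(Real.pi / 2) * k0 * (sg t * (1 + 4 * sg t ^ 2) ^ (-(3 / 2 : ℝ)) *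
        (1 + u ^ 2) ^ (-(3 / 2 : ℝ)))
      = √(Real.pi / 2) * sg t * ((1 + 4 * sg t ^ 2) ^ (-(3 / 2 : ℝ)) *
        (1 + u ^ 2) ^ (-(3 / 2 : ℝ)) * k0) := by ring
    _ ≤ _ := mul_le_mul_of_nonneg_left h hp

lemma zb_up {a x : ℝ} (ha : 4 / 5 ≤ a) {t : ℝ} (ht : 0 < t) (u : ℝ) :
    zb (sp a) x t u ≤ √(Real.pi / 2) * sg t * 2 := by
  unfold zb
  have hs := sg_pos ht
  have hp : 0 ≤ √(Real.pi / 2) * sg t := by positivity
  refine mul_le_mul_of_nonneg_left ?_ hp
  calc ∫ v, sp a (sg t * (√x * u + √(1 - x) * v)) ∂ga1 ≤ ∫ v, (2 : ℝ) ∂ga1 :=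
        integral_mono (int_zb ha _ _ _) (integrable_const _) fun v => sp_le ha _
    _ = 2 := by simp

/-- the logarithm of the lower bound -/
lemma log_low {t : ℝ} (ht : 0 < t) (u : ℝ) :
    Real.log (k1 * (sg t * (1 + 4 * sg t ^ 2) ^ (-(3 / 2 : ℝ)) *
      (1 + u ^ 2) ^ (-(3 / 2 : ℝ)))) =
    Real.log k1 - 1 / 2 * Real.log 2 + Real.log t - 3 / 2 * Real.log (t + 2) -
      3 / 2 * Real.log (1 + u ^ 2) := by
  have hs := sg_pos ht
  have hk := k1_pos
  have h1 : 0 < 1 + 4 * sg t ^ 2 := by positivity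
  have h2 : 0 < 1 + u ^ 2 := by positivity
  rw [Real.log_mul hk.ne' (by positivity), Real.log_mul (by positivity) (by positivity),
    Real.log_mul hs.ne' (by positivity), Real.log_rpow h1, Real.log_rpow h2]
  have h3 : Real.log (sg t) = -(1 / 2) * (Real.log 2 + Real.log t) := by
    unfold sg
    rw [Real.log_inv, Real.log_sqrt (by positivity), Real.log_mul (by norm_num) ht.ne']
    ring
  have h4 : 1 + 4 * sg t ^ 2 = (t + 2) / t := by
    rw [sg_sq ht]; field_simp; ring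
  rw [h3, h4, Real.log_div (by positivity) ht.ne']
  ring

lemma log_le_self' {y : ℝ} (hy : 0 < y) : Real.log y ≤ y - 1 := Real.log_le_sub_one_of_pos hy

lemma abs_log_le {t : ℝ} (ht : 0 < t) : |Real.log t| ≤ t + 10 * t ^ ((9 / 10 : ℝ) - 1) := by
  have h1 := Real.log_le_sub_one_of_pos ht
  have hp : 0 < t ^ ((9 / 10 : ℝ) - 1) := Real.rpow_pos_of_pos ht _
  have h2 := Real.log_le_sub_one_of_pos hp
  rw [Real.log_rpow ht] at h2
  rw [abs_le]
  constructor <;> linarith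

lemma zb_pos {a x : ℝ} (ha : 4 / 5 ≤ a) (ha1 : a ≤ 1) (hx0 : 0 ≤ x) (hx1 : x ≤ 1)
    {t : ℝ} (ht : 0 < t) (u : ℝ) : 0 < zb (sp a) x t u := by
  refine lt_of_lt_of_le ?_ (zb_low ha ha1 hx0 hx1 ht u)
  have hs := sg_pos ht
  have hk := k1_pos
  positivity

/-- the bound of the logarithm -/
lemma abs_log_zb {a x : ℝ} (ha : 4 / 5 ≤ a) (ha1 : a ≤ 1) (hx0 : 0 ≤ x) (hx1 : x ≤ 1)
    {t : ℝ} (ht : 0 < t) (u : ℝ) :
    |Real.log (zb (sp a) x t u)| ≤
      (|Real.log k1| + |Real.log (√(Real.pi / 2) * 2)| + 3) +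
        (t + 10 * t ^ ((9 / 10 : ℝ) - 1)) + 3 / 2 * t + 3 / 2 * u ^ 2 := by
  have hs := sg_pos ht
  have hk := k1_pos
  have h0 := zb_pos ha ha1 hx0 hx1 ht u
  have hl : Real.log k1 - 1 / 2 * Real.log 2 + Real.log t - 3 / 2 * Real.log (t + 2) -
      3 / 2 * Real.log (1 + u ^ 2) ≤ Real.log (zb (sp a) x t u) := by
    rw [← log_low ht u]
    exact Real.log_le_log (by positivity) (zb_low ha ha1 hx0 hx1 ht u)
  have hu : Real.log (zb (sp a) x t u) ≤ Real.log (√(Real.pi / 2) * 2) -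
      1 / 2 * (Real.log 2 + Real.log t) := by
    have h3 : Real.log (sg t) = -(1 / 2) * (Real.log 2 + Real.log t) := by
      unfold sg
      rw [Real.log_inv, Real.log_sqrt (by positivity), Real.log_mul (by norm_num) ht.ne']
      ring
    have h4 := Real.log_le_log h0 (zb_up (x := x) ha ht u)
    have hpi := Real.pi_pos
    have h5 : √(Real.pi / 2) * sg t * 2 = (√(Real.pi / 2) * 2) * sg t := by ring
    rw [h5, Real.log_mul (by positivity) hs.ne', h3] at h4
    linarith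
  have h1 := abs_log_le ht
  have h1a := abs_le.1 h1
  have h2 : 0 < Real.log 2 := Real.log_pos (by norm_num)
  have h2' : Real.log 2 ≤ 1 := by
    have := Real.log_le_sub_one_of_pos (show (0 : ℝ) < 2 by norm_num)
    linarith
  have h3 : Real.log (t + 2) ≤ t + 2 - 1 := Real.log_le_sub_one_of_pos (by positivity)
  have h4 : Real.log (1 + u ^ 2) ≤ 1 + u ^ 2 - 1 := Real.log_le_sub_one_of_pos (by positivity)
  have h5 := neg_abs_le (Real.log k1)
  have h6 := le_abs_self (Real.log (√(Real.pi / 2) * 2))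
  have h7 : 0 ≤ |Real.log (√(Real.pi / 2) * 2)| := abs_nonneg _
  have h8 : 0 ≤ |Real.log k1| := abs_nonneg _
  have h9 : 0 < t ^ ((9 / 10 : ℝ) - 1) := Real.rpow_pos_of_pos ht _
  rw [abs_le]
  constructor
  · linarith [h1a.1]
  · nlinarith [h1a.1, sq_nonneg u]

lemma meas_zb (a x : ℝ) : Measurable (fun z : ℝ × ℝ => zb (sp a) x z.1 z.2) := by
  unfold zb
  have h1 : StronglyMeasurable (fun z : ℝ × ℝ => ∫ v, sp a (sg z.1 * (√x * z.2 +
      √(1 - x) * v)) ∂ga1) := by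
    refine StronglyMeasurable.integral_prod_right
      (f := fun (z : ℝ × ℝ) (v : ℝ) => sp a (sg z.1 * (√x * z.2 + √(1 - x) * v))) ?_
    refine Measurable.stronglyMeasurable ?_
    refine (meas_sp a).comp ?_
    refine Measurable.mul (meas_sg.comp (by fun_prop)) (by fun_prop)
  exact ((measurable_const.mul (meas_sg.comp measurable_fst))).mul h1.measurable

end SPF_

open SPF_

theorem spf_proof (hSPB : Stmt_SPB) (hEXB : Stmt_EXB) : Stmt_SPF := by
  obtain ⟨hpr, -, -, hpos, hid, -⟩ := hEXB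
  have hposP : ∀ᵐ z ∂(ex.prod ga1), 0 < z.1 := by
    have := (Measure.quasiMeasurePreserving_fst (μ := ex) (ν := ga1)).ae hpos
    exact this
  have hI9 : Integrable (fun z : ℝ × ℝ => z.1 ^ ((9 / 10 : ℝ) - 1)) (ex.prod ga1) :=
    (int_rpow (9 / 10) (by norm_num)).comp_fst ga1
  have hI1 : Integrable (fun z : ℝ × ℝ => z.1) (ex.prod ga1) := hid.comp_fst ga1
  have hI2 : Integrable (fun z : ℝ × ℝ => z.2 ^ 2) (ex.prod ga1) := int_id_ga.comp_snd ex
  have hlog : ∀ a x : ℝ, 4 / 5 ≤ a → a ≤ 1 → 22 / 25 ≤ x → x ≤ 1 →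
      Integrable (fun z : ℝ × ℝ => Real.log (zb (sp a) x z.1 z.2)) (ex.prod ga1) := by
    intro a x ha ha1 hx hx1
    refine Integrable.mono' (g := fun z : ℝ × ℝ =>
      (|Real.log k1| + |Real.log (√(Real.pi / 2) * 2)| + 3) +
        (z.1 + 10 * z.1 ^ ((9 / 10 : ℝ) - 1)) + 3 / 2 * z.1 + 3 / 2 * z.2 ^ 2) ?_ ?_ ?_
    · exact (((integrable_const _).add (hI1.add (hI9.const_mul 10))).add
        (hI1.const_mul _)).add (hI2.const_mul _)
    · exact (Real.measurable_log.comp (meas_zb a x)).aestronglyMeasurable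
    · filter_upwards [hposP] with z hz
      exact abs_log_zb ha ha1 (by linarith) hx1 hz z.2
  refine ⟨hlog, ?_⟩
  -- the dominating function
  set G : ℝ × ℝ → ℝ := fun z => (z.1 ^ ((9 / 10 : ℝ) - 1) * (z.1 + 2)) * (1 + z.2 ^ 2) with hG
  have hIG1 : Integrable (fun t : ℝ => t ^ ((9 / 10 : ℝ) - 1) * (t + 2)) ex := by
    have h1 := int_rpow (19 / 10) (by norm_num)
    have h2 := (int_rpow (9 / 10) (by norm_num)).const_mul 2
    refine (h1.add h2).congr ?_
    filter_upwards [hpos] with t ht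
    simp only [Pi.add_apply]
    have : t ^ ((19 / 10 : ℝ) - 1) = t ^ ((9 / 10 : ℝ) - 1) * t := by
      rw [← Real.rpow_add_one ht.ne']; norm_num
    rw [this]; ring
  have hIG : Integrable G (ex.prod ga1) := by
    have h2 : Integrable (fun u : ℝ => 1 + u ^ 2) ga1 := (integrable_const _).add int_id_ga
    exact hIG1.mul_prod h2
  set D : ℝ := Real.exp (-(1 / 10) * (Real.log k1 - 1 / 2 * Real.log 2)) with hD
  have hD0 : 0 < D := Real.exp_pos _
  have hGnn : ∀ᵐ z ∂(ex.prod ga1), 0 ≤ G z := by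
    filter_upwards [hposP] with z hz
    simp only [hG]
    positivity
  have hJ : 0 ≤ ∫ z, G z ∂(ex.prod ga1) := integral_nonneg_of_ae hGnn
  set J : ℝ := ∫ z, G z ∂(ex.prod ga1) with hJd
  refine ⟨20 + D * J, by positivity, ?_⟩
  intro a x ha ha1 hx hx1 hco
  obtain ⟨hs, hdif, hder, hmass, hML, hEZ, -⟩ := hSPB a ha ha1
  have hx0 : 0 < x := by linarith
  have hC : 20 ≤ 20 + D * J := by
    have : 0 ≤ D * J := by positivity
    linarith
  refine ⟨fun s => (hs s).1, fun s => (hs s).2.2, hdif, ?_, ?_, hmass.le, ?_, ?_, ?_,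
    hlog a x ha ha1 hx hx1, hco⟩
  · intro s
    refine (hder s).trans ?_
    rw [le_div_iff₀ hx0]
    nlinarith
  · intro s
    refine (hs s).2.1.trans ?_
    have h1 : √x ≤ 1 := by
      exact Real.sqrt_le_one.2 hx1
    have h2 : 0 < √x := Real.sqrt_pos.2 hx0
    rw [le_div_iff₀ h2]
    nlinarith
  · nlinarith
  · rw [hEZ]
    nlinarith
  · intro r hr
    have hle : ∀ᵐ z ∂(ex.prod ga1), z ∈ {z : ℝ × ℝ | zb (sp a) x z.1 z.2 < r} →
        z ∈ {z : ℝ × ℝ | 1 ≤ ENNReal.ofReal (r ^ (1 / 10 : ℝ) * (D * G z))} := by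
      filter_upwards [hposP] with z hz hzr
      change zb (sp a) x z.1 z.2 < r at hzr
      change 1 ≤ ENNReal.ofReal (r ^ (1 / 10 : ℝ) * (D * G z))
      rw [← ENNReal.ofReal_one]
      refine ENNReal.ofReal_le_ofReal ?_
      have hlow := zb_low ha ha1 hx0.le hx1 hz z.2
      have hsg := sg_pos hz
      have hk := k1_pos
      have hlr := Real.log_lt_log (by positivity) (lt_of_le_of_lt hlow hzr)
      rw [log_low hz z.2] at hlr
      have e1 : r ^ (1 / 10 : ℝ) = Real.exp (1 / 10 * Real.log r) := by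
        rw [Real.rpow_def_of_pos hr, mul_comm]
      have e2 : Real.exp (3 / 20 * Real.log (z.1 + 2)) ≤ z.1 + 2 := by
        have h0 : 0 < z.1 + 2 := by linarith
        calc Real.exp (3 / 20 * Real.log (z.1 + 2)) ≤ Real.exp (Real.log (z.1 + 2)) := by
              apply Real.exp_le_exp.2
              have : 0 ≤ Real.log (z.1 + 2) := Real.log_nonneg (by linarith)
              linarith
          _ = z.1 + 2 := Real.exp_log h0
      have e3 : Real.exp (3 / 20 * Real.log (1 + z.2 ^ 2)) ≤ 1 + z.2 ^ 2 := by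
        have h0 : 0 < 1 + z.2 ^ 2 := by positivity
        calc Real.exp (3 / 20 * Real.log (1 + z.2 ^ 2)) ≤ Real.exp (Real.log (1 + z.2 ^ 2)) := by
              apply Real.exp_le_exp.2
              have : 0 ≤ Real.log (1 + z.2 ^ 2) := Real.log_nonneg (by nlinarith [sq_nonneg z.2])
              linarith
          _ = 1 + z.2 ^ 2 := Real.exp_log h0
      have e4 : z.1 ^ ((9 / 10 : ℝ) - 1) = Real.exp (-(1 / 10) * Real.log z.1) := by
        rw [Real.rpow_def_of_pos hz]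
        ring_nf
      have hstep : (1 : ℝ) ≤ Real.exp (1 / 10 * Real.log r) *
          (D * ((Real.exp (-(1 / 10) * Real.log z.1) *
            Real.exp (3 / 20 * Real.log (z.1 + 2))) *
            Real.exp (3 / 20 * Real.log (1 + z.2 ^ 2)))) := by
        rw [hD, ← Real.exp_add, ← Real.exp_add, ← Real.exp_add, ← Real.exp_add,
          Real.one_le_exp_iff]
        linarith
      refine hstep.trans ?_
      rw [e1]
      simp only [hG]
      rw [e4]
      gcongr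
    have hmeas : AEMeasurable (fun z => ENNReal.ofReal (r ^ (1 / 10 : ℝ) * (D * G z)))
        (ex.prod ga1) :=
      ((hIG.const_mul D).const_mul _).aestronglyMeasurable.aemeasurable.ennreal_ofReal
    calc (ex.prod ga1) {z : ℝ × ℝ | zb (sp a) x z.1 z.2 < r}
        ≤ (ex.prod ga1) {z : ℝ × ℝ | 1 ≤ ENNReal.ofReal (r ^ (1 / 10 : ℝ) * (D * G z))} :=
          measure_mono_ae hle
      _ ≤ ∫⁻ z, ENNReal.ofReal (r ^ (1 / 10 : ℝ) * (D * G z)) ∂(ex.prod ga1) := by
          have := mul_meas_ge_le_lintegral₀ hmeas 1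
          rwa [one_mul] at this
      _ = ENNReal.ofReal (∫ z, r ^ (1 / 10 : ℝ) * (D * G z) ∂(ex.prod ga1)) := by
          rw [ofReal_integral_eq_lintegral_ofReal ((hIG.const_mul D).const_mul _)]
          filter_upwards [hGnn] with z hz
          simp only [Pi.zero_apply]
          positivity
      _ = ENNReal.ofReal (r ^ (1 / 10 : ℝ) * (D * J)) := by
          rw [integral_const_mul, integral_const_mul]
      _ ≤ ENNReal.ofReal ((20 + D * J) * r ^ (1 / 10 : ℝ)) := by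
          refine ENNReal.ofReal_le_ofReal ?_
          have : 0 < r ^ (1 / 10 : ℝ) := Real.rpow_pos_of_pos hr _
          nlinarith

end

end PPW
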