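import Pool.Agent.PPW.Stmts
import Pool.Agent.PPX.Stmts2

/-!
# Squad PPW (MP_0bf616_gt): stability for all families, bodies, the equality case.
Recipes: /team-store/MP_0bf616_PPW.md
-/

set_option autoImplicit false

namespace PPW

open MeasureTheory Set Filter Topology ProbabilityTheory
open PPI PPG PPX
open scoped Pointwise ENNReal

noncomputable section

/-- the support function -/
def sf {n : ℕ} (K : Set (EE n)) (v : EE n) : ℝ := sSup ((fun x => inner ℝ x v) '' K)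

/-- the reflection in the hyperplane orthogonal to the unit vector `u` -/
def rf {n : ℕ} (u x : EE n) : EE n := x - (2 * inner ℝ x u : ℝ) • u

/-- chords in direction `u` -/
def CH {n : ℕ} (K : Set (EE n)) (u : EE n) : Prop :=
  ∀ y ∈ K, ∀ z ∈ K, ∃ s r : ℝ, (1 / 2 : ℝ) • (y + z) + s • u ∈ K ∧
    (1 / 2 : ℝ) • (y + z) + r • u ∈ K ∧ inner ℝ (y - z) u ≤ s - r

end

/-! ## H. Stability for all families -/

/-- the main regime with gain (helper32) -/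
def Stmt_R1B : Prop :=
  ∃ (c c' : ℝ) (n₀ : ℕ), 0 < c ∧ 0 < c' ∧ ∀ (n : ℕ) (ι : Type) [Fintype ι] (p : ι → ℝ)
    (w : ι → EE n) (D q : ℝ), n₀ ≤ n → IS p w → MI p w D → QB p w q →
    (n : ℝ) ^ (-13 : ℝ) ≤ D → D ≤ 1 → q ≤ c → X0 n * (1 + c' * D) ≤ Real.exp D * XT p w

/-- the regime of small `D` with gain (helper32) -/
def Stmt_R4B : Prop :=
  ∃ n₀ : ℕ, ∀ (n : ℕ) (ι : Type) [Fintype ι] (p : ι → ℝ) (w : ι → EE n) (D : ℝ), n₀ ≤ n →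
    IS p w → MI p w D → D < (n : ℝ) ^ (-13 : ℝ) → X0 n * (1 + D / 4) ≤ Real.exp D * XT p w

/-- STABILITY. Uses R1B, R4B, PPX.QBD, WMA, PPG.CRE, PPX.CNB -/
def Stmt_THS : Prop :=
  ∃ (c : ℝ) (n₀ : ℕ), 0 < c ∧ ∀ (n : ℕ) (ι : Type) [Fintype ι] (p : ι → ℝ) (w : ι → EE n)
    (D : ℝ), n₀ ≤ n → IS p w → MI p w D → 0 ≤ D ∧ X0 n * Real.exp (c * D) ≤ Real.exp D * XT p w

/-- polytopes. Uses THS, PPG.ISP, PPI.AVE -/
def Stmt_PST : Prop :=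
  ∃ (c : ℝ) (n₀ : ℕ), 0 < c ∧ ∀ (n N : ℕ) (v : Fin N → EE n), n₀ ≤ n → 2 ≤ n →
    IsCompact (Pol v) → 0 < vl (Pol v) → ∃ (D : ℝ) (A : EE n →L[ℝ] EE n), 0 ≤ D ∧
      |A.det| * kap n = vl (Pol v) ∧
      (∀ t : ℝ, 0 ≤ t → vl (Pol v + t • (A '' Bn n)) ≤
        vl (Pol v) * (1 + t * Real.exp (D / n)) ^ n) ∧
      Real.exp (c * D) * Pn n * vl (Pol v) ^ (n - 1) ≤ vl (projBody (Pol v))

/-- bodies. Uses PST, PPG.AP2, PPG.LMV, PPG.TUB, PPI.MON, PPI.AVE -/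
def Stmt_BST : Prop :=
  ∃ (c : ℝ) (n₀ : ℕ), 0 < c ∧ ∀ n : ℕ, n₀ ≤ n → 2 ≤ n → ∀ K : Set (EE n), Convex ℝ K →
    IsCompact K → (interior K).Nonempty →
    Pn n * vl K ^ (n - 1) ≤ vl (projBody K) ∧
    ∀ η : ℝ, 0 ≤ η →
      (∀ A : EE n →L[ℝ] EE n, |A.det| * kap n = vl K → ∀ t : ℝ, 0 < t →
        (1 + (1 + η) * n * t) * vl K ≤ vl (K + t • (A '' Bn n))) →
      (1 + η) ^ (c * n) * (Pn n * vl K ^ (n - 1)) ≤ vl (projBody K)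

/-! ## I. The equality case -/

/-- compactness. Uses PPI.AVE -/
def Stmt_CPT : Prop :=
  ∀ (n : ℕ) (K : Set (EE n)), 1 ≤ n → Convex ℝ K → IsCompact K → (0 : EE n) ∈ interior K →
    (∀ δ : ℝ, 0 < δ → δ < 1 → ∃ (P : Set (EE n)) (A : EE n →L[ℝ] EE n) (r : ℝ),
      IsCompact P ∧ Convex ℝ P ∧ P ⊆ K ∧ (1 - δ) • K ⊆ P ∧ |A.det| * kap n = vl P ∧
      r ≤ 1 + δ ∧ ∀ t : ℝ, 0 ≤ t → vl (P + t • (A '' Bn n)) ≤ vl P * (1 + t * r) ^ n) →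
    ∃ A : EE n →L[ℝ] EE n, |A.det| * kap n = vl K ∧
      ∀ t : ℝ, 0 ≤ t → vl (K + t • (A '' Bn n)) ≤ vl K * (1 + t) ^ n

/-- the mean of the support function. Uses PPX.SPH, PPI.AVE -/
def Stmt_EQ1 : Prop :=
  ∀ (n : ℕ) (K : Set (EE n)), 1 ≤ n → Convex ℝ K → IsCompact K → K.Nonempty →
    (∀ t : ℝ, 0 ≤ t → vl (K + t • Bn n) ≤ kap n * (1 + t) ^ n) →
    ∫ v, sf K v ∂(sph n) ≤ 1

/-- Urysohn's inequality. Uses PPX.SPH, SBA.BMF, PPI.AVE -/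
def Stmt_EQ2 : Prop :=
  ∀ (n : ℕ) (M : Set (EE n)), 1 ≤ n → Convex ℝ M → IsCompact M → M.Nonempty →
    0 ≤ ∫ v, sf M v ∂(sph n) ∧ vl M ≤ kap n * (∫ v, sf M v ∂(sph n)) ^ n

/-- the mean width of the average with a reflection. Uses PPX.SPH -/
def Stmt_EQR : Prop :=
  ∀ (n : ℕ) (K : Set (EE n)) (u : EE n), 1 ≤ n → Convex ℝ K → IsCompact K → K.Nonempty →
    ‖u‖ = 1 → ∫ v, sf ((1 / 2 : ℝ) • (K + rf u '' K)) v ∂(sph n) = ∫ v, sf K v ∂(sph n)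

/-- volumes and chords -/
def Stmt_EQ3 : Prop :=
  ∀ (n : ℕ) (K : Set (EE n)) (u : EE n), 2 ≤ n → Convex ℝ K → IsCompact K →
    (interior K).Nonempty → ‖u‖ = 1 → vl ((1 / 2 : ℝ) • (K + rf u '' K)) ≤ vl K → CH K u

/-- the midpoints of the chords -/
def Stmt_EQ4 : Prop :=
  ∀ (n : ℕ) (K : Set (EE n)) (u : EE n), 2 ≤ n → Convex ℝ K → IsCompact K →
    (interior K).Nonempty → ‖u‖ = 1 → CH K u →
    ∃ c : ℝ, ∀ x ∈ K, x + (2 * (c - inner ℝ x u) : ℝ) • u ∈ K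

/-- a body with all symmetries is a ball -/
def Stmt_EQ5 : Prop :=
  ∀ (n : ℕ) (K : Set (EE n)), 1 ≤ n → Convex ℝ K → IsCompact K → (interior K).Nonempty →
    (∀ u : EE n, ‖u‖ = 1 → ∃ c : ℝ, ∀ x ∈ K, x + (2 * (c - inner ℝ x u) : ℝ) • u ∈ K) →
    ∃ (z : EE n) (r : ℝ), 0 < r ∧ K = Metric.closedBall z r

/-- equality in the Brunn-Minkowski inequality for a ball. Uses EQ1, EQ2, EQR, EQ3, EQ4, EQ5,
PPI.AVE -/
def Stmt_EQB : Prop :=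
  ∀ (n : ℕ) (K : Set (EE n)), 2 ≤ n → Convex ℝ K → IsCompact K → vl K = kap n →
    (∀ t : ℝ, 0 ≤ t → vl (K + t • Bn n) ≤ kap n * (1 + t) ^ n) →
    ∃ z : EE n, K = (fun x => x + z) '' Bn n

/-- the value of an ellipsoid. Uses PPX.LIN, PPI.MON, PPI.AVE -/
def Stmt_ELL : Prop :=
  ∀ (n : ℕ) (T : EE n →L[ℝ] EE n) (z : EE n), 2 ≤ n → T.det ≠ 0 →
    vl (projBody ((fun x => T x + z) '' Bn n)) =
      Pn n * vl ((fun x => T x + z) '' Bn n) ^ (n - 1)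

/-- THE THEOREM. Uses PST, BST, CPT, EQB, ELL, PPG.AP2, PPI.MON, PPI.AVE -/
def Stmt_FIN : Prop :=
  ∃ (c : ℝ) (n₀ : ℕ), 0 < c ∧ ∀ n : ℕ, n₀ ≤ n → 2 ≤ n → ∀ K : Set (EE n), Convex ℝ K →
    IsCompact K → (interior K).Nonempty →
    Pn n * vl K ^ (n - 1) ≤ vl (projBody K) ∧
    (vl (projBody K) = Pn n * vl K ^ (n - 1) ↔
      ∃ (T : EE n →L[ℝ] EE n) (z : EE n), T.det ≠ 0 ∧ K = (fun x => T x + z) '' Bn n) ∧
    ∀ η : ℝ, 0 ≤ η →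
      (∀ A : EE n →L[ℝ] EE n, |A.det| * kap n = vl K → ∀ t : ℝ, 0 < t →
        (1 + (1 + η) * n * t) * vl K ≤ vl (K + t • (A '' Bn n))) →
      (1 + η) ^ (c * n) * (Pn n * vl K ^ (n - 1)) ≤ vl (projBody K)

end PPW
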