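import Pool.Agent.PPW.Stmts2

/-!
# PPW, module THS: stability for all families
-/

set_option autoImplicit false

namespace PPW

open MeasureTheory Set Filter Topology ProbabilityTheory
open PPI PPG PPX
open scoped Pointwise ENNReal

namespace THS_

lemma exp_le {x : ℝ} (h0 : 0 ≤ x) (h1 : x ≤ 1) : Real.exp x ≤ 1 + 2 * x := by
  have h := Real.abs_exp_sub_one_sub_id_le (x := x) (by rw [abs_of_nonneg h0]; exact h1)
  have h2 := (abs_le.1 h).2
  nlinarith

lemma X0_nonneg (hC : PPX.Stmt_CNB) {n : ℕ} (hn : 3 ≤ n) : 0 ≤ X0 n := by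
  have h1 := (hC n (by omega)).1
  have h2 := (hC (n - 1) (by omega)).1
  unfold X0
  positivity

end THS_

open THS_ in
theorem ths_proof (h1 : Stmt_R1B) (h4 : Stmt_R4B) (hQ : PPX.Stmt_QBD) (hW : Stmt_WMA)
    (hR : PPG.Stmt_CRE) (hC : PPX.Stmt_CNB) : Stmt_THS := by
  obtain ⟨cR, c', n₁, hcR, hc', h1⟩ := h1
  obtain ⟨n₂, h4⟩ := h4
  obtain ⟨n₃, hQ⟩ := hQ
  obtain ⟨c, C, hc, hc1, hCpos, hR⟩ := hR
  set c₀ : ℝ := min 1 (cR / 400) with hc0d
  have hc0 : 0 < c₀ := lt_min one_pos (by positivity)
  set C₁ : ℝ := 2 * (C + 1) / c with hC1d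
  have hC1 : 0 < C₁ := by positivity
  obtain ⟨n₄, hW⟩ := hW c₀ C₁ hc0 hC1
  obtain ⟨n₅, hn5⟩ := exists_nat_ge (8 / cR)
  set a : ℝ := min (1 / 250) (min (c' / 2) (c / 2)) with had
  have ha : 0 < a := lt_min (by norm_num) (lt_min (by positivity) (by positivity))
  have ha1 : a ≤ 1 / 250 := min_le_left _ _
  have ha2 : a ≤ c' / 2 := (min_le_right _ _).trans (min_le_left _ _)
  have ha3 : a ≤ c / 2 := (min_le_right _ _).trans (min_le_right _ _)
  refine ⟨a, n₁ + n₂ + n₃ + n₄ + n₅ + 3, ha, ?_⟩
  intro n ι _ p w D hn hIS hMI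
  obtain ⟨hD0, hR2⟩ := hR n ι p w D (by omega) hIS hMI
  refine ⟨hD0, ?_⟩
  have hX : 0 ≤ X0 n := X0_nonneg hC (by omega)
  have hnpos : (0 : ℝ) < n := by
    have : 0 < n := by omega
    exact_mod_cast this
  have hn1 : (1 : ℝ) ≤ n := by
    have : 1 ≤ n := by omega
    exact_mod_cast this
  have hn2 : (2 : ℝ) ≤ n := by
    have : 2 ≤ n := by omega
    exact_mod_cast this
  by_cases hA : D < (n : ℝ) ^ (-13 : ℝ)
  · have h := h4 n ι p w D (by omega) hIS hMI hA
    refine le_trans (mul_le_mul_of_nonneg_left ?_ hX) h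
    have hD1 : D ≤ 1 := by
      have : (n : ℝ) ^ (-13 : ℝ) ≤ 1 := Real.rpow_le_one_of_one_le_of_nonpos hn1 (by norm_num)
      linarith
    have h5 := exp_le (x := a * D) (by positivity) (by nlinarith)
    nlinarith
  · rw [not_lt] at hA
    by_cases hB : D ≤ c₀
    · have hD1 : D ≤ 1 := hB.trans (min_le_left _ _)
      have hD2 : D ≤ cR / 400 := hB.trans (min_le_right _ _)
      have hq : 200 * D + 4 * ((1 : ℕ) : ℝ) / n ≤ cR := by
        have h6 : (8 : ℝ) / cR ≤ n := hn5.trans (by
          have : n₅ ≤ n := by omega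
          exact_mod_cast this)
        have h7 : 4 * ((1 : ℕ) : ℝ) / n ≤ cR / 2 := by
          rw [div_le_iff₀ hcR] at h6
          rw [div_le_iff₀ hnpos]
          push_cast
          linarith
        linarith
      have hQB : QB p w (200 * D + 4 * ((1 : ℕ) : ℝ) / n) := by
        intro e he
        have h8 := hQ n 1 ι p w D (fun _ => e) (by omega) (by omega) hIS hMI (fun _ => he)
          (by
            intro x
            simp only [Finset.univ_unique, Finset.sum_const, Finset.card_singleton, one_smul]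
            have h9 := abs_real_inner_le_norm e x
            rw [he, one_mul] at h9
            have h10 : (inner ℝ e x) ^ 2 ≤ ‖x‖ ^ 2 := by
              rw [← sq_abs (inner ℝ e x)]
              exact pow_le_pow_left₀ (abs_nonneg _) h9 2
            nlinarith [sq_nonneg ‖x‖])
        simpa using h8
      have h := h1 n ι p w D _ (by omega) hIS hMI hQB hA hD1 hq
      refine le_trans (mul_le_mul_of_nonneg_left ?_ hX) h
      have h5 := exp_le (x := a * D) (by positivity) (by nlinarith)
      nlinarith
    · rw [not_le] at hB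
      by_cases hE : D ≤ C₁ * Real.log n
      · have h := hW n ι p w D (by omega) hIS hMI hB.le hE
        refine le_trans (mul_le_mul_of_nonneg_left ?_ hX) h
        refine Real.exp_le_exp.2 ?_
        nlinarith
      · rw [not_le] at hE
        have hXu := (hC n (by omega)).2.2.2.2.2
        have hlog : 1 / 2 ≤ Real.log n := by
          have h5 : Real.log 2 ≤ Real.log n := Real.log_le_log (by norm_num) hn2
          have := Real.log_two_gt_d9
          linarith
        have hkey : C * Real.log n + 1 / 2 ≤ c * D / 2 := by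
          have h6 : c * (C₁ * Real.log n) ≤ c * D := mul_le_mul_of_nonneg_left hE.le hc.le
          have h7 : c * (C₁ * Real.log n) = 2 * (C + 1) * Real.log n := by
            rw [hC1d]
            field_simp
          rw [h7] at h6
          nlinarith
        set s : ℝ := √((n.factorial : ℝ) / (n : ℝ) ^ n) with hs
        have hs0 : 0 ≤ s := Real.sqrt_nonneg _
        have hse : √(Real.exp 1) = Real.exp (1 / 2) := by
          rw [Real.sqrt_eq_rpow, ← Real.exp_mul, one_mul]
        calc X0 n * Real.exp (a * D) ≤ √(Real.exp 1) * s * Real.exp (a * D) :=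
              mul_le_mul_of_nonneg_right hXu (Real.exp_nonneg _)
          _ = s * Real.exp (1 / 2 + a * D) := by rw [hse, Real.exp_add]; ring
          _ ≤ s * Real.exp (D + -((1 - c) * D + C * Real.log n)) := by
              refine mul_le_mul_of_nonneg_left (Real.exp_le_exp.2 ?_) hs0
              have : a * D ≤ c / 2 * D := mul_le_mul_of_nonneg_right ha3 hD0
              linarith
          _ = Real.exp D * (s * Real.exp (-((1 - c) * D + C * Real.log n))) := by
              rw [Real.exp_add]; ring
          _ ≤ Real.exp D * XT p w := mul_le_mul_of_nonneg_left hR2 (Real.exp_nonneg _)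

end PPW
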