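import Pool.Agent.PPW.Stmts

/-!
# PPW, module TP2: positivity
-/

set_option autoImplicit false

namespace PPW

open MeasureTheory Set Filter Topology ProbabilityTheory
open PPI PPG PPX
open scoped Pointwise ENNReal

theorem tp2_proof (hT : PPX.Stmt_TPD) (_hM : PPX.Stmt_SMM) : Stmt_TP2 := by
  intro n ι _ g p w k hn hp hw
  have hm0 : 0 ≤ ∑ i ∈ g, p i := Finset.sum_nonneg fun i _ => hp i
  rcases hm0.eq_or_lt with hm | hm
  · have h0 : ∀ i ∈ g, p i = 0 := (Finset.sum_eq_zero_iff_of_nonneg fun i _ => hp i).1 hm.symm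
    have h1 : ∑ i ∈ g, ∑ j ∈ g, p i * p j * (inner ℝ (w i) (w j)) ^ (2 * k) = 0 := by
      refine Finset.sum_eq_zero fun i hi => Finset.sum_eq_zero fun j _ => ?_
      rw [h0 i hi]
      ring
    unfold TG
    rw [h1, ← hm]
    simp
  · set m : ℝ := ∑ i ∈ g, p i with hmd
    have hm' : m ≠ 0 := hm.ne'
    have h := hT n (↥g) (fun i => p i / m) (fun i => w i) k (fun _ => 0) hn
      (fun i => div_nonneg (hp i) hm.le)
      (by
        rw [Finset.sum_coe_sort g (fun i => p i / m), ← Finset.sum_div]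
        exact div_self hm')
      (fun i => hw i) (fun l => by simp)
    have h2 := le_trans (sq_nonneg _) h
    have h3 : TG g p w k = m ^ 2 * Tk (fun i : ↥g => p i / m) (fun i : ↥g => w i) k := by
      unfold TG Tk
      rw [Finset.sum_coe_sort g (fun i => ∑ j : ↥g,
        p i / m * (p j / m) * (inner ℝ (w i) (w j)) ^ (2 * k))]
      have h4 : ∀ i, ∑ j : ↥g, p i / m * (p j / m) * (inner ℝ (w i) (w j)) ^ (2 * k) =
          ∑ j ∈ g, p i / m * (p j / m) * (inner ℝ (w i) (w j)) ^ (2 * k) := fun i =>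
        Finset.sum_coe_sort g (fun j => p i / m * (p j / m) * (inner ℝ (w i) (w j)) ^ (2 * k))
      simp_rw [h4]
      rw [mul_sub, Finset.mul_sum]
      congr 1
      refine Finset.sum_congr rfl fun i _ => ?_
      rw [Finset.mul_sum]
      refine Finset.sum_congr rfl fun j _ => ?_
      field_simp
    rw [h3]
    positivity

end PPW
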