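import Pool.Agent.PPW.Stmts

/-!
# Squad PPW: module VTW (the variance of the coefficients of the special set)
-/

set_option autoImplicit false

namespace PPW

open MeasureTheory Set Filter Topology ProbabilityTheory
open PPI PPG PPX
open scoped Pointwise ENNReal

namespace VTW_

/-- orthogonal decomposition of the inner product -/
theorem inner_split {n m : ℕ} {P : EE n →L[ℝ] EE n} (hP : PR m P) (a b : EE n) :
    (inner ℝ a b : ℝ) = inner ℝ (P a) (P b) + inner ℝ (a - P a) (b - P b) := by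
  have h1 : (inner ℝ (P a) b : ℝ) = inner ℝ a (P b) := hP.sym a b
  have h2 : (inner ℝ (P a) (P b) : ℝ) = inner ℝ a (P b) := by
    rw [hP.sym, hP.idem]
  rw [inner_sub_left, inner_sub_right, inner_sub_right, h1, h2]
  ring

/-- the bound for one pair -/
theorem pair (C s L2 wi wj x y f g h I E1 E2 m1 m2 : ℝ) (hC : 0 < C)
    (hs : s = h + f) (hL : 1 ≤ L2) (hwi : wi ≤ 1) (hwj : wj ≤ 1) (hwi0 : 0 < wi) (hwj0 : 0 < wj)
    (hiw : 1 / √wi ≤ L2) (hjw : 1 / √wj ≤ L2)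
    (hx : x ≤ wi) (hy : y ≤ wj) (hx0 : 0 ≤ x) (hy0 : 0 ≤ y) (hh : h ^ 2 ≤ x * y)
    (hE1 : 0 ≤ E1) (hE2 : 0 ≤ E2) (hm1 : 0 ≤ m1) (hm2 : 0 ≤ m2)
    (hI1 : I ≤ 2 * (C / √wj)) (hI3 : s ^ 2 ≤ 1 / 4 → I ≤ E1 * E2 + m1 * m2 + 2 * s ^ 2) :
    I - E1 * E2 ≤ m1 * m2 + (2 + 32 * C) * s ^ 2 + 32 * C * L2 * f ^ 2 := by
  have hmm : 0 ≤ m1 * m2 := mul_nonneg hm1 hm2
  have hEE : 0 ≤ E1 * E2 := mul_nonneg hE1 hE2
  have hs2 : 0 ≤ s ^ 2 := sq_nonneg s
  have hf2 : 0 ≤ f ^ 2 := sq_nonneg f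
  have hCL : 0 ≤ 32 * C * L2 * f ^ 2 := by positivity
  have hCs : 0 ≤ 32 * C * s ^ 2 := by positivity
  by_cases hc : s ^ 2 ≤ 1 / 4
  · have := hI3 hc
    nlinarith
  · push Not at hc
    by_cases hw : 1 / 16 ≤ wj
    · by_cases hw' : 1 / 16 ≤ wi
      · have h1 : (1 / 4 : ℝ) ≤ √wj := by
          apply Real.le_sqrt_of_sq_le
          linarith
        have h2 : C / √wj ≤ 4 * C := by
          rw [div_le_iff₀ (by linarith)]
          nlinarith
        have h3 : 8 * C ≤ 32 * C * s ^ 2 := by nlinarith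
        nlinarith
      · push Not at hw'
        have h1 : h ^ 2 ≤ 1 / 16 := by
          have : x * y ≤ (1 / 16) * 1 := mul_le_mul (by linarith) (by linarith) hy0 (by norm_num)
          linarith
        have h2 : 1 / 16 ≤ f ^ 2 := by
          have h3 : |h| ≤ 1 / 4 := abs_le_of_sq_le_sq (by linarith) (by norm_num)
          have h4 : 1 / 2 ≤ |s| := by
            by_contra hh
            push Not at hh
            have := mul_self_lt_mul_self (abs_nonneg s) hh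
            rw [abs_mul_abs_self] at this
            nlinarith
          have h5 : |s| ≤ |h| + |f| := by rw [hs]; exact abs_add_le h f
          have h6 : 1 / 4 ≤ |f| := by linarith
          have h7 := mul_self_le_mul_self (by norm_num : (0 : ℝ) ≤ 1 / 4) h6
          rw [abs_mul_abs_self] at h7
          nlinarith
        have h8 : C / √wj ≤ C * L2 := by
          rw [div_eq_mul_one_div]
          exact mul_le_mul_of_nonneg_left hjw hC.le
        have h9 : 2 * (C * L2) ≤ 32 * C * L2 * f ^ 2 := by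
          have : 0 ≤ C * L2 := by positivity
          nlinarith
        nlinarith
    · push Not at hw
      have h1 : h ^ 2 ≤ 1 / 16 := by
        have : x * y ≤ 1 * (1 / 16) := mul_le_mul (by linarith) (by linarith) hy0 (by norm_num)
        linarith
      have h2 : 1 / 16 ≤ f ^ 2 := by
        have h3 : |h| ≤ 1 / 4 := abs_le_of_sq_le_sq (by linarith) (by norm_num)
        have h4 : 1 / 2 ≤ |s| := by
          by_contra hh
          push Not at hh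
          have := mul_self_lt_mul_self (abs_nonneg s) hh
          rw [abs_mul_abs_self] at this
          nlinarith
        have h5 : |s| ≤ |h| + |f| := by rw [hs]; exact abs_add_le h f
        have h6 : 1 / 4 ≤ |f| := by linarith
        have h7 := mul_self_le_mul_self (by norm_num : (0 : ℝ) ≤ 1 / 4) h6
        rw [abs_mul_abs_self] at h7
        nlinarith
      have h8 : C / √wj ≤ C * L2 := by
        rw [div_eq_mul_one_div]
        exact mul_le_mul_of_nonneg_left hjw hC.le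
      have h9 : 2 * (C * L2) ≤ 32 * C * L2 * f ^ 2 := by
        have : 0 ≤ C * L2 := by positivity
        nlinarith
      nlinarith

end VTW_

open VTW_ in
theorem vtw_proof (hXI1 : Stmt_XI1) (hXI2 : Stmt_XI2) (hBBB : Stmt_BBB) (hEAB : Stmt_EAB)
    (hMUN : PPX.Stmt_MUN) : Stmt_VTW := by
  intro C hC
  obtain ⟨K, hK⟩ : ∃ K : ℝ, K = C ^ 2 + 8 + 160 * C := ⟨_, rfl⟩
  have hK1 : 1 ≤ K := by rw [hK]; nlinarith [sq_nonneg C]
  refine ⟨max 2 ⌈Real.exp K⌉₊, ?_⟩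
  intro n m ι _ P S p ω w c hn hW
  have hn2 : 2 ≤ n := le_trans (le_max_left _ _) hn
  have hnK : Real.exp K ≤ n :=
    le_trans (Nat.le_ceil _) (by exact_mod_cast le_trans (le_max_right _ _) hn)
  have hn0 : (0 : ℝ) < n := by exact_mod_cast (by omega : 0 < n)
  obtain ⟨l, hl⟩ : ∃ l : ℝ, l = Real.log n := ⟨_, rfl⟩
  have hlK : K ≤ l := by
    rw [hl, Real.le_log_iff_exp_le hn0]; exact hnK
  have hl1 : 1 ≤ l := le_trans hK1 hlK
  have hl0 : 0 < l := by linarith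
  have hIS := hW.iso
  obtain ⟨hprob, -, -⟩ := hMUN n (by omega)
  have hp0 : ∀ i, 0 < p i := hIS.ppos
  -- the weights ω
  have hω : ∀ i ∈ S, ‖P (w i)‖ ^ 2 ≤ ω i ∧ ω i ≤ 1 ∧ l ^ (-1100 : ℝ) ≤ ω i := by
    intro i hi; rw [hl]; exact hW.om i hi
  have hlp : 0 < l ^ (-1100 : ℝ) := Real.rpow_pos_of_pos hl0 _
  have hω0 : ∀ i ∈ S, 0 < ω i := fun i hi => lt_of_lt_of_le hlp (hω i hi).2.2
  have hsq : √(l ^ (-1100 : ℝ)) = (l ^ 550)⁻¹ := by
    rw [Real.sqrt_eq_iff_mul_self_eq hlp.le (by positivity)]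
    rw [Real.rpow_neg hl0.le, ← mul_inv, ← pow_add]
    congr 1
    rw [← Real.rpow_natCast]
    norm_num
  have hωs : ∀ i ∈ S, 1 / √(ω i) ≤ l ^ 550 := by
    intro i hi
    have h1 : (l ^ 550)⁻¹ ≤ √(ω i) := by
      rw [← hsq]; exact Real.sqrt_le_sqrt (hω i hi).2.2
    rw [div_le_iff₀ (Real.sqrt_pos.2 (hω0 i hi))]
    have h2 : 0 < l ^ 550 := by positivity
    calc (1 : ℝ) = l ^ 550 * (l ^ 550)⁻¹ := (mul_inv_cancel₀ h2.ne').symm
      _ ≤ l ^ 550 * √(ω i) := mul_le_mul_of_nonneg_left h1 h2.le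
  -- profiles
  have hcc : ∀ i ∈ S, Continuous (c i) := fun i hi => (hW.pf i hi).dif.continuous
  have hc0 : ∀ i ∈ S, ∀ s, 0 ≤ c i s := fun i hi s => ((hW.pf i hi).pos s).le
  have hPn : ∀ i, ‖P (w i)‖ ^ 2 ≤ 1 := by
    intro i
    have h1 := inner_split hW.pr (w i) (w i)
    rw [real_inner_self_eq_norm_sq, real_inner_self_eq_norm_sq, real_inner_self_eq_norm_sq,
      hIS.nrm i] at h1
    nlinarith [sq_nonneg ‖w i - P (w i)‖]
  have hE : ∀ i ∈ S, 0 ≤ EZ (c i) ∧ EZ (c i) ≤ 1 ∧ 0 ≤ ML (c i) := by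
    intro i hi
    have h := hEAB (c i) 0 le_rfl zero_le_one (hcc i hi) (hc0 i hi) (hW.pf i hi).mass
    exact ⟨h.2.1, h.2.2.1, h.2.2.2⟩
  have hx1 : ∀ i ∈ S, Integrable (fun x : EE n => xi (c i) x (w i)) (mun n) ∧
      ∫ x, xi (c i) x (w i) ∂(mun n) = EZ (c i) := by
    intro i hi
    have h := hXI1 n (w i) (c i) hn2 (hIS.nrm i) (hcc i hi) (hc0 i hi) (hW.pf i hi).mass
    exact ⟨h.1, h.2.1⟩
  have hx2 : ∀ i ∈ S, ∀ j ∈ S,
      Integrable (fun x : EE n => xi (c i) x (w i) * xi (c j) x (w j)) (mun n) ∧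
      ∫ x, xi (c i) x (w i) * xi (c j) x (w j) ∂(mun n) ≤ 2 * (C / √(ω j)) ∧
      ((inner ℝ (w i) (w j)) ^ 2 ≤ (1 / 4 : ℝ) →
        ∫ x, xi (c i) x (w i) * xi (c j) x (w j) ∂(mun n) ≤
        EZ (c i) * EZ (c j) + ML (c i) * ML (c j) + 2 * (inner ℝ (w i) (w j)) ^ 2) := by
    intro i hi j hj
    exact hXI2 n (w i) (w j) (c i) (c j) (C / √(ω j)) hn2 (hIS.nrm i) (hIS.nrm j) (hcc i hi)
      (hcc j hj) (hc0 i hi) (hc0 j hj) (hW.pf i hi).even (hW.pf j hj).even (hW.pf i hi).mass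
      (hW.pf j hj).mass (hW.pf j hj).bdd
  -- covariances
  have hcov : ∀ i ∈ S, ∀ j ∈ S,
      Integrable (fun x : EE n => (xi (c i) x (w i) - EZ (c i)) * (xi (c j) x (w j) - EZ (c j)))
        (mun n) ∧
      ∫ x, (xi (c i) x (w i) - EZ (c i)) * (xi (c j) x (w j) - EZ (c j)) ∂(mun n) =
        ∫ x, xi (c i) x (w i) * xi (c j) x (w j) ∂(mun n) - EZ (c i) * EZ (c j) := by
    intro i hi j hj
    have e1 : (fun x : EE n => (xi (c i) x (w i) - EZ (c i)) * (xi (c j) x (w j) - EZ (c j))) =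
        fun x => xi (c i) x (w i) * xi (c j) x (w j) - EZ (c j) * xi (c i) x (w i) -
          (EZ (c i) * xi (c j) x (w j) - EZ (c i) * EZ (c j)) := by
      funext x; ring
    have i1 := (hx2 i hi j hj).1
    have i2 := (hx1 i hi).1.const_mul (EZ (c j))
    have i3 := (hx1 j hj).1.const_mul (EZ (c i))
    have i4 : Integrable (fun _ : EE n => EZ (c i) * EZ (c j)) (mun n) := integrable_const _
    rw [e1]
    refine ⟨(i1.sub i2).sub (i3.sub i4), ?_⟩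
    have j1 : ∫ x, xi (c i) x (w i) * xi (c j) x (w j) - EZ (c j) * xi (c i) x (w i) -
          (EZ (c i) * xi (c j) x (w j) - EZ (c i) * EZ (c j)) ∂(mun n) =
        ∫ x, (xi (c i) x (w i) * xi (c j) x (w j) - EZ (c j) * xi (c i) x (w i)) ∂(mun n) -
        ∫ x, (EZ (c i) * xi (c j) x (w j) - EZ (c i) * EZ (c j)) ∂(mun n) :=
      integral_sub (i1.sub i2) (i3.sub i4)
    have j2 : ∫ x, (xi (c i) x (w i) * xi (c j) x (w j) - EZ (c j) * xi (c i) x (w i)) ∂(mun n) =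
        ∫ x, xi (c i) x (w i) * xi (c j) x (w j) ∂(mun n) -
        ∫ x, EZ (c j) * xi (c i) x (w i) ∂(mun n) := integral_sub i1 i2
    have j3 : ∫ x, (EZ (c i) * xi (c j) x (w j) - EZ (c i) * EZ (c j)) ∂(mun n) =
        ∫ x, EZ (c i) * xi (c j) x (w j) ∂(mun n) -
        ∫ x : EE n, EZ (c i) * EZ (c j) ∂(mun n) := integral_sub i3 i4
    rw [j1, j2, j3, integral_const_mul, integral_const_mul, (hx1 i hi).2, (hx1 j hj).2,
      integral_const]
    simp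
    ring
  -- expansion of the square
  have hexp : (fun x : EE n => ((n : ℝ) * ∑ i ∈ S, p i * (xi (c i) x (w i) - EZ (c i))) ^ 2) =
      fun x => ∑ i ∈ S, ∑ j ∈ S, ((n : ℝ) ^ 2 * (p i * p j)) *
        ((xi (c i) x (w i) - EZ (c i)) * (xi (c j) x (w j) - EZ (c j))) := by
    funext x
    rw [mul_pow, sq (∑ i ∈ S, _), Finset.sum_mul_sum, Finset.mul_sum]
    refine Finset.sum_congr rfl fun i _ => ?_
    rw [Finset.mul_sum]
    refine Finset.sum_congr rfl fun j _ => ?_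
    ring
  have hint : Integrable (fun x : EE n => ∑ i ∈ S, ∑ j ∈ S, ((n : ℝ) ^ 2 * (p i * p j)) *
        ((xi (c i) x (w i) - EZ (c i)) * (xi (c j) x (w j) - EZ (c j)))) (mun n) :=
    integrable_finset_sum _ fun i hi => integrable_finset_sum _ fun j hj =>
      (hcov i hi j hj).1.const_mul _
  refine ⟨by rw [hexp]; exact hint, ?_⟩
  rw [hexp, integral_finset_sum _ fun i hi => integrable_finset_sum _ fun j hj =>
      (hcov i hi j hj).1.const_mul _]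
  have h1 : ∀ i ∈ S, ∫ x, ∑ j ∈ S, ((n : ℝ) ^ 2 * (p i * p j)) *
        ((xi (c i) x (w i) - EZ (c i)) * (xi (c j) x (w j) - EZ (c j))) ∂(mun n) ≤
      ∑ j ∈ S, ((n : ℝ) ^ 2 * (p i * p j)) * (ML (c i) * ML (c j) +
        (2 + 32 * C) * (inner ℝ (w i) (w j)) ^ 2 +
        32 * C * l ^ 550 * (inner ℝ (w i - P (w i)) (w j - P (w j))) ^ 2) := by
    intro i hi
    rw [integral_finset_sum _ fun j hj => (hcov i hi j hj).1.const_mul _]
    refine Finset.sum_le_sum fun j hj => ?_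
    rw [integral_const_mul, (hcov i hi j hj).2]
    refine mul_le_mul_of_nonneg_left ?_ (by have := hp0 i; have := hp0 j; positivity)
    refine pair C _ (l ^ 550) (ω i) (ω j) (‖P (w i)‖ ^ 2) (‖P (w j)‖ ^ 2) _ 0
      (inner ℝ (P (w i)) (P (w j))) _ _ _ _ _ hC (inner_split hW.pr _ _) (one_le_pow₀ hl1)
      (hω i hi).2.1 (hω j hj).2.1 (hω0 i hi) (hω0 j hj) (hωs i hi) (hωs j hj) (hω i hi).1
      (hω j hj).1 (by positivity) (by positivity) ?_ (hE i hi).1 (hE j hj).1 (hE i hi).2.2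
      (hE j hj).2.2 (hx2 i hi j hj).2.1 (hx2 i hi j hj).2.2
    have h := abs_real_inner_le_norm (P (w i)) (P (w j))
    rw [← mul_pow, ← sq_abs]
    exact pow_le_pow_left₀ (abs_nonneg _) h 2
  refine le_trans (Finset.sum_le_sum h1) ?_
  -- the sums
  obtain ⟨Λ, hΛ⟩ : ∃ Λ : ℝ, Λ = l ^ (-4400 : ℝ) := ⟨_, rfl⟩
  have hlam : ∀ e : EE n, (n : ℝ) * ∑ i ∈ S, p i * (inner ℝ (w i - P (w i)) e) ^ 2 ≤
      Λ * ‖e‖ ^ 2 := by rw [hΛ, hl]; exact hW.lam
  obtain ⟨b1, b2⟩ := hBBB n m ι S p w P Λ (by omega) hIS hW.pr hlam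
  obtain ⟨β, hβ⟩ : ∃ β : ℝ, β = (n : ℝ) * ∑ i ∈ S, p i := ⟨_, rfl⟩
  rw [← hβ] at b1 b2
  have hsum : (n : ℝ) * ∑ i ∈ S, p i * ω i ≤ l ^ 2 := by rw [hl]; exact hW.sum
  have hβ1 : β ≤ l ^ 1102 := by
    have h2 : β ≤ (n : ℝ) * ∑ i ∈ S, p i * ω i * l ^ 1100 := by
      rw [hβ]
      refine mul_le_mul_of_nonneg_left (Finset.sum_le_sum fun i hi => ?_) hn0.le
      have h3 : 1 ≤ ω i * l ^ 1100 := by
        have h4 := (hω i hi).2.2
        have h5 : l ^ (-1100 : ℝ) = (l ^ 1100)⁻¹ := by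
          rw [Real.rpow_neg hl0.le, ← Real.rpow_natCast]; norm_num
        rw [h5] at h4
        have h6 : 0 < l ^ 1100 := by positivity
        calc (1 : ℝ) = (l ^ 1100)⁻¹ * l ^ 1100 := (inv_mul_cancel₀ h6.ne').symm
          _ ≤ ω i * l ^ 1100 := mul_le_mul_of_nonneg_right h4 h6.le
      have := hp0 i
      calc p i = p i * 1 := (mul_one _).symm
        _ ≤ p i * (ω i * l ^ 1100) := mul_le_mul_of_nonneg_left h3 this.le
        _ = p i * ω i * l ^ 1100 := by ring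
    rw [← Finset.sum_mul, ← mul_assoc] at h2
    calc β ≤ (n : ℝ) * (∑ i ∈ S, p i * ω i) * l ^ 1100 := h2
      _ ≤ l ^ 2 * l ^ 1100 := mul_le_mul_of_nonneg_right hsum (by positivity)
      _ = l ^ 1102 := by rw [← pow_add]
  have hΛe : Λ = (l ^ 4400)⁻¹ := by
    rw [hΛ, Real.rpow_neg hl0.le, ← Real.rpow_natCast]; norm_num
  have hΛ0 : 0 < Λ := by rw [hΛe]; positivity
  have hΛβ : Λ * β ≤ (l ^ 3298)⁻¹ := by
    calc Λ * β ≤ Λ * l ^ 1102 := mul_le_mul_of_nonneg_left hβ1 hΛ0.le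
      _ = (l ^ 3298)⁻¹ := by
        rw [hΛe, show (4400 : ℕ) = 3298 + 1102 by norm_num, pow_add]
        have h6 : l ^ 1102 ≠ 0 := by positivity
        field_simp
  have hΛβ1 : Λ * β ≤ 1 := le_trans hΛβ (inv_le_one_of_one_le₀ (one_le_pow₀ hl1))
  have hΛβ2 : l ^ 550 * (Λ * β) ≤ 1 := by
    calc l ^ 550 * (Λ * β) ≤ l ^ 550 * (l ^ 3298)⁻¹ :=
          mul_le_mul_of_nonneg_left hΛβ (by positivity)
      _ = (l ^ 2748)⁻¹ := by
        rw [show (3298 : ℕ) = 2748 + 550 by norm_num, pow_add]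
        have h6 : l ^ 550 ≠ 0 := by positivity
        field_simp
      _ ≤ 1 := inv_le_one_of_one_le₀ (one_le_pow₀ hl1)
  have hPω : 0 ≤ (n : ℝ) * ∑ i ∈ S, p i * ‖P (w i)‖ ^ 2 ∧
      (n : ℝ) * ∑ i ∈ S, p i * ‖P (w i)‖ ^ 2 ≤ l ^ 2 := by
    refine ⟨mul_nonneg hn0.le (Finset.sum_nonneg fun i _ => mul_nonneg (hp0 i).le
      (by positivity)), le_trans (mul_le_mul_of_nonneg_left (Finset.sum_le_sum fun i hi => ?_)
      hn0.le) hsum⟩
    exact mul_le_mul_of_nonneg_left (hω i hi).1 (hp0 i).le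
  have hB2 : B2 S p w ≤ 2 * l ^ 4 + 2 := by
    have h3 : ((n : ℝ) * ∑ i ∈ S, p i * ‖P (w i)‖ ^ 2) ^ 2 ≤ (l ^ 2) ^ 2 :=
      pow_le_pow_left₀ hPω.1 hPω.2 2
    have h4 : (l ^ 2) ^ 2 = l ^ 4 := by ring
    linarith
  have hML : 0 ≤ (n : ℝ) * ∑ i ∈ S, p i * ML (c i) ∧
      (n : ℝ) * ∑ i ∈ S, p i * ML (c i) ≤ C * l ^ 2 := by
    refine ⟨mul_nonneg hn0.le (Finset.sum_nonneg fun i hi => mul_nonneg (hp0 i).le
      (hE i hi).2.2), ?_⟩
    calc (n : ℝ) * ∑ i ∈ S, p i * ML (c i) ≤ (n : ℝ) * ∑ i ∈ S, C * (p i * ω i) := by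
          refine mul_le_mul_of_nonneg_left (Finset.sum_le_sum fun i hi => ?_) hn0.le
          have h3 := mul_le_mul_of_nonneg_left (hW.pf i hi).mom (hp0 i).le
          linarith
      _ = C * ((n : ℝ) * ∑ i ∈ S, p i * ω i) := by rw [← Finset.mul_sum]; ring
      _ ≤ C * l ^ 2 := mul_le_mul_of_nonneg_left hsum hC.le
  have hML2 : ((n : ℝ) * ∑ i ∈ S, p i * ML (c i)) ^ 2 ≤ (C * l ^ 2) ^ 2 :=
    pow_le_pow_left₀ hML.1 hML.2 2
  -- rewriting the double sum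
  have hS : ∑ i ∈ S, ∑ j ∈ S, ((n : ℝ) ^ 2 * (p i * p j)) * (ML (c i) * ML (c j) +
        (2 + 32 * C) * (inner ℝ (w i) (w j)) ^ 2 +
        32 * C * l ^ 550 * (inner ℝ (w i - P (w i)) (w j - P (w j))) ^ 2) =
      ((n : ℝ) * ∑ i ∈ S, p i * ML (c i)) ^ 2 + (2 + 32 * C) * B2 S p w +
        32 * C * l ^ 550 * ((n : ℝ) ^ 2 * ∑ i ∈ S, ∑ j ∈ S, p i * p j *
          (inner ℝ (w i - P (w i)) (w j - P (w j))) ^ 2) := by
    rw [mul_pow, sq (∑ i ∈ S, _), Finset.sum_mul_sum]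
    unfold B2
    simp only [Finset.mul_sum]
    rw [← Finset.sum_add_distrib, ← Finset.sum_add_distrib]
    refine Finset.sum_congr rfl fun i _ => ?_
    rw [← Finset.sum_add_distrib, ← Finset.sum_add_distrib]
    refine Finset.sum_congr rfl fun j _ => ?_
    ring
  rw [hS, ← hl]
  have t1 : (2 + 32 * C) * B2 S p w ≤ (2 + 32 * C) * (2 * l ^ 4 + 2) :=
    mul_le_mul_of_nonneg_left hB2 (by positivity)
  have t2 : 32 * C * l ^ 550 * ((n : ℝ) ^ 2 * ∑ i ∈ S, ∑ j ∈ S, p i * p j *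
          (inner ℝ (w i - P (w i)) (w j - P (w j))) ^ 2) ≤ 32 * C := by
    calc _ ≤ 32 * C * l ^ 550 * (Λ * β) := mul_le_mul_of_nonneg_left b1 (by positivity)
      _ = 32 * C * (l ^ 550 * (Λ * β)) := by ring
      _ ≤ 32 * C * 1 := mul_le_mul_of_nonneg_left hΛβ2 (by positivity)
      _ = 32 * C := mul_one _
  have t3 : (C * l ^ 2) ^ 2 = C ^ 2 * l ^ 4 := by ring
  have hl4 : 1 ≤ l ^ 4 := one_le_pow₀ hl1
  have t4 : K * l ^ 4 ≤ l ^ 5 := by
    calc K * l ^ 4 ≤ l * l ^ 4 := mul_le_mul_of_nonneg_right hlK (by positivity)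
      _ = l ^ 5 := by ring
  have t5 : C ≤ C * l ^ 4 := by nlinarith
  rw [hK] at t4
  nlinarith

end PPW
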