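import Pool.Agent.PPW.Stmts

/-!
# Squad PPW (MP_0bf616_gt): module WAN, integration of the good points
-/

set_option autoImplicit false

namespace PPW

open MeasureTheory Set Filter Topology ProbabilityTheory
open PPI PPG PPX
open scoped Pointwise ENNReal

namespace WAN_

theorem kap_nonneg (n : ℕ) : 0 ≤ kap n := ENNReal.toReal_nonneg

theorem X0_nonneg (n : ℕ) : 0 ≤ X0 n := by
  unfold X0
  have := kap_nonneg n
  have := kap_nonneg (n - 1)
  positivity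

theorem ev (k : ℕ) {a ε : ℝ} (ha : 0 < a) (hε : 0 < ε) :
    ∀ᶠ n : ℕ in atTop, Real.log n ^ k ≤ ε * (n : ℝ) ^ a := by
  have h := (isLittleO_log_rpow_rpow_atTop (k : ℝ) ha).comp_tendsto
    (tendsto_natCast_atTop_atTop (R := ℝ))
  have h2 := h.def hε
  filter_upwards [h2, eventually_ge_atTop 1] with n hn hn1
  simp only [Function.comp_apply, Real.norm_eq_abs] at hn
  have hl : 0 ≤ Real.log n := Real.log_natCast_nonneg n
  rw [Real.rpow_natCast, abs_of_nonneg (pow_nonneg hl k), abs_of_nonneg (by positivity)] at hn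
  exact hn

theorem evl (M : ℝ) : ∀ᶠ n : ℕ in atTop, M ≤ Real.log n :=
  (Real.tendsto_log_atTop.comp (tendsto_natCast_atTop_atTop (R := ℝ))).eventually_ge_atTop M

theorem ex_prob : IsProbabilityMeasure ex := by
  constructor
  unfold ex
  rw [withDensity_apply _ MeasurableSet.univ, Measure.restrict_univ,
    ← ofReal_integral_eq_lintegral_ofReal (integrableOn_exp_neg_Ioi 0)
      (Eventually.of_forall fun _ => (Real.exp_pos _).le), integral_exp_neg_Ioi_zero]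
  simp

/-! ### tails -/

section tail

variable {Ω : Type} [MeasurableSpace Ω] {μ : Measure Ω} [IsProbabilityMeasure μ]

theorem real_compl_le {G : Set Ω} {δ : ℝ} (hδ : 0 ≤ δ) (h : μ Gᶜ ≤ ENNReal.ofReal δ) :
    μ.real Gᶜ ≤ δ := by
  unfold Measure.real
  exact ENNReal.toReal_le_of_le_ofReal hδ h

/-- integral over the good set of a function with bounded second moment -/
theorem tail_sq {G : Set Ω} (hG : MeasurableSet G) {u : Ω → ℝ} (hu : Integrable u μ)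
    (hu2 : Integrable (fun z => u z ^ 2) μ) {m0 V δ a : ℝ} (hm : ∫ z, u z ∂μ = m0)
    (hV : ∫ z, u z ^ 2 ∂μ ≤ V) (hδ : μ.real Gᶜ ≤ δ) (ha : 0 < a) :
    m0 - (a * V / 2 + δ / (2 * a)) ≤ ∫ z in G, u z ∂μ := by
  have h1 := integral_add_compl hG hu
  rw [hm] at h1
  have h2 : ∫ z in Gᶜ, u z ∂μ ≤ ∫ z in Gᶜ, (a / 2 * u z ^ 2 + 1 / (2 * a)) ∂μ := by
    refine integral_mono hu.integrableOn
      ((hu2.const_mul _).add (integrable_const _)).integrableOn fun z => ?_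
    have : 0 ≤ a / 2 * (u z - 1 / a) ^ 2 := by positivity
    have e : a / 2 * (u z - 1 / a) ^ 2 = a / 2 * u z ^ 2 + 1 / (2 * a) - u z := by
      field_simp
      ring
    simp only
    linarith
  have h3 : ∫ z in Gᶜ, (a / 2 * u z ^ 2 + 1 / (2 * a)) ∂μ =
      a / 2 * ∫ z in Gᶜ, u z ^ 2 ∂μ + μ.real Gᶜ * (1 / (2 * a)) := by
    rw [integral_add (hu2.const_mul _).integrableOn (integrable_const _).integrableOn,
      integral_const_mul, setIntegral_const, smul_eq_mul]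
  have h4 : ∫ z in Gᶜ, u z ^ 2 ∂μ ≤ ∫ z, u z ^ 2 ∂μ :=
    setIntegral_le_integral hu2 (Eventually.of_forall fun z => sq_nonneg _)
  have h5 : a / 2 * ∫ z in Gᶜ, u z ^ 2 ∂μ ≤ a / 2 * V := by
    have := h4.trans hV
    gcongr
  have h6 : μ.real Gᶜ * (1 / (2 * a)) ≤ δ * (1 / (2 * a)) := by gcongr
  have h7 : δ * (1 / (2 * a)) = δ / (2 * a) := by ring
  linarith

/-- integral over the good set of a logarithm -/
theorem tail_log {G : Set Ω} (hG : MeasurableSet G) {y : Ω → ℝ} (hy0 : ∀ z, 0 ≤ y z)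
    (hy : Integrable y μ) (hl : Integrable (fun z => Real.log (y z)) μ) {E δ a : ℝ}
    (hE : ∫ z, y z ∂μ ≤ E) (hδ : μ.real Gᶜ ≤ δ) (ha : 0 < a) :
    ∫ z, Real.log (y z) ∂μ - (a * E + δ / a) ≤ ∫ z in G, Real.log (y z) ∂μ := by
  have h1 := integral_add_compl hG hl
  have h2 : ∫ z in Gᶜ, Real.log (y z) ∂μ ≤ ∫ z in Gᶜ, (a * y z + 1 / a) ∂μ := by
    refine integral_mono hl.integrableOn
      ((hy.const_mul _).add (integrable_const _)).integrableOn fun z => ?_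
    simp only
    rcases (hy0 z).eq_or_lt with h | h
    · rw [← h, Real.log_zero]
      positivity
    · have e1 : Real.log (y z) = 2 * Real.log (√(y z)) := by
        rw [Real.log_sqrt h.le]; ring
      have e2 := Real.log_le_sub_one_of_pos (Real.sqrt_pos.2 h)
      have e3 : 0 ≤ a * (√(y z) - 1 / a) ^ 2 := by positivity
      have e4 : a * (√(y z) - 1 / a) ^ 2 = a * y z + 1 / a - 2 * √(y z) := by
        have := Real.sq_sqrt h.le
        field_simp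
        nlinarith
      linarith
  have h3 : ∫ z in Gᶜ, (a * y z + 1 / a) ∂μ = a * ∫ z in Gᶜ, y z ∂μ + μ.real Gᶜ * (1 / a) := by
    rw [integral_add (hy.const_mul _).integrableOn (integrable_const _).integrableOn,
      integral_const_mul, setIntegral_const, smul_eq_mul]
  have h4 : ∫ z in Gᶜ, y z ∂μ ≤ ∫ z, y z ∂μ :=
    setIntegral_le_integral hy (Eventually.of_forall hy0)
  have h5 : a * ∫ z in Gᶜ, y z ∂μ ≤ a * E := by
    have := h4.trans hE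
    gcongr
  have h6 : μ.real Gᶜ * (1 / a) ≤ δ * (1 / a) := by gcongr
  have h7 : δ * (1 / a) = δ / a := by ring
  linarith

/-- the last step -/
theorem last {G : Set Ω} (hG : MeasurableSet G) {F Y : Ω → ℝ} (hF : Integrable F μ)
    (hF0 : ∀ z, 0 ≤ F z) (hY : Integrable Y μ) (hFY : ∀ z ∈ G, Real.exp (Y z) ≤ F z)
    {s δ r : ℝ} (hs : -s ≤ ∫ z in G, Y z ∂μ) (hδ : μ.real Gᶜ ≤ δ)
    (hr : (1 + s) * δ ≤ 1 - Real.exp (-r)) (hr0 : 0 ≤ r) :
    Real.exp (-s - r) ≤ ∫ z, F z ∂μ := by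
  have h1 : ∫ z in G, Real.exp (-s) * (1 + Y z + s) ∂μ ≤ ∫ z in G, F z ∂μ := by
    refine setIntegral_mono_on ?_ hF.integrableOn hG fun z hz => ?_
    · exact ((((integrable_const 1).add hY).add (integrable_const s)).const_mul _).integrableOn
    · refine le_trans ?_ (hFY z hz)
      have := Real.add_one_le_exp (Y z + s)
      calc Real.exp (-s) * (1 + Y z + s) ≤ Real.exp (-s) * Real.exp (Y z + s) := by
            gcongr
            linarith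
        _ = Real.exp (Y z) := by
            rw [← Real.exp_add]
            congr 1
            ring
  have h2 : ∫ z in G, F z ∂μ ≤ ∫ z, F z ∂μ := setIntegral_le_integral hF (Eventually.of_forall hF0)
  have h3 : ∫ z in G, Real.exp (-s) * (1 + Y z + s) ∂μ =
      Real.exp (-s) * ((1 + s) * μ.real G + ∫ z in G, Y z ∂μ) := by
    rw [integral_const_mul]
    congr 1
    have e : (fun z => 1 + Y z + s) = fun z => (1 + s) + Y z := by
      funext z; ring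
    rw [e, integral_add (integrable_const _).integrableOn hY.integrableOn, setIntegral_const,
      smul_eq_mul, mul_comm]
  have h4 : μ.real G = 1 - μ.real Gᶜ := by
    have := probReal_add_probReal_compl hG (μ := μ)
    linarith
  have h5 : Real.exp (-r) ≤ (1 + s) * μ.real G + ∫ z in G, Y z ∂μ := by
    have h6 : (1 + s) * μ.real Gᶜ ≤ 1 - Real.exp (-r) := by
      rcases le_total 0 (1 + s) with h | h
      · have := mul_le_mul_of_nonneg_left hδ h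
        linarith
      · have h7 : Real.exp (-r) ≤ 1 := Real.exp_le_one_iff.2 (by linarith)
        have h8 : 0 ≤ μ.real Gᶜ := measureReal_nonneg
        have := mul_nonneg_of_nonpos_of_nonpos h (neg_nonpos.2 h8)
        linarith
    rw [h4]
    linarith
  calc Real.exp (-s - r) = Real.exp (-s) * Real.exp (-r) := by
        rw [← Real.exp_add]
        congr 1
    _ ≤ Real.exp (-s) * ((1 + s) * μ.real G + ∫ z in G, Y z ∂μ) := by gcongr
    _ ≤ ∫ z, F z ∂μ := by rw [← h3]; exact h1.trans h2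

/-- the integral over the good set, abstractly -/
theorem main_abs {ι : Type} {S : Finset ι} {G : Set Ω} (hG : MeasurableSet G) {q x EZ' EL' : ι → ℝ}
    {b : ι → Ω → ℝ} {U V : Ω → ℝ} {c0 d δ W a1 a2 : ℝ}
    (hq : ∀ i ∈ S, 0 ≤ q i) (hx : ∀ i ∈ S, 0 ≤ x i) (hb0 : ∀ i ∈ S, ∀ z, 0 ≤ b i z)
    (hb : ∀ i ∈ S, Integrable (b i) μ) (hbE : ∀ i ∈ S, ∫ z, b i z ∂μ = EZ' i)
    (hE1 : ∀ i ∈ S, EZ' i ≤ 1) (hE0 : ∀ i ∈ S, 0 ≤ EZ' i)
    (hl : ∀ i ∈ S, Integrable (fun z => Real.log (b i z)) μ)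
    (hlE : ∀ i ∈ S, ∫ z, Real.log (b i z) ∂μ = EL' i)
    (hU : Integrable U μ) (hU2 : Integrable (fun z => U z ^ 2) μ) (hU0 : ∫ z, U z ∂μ = 0)
    (hUW : ∫ z, U z ^ 2 ∂μ ≤ W)
    (hV : Integrable V μ) (hV2 : Integrable (fun z => V z ^ 2) μ) (hV0 : ∫ z, V z ∂μ = 0)
    (hVW : ∫ z, V z ^ 2 ∂μ ≤ W)
    (hδ : μ.real Gᶜ ≤ δ) (ha1 : 0 < a1) (ha2 : 0 < a2) (hd : 0 ≤ d) (hd1 : d ≤ 1) :
    Integrable (fun z => c0 + ∑ i ∈ S, q i * x i * Real.log (b i z) + U z + V z -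
      (1 - d) * ∑ i ∈ S, q i * x i * b i z) μ ∧
    c0 - |c0| * δ + ∑ i ∈ S, q i * x i * EL' i - (∑ i ∈ S, q i * x i) * (a1 + δ / a1) -
      2 * (a2 * W / 2 + δ / (2 * a2)) - ∑ i ∈ S, q i * x i * EZ' i ≤
    ∫ z in G, (c0 + ∑ i ∈ S, q i * x i * Real.log (b i z) + U z + V z -
      (1 - d) * ∑ i ∈ S, q i * x i * b i z) ∂μ := by
  have i1 : Integrable (fun z => ∑ i ∈ S, q i * x i * Real.log (b i z)) μ :=
    integrable_finsetSum _ fun i hi => (hl i hi).const_mul _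
  have i2 : Integrable (fun z => ∑ i ∈ S, q i * x i * b i z) μ :=
    integrable_finsetSum _ fun i hi => (hb i hi).const_mul _
  have i3 : Integrable (fun _ : Ω => c0) μ := integrable_const _
  have i4 : Integrable (fun z => c0 + ∑ i ∈ S, q i * x i * Real.log (b i z)) μ := i3.add i1
  have i5 : Integrable (fun z => c0 + ∑ i ∈ S, q i * x i * Real.log (b i z) + U z) μ := i4.add hU
  have i6 : Integrable (fun z => c0 + ∑ i ∈ S, q i * x i * Real.log (b i z) + U z + V z) μ :=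
    i5.add hV
  have i7 : Integrable (fun z => (1 - d) * ∑ i ∈ S, q i * x i * b i z) μ := i2.const_mul _
  refine ⟨i6.sub i7, ?_⟩
  rw [integral_sub i6.integrableOn i7.integrableOn, integral_add i5.integrableOn hV.integrableOn,
    integral_add i4.integrableOn hU.integrableOn, integral_add i3.integrableOn i1.integrableOn,
    setIntegral_const, smul_eq_mul, integral_const_mul,
    integral_finsetSum _ fun i hi => ((hl i hi).const_mul _).integrableOn,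
    integral_finsetSum _ fun i hi => ((hb i hi).const_mul _).integrableOn]
  have t1 := tail_sq hG hU hU2 hU0 hUW hδ ha2
  have t2 := tail_sq hG hV hV2 hV0 hVW hδ ha2
  have t3 : ∑ i ∈ S, q i * x i * EL' i - (∑ i ∈ S, q i * x i) * (a1 + δ / a1) ≤
      ∑ i ∈ S, ∫ z in G, q i * x i * Real.log (b i z) ∂μ := by
    rw [Finset.sum_mul, ← Finset.sum_sub_distrib]
    refine Finset.sum_le_sum fun i hi => ?_
    rw [integral_const_mul]
    have h := tail_log hG (hb0 i hi) (hb i hi) (hl i hi) (E := 1) (hbE i hi ▸ hE1 i hi) hδ ha1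
    rw [hlE i hi, mul_one] at h
    have := mul_le_mul_of_nonneg_left h (mul_nonneg (hq i hi) (hx i hi))
    linarith
  have t4 : (1 - d) * ∑ i ∈ S, ∫ z in G, q i * x i * b i z ∂μ ≤ ∑ i ∈ S, q i * x i * EZ' i := by
    have t5 : ∑ i ∈ S, ∫ z in G, q i * x i * b i z ∂μ ≤ ∑ i ∈ S, q i * x i * EZ' i := by
      refine Finset.sum_le_sum fun i hi => ?_
      rw [integral_const_mul]
      have := setIntegral_le_integral (hb i hi) (Eventually.of_forall (hb0 i hi)) (s := G)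
      rw [hbE i hi] at this
      exact mul_le_mul_of_nonneg_left this (mul_nonneg (hq i hi) (hx i hi))
    have t6 : 0 ≤ ∑ i ∈ S, q i * x i * EZ' i :=
      Finset.sum_nonneg fun i hi => mul_nonneg (mul_nonneg (hq i hi) (hx i hi)) (hE0 i hi)
    calc (1 - d) * ∑ i ∈ S, ∫ z in G, q i * x i * b i z ∂μ
        ≤ (1 - d) * ∑ i ∈ S, q i * x i * EZ' i :=
          mul_le_mul_of_nonneg_left t5 (by linarith)
      _ ≤ 1 * ∑ i ∈ S, q i * x i * EZ' i := mul_le_mul_of_nonneg_right (by linarith) t6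
      _ = _ := one_mul _
  have t7 : c0 - |c0| * δ ≤ μ.real G * c0 := by
    have h4 : μ.real G = 1 - μ.real Gᶜ := by
      have := probReal_add_probReal_compl hG (μ := μ)
      linarith
    have h5 : μ.real Gᶜ * c0 ≤ |c0| * δ := by
      calc μ.real Gᶜ * c0 ≤ μ.real Gᶜ * |c0| := by
            gcongr
            exact le_abs_self _
        _ ≤ δ * |c0| := by gcongr
        _ = _ := mul_comm _ _
    rw [h4]
    linarith
  linarith

end tail

theorem pr_norm {n m : ℕ} {P : EE n →L[ℝ] EE n} (hP : PR m P) {w : EE n} (hw : ‖w‖ = 1) :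
    ‖P w‖ ^ 2 ≤ 1 := by
  have h1 : ‖P w‖ ^ 2 = inner ℝ w (P w) := by
    rw [← real_inner_self_eq_norm_sq, hP.sym, hP.idem]
  have h2 : inner ℝ w (P w) ≤ ‖w‖ * ‖P w‖ := real_inner_le_norm _ _
  rw [hw, one_mul] at h2
  nlinarith [norm_nonneg (P w)]

theorem labmap {n m : ℕ} {c : ℝ → ℝ} {P : EE n →L[ℝ] EE n} {w : EE n} (hLAB : Stmt_LAB)
    (hP : PR m P) (hw : ‖w‖ = 1) (hc : Continuous c) (hb : ∃ M, ∀ s, |c s| ≤ M) :
    Measurable (ab c P w) ∧ Measurable (fun z : ℝ × ℝ => zb c (‖P w‖ ^ 2) z.1 z.2) ∧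
    (pm n).map (ab c P w) =
      (ex.prod ga1).map (fun z : ℝ × ℝ => zb c (‖P w‖ ^ 2) z.1 z.2) := by
  obtain ⟨h1, h2, h3, h4⟩ := hLAB n m c P w hP hw hc hb
  refine ⟨h2, h3, ?_⟩
  ext A hA
  rw [Measure.map_apply h2 hA, Measure.map_apply h3 hA]
  have := h4 (A.indicator 1) (measurable_one.indicator hA)
  have e1 : (fun z => A.indicator (1 : ℝ → ℝ≥0∞) (ab c P w z)) =
      ((ab c P w) ⁻¹' A).indicator 1 := rfl
  have e2 : (fun z : ℝ × ℝ => A.indicator (1 : ℝ → ℝ≥0∞) (zb c (‖P w‖ ^ 2) z.1 z.2)) =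
      ((fun z : ℝ × ℝ => zb c (‖P w‖ ^ 2) z.1 z.2) ⁻¹' A).indicator 1 := rfl
  rw [e1, lintegral_indicator_one (h2 hA), e2, lintegral_indicator_one (h3 hA)] at this
  exact this

theorem facts {n m : ℕ} {c : ℝ → ℝ} {P : EE n →L[ℝ] EE n} {w : EE n} {C ω : ℝ}
    (hLAB : Stmt_LAB) (hEAB : Stmt_EAB) (hP : PR m P) (hw : ‖w‖ = 1)
    (hc : PF C ω (‖P w‖ ^ 2) c) :
    (∀ z, 0 ≤ ab c P w z) ∧ Integrable (ab c P w) (pm n) ∧ ∫ z, ab c P w z ∂(pm n) = EZ c ∧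
    0 ≤ EZ c ∧ EZ c ≤ 1 ∧ Integrable (fun z => Real.log (ab c P w z)) (pm n) ∧
    ∫ z, Real.log (ab c P w z) ∂(pm n) = EL c (‖P w‖ ^ 2) := by
  have hcc : Continuous c := hc.dif.continuous
  have hcb : ∃ M, ∀ s, |c s| ≤ M :=
    ⟨C / √ω, fun s => by rw [abs_of_pos (hc.pos s)]; exact hc.bdd s⟩
  obtain ⟨m1, m2, hmap⟩ := labmap hLAB hP hw hcc hcb
  obtain ⟨e1, e2, e3, -⟩ := hEAB c (‖P w‖ ^ 2) (sq_nonneg _) (pr_norm hP hw) hcc
    (fun s => (hc.pos s).le) hc.mass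
  have h0 : ∀ z, 0 ≤ ab c P w z := by
    intro z
    unfold ab
    have : 0 ≤ ∫ y, c (sg z.1 * inner ℝ (P z.2 + (y - P y)) w) ∂(gam n) :=
      integral_nonneg fun y => (hc.pos _).le
    have h2 : 0 ≤ sg z.1 := by unfold sg; positivity
    positivity
  obtain ⟨-, -, -, h4⟩ := hLAB n m c P w hP hw hcc hcb
  have h5 := h4 ENNReal.ofReal ENNReal.measurable_ofReal
  rw [e1] at h5
  have hint : Integrable (ab c P w) (pm n) := by
    refine ⟨m1.aestronglyMeasurable, ?_⟩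
    rw [hasFiniteIntegral_iff_ofReal (Eventually.of_forall h0), h5]
    exact ENNReal.ofReal_lt_top
  have hlog : Integrable (fun y => Real.log y) ((pm n).map (ab c P w)) := by
    rw [hmap]
    exact (integrable_map_measure Real.measurable_log.aestronglyMeasurable m2.aemeasurable).2
      hc.elog
  refine ⟨h0, hint, ?_, e2, e3, hlog.comp_measurable m1, ?_⟩
  · rw [integral_eq_lintegral_of_nonneg_ae (Eventually.of_forall h0) m1.aestronglyMeasurable,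
      h5, ENNReal.toReal_ofReal e2]
  · have h6 := integral_map m1.aemeasurable (μ := pm n) (f := Real.log)
      Real.measurable_log.aestronglyMeasurable
    rw [← h6, hmap, integral_map m2.aemeasurable Real.measurable_log.aestronglyMeasurable]
    rfl

theorem trans {n : ℕ} (hGMX : Stmt_GMX) (hn : 1 ≤ n) {f : EE n → ℝ}
    (hf : Integrable f (mun n)) :
    Integrable (fun z : ℝ × EE n => f (pt z)) (pm n) ∧
      ∫ z, f (pt z) ∂(pm n) = ∫ x, f x ∂(mun n) := by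
  obtain ⟨h1, h2⟩ := hGMX n hn
  rw [← h2] at hf ⊢
  exact ⟨hf.comp_measurable h1, (integral_map h1.aemeasurable hf.aestronglyMeasurable).symm⟩

theorem pm_prob (n : ℕ) : IsProbabilityMeasure (pm n) := by
  have := ex_prob
  unfold pm gam
  infer_instance

theorem logb {d b : ℝ} (hd : 0 ≤ d) (hd1 : d < 1) (hb : 0 ≤ b) :
    Real.log (1 - d) + Real.log b ≤ Real.log ((1 - d) * b) := by
  rcases hb.eq_or_lt with h | h
  · rw [← h, mul_zero, Real.log_zero, add_zero]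
    exact Real.log_nonpos (by linarith) (by linarith)
  · rw [Real.log_mul (by linarith) h.ne']

theorem expo {n : ℕ} {ι : Type} {S : Finset ι} {p x b ξ EZ' : ι → ℝ} {d U κ' : ℝ}
    (hd : 0 ≤ d) (hd1 : d < 1) (hp : ∀ i ∈ S, 0 ≤ p i) (hx : ∀ i ∈ S, 0 ≤ x i)
    (hb : ∀ i ∈ S, 0 ≤ b i) :
    (Real.log (1 - d) * (∑ i ∈ S, (n * p i) * x i) + (∑ i ∈ S, (n * p i) * (EZ' i - 1 + x i)) -
      3 * κ') + ∑ i ∈ S, (n * p i) * x i * Real.log (b i) + U + n * ∑ i ∈ S, p i * (ξ i - EZ' i) -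
      (1 - d) * ∑ i ∈ S, (n * p i) * x i * b i ≤
    n * ∑ i ∈ S, p i * x i * Real.log ((1 - d) * b i) + U + n * ∑ i ∈ S, p i * ξ i -
      n * ∑ i ∈ S, p i * (1 - x i) - n * ∑ i ∈ S, p i * x i * ((1 - d) * b i) - 3 * κ' := by
  have h1 : Real.log (1 - d) * (∑ i ∈ S, (n * p i) * x i) +
      ∑ i ∈ S, (n * p i) * x i * Real.log (b i) ≤
      n * ∑ i ∈ S, p i * x i * Real.log ((1 - d) * b i) := by
    rw [Finset.mul_sum, Finset.mul_sum, ← Finset.sum_add_distrib]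
    refine Finset.sum_le_sum fun i hi => ?_
    have := mul_le_mul_of_nonneg_left (logb hd hd1 (hb i hi))
      (mul_nonneg (mul_nonneg (Nat.cast_nonneg n (α := ℝ)) (hp i hi)) (hx i hi))
    linarith
  have h2 : ∑ i ∈ S, (n * p i) * (EZ' i - 1 + x i) + n * ∑ i ∈ S, p i * (ξ i - EZ' i) =
      n * ∑ i ∈ S, p i * ξ i - n * ∑ i ∈ S, p i * (1 - x i) := by
    simp only [Finset.mul_sum]
    rw [← Finset.sum_add_distrib, ← Finset.sum_sub_distrib]
    exact Finset.sum_congr rfl fun i _ => by ring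
  have h3 : (1 - d) * ∑ i ∈ S, (n * p i) * x i * b i =
      n * ∑ i ∈ S, p i * x i * ((1 - d) * b i) := by
    simp only [Finset.mul_sum]
    exact Finset.sum_congr rfl fun i _ => by ring
  linarith

theorem rneg {l : ℝ} (hl : 0 ≤ l) (k : ℕ) : l ^ (-(k : ℝ)) = (l ^ k)⁻¹ := by
  rw [Real.rpow_neg hl, Real.rpow_natCast]

theorem num1 {l κ' : ℝ} {n : ℕ} (hk0 : 0 < κ') (hl : 1 ≤ l) (hl2 : 2 * 2400 ^ 2 / κ' ^ 2 ≤ l)
    (he : l ^ 4309 ≤ κ' ^ 2 / (8 * 2400 ^ 2) * (n : ℝ) ^ (1 / 2 : ℝ)) (hn : 1 ≤ n) :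
    (l ^ 1103) ^ 3 * (l ^ (-4400 : ℝ) + 4 / √(n : ℝ)) * (l ^ 125) ^ 8 * 2400 ^ 2 ≤ κ' ^ 2 := by
  have l0 : 0 < l := by linarith
  have e1 : l ^ (-4400 : ℝ) = (l ^ 4400)⁻¹ := by
    have := rneg l0.le 4400
    exact_mod_cast this
  have e2 : (l ^ 1103) ^ 3 * (l ^ 125) ^ 8 = l ^ 4309 := by
    rw [← pow_mul, ← pow_mul, ← pow_add]
  have e3 : l ^ 4309 * (l ^ 4400)⁻¹ ≤ l⁻¹ := by
    have : l ^ 4309 * l ≤ l ^ 4400 := by
      rw [← pow_succ]
      exact pow_le_pow_right₀ hl (by norm_num)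
    rw [← div_eq_mul_inv, ← one_div, div_le_div_iff₀ (by positivity) l0]
    linarith
  have e4 : l⁻¹ * 2400 ^ 2 ≤ κ' ^ 2 / 2 := by
    rw [div_le_iff₀ (by positivity)] at hl2
    rw [← div_eq_inv_mul, div_le_iff₀ l0]
    linarith
  have hsq : √(n : ℝ) = (n : ℝ) ^ (1 / 2 : ℝ) := Real.sqrt_eq_rpow _
  have hs0 : 0 < √(n : ℝ) := Real.sqrt_pos.2 (by exact_mod_cast hn)
  rw [← hsq] at he
  have e5 : l ^ 4309 * (4 / √(n : ℝ)) * 2400 ^ 2 ≤ κ' ^ 2 / 2 := by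
    have : l ^ 4309 * (4 / √(n : ℝ)) * 2400 ^ 2 = l ^ 4309 * (4 * 2400 ^ 2) / √(n : ℝ) := by
      ring
    rw [this, div_le_iff₀ hs0]
    linarith
  calc (l ^ 1103) ^ 3 * (l ^ (-4400 : ℝ) + 4 / √(n : ℝ)) * (l ^ 125) ^ 8 * 2400 ^ 2
      = ((l ^ 1103) ^ 3 * (l ^ 125) ^ 8) * (l ^ (-4400 : ℝ)) * 2400 ^ 2 +
        ((l ^ 1103) ^ 3 * (l ^ 125) ^ 8) * (4 / √(n : ℝ)) * 2400 ^ 2 := by ring
    _ = l ^ 4309 * (l ^ 4400)⁻¹ * 2400 ^ 2 + l ^ 4309 * (4 / √(n : ℝ)) * 2400 ^ 2 := by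
        rw [e1, e2]
    _ ≤ l⁻¹ * 2400 ^ 2 + κ' ^ 2 / 2 := by gcongr
    _ ≤ κ' ^ 2 := by linarith

theorem num2 {l κ' : ℝ} {n : ℕ} (hl : 1 ≤ l)
    (he : l ^ 2206 ≤ κ' / 4 * (n : ℝ) ^ (1 / 4 : ℝ)) (hn : 1 ≤ n) :
    4 * de n * (l ^ 1103) ^ 2 ≤ κ' ∧ 4 * de n * l ^ 2 ≤ κ' ∧ 0 ≤ de n := by
  have n0 : (0 : ℝ) < n := by exact_mod_cast hn
  have hd : de n = ((n : ℝ) ^ (1 / 4 : ℝ))⁻¹ := by
    unfold de
    rw [Real.rpow_neg n0.le]
  have hp : 0 < (n : ℝ) ^ (1 / 4 : ℝ) := by positivity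
  have hd0 : 0 ≤ de n := by rw [hd]; positivity
  have h1 : 4 * de n * (l ^ 1103) ^ 2 ≤ κ' := by
    rw [hd, ← pow_mul]
    have : 4 * ((n : ℝ) ^ (1 / 4 : ℝ))⁻¹ * l ^ (1103 * 2) = 4 * l ^ 2206 / (n : ℝ) ^ (1 / 4 : ℝ) := by
      rw [div_eq_mul_inv]; ring
    rw [this, div_le_iff₀ hp]
    linarith
  refine ⟨h1, le_trans ?_ h1, hd0⟩
  rw [← pow_mul]
  have : l ^ 2 ≤ l ^ (1103 * 2) := pow_le_pow_right₀ hl (by norm_num)
  gcongr

theorem ws_bounds {n m : ℕ} {ι : Type} [Fintype ι] {P : EE n →L[ℝ] EE n} {S : Finset ι}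
    {p ω : ι → ℝ} {w : ι → EE n} {c : ι → ℝ → ℝ} {C : ℝ} (hC : 0 < C)
    (hl : 1 ≤ Real.log n) (hW : WS C m P S p ω w c) :
    (n : ℝ) * ∑ i ∈ S, p i ≤ Real.log n ^ 1102 ∧
    (∀ i ∈ S, ∀ s, c i s ≤ C * Real.log n ^ 550) ∧
    0 ≤ ∑ i ∈ S, (n * p i) * ‖P (w i)‖ ^ 2 ∧
    ∑ i ∈ S, (n * p i) * ‖P (w i)‖ ^ 2 ≤ Real.log n ^ 2 ∧
    (n : ℝ) * ∑ i ∈ S, p i * co (c i) (‖P (w i)‖ ^ 2) ≤ Real.log n ^ 2 := by
  set l := Real.log n with hld
  have l0 : 0 < l := by linarith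
  have e1 : l ^ (-1100 : ℝ) = (l ^ 1100)⁻¹ := by
    have := rneg l0.le 1100
    exact_mod_cast this
  have hsum := hW.sum
  rw [← hld, Finset.mul_sum] at hsum
  have p0 : ∀ i, 0 ≤ (n : ℝ) * p i := fun i =>
    mul_nonneg (Nat.cast_nonneg n) (hW.iso.ppos i).le
  have om1 : ∀ i ∈ S, (l ^ 1100)⁻¹ ≤ ω i := fun i hi => by
    have := (hW.om i hi).2.2
    rwa [← hld, e1] at this
  refine ⟨?_, ?_, ?_, ?_, ?_⟩
  · have h : ∑ i ∈ S, (n : ℝ) * p i ≤ ∑ i ∈ S, l ^ 1100 * (n * (p i * ω i)) := by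
      refine Finset.sum_le_sum fun i hi => ?_
      have h1 : 1 ≤ l ^ 1100 * ω i := by
        have := om1 i hi
        rwa [inv_le_iff_one_le_mul₀' (by positivity)] at this
      have := mul_le_mul_of_nonneg_left h1 (p0 i)
      linarith
    rw [← Finset.mul_sum, ← Finset.mul_sum] at h
    calc (n : ℝ) * ∑ i ∈ S, p i ≤ l ^ 1100 * ∑ i ∈ S, (n : ℝ) * (p i * ω i) := h
      _ ≤ l ^ 1100 * l ^ 2 := by gcongr
      _ = l ^ 1102 := by rw [← pow_add]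
  · intro i hi s
    refine ((hW.pf i hi).bdd s).trans ?_
    have h1 : (l ^ 550)⁻¹ ≤ √(ω i) := by
      apply Real.le_sqrt_of_sq_le
      rw [inv_pow, ← pow_mul]
      exact om1 i hi
    have h2 : 0 < (l ^ 550)⁻¹ := by positivity
    rw [div_eq_mul_inv]
    gcongr
    rw [inv_le_comm₀ (by linarith) (by positivity)]
    exact h1
  · exact Finset.sum_nonneg fun i hi => mul_nonneg (p0 i) (sq_nonneg _)
  · refine le_trans (Finset.sum_le_sum fun i hi => ?_) hsum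
    have := mul_le_mul_of_nonneg_left (hW.om i hi).1 (p0 i)
    linarith
  · rw [Finset.mul_sum]
    refine le_trans (Finset.sum_le_sum fun i hi => ?_) hsum
    have := mul_le_mul_of_nonneg_left (hW.pf i hi).cost (p0 i)
    linarith

theorem k1_bound {n m : ℕ} {ι : Type} [Fintype ι] {P : EE n →L[ℝ] EE n} {S : Finset ι}
    {p ω : ι → ℝ} {w : ι → EE n} {c : ι → ℝ → ℝ} {C : ℝ} (hC : 0 < C)
    (hW : WS C m P S p ω w c) (hE : ∀ i ∈ S, EZ (c i) ≤ 1) :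
    |∑ i ∈ S, (n * p i) * (EZ (c i) - 1 + ‖P (w i)‖ ^ 2)| ≤ (C + 1) * Real.log n ^ 2 := by
  have hsum := hW.sum
  rw [Finset.mul_sum] at hsum
  have p0 : ∀ i, 0 ≤ (n : ℝ) * p i := fun i =>
    mul_nonneg (Nat.cast_nonneg n) (hW.iso.ppos i).le
  calc |∑ i ∈ S, (n * p i) * (EZ (c i) - 1 + ‖P (w i)‖ ^ 2)|
      ≤ ∑ i ∈ S, |(n * p i) * (EZ (c i) - 1 + ‖P (w i)‖ ^ 2)| := Finset.abs_sum_le_sum_abs _ _
    _ ≤ ∑ i ∈ S, (C + 1) * (n * (p i * ω i)) := by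
        refine Finset.sum_le_sum fun i hi => ?_
        rw [abs_mul, abs_of_nonneg (p0 i)]
        have h1 := (hW.om i hi).1
        have h2 := (hW.pf i hi).ez
        have h3 := hE i hi
        have h4 := sq_nonneg ‖P (w i)‖
        have h6 : 0 ≤ C * ω i := mul_nonneg hC.le (h4.trans h1)
        have h5 : |EZ (c i) - 1 + ‖P (w i)‖ ^ 2| ≤ (C + 1) * ω i := by
          rw [abs_le]
          constructor <;> linarith
        have := mul_le_mul_of_nonneg_left h5 (p0 i)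
        linarith
    _ ≤ (C + 1) * Real.log n ^ 2 := by
        rw [← Finset.mul_sum]
        gcongr

/-- the errors -/
theorem errs {l κ κ' C d X K1 : ℝ} (hC : 0 < C) (k0 : 0 < κ') (k1 : κ' ≤ κ / 20)
    (k2 : κ' ≤ 1 / 20) (hl : 1 ≤ l) (hl1 : (C + 3) / κ' ≤ l) (hl2 : 2 / κ' ≤ l)
    (hd : 4 * d * l ^ 2 ≤ κ') (hd0 : 0 ≤ d) (hX0 : 0 ≤ X) (hX : X ≤ l ^ 2)
    (hK : |K1| ≤ (C + 1) * l ^ 2) :
    -(κ / 2) ≤ (Real.log (1 - d) * X - 3 * κ') -
      |Real.log (1 - d) * X + K1 - 3 * κ'| * (l ^ 8)⁻¹ -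
      X * ((l ^ 4)⁻¹ + (l ^ 8)⁻¹ / (l ^ 4)⁻¹) -
      2 * ((l ^ 6)⁻¹ * l ^ 5 / 2 + (l ^ 8)⁻¹ / (2 * (l ^ 6)⁻¹)) := by
  have l0 : 0 < l := by linarith
  have l2 : 1 ≤ l ^ 2 := one_le_pow₀ hl
  have hd1 : d ≤ 1 / 4 := by
    have : 4 * d * 1 ≤ 4 * d * l ^ 2 := by gcongr
    linarith
  have hlog : -(2 * d) ≤ Real.log (1 - d) := by
    have h1 := Real.one_sub_inv_le_log_of_pos (x := 1 - d) (by linarith)
    have h2 : (1 - d)⁻¹ ≤ 1 + 2 * d := by
      rw [inv_le_iff_one_le_mul₀ (by linarith)]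
      nlinarith
    linarith
  have hlog0 : Real.log (1 - d) ≤ 0 := Real.log_nonpos (by linarith) (by linarith)
  have e1 : -(κ' / 2) ≤ Real.log (1 - d) * X := by
    have h1 : -(2 * d) * X ≤ Real.log (1 - d) * X := mul_le_mul_of_nonneg_right hlog hX0
    have h2 : 2 * d * X ≤ 2 * d * l ^ 2 := by gcongr
    linarith
  have e1' : Real.log (1 - d) * X ≤ 0 := mul_nonpos_of_nonpos_of_nonneg hlog0 hX0
  have i1 : l⁻¹ * (C + 3) ≤ κ' := by
    rw [div_le_iff₀ k0] at hl1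
    rw [← div_eq_inv_mul, div_le_iff₀ l0]
    linarith
  have i2 : l⁻¹ * 2 ≤ κ' := by
    rw [div_le_iff₀ k0] at hl2
    rw [← div_eq_inv_mul, div_le_iff₀ l0]
    linarith
  have j0 : ∀ k : ℕ, 1 ≤ k → (l ^ k)⁻¹ ≤ l⁻¹ := by
    intro k hk
    gcongr
    exact le_self_pow₀ hl (by omega)
  have e2 : |Real.log (1 - d) * X + K1 - 3 * κ'| * (l ^ 8)⁻¹ ≤ κ' := by
    have h1 : |Real.log (1 - d) * X + K1 - 3 * κ'| ≤ (C + 3) * l ^ 2 := by
      have hK' := abs_le.1 hK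
      rw [abs_le]
      constructor <;> nlinarith
    calc |Real.log (1 - d) * X + K1 - 3 * κ'| * (l ^ 8)⁻¹
        ≤ (C + 3) * l ^ 2 * (l ^ 8)⁻¹ := by gcongr
      _ = (l ^ 6)⁻¹ * (C + 3) := by
          field_simp
      _ ≤ l⁻¹ * (C + 3) := by
          have := j0 6 (by norm_num)
          gcongr
      _ ≤ κ' := i1
  have e3 : X * ((l ^ 4)⁻¹ + (l ^ 8)⁻¹ / (l ^ 4)⁻¹) ≤ κ' := by
    have h1 : (l ^ 4)⁻¹ + (l ^ 8)⁻¹ / (l ^ 4)⁻¹ = 2 * (l ^ 4)⁻¹ := by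
      field_simp
      ring
    rw [h1]
    calc X * (2 * (l ^ 4)⁻¹) ≤ l ^ 2 * (2 * (l ^ 4)⁻¹) := by gcongr
      _ = (l ^ 2)⁻¹ * 2 := by field_simp
      _ ≤ l⁻¹ * 2 := by
          have := j0 2 (by norm_num)
          gcongr
      _ ≤ κ' := i2
  have e4 : 2 * ((l ^ 6)⁻¹ * l ^ 5 / 2 + (l ^ 8)⁻¹ / (2 * (l ^ 6)⁻¹)) ≤ κ' := by
    have h1 : 2 * ((l ^ 6)⁻¹ * l ^ 5 / 2 + (l ^ 8)⁻¹ / (2 * (l ^ 6)⁻¹)) = l⁻¹ + (l ^ 2)⁻¹ := by
      field_simp
    have := j0 2 (by norm_num)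
    rw [h1]
    linarith
  linarith

/-- the small probability -/
theorem prob_small {l s κ θ : ℝ} (hκ : 0 < κ) (hθ : 0 < θ) (hl : 1 ≤ l) (hl1 : (2 + κ) / θ ≤ l)
    (hs : s ≤ l ^ 2 + κ / 2) : (1 + s) * (l ^ 8)⁻¹ ≤ θ := by
  have l0 : 0 < l := by linarith
  have l2 : 1 ≤ l ^ 2 := one_le_pow₀ hl
  have i1 : l⁻¹ * (2 + κ) ≤ θ := by
    rw [div_le_iff₀ hθ] at hl1
    rw [← div_eq_inv_mul, div_le_iff₀ l0]
    linarith
  have h1 : 1 + s ≤ (2 + κ) * l ^ 2 := by nlinarith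
  have j6 : (l ^ 6)⁻¹ ≤ l⁻¹ := by
    gcongr
    exact le_self_pow₀ hl (by omega)
  calc (1 + s) * (l ^ 8)⁻¹ ≤ (2 + κ) * l ^ 2 * (l ^ 8)⁻¹ := by gcongr
    _ = (l ^ 6)⁻¹ * (2 + κ) := by field_simp
    _ ≤ l⁻¹ * (2 + κ) := by gcongr
    _ ≤ θ := i1

end WAN_

open WAN_ in
theorem wan_proof (hGMX : Stmt_GMX) (hZDW : Stmt_ZDW) (hPTW : Stmt_PTW) (hPRB : Stmt_PRB)
    (hVTW : Stmt_VTW) (hLAB : Stmt_LAB) (hEAB : Stmt_EAB) (hXI1 : Stmt_XI1) : Stmt_WAN := by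
  intro C κ hC hκ
  obtain ⟨κ', hκ'⟩ : ∃ κ', κ' = min κ 1 / 20 := ⟨_, rfl⟩
  have k0 : 0 < κ' := by
    rw [hκ']
    have : 0 < min κ 1 := lt_min hκ one_pos
    positivity
  have k1 : κ' ≤ κ / 20 := by
    rw [hκ']
    have := min_le_left κ 1
    linarith
  have k2 : κ' ≤ 1 / 20 := by
    rw [hκ']
    have := min_le_right κ 1
    linarith
  obtain ⟨n1, h1⟩ := hPTW
  obtain ⟨n2, h2⟩ := hVTW C hC
  obtain ⟨n3, h3⟩ := hPRB C κ' hC k0
  obtain ⟨θ, hθe⟩ : ∃ θ, θ = 1 - Real.exp (-(κ / 2)) := ⟨_, rfl⟩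
  have hθ : 0 < θ := by
    rw [hθe]
    have : Real.exp (-(κ / 2)) < 1 := by
      rw [← Real.exp_zero]
      exact Real.exp_lt_exp.2 (by linarith)
    linarith
  obtain ⟨n₀, hn₀⟩ := eventually_atTop.1 ((eventually_ge_atTop n1).and
    ((eventually_ge_atTop n2).and ((eventually_ge_atTop n3).and ((eventually_ge_atTop 2).and
    ((evl 8).and ((evl (2 * C)).and ((evl (2 * 2400 ^ 2 / κ' ^ 2)).and
    ((evl ((C + 3) / κ')).and ((evl (2 / κ')).and ((evl ((2 + κ) / θ)).and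
    ((ev 10 (a := 3 / 4) (ε := 1) (by norm_num) one_pos).and
    ((ev 4309 (a := 1 / 2) (ε := κ' ^ 2 / (8 * 2400 ^ 2)) (by norm_num) (by positivity)).and
    (ev 2206 (a := 1 / 4) (ε := κ' / 4) (by norm_num) (by positivity))))))))))))))
  refine ⟨n₀, fun n m ι _ P S p ω w c hn hW => ?_⟩
  obtain ⟨a1, a2, a3, a4, b1, b2, b3, b4, b5, b6, c1, c2, c3⟩ := hn₀ n hn
  have hpm := pm_prob n
  have hl1 : 1 ≤ Real.log n := by linarith
  have l0 : 0 < Real.log n := by linarith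
  have hn1 : 1 ≤ n := by omega
  obtain ⟨w1, w2, w3, w4, w5⟩ := ws_bounds hC hl1 hW
  obtain ⟨d1, d2, d3⟩ := num2 hl1 c3 hn1
  have hf := fun i (hi : i ∈ S) => facts hLAB hEAB hW.pr (hW.iso.nrm i) (hW.pf i hi)
  have hKb := k1_bound hC hW fun i hi => (hf i hi).2.2.2.2.1
  have l2 : 1 ≤ Real.log n ^ 2 := one_le_pow₀ hl1
  have hd1 : de n ≤ 1 / 4 := by
    have : 4 * de n * 1 ≤ 4 * de n * Real.log n ^ 2 := by gcongr
    linarith
  obtain ⟨G, hG, hGδ, hGD⟩ := h3 n m ι P S p ω w c a3 hW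
  have e8 : Real.log n ^ (-8 : ℝ) = (Real.log n ^ 8)⁻¹ := by
    have := rneg l0.le 8
    exact_mod_cast this
  rw [e8] at hGδ
  have hδ : (pm n).real Gᶜ ≤ (Real.log n ^ 8)⁻¹ := real_compl_le (by positivity) hGδ
  -- the functions on the good set
  obtain ⟨u1, u2⟩ := trans hGMX hn1 hW.ti
  obtain ⟨u3, u4⟩ := trans hGMX hn1 hW.t2
  rw [hW.t0] at u2
  obtain ⟨v1, v2⟩ := h2 n m ι P S p ω w c a2 hW
  obtain ⟨v3, v4⟩ := trans hGMX hn1 v1
  have hx1 := fun i (hi : i ∈ S) => hXI1 n (w i) (c i) a4 (hW.iso.nrm i)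
    (hW.pf i hi).dif.continuous (fun s => ((hW.pf i hi).pos s).le) (hW.pf i hi).mass
  have hmun : IsProbabilityMeasure (mun n) := by
    rw [← (hGMX n hn1).2]
    exact Measure.isProbabilityMeasure_map (hGMX n hn1).1.aemeasurable
  have v9 : ∀ i ∈ S, Integrable (fun x => p i * (xi (c i) x (w i) - EZ (c i))) (mun n) :=
    fun i hi => ((hx1 i hi).1.sub (integrable_const _)).const_mul _
  have v5 : Integrable (fun x => (n : ℝ) * ∑ i ∈ S, p i * (xi (c i) x (w i) - EZ (c i)))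
      (mun n) := (integrable_finsetSum _ v9).const_mul _
  have v6 : ∫ x, (n : ℝ) * ∑ i ∈ S, p i * (xi (c i) x (w i) - EZ (c i)) ∂(mun n) = 0 := by
    rw [integral_const_mul, integral_finsetSum _ v9, Finset.sum_eq_zero, mul_zero]
    intro i hi
    rw [integral_const_mul, integral_sub (hx1 i hi).1 (integrable_const _), (hx1 i hi).2.1,
      integral_const, probReal_univ, one_smul, sub_self, mul_zero]
  obtain ⟨v7, v8⟩ := trans hGMX hn1 v5
  rw [v6] at v8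
  obtain ⟨z1, z2, z3⟩ := hZDW n ι S p w c a4 (fun i => (hW.iso.ppos i).le)
    (fun i hi => (hW.pf i hi).dif.continuous) (fun i hi s => ((hW.pf i hi).pos s).le)
    (fun i hi => (hW.pf i hi).mass)
  obtain ⟨z4, z5⟩ := trans hGMX hn1 z1
  -- the integral of the exponent
  obtain ⟨y1, y2⟩ := main_abs (μ := pm n) (S := S) hG (q := fun i => n * p i)
    (x := fun i => ‖P (w i)‖ ^ 2) (EZ' := fun i => EZ (c i))
    (EL' := fun i => EL (c i) (‖P (w i)‖ ^ 2)) (b := fun i z => ab (c i) P (w i) z)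
    (U := fun z => (Dg S p w (pt z)).trace)
    (V := fun z => (n : ℝ) * ∑ i ∈ S, p i * (xi (c i) (pt z) (w i) - EZ (c i)))
    (c0 := Real.log (1 - de n) * (∑ i ∈ S, (n * p i) * ‖P (w i)‖ ^ 2) +
      (∑ i ∈ S, (n * p i) * (EZ (c i) - 1 + ‖P (w i)‖ ^ 2)) - 3 * κ')
    (d := de n) (δ := (Real.log n ^ 8)⁻¹) (W := Real.log n ^ 5) (a1 := (Real.log n ^ 4)⁻¹)
    (a2 := (Real.log n ^ 6)⁻¹)
    (fun i _ => mul_nonneg (Nat.cast_nonneg n) (hW.iso.ppos i).le) (fun i _ => sq_nonneg _)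
    (fun i hi => (hf i hi).1) (fun i hi => (hf i hi).2.1) (fun i hi => (hf i hi).2.2.1)
    (fun i hi => (hf i hi).2.2.2.2.1) (fun i hi => (hf i hi).2.2.2.1)
    (fun i hi => (hf i hi).2.2.2.2.2.1) (fun i hi => (hf i hi).2.2.2.2.2.2)
    u1 u3 u2 (u4.le.trans hW.tv) v7 v3 v8 (v4.le.trans v2) hδ (by positivity) (by positivity)
    d3 (by linarith)
  have hco : (n : ℝ) * ∑ i ∈ S, p i * co (c i) (‖P (w i)‖ ^ 2) =
      -(∑ i ∈ S, (n * p i) * (EZ (c i) - 1 + ‖P (w i)‖ ^ 2) +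
        ∑ i ∈ S, n * p i * ‖P (w i)‖ ^ 2 * EL (c i) (‖P (w i)‖ ^ 2) -
        ∑ i ∈ S, n * p i * ‖P (w i)‖ ^ 2 * EZ (c i)) := by
    rw [← Finset.sum_add_distrib, ← Finset.sum_sub_distrib, Finset.mul_sum,
      ← Finset.sum_neg_distrib]
    refine Finset.sum_congr rfl fun i _ => ?_
    unfold co
    ring
  have her := errs (κ := κ) hC k0 k1 k2 hl1 b4 b5 d2 d3 w3 w4 hKb
  -- the pointwise bound
  have hpt : ∀ z ∈ G, Real.exp (Real.log (1 - de n) * (∑ i ∈ S, (n * p i) * ‖P (w i)‖ ^ 2) +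
      (∑ i ∈ S, (n * p i) * (EZ (c i) - 1 + ‖P (w i)‖ ^ 2)) - 3 * κ' +
      ∑ i ∈ S, n * p i * ‖P (w i)‖ ^ 2 * Real.log (ab (c i) P (w i) z) +
      (Dg S p w (pt z)).trace +
      (n : ℝ) * ∑ i ∈ S, p i * (xi (c i) (pt z) (w i) - EZ (c i)) -
      (1 - de n) * ∑ i ∈ S, n * p i * ‖P (w i)‖ ^ 2 * ab (c i) P (w i) z) ≤
      (Mx S p w c (pt z)).det := by
    intro z hz
    refine le_trans ?_ (h1 n m ι S p w c P (Real.log n ^ 5) (Real.log n ^ 125)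
      (Real.log n ^ 1103) κ' (Real.log n ^ (-4400 : ℝ)) z a1 hW.iso hW.pr (one_le_pow₀ hl1)
      ?_ ?_ ?_ k0 (by linarith) (by positivity) ?_ ?_ hW.lam
      (num1 k0 hl1 b3 c2 hn1) d1 (hGD z hz))
    · exact Real.exp_le_exp.2 (expo (x := fun i => ‖P (w i)‖ ^ 2)
        (b := fun i => ab (c i) P (w i) z) (ξ := fun i => xi (c i) (pt z) (w i))
        (EZ' := fun i => EZ (c i)) (U := (Dg S p w (pt z)).trace) (κ' := κ') d3 (by linarith)
        (fun i _ => (hW.iso.ppos i).le) (fun i _ => sq_nonneg _) (fun i hi => (hf i hi).1 z))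
    · rw [← pow_mul]
      linarith
    · calc (8 : ℝ) ≤ Real.log n := b1
        _ ≤ Real.log n ^ 125 := le_self_pow₀ hl1 (by norm_num)
    · exact pow_le_pow_right₀ hl1 (by norm_num)
    · exact w1.trans (pow_le_pow_right₀ hl1 (by norm_num))
    · intro i hi
      refine ⟨(hW.pf i hi).dif.continuous, fun s => ⟨(hW.pf i hi).pos s, ?_⟩⟩
      calc 2 * Real.log n ^ 5 * c i s ≤ 2 * Real.log n ^ 5 * (C * Real.log n ^ 550) := by
            have := w2 i hi s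
            gcongr
        _ = 2 * C * Real.log n ^ 555 := by ring
        _ ≤ Real.log n * Real.log n ^ 555 := by gcongr
        _ = Real.log n ^ 556 := by rw [← pow_succ']
        _ ≤ Real.log n ^ 1103 := pow_le_pow_right₀ hl1 (by norm_num)
  have hfin := last (μ := pm n) hG z4 (fun z => z2 (pt z)) y1 hpt
    (s := (n : ℝ) * ∑ i ∈ S, p i * co (c i) (‖P (w i)‖ ^ 2) + κ / 2) (r := κ / 2)
    (by linarith) hδ (by
      rw [← hθe]
      exact prob_small hκ hθ hl1 b6 (by linarith)) (by linarith)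
  have hX0 := X0_nonneg n
  calc X0 n * Real.exp (-(n * ∑ i ∈ S, p i * co (c i) (‖P (w i)‖ ^ 2)) - κ)
      = X0 n * Real.exp (-(n * ∑ i ∈ S, p i * co (c i) (‖P (w i)‖ ^ 2) + κ / 2) - κ / 2) := by
        congr 2
        ring
    _ ≤ X0 n * ∫ z, (Mx S p w c (pt z)).det ∂(pm n) := by gcongr
    _ = X0 n * ∫ x, (Mx S p w c x).det ∂(mun n) := by rw [z5]
    _ ≤ XT p w := z3

end PPW
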