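import Pool.Agent.PPW.Stmts

/-!
Module WMA: the window.
-/

set_option autoImplicit false

namespace PPW

open MeasureTheory Set Filter Topology ProbabilityTheory
open PPI PPG PPX
open scoped Pointwise ENNReal

theorem wma_proof (hWSE : Stmt_WSE) (hWAN : Stmt_WAN) : Stmt_WMA := by
  intro c₀ C₁ hc₀ hC₁
  obtain ⟨C, hC, hS⟩ := hWSE
  have hκ : 0 < c₀ / 2000 := by positivity
  obtain ⟨n1, h1⟩ := hS C₁ (c₀ / 2000) hC₁ hκ
  obtain ⟨n2, h2⟩ := hWAN C (c₀ / 2000) hC hκ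
  refine ⟨max n1 n2, ?_⟩
  intro n ι _ p w D hn hI hM hD1 hD2
  obtain ⟨m, P, S, ω, c, hW, hsum⟩ := h1 n ι p w D ((le_max_left _ _).trans hn) hI hM hD2
  have h3 := h2 n m ι P S p ω w c ((le_max_right _ _).trans hn) hW
  have hX0 : 0 ≤ X0 n := by
    have k1 : 0 ≤ kap n := ENNReal.toReal_nonneg
    have k2 : 0 ≤ kap (n - 1) := ENNReal.toReal_nonneg
    rw [X0]
    positivity
  have h4 : Real.exp (D / 250) ≤
      Real.exp D * Real.exp (-(n * ∑ i ∈ S, p i * co (c i) (‖P (w i)‖ ^ 2)) - c₀ / 2000) := by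
    rw [← Real.exp_add]
    apply Real.exp_le_exp.2
    linarith
  calc X0 n * Real.exp (D / 250) ≤ X0 n * (Real.exp D *
        Real.exp (-(n * ∑ i ∈ S, p i * co (c i) (‖P (w i)‖ ^ 2)) - c₀ / 2000)) :=
        mul_le_mul_of_nonneg_left h4 hX0
    _ = Real.exp D * (X0 n *
        Real.exp (-(n * ∑ i ∈ S, p i * co (c i) (‖P (w i)‖ ^ 2)) - c₀ / 2000)) := by ring
    _ ≤ Real.exp D * XT p w := mul_le_mul_of_nonneg_left h3 (Real.exp_pos _).le

end PPW
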