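import Pool.Agent.PPW.Stmts

/-!
# Squad PPW (MP_0bf616_gt): module WSE, the choice of the data
-/

set_option autoImplicit false

namespace PPW

open MeasureTheory Set Filter Topology ProbabilityTheory
open PPI PPG PPX
open scoped Pointwise ENNReal

noncomputable section

namespace WSE_

/-! ### asymptotics -/

theorem asym (K : ℝ) : ∃ n₀ : ℕ, ∀ n : ℕ, n₀ ≤ n → K ≤ Real.log n ∧
    K * Real.log n ^ 20000 ≤ (n : ℝ) ^ (1 / 10 : ℝ) := by
  have h1 : ∀ᶠ x : ℝ in atTop, K ≤ Real.log x := Real.tendsto_log_atTop.eventually_ge_atTop K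
  have h2 : ∀ᶠ x : ℝ in atTop, K * Real.log x ^ 20000 ≤ x ^ (1 / 10 : ℝ) := by
    have h := (isLittleO_log_rpow_rpow_atTop (s := 1 / 10) (20000 : ℝ) (by norm_num)).bound
      (show (0 : ℝ) < 1 / (|K| + 1) by positivity)
    filter_upwards [h, eventually_gt_atTop 1] with x hx hx1
    have hl : 0 < Real.log x := Real.log_pos hx1
    have hx0 : 0 < x := by linarith
    have h3 : Real.log x ^ (20000 : ℝ) = Real.log x ^ 20000 := by
      rw [← Real.rpow_natCast]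
      norm_num
    rw [h3, Real.norm_of_nonneg (by positivity), Real.norm_of_nonneg (by positivity)] at hx
    have h4 : (|K| + 1) * Real.log x ^ 20000 ≤ x ^ (1 / 10 : ℝ) := by
      have h5 : (0 : ℝ) < |K| + 1 := by positivity
      rw [one_div, inv_mul_eq_div, le_div_iff₀ h5] at hx
      linarith
    refine le_trans (mul_le_mul_of_nonneg_right ?_ (by positivity)) h4
    linarith [le_abs_self K]
  have h3 := tendsto_natCast_atTop_atTop.eventually (h1.and h2)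
  obtain ⟨n₀, hn₀⟩ := eventually_atTop.1 h3
  exact ⟨n₀, fun n hn => hn₀ n hn⟩

/-- the numerical facts; `l = log n`, `y = n^(1/10)` -/
structure NF (C₁ κ K : ℝ) (n : ℕ) (l : ℝ) : Prop where
  l1 : 1 ≤ l
  n1 : (1 : ℝ) ≤ n
  f2 : 8 / (n : ℝ) ≤ (l ^ 10000)⁻¹
  f3 : 400 * (C₁ * l) * l ^ 10000 ≤ (n : ℝ) ^ (1 / 10 : ℝ)
  f4 : (l ^ 1100)⁻¹ ≤ 1 / 100
  f5 : 8 * √(n : ℝ) + 1 ≤ (l ^ 1100)⁻¹ * n
  f6 : (n : ℝ) ^ (-(1 / 5 : ℝ)) ≤ (l ^ 1100)⁻¹ / 4
  f7 : 4 * (C₁ * l + 1) ≤ l ^ 2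
  f8 : 1 / (n : ℝ) + (n : ℝ) ^ (-(1 / 5 : ℝ)) * l ^ 1102 ≤ κ
  f10 : l ^ 1102 * (l ^ 10000)⁻¹ ≤ ((l ^ 4400)⁻¹) ^ 2
  g1 : K * ((l ^ 1100)⁻¹ * l) ≤ (l ^ 1050)⁻¹
  g2 : (l ^ 10000)⁻¹ ≤ (l ^ 1100)⁻¹
  g3 : K * (1 / (n : ℝ)) ≤ (l ^ 1050)⁻¹
  g4 : K * ((l ^ 1102 + (l ^ 1102) ^ 2) / n) ≤ 2 * (l ^ 1050)⁻¹
  g5 : 2 * l ^ 4 + 2 * ((l ^ 4400)⁻¹ * l ^ 1102) + (l ^ 1050)⁻¹ ≤ l ^ 5

theorem nf (C₁ κ K : ℝ) (n : ℕ) (hC : 0 < C₁) (hκ : 0 < κ) (hK : 100 + 400 * C₁ + 2 / κ ≤ K)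
    (h1 : K ≤ Real.log n) (h2 : K * Real.log n ^ 20000 ≤ (n : ℝ) ^ (1 / 10 : ℝ)) :
    NF C₁ κ K n (Real.log n) := by
  set l := Real.log n with hl
  have hκ' : 0 < 2 / κ := by positivity
  have hK100 : 100 ≤ K := by linarith
  have hl1 : 1 ≤ l := by linarith
  have hl0 : 0 < l := by linarith
  have hn0 : 1 ≤ n := by
    by_contra hcon
    have : n = 0 := by omega
    rw [this] at hl
    simp at hl
    linarith
  have hn1 : (1 : ℝ) ≤ n := by exact_mod_cast hn0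
  have hnp : (0 : ℝ) < n := by linarith
  set y := (n : ℝ) ^ (1 / 10 : ℝ) with hy
  have hK0 : 0 < K := by linarith
  have pw : ∀ a : ℕ, a ≤ 20000 → K * l ^ a ≤ y := fun a ha =>
    (mul_le_mul_of_nonneg_left (pow_le_pow_right₀ hl1 ha) hK0.le).trans h2
  have hyK : K ≤ y := by
    have := pw 0 (by norm_num)
    simpa using this
  have hy1 : 1 ≤ y := by linarith
  have hy0 : 0 < y := by linarith
  have hn : (n : ℝ) = y ^ 10 := by
    rw [hy, ← Real.rpow_natCast, ← Real.rpow_mul hnp.le]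
    norm_num
  have hsq : √(n : ℝ) = y ^ 5 := by
    rw [hn, show y ^ 10 = (y ^ 5) ^ 2 by ring, Real.sqrt_sq (by positivity)]
  have hh : (n : ℝ) ^ (-(1 / 5 : ℝ)) = (y ^ 2)⁻¹ := by
    rw [Real.rpow_neg hnp.le, hy, ← Real.rpow_natCast, ← Real.rpow_mul hnp.le]
    norm_num
  have hyp : ∀ j : ℕ, 1 ≤ j → y ≤ y ^ j := fun j hj => by
    calc y = y ^ 1 := (pow_one y).symm
      _ ≤ y ^ j := pow_le_pow_right₀ hy1 hj
  have hlp : ∀ a : ℕ, 0 < l ^ a := fun a => by positivity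
  have hle : ∀ a b : ℕ, a ≤ b → l ^ a ≤ l ^ b := fun a b h => pow_le_pow_right₀ hl1 h
  refine
    { l1 := hl1
      n1 := hn1
      f2 := ?_
      f3 := ?_
      f4 := ?_
      f5 := ?_
      f6 := ?_
      f7 := ?_
      f8 := ?_
      f10 := ?_
      g1 := ?_
      g2 := ?_
      g3 := ?_
      g4 := ?_
      g5 := ?_ }
  · rw [hn, div_le_iff₀ (by positivity), inv_mul_eq_div, le_div_iff₀ (hlp _)]
    have h3 := pw 10000 (by norm_num)
    have h4 := hyp 10 (by norm_num)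
    have h5 := hlp 10000
    nlinarith
  · have h3 := pw 10001 (by norm_num)
    have h4 : 400 * (C₁ * l) * l ^ 10000 = 400 * C₁ * l ^ 10001 := by ring
    rw [h4]
    refine le_trans (mul_le_mul_of_nonneg_right ?_ (hlp _).le) h3
    linarith
  · rw [one_div]
    apply inv_anti₀ (by norm_num)
    calc (100 : ℝ) ≤ l := by linarith
      _ = l ^ 1 := (pow_one l).symm
      _ ≤ l ^ 1100 := hle _ _ (by norm_num)
  · rw [hsq, hn, inv_mul_eq_div, le_div_iff₀ (hlp _)]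
    have h3 := pw 1100 (by norm_num)
    have h4 := hyp 5 (by norm_num)
    have h5 := hlp 1100
    have h6 : 9 * l ^ 1100 ≤ y ^ 5 := by nlinarith
    have h7 : (1 : ℝ) ≤ y ^ 5 := by linarith
    have h8 : y ^ 10 = y ^ 5 * y ^ 5 := by ring
    rw [h8]
    nlinarith
  · rw [hh, ← one_div, ← one_div, div_div, div_le_div_iff₀ (by positivity) (by positivity)]
    have h3 := pw 1100 (by norm_num)
    have h4 := hyp 2 (by norm_num)
    have h5 := hlp 1100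
    nlinarith
  · have h3 : 4 * (C₁ + 1) ≤ l := by linarith
    nlinarith
  · rw [hh, hn]
    have h3 := pw 1102 (by norm_num)
    have h4 : 1 / y ^ 10 ≤ 1 / K := one_div_le_one_div_of_le hK0 (hyK.trans (hyp 10 (by norm_num)))
    have h5 : (y ^ 2)⁻¹ * l ^ 1102 ≤ 1 / K := by
      rw [inv_mul_eq_div, div_le_div_iff₀ (by positivity) hK0, one_mul]
      have h6 := hyp 2 (by norm_num)
      linarith
    have h6 : 2 / K ≤ κ := by
      rw [div_le_iff₀ hK0]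
      have h7 : 2 / κ ≤ K := by linarith
      rw [div_le_iff₀ hκ] at h7
      linarith
    have h7 : 1 / K + 1 / K = 2 / K := by ring
    linarith
  · rw [inv_pow, ← pow_mul, ← one_div, ← one_div, mul_one_div,
      div_le_div_iff₀ (hlp _) (hlp _), one_mul, ← pow_add]
    exact hle _ _ (by norm_num)
  · rw [inv_mul_eq_div, ← one_div, mul_div_assoc', div_le_div_iff₀ (hlp _) (hlp _), one_mul]
    have h3 : l * l ^ 1050 = l ^ 1051 := by ring
    have h4 : l ^ 1100 = l * l ^ 1099 := by ring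
    have h5 := hle 1051 1099 (by norm_num)
    have h6 := hlp 1099
    rw [mul_assoc, h3, h4]
    nlinarith
  · exact inv_anti₀ (hlp _) (hle _ _ (by norm_num))
  · rw [hn, ← one_div, mul_one_div, div_le_div_iff₀ (by positivity) (hlp _), one_mul]
    exact (pw 1050 (by norm_num)).trans (hyp 10 (by norm_num))
  · rw [hn, ← one_div, mul_div_assoc', mul_one_div, div_le_div_iff₀ (by positivity) (hlp _)]
    have h3 := (pw 3254 (by norm_num)).trans (hyp 10 (by norm_num))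
    have h4 : l ^ 1102 ≤ l ^ 2204 := hle _ _ (by norm_num)
    have h5 : (l ^ 1102) ^ 2 = l ^ 2204 := by ring
    have h6 : l ^ 2204 * l ^ 1050 = l ^ 3254 := by ring
    rw [h5]
    have h7 : K * (l ^ 1102 + l ^ 2204) * l ^ 1050 ≤ K * (2 * l ^ 2204) * l ^ 1050 := by
      apply mul_le_mul_of_nonneg_right _ (hlp _).le
      apply mul_le_mul_of_nonneg_left _ hK0.le
      linarith
    refine h7.trans ?_
    calc K * (2 * l ^ 2204) * l ^ 1050 = 2 * (K * (l ^ 2204 * l ^ 1050)) := by ring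
      _ = 2 * (K * l ^ 3254) := by rw [h6]
      _ ≤ 2 * y ^ 10 := by linarith
  · have h3 : (l ^ 4400)⁻¹ * l ^ 1102 ≤ 1 := by
      rw [inv_mul_eq_div, div_le_one (hlp _)]
      exact hle _ _ (by norm_num)
    have h4 : (l ^ 1050)⁻¹ ≤ 1 := inv_le_one_of_one_le₀ (one_le_pow₀ hl1)
    have h5 : l ^ 5 = l * l ^ 4 := by ring
    have h6 : 1 ≤ l ^ 4 := one_le_pow₀ hl1
    rw [h5]
    nlinarith

theorem rp (l : ℝ) (hl : 0 ≤ l) (k : ℕ) : l ^ (-(k : ℝ)) = (l ^ k)⁻¹ := by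
  rw [Real.rpow_neg hl, Real.rpow_natCast]

/-! ### arithmetic -/

theorem mass {βb βv Φ X D h η ni : ℝ} (hJ : (7 / 8 - h) * βv + (Φ - h * βb) ≤ D + ni)
    (hX : X ≤ 2 * Φ) (hη : η * βb ≤ X) (hb : 0 ≤ βb) (hv : 0 ≤ βv) (h4 : h ≤ η / 4)
    (h5 : h ≤ 1 / 400) (hη1 : η ≤ 1) (hni : ni ≤ 1) :
    X + βv ≤ 4 * (D + 1) ∧ η * (βb + βv) ≤ X + βv := by
  have h6 : h * βb ≤ η / 4 * βb := mul_le_mul_of_nonneg_right h4 hb
  have h7 : h * βv ≤ 1 / 400 * βv := mul_le_mul_of_nonneg_right h5 hv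
  have h8 : η * βv ≤ 1 * βv := mul_le_mul_of_nonneg_right hη1 hv
  constructor
  · linarith
  · linarith

theorem final {CX CT C₁ D l η q0 ni Bn Tt J τ K : ℝ} (hCX : 0 < CX) (hCT : 0 < CT)
    (hC₁ : 0 < C₁) (hT : Tt ≤ CT * (8 * (η + q0) * D + Bn)) (hJ : J ≤ 8 * η * (D + ni) + ni)
    (h1 : K * (η * l) ≤ τ) (hq : q0 ≤ η) (h2 : K * ni ≤ τ) (h3 : K * Bn ≤ 2 * τ)
    (hD0 : 0 ≤ D) (hD : D ≤ C₁ * l) (hl : 1 ≤ l) (hni : ni ≤ 1) (hη : 0 ≤ η) (hτ : 0 ≤ τ)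
    (hK : 16 * CX * (16 * CT * C₁ + 2 * CT + 1) + 2 * CX + 8 * (C₁ + 1) + 1 ≤ K) :
    CX / (1 / 16) * (Tt + ni) + CX * Bn + J ≤ τ := by
  have hK0 : 0 < K := by
    have : 0 < 16 * CX * (16 * CT * C₁ + 2 * CT + 1) + 2 * CX + 8 * (C₁ + 1) + 1 := by positivity
    linarith
  set δ := τ / K with hδ
  have hδ0 : 0 ≤ δ := div_nonneg hτ hK0.le
  have hδK : δ * K = τ := div_mul_cancel₀ τ hK0.ne'
  have e1 : η * l ≤ δ := by
    rw [hδ, le_div_iff₀ hK0]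
    linarith
  have e2 : ni ≤ δ := by
    rw [hδ, le_div_iff₀ hK0]
    linarith
  have e3 : Bn ≤ 2 * δ := by
    have : Bn ≤ 2 * τ / K := by
      rw [le_div_iff₀ hK0]
      linarith
    rw [hδ]
    linarith [mul_div_assoc 2 τ K]
  have e4 : η ≤ δ := by
    have : η * 1 ≤ η * l := mul_le_mul_of_nonneg_left hl hη
    linarith
  have e5 : η * D ≤ C₁ * δ := by
    have h5 : η * D ≤ η * (C₁ * l) := mul_le_mul_of_nonneg_left hD hη
    have h6 : C₁ * (η * l) ≤ C₁ * δ := mul_le_mul_of_nonneg_left e1 hC₁.le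
    linarith
  have e6 : q0 * D ≤ η * D := mul_le_mul_of_nonneg_right hq hD0
  have e7 : η * ni ≤ η * 1 := mul_le_mul_of_nonneg_left hni hη
  have e8 : Tt ≤ CT * (16 * (C₁ * δ) + 2 * δ) := by
    refine hT.trans (mul_le_mul_of_nonneg_left ?_ hCT.le)
    linarith
  have e9 : J ≤ 8 * (C₁ * δ + δ) + δ := by linarith
  have e10 : 16 * CX * (Tt + ni) ≤ 16 * CX * (CT * (16 * (C₁ * δ) + 2 * δ) + δ) :=
    mul_le_mul_of_nonneg_left (by linarith) (by positivity)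
  have e11 : CX * Bn ≤ CX * (2 * δ) := mul_le_mul_of_nonneg_left e3 hCX.le
  have e12 : (16 * CX * (16 * CT * C₁ + 2 * CT + 1) + 2 * CX + 8 * (C₁ + 1) + 1) * δ ≤ K * δ :=
    mul_le_mul_of_nonneg_right hK hδ0
  have e13 : CX / (1 / 16) = 16 * CX := by ring
  rw [e13]
  linarith

theorem norm_sq_le {n m : ℕ} {P : EE n →L[ℝ] EE n} (hP : PR m P) {v : EE n} (hv : ‖v‖ = 1) :
    ‖P v‖ ^ 2 ≤ 1 := by
  have h1 : ‖P v‖ ^ 2 = inner ℝ v (P v) := by
    rw [← real_inner_self_eq_norm_sq, hP.sym, hP.idem]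
  have h2 : inner ℝ v (P v) ≤ ‖v‖ * ‖P v‖ := real_inner_le_norm _ _
  rw [hv, one_mul] at h2
  nlinarith [norm_nonneg (P v)]

theorem inner_sq_le {n : ℕ} {v w : EE n} (hv : ‖v‖ = 1) (hw : ‖w‖ = 1) :
    (inner ℝ v w) ^ 2 ≤ 1 := by
  have h := abs_real_inner_le_norm v w
  rw [hv, hw, one_mul] at h
  rw [← sq_abs]
  exact pow_le_one₀ (abs_nonneg _) h

theorem JJ_le (hKEN : PPX.Stmt_KEN) {n : ℕ} (hn : 4 ≤ n) {ι : Type} [Fintype ι] {p : ι → ℝ}
    {w : ι → EE n} (hIS : IS p w) (θ : ℝ) (i : ι) :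
    JJ θ p w i ≤ (n : ℝ) ^ 2 * ((8 * √(n : ℝ) + 1) * nm θ p w i) := by
  obtain ⟨c, -, -, -, -, hk, -⟩ := hKEN n hn
  unfold JJ nm
  apply mul_le_mul_of_nonneg_left _ (by positivity)
  rw [Finset.mul_sum]
  apply Finset.sum_le_sum
  intro j _
  split_ifs
  · have h1 := (hk _ (inner_sq_le (hIS.nrm i) (hIS.nrm j))).2
    have h2 := hIS.ppos j
    have h3 := mul_le_mul_of_nonneg_left h1 h2.le
    linarith
  · simp

theorem half_le {x : ℝ} (hx : x ≤ 1) : x / 2 ≤ 1 - √(1 - x) := by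
  have h1 : 0 ≤ 1 - x := by linarith
  have h2 := Real.sq_sqrt h1
  have h3 := Real.sqrt_nonneg (1 - x)
  nlinarith [sq_nonneg (√(1 - x) - 1)]

end WSE_

theorem wse_proof (hNUM : Stmt_NUM) (hSEL : Stmt_SEL) (hLMB : Stmt_LMB) (hJTB : Stmt_JTB)
    (hTB2 : Stmt_TB2) (hXE2 : Stmt_XE2) (hXU2 : Stmt_XU2) (hBBB : Stmt_BBB)
    (hLAY : PPX.Stmt_LAY) (hKEN : PPX.Stmt_KEN) (hCRE : PPG.Stmt_CRE) : Stmt_WSE := by
  classical
  obtain ⟨C, hC, hN1, hN2⟩ := hNUM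
  refine ⟨C, hC, fun C₁ κ hC₁ hκ => ?_⟩
  obtain ⟨nS, hS⟩ := hSEL
  obtain ⟨nJ, hJ⟩ := hJTB 2 1
  obtain ⟨CT, nT, hCT, hT⟩ := hTB2 (2 + 1)
  obtain ⟨CX, hCX, hX⟩ := hXU2 2 le_rfl
  obtain ⟨nL, hL⟩ := hLAY 1 1
  obtain ⟨c₀, C₀, hc0, hc1, hC0, hCR⟩ := hCRE
  obtain ⟨nA, hA⟩ := WSE_.asym ((100 + 400 * C₁ + 2 / κ) +
    (16 * CX * (16 * CT * C₁ + 2 * CT + 1) + 2 * CX + 8 * (C₁ + 1) + 1))
  refine ⟨max 4 (max nS (max nJ (max nT (max nL nA)))), ?_⟩
  intro n ι _ p w D hn hIS hMI hD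
  simp only [max_le_iff] at hn
  obtain ⟨hn4, hnS, hnJ, hnT, hnL, hnA⟩ := hn
  have hpos1 : 0 < 16 * CX * (16 * CT * C₁ + 2 * CT + 1) + 2 * CX + 8 * (C₁ + 1) + 1 := by
    positivity
  have hpos2 : 0 < 100 + 400 * C₁ + 2 / κ := by positivity
  set K : ℝ := (100 + 400 * C₁ + 2 / κ) +
    (16 * CX * (16 * CT * C₁ + 2 * CT + 1) + 2 * CX + 8 * (C₁ + 1) + 1) with hKdef
  have hNF : WSE_.NF C₁ κ K n (Real.log n) :=
    WSE_.nf C₁ κ K n hC₁ hκ (by linarith) (hA n hnA).1 (hA n hnA).2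
  set l := Real.log n with hl
  have hl1 := hNF.l1
  have hl0 : 0 < l := by linarith
  have hn1 := hNF.n1
  have hnp : (0 : ℝ) < n := by linarith
  have hD0 : 0 ≤ D := (hCR n ι p w D (by omega) hIS hMI).1
  set η := (l ^ 1100)⁻¹ with hη
  set q0 := (l ^ 10000)⁻¹ with hq0
  set h := (n : ℝ) ^ (-(1 / 5 : ℝ)) with hh
  have hη0 : 0 < η := by positivity
  have hq00 : 0 < q0 := by positivity
  have hh0 : 0 < h := by positivity
  have hη1 : η ≤ 1 := hNF.f4.trans (by norm_num)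
  have rpA : l ^ (-1100 : ℝ) = η := by
    have := WSE_.rp l hl0.le 1100
    push_cast at this
    exact this
  have rpB : l ^ (-4400 : ℝ) = (l ^ 4400)⁻¹ := by
    have := WSE_.rp l hl0.le 4400
    push_cast at this
    exact this
  have rpC : l ^ (-1050 : ℝ) = (l ^ 1050)⁻¹ := by
    have := WSE_.rp l hl0.le 1050
    push_cast at this
    exact this
  -- the projection
  obtain ⟨m, e, he, hm, hQ⟩ := hS n ι p w D q0 hnS hIS hMI hNF.f2
  have hm' : (m : ℝ) ≤ (n : ℝ) ^ (1 / 10 : ℝ) := by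
    have h1 : (m : ℝ) ≤ 400 * D * l ^ 10000 := by
      rw [hq0, ← div_eq_mul_inv, div_le_iff₀ (by positivity)] at hm
      exact hm
    have h2 : 400 * D * l ^ 10000 ≤ 400 * (C₁ * l) * l ^ 10000 := by
      apply mul_le_mul_of_nonneg_right _ (by positivity)
      linarith
    exact (h1.trans h2).trans hNF.f3
  obtain ⟨hPR, hLam, hFour⟩ := hLMB n m ι p w e q0 η (by omega) hIS he hq00.le hη0.le hQ
  have hx1 : ∀ i, ‖pj e (w i)‖ ^ 2 ≤ 1 := fun i => WSE_.norm_sq_le hPR (hIS.nrm i)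
  have hx0 : ∀ i, 0 ≤ ‖pj e (w i)‖ ^ 2 := fun i => by positivity
  -- the special set
  set b : Finset ι := Finset.univ.filter (fun i => η ≤ ‖pj e (w i)‖ ^ 2) with hb
  set v : Finset ι := Finset.univ.filter
    (fun i => ¬ (η ≤ ‖pj e (w i)‖ ^ 2) ∧ η * n ≤ JJ (1 / 16) p w i) with hv
  have hmb : ∀ i, i ∈ b ↔ η ≤ ‖pj e (w i)‖ ^ 2 := fun i => by simp [hb]
  have hmv : ∀ i, i ∈ v ↔ ¬ (η ≤ ‖pj e (w i)‖ ^ 2) ∧ η * n ≤ JJ (1 / 16) p w i := fun i => by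
    rw [hv, Finset.mem_filter]
    simp only [Finset.mem_univ, true_and]
  have hdis : Disjoint v b := by
    rw [Finset.disjoint_left]
    intro i hi hi'
    exact ((hmv i).1 hi).1 ((hmb i).1 hi')
  -- the profiles
  have hc : ∀ i, ∃ c : ℝ → ℝ,
      (i ∈ b → PF C (‖pj e (w i)‖ ^ 2) (‖pj e (w i)‖ ^ 2) c ∧
        co c (‖pj e (w i)‖ ^ 2) ≤ 199 / 200 * (1 - √(1 - ‖pj e (w i)‖ ^ 2))) ∧
      (i ∈ v → PF C 1 (‖pj e (w i)‖ ^ 2) c ∧ co c (‖pj e (w i)‖ ^ 2) ≤ 1 / 2) := by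
    intro i
    by_cases hi : i ∈ b
    · obtain ⟨c, h1, h2⟩ := hN1 (‖pj e (w i)‖ ^ 2) (hη0.trans_le ((hmb i).1 hi)) (hx1 i)
      exact ⟨c, fun _ => ⟨h1, h2⟩, fun hi' => absurd hi (Finset.disjoint_left.1 hdis hi')⟩
    · have h3 : ‖pj e (w i)‖ ^ 2 ≤ 1 / 100 := by
        have h4 : ¬ η ≤ ‖pj e (w i)‖ ^ 2 := fun h5 => hi ((hmb i).2 h5)
        exact (not_le.1 h4).le.trans hNF.f4
      obtain ⟨c, h1, h2⟩ := hN2 (‖pj e (w i)‖ ^ 2) (hx0 i) h3
      exact ⟨c, fun hi' => absurd hi' hi, fun _ => ⟨h1, h2⟩⟩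
  choose c hcb hcv using hc
  -- the masses
  have hJ1 := hJ n m ι p w D (1 / 16) e v b hnJ hIS hMI (by norm_num) (by norm_num) he hm' hdis (by
    intro i hi
    have h1 := ((hmv i).1 hi).2
    have h2 := WSE_.JJ_le hKEN hn4 hIS (1 / 16) i
    have h3 := hNF.f5
    have h4 : (0 : ℝ) < 8 * √(n : ℝ) + 1 := by positivity
    have h5 : (n : ℝ) ^ (-((2 : ℕ) : ℝ)) = ((n : ℝ) ^ 2)⁻¹ := WSE_.rp _ hnp.le 2
    rw [h5, inv_le_iff_one_le_mul₀ (by positivity)]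
    have h6 : 8 * √(n : ℝ) + 1 ≤ (8 * √(n : ℝ) + 1) * ((n : ℝ) ^ 2 * nm (1 / 16) p w i) := by
      linarith
    have h7 : 1 ≤ (n : ℝ) ^ 2 * nm (1 / 16) p w i := by
      by_contra hcon
      rw [not_le] at hcon
      have := mul_lt_mul_of_pos_left hcon h4
      linarith
    linarith)
  set βb := (n : ℝ) * ∑ i ∈ b, p i with hβb
  set βv := (n : ℝ) * ∑ i ∈ v, p i with hβv
  set Φ := (n : ℝ) * ∑ i ∈ b, p i * (1 - √(1 - ‖pj e (w i)‖ ^ 2)) with hΦ
  set X := (n : ℝ) * ∑ i ∈ b, p i * ‖pj e (w i)‖ ^ 2 with hXd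
  have hβb0 : 0 ≤ βb := mul_nonneg hnp.le (Finset.sum_nonneg fun i _ => (hIS.ppos i).le)
  have hβv0 : 0 ≤ βv := mul_nonneg hnp.le (Finset.sum_nonneg fun i _ => (hIS.ppos i).le)
  have hJ2 : (7 / 8 - h) * βv + (Φ - h * βb) ≤ D + 1 / n := by
    have h1 : (n : ℝ) * ∑ i ∈ v, p i * (1 - 2 * (1 / 16) - h) = (7 / 8 - h) * βv := by
      rw [← Finset.sum_mul, hβv]
      ring
    have h2 : (n : ℝ) * ∑ i ∈ b, p i * (1 - √(1 - ‖pj e (w i)‖ ^ 2) - h) = Φ - h * βb := by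
      rw [hΦ, hβb]
      have h3 : ∑ i ∈ b, p i * (1 - √(1 - ‖pj e (w i)‖ ^ 2) - h) =
          ∑ i ∈ b, p i * (1 - √(1 - ‖pj e (w i)‖ ^ 2)) - h * ∑ i ∈ b, p i := by
        rw [Finset.mul_sum, ← Finset.sum_sub_distrib]
        exact Finset.sum_congr rfl fun i _ => by ring
      rw [h3]
      ring
    have h3 : (n : ℝ) ^ (-((1 : ℕ) : ℝ)) = 1 / n := by
      rw [WSE_.rp _ hnp.le 1, pow_one, one_div]
    rw [h1, h2, h3] at hJ1
    exact hJ1
  have hXΦ : X ≤ 2 * Φ := by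
    have h1 : ∑ i ∈ b, p i * ‖pj e (w i)‖ ^ 2 ≤
        ∑ i ∈ b, 2 * (p i * (1 - √(1 - ‖pj e (w i)‖ ^ 2))) := by
      apply Finset.sum_le_sum
      intro i _
      have h2 := WSE_.half_le (hx1 i)
      have h3 := mul_le_mul_of_nonneg_left h2 (hIS.ppos i).le
      linarith
    rw [← Finset.mul_sum] at h1
    have h2 := mul_le_mul_of_nonneg_left h1 hnp.le
    rw [hXd, hΦ]
    linarith
  have hηX : η * βb ≤ X := by
    have h1 : η * ∑ i ∈ b, p i ≤ ∑ i ∈ b, p i * ‖pj e (w i)‖ ^ 2 := by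
      rw [Finset.mul_sum]
      apply Finset.sum_le_sum
      intro i hi
      rw [mul_comm]
      exact mul_le_mul_of_nonneg_left ((hmb i).1 hi) (hIS.ppos i).le
    have h2 := mul_le_mul_of_nonneg_left h1 hnp.le
    rw [hXd, hβb]
    linarith
  have hni1 : 1 / (n : ℝ) ≤ 1 := by
    rw [div_le_one hnp]
    exact hn1
  have hh400 : h ≤ 1 / 400 := by
    have h1 := hNF.f6
    have h2 := hNF.f4
    linarith
  obtain ⟨hM1, hM2⟩ := WSE_.mass hJ2 hXΦ hηX hβb0 hβv0 hNF.f6 hh400 hη1 hni1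
  have hMl : X + βv ≤ l ^ 2 := by
    have h1 := hNF.f7
    linarith
  -- sums over the special set
  have hSp : (n : ℝ) * ∑ i ∈ b ∪ v, p i = βb + βv := by
    rw [Finset.sum_union hdis.symm, mul_add]
  set β := (n : ℝ) * ∑ i ∈ b ∪ v, p i with hβ
  have hβ0 : 0 ≤ β := by rw [hSp]; linarith
  have hβl : β ≤ l ^ 1102 := by
    have h1 : η * β ≤ l ^ 2 := by rw [hSp]; linarith
    have h2 : β = l ^ 1100 * (η * β) := by
      rw [hη, ← mul_assoc, mul_inv_cancel₀ (by positivity), one_mul]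
    have h3 : l ^ 1100 * l ^ 2 = l ^ 1102 := by ring
    rw [h2, ← h3]
    exact mul_le_mul_of_nonneg_left h1 (by positivity)
  set om' : ι → ℝ := fun i => if i ∈ b then ‖pj e (w i)‖ ^ 2 else 1 with hom'
  have homb : ∀ i ∈ b, om' i = ‖pj e (w i)‖ ^ 2 := fun i hi => by simp [hom', hi]
  have homv : ∀ i ∈ v, om' i = 1 := fun i hi => by
    have : i ∉ b := Finset.disjoint_left.1 hdis hi
    simp [hom', this]
  have hsumom : (n : ℝ) * ∑ i ∈ b ∪ v, p i * om' i = X + βv := by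
    rw [Finset.sum_union hdis.symm, mul_add]
    congr 1
    · rw [hXd]
      congr 1
      exact Finset.sum_congr rfl fun i hi => by rw [homb i hi]
    · rw [hβv]
      congr 1
      exact Finset.sum_congr rfl fun i hi => by rw [homv i hi, mul_one]
  have hxom : ∀ i ∈ b ∪ v, ‖pj e (w i)‖ ^ 2 ≤ om' i ∧ om' i ≤ 1 ∧ η ≤ om' i := by
    intro i hi
    rcases Finset.mem_union.1 hi with hi | hi
    · rw [homb i hi]
      exact ⟨le_rfl, hx1 i, (hmb i).1 hi⟩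
    · rw [homv i hi]
      exact ⟨hx1 i, le_rfl, hη1⟩
  have hlam : ∀ u : EE n, (n : ℝ) * ∑ i ∈ b ∪ v, p i * (inner ℝ (w i - pj e (w i)) u) ^ 2 ≤
      (l ^ 4400)⁻¹ * ‖u‖ ^ 2 := by
    intro u
    refine (hLam (b ∪ v) u).trans (mul_le_mul_of_nonneg_right ?_ (by positivity))
    rw [← hβ]
    apply Real.sqrt_le_iff.2
    refine ⟨by positivity, ?_⟩
    exact (mul_le_mul_of_nonneg_right hβl hq00.le).trans hNF.f10
  -- the narrow part
  have hcp : ∀ i, i ∈ cpl (b ∪ v) → i ∉ b ∧ i ∉ v := by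
    intro i hi
    unfold cpl at hi
    rw [Finset.mem_sdiff] at hi
    refine ⟨fun h1 => hi.2 (Finset.mem_union_left _ h1), fun h1 => hi.2 (Finset.mem_union_right _ h1)⟩
  have hT1 := hT n ι (b ∪ v) p w D (8 * (η + q0)) hnT hIS hMI (by
      have h1 := hNF.f2
      have h2 : 1 / (n : ℝ) ≤ 8 / n := by
        apply div_le_div_of_nonneg_right (by norm_num) hnp.le
      linarith)
    (fun u hu => hFour (cpl (b ∪ v)) (fun i hi => by
      have h1 := (hcp i hi).1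
      rw [hmb] at h1
      exact (not_le.1 h1).le) u hu)
  have hX1 := hX n ι (b ∪ v) p w (1 / 16) hn4 hIS (by norm_num) (by norm_num)
  have hL1 := hL n ι p w D (1 / 16) η (cpl (b ∪ v)) hnL hIS hMI (by norm_num) (by norm_num) hη0
    hη1 (by
      intro i hi
      have h1 := hcp i hi
      rw [hmb, hmv] at h1
      by_contra hcon
      exact h1.2 ⟨h1.1, not_lt.1 hcon⟩)
  have hE := hXE2 n ι (b ∪ v) p w (by omega) hIS
  rw [← hβ] at hT1 hX1
  have hr1 : (n : ℝ) ^ (1 - ((2 : ℕ) : ℝ)) = 1 / n := by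
    have h1 : (1 - ((2 : ℕ) : ℝ)) = -((1 : ℕ) : ℝ) := by norm_num
    rw [h1, WSE_.rp _ hnp.le 1, pow_one, one_div]
  have hr2 : (n : ℝ) ^ (-((1 : ℕ) : ℝ)) = 1 / n := by
    rw [WSE_.rp _ hnp.le 1, pow_one, one_div]
  rw [hr1] at hX1
  rw [hr2] at hL1
  have hBn : K * ((β + β ^ 2) / n) ≤ 2 * (l ^ 1050)⁻¹ := by
    refine le_trans ?_ hNF.g4
    apply mul_le_mul_of_nonneg_left _ (by linarith)
    apply div_le_div_of_nonneg_right _ hnp.le
    have := pow_le_pow_left₀ hβ0 hβl 2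
    linarith
  have hfin := WSE_.final hCX hCT hC₁ hT1 hL1 hNF.g1 hNF.g2 hNF.g3 hBn hD0 hD hl1 hni1 hη0.le
    (by positivity) (by linarith)
  refine ⟨m, pj e, b ∪ v, om', c, ?_, ?_⟩
  · refine
      { iso := hIS
        pr := hPR
        mle := hm'
        om := ?_
        pf := ?_
        sum := ?_
        lam := ?_
        di := hE.1
        dh := ?_
        ti := hE.2.2.1
        t0 := hE.2.2.2.1
        t2 := hE.2.2.2.2.1
        tv := ?_ }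
    · intro i hi
      rw [← hl, rpA]
      exact hxom i hi
    · intro i hi
      rcases Finset.mem_union.1 hi with hi | hi
      · rw [homb i hi]
        exact (hcb i hi).1
      · rw [homv i hi]
        exact (hcv i hi).1
    · rw [hsumom]
      exact hMl
    · intro u
      rw [← hl, rpB]
      exact hlam u
    · rw [← hl, rpC]
      exact hX1.1.trans hfin
    · rw [← hl]
      have hB := (hBBB n m ι (b ∪ v) p w (pj e) (l ^ 4400)⁻¹ (by omega) hIS hPR hlam).2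
      rw [← hβ] at hB
      have h1 : (n : ℝ) * ∑ i ∈ b ∪ v, p i * ‖pj e (w i)‖ ^ 2 ≤ l ^ 2 := by
        refine le_trans ?_ (hsumom.le.trans hMl)
        apply mul_le_mul_of_nonneg_left _ hnp.le
        apply Finset.sum_le_sum
        intro i hi
        exact mul_le_mul_of_nonneg_left (hxom i hi).1 (hIS.ppos i).le
      have h0 : 0 ≤ (n : ℝ) * ∑ i ∈ b ∪ v, p i * ‖pj e (w i)‖ ^ 2 :=
        mul_nonneg hnp.le (Finset.sum_nonneg fun i _ => mul_nonneg (hIS.ppos i).le (hx0 i))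
      have h2 := pow_le_pow_left₀ h0 h1 2
      have h3 : (l ^ 4400)⁻¹ * β ≤ (l ^ 4400)⁻¹ * l ^ 1102 :=
        mul_le_mul_of_nonneg_left hβl (by positivity)
      have h4 := hNF.g5
      have h5 := hX1.2
      have h6 : (l ^ 2) ^ 2 = l ^ 4 := by ring
      rw [h6] at h2
      linarith
  · -- the costs
    have h1 : (n : ℝ) * ∑ i ∈ b ∪ v, p i * co (c i) (‖pj e (w i)‖ ^ 2) ≤
        199 / 200 * Φ + 1 / 2 * βv := by
      rw [Finset.sum_union hdis.symm, mul_add]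
      apply add_le_add
      · have h2 : ∑ i ∈ b, p i * co (c i) (‖pj e (w i)‖ ^ 2) ≤
            ∑ i ∈ b, 199 / 200 * (p i * (1 - √(1 - ‖pj e (w i)‖ ^ 2))) := by
          apply Finset.sum_le_sum
          intro i hi
          have h3 := mul_le_mul_of_nonneg_left (hcb i hi).2 (hIS.ppos i).le
          linarith
        rw [← Finset.mul_sum] at h2
        have h4 := mul_le_mul_of_nonneg_left h2 hnp.le
        rw [hΦ]
        linarith
      · have h2 : ∑ i ∈ v, p i * co (c i) (‖pj e (w i)‖ ^ 2) ≤ ∑ i ∈ v, 1 / 2 * p i := by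
          apply Finset.sum_le_sum
          intro i hi
          have h3 := mul_le_mul_of_nonneg_left (hcv i hi).2 (hIS.ppos i).le
          linarith
        rw [← Finset.mul_sum] at h2
        have h4 := mul_le_mul_of_nonneg_left h2 hnp.le
        rw [hβv]
        linarith
    have h2 : h * (βb + βv) ≤ h * l ^ 1102 := by
      rw [← hSp]
      exact mul_le_mul_of_nonneg_left hβl hh0.le
    have h3 := hNF.f8
    have h4 : Φ + 7 / 8 * βv ≤ D + 1 / n + h * l ^ 1102 := by linarith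
    linarith

end

end PPW
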