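import Pool.Agent.PPW.Stmts

/-!
# Squad PPW (MP_0bf616_gt): module XE2, the second moments of the narrow part.
-/

set_option autoImplicit false

namespace PPW

open MeasureTheory Set Filter Topology ProbabilityTheory
open PPI PPG PPX

namespace XE2_

lemma inner_eq {n : ℕ} (u v : EE n) : inner ℝ u v = ∑ k, u k * v k := by
  rw [PiLp.inner_apply]
  refine Finset.sum_congr rfl fun k _ => ?_
  simp [mul_comm]

lemma tx_inner {n : ℕ} (x a b : EE n) :
    inner ℝ (tx x a) (tx x b) = inner ℝ a b + inner ℝ x a * inner ℝ x b := by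
  unfold tx
  have hr0 : 0 ≤ √(1 + ‖x‖ ^ 2) := Real.sqrt_nonneg _
  have hr2 : √(1 + ‖x‖ ^ 2) ^ 2 = 1 + ‖x‖ ^ 2 := Real.sq_sqrt (by positivity)
  generalize √(1 + ‖x‖ ^ 2) = r at hr0 hr2
  rw [inner_add_left, inner_add_right, inner_add_right, real_inner_smul_left,
    real_inner_smul_left, real_inner_smul_right, real_inner_smul_right,
    real_inner_self_eq_norm_sq, real_inner_comm x a]
  have h0 : (r - 1) * (1 + r) = r ^ 2 - 1 := by ring
  have h1 : ‖x‖ ^ 2 = (r - 1) * (1 + r) := by linarith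
  have h2 : (1 + r) ≠ 0 := by positivity
  rw [h1]
  field_simp
  ring

lemma wv_ww {n : ℕ} (x v : EE n) : wv x v * (1 + (inner ℝ x v) ^ 2) = ww x v := by
  unfold wv ww
  have h : 0 < 1 + (inner ℝ x v) ^ 2 := by positivity
  rw [mul_assoc, Real.rpow_sub_one h.ne', div_mul_cancel₀ _ h.ne']

/-- inner product of matrices -/
noncomputable def ip {n : ℕ} (A B : Matrix (Fin n) (Fin n) ℝ) : ℝ := ∑ k, ∑ l, A k l * B k l

lemma hs_ip {n : ℕ} (A : Matrix (Fin n) (Fin n) ℝ) : hs A = ip A A := by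
  unfold hs ip
  refine Finset.sum_congr rfl fun k _ => Finset.sum_congr rfl fun l _ => ?_
  ring

lemma hs_exp {n : ℕ} (M B : Matrix (Fin n) (Fin n) ℝ) :
    hs (M - 1 + B) = hs M + hs B + n - 2 * M.trace - 2 * B.trace + 2 * ip M B := by
  unfold hs ip Matrix.trace
  simp only [Matrix.sub_apply, Matrix.add_apply, Matrix.diag_apply]
  have h : ∀ k : Fin n, ∑ l, (M k l - (1 : Matrix (Fin n) (Fin n) ℝ) k l + B k l) ^ 2
      = ∑ l, M k l ^ 2 + ∑ l, B k l ^ 2 + 2 * ∑ l, M k l * B k l +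
        (1 - 2 * M k k - 2 * B k k) := by
    intro k
    have h1 : ∀ l, (M k l - (1 : Matrix (Fin n) (Fin n) ℝ) k l + B k l) ^ 2
        = M k l ^ 2 + B k l ^ 2 + 2 * (M k l * B k l) +
          (if k = l then (1 - 2 * M k l - 2 * B k l) else 0) := by
      intro l
      rw [Matrix.one_apply]
      split_ifs with hkl
      · ring
      · ring
    rw [Finset.sum_congr rfl fun l _ => h1 l, Finset.sum_add_distrib, Finset.sum_add_distrib,
      Finset.sum_add_distrib, Finset.sum_ite_eq Finset.univ k, ← Finset.mul_sum]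
    simp only [Finset.mem_univ, if_true]
  rw [Finset.sum_congr rfl fun k _ => h k, Finset.sum_add_distrib, Finset.sum_add_distrib,
    Finset.sum_add_distrib, Finset.sum_sub_distrib, Finset.sum_sub_distrib,
    ← Finset.mul_sum, ← Finset.mul_sum, ← Finset.mul_sum]
  simp only [Finset.sum_const, Finset.card_univ, Fintype.card_fin, nsmul_eq_mul, mul_one]
  ring

lemma tr_sm {n : ℕ} {ι : Type} (S : Finset ι) (α : ι → ℝ) (u : ι → EE n) :
    (sm S α u).trace = ∑ i ∈ S, α i * inner ℝ (u i) (u i) := by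
  unfold sm Matrix.trace
  simp only [Matrix.diag_apply, Matrix.of_apply]
  rw [Finset.sum_comm]
  refine Finset.sum_congr rfl fun i _ => ?_
  rw [inner_eq, Finset.mul_sum]

lemma ip_sm {n : ℕ} {ι : Type} (S T : Finset ι) (α β : ι → ℝ) (u v : ι → EE n) :
    ip (sm S α u) (sm T β v) = ∑ i ∈ S, ∑ j ∈ T, α i * β j * (inner ℝ (u i) (v j)) ^ 2 := by
  unfold ip sm
  simp only [Matrix.of_apply, inner_eq]
  calc _ = ∑ k, ∑ l, ∑ i ∈ S, ∑ j ∈ T,
        α i * (u i k * u i l) * (β j * (v j k * v j l)) := by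
        refine Finset.sum_congr rfl fun k _ => Finset.sum_congr rfl fun l _ => ?_
        rw [Finset.sum_mul_sum]
    _ = ∑ k, ∑ i ∈ S, ∑ l, ∑ j ∈ T,
        α i * (u i k * u i l) * (β j * (v j k * v j l)) := by
        refine Finset.sum_congr rfl fun k _ => ?_
        rw [Finset.sum_comm]
    _ = ∑ i ∈ S, ∑ k, ∑ l, ∑ j ∈ T,
        α i * (u i k * u i l) * (β j * (v j k * v j l)) :=
        Finset.sum_comm
    _ = ∑ i ∈ S, ∑ k, ∑ j ∈ T, ∑ l,
        α i * (u i k * u i l) * (β j * (v j k * v j l)) := by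
        refine Finset.sum_congr rfl fun i _ => Finset.sum_congr rfl fun k _ => ?_
        rw [Finset.sum_comm]
    _ = ∑ i ∈ S, ∑ j ∈ T, ∑ k, ∑ l,
        α i * (u i k * u i l) * (β j * (v j k * v j l)) := by
        refine Finset.sum_congr rfl fun i _ => ?_
        rw [Finset.sum_comm]
    _ = _ := by
        refine Finset.sum_congr rfl fun i _ => Finset.sum_congr rfl fun j _ => ?_
        rw [sq, Finset.sum_mul_sum, Finset.mul_sum]
        refine Finset.sum_congr rfl fun k _ => ?_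
        rw [Finset.mul_sum]
        refine Finset.sum_congr rfl fun l _ => ?_
        ring

/-- the integrand of `IN3` -/
noncomputable def br {n : ℕ} (x a b : EE n) : ℝ := wv x a * wv x b *
      ((1 + (inner ℝ x a) ^ 2) * (1 + (inner ℝ x b) ^ 2) -
        (inner ℝ a b + inner ℝ x a * inner ℝ x b) ^ 2)

/-- the integrand of `GMA` -/
noncomputable def gmx {n : ℕ} (x a b : EE n) : ℝ := wv x a * (inner ℝ (tx x a) b) ^ 2

lemma sum_cpl {ι : Type} [Fintype ι] (S : Finset ι) (F : ι → ℝ) :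
    ∑ i ∈ cpl S, F i + ∑ i ∈ S, F i = ∑ i, F i := by
  classical
  unfold cpl
  exact Finset.sum_sdiff (Finset.subset_univ S)

lemma comb_int {n : ℕ} (μ : Measure (EE n)) [IsProbabilityMeasure μ] {A B P T : EE n → ℝ}
    (c : ℝ) (hA : Integrable A μ) (hB : Integrable B μ) (hP : Integrable P μ)
    (hT : Integrable T μ) :
    Integrable (fun x => A x - B x + 2 * P x - 2 * T x + c) μ ∧
    ∫ x, (A x - B x + 2 * P x - 2 * T x + c) ∂μ =
      ∫ x, A x ∂μ - ∫ x, B x ∂μ + 2 * ∫ x, P x ∂μ - 2 * ∫ x, T x ∂μ + c := by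
  have h1 : Integrable (fun x => A x - B x) μ := hA.sub hB
  have h2 : Integrable (fun x => A x - B x + 2 * P x) μ := h1.add (hP.const_mul 2)
  have h3 : Integrable (fun x => A x - B x + 2 * P x - 2 * T x) μ := h2.sub (hT.const_mul 2)
  refine ⟨h3.add (integrable_const _), ?_⟩
  rw [integral_add h3 (integrable_const _), integral_sub h2 (hT.const_mul 2),
    integral_add h1 (hP.const_mul 2), integral_sub hA hB, integral_const_mul,
    integral_const_mul, integral_const]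
  simp

end XE2_

open XE2_

theorem xe2_proof (hGMA : Stmt_GMA) (hEW1 : PPX.Stmt_EW1) (hIN3 : PPX.Stmt_IN3)
    (hKGM : PPX.Stmt_KGM) (hMUN : PPX.Stmt_MUN) : Stmt_XE2 := by
  intro n ι _ S p w hn his
  have hprob : IsProbabilityMeasure (mun n) := (hMUN n (by omega)).1
  have hw := his.nrm
  have hp := his.ppos
  have hn0 : (0 : ℝ) < n := by
    have : 0 < n := by omega
    exact_mod_cast this
  obtain ⟨g, hg⟩ : ∃ g, g = cpl S := ⟨_, rfl⟩
  obtain ⟨β, hβ⟩ : ∃ β : ℝ, β = n * ∑ i ∈ S, p i := ⟨_, rfl⟩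
  have hβ0 : 0 ≤ β := by
    rw [hβ]
    exact mul_nonneg hn0.le (Finset.sum_nonneg fun i _ => (hp i).le)
  have hgm : n * ∑ i ∈ g, p i = n - β := by
    have h1 := sum_cpl S p
    rw [his.psum, ← hg] at h1
    have h2 : ∑ i ∈ g, p i = 1 - ∑ i ∈ S, p i := by linarith
    rw [h2, hβ]; ring
  rw [← hg, ← hβ]
  have hDg : ∀ x : EE n, Dg S p w x =
      sm g (fun i => n * p i * wv x (w i)) (fun i => tx x (w i)) - 1 + sm S (fun i => n * p i) w := by
    intro x
    rw [hg]; rfl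
  -- the trace of the narrow part
  have htrM : ∀ x : EE n, (sm g (fun i => (n : ℝ) * p i * wv x (w i)) (fun i => tx x (w i))).trace =
      ∑ i ∈ g, (n : ℝ) * p i * ww x (w i) := by
    intro x
    rw [tr_sm]
    refine Finset.sum_congr rfl fun i _ => ?_
    rw [tx_inner, real_inner_self_eq_norm_sq, hw i, ← wv_ww]
    ring
  have htrB : (sm S (fun i => (n : ℝ) * p i) w).trace = β := by
    rw [tr_sm, hβ, Finset.mul_sum]
    refine Finset.sum_congr rfl fun i _ => ?_
    rw [real_inner_self_eq_norm_sq, hw i]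
    ring
  have hhsB : hs (sm S (fun i => (n : ℝ) * p i) w) = B2 S p w := by
    rw [hs_ip, ip_sm]
    unfold B2
    rw [Finset.mul_sum]
    refine Finset.sum_congr rfl fun i _ => ?_
    rw [Finset.mul_sum]
    refine Finset.sum_congr rfl fun j _ => ?_
    ring
  have hhsM : ∀ x : EE n, hs (sm g (fun i => (n : ℝ) * p i * wv x (w i)) (fun i => tx x (w i))) =
      (∑ i ∈ g, ∑ j ∈ g, ((n : ℝ) * p i) * ((n : ℝ) * p j) * (ww x (w i) * ww x (w j))) -
      ∑ i ∈ g, ∑ j ∈ g, ((n : ℝ) * p i) * ((n : ℝ) * p j) * br x (w i) (w j) := by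
    intro x
    rw [hs_ip, ip_sm, ← Finset.sum_sub_distrib]
    refine Finset.sum_congr rfl fun i _ => ?_
    rw [← Finset.sum_sub_distrib]
    refine Finset.sum_congr rfl fun j _ => ?_
    rw [tx_inner, br, ← wv_ww, ← wv_ww]
    ring
  have hipB : ∀ x : EE n, ip (sm g (fun i => (n : ℝ) * p i * wv x (w i)) (fun i => tx x (w i)))
      (sm S (fun i => (n : ℝ) * p i) w) =
      ∑ i ∈ g, ∑ j ∈ S, ((n : ℝ) * p i) * ((n : ℝ) * p j) * gmx x (w i) (w j) := by
    intro x
    rw [ip_sm]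
    refine Finset.sum_congr rfl fun i _ => Finset.sum_congr rfl fun j _ => ?_
    rw [gmx]; ring
  -- integrals
  have hTi : ∀ i ∈ g, Integrable (fun x : EE n => (n : ℝ) * p i * ww x (w i)) (mun n) :=
    fun i _ => (hEW1 n (w i) hn (hw i)).1.const_mul _
  have hTI : Integrable (fun x : EE n => ∑ i ∈ g, (n : ℝ) * p i * ww x (w i)) (mun n) :=
    integrable_finsetSum _ hTi
  have hT : ∫ x : EE n, ∑ i ∈ g, (n : ℝ) * p i * ww x (w i) ∂(mun n) = n - β := by
    rw [integral_finsetSum _ hTi, ← hgm, Finset.mul_sum]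
    refine Finset.sum_congr rfl fun i _ => ?_
    rw [integral_const_mul, (hEW1 n (w i) hn (hw i)).2, mul_one]
  have hK2 : ∀ i ∈ g, ∀ j ∈ g, Integrable (fun x : EE n => ((n : ℝ) * p i) *
      ((n : ℝ) * p j) * (ww x (w i) * ww x (w j))) (mun n) :=
    fun i _ j _ => (hKGM n (w i) (w j) hn (hw i) (hw j)).1.const_mul _
  have hB2 : ∀ i ∈ g, ∀ j ∈ g, Integrable (fun x : EE n => ((n : ℝ) * p i) *
      ((n : ℝ) * p j) * br x (w i) (w j)) (mun n) :=
    fun i _ j _ => (hIN3 n (w i) (w j) hn (hw i) (hw j)).1.const_mul _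
  have hP2 : ∀ i ∈ g, ∀ j ∈ S, Integrable (fun x : EE n => ((n : ℝ) * p i) *
      ((n : ℝ) * p j) * gmx x (w i) (w j)) (mun n) :=
    fun i _ j _ => (hGMA n (w i) (w j) hn (hw i) (hw j)).1.const_mul _
  have hA1 : Integrable (fun x : EE n => ∑ i ∈ g, ∑ j ∈ g, ((n : ℝ) * p i) *
      ((n : ℝ) * p j) * (ww x (w i) * ww x (w j))) (mun n) :=
    integrable_finsetSum _ fun i hi => integrable_finsetSum _ fun j hj => hK2 i hi j hj
  have hA2 : Integrable (fun x : EE n => ∑ i ∈ g, ∑ j ∈ g, ((n : ℝ) * p i) *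
      ((n : ℝ) * p j) * br x (w i) (w j)) (mun n) :=
    integrable_finsetSum _ fun i hi => integrable_finsetSum _ fun j hj => hB2 i hi j hj
  have hA3 : Integrable (fun x : EE n => ∑ i ∈ g, ∑ j ∈ S, ((n : ℝ) * p i) *
      ((n : ℝ) * p j) * gmx x (w i) (w j)) (mun n) :=
    integrable_finsetSum _ fun i hi => integrable_finsetSum _ fun j hj => hP2 i hi j hj
  have hE1 : ∫ x : EE n, ∑ i ∈ g, ∑ j ∈ g, ((n : ℝ) * p i) *
      ((n : ℝ) * p j) * (ww x (w i) * ww x (w j)) ∂(mun n) =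
      (n : ℝ) ^ 2 * (∑ i ∈ g, ∑ j ∈ g, p i * p j * kk n (inner ℝ (w i) (w j))) := by
    rw [integral_finsetSum _ fun i hi => integrable_finsetSum _ fun j hj => hK2 i hi j hj,
      Finset.mul_sum]
    refine Finset.sum_congr rfl fun i hi => ?_
    rw [integral_finsetSum _ fun j hj => hK2 i hi j hj, Finset.mul_sum]
    refine Finset.sum_congr rfl fun j hj => ?_
    rw [integral_const_mul, (hKGM n (w i) (w j) hn (hw i) (hw j)).2]
    ring
  have hE2 : ∫ x : EE n, ∑ i ∈ g, ∑ j ∈ g, ((n : ℝ) * p i) *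
      ((n : ℝ) * p j) * br x (w i) (w j) ∂(mun n) =
      (n : ℝ) ^ 2 * (∑ i ∈ g, ∑ j ∈ g, p i * p j *
        (om n * √(1 - (inner ℝ (w i) (w j)) ^ 2))) := by
    rw [integral_finsetSum _ fun i hi => integrable_finsetSum _ fun j hj => hB2 i hi j hj,
      Finset.mul_sum]
    refine Finset.sum_congr rfl fun i hi => ?_
    rw [integral_finsetSum _ fun j hj => hB2 i hi j hj, Finset.mul_sum]
    refine Finset.sum_congr rfl fun j hj => ?_
    have h := (hIN3 n (w i) (w j) hn (hw i) (hw j)).2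
    rw [integral_const_mul]
    unfold br
    rw [h]
    ring
  have hE3 : ∫ x : EE n, ∑ i ∈ g, ∑ j ∈ S, ((n : ℝ) * p i) *
      ((n : ℝ) * p j) * gmx x (w i) (w j) ∂(mun n) ≤ β - B2 S p w + 2 * β / n := by
    rw [integral_finsetSum _ fun i hi => integrable_finsetSum _ fun j hj => hP2 i hi j hj]
    have h1 : ∀ i ∈ g, ∫ x : EE n, ∑ j ∈ S, ((n : ℝ) * p i) *
        ((n : ℝ) * p j) * gmx x (w i) (w j) ∂(mun n) ≤
        ∑ j ∈ S, ((n : ℝ) * p i) * ((n : ℝ) * p j) *
          ((inner ℝ (w i) (w j)) ^ 2 + 2 / (n : ℝ) ^ 2) := by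
      intro i hi
      rw [integral_finsetSum _ fun j hj => hP2 i hi j hj]
      refine Finset.sum_le_sum fun j hj => ?_
      rw [integral_const_mul]
      refine mul_le_mul_of_nonneg_left ?_ ?_
      · unfold gmx
        exact (hGMA n (w i) (w j) hn (hw i) (hw j)).2
      · exact mul_nonneg (mul_nonneg hn0.le (hp i).le) (mul_nonneg hn0.le (hp j).le)
    refine (Finset.sum_le_sum h1).trans ?_
    rw [Finset.sum_comm]
    have h2 : ∀ j ∈ S, ∑ i ∈ g, ((n : ℝ) * p i) * ((n : ℝ) * p j) *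
        ((inner ℝ (w i) (w j)) ^ 2 + 2 / (n : ℝ) ^ 2) =
        (n : ℝ) * p j - (n : ℝ) ^ 2 * ∑ i ∈ S, p j * p i * (inner ℝ (w j) (w i)) ^ 2 +
          (n : ℝ) * p j * (2 / (n : ℝ) ^ 2 * (n - β)) := by
      intro j _
      have h3 := sum_cpl S (fun i => p i * (inner ℝ (w i) (w j)) ^ 2)
      have h4 := his.iso (w j)
      rw [hw j, ← h3, ← hg] at h4
      have h5 : ∑ i ∈ g, ((n : ℝ) * p i) * ((n : ℝ) * p j) *
          ((inner ℝ (w i) (w j)) ^ 2 + 2 / (n : ℝ) ^ 2) =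
          ((n : ℝ) * p j) * (n * ∑ i ∈ g, p i * (inner ℝ (w i) (w j)) ^ 2) +
          ((n : ℝ) * p j) * (2 / (n : ℝ) ^ 2 * (n * ∑ i ∈ g, p i)) := by
        rw [Finset.mul_sum, Finset.mul_sum, Finset.mul_sum, Finset.mul_sum, Finset.mul_sum,
          ← Finset.sum_add_distrib]
        refine Finset.sum_congr rfl fun i _ => ?_
        ring
      rw [h5, hgm]
      have h6 : (n : ℝ) * ∑ i ∈ g, p i * (inner ℝ (w i) (w j)) ^ 2 =
          1 - n * ∑ i ∈ S, p i * (inner ℝ (w i) (w j)) ^ 2 := by linarith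
      have h7 : ∑ i ∈ S, p j * p i * (inner ℝ (w j) (w i)) ^ 2 =
          p j * ∑ i ∈ S, p i * (inner ℝ (w i) (w j)) ^ 2 := by
        rw [Finset.mul_sum]
        refine Finset.sum_congr rfl fun i _ => ?_
        rw [real_inner_comm]; ring
      rw [h6, h7]
      ring
    rw [Finset.sum_congr rfl h2, Finset.sum_add_distrib, Finset.sum_sub_distrib,
      ← Finset.mul_sum, ← Finset.sum_mul, ← Finset.mul_sum, ← Finset.mul_sum, ← hβ]
    have h8 : B2 S p w = (n : ℝ) ^ 2 * ∑ i ∈ S, ∑ j ∈ S, p i * p j * (inner ℝ (w i) (w j)) ^ 2 :=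
      rfl
    rw [← h8]
    have h9 : β * (2 / (n : ℝ) ^ 2 * (n - β)) ≤ 2 * β / n := by
      have h10 : β * (2 / (n : ℝ) ^ 2 * (n - β)) = 2 * β / n - 2 * β ^ 2 / (n : ℝ) ^ 2 := by
        field_simp
      rw [h10]
      have : 0 ≤ 2 * β ^ 2 / (n : ℝ) ^ 2 := by positivity
      linarith
    linarith
  -- the matrix
  have hpt : ∀ x : EE n, hs (Dg S p w x) =
      (∑ i ∈ g, ∑ j ∈ g, ((n : ℝ) * p i) * ((n : ℝ) * p j) * (ww x (w i) * ww x (w j))) -
      (∑ i ∈ g, ∑ j ∈ g, ((n : ℝ) * p i) * ((n : ℝ) * p j) * br x (w i) (w j)) +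
      2 * (∑ i ∈ g, ∑ j ∈ S, ((n : ℝ) * p i) * ((n : ℝ) * p j) * gmx x (w i) (w j)) -
      2 * (∑ i ∈ g, (n : ℝ) * p i * ww x (w i)) + (B2 S p w + n - 2 * β) := by
    intro x
    rw [hDg x, hs_exp, hhsM x, hhsB, htrM x, htrB, hipB x]
    ring
  have key := comb_int (n := n) (mun n) (B2 S p w + n - 2 * β) hA1 hA2 hA3 hTI
  have htr : ∀ x : EE n, (Dg S p w x).trace =
      (∑ i ∈ g, (n : ℝ) * p i * ww x (w i)) - (n - β) := by
    intro x
    rw [hDg x, Matrix.trace_add, Matrix.trace_sub, htrM x, htrB, Matrix.trace_one,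
      Fintype.card_fin]
    ring
  refine ⟨?_, ?_, ?_, ?_, ?_, ?_⟩
  · simp only [hpt]
    exact key.1
  · simp only [hpt]
    rw [key.2, hE1, hE2, hT]
    have h1 : ∑ i ∈ g, ∑ j ∈ g, p i * p j * (kk n (inner ℝ (w i) (w j)) -
        om n * √(1 - (inner ℝ (w i) (w j)) ^ 2)) =
        (∑ i ∈ g, ∑ j ∈ g, p i * p j * kk n (inner ℝ (w i) (w j))) -
        ∑ i ∈ g, ∑ j ∈ g, p i * p j * (om n * √(1 - (inner ℝ (w i) (w j)) ^ 2)) := by
      rw [← Finset.sum_sub_distrib]
      refine Finset.sum_congr rfl fun i _ => ?_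
      rw [← Finset.sum_sub_distrib]
      refine Finset.sum_congr rfl fun j _ => ?_
      ring
    rw [h1]
    have h2 : 2 * (β - B2 S p w + 2 * β / n) = 2 * β - 2 * B2 S p w + 4 * β / n := by ring
    linarith
  · simp only [htr]
    exact hTI.sub (integrable_const _)
  · simp only [htr]
    rw [integral_sub hTI (integrable_const _), hT, integral_const]
    simp
  · have h1 : ∀ x : EE n, (Dg S p w x).trace ^ 2 =
        (∑ i ∈ g, ∑ j ∈ g, ((n : ℝ) * p i) * ((n : ℝ) * p j) * (ww x (w i) * ww x (w j))) -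
        2 * (n - β) * (∑ i ∈ g, (n : ℝ) * p i * ww x (w i)) + (n - β) ^ 2 := by
      intro x
      have h2 : (∑ i ∈ g, (n : ℝ) * p i * ww x (w i)) ^ 2 =
          ∑ i ∈ g, ∑ j ∈ g, ((n : ℝ) * p i) * ((n : ℝ) * p j) * (ww x (w i) * ww x (w j)) := by
        rw [sq, Finset.sum_mul_sum]
        refine Finset.sum_congr rfl fun i _ => Finset.sum_congr rfl fun j _ => ?_
        ring
      rw [htr x, ← h2]; ring
    simp only [h1]
    exact (hA1.sub (hTI.const_mul _)).add (integrable_const _)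
  · have h1 : ∀ x : EE n, (Dg S p w x).trace ^ 2 =
        (∑ i ∈ g, ∑ j ∈ g, ((n : ℝ) * p i) * ((n : ℝ) * p j) * (ww x (w i) * ww x (w j))) -
        2 * (n - β) * (∑ i ∈ g, (n : ℝ) * p i * ww x (w i)) + (n - β) ^ 2 := by
      intro x
      have h2 : (∑ i ∈ g, (n : ℝ) * p i * ww x (w i)) ^ 2 =
          ∑ i ∈ g, ∑ j ∈ g, ((n : ℝ) * p i) * ((n : ℝ) * p j) * (ww x (w i) * ww x (w j)) := by
        rw [sq, Finset.sum_mul_sum]
        refine Finset.sum_congr rfl fun i _ => Finset.sum_congr rfl fun j _ => ?_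
        ring
      rw [htr x, ← h2]; ring
    simp only [h1]
    have hs1 : Integrable (fun x : EE n =>
        (∑ i ∈ g, ∑ j ∈ g, ((n : ℝ) * p i) * ((n : ℝ) * p j) * (ww x (w i) * ww x (w j))) -
        2 * (n - β) * (∑ i ∈ g, (n : ℝ) * p i * ww x (w i))) (mun n) :=
      hA1.sub (hTI.const_mul _)
    rw [integral_add hs1 (integrable_const _),
      integral_sub hA1 (hTI.const_mul _), integral_const_mul, hE1, hT, integral_const]
    simp
    ring

end PPW
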