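import Pool.Agent.PPW.Stmts

/-!
# Squad PPW (MP_0bf616_gt): module XI1, first moments of the coefficients `xi`.
-/

set_option autoImplicit false

namespace PPW

open MeasureTheory Set Filter Topology ProbabilityTheory
open PPI PPG PPX
open scoped Pointwise ENNReal

namespace XI1_

lemma int_of {c : ℝ → ℝ} (hc : Continuous c) (h0 : ∀ s, 0 ≤ c s)
    (hm : ∫⁻ s, ENNReal.ofReal (c s) ≤ 2) : Integrable c := by
  have h2 : (∫⁻ s, ENNReal.ofReal (c s)) < ⊤ := hm.trans_lt (by simp)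
  refine ⟨hc.aestronglyMeasurable, ?_⟩
  rw [hasFiniteIntegral_iff_ofReal (Eventually.of_forall h0)]
  exact h2

lemma int_mul {c g : ℝ → ℝ} (hc : Integrable c) (hg : Continuous g) (hg0 : ∀ s, 0 ≤ g s)
    (hg1 : ∀ s, g s ≤ 1) : Integrable fun s => c s * g s := by
  refine Integrable.mono' hc.norm (hc.aestronglyMeasurable.mul hg.aestronglyMeasurable)
    (Eventually.of_forall fun s => ?_)
  rw [norm_mul, Real.norm_of_nonneg (hg0 s)]
  exact mul_le_of_le_one_right (norm_nonneg _) (hg1 s)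

/-- the general formula -/
lemma key (hRD1 : PPX.Stmt_RD1) {n : ℕ} (hn : 2 ≤ n) (hk : 0 < kap n) (hk1 : 0 < kap (n - 1))
    (a : EE n) (ha : ‖a‖ = 1) (g : ℝ → ℝ) (hg : Continuous g) (h0 : ∀ s, 0 ≤ g s)
    (hI : Integrable fun s => g s * (1 / (1 + s ^ 2))) :
    Integrable (fun x : EE n => xi g x a) (mun n) ∧
      ∫ x, xi g x a ∂(mun n) = 1 / 2 * ∫ s, g s * (1 / (1 + s ^ 2)) := by
  have hcn : 0 < PPX.cn n := by
    unfold PPX.cn
    positivity
  have hcd : Continuous fun x : EE n => (1 + ‖x‖ ^ 2) ^ (-((n : ℝ) / 2) - 1) / kap n := by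
    refine Continuous.div_const (Continuous.rpow_const (by fun_prop) fun x => Or.inl ?_) _
    positivity
  have hF : Continuous fun x : EE n => xi g x a := by
    unfold xi
    fun_prop
  have hF0 : ∀ x : EE n, 0 ≤ xi g x a := fun x => by
    unfold xi
    exact div_nonneg (mul_nonneg (Real.sqrt_nonneg _) (h0 _)) hcn.le
  have hG0 : ∀ s : ℝ, 0 ≤ g s * (1 / (1 + s ^ 2)) := fun s => mul_nonneg (h0 s) (by positivity)
  have hr := hRD1 n a (fun s => ENNReal.ofReal (g s)) (by omega) ha hg.measurable.ennreal_ofReal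
  have hv : ∫⁻ t : ℝ, ENNReal.ofReal (g t) * ENNReal.ofReal (1 / (1 + t ^ 2)) =
      ENNReal.ofReal (∫ s, g s * (1 / (1 + s ^ 2))) := by
    rw [ofReal_integral_eq_lintegral_ofReal hI (Eventually.of_forall hG0)]
    exact lintegral_congr fun s => (ENNReal.ofReal_mul (h0 s)).symm
  have hl : ∫⁻ x : EE n, ENNReal.ofReal (xi g x a) ∂(mun n) =
      ENNReal.ofReal (1 / 2 * ∫ s, g s * (1 / (1 + s ^ 2))) := by
    unfold mun
    rw [lintegral_withDensity_eq_lintegral_mul _ hcd.measurable.ennreal_ofReal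
      hF.measurable.ennreal_ofReal]
    have h1 : ∀ x : EE n, ((fun x : EE n => ENNReal.ofReal ((1 + ‖x‖ ^ 2) ^ (-((n : ℝ) / 2) - 1)
        / kap n)) * fun x => ENNReal.ofReal (xi g x a)) x =
        ENNReal.ofReal (1 / (kap n * PPX.cn n)) *
          (ENNReal.ofReal ((1 + ‖x‖ ^ 2) ^ (-(((n : ℝ) + 1) / 2))) *
            ENNReal.ofReal (g (inner ℝ x a))) := by
      intro x
      have h : 0 < 1 + ‖x‖ ^ 2 := by positivity
      have h2 : (1 + ‖x‖ ^ 2) ^ (-((n : ℝ) / 2) - 1) * √(1 + ‖x‖ ^ 2) =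
          (1 + ‖x‖ ^ 2) ^ (-(((n : ℝ) + 1) / 2)) := by
        rw [Real.sqrt_eq_rpow, ← Real.rpow_add h]
        congr 1
        ring
      rw [Pi.mul_apply, ← ENNReal.ofReal_mul (by positivity), ← ENNReal.ofReal_mul (by positivity),
        ← ENNReal.ofReal_mul (by positivity)]
      congr 1
      unfold xi
      rw [← h2]
      ring
    rw [lintegral_congr h1, lintegral_const_mul' _ _ ENNReal.ofReal_ne_top, hr, hv, ← mul_assoc,
      ← ENNReal.ofReal_mul (by positivity), ← ENNReal.ofReal_mul (by positivity)]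
    congr 1
    unfold PPX.cn
    field_simp
  refine ⟨⟨hF.aestronglyMeasurable, ?_⟩, ?_⟩
  · rw [hasFiniteIntegral_iff_ofReal (Eventually.of_forall hF0), hl]
    exact ENNReal.ofReal_lt_top
  · rw [integral_eq_lintegral_of_nonneg_ae (Eventually.of_forall hF0) hF.aestronglyMeasurable, hl,
      ENNReal.toReal_ofReal (mul_nonneg (by norm_num) (integral_nonneg hG0))]

end XI1_

open XI1_

theorem xi1_proof (hRD1 : PPX.Stmt_RD1) (hCNB : PPX.Stmt_CNB) (_hMUN : PPX.Stmt_MUN)
    (hAVE : PPI.Stmt_AVE) : Stmt_XI1 := by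
  intro n a c hn ha hc h0 hm
  have hk : 0 < kap n := (hCNB n hn).1
  have hk1 : 0 < kap (n - 1) := (hAVE (n - 1) (by omega)).1
  have ic := int_of hc h0 hm
  have g1c : Continuous fun u : ℝ => 1 / (1 + u ^ 2) :=
    continuous_const.div (by fun_prop) fun u => by positivity
  have g2c : Continuous fun u : ℝ => u ^ 2 / (1 + u ^ 2) :=
    Continuous.div (by fun_prop) (by fun_prop) fun u => by positivity
  have g1l : ∀ u : ℝ, 1 / (1 + u ^ 2) ≤ 1 := fun u => by
    rw [div_le_one (by positivity)]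
    linarith [sq_nonneg u]
  have g2l : ∀ u : ℝ, u ^ 2 / (1 + u ^ 2) ≤ 1 := fun u => by
    rw [div_le_one (by positivity)]
    linarith [sq_nonneg u]
  have i1 := int_mul ic g1c (fun u => by positivity) g1l
  have i2 := int_mul ic g2c (fun u => by positivity) g2l
  have e2 : (fun s : ℝ => c s * s ^ 2 * (1 / (1 + s ^ 2))) =
      fun s => c s * (s ^ 2 / (1 + s ^ 2)) := by
    funext s
    ring
  obtain ⟨a1, a2⟩ := key hRD1 hn hk hk1 a ha c hc h0 i1
  obtain ⟨b1, b2⟩ := key hRD1 hn hk hk1 a ha (fun s => c s * s ^ 2) (by fun_prop)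
    (fun s => mul_nonneg (h0 s) (sq_nonneg s)) (by rw [e2]; exact i2)
  have e3 : (fun x : EE n => xi c x a * (inner ℝ x a) ^ 2) =
      fun x : EE n => xi (fun s => c s * s ^ 2) x a := by
    funext x
    unfold xi
    ring
  refine ⟨a1, ?_, ?_, ?_⟩
  · rw [a2, EZ]
    simp only [mul_one_div]
  · rw [e3]
    exact b1
  · rw [e3, b2, e2, ML]

end PPW
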