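import Pool.Agent.PPW.Stmts

/-!
# Squad PPW (MP_0bf616_gt): module XI2, second moments of the coefficients `xi`.
-/

set_option autoImplicit false

namespace PPW

open MeasureTheory Set Filter Topology ProbabilityTheory
open PPI PPG PPX
open scoped Pointwise ENNReal

namespace XI2_

/-- the kernel -/
noncomputable def K (s u v : ℝ) : ℝ := √(1 - s ^ 2) / (1 - s ^ 2 + u ^ 2 + v ^ 2 - 2 * s * u * v)

lemma quad_pos (u v s : ℝ) (hs : s ^ 2 < 1) : 0 < 1 - s ^ 2 + u ^ 2 + v ^ 2 - 2 * s * u * v := by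
  have h : 1 - s ^ 2 + u ^ 2 + v ^ 2 - 2 * s * u * v =
      (1 - s ^ 2) + (u - s * v) ^ 2 + (1 - s ^ 2) * v ^ 2 := by ring
  rw [h]
  have h1 : 0 < 1 - s ^ 2 := by linarith
  have h2 := sq_nonneg (u - s * v)
  have h3 := mul_nonneg h1.le (sq_nonneg v)
  linarith

lemma K_nonneg (s u v : ℝ) (hs : s ^ 2 < 1) : 0 ≤ K s u v :=
  div_nonneg (Real.sqrt_nonneg _) (quad_pos u v s hs).le

lemma K_cont (s : ℝ) (hs : s ^ 2 < 1) : Continuous fun z : ℝ × ℝ => K s z.1 z.2 := by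
  unfold K
  refine Continuous.div continuous_const (by fun_prop) fun z => (quad_pos z.1 z.2 s hs).ne'

lemma xi_cont {n : ℕ} (c : ℝ → ℝ) (hc : Continuous c) (a : EE n) :
    Continuous fun x : EE n => xi c x a := by
  unfold xi
  fun_prop

lemma xi_nonneg {n : ℕ} (c : ℝ → ℝ) (hc : ∀ s, 0 ≤ c s) (hcn : 0 ≤ PPX.cn n) (x a : EE n) :
    0 ≤ xi c x a := by
  unfold xi
  exact div_nonneg (mul_nonneg (Real.sqrt_nonneg _) (hc _)) hcn

/-- the formula of RD2 -/
lemma J_eq (hRD2 : PPX.Stmt_RD2) {n : ℕ} (hn : 2 ≤ n) (hk : 0 < kap n) (hk1 : 0 < kap (n - 1))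
    (a b : EE n) (c c' : ℝ → ℝ) (ha : ‖a‖ = 1) (hb : ‖b‖ = 1) (hc : Continuous c)
    (hc' : Continuous c') (hs : (inner ℝ a b : ℝ) ^ 2 < 1) :
    ∫⁻ x : EE n, ENNReal.ofReal (xi c x a * xi c' x b) ∂(mun n) =
      ENNReal.ofReal (om n / 4) * ∫⁻ u : ℝ, ∫⁻ v : ℝ, ENNReal.ofReal (c u * c' v) *
        ENNReal.ofReal (K (inner ℝ a b) u v) := by
  have hk2 : 0 ≤ kap (n - 2) := ENNReal.toReal_nonneg
  have hcd : Continuous fun x : EE n => (1 + ‖x‖ ^ 2) ^ (-((n : ℝ) / 2) - 1) / kap n := by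
    refine Continuous.div_const (Continuous.rpow_const (by fun_prop) fun x => Or.inl ?_) _
    positivity
  have hce : Continuous fun x : EE n => (1 + ‖x‖ ^ 2) ^ (-((n : ℝ) / 2)) :=
    Continuous.rpow_const (by fun_prop) fun x => Or.inl (by positivity)
  have hF : Continuous fun x : EE n => xi c x a * xi c' x b :=
    (xi_cont c hc a).mul (xi_cont c' hc' b)
  have hG : Continuous (Function.uncurry fun u v => c u * c' v) :=
    (hc.comp continuous_fst).mul (hc'.comp continuous_snd)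
  have hr := hRD2 n a b (fun u v => ENNReal.ofReal (c u * c' v)) (inner ℝ a b) hn ha hb rfl hs
    hG.measurable.ennreal_ofReal
  unfold mun
  rw [lintegral_withDensity_eq_lintegral_mul _ hcd.measurable.ennreal_ofReal
    hF.measurable.ennreal_ofReal]
  have h1 : ∀ x : EE n, ((fun x : EE n => ENNReal.ofReal ((1 + ‖x‖ ^ 2) ^ (-((n : ℝ) / 2) - 1)
      / kap n)) * fun x => ENNReal.ofReal (xi c x a * xi c' x b)) x =
      ENNReal.ofReal (1 / (kap n * PPX.cn n ^ 2)) *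
        (ENNReal.ofReal ((1 + ‖x‖ ^ 2) ^ (-((n : ℝ) / 2))) *
          ENNReal.ofReal (c (inner ℝ x a) * c' (inner ℝ x b))) := by
    intro x
    have h : 0 < 1 + ‖x‖ ^ 2 := by positivity
    have h2 : (1 + ‖x‖ ^ 2) ^ (-((n : ℝ) / 2) - 1) * (1 + ‖x‖ ^ 2) =
        (1 + ‖x‖ ^ 2) ^ (-((n : ℝ) / 2)) := by
      rw [Real.rpow_sub_one h.ne', div_mul_cancel₀ _ h.ne']
    have h3 : √(1 + ‖x‖ ^ 2) * √(1 + ‖x‖ ^ 2) = 1 + ‖x‖ ^ 2 := Real.mul_self_sqrt h.le
    rw [Pi.mul_apply, ← ENNReal.ofReal_mul (by positivity), ← ENNReal.ofReal_mul (by positivity),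
      ← ENNReal.ofReal_mul (by positivity)]
    congr 1
    unfold xi
    calc _ = (1 + ‖x‖ ^ 2) ^ (-((n : ℝ) / 2) - 1) * (√(1 + ‖x‖ ^ 2) * √(1 + ‖x‖ ^ 2)) *
          (1 / (kap n * PPX.cn n ^ 2) * (c (inner ℝ x a) * c' (inner ℝ x b))) := by ring
      _ = _ := by
          rw [h3, h2]
          ring
  rw [lintegral_congr h1, lintegral_const_mul' _ _ ENNReal.ofReal_ne_top, hr, ← mul_assoc,
    ← ENNReal.ofReal_mul (by positivity)]
  congr 2
  unfold PPX.cn om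
  field_simp
  ring

/-- the integral of the kernel -/
lemma K_int (s u : ℝ) (hs : s ^ 2 < 1) :
    ∫⁻ v : ℝ, ENNReal.ofReal (K s u v) ≤ ENNReal.ofReal Real.pi := by
  have h1 : 0 < 1 - s ^ 2 := by linarith
  have hu : 0 < 1 + u ^ 2 := by positivity
  set w := √((1 - s ^ 2) * (1 + u ^ 2)) with hw
  have hw2 : w ^ 2 = (1 - s ^ 2) * (1 + u ^ 2) := Real.sq_sqrt (by positivity)
  have hw0 : 0 < w := Real.sqrt_pos.2 (by positivity)
  have e : ∀ v, K s u v = (√(1 - s ^ 2) / w ^ 2) * (1 + ((v - s * u) / w) ^ 2)⁻¹ := by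
    intro v
    have h2 : 1 - s ^ 2 + u ^ 2 + v ^ 2 - 2 * s * u * v = w ^ 2 + (v - s * u) ^ 2 := by
      rw [hw2]
      ring
    rw [K, h2]
    field_simp
  have hint : Integrable fun v : ℝ => (1 + ((v - s * u) / w) ^ 2)⁻¹ := by
    have h2 := (integrable_inv_one_add_sq.comp_div hw0.ne').comp_sub_right (s * u)
    exact h2
  have hval : ∫ v : ℝ, (1 + ((v - s * u) / w) ^ 2)⁻¹ = w * Real.pi := by
    have h3 := integral_sub_right_eq_self (μ := volume) (fun v : ℝ => (1 + (v / w) ^ 2)⁻¹) (s * u)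
    rw [h3]
    have h4 := Measure.integral_comp_div (fun v : ℝ => (1 + v ^ 2)⁻¹) w
    rw [h4, integral_univ_inv_one_add_sq, abs_of_pos hw0, smul_eq_mul]
  have hK : ∫⁻ v : ℝ, ENNReal.ofReal (K s u v) = ENNReal.ofReal (√(1 - s ^ 2) / w ^ 2 *
      (w * Real.pi)) := by
    rw [← hval, ← integral_const_mul, ofReal_integral_eq_lintegral_ofReal (hint.const_mul _)
      (Eventually.of_forall fun v => by positivity)]
    exact lintegral_congr fun v => by rw [e v]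
  rw [hK]
  refine ENNReal.ofReal_le_ofReal ?_
  have h5 : √(1 - s ^ 2) ≤ w := by
    rw [hw]
    refine Real.sqrt_le_sqrt ?_
    nlinarith [sq_nonneg u, mul_nonneg h1.le (sq_nonneg u)]
  have h6 : √(1 - s ^ 2) / w ^ 2 * (w * Real.pi) = √(1 - s ^ 2) / w * Real.pi := by
    field_simp
  rw [h6]
  have h7 : √(1 - s ^ 2) / w ≤ 1 := (div_le_one hw0).2 h5
  have := Real.pi_pos
  nlinarith

/-- first bound -/
lemma J_le (hRD2 : PPX.Stmt_RD2) (hCNB : PPX.Stmt_CNB) {n : ℕ} (hn : 2 ≤ n)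
    (hk1 : 0 < kap (n - 1)) (a b : EE n) (c c' : ℝ → ℝ) (M : ℝ) (ha : ‖a‖ = 1) (hb : ‖b‖ = 1)
    (hc : Continuous c) (hc' : Continuous c') (h0 : ∀ s, 0 ≤ c s) (h0' : ∀ s, 0 ≤ c' s)
    (hm : ∫⁻ s, ENNReal.ofReal (c s) ≤ 2) (hM : ∀ s, c' s ≤ M)
    (hs : (inner ℝ a b : ℝ) ^ 2 < 1) :
    ∫⁻ x : EE n, ENNReal.ofReal (xi c x a * xi c' x b) ∂(mun n) ≤ ENNReal.ofReal (2 * M) := by
  obtain ⟨hk, -, -, -, hom, -⟩ := hCNB n hn
  have hM0 : 0 ≤ M := (h0' 0).trans (hM 0)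
  rw [J_eq hRD2 hn hk hk1 a b c c' ha hb hc hc' hs]
  set s : ℝ := inner ℝ a b
  have h1 : ∀ u : ℝ, ∫⁻ v : ℝ, ENNReal.ofReal (c u * c' v) * ENNReal.ofReal (K s u v) ≤
      ENNReal.ofReal (c u) * ENNReal.ofReal (M * Real.pi) := by
    intro u
    calc _ ≤ ∫⁻ v : ℝ, ENNReal.ofReal (c u * M) * ENNReal.ofReal (K s u v) := by
          refine lintegral_mono fun v => ?_
          gcongr
          · exact h0 u
          · exact hM v
      _ = ENNReal.ofReal (c u * M) * ∫⁻ v : ℝ, ENNReal.ofReal (K s u v) :=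
          lintegral_const_mul' _ _ ENNReal.ofReal_ne_top
      _ ≤ ENNReal.ofReal (c u * M) * ENNReal.ofReal Real.pi := by
          gcongr
          exact K_int s u hs
      _ = _ := by
          rw [← ENNReal.ofReal_mul (mul_nonneg (h0 u) hM0), ← ENNReal.ofReal_mul (h0 u), mul_assoc]
  calc _ ≤ ENNReal.ofReal (1 / 4) * ∫⁻ u : ℝ, ENNReal.ofReal (c u) *
          ENNReal.ofReal (M * Real.pi) := by
        refine mul_le_mul' (ENNReal.ofReal_le_ofReal (by linarith)) (lintegral_mono h1)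
    _ = ENNReal.ofReal (1 / 4) * ((∫⁻ u : ℝ, ENNReal.ofReal (c u)) *
          ENNReal.ofReal (M * Real.pi)) := by
        rw [lintegral_mul_const' _ _ ENNReal.ofReal_ne_top]
    _ ≤ ENNReal.ofReal (1 / 4) * (2 * ENNReal.ofReal (M * Real.pi)) := by gcongr
    _ = ENNReal.ofReal (1 / 4 * (2 * (M * Real.pi))) := by
        have h2 : (2 : ℝ≥0∞) = ENNReal.ofReal 2 := by simp
        rw [h2, ← ENNReal.ofReal_mul (by norm_num), ← ENNReal.ofReal_mul (by norm_num)]
    _ ≤ _ := by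
        refine ENNReal.ofReal_le_ofReal ?_
        have := Real.pi_le_four
        nlinarith

/-- the first bound in general -/
lemma J_le' (hRD2 : PPX.Stmt_RD2) (hCNB : PPX.Stmt_CNB) {n : ℕ} (hn : 2 ≤ n)
    (hk1 : 0 < kap (n - 1)) (a b : EE n) (c c' : ℝ → ℝ) (M : ℝ) (ha : ‖a‖ = 1) (hb : ‖b‖ = 1)
    (hc : Continuous c) (hc' : Continuous c') (h0 : ∀ s, 0 ≤ c s) (h0' : ∀ s, 0 ≤ c' s)
    (hm : ∫⁻ s, ENNReal.ofReal (c s) ≤ 2) (hM : ∀ s, c' s ≤ M) :
    ∫⁻ x : EE n, ENNReal.ofReal (xi c x a * xi c' x b) ∂(mun n) ≤ ENNReal.ofReal (2 * M) := by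
  have hs1 : (inner ℝ a b : ℝ) ^ 2 ≤ 1 := by
    have h := abs_real_inner_le_norm a b
    rw [ha, hb, mul_one] at h
    rw [← sq_abs]
    exact pow_le_one₀ (abs_nonneg _) h
  rcases hs1.lt_or_eq with hlt | heq
  · exact J_le hRD2 hCNB hn hk1 a b c c' M ha hb hc hc' h0 h0' hm hM hlt
  · -- a unit vector orthogonal to `a`
    obtain ⟨e, he, hea⟩ : ∃ e : EE n, ‖e‖ = 1 ∧ (inner ℝ a e : ℝ) = 0 := by
      have ha0 : a ≠ 0 := by
        intro h
        rw [h, norm_zero] at ha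
        exact zero_ne_one ha
      have : Fact (Module.finrank ℝ (EE n) = (n - 1) + 1) :=
        ⟨by rw [finrank_euclideanSpace, Fintype.card_fin]; omega⟩
      have h1 := Submodule.finrank_orthogonal_span_singleton (𝕜 := ℝ) (n := n - 1) ha0
      have h2 : 0 < Module.finrank ℝ (ℝ ∙ a)ᗮ := by
        rw [h1]
        omega
      have := Module.nontrivial_of_finrank_pos h2
      obtain ⟨f, hf⟩ := exists_ne (0 : (ℝ ∙ a)ᗮ)
      have hf0 : (f : EE n) ≠ 0 := fun h => hf (Subtype.ext h)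
      have hfn : ‖(f : EE n)‖ ≠ 0 := norm_ne_zero_iff.2 hf0
      refine ⟨(‖(f : EE n)‖)⁻¹ • (f : EE n), ?_, ?_⟩
      · rw [norm_smul, norm_inv, norm_norm, inv_mul_cancel₀ hfn]
      · rw [inner_smul_right, Submodule.mem_orthogonal_singleton_iff_inner_right.1 f.2, mul_zero]
    have hba : b = (inner ℝ a b : ℝ) • a := by
      have h1 : ‖b - (inner ℝ a b : ℝ) • a‖ ^ 2 = 0 := by
        rw [norm_sub_sq_real, inner_smul_right, norm_smul, real_inner_comm a b, ha, hb, mul_one,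
          Real.norm_eq_abs, sq_abs]
        nlinarith
      exact sub_eq_zero.1 (norm_eq_zero.1 (pow_eq_zero_iff (two_ne_zero) |>.1 h1))
    have heb : (inner ℝ b e : ℝ) = 0 := by
      rw [hba, inner_smul_left, hea, mul_zero]
    set bk : ℕ → EE n := fun k => Real.cos (1 / ((k : ℝ) + 1)) • b +
      Real.sin (1 / ((k : ℝ) + 1)) • e with hbk
    have hbn : ∀ k, ‖bk k‖ = 1 := by
      intro k
      have h1 : ‖bk k‖ ^ 2 = 1 := by
        rw [hbk]
        simp only []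
        rw [norm_add_sq_real, inner_smul_left, inner_smul_right, heb, norm_smul, norm_smul, hb, he,
          mul_one, mul_one, Real.norm_eq_abs, Real.norm_eq_abs, sq_abs, sq_abs]
        have := Real.sin_sq_add_cos_sq (1 / ((k : ℝ) + 1))
        simp only [mul_zero, add_zero]
        linarith
      have h2 := norm_nonneg (bk k)
      nlinarith
    have hbi : ∀ k, (inner ℝ a (bk k) : ℝ) ^ 2 < 1 := by
      intro k
      have hp : 0 < 1 / ((k : ℝ) + 1) := by positivity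
      have hle : 1 / ((k : ℝ) + 1) ≤ 1 := by
        rw [div_le_one (by positivity)]
        have : (0 : ℝ) ≤ k := Nat.cast_nonneg k
        linarith
      have h1 : (inner ℝ a (bk k) : ℝ) = Real.cos (1 / ((k : ℝ) + 1)) * inner ℝ a b := by
        rw [hbk]
        simp only []
        rw [inner_add_right, inner_smul_right, inner_smul_right, hea]
        ring
      rw [h1, mul_pow, heq, mul_one]
      have h2 : 0 < Real.sin (1 / ((k : ℝ) + 1)) :=
        Real.sin_pos_of_pos_of_lt_pi hp (by linarith [Real.pi_gt_three])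
      have := Real.sin_sq_add_cos_sq (1 / ((k : ℝ) + 1))
      nlinarith
    have hlim : Tendsto bk atTop (𝓝 b) := by
      have h1 : Tendsto (fun k : ℕ => 1 / ((k : ℝ) + 1)) atTop (𝓝 0) :=
        tendsto_one_div_add_atTop_nhds_zero_nat
      have h2 : Tendsto (fun t : ℝ => Real.cos t • b + Real.sin t • e) (𝓝 0)
          (𝓝 (Real.cos 0 • b + Real.sin 0 • e)) := by
        refine Continuous.tendsto ?_ 0
        fun_prop
      rw [Real.cos_zero, Real.sin_zero, one_smul, zero_smul, add_zero] at h2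
      exact h2.comp h1
    have hpt : ∀ x : EE n, Tendsto (fun k => ENNReal.ofReal (xi c x a * xi c' x (bk k))) atTop
        (𝓝 (ENNReal.ofReal (xi c x a * xi c' x b))) := by
      intro x
      refine ENNReal.tendsto_ofReal (Tendsto.const_mul _ ?_)
      have h1 : Continuous fun v : EE n => xi c' x v := by
        unfold xi
        fun_prop
      exact (h1.tendsto b).comp hlim
    have hF := lintegral_liminf_le (μ := mun n) (u := (atTop : Filter ℕ))
      (f := fun k x => ENNReal.ofReal (xi c x a * xi c' x (bk k)))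
      (fun k => ((xi_cont c hc a).mul (xi_cont c' hc' (bk k))).measurable.ennreal_ofReal)
    have h1 : ∫⁻ x : EE n, ENNReal.ofReal (xi c x a * xi c' x b) ∂(mun n) =
        ∫⁻ x : EE n, liminf (fun k => ENNReal.ofReal (xi c x a * xi c' x (bk k))) atTop
          ∂(mun n) := lintegral_congr fun x => (hpt x).liminf_eq.symm
    rw [h1]
    refine hF.trans ?_
    refine liminf_le_of_frequently_le' (Frequently.of_forall fun k => ?_)
    exact J_le hRD2 hCNB hn hk1 a (bk k) c c' M ha (hbn k) hc hc' h0 h0' hm hM (hbi k)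

/-- the averaged kernel -/
lemma K_avg (s u v : ℝ) (hs : s ^ 2 ≤ 1 / 4) :
    K s u v + K s u (-v) ≤ 2 * (1 / (1 + u ^ 2) * (1 / (1 + v ^ 2)) +
      u ^ 2 / (1 + u ^ 2) * (v ^ 2 / (1 + v ^ 2)) + 2 * s ^ 2) := by
  have hs1 : s ^ 2 < 1 := by linarith
  have q1 := quad_pos u v s hs1
  have q2 := quad_pos u (-v) s hs1
  have hr : √(1 - s ^ 2) ≤ 1 := by
    rw [Real.sqrt_le_one]
    linarith [sq_nonneg s]
  obtain ⟨ρ, hρ⟩ : ∃ r, r = u ^ 2 + v ^ 2 := ⟨_, rfl⟩
  have hρ0 : 0 ≤ ρ := by rw [hρ]; positivity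
  obtain ⟨A, hA⟩ : ∃ r, r = 1 - s ^ 2 + ρ := ⟨_, rfl⟩
  obtain ⟨Dn, hD⟩ : ∃ r, r = A ^ 2 - 4 * s ^ 2 * (u ^ 2 * v ^ 2) := ⟨_, rfl⟩
  have e1 : 1 - s ^ 2 + u ^ 2 + v ^ 2 - 2 * s * u * v = A - 2 * s * u * v := by
    rw [hA, hρ]
    ring
  have e2 : 1 - s ^ 2 + u ^ 2 + (-v) ^ 2 - 2 * s * u * (-v) = A + 2 * s * u * v := by
    rw [hA, hρ]
    ring
  rw [e1] at q1
  rw [e2] at q2
  have hDe : Dn = (A - 2 * s * u * v) * (A + 2 * s * u * v) := by
    rw [hD]
    ring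
  have hD0 : 0 < Dn := by
    rw [hDe]
    exact mul_pos q1 q2
  have hA0 : 0 < A := by
    rw [hA]
    linarith
  have e : K s u v + K s u (-v) = √(1 - s ^ 2) * (2 * A / Dn) := by
    have n1 := q1.ne'
    have n2 := q2.ne'
    rw [K, K, e1, e2, hDe, div_add_div _ _ n1 n2]
    ring
  have huv : 4 * (u ^ 2 * v ^ 2) ≤ ρ ^ 2 := by
    rw [hρ]
    nlinarith [sq_nonneg (u ^ 2 - v ^ 2)]
  have hDl : A ^ 2 - s ^ 2 * ρ ^ 2 ≤ Dn := by
    rw [hD]
    have := mul_le_mul_of_nonneg_left huv (sq_nonneg s)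
    linarith
  have hDh : (1 + ρ) ^ 2 / 2 ≤ Dn := by
    have h1 : 3 / 4 + ρ ≤ A := by
      rw [hA]
      linarith
    have h2 : (3 / 4 + ρ) ^ 2 ≤ A ^ 2 := pow_le_pow_left₀ (by linarith) h1 2
    have h3 : s ^ 2 * ρ ^ 2 ≤ 1 / 4 * ρ ^ 2 := mul_le_mul_of_nonneg_right hs (sq_nonneg ρ)
    nlinarith
  have h1 : A / Dn ≤ 1 / (1 + ρ) + 2 * s ^ 2 := by
    rw [div_add' _ _ _ (by positivity), div_le_div_iff₀ hD0 (by positivity)]
    have h2 : A * (1 + ρ) = A ^ 2 + s ^ 2 * A := by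
      have : 1 + ρ = A + s ^ 2 := by
        rw [hA]
        ring
      rw [this]
      ring
    rw [h2]
    have h3 : (A ^ 2 - s ^ 2 * ρ ^ 2) + 2 * s ^ 2 * (1 + ρ) * ((1 + ρ) ^ 2 / 2) ≤
        (1 + 2 * s ^ 2 * (1 + ρ)) * Dn := by
      have h4 : 0 ≤ 2 * s ^ 2 * (1 + ρ) := by positivity
      nlinarith [mul_le_mul_of_nonneg_left hDh h4]
    have h5 : s ^ 2 * (ρ ^ 2 + A) ≤ s ^ 2 * (1 + ρ) ^ 3 := by
      refine mul_le_mul_of_nonneg_left ?_ (sq_nonneg s)
      have h6 : A ≤ 1 + ρ := by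
        rw [hA]
        linarith [sq_nonneg s]
      nlinarith [mul_nonneg hρ0 hρ0, mul_nonneg (mul_nonneg hρ0 hρ0) hρ0]
    nlinarith
  have h2 : 1 / (1 + ρ) ≤ 1 / (1 + u ^ 2) * (1 / (1 + v ^ 2)) +
      u ^ 2 / (1 + u ^ 2) * (v ^ 2 / (1 + v ^ 2)) := by
    have h3 : 1 / (1 + u ^ 2) * (1 / (1 + v ^ 2)) + u ^ 2 / (1 + u ^ 2) * (v ^ 2 / (1 + v ^ 2)) =
        (1 + u ^ 2 * v ^ 2) / ((1 + u ^ 2) * (1 + v ^ 2)) := by
      field_simp
    rw [h3, div_le_div_iff₀ (by positivity) (by positivity), hρ]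
    have h4 : 0 ≤ u ^ 2 * v ^ 2 * (u ^ 2 + v ^ 2) := by positivity
    nlinarith
  rw [e]
  have h3 : √(1 - s ^ 2) * (2 * A / Dn) ≤ 1 * (2 * A / Dn) :=
    mul_le_mul_of_nonneg_right hr (by positivity)
  have h4 : 2 * A / Dn = 2 * (A / Dn) := by ring
  rw [h4] at h3 ⊢
  linarith

lemma int_of {c : ℝ → ℝ} (hc : Continuous c) (h0 : ∀ s, 0 ≤ c s)
    (hm : ∫⁻ s, ENNReal.ofReal (c s) ≤ 2) : Integrable c ∧ ∫ s, c s ≤ 2 := by
  have h2 : (∫⁻ s, ENNReal.ofReal (c s)) < ⊤ := hm.trans_lt (by simp)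
  have hI : Integrable c := by
    refine ⟨hc.aestronglyMeasurable, ?_⟩
    rw [hasFiniteIntegral_iff_ofReal (Eventually.of_forall h0)]
    exact h2
  refine ⟨hI, ?_⟩
  rw [integral_eq_lintegral_of_nonneg_ae (Eventually.of_forall h0) hc.aestronglyMeasurable]
  have := ENNReal.toReal_mono (by simp) hm
  simpa using this

lemma int_mul {c g : ℝ → ℝ} (hc : Integrable c) (hg : Continuous g) (hg0 : ∀ s, 0 ≤ g s)
    (hg1 : ∀ s, g s ≤ 1) : Integrable fun s => c s * g s := by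
  refine Integrable.mono' hc.norm (hc.aestronglyMeasurable.mul hg.aestronglyMeasurable)
    (Eventually.of_forall fun s => ?_)
  rw [norm_mul, Real.norm_of_nonneg (hg0 s)]
  exact mul_le_of_le_one_right (norm_nonneg _) (hg1 s)

lemma lint_comb {f1 f2 f3 : ℝ → ℝ} (i1 : Integrable f1) (i2 : Integrable f2) (i3 : Integrable f3)
    (p1 : ∀ s, 0 ≤ f1 s) (p2 : ∀ s, 0 ≤ f2 s) (p3 : ∀ s, 0 ≤ f3 s) (x y z : ℝ) (hx : 0 ≤ x)
    (hy : 0 ≤ y) (hz : 0 ≤ z) :
    ∫⁻ v, ENNReal.ofReal (x * f1 v + y * f2 v + z * f3 v) =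
      ENNReal.ofReal (x * (∫ v, f1 v) + y * (∫ v, f2 v) + z * (∫ v, f3 v)) := by
  have j1 : Integrable fun v => x * f1 v := i1.const_mul x
  have j2 : Integrable fun v => y * f2 v := i2.const_mul y
  have j3 : Integrable fun v => z * f3 v := i3.const_mul z
  have j12 : Integrable fun v => x * f1 v + y * f2 v := j1.add j2
  have j : Integrable fun v => x * f1 v + y * f2 v + z * f3 v := j12.add j3
  rw [← integral_const_mul, ← integral_const_mul, ← integral_const_mul, ← integral_add j1 j2,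
    ← integral_add j12 j3, ofReal_integral_eq_lintegral_ofReal j]
  exact Eventually.of_forall fun v => add_nonneg (add_nonneg (mul_nonneg hx (p1 v))
    (mul_nonneg hy (p2 v))) (mul_nonneg hz (p3 v))

/-- second bound -/
lemma J_le2 (hRD2 : PPX.Stmt_RD2) (hCNB : PPX.Stmt_CNB) {n : ℕ} (hn : 2 ≤ n)
    (hk1 : 0 < kap (n - 1)) (a b : EE n) (c c' : ℝ → ℝ) (ha : ‖a‖ = 1) (hb : ‖b‖ = 1)
    (hc : Continuous c) (hc' : Continuous c') (h0 : ∀ s, 0 ≤ c s) (h0' : ∀ s, 0 ≤ c' s)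
    (he' : ∀ s, c' (-s) = c' s) (hm : ∫⁻ s, ENNReal.ofReal (c s) ≤ 2)
    (hm' : ∫⁻ s, ENNReal.ofReal (c' s) ≤ 2) (hs : (inner ℝ a b : ℝ) ^ 2 ≤ 1 / 4) :
    ∫⁻ x : EE n, ENNReal.ofReal (xi c x a * xi c' x b) ∂(mun n) ≤
      ENNReal.ofReal (EZ c * EZ c' + ML c * ML c' + 2 * (inner ℝ a b : ℝ) ^ 2) := by
  obtain ⟨hk, -, -, -, hom, -⟩ := hCNB n hn
  have hs1 : (inner ℝ a b : ℝ) ^ 2 < 1 := by linarith
  rw [J_eq hRD2 hn hk hk1 a b c c' ha hb hc hc' hs1]
  set s : ℝ := inner ℝ a b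
  obtain ⟨ic, bc⟩ := int_of hc h0 hm
  obtain ⟨ic', bc'⟩ := int_of hc' h0' hm'
  have g1c : Continuous fun u : ℝ => 1 / (1 + u ^ 2) :=
    continuous_const.div (by fun_prop) fun u => by positivity
  have g2c : Continuous fun u : ℝ => u ^ 2 / (1 + u ^ 2) :=
    Continuous.div (by fun_prop) (by fun_prop) fun u => by positivity
  have g1l : ∀ u : ℝ, 1 / (1 + u ^ 2) ≤ 1 := fun u => by
    rw [div_le_one (by positivity)]
    linarith [sq_nonneg u]
  have g2l : ∀ u : ℝ, u ^ 2 / (1 + u ^ 2) ≤ 1 := fun u => by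
    rw [div_le_one (by positivity)]
    linarith [sq_nonneg u]
  have i1 := int_mul ic g1c (fun u => by positivity) g1l
  have i2 := int_mul ic g2c (fun u => by positivity) g2l
  have i1' := int_mul ic' g1c (fun u => by positivity) g1l
  have i2' := int_mul ic' g2c (fun u => by positivity) g2l
  have v1 : ∫ u, c u * (1 / (1 + u ^ 2)) = 2 * EZ c := by
    rw [EZ]
    simp only [mul_one_div]
    ring
  have v1' : ∫ u, c' u * (1 / (1 + u ^ 2)) = 2 * EZ c' := by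
    rw [EZ]
    simp only [mul_one_div]
    ring
  have v2 : ∫ u, c u * (u ^ 2 / (1 + u ^ 2)) = 2 * ML c := by
    rw [ML]
    ring
  have v2' : ∫ u, c' u * (u ^ 2 / (1 + u ^ 2)) = 2 * ML c' := by
    rw [ML]
    ring
  have hKm : ∀ u : ℝ, Measurable fun v : ℝ => K s u v := fun u =>
    ((K_cont s hs1).comp (Continuous.prodMk_right u)).measurable
  -- the inner integral
  have hin : ∀ u : ℝ, ∫⁻ v : ℝ, ENNReal.ofReal (c u * c' v) * ENNReal.ofReal (K s u v) ≤
      ENNReal.ofReal (c u * (1 / (1 + u ^ 2)) * (2 * EZ c') +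
        c u * (u ^ 2 / (1 + u ^ 2)) * (2 * ML c') + 2 * s ^ 2 * c u * 2) := by
    intro u
    have h1 : ∫⁻ v : ℝ, ENNReal.ofReal (c u * c' v) * ENNReal.ofReal (K s u (-v)) =
        ∫⁻ v : ℝ, ENNReal.ofReal (c u * c' v) * ENNReal.ofReal (K s u v) := by
      rw [← lintegral_neg_eq_self (μ := volume) (fun v : ℝ => ENNReal.ofReal (c u * c' v) *
        ENNReal.ofReal (K s u v))]
      exact lintegral_congr fun v => by rw [he' v]
    have h2 : 2 * ∫⁻ v : ℝ, ENNReal.ofReal (c u * c' v) * ENNReal.ofReal (K s u v) ≤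
        2 * ENNReal.ofReal (c u * (1 / (1 + u ^ 2)) * (2 * EZ c') +
        c u * (u ^ 2 / (1 + u ^ 2)) * (2 * ML c') + 2 * s ^ 2 * c u * (∫ v, c' v)) := by
      have hmeas : Measurable fun v : ℝ => ENNReal.ofReal (c u * c' v) *
          ENNReal.ofReal (K s u v) :=
        ((hc'.measurable.const_mul (c u)).ennreal_ofReal).mul (hKm u).ennreal_ofReal
      rw [two_mul]
      nth_rewrite 2 [← h1]
      rw [← lintegral_add_left hmeas]
      have h3 := lint_comb i1' i2' ic'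
        (fun v => mul_nonneg (h0' v) (by positivity)) (fun v => mul_nonneg (h0' v) (by positivity))
        h0' (c u * (1 / (1 + u ^ 2))) (c u * (u ^ 2 / (1 + u ^ 2))) (2 * s ^ 2 * c u)
        (mul_nonneg (h0 u) (by positivity)) (mul_nonneg (h0 u) (by positivity))
        (mul_nonneg (by positivity) (h0 u))
      rw [v1', v2'] at h3
      rw [← h3, ← lintegral_const_mul' 2 _ (by simp)]
      refine lintegral_mono fun v => ?_
      have hcc : 0 ≤ c u * c' v := mul_nonneg (h0 u) (h0' v)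
      have h4 := K_avg s u v hs
      have k1 := K_nonneg s u v hs1
      have k2 := K_nonneg s u (-v) hs1
      simp only []
      rw [← mul_add, ← ENNReal.ofReal_add k1 k2, ← ENNReal.ofReal_mul hcc]
      have h5 : (2 : ℝ≥0∞) = ENNReal.ofReal 2 := by simp
      rw [h5, ← ENNReal.ofReal_mul (by norm_num)]
      refine ENNReal.ofReal_le_ofReal ?_
      have h6 := mul_le_mul_of_nonneg_left h4 hcc
      linarith
    have h3 := (ENNReal.mul_le_mul_iff_right (a := 2) (by simp) (by simp)).1 h2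
    refine h3.trans (ENNReal.ofReal_le_ofReal ?_)
    have h4 : 2 * s ^ 2 * c u * (∫ v, c' v) ≤ 2 * s ^ 2 * c u * 2 :=
      mul_le_mul_of_nonneg_left bc' (mul_nonneg (by positivity) (h0 u))
    linarith
  have hE' : 0 ≤ EZ c' := by
    have : 0 ≤ ∫ u, c' u * (1 / (1 + u ^ 2)) :=
      integral_nonneg fun u => mul_nonneg (h0' u) (by positivity)
    linarith
  have hL' : 0 ≤ ML c' := by
    have : 0 ≤ ∫ u, c' u * (u ^ 2 / (1 + u ^ 2)) :=
      integral_nonneg fun u => mul_nonneg (h0' u) (by positivity)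
    linarith
  have hout := lint_comb i1 i2 ic (fun v => mul_nonneg (h0 v) (by positivity))
    (fun v => mul_nonneg (h0 v) (by positivity)) h0 (2 * EZ c') (2 * ML c') (2 * s ^ 2 * 2)
    (by positivity) (by positivity) (by positivity)
  rw [v1, v2] at hout
  calc _ ≤ ENNReal.ofReal (1 / 4) * ∫⁻ u : ℝ, ENNReal.ofReal (2 * EZ c' * (c u * (1 / (1 + u ^ 2)))
        + 2 * ML c' * (c u * (u ^ 2 / (1 + u ^ 2))) + 2 * s ^ 2 * 2 * c u) := by
        refine mul_le_mul' (ENNReal.ofReal_le_ofReal (by linarith)) (lintegral_mono fun u => ?_)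
        refine (hin u).trans (le_of_eq ?_)
        congr 1
        ring
    _ = ENNReal.ofReal (1 / 4 * (2 * EZ c' * (2 * EZ c) + 2 * ML c' * (2 * ML c) +
          2 * s ^ 2 * 2 * (∫ v, c v))) := by
        rw [hout, ← ENNReal.ofReal_mul (by norm_num)]
    _ ≤ _ := by
        refine ENNReal.ofReal_le_ofReal ?_
        have h4 : 2 * s ^ 2 * 2 * (∫ v, c v) ≤ 2 * s ^ 2 * 2 * 2 :=
          mul_le_mul_of_nonneg_left bc (by positivity)
        linarith

end XI2_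

open XI2_

theorem xi2_proof (hRD2 : PPX.Stmt_RD2) (hCNB : PPX.Stmt_CNB) (_hMUN : PPX.Stmt_MUN)
    (hAVE : PPI.Stmt_AVE) : Stmt_XI2 := by
  intro n a b c c' M hn ha hb hc hc' h0 h0' _ he' hm hm' hM
  have hk : 0 < kap n := (hCNB n hn).1
  have hk1 : 0 < kap (n - 1) := (hAVE (n - 1) (by omega)).1
  have hcn : 0 ≤ PPX.cn n := by
    unfold PPX.cn
    positivity
  have hF : Continuous fun x : EE n => xi c x a * xi c' x b :=
    (xi_cont c hc a).mul (xi_cont c' hc' b)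
  have hF0 : ∀ x : EE n, 0 ≤ xi c x a * xi c' x b := fun x =>
    mul_nonneg (xi_nonneg c h0 hcn x a) (xi_nonneg c' h0' hcn x b)
  have h1 := J_le' hRD2 hCNB hn hk1 a b c c' M ha hb hc hc' h0 h0' hm hM
  have hM0 : 0 ≤ M := (h0' 0).trans (hM 0)
  have he : ∫ x, xi c x a * xi c' x b ∂(mun n) =
      (∫⁻ x : EE n, ENNReal.ofReal (xi c x a * xi c' x b) ∂(mun n)).toReal :=
    integral_eq_lintegral_of_nonneg_ae (Eventually.of_forall hF0) hF.aestronglyMeasurable
  refine ⟨?_, ?_, fun hs => ?_⟩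
  · refine ⟨hF.aestronglyMeasurable, ?_⟩
    rw [hasFiniteIntegral_iff_ofReal (Eventually.of_forall hF0)]
    exact h1.trans_lt ENNReal.ofReal_lt_top
  · rw [he]
    have := ENNReal.toReal_mono ENNReal.ofReal_ne_top h1
    rwa [ENNReal.toReal_ofReal (by linarith)] at this
  · rw [he]
    have h2 := J_le2 hRD2 hCNB hn hk1 a b c c' ha hb hc hc' h0 h0' he' hm hm' hs
    have := ENNReal.toReal_mono ENNReal.ofReal_ne_top h2
    refine this.trans (le_of_eq (ENNReal.toReal_ofReal ?_))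
    have k1 : ∀ d : ℝ → ℝ, (∀ s, 0 ≤ d s) → 0 ≤ EZ d := fun d hd => by
      unfold EZ
      exact mul_nonneg (by norm_num) (integral_nonneg fun s => div_nonneg (hd s) (by positivity))
    have k2 : ∀ d : ℝ → ℝ, (∀ s, 0 ≤ d s) → 0 ≤ ML d := fun d hd => by
      unfold ML
      exact mul_nonneg (by norm_num) (integral_nonneg fun s => mul_nonneg (hd s) (by positivity))
    have := mul_nonneg (k1 c h0) (k1 c' h0')
    have := mul_nonneg (k2 c h0) (k2 c' h0')
    positivity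

end PPW
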