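import Pool.Agent.PPW.Stmts

/-!
# Squad PPW (MP_0bf616_gt), module XU2: upper bounds for the second moments of the narrow part
-/

set_option autoImplicit false

namespace PPW

open MeasureTheory Set Filter Topology ProbabilityTheory
open PPI PPG PPX
open scoped Pointwise ENNReal

namespace XU2_

/-- tail of the series of `-√(1-t)` -/
theorem tail_bound (hB : PPX.Stmt_BTS) (m : ℕ) (t : ℝ) (h0 : 0 ≤ t) (h1 : t ≤ 1) :
    -√(1 - t) ≤ ∑ k ∈ Finset.range (m + 1), ec k * t ^ k + t ^ (m + 1) := by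
  obtain ⟨-, hs, hb, he, hsum⟩ := hB
  have e1 := (hasSum_nat_add_iff' (m + 1)).2 (hs t h0 h1)
  have e2 := (hasSum_nat_add_iff' (m + 1)).2 (hs 1 zero_le_one le_rfl)
  have e3 := e2.mul_right (t ^ (m + 1))
  have e4 := hasSum_le (fun k => ?_) e1 e3
  · have h5 : ∑ i ∈ Finset.range (m + 1), ec i * (1 : ℝ) ^ i = - bt m := by
      rw [← hsum m]
      apply Finset.sum_congr rfl
      intro i _
      rw [one_pow, mul_one]
    rw [h5, sub_self, Real.sqrt_zero, neg_zero, zero_sub, neg_neg] at e4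
    have h6 : bt m * t ^ (m + 1) ≤ 1 * t ^ (m + 1) :=
      mul_le_mul_of_nonneg_right (hb m).2.1 (pow_nonneg h0 _)
    linarith
  · have hk := (he (k + (m + 1)) (by omega)).1
    rw [one_pow, mul_one, pow_add]
    have h7 : t ^ k ≤ 1 := pow_le_one₀ h0 h1
    have h8 : 0 ≤ t ^ (m + 1) := pow_nonneg h0 _
    nlinarith [mul_le_mul_of_nonneg_left (mul_le_mul_of_nonneg_right h7 h8) hk.le]

/-- pointwise bound for the kernel -/
theorem kk_bound (n m : ℕ) (c : ℕ → ℝ) (hc : ∀ k, 0 ≤ c k ∧ c k ≤ 2)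
    (hkt : ∀ (m : ℕ) (s θ : ℝ), 0 < θ → θ ^ 2 ≤ 1 - s ^ 2 →
      kk n s ≤ ∑ k ∈ Finset.range (m + 1), c k * s ^ (2 * k) + 2 / θ * s ^ (2 * (m + 1)))
    (s θ : ℝ) (hθ : 0 < θ) :
    kk n s ≤ ∑ k ∈ Finset.range (m + 1), c k * s ^ (2 * k) + 2 / θ * s ^ (2 * (m + 1)) +
      (if 1 - s ^ 2 ≤ θ ^ 2 then kk n s + 1 else 0) := by
  by_cases h : 1 - s ^ 2 ≤ θ ^ 2
  · rw [if_pos h]
    have h1 : 0 ≤ ∑ k ∈ Finset.range (m + 1), c k * s ^ (2 * k) := by
      apply Finset.sum_nonneg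
      intro k _
      apply mul_nonneg (hc k).1
      rw [pow_mul]
      exact pow_nonneg (sq_nonneg s) _
    have h2 : 0 ≤ 2 / θ * s ^ (2 * (m + 1)) := by
      rw [pow_mul]
      positivity
    linarith
  · rw [if_neg h, add_zero]
    push Not at h
    exact hkt m s θ hθ h.le

theorem kk_sqrt_bound (hB : PPX.Stmt_BTS) (n m : ℕ) (c : ℕ → ℝ) (ho1 : 0 ≤ om n)
    (ho2 : om n ≤ 1) (hc : ∀ k, 0 ≤ c k ∧ c k ≤ 2)
    (hkt : ∀ (m : ℕ) (s θ : ℝ), 0 < θ → θ ^ 2 ≤ 1 - s ^ 2 →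
      kk n s ≤ ∑ k ∈ Finset.range (m + 1), c k * s ^ (2 * k) + 2 / θ * s ^ (2 * (m + 1)))
    (s θ : ℝ) (hθ : 0 < θ) (hθ1 : θ ≤ 1) (hs : s ^ 2 ≤ 1) :
    kk n s - om n * √(1 - s ^ 2) ≤ ∑ k ∈ Finset.range (m + 1), (c k + om n * ec k) * s ^ (2 * k) +
      3 / θ * s ^ (2 * (m + 1)) + (if 1 - s ^ 2 ≤ θ ^ 2 then kk n s + 1 else 0) := by
  have h1 := kk_bound n m c hc hkt s θ hθ
  have h2 := tail_bound hB m (s ^ 2) (sq_nonneg s) hs
  have h3 := mul_le_mul_of_nonneg_left h2 ho1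
  have h4 : s ^ (2 * (m + 1)) = (s ^ 2) ^ (m + 1) := by rw [pow_mul]
  have h5 : 0 ≤ s ^ (2 * (m + 1)) := by rw [h4]; positivity
  have h6 : om n * (s ^ 2) ^ (m + 1) ≤ 1 / θ * s ^ (2 * (m + 1)) := by
    rw [← h4]
    apply mul_le_mul_of_nonneg_right _ h5
    refine ho2.trans ?_
    rw [le_div_iff₀ hθ]
    linarith
  have h7 : ∑ k ∈ Finset.range (m + 1), (c k + om n * ec k) * s ^ (2 * k) =
      ∑ k ∈ Finset.range (m + 1), c k * s ^ (2 * k) +
        om n * ∑ k ∈ Finset.range (m + 1), ec k * (s ^ 2) ^ k := by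
    rw [Finset.mul_sum, ← Finset.sum_add_distrib]
    apply Finset.sum_congr rfl
    intro k _
    rw [pow_mul]
    ring
  rw [h7]
  have h8 : 3 / θ * s ^ (2 * (m + 1)) = 2 / θ * s ^ (2 * (m + 1)) + 1 / θ * s ^ (2 * (m + 1)) := by
    ring
  rw [h8]
  linarith

section fam

variable {n : ℕ} {ι : Type} [Fintype ι]

open Classical in
theorem main (S : Finset ι) (p : ι → ℝ) (w : ι → EE n) (θ : ℝ) (m : ℕ) (hm : 2 ≤ m)
    (a : ℕ → ℝ) (b A σ N1 : ℝ) (F : ℝ → ℝ) (hp : ∀ i, 0 ≤ p i)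
    (hs : ∀ i j, (inner ℝ (w i) (w j)) ^ 2 ≤ (1 : ℝ)) (hθ : 0 < θ)
    (hk0 : ∀ s : ℝ, s ^ 2 ≤ 1 → 0 ≤ kk n s) (hT : ∀ k, 0 ≤ TG (cpl S) p w k)
    (hF : ∀ s : ℝ, s ^ 2 ≤ 1 → F s ≤ ∑ k ∈ Finset.range (m + 1), a k * s ^ (2 * k) +
      b / θ * s ^ (2 * (m + 1)) + (if 1 - s ^ 2 ≤ θ ^ 2 then kk n s + 1 else 0))
    (ha2 : ∀ k, 2 ≤ k → a k ≤ A)
    (hσ : ∑ k ∈ Finset.range (m + 1), a k * smo n k ≤ σ) (hb : 0 ≤ b)
    (hP : (∑ i ∈ cpl S, p i) ^ 2 ≤ 1)
    (hN : (n : ℝ) ^ 2 * smo n (m + 1) ≤ N1) (hsm : 0 ≤ smo n (m + 1)) :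
    (n : ℝ) ^ 2 * ∑ i ∈ cpl S, ∑ j ∈ cpl S, p i * p j * F (inner ℝ (w i) (w j)) ≤
      (n : ℝ) ^ 2 * (∑ i ∈ cpl S, p i) ^ 2 * σ + a 1 * ((n : ℝ) ^ 2 * TG (cpl S) p w 1) +
      A * ((n : ℝ) ^ 2 * ∑ k ∈ Finset.Icc 2 m, TG (cpl S) p w k) +
      b / θ * ((n : ℝ) ^ 2 * TG (cpl S) p w (m + 1) + N1) +
      ∑ i ∈ cpl S, p i * JJ θ p w i := by
  set g := cpl S with hg
  set P := ∑ i ∈ g, p i with hPdef
  have hn2 : 0 ≤ (n : ℝ) ^ 2 := sq_nonneg _
  have hpp : ∀ i j, 0 ≤ p i * p j := fun i j => mul_nonneg (hp i) (hp j)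
  have hPP : ∑ i ∈ g, ∑ j ∈ g, p i * p j = P ^ 2 := by
    rw [← Finset.sum_mul_sum, sq]
  have hSk : ∀ k, ∑ i ∈ g, ∑ j ∈ g, p i * p j * (inner ℝ (w i) (w j)) ^ (2 * k) =
      TG g p w k + P ^ 2 * smo n k := by
    intro k
    unfold TG
    rw [← hPdef]
    ring
  have hT0 : TG g p w 0 = 0 := by
    unfold TG
    have e0 : smo n 0 = 1 := by unfold smo; simp
    rw [e0, ← hPdef]
    simp only [mul_zero, pow_zero, mul_one]
    rw [hPP, sub_self]
  -- the near part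
  have hJ1 : (n : ℝ) ^ 2 * ∑ i ∈ g, ∑ j ∈ g, p i * p j *
      (if 1 - (inner ℝ (w i) (w j)) ^ 2 ≤ θ ^ 2 then kk n (inner ℝ (w i) (w j)) + 1 else 0) ≤
      ∑ i ∈ g, p i * JJ θ p w i := by
    rw [Finset.mul_sum]
    apply Finset.sum_le_sum
    intro i _
    have h1 : p i * JJ θ p w i = (n : ℝ) ^ 2 * ∑ j, p i * p j *
        (if 1 - (inner ℝ (w i) (w j)) ^ 2 ≤ θ ^ 2 then
        kk n (inner ℝ (w i) (w j)) + 1 else 0) := by
      unfold JJ
      rw [mul_left_comm, Finset.mul_sum]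
      congr 1
      apply Finset.sum_congr rfl
      intro j _
      split_ifs <;> ring
    rw [h1]
    apply mul_le_mul_of_nonneg_left _ hn2
    apply Finset.sum_le_sum_of_subset_of_nonneg (Finset.subset_univ g)
    intro j _ _
    apply mul_nonneg (hpp i j)
    split_ifs
    · have := hk0 _ (hs i j)
      linarith
    · exact le_rfl
  have hbound : ∑ i ∈ g, ∑ j ∈ g, p i * p j * F (inner ℝ (w i) (w j)) ≤
      ∑ i ∈ g, ∑ j ∈ g, p i * p j *
      (∑ k ∈ Finset.range (m + 1), a k * (inner ℝ (w i) (w j)) ^ (2 * k) +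
        b / θ * (inner ℝ (w i) (w j)) ^ (2 * (m + 1)) +
      (if 1 - (inner ℝ (w i) (w j)) ^ 2 ≤ θ ^ 2 then
        kk n (inner ℝ (w i) (w j)) + 1 else 0)) := by
    apply Finset.sum_le_sum
    intro i _
    apply Finset.sum_le_sum
    intro j _
    exact mul_le_mul_of_nonneg_left (hF _ (hs i j)) (hpp i j)
  have hsplit : ∑ i ∈ g, ∑ j ∈ g, p i * p j *
      (∑ k ∈ Finset.range (m + 1), a k * (inner ℝ (w i) (w j)) ^ (2 * k) +
        b / θ * (inner ℝ (w i) (w j)) ^ (2 * (m + 1)) +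
      (if 1 - (inner ℝ (w i) (w j)) ^ 2 ≤ θ ^ 2 then
        kk n (inner ℝ (w i) (w j)) + 1 else 0)) =
      ∑ k ∈ Finset.range (m + 1), a k *
        (∑ i ∈ g, ∑ j ∈ g, p i * p j * (inner ℝ (w i) (w j)) ^ (2 * k)) +
      b / θ *
        (∑ i ∈ g, ∑ j ∈ g, p i * p j * (inner ℝ (w i) (w j)) ^ (2 * (m + 1))) +
      ∑ i ∈ g, ∑ j ∈ g, p i * p j * (if 1 - (inner ℝ (w i) (w j)) ^ 2 ≤ θ ^ 2 then
        kk n (inner ℝ (w i) (w j)) + 1 else 0) := by
    have h1 : ∑ k ∈ Finset.range (m + 1), a k *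
        (∑ i ∈ g, ∑ j ∈ g, p i * p j * (inner ℝ (w i) (w j)) ^ (2 * k)) =
        ∑ i ∈ g, ∑ j ∈ g, p i * p j *
          ∑ k ∈ Finset.range (m + 1), a k * (inner ℝ (w i) (w j)) ^ (2 * k) := by
      simp only [Finset.mul_sum]
      rw [Finset.sum_comm]
      apply Finset.sum_congr rfl
      intro i _
      rw [Finset.sum_comm]
      apply Finset.sum_congr rfl
      intro j _
      apply Finset.sum_congr rfl
      intro k _
      ring
    rw [h1]
    simp only [Finset.mul_sum (s := g)]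
    rw [← Finset.sum_add_distrib, ← Finset.sum_add_distrib]
    apply Finset.sum_congr rfl
    intro i _
    rw [← Finset.sum_add_distrib, ← Finset.sum_add_distrib]
    apply Finset.sum_congr rfl
    intro j _
    ring
  rw [hsplit] at hbound
  have hrange : ∑ k ∈ Finset.range (m + 1), a k *
      (∑ i ∈ g, ∑ j ∈ g, p i * p j * (inner ℝ (w i) (w j)) ^ (2 * k)) =
      P ^ 2 * ∑ k ∈ Finset.range (m + 1), a k * smo n k +
      (a 1 * TG g p w 1 + ∑ k ∈ Finset.Icc 2 m, a k * TG g p w k) := by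
    have h1 : Finset.range (m + 1) = insert 0 (insert 1 (Finset.Icc 2 m)) := by
      ext k
      rw [Finset.mem_range, Finset.mem_insert, Finset.mem_insert, Finset.mem_Icc]
      omega
    have h2 : ∑ k ∈ Finset.range (m + 1), a k * TG g p w k =
        a 1 * TG g p w 1 + ∑ k ∈ Finset.Icc 2 m, a k * TG g p w k := by
      rw [h1, Finset.sum_insert (by
        rw [Finset.mem_insert, Finset.mem_Icc]; omega), Finset.sum_insert (by
        rw [Finset.mem_Icc]; omega), hT0]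
      ring
    rw [← h2, Finset.mul_sum, ← Finset.sum_add_distrib]
    apply Finset.sum_congr rfl
    intro k _
    rw [hSk]
    ring
  have hmid : ∑ k ∈ Finset.Icc 2 m, a k * TG g p w k ≤
      A * ∑ k ∈ Finset.Icc 2 m, TG g p w k := by
    rw [Finset.mul_sum]
    apply Finset.sum_le_sum
    intro k hk
    rw [Finset.mem_Icc] at hk
    exact mul_le_mul_of_nonneg_right (ha2 k hk.1) (hT k)
  have hlast : (n : ℝ) ^ 2 *
      (∑ i ∈ g, ∑ j ∈ g, p i * p j * (inner ℝ (w i) (w j)) ^ (2 * (m + 1))) ≤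
      (n : ℝ) ^ 2 * TG g p w (m + 1) + N1 := by
    rw [hSk, mul_add]
    have h1 : (n : ℝ) ^ 2 * (P ^ 2 * smo n (m + 1)) ≤ (n : ℝ) ^ 2 * smo n (m + 1) := by
      apply mul_le_mul_of_nonneg_left _ hn2
      nlinarith
    linarith
  have hbθ : 0 ≤ b / θ := div_nonneg hb hθ.le
  rw [hrange] at hbound
  have e1 := mul_le_mul_of_nonneg_left hbound hn2
  have e2 := mul_le_mul_of_nonneg_left hlast hbθ
  have e3 := mul_le_mul_of_nonneg_left hmid hn2
  have e4 : (n : ℝ) ^ 2 * P ^ 2 * ∑ k ∈ Finset.range (m + 1), a k * smo n k ≤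
      (n : ℝ) ^ 2 * P ^ 2 * σ := mul_le_mul_of_nonneg_left hσ (by positivity)
  linarith

end fam

theorem smo_bound (hSMB : PPX.Stmt_SMB) (n m : ℕ) (hn : 4 ≤ n) :
    (n : ℝ) ^ 2 * smo n (m + 1) ≤ ((2 * m + 2).factorial : ℝ) * (n : ℝ) ^ (1 - (m : ℝ)) := by
  have hn' : (4 : ℝ) ≤ n := by exact_mod_cast hn
  have hn0 : (0 : ℝ) < n := by linarith
  have h2 := (hSMB.1 n (m + 1) (by omega)).2.2.2
  rw [Real.rpow_sub hn0, Real.rpow_one, Real.rpow_natCast]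
  have e1 : (2 * (m + 1)) = 2 * m + 2 := by ring
  rw [e1] at h2
  have hm0 : (0 : ℝ) < (n : ℝ) ^ m := pow_pos hn0 m
  rw [mul_div_assoc', le_div_iff₀ hm0]
  have e2 : (n : ℝ) ^ 2 * smo n (m + 1) * (n : ℝ) ^ m =
      (smo n (m + 1) * (n : ℝ) ^ (m + 1)) * n := by ring
  rw [e2]
  exact mul_le_mul_of_nonneg_right h2 hn0.le

/-- partial sums are at most the sum -/
theorem sum_le_of_hasSum (a : ℕ → ℝ) (σ : ℝ) (m : ℕ) (h : HasSum a σ)
    (h0 : ∀ k, 1 ≤ k → 0 ≤ a k) : ∑ k ∈ Finset.range (m + 1), a k ≤ σ := by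
  refine sum_le_hasSum _ (fun k hk => ?_) h
  rw [Finset.mem_range] at hk
  exact h0 k (by omega)

end XU2_

set_option maxHeartbeats 2000000 in
open XU2_ in
open Classical in
theorem xu2_proof (hXE2 : Stmt_XE2) (hKE2 : Stmt_KE2) (hTP2 : Stmt_TP2)
    (hMMS : PPX.Stmt_MMS) (hBTS : PPX.Stmt_BTS) (hSMB : PPX.Stmt_SMB)
    (hCNB : PPX.Stmt_CNB) : Stmt_XU2 := by
  intro m hm
  have hF1 : (1 : ℝ) ≤ ((2 * m + 2).factorial : ℝ) := by
    exact_mod_cast Nat.one_le_iff_ne_zero.2 (Nat.factorial_ne_zero _)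
  refine ⟨3 * ((2 * m + 2).factorial : ℝ) + 4, by positivity, ?_⟩
  intro n ι _ S p w θ hn hI hθ hθ1
  have hn' : (4 : ℝ) ≤ n := by exact_mod_cast hn
  have hn0 : (0 : ℝ) < n := by linarith
  obtain ⟨-, hE1, -, -, -, hE2⟩ := hXE2 n ι S p w (by omega) hI
  obtain ⟨c, hc, hc1, -, hcs, hk0, hkt⟩ := hKE2 n hn
  obtain ⟨-, -, -, ho1, ho2, -⟩ := hCNB n (by omega)
  have ho : 0 < om n := by
    have : 1 / (n : ℝ) ≤ 1 / 4 := one_div_le_one_div_of_le (by norm_num) hn'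
    linarith
  have hp : ∀ i, 0 ≤ p i := fun i => (hI.ppos i).le
  have hs : ∀ i j, (inner ℝ (w i) (w j)) ^ 2 ≤ (1 : ℝ) := by
    intro i j
    have h1 := abs_real_inner_le_norm (w i) (w j)
    rw [hI.nrm i, hI.nrm j, one_mul] at h1
    rw [← sq_abs]
    have h2 := abs_nonneg (inner ℝ (w i) (w j) : ℝ)
    nlinarith
  have hT : ∀ k, 0 ≤ TG (cpl S) p w k := fun k => hTP2 n ι (cpl S) p w k (by omega) hp hI.nrm
  have hcpl : cpl S = Sᶜ := by
    unfold cpl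
    ext i
    simp
  set β : ℝ := n * ∑ i ∈ S, p i with hβ
  have hβ0 : 0 ≤ β := mul_nonneg hn0.le (Finset.sum_nonneg fun i _ => hp i)
  have hPx : ∑ i ∈ cpl S, p i = 1 - β / n := by
    have h1 := Finset.sum_add_sum_compl S p
    rw [hI.psum] at h1
    rw [hcpl, hβ]
    field_simp
    linarith
  have hP0 : 0 ≤ ∑ i ∈ cpl S, p i := Finset.sum_nonneg fun i _ => hp i
  have hP1 : (∑ i ∈ cpl S, p i) ^ 2 ≤ 1 := by
    have : ∑ i ∈ cpl S, p i ≤ 1 := by
      rw [hPx]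
      have : 0 ≤ β / n := by positivity
      linarith
    nlinarith
  have hpp : ∀ i j, 0 ≤ p i * p j := fun i j => mul_nonneg (hp i) (hp j)
  -- the second moment
  have hiso : ∀ i, ∑ j, p j * (inner ℝ (w i) (w j)) ^ 2 = 1 / (n : ℝ) := by
    intro i
    have h1 := hI.iso (w i)
    rw [hI.nrm i, one_pow] at h1
    rw [eq_div_iff hn0.ne', mul_comm]
    rw [← h1]
    congr 1
    apply Finset.sum_congr rfl
    intro j _
    rw [real_inner_comm]
  have hiso1 : ∀ (g : Finset ι), ∑ i ∈ g, ∑ j, p i * p j * (inner ℝ (w i) (w j)) ^ 2 =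
      (∑ i ∈ g, p i) / n := by
    intro g
    rw [Finset.sum_div]
    apply Finset.sum_congr rfl
    intro i _
    have : ∑ j, p i * p j * (inner ℝ (w i) (w j)) ^ 2 =
        p i * ∑ j, p j * (inner ℝ (w i) (w j)) ^ 2 := by
      rw [Finset.mul_sum]
      apply Finset.sum_congr rfl
      intro j _
      ring
    rw [this, hiso i]
    ring
  have hT1 : (n : ℝ) ^ 2 * TG (cpl S) p w 1 = B2 S p w - β ^ 2 / n := by
    have h1 : ∑ i ∈ S, ∑ j ∈ S, p i * p j * (inner ℝ (w i) (w j)) ^ 2 +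
        ∑ i ∈ S, ∑ j ∈ Sᶜ, p i * p j * (inner ℝ (w i) (w j)) ^ 2 = (∑ i ∈ S, p i) / n := by
      rw [← hiso1 S, ← Finset.sum_add_distrib]
      apply Finset.sum_congr rfl
      intro i _
      exact Finset.sum_add_sum_compl S _
    have h2 : ∑ i ∈ Sᶜ, ∑ j ∈ S, p i * p j * (inner ℝ (w i) (w j)) ^ 2 +
        ∑ i ∈ Sᶜ, ∑ j ∈ Sᶜ, p i * p j * (inner ℝ (w i) (w j)) ^ 2 = (∑ i ∈ Sᶜ, p i) / n := by
      rw [← hiso1 Sᶜ, ← Finset.sum_add_distrib]
      apply Finset.sum_congr rfl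
      intro i _
      exact Finset.sum_add_sum_compl S _
    have h3 : ∑ i ∈ S, ∑ j ∈ Sᶜ, p i * p j * (inner ℝ (w i) (w j)) ^ 2 =
        ∑ i ∈ Sᶜ, ∑ j ∈ S, p i * p j * (inner ℝ (w i) (w j)) ^ 2 := by
      rw [Finset.sum_comm]
      apply Finset.sum_congr rfl
      intro i _
      apply Finset.sum_congr rfl
      intro j _
      rw [real_inner_comm, mul_comm (p j)]
    have e1 : smo n 1 = 1 / n := by unfold smo; simp
    unfold TG B2
    rw [e1, hPx]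
    simp only [mul_one]
    rw [hcpl]
    have h4 : ∑ i ∈ Sᶜ, p i = 1 - β / n := by rw [← hcpl]; exact hPx
    rw [h4] at h2
    have h5 : ∑ i ∈ S, p i = β / n := by rw [hβ]; field_simp
    rw [h5] at h1
    have h6 : ∑ i ∈ Sᶜ, ∑ j ∈ Sᶜ, p i * p j * (inner ℝ (w i) (w j)) ^ 2 =
        (1 - β / n) / n - β / n / n +
          ∑ i ∈ S, ∑ j ∈ S, p i * p j * (inner ℝ (w i) (w j)) ^ 2 := by linarith
    rw [h6]
    field_simp
    ring
  have hB2 : B2 S p w ≤ β ^ 2 := by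
    unfold B2
    have h1 : ∑ i ∈ S, ∑ j ∈ S, p i * p j * (inner ℝ (w i) (w j)) ^ 2 ≤
        ∑ i ∈ S, ∑ j ∈ S, p i * p j := by
      apply Finset.sum_le_sum
      intro i _
      apply Finset.sum_le_sum
      intro j _
      have := mul_le_mul_of_nonneg_left (hs i j) (hpp i j)
      linarith
    have h2 : ∑ i ∈ S, ∑ j ∈ S, p i * p j = (∑ i ∈ S, p i) ^ 2 := by
      rw [← Finset.sum_mul_sum, sq]
    rw [h2] at h1
    rw [hβ, mul_pow]
    exact mul_le_mul_of_nonneg_left h1 (sq_nonneg _)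
  have hn2T1 : 0 ≤ (n : ℝ) ^ 2 * TG (cpl S) p w 1 := mul_nonneg (sq_nonneg _) (hT 1)
  -- coefficients
  have hec : ∀ k, 1 ≤ k → 0 < ec k ∧ ec k ≤ 1 := by
    intro k hk
    obtain ⟨h1, h2, -⟩ := hBTS.2.2.2.1 k hk
    have hk' : (1 : ℝ) ≤ k := by exact_mod_cast hk
    exact ⟨h1, by nlinarith⟩
  have hec1 : ec 1 = 1 / 2 := by
    unfold ec bt
    norm_num [Nat.centralBinom, Nat.choose]
  have hsmo : ∀ k, 0 < smo n k := fun k => (hSMB.1 n k (by omega)).1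
  have hN := smo_bound hSMB n m hn
  set N1 : ℝ := (n : ℝ) ^ (1 - (m : ℝ)) with hN1
  have hN10 : 0 ≤ N1 := Real.rpow_nonneg hn0.le _
  set FF : ℝ := ((2 * m + 2).factorial : ℝ) with hFF
  set T := (n : ℝ) ^ 2 * ∑ k ∈ Finset.Icc 2 m, TG (cpl S) p w k with hTdef
  have hTn : 0 ≤ T := mul_nonneg (sq_nonneg _) (Finset.sum_nonneg fun k _ => hT k)
  set U := (n : ℝ) ^ 2 * TG (cpl S) p w (m + 1) with hU
  have hUn : 0 ≤ U := mul_nonneg (sq_nonneg _) (hT _)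
  set J := ∑ i ∈ cpl S, p i * JJ θ p w i with hJ
  have hTsum : (n : ℝ) ^ 2 * ∑ k ∈ Finset.Icc 2 (m + 1), TG (cpl S) p w k = T + U := by
    rw [Finset.sum_Icc_succ_top (by omega), mul_add]
  rw [hTsum]
  have hn2P : (n : ℝ) ^ 2 * (∑ i ∈ cpl S, p i) ^ 2 = (n - β) ^ 2 := by
    rw [hPx]
    field_simp
  have hθi : 1 ≤ 1 / θ := by
    rw [le_div_iff₀ hθ]
    linarith
  have h3θ : ∀ b : ℝ, 0 ≤ b → b ≤ 3 → b ≤ (3 * FF + 4) / θ ∧ b / θ ≤ (3 * FF + 4) / θ ∧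
      b / θ * FF ≤ (3 * FF + 4) / θ := by
    intro b hb0 hb3
    have h1 : b / θ ≤ (3 * FF + 4) / θ := by
      rw [div_le_div_iff_of_pos_right hθ]
      linarith
    have h2 : b ≤ b / θ := by
      rw [le_div_iff₀ hθ]
      nlinarith
    refine ⟨h2.trans h1, h1, ?_⟩
    rw [div_mul_eq_mul_div, div_le_div_iff_of_pos_right hθ]
    nlinarith
  have hβn : 0 ≤ β ^ 2 / n := by positivity
  constructor
  · -- the Hilbert Schmidt norm
    refine hE1.trans ?_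
    have hsum : HasSum (fun k : ℕ => (c k + om n * ec k) * smo n k) (1 / (n : ℝ)) := by
      have h1 := hcs.add ((hMMS n (by omega)).1.mul_left (om n))
      have h2 : (1 : ℝ) + om n * -mm n = 1 / n := by
        unfold mm
        field_simp
        ring
      rw [h2] at h1
      convert h1 using 1
      funext k
      ring
    have hσ := sum_le_of_hasSum _ _ m hsum (fun k hk => by
      have := (hec k hk).1
      have := (hc k).1
      have := hsmo k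
      positivity)
    have h1 := main S p w θ m hm (fun k => c k + om n * ec k) 3 3 (1 / (n : ℝ)) (FF * N1)
      (fun s => kk n s - om n * √(1 - s ^ 2)) hp hs hθ (fun s hs => (hk0 s hs).1) hT
      (fun s hs => kk_sqrt_bound hBTS n m c ho.le ho2 hc hkt s θ hθ hθ1 hs)
      (fun k hk => by
        have h2 := (hec k (by omega)).2
        have h3 := (hec k (by omega)).1
        have h4 := (hc k).2
        have h5 : om n * ec k ≤ 1 := by nlinarith
        linarith) hσ (by norm_num) hP1 hN (hsmo _).le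
    beta_reduce at h1
    have h2 : (c 1 + om n * ec 1) * ((n : ℝ) ^ 2 * TG (cpl S) p w 1) ≤
        B2 S p w - β ^ 2 / n + 2 / n * β ^ 2 := by
      have h3 : c 1 + om n * ec 1 ≤ 1 + 2 / n := by
        rw [hec1]
        linarith
      have h4 := mul_le_mul_of_nonneg_right h3 hn2T1
      rw [hT1] at h4 ⊢
      have h5 : 0 ≤ (2 : ℝ) / n := by positivity
      have h6 := mul_le_mul_of_nonneg_left hB2 h5
      have h7 : 0 ≤ (2 : ℝ) / n * (β ^ 2 / n) := by positivity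
      linarith
    have h3 : (n : ℝ) ^ 2 * (∑ i ∈ cpl S, p i) ^ 2 * (1 / (n : ℝ)) =
        n - 2 * β + β ^ 2 / n := by
      rw [hn2P]
      field_simp
      ring
    obtain ⟨k1, k2, k3⟩ := h3θ 3 (by norm_num) le_rfl
    have h4 := mul_le_mul_of_nonneg_right k1 hTn
    have h5 := mul_le_mul_of_nonneg_right k2 hUn
    have h6 := mul_le_mul_of_nonneg_right k3 hN10
    have h7 : 4 * ((β + β ^ 2) / n) ≤ (3 * FF + 4) * ((β + β ^ 2) / n) := by
      apply mul_le_mul_of_nonneg_right _ (by positivity)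
      linarith
    have h8 : 4 * ((β + β ^ 2) / n) = 4 * β / n + 2 / n * β ^ 2 + 2 * (β ^ 2 / n) := by ring
    rw [h3] at h1
    linarith
  · -- the trace
    rw [hE2]
    have hσ := sum_le_of_hasSum _ _ m hcs (fun k _ => mul_nonneg (hc k).1 (hsmo k).le)
    have h1 := main S p w θ m hm c 2 2 1 (FF * N1) (fun s => kk n s) hp hs hθ
      (fun s hs => (hk0 s hs).1) hT (fun s _ => kk_bound n m c hc hkt s θ hθ)
      (fun k _ => (hc k).2) hσ (by norm_num) hP1 hN (hsmo _).le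
    beta_reduce at h1
    have h2 : c 1 * ((n : ℝ) ^ 2 * TG (cpl S) p w 1) ≤ B2 S p w := by
      have h3 : c 1 ≤ 1 := by
        have : 2 / (n : ℝ) ≤ 2 / 4 := by
          apply div_le_div_of_nonneg_left (by norm_num) (by norm_num) hn'
        linarith
      have h4 := mul_le_mul_of_nonneg_right h3 hn2T1
      rw [hT1] at h4 ⊢
      linarith
    obtain ⟨k1, k2, k3⟩ := h3θ 2 (by norm_num) (by norm_num)
    have h4 := mul_le_mul_of_nonneg_right k1 hTn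
    have h5 := mul_le_mul_of_nonneg_right k2 hUn
    have h6 := mul_le_mul_of_nonneg_right k3 hN10
    have h7 : 0 ≤ (3 * FF + 4) * ((β + β ^ 2) / n) := by positivity
    rw [hn2P] at h1
    linarith

end PPW
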