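import Pool.Agent.PPW.Stmts

/-!
# Squad PPW (MP_0bf616_gt), module ZDW: the determinants
-/

set_option autoImplicit false

namespace PPW

open MeasureTheory Set Filter Topology ProbabilityTheory
open PPI PPG PPX
open scoped Pointwise ENNReal

namespace ZDW_

theorem sm_psd {n : ℕ} {ι : Type} (S : Finset ι) (α : ι → ℝ) (u : ι → EE n)
    (h : ∀ i ∈ S, 0 ≤ α i) : (sm S α u).PosSemidef := by
  refine Matrix.PosSemidef.of_dotProduct_mulVec_nonneg ?_ ?_
  · ext k l
    simp only [Matrix.conjTranspose_apply, sm, Matrix.of_apply, star_trivial]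
    refine Finset.sum_congr rfl fun i _ => ?_
    ring
  · intro x
    have e : star x ⬝ᵥ (Matrix.mulVec (sm S α u) x) = ∑ i ∈ S, α i * (∑ k, x k * u i k) ^ 2 := by
      simp only [dotProduct, Matrix.mulVec, sm, Matrix.of_apply, star_trivial]
      have e1 : ∀ i, α i * (∑ k, x k * u i k) ^ 2 =
          ∑ k, x k * ∑ l, α i * (u i k * u i l) * x l := by
        intro i
        rw [sq, Finset.sum_mul_sum, Finset.mul_sum]
        refine Finset.sum_congr rfl fun k _ => ?_
        rw [Finset.mul_sum, Finset.mul_sum]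
        refine Finset.sum_congr rfl fun l _ => ?_
        ring
      simp only [e1]
      rw [Finset.sum_comm]
      refine Finset.sum_congr rfl fun k _ => ?_
      rw [← Finset.mul_sum]
      congr 1
      rw [Finset.sum_comm]
      refine Finset.sum_congr rfl fun l _ => ?_
      rw [Finset.sum_mul]
    rw [e]
    exact Finset.sum_nonneg fun i hi => mul_nonneg (h i hi) (sq_nonneg _)

end ZDW_

open ZDW_ in
open Classical in
theorem zdw_proof (hZDT : PPX.Stmt_ZDT) (hC1D : PPX.Stmt_C1D) (hCNB : PPX.Stmt_CNB) :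
    Stmt_ZDW := by
  intro n ι _ S p w c hn hp hcc hc0 hc2
  have hn1 : 1 ≤ n := by omega
  have hk : 0 < kap n := (hCNB n hn).1
  have hcn : 0 < PPX.cn n := by
    have h1 := (hCNB n hn).2.1
    have h2 : 0 < √(n : ℝ) := Real.sqrt_pos.2 (by exact_mod_cast (by omega : 0 < n))
    linarith
  have hk1 : 0 < kap (n - 1) := by
    have h1 : 0 ≤ kap (n - 1) := ENNReal.toReal_nonneg
    rcases h1.lt_or_eq with h | h
    · exact h
    · exfalso
      unfold PPX.cn at hcn
      rw [← h] at hcn
      simp at hcn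
  set c' : ι → ℝ → ℝ := fun i t => if i ∈ S then c i t
    else PPX.cn n * (1 + t ^ 2) ^ (-((n : ℝ) / 2) - 1) with hc'
  have hnar : Continuous fun t : ℝ => PPX.cn n * (1 + t ^ 2) ^ (-((n : ℝ) / 2) - 1) := by
    refine continuous_const.mul ?_
    refine Continuous.rpow_const (by fun_prop) fun t => Or.inl ?_
    positivity
  have hmeas : ∀ i, Measurable (c' i) := by
    intro i
    by_cases hi : i ∈ S
    · have e : c' i = c i := by
        funext t
        simp only [hc', if_pos hi]
      rw [e]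
      exact (hcc i hi).measurable
    · have e : c' i = fun t : ℝ => PPX.cn n * (1 + t ^ 2) ^ (-((n : ℝ) / 2) - 1) := by
        funext t
        simp only [hc', if_neg hi]
      rw [e]
      exact hnar.measurable
  have hnn : ∀ i t, 0 ≤ c' i t := by
    intro i t
    by_cases hi : i ∈ S
    · simp only [hc', if_pos hi]
      exact hc0 i hi t
    · simp only [hc', if_neg hi]
      have : (0 : ℝ) < 1 + t ^ 2 := by positivity
      exact mul_nonneg hcn.le (Real.rpow_nonneg this.le _)
  have hmass : ∀ i, ∫⁻ t : ℝ, ENNReal.ofReal (c' i t) ≤ 2 := by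
    intro i
    by_cases hi : i ∈ S
    · simp only [hc', if_pos hi]
      exact hc2 i hi
    · simp only [hc', if_neg hi]
      have e : ∀ t : ℝ, ENNReal.ofReal (PPX.cn n * (1 + t ^ 2) ^ (-((n : ℝ) / 2) - 1)) =
          ENNReal.ofReal (PPX.cn n) * ENNReal.ofReal ((1 + t ^ 2) ^ (-((n : ℝ) / 2) - 1)) :=
        fun t => ENNReal.ofReal_mul hcn.le
      rw [lintegral_congr e, lintegral_const_mul' _ _ ENNReal.ofReal_ne_top, hC1D n hn1,
        ← ENNReal.ofReal_mul hcn.le]
      have e2 : PPX.cn n * (kap n / kap (n - 1)) = 2 := by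
        unfold PPX.cn
        field_simp
      rw [e2]
      simp
  have key : ∀ x : EE n, PPX.Mt (fun i => (n : ℝ) / PPX.cn n * √(1 + ‖x‖ ^ 2) * p i *
      c' i (inner ℝ x (w i))) w x = Mx S p w c x := by
    intro x
    ext k l
    simp only [PPX.Mt, Mx, sm, Matrix.of_apply, Matrix.add_apply, cpl]
    have hs := Finset.sum_sdiff (Finset.subset_univ S) (f := fun i =>
      (n : ℝ) / PPX.cn n * √(1 + ‖x‖ ^ 2) * p i * c' i (inner ℝ x (w i)) *
        (PPX.tx x (w i) k * PPX.tx x (w i) l))
    rw [← hs]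
    congr 1
    · refine Finset.sum_congr rfl fun i hi => ?_
      have hi' : i ∉ S := (Finset.mem_sdiff.1 hi).2
      simp only [hc', if_neg hi', PPX.wv]
      field_simp
    · refine Finset.sum_congr rfl fun i hi => ?_
      simp only [hc', if_pos hi, xi]
      field_simp
  obtain ⟨h1, h2⟩ := hZDT n ι p w c' hn hp hmeas hnn hmass
  simp only [key] at h1 h2
  refine ⟨h1, ?_, h2⟩
  intro x
  refine Matrix.PosSemidef.det_nonneg ?_
  refine Matrix.PosSemidef.add (sm_psd _ _ _ ?_) (sm_psd _ _ _ ?_)
  · intro i _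
    have h3 : 0 ≤ PPX.wv x (w i) := by
      unfold PPX.wv
      positivity
    have h4 : (0 : ℝ) ≤ n := Nat.cast_nonneg n
    exact mul_nonneg (mul_nonneg h4 (hp i)) h3
  · intro i hi
    have h3 : 0 ≤ xi (c i) x (w i) := by
      unfold xi
      exact div_nonneg (mul_nonneg (Real.sqrt_nonneg _) (hc0 i hi _)) hcn.le
    have h4 : (0 : ℝ) ≤ n := Nat.cast_nonneg n
    exact mul_nonneg (mul_nonneg h4 (hp i)) h3

end PPW
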