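import Pool.Agent.PPX.Final
import Pool.Agent.PPW.Stmts2
import Pool.Agent.PPW.EXB
import Pool.Agent.PPW.GZB
import Pool.Agent.PPW.GPB
import Pool.Agent.PPW.GPF
import Pool.Agent.PPW.GCO
import Pool.Agent.PPW.GC1
import Pool.Agent.PPW.KAP
import Pool.Agent.PPW.GC2
import Pool.Agent.PPW.SPB
import Pool.Agent.PPW.SPF
import Pool.Agent.PPW.SLV
import Pool.Agent.PPW.SEG
import Pool.Agent.PPW.SCO
import Pool.Agent.PPW.SNU
import Pool.Agent.PPW.NUM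
import Pool.Agent.PPW.GMX
import Pool.Agent.PPW.GLA
import Pool.Agent.PPW.GNM
import Pool.Agent.PPW.GRT
import Pool.Agent.PPW.GPI
import Pool.Agent.PPW.POM
import Pool.Agent.PPW.LAB
import Pool.Agent.PPW.EAB
import Pool.Agent.PPW.QAB
import Pool.Agent.PPW.PTB
import Pool.Agent.PPW.BAL
import Pool.Agent.PPW.MD0
import Pool.Agent.PPW.MLB
import Pool.Agent.PPW.EST
import Pool.Agent.PPW.PWB
import Pool.Agent.PPW.QBB
import Pool.Agent.PPW.PTW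
import Pool.Agent.PPW.KE2
import Pool.Agent.PPW.TP2
import Pool.Agent.PPW.PS2
import Pool.Agent.PPW.TB2
import Pool.Agent.PPW.GMA
import Pool.Agent.PPW.XE2
import Pool.Agent.PPW.XU2
import Pool.Agent.PPW.XI1
import Pool.Agent.PPW.XI2
import Pool.Agent.PPW.BBB
import Pool.Agent.PPW.VTW
import Pool.Agent.PPW.CN2
import Pool.Agent.PPW.SEL
import Pool.Agent.PPW.LMB
import Pool.Agent.PPW.JTB
import Pool.Agent.PPW.WSE
import Pool.Agent.PPW.PB1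
import Pool.Agent.PPW.PBL
import Pool.Agent.PPW.PBQ
import Pool.Agent.PPW.PBD
import Pool.Agent.PPW.PRB
import Pool.Agent.PPW.ZDW
import Pool.Agent.PPW.WAN
import Pool.Agent.PPW.WMA
import Pool.Agent.PPW.R1B
import Pool.Agent.PPW.R4B
import Pool.Agent.PPW.THS
import Pool.Agent.PPW.PST
import Pool.Agent.PPW.BST
import Pool.Agent.PPW.CPT
import Pool.Agent.PPW.EQ1
import Pool.Agent.PPW.EQ2
import Pool.Agent.PPW.EQR
import Pool.Agent.PPW.EQ3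
import Pool.Agent.PPW.EQ4
import Pool.Agent.PPW.EQ5
import Pool.Agent.PPW.EQB
import Pool.Agent.PPW.ELL
import Pool.Agent.PPW.FIN

/-!
# Squad PPW (MP_0bf616_gt): assembly
-/

set_option autoImplicit false

namespace PPW

theorem t_EXB : Stmt_EXB := exb_proof
theorem t_GZB : Stmt_GZB := gzb_proof
theorem t_GPB : Stmt_GPB := gpb_proof
theorem t_GPF : Stmt_GPF := gpf_proof t_GZB t_GPB t_EXB
theorem t_GCO : Stmt_GCO := gco_proof t_GZB t_GPB t_EXB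
theorem t_GC1 : Stmt_GC1 := gc1_proof t_GCO t_EXB
theorem t_KAP : Stmt_KAP := kap_proof t_EXB
theorem t_GC2 : Stmt_GC2 := gc2_proof t_GCO t_KAP t_EXB
theorem t_SPB : Stmt_SPB := spb_proof
theorem t_SPF : Stmt_SPF := spf_proof t_SPB t_EXB
theorem t_SLV : Stmt_SLV := slv_proof t_EXB
theorem t_SEG : Stmt_SEG := seg_proof t_EXB
theorem t_SCO : Stmt_SCO := sco_proof t_SPB t_SPF t_SLV t_SEG t_EXB
theorem t_SNU : Stmt_SNU := snu_proof t_SPB t_SLV t_SEG t_SCO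
theorem t_NUM : Stmt_NUM := num_proof t_GPF t_GC1 t_GC2 t_SPF t_SNU
theorem t_GMX : Stmt_GMX := gmx_proof t_EXB PPI.t_AVE PPX.t_MUN
theorem t_GLA : Stmt_GLA := gla_proof
theorem t_GNM : Stmt_GNM := gnm_proof t_GLA
theorem t_GRT : Stmt_GRT := grt_proof
theorem t_GPI : Stmt_GPI := gpi_proof t_GRT t_GLA
theorem t_POM : Stmt_POM := pom_proof t_GPI
theorem t_LAB : Stmt_LAB := lab_proof t_GLA
theorem t_EAB : Stmt_EAB := eab_proof t_EXB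
theorem t_QAB : Stmt_QAB := qab_proof t_GLA t_POM
theorem t_PTB : Stmt_PTB := ptb_proof
theorem t_BAL : Stmt_BAL := bal_proof
theorem t_MD0 : Stmt_MD0 := md0_proof
theorem t_MLB : Stmt_MLB := mlb_proof
theorem t_EST : Stmt_EST := est_proof
theorem t_PWB : Stmt_PWB := pwb_proof t_PTB t_MD0 t_MLB t_EST
theorem t_QBB : Stmt_QBB := qbb_proof t_PTB t_BAL
theorem t_CN2 : Stmt_CN2 := cn2_proof PPX.t_CNB
theorem t_PTW : Stmt_PTW := ptw_proof t_PWB t_QBB t_CN2 t_LAB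
theorem t_KE2 : Stmt_KE2 := ke2_proof PPX.t_KEN
theorem t_TP2 : Stmt_TP2 := tp2_proof PPX.t_TPD PPX.t_SMM
theorem t_PS2 : Stmt_PS2 := ps2_proof PPX.t_PMM PPX.t_SMM t_TP2 PPX.t_SPH
theorem t_TB2 : Stmt_TB2 := tb2_proof PPX.t_WLD t_PS2 t_TP2 PPX.t_SMB PPX.t_SMM PPX.t_SPH
theorem t_GMA : Stmt_GMA := gma_proof PPX.t_EW1 PPX.t_RD1 PPX.t_MUN PPX.t_C1D PPI.t_AVE
theorem t_XE2 : Stmt_XE2 := xe2_proof t_GMA PPX.t_EW1 PPX.t_IN3 PPX.t_KGM PPX.t_MUN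
theorem t_XU2 : Stmt_XU2 := xu2_proof t_XE2 t_KE2 t_TP2 PPX.t_MMS PPX.t_BTS PPX.t_SMB PPX.t_CNB
theorem t_XI1 : Stmt_XI1 := xi1_proof PPX.t_RD1 PPX.t_CNB PPX.t_MUN PPI.t_AVE
theorem t_XI2 : Stmt_XI2 := xi2_proof PPX.t_RD2 PPX.t_CNB PPX.t_MUN PPI.t_AVE
theorem t_BBB : Stmt_BBB := bbb_proof
theorem t_VTW : Stmt_VTW := vtw_proof t_XI1 t_XI2 t_BBB t_EAB PPX.t_MUN
theorem t_SEL : Stmt_SEL := sel_proof PPX.t_QBD
theorem t_LMB : Stmt_LMB := lmb_proof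
theorem t_JTB : Stmt_JTB := jtb_proof PPF.t_CAP PPI.t_AVE
theorem t_WSE : Stmt_WSE := wse_proof t_NUM t_SEL t_LMB t_JTB t_TB2 t_XE2 t_XU2 t_BBB PPX.t_LAY PPX.t_KEN PPG.t_CRE
theorem t_PB1 : Stmt_PB1 := pb1_proof t_EXB t_GNM
theorem t_PBL : Stmt_PBL := pbl_proof t_LAB t_EAB
theorem t_PBQ : Stmt_PBQ := pbq_proof t_QAB
theorem t_PBD : Stmt_PBD := pbd_proof t_GMX t_XI1
theorem t_PRB : Stmt_PRB := prb_proof t_PB1 t_PBL t_PBQ t_PBD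
theorem t_ZDW : Stmt_ZDW := zdw_proof PPX.t_ZDT PPX.t_C1D PPX.t_CNB
theorem t_WAN : Stmt_WAN := wan_proof t_GMX t_ZDW t_PTW t_PRB t_VTW t_LAB t_EAB t_XI1
theorem t_WMA : Stmt_WMA := wma_proof t_WSE t_WAN
theorem t_R1B : Stmt_R1B := r1b_proof PPX.t_JLB PPX.t_XUB PPX.t_BQQ PPX.t_TBD PPX.t_CLU PPX.t_LAY PPX.t_KEN PPI.t_AVE
theorem t_R4B : Stmt_R4B := r4b_proof PPX.t_JLB PPX.t_QSR PPX.t_HSS PPX.t_SUP PPX.t_GRS PPX.t_WLD PPX.t_QBD PPX.t_TBD PPX.t_SQR PPX.t_SPH PPI.t_AVE PPX.t_TPD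
theorem t_THS : Stmt_THS := ths_proof t_R1B t_R4B PPX.t_QBD t_WMA PPG.t_CRE PPX.t_CNB
theorem t_PST : Stmt_PST := pst_proof t_THS PPG.t_ISP PPI.t_AVE
theorem t_BST : Stmt_BST := bst_proof t_PST PPG.t_AP2 PPG.t_LMV PPG.t_TUB PPI.t_MON PPI.t_AVE
theorem t_CPT : Stmt_CPT := cpt_proof PPI.t_AVE
theorem t_EQ1 : Stmt_EQ1 := eq1_proof PPX.t_SPH PPI.t_AVE
theorem t_EQ2 : Stmt_EQ2 := eq2_proof PPX.t_SPH PPI.s_BMF PPI.t_AVE
theorem t_EQR : Stmt_EQR := eqr_proof PPX.t_SPH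
theorem t_EQ3 : Stmt_EQ3 := eq3_proof
theorem t_EQ4 : Stmt_EQ4 := eq4_proof
theorem t_EQ5 : Stmt_EQ5 := eq5_proof
theorem t_EQB : Stmt_EQB := eqb_proof t_EQ1 t_EQ2 t_EQR t_EQ3 t_EQ4 t_EQ5 PPI.t_AVE
theorem t_ELL : Stmt_ELL := ell_proof PPX.t_LIN PPI.t_MON PPI.t_AVE
theorem t_FIN : Stmt_FIN := fin_proof t_PST t_BST t_CPT t_EQB t_ELL PPG.t_AP2 PPI.t_MON PPI.t_AVE

end PPW
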