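import Pool.Agent.PPW.Stmts

/-! # PPW NUM: all profiles -/

set_option autoImplicit false

namespace PPW

open MeasureTheory Set Filter Topology ProbabilityTheory
open PPI PPG PPX
open scoped Pointwise ENNReal

namespace NUM_

theorem pf_mono {C C' ω x : ℝ} {c : ℝ → ℝ} (hω : 0 < ω) (h : PF C ω x c) (hC : C ≤ C') :
    PF C' ω x c where
  pos := h.pos
  even := h.even
  dif := h.dif
  der s := (h.der s).trans (div_le_div_of_nonneg_right hC hω.le)
  bdd s := (h.bdd s).trans (div_le_div_of_nonneg_right hC (Real.sqrt_nonneg _))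
  mass := h.mass
  mom := h.mom.trans (mul_le_mul_of_nonneg_right hC hω.le)
  ez := h.ez.trans (mul_le_mul_of_nonneg_right hC hω.le)
  inv r hr := (h.inv r hr).trans (ENNReal.ofReal_le_ofReal
    (mul_le_mul_of_nonneg_right hC (Real.rpow_nonneg hr.le _)))
  elog := h.elog
  cost := h.cost

theorem sqx_le {x : ℝ} (hx0 : 0 ≤ x) (hx1 : x ≤ 1) :
    0 ≤ 1 - √(1 - x) ∧ 199 / 200 * (1 - √(1 - x)) ≤ x := by
  have h0 : 0 ≤ 1 - x := by linarith
  have h1 : √(1 - x) ≤ 1 := by
    rw [Real.sqrt_le_one]; linarith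
  have h2 : 1 - x ≤ √(1 - x) := by
    have := Real.sq_sqrt h0
    nlinarith [Real.sqrt_nonneg (1 - x)]
  constructor <;> linarith

end NUM_

open NUM_ in
theorem num_proof (hGPF : Stmt_GPF) (hGC1 : Stmt_GC1) (hGC2 : Stmt_GC2) (hSPF : Stmt_SPF)
    (hSNU : Stmt_SNU) : Stmt_NUM := by
  obtain ⟨C1, hC1, h1⟩ := hGPF
  obtain ⟨-, C2, hC2, h2⟩ := hSPF
  refine ⟨max C1 C2, lt_max_of_lt_left hC1, ?_, ?_⟩
  · intro x hx0 hx1
    obtain ⟨s0, s1⟩ := sqx_le hx0.le hx1
    rcases le_total x (13 / 20) with hx | hx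
    · have hc := hGC1.1 x hx0 hx
      have ha : 0 < √(x / 10) := Real.sqrt_pos.2 (by positivity)
      have ha2 : √(x / 10) ^ 2 = x / 10 := Real.sq_sqrt (by positivity)
      refine ⟨gp √(x / 10), ?_, hc⟩
      refine pf_mono hx0 (h1 _ x x ha ?_ hx0.le (by linarith) hx0 hx1 (by rw [ha2]; linarith)
        (by rw [ha2]; linarith) (hc.trans s1)) (le_max_left _ _)
      rw [Real.sqrt_le_one]
      linarith
    · rcases le_total x (22 / 25) with hx' | hx'
      · obtain ⟨a, ha0, ha1, ha2, ha3, hc⟩ := hGC2 x hx hx'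
        exact ⟨gp a, pf_mono hx0 (h1 a x x ha0 ha1 hx0.le hx' hx0 hx1 ha2 ha3 (hc.trans s1))
          (le_max_left _ _), hc⟩
      · have hc := hSNU x hx' hx1
        exact ⟨sp (87 / 100), pf_mono hx0 (h2 _ x (by norm_num) (by norm_num) hx' hx1
          (hc.trans s1)) (le_max_right _ _), hc⟩
  · intro x hx0 hx1
    have hc := hGC1.2 x hx0 hx1
    refine ⟨gp (1 / 10), pf_mono one_pos (h1 _ 1 x (by norm_num) (by norm_num) hx0 (by linarith)
      one_pos le_rfl (by norm_num) (by norm_num) (by linarith)) (le_max_left _ _), hc⟩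

end PPW
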