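import Pool.Agent.PPW.Stmts

/-! # PPW PB1: simple events -/

set_option autoImplicit false

namespace PPW

open MeasureTheory Set Filter Topology ProbabilityTheory
open PPI PPG PPX
open scoped Pointwise ENNReal

namespace PB1_

theorem sg_meas : Measurable sg := by
  unfold sg
  fun_prop

theorem markov {α : Type*} [MeasurableSpace α] (μ : Measure α) (f : α → ℝ) (hf : Measurable f)
    (e c : ℝ) (he : 0 < e) (h : ∫⁻ y, ENNReal.ofReal (f y) ∂μ ≤ ENNReal.ofReal c) :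
    μ {y | e < f y} ≤ ENNReal.ofReal (c / e) := by
  have h1 := mul_meas_ge_le_lintegral (μ := μ) (f := fun y => ENNReal.ofReal (f y))
    (by fun_prop) (ENNReal.ofReal e)
  have h2 : μ {y | e < f y} ≤ μ {y | ENNReal.ofReal e ≤ ENNReal.ofReal (f y)} :=
    measure_mono fun y hy => ENNReal.ofReal_le_ofReal (le_of_lt hy)
  rw [ENNReal.ofReal_div_of_pos he, ENNReal.le_div_iff_mul_le
    (Or.inl (ENNReal.ofReal_pos.2 he).ne') (Or.inl ENNReal.ofReal_ne_top), mul_comm]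
  exact (mul_le_mul_right h2 _).trans (h1.trans h)

theorem c1 {R t : ℝ} (hR : 1 ≤ R) (ht : 0 < t) (h : ¬ R⁻¹ ≤ sg t) : R ^ 2 / 2 < t := by
  have hR0 : 0 < R := by linarith
  have hs : 0 < √(2 * t) := Real.sqrt_pos.2 (by positivity)
  unfold sg at h
  rw [inv_le_inv₀ hR0 hs, not_le] at h
  have := Real.sq_sqrt (show 0 ≤ 2 * t by positivity)
  nlinarith

theorem c2 {R t : ℝ} (hR : 1 ≤ R) (ht : 0 < t) (h : ¬ sg t ≤ R) : t < 1 / (2 * R ^ 2) := by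
  have hR0 : 0 < R := by linarith
  have hs : 0 < √(2 * t) := Real.sqrt_pos.2 (by positivity)
  unfold sg at h
  rw [not_le, lt_inv_comm₀ hR0 hs] at h
  have h2 := Real.sq_sqrt (show 0 ≤ 2 * t by positivity)
  have h3 : 2 * t < R⁻¹ ^ 2 := by
    rw [← h2]
    exact pow_lt_pow_left₀ h hs.le (by norm_num)
  rw [lt_div_iff₀ (by positivity)]
  have h4 : R⁻¹ ^ 2 * R ^ 2 = 1 := by
    field_simp
  nlinarith [mul_lt_mul_of_pos_right h3 (show 0 < R ^ 2 by positivity)]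

end PB1_

open PB1_ in
theorem pb1_proof (hEXB : Stmt_EXB) (hGNM : Stmt_GNM) : Stmt_PB1 := by
  obtain ⟨hprob, ht1, ht2, hpos, -, -⟩ := hEXB
  have := hprob
  intro n m P R hn hP hR
  have : IsProbabilityMeasure (gam n) := by unfold gam; infer_instance
  have hn0 : (0 : ℝ) < n := by exact_mod_cast hn
  have hR0 : 0 < R := by linarith
  let A0 : Set (ℝ × EE n) := {z | 0 < z.1}
  let A1 : Set (ℝ × EE n) := {z | R⁻¹ ≤ sg z.1}
  let A2 : Set (ℝ × EE n) := {z | sg z.1 ≤ R}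
  let A3 : Set (ℝ × EE n) := {z | |‖z.2‖ ^ 2 - n| ≤ (n : ℝ) ^ (3 / 4 : ℝ)}
  let A4 : Set (ℝ × EE n) := {z | ‖P z.2‖ ^ 2 ≤ √(n : ℝ)}
  have m0 : MeasurableSet A0 := measurableSet_lt measurable_const measurable_fst
  have m1 : MeasurableSet A1 := measurableSet_le measurable_const (sg_meas.comp measurable_fst)
  have m2 : MeasurableSet A2 := measurableSet_le (sg_meas.comp measurable_fst) measurable_const
  have m3 : MeasurableSet A3 := measurableSet_le (by fun_prop) measurable_const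
  have m4 : MeasurableSet A4 := measurableSet_le (by fun_prop) measurable_const
  have hfst : ∀ s : Set ℝ, MeasurableSet s → (pm n) {z | z.1 ∈ s} = ex s := fun s hs =>
    (measurePreserving_fst (μ := ex) (ν := gam n)).measure_preimage hs.nullMeasurableSet
  have hsnd : ∀ s : Set (EE n), MeasurableSet s → (pm n) {z | z.2 ∈ s} = gam n s := fun s hs =>
    (measurePreserving_snd (μ := ex) (ν := gam n)).measure_preimage hs.nullMeasurableSet
  refine ⟨A0 ∩ (A1 ∩ (A2 ∩ (A3 ∩ A4))), m0.inter (m1.inter (m2.inter (m3.inter m4))), ?_, ?_⟩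
  swap
  · rintro z ⟨h0, h1, h2, h3, h4⟩
    exact ⟨h0, h1, h2, h3, h4⟩
  have hsub : (A0 ∩ (A1 ∩ (A2 ∩ (A3 ∩ A4))))ᶜ ⊆ {z : ℝ × EE n | z.1 ∈ {t : ℝ | t ≤ 0}} ∪
      ({z | z.1 ∈ {t : ℝ | R ^ 2 / 2 < t}} ∪ ({z | z.1 ∈ {t : ℝ | t < 1 / (2 * R ^ 2)}} ∪
      ({z | z.2 ∈ {y : EE n | (n : ℝ) ^ (3 / 2 : ℝ) < (‖y‖ ^ 2 - n) ^ 2}} ∪
        {z | z.2 ∈ {y : EE n | √(n : ℝ) < ‖P y‖ ^ 2}}))) := by
    intro z hz
    by_cases h0 : 0 < z.1
    swap
    · exact Or.inl (not_lt.1 h0)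
    by_cases h1 : R⁻¹ ≤ sg z.1
    swap
    · exact Or.inr (Or.inl (c1 hR h0 h1))
    by_cases h2 : sg z.1 ≤ R
    swap
    · exact Or.inr (Or.inr (Or.inl (c2 hR h0 h2)))
    by_cases h3 : |‖z.2‖ ^ 2 - n| ≤ (n : ℝ) ^ (3 / 4 : ℝ)
    swap
    · refine Or.inr (Or.inr (Or.inr (Or.inl ?_)))
      show (n : ℝ) ^ (3 / 2 : ℝ) < (‖z.2‖ ^ 2 - n) ^ 2
      rw [← sq_abs (‖z.2‖ ^ 2 - n)]
      have e : (n : ℝ) ^ (3 / 2 : ℝ) = ((n : ℝ) ^ (3 / 4 : ℝ)) ^ 2 := by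
        rw [← Real.rpow_natCast, ← Real.rpow_mul hn0.le]
        norm_num
      rw [e]
      exact pow_lt_pow_left₀ (not_le.1 h3) (Real.rpow_nonneg hn0.le _) (by norm_num)
    by_cases h4 : ‖P z.2‖ ^ 2 ≤ √(n : ℝ)
    swap
    · exact Or.inr (Or.inr (Or.inr (Or.inr (not_le.1 h4))))
    exact absurd ⟨h0, h1, h2, h3, h4⟩ hz
  have b0 : (pm n) {z : ℝ × EE n | z.1 ∈ {t : ℝ | t ≤ 0}} = 0 := by
    rw [hfst {t : ℝ | t ≤ 0} measurableSet_Iic]
    have := ae_iff.1 hpos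
    simpa only [not_lt] using this
  have b1 : (pm n) {z : ℝ × EE n | z.1 ∈ {t : ℝ | R ^ 2 / 2 < t}} =
      ENNReal.ofReal (Real.exp (-(R ^ 2 / 2))) := by
    rw [hfst {t : ℝ | R ^ 2 / 2 < t} measurableSet_Ioi, ht1 _ (by positivity)]
  have b2 : (pm n) {z : ℝ × EE n | z.1 ∈ {t : ℝ | t < 1 / (2 * R ^ 2)}} ≤
      ENNReal.ofReal (1 / (2 * R ^ 2)) := by
    rw [hfst {t : ℝ | t < 1 / (2 * R ^ 2)} measurableSet_Iio]
    exact ht2 _ (by positivity)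
  have b3 : (pm n) {z : ℝ × EE n | z.2 ∈ {y : EE n | (n : ℝ) ^ (3 / 2 : ℝ) <
      (‖y‖ ^ 2 - n) ^ 2}} ≤ ENNReal.ofReal (2 / √(n : ℝ)) := by
    rw [hsnd _ (measurableSet_lt measurable_const (by fun_prop))]
    have h := markov (gam n) (fun y => (‖y‖ ^ 2 - n) ^ 2) (by fun_prop)
      ((n : ℝ) ^ (3 / 2 : ℝ)) (2 * n) (by positivity) (by
        rw [(hGNM n).2]
        rw [ENNReal.ofReal_mul (by norm_num)]
        simp)
    have e : 2 * (n : ℝ) / (n : ℝ) ^ (3 / 2 : ℝ) = 2 / √(n : ℝ) := by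
      rw [show (3 / 2 : ℝ) = 1 + 1 / 2 by norm_num, Real.rpow_add hn0, Real.rpow_one,
        ← Real.sqrt_eq_rpow]
      have : √(n : ℝ) ≠ 0 := (Real.sqrt_pos.2 hn0).ne'
      field_simp
    rw [e] at h
    exact h
  have b4 : (pm n) {z : ℝ × EE n | z.2 ∈ {y : EE n | √(n : ℝ) < ‖P y‖ ^ 2}} ≤
      ENNReal.ofReal (m / √(n : ℝ)) := by
    rw [hsnd _ (measurableSet_lt measurable_const (by fun_prop))]
    exact markov (gam n) (fun y => ‖P y‖ ^ 2) (by fun_prop) (√(n : ℝ)) m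
      (Real.sqrt_pos.2 hn0) (by rw [(hGNM n).1 m P hP]; simp)
  have q1 : 0 ≤ Real.exp (-(R ^ 2 / 2)) := (Real.exp_pos _).le
  have q2 : 0 ≤ 1 / (2 * R ^ 2) := by positivity
  have q3 : 0 ≤ 2 / √(n : ℝ) := by positivity
  have q4 : 0 ≤ m / √(n : ℝ) := by positivity
  calc (pm n) (A0 ∩ (A1 ∩ (A2 ∩ (A3 ∩ A4))))ᶜ ≤ _ := measure_mono hsub
    _ ≤ 0 + (ENNReal.ofReal (Real.exp (-(R ^ 2 / 2))) + (ENNReal.ofReal (1 / (2 * R ^ 2)) +
        (ENNReal.ofReal (2 / √(n : ℝ)) + ENNReal.ofReal (m / √(n : ℝ))))) := by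
      refine (measure_union_le _ _).trans (add_le_add b0.le ?_)
      refine (measure_union_le _ _).trans (add_le_add b1.le ?_)
      refine (measure_union_le _ _).trans (add_le_add b2 ?_)
      exact (measure_union_le _ _).trans (add_le_add b3 b4)
    _ = _ := by
      rw [zero_add, ← ENNReal.ofReal_add q3 q4, ← ENNReal.ofReal_add q2 (by positivity),
        ← ENNReal.ofReal_add q1 (by positivity)]
      congr 1
      ring

end PPW
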