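import Pool.Agent.PPW.Stmts

/-!
# Squad PPW (MP_0bf616_gt), module PTW: lower bound for the determinant at good points
-/

set_option autoImplicit false

namespace PPW

open MeasureTheory Set Filter Topology ProbabilityTheory
open PPI PPG PPX
open scoped Pointwise ENNReal

namespace PTW_

/-- facts about `d = n^(-1/4)` -/
theorem de_facts (n : ℕ) (hn : 65536 ≤ n) :
    0 < de n ∧ de n ≤ 1 / 16 ∧ (n : ℝ) ^ (3 / 4 : ℝ) = de n * n ∧ 1 ≤ de n * n ∧
      de n ^ 2 * n = √(n : ℝ) ∧ de n ^ 2 = 1 / √(n : ℝ) := by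
  have hn' : (65536 : ℝ) ≤ n := by exact_mod_cast hn
  have hn0 : (0 : ℝ) < n := by linarith
  have hd0 : 0 < de n := by unfold de; positivity
  have h1 : de n ≤ 1 / 16 := by
    unfold de
    have : (n : ℝ) ^ (-(1 / 4 : ℝ)) ≤ (65536 : ℝ) ^ (-(1 / 4 : ℝ)) :=
      Real.rpow_le_rpow_of_nonpos (by norm_num) hn' (by norm_num)
    refine this.trans (le_of_eq ?_)
    rw [show (65536 : ℝ) = (16 : ℝ) ^ (4 : ℝ) by norm_num, ← Real.rpow_mul (by norm_num),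
      show (4 : ℝ) * -(1 / 4) = -1 by norm_num, Real.rpow_neg_one]
    norm_num
  have h2 : (n : ℝ) ^ (3 / 4 : ℝ) = de n * n := by
    unfold de
    nth_rewrite 3 [← Real.rpow_one (n : ℝ)]
    rw [← Real.rpow_add hn0]
    norm_num
  have h3 : 1 ≤ de n * n := by
    rw [← h2]
    exact Real.one_le_rpow (by linarith) (by norm_num)
  have h4 : de n ^ 2 = 1 / √(n : ℝ) := by
    have e1 : de n ^ 2 = (n : ℝ) ^ (-(1 / 2 : ℝ)) := by
      unfold de
      rw [← Real.rpow_natCast, ← Real.rpow_mul hn0.le]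
      norm_num
    rw [e1, Real.sqrt_eq_rpow, Real.rpow_neg hn0.le]
    exact (one_div _).symm
  have h5 : de n ^ 2 * n = √(n : ℝ) := by
    rw [h4]
    have hs : 0 < √(n : ℝ) := Real.sqrt_pos.mpr hn0
    have := Real.mul_self_sqrt hn0.le
    field_simp
    nlinarith
  exact ⟨hd0, h1, h2, h3, h5, h4⟩

/-- `(1-d) √(π/2) c_n s ≤ √(1+s²|G|²)` -/
theorem fac_le (N d s g cn : ℝ) (hN : 0 < N) (hd : 0 < d) (hd1 : d ≤ 1 / 16)
    (hdN : 1 ≤ d * N) (hs : 0 < s) (_hcn : 0 ≤ cn) (hcn2 : cn ≤ √(2 * (N + 1) / Real.pi))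
    (hg : N - d * N ≤ g) :
    (1 - d) * (√(Real.pi / 2) * s) * cn ≤ √(1 + s ^ 2 * g) := by
  have hpi := Real.pi_pos
  have h0 : √(Real.pi / 2) * cn ≤ √(N + 1) := by
    calc √(Real.pi / 2) * cn ≤ √(Real.pi / 2) * √(2 * (N + 1) / Real.pi) := by gcongr
      _ = √(N + 1) := by
        rw [← Real.sqrt_mul (by positivity)]
        congr 1
        field_simp
  have h1 : (1 - d) * (√(Real.pi / 2) * s) * cn ≤ (1 - d) * s * √(N + 1) := by
    have : (1 - d) * (√(Real.pi / 2) * s) * cn = (1 - d) * s * (√(Real.pi / 2) * cn) := by ring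
    rw [this]
    have h1d : 0 ≤ (1 - d) * s := by
      apply mul_nonneg
      · linarith
      · exact hs.le
    exact mul_le_mul_of_nonneg_left h0 h1d
  refine h1.trans ?_
  apply Real.le_sqrt_of_sq_le
  rw [mul_pow, Real.sq_sqrt (by linarith)]
  have h2 : (1 - d) ^ 2 * (N + 1) ≤ g := by
    nlinarith [mul_nonneg (show 0 ≤ 1 - d by linarith) (show 0 ≤ d * N + d - 1 by nlinarith)]
  have hs2 : 0 < s ^ 2 := by positivity
  nlinarith [mul_le_mul_of_nonneg_left h2 hs2.le]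

/-- `(1-2d) √(1+s²|G|²) ≤ (1-d) √(π/2) c_n s` -/
theorem fac_ge (N d s g cn : ℝ) (hN : 0 < N) (hd : 0 < d) (hd1 : d ≤ 1 / 16)
    (hs : 0 < s) (hcn2 : √(2 * N / Real.pi) ≤ cn)
    (_hg0 : 0 ≤ g) (hg : g ≤ N + d * N) (hs2 : 1 ≤ s ^ 2 * (d * N)) :
    (1 - 2 * d) * √(1 + s ^ 2 * g) ≤ (1 - d) * (√(Real.pi / 2) * s) * cn := by
  have hpi := Real.pi_pos
  have h0 : √N ≤ √(Real.pi / 2) * cn := by
    calc √N = √(Real.pi / 2) * √(2 * N / Real.pi) := by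
          rw [← Real.sqrt_mul (by positivity)]
          congr 1
          field_simp
      _ ≤ √(Real.pi / 2) * cn := by gcongr
  have h1 : (1 - d) * s * √N ≤ (1 - d) * (√(Real.pi / 2) * s) * cn := by
    have : (1 - d) * (√(Real.pi / 2) * s) * cn = (1 - d) * s * (√(Real.pi / 2) * cn) := by ring
    rw [this]
    have h1d : 0 ≤ (1 - d) * s := by
      apply mul_nonneg
      · linarith
      · exact hs.le
    exact mul_le_mul_of_nonneg_left h0 h1d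
  refine le_trans ?_ h1
  have e : (1 - d) * s * √N = √(((1 - d) * s) ^ 2 * N) := by
    rw [Real.sqrt_mul (by positivity), Real.sqrt_sq (mul_nonneg (by linarith) hs.le)]
  have e2 : (1 - 2 * d) * √(1 + s ^ 2 * g) = √((1 - 2 * d) ^ 2 * (1 + s ^ 2 * g)) := by
    rw [Real.sqrt_mul (by positivity), Real.sqrt_sq (by linarith)]
  rw [e, e2]
  apply Real.sqrt_le_sqrt
  have hs0 : 0 < s ^ 2 := by positivity
  have h3 : 1 + s ^ 2 * g ≤ s ^ 2 * (N * (1 + 2 * d)) := by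
    nlinarith [mul_le_mul_of_nonneg_left hg hs0.le]
  have h4 : (1 - 2 * d) ^ 2 * (1 + s ^ 2 * g) ≤ (1 - 2 * d) ^ 2 * (s ^ 2 * (N * (1 + 2 * d))) :=
    mul_le_mul_of_nonneg_left h3 (by positivity)
  refine h4.trans ?_
  have h5 : (1 - 2 * d) ^ 2 * (1 + 2 * d) ≤ (1 - d) ^ 2 := by
    nlinarith [mul_nonneg (mul_nonneg hd.le hd.le) (show 0 ≤ 5 - 8 * d by linarith)]
  have h6 : 0 ≤ s ^ 2 * N := by positivity
  nlinarith [mul_le_mul_of_nonneg_left h5 h6]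

/-- the sums: `n ∑ p (f) ≤ n ∑ p g` -/
theorem sum_mono {ι : Type} (S : Finset ι) (N : ℝ) (hN : 0 ≤ N) (f g : ι → ℝ)
    (h : ∀ i ∈ S, f i ≤ g i) : N * ∑ i ∈ S, f i ≤ N * ∑ i ∈ S, g i :=
  mul_le_mul_of_nonneg_left (Finset.sum_le_sum h) hN

theorem aux1 (d u B : ℝ) (hd0 : 0 < d) (hd1 : d ≤ 1 / 16) (hu : 0 ≤ u) (hB : u ≤ B) :
    (1 - d) * u ≤ B := by nlinarith

theorem aux2 (d ξ a A : ℝ) (hd0 : 0 < d) (hd1 : d ≤ 1 / 16) (h1 : (1 - 2 * d) * ξ ≤ a)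
    (h2 : a ≤ A) (h3 : 0 ≤ ξ) : ξ ≤ 2 * A := by nlinarith

theorem aux3 (d ξ a A : ℝ) (hd0 : 0 < d) (h1 : (1 - 2 * d) * ξ ≤ a)
    (h2 : ξ ≤ 2 * A) : ξ - a ≤ 4 * d * A := by
  nlinarith [mul_le_mul_of_nonneg_left h2 (by linarith : 0 ≤ 2 * d)]

theorem aux4 (d u L : ℝ) (hd1 : d ≤ 1 / 16) (h2 : 0 < u)
    (h1 : (1 - d) * u < 4 / L) : u < 8 / L := by
  have h3 : 1 / 2 * u ≤ (1 - d) * u := mul_le_mul_of_nonneg_right (by linarith) h2.le
  have h4 : 8 / L = 2 * (4 / L) := by ring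
  rw [h4]
  linarith

theorem aux5 (d N q g r s : ℝ) (hd0 : 0 < d) (hd1 : d ≤ 1 / 16) (hN : 0 < N) (hs : 0 < s)
    (hq : q ^ 2 ≤ r) (hr : d ^ 2 * N = r) (hg0 : 0 ≤ g) (hg : N - d * N ≤ g ^ 2) :
    s * q ≤ 2 * d * (s * g) := by
  have h3 : q ≤ 2 * d * g := by
    apply le_of_sq_le_sq _ (by positivity)
    calc q ^ 2 ≤ r := hq
      _ = d ^ 2 * N := hr.symm
      _ ≤ (2 * d * g) ^ 2 := by
        have h5 : N / 4 ≤ g ^ 2 := by nlinarith
        have h6 : 0 ≤ d ^ 2 := by positivity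
        nlinarith [mul_le_mul_of_nonneg_left h5 h6]
  nlinarith [mul_le_mul_of_nonneg_left h3 hs.le]

theorem aux6 (s g X : ℝ) (hX : X = s ^ 2 * g ^ 2) : s * g ≤ 1 + √(1 + X) := by
  have : s * g ≤ √(1 + X) := by
    apply Real.le_sqrt_of_sq_le
    rw [hX]
    nlinarith
  linarith

theorem aux7 (s R d N : ℝ) (hR0 : 0 < R) (hs : R⁻¹ ≤ s) (hR2 : R ^ 2 ≤ d * N) :
    1 ≤ s ^ 2 * (d * N) := by
  have h1 : 1 ≤ s * R := by
    have := mul_le_mul_of_nonneg_right hs hR0.le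
    rw [inv_mul_cancel₀ hR0.ne'] at this
    exact this
  have h2 : 1 ≤ (s * R) ^ 2 := by nlinarith
  calc (1 : ℝ) ≤ (s * R) ^ 2 := h2
    _ = s ^ 2 * R ^ 2 := by ring
    _ ≤ s ^ 2 * (d * N) := by gcongr

theorem aux8 (d N κ A : ℝ) {ι : Type} (S : Finset ι) (p a ξ : ι → ℝ) (hN : 0 ≤ N)
    (hp : ∀ i, 0 < p i) (hd0 : 0 < d) (hA : 0 ≤ A) (hpA : N * ∑ i ∈ S, p i ≤ A)
    (hξa : ∀ i ∈ S, (1 - 2 * d) * ξ i ≤ a i) (hξA : ∀ i ∈ S, ξ i ≤ 2 * A)
    (hdA : 4 * d * A ^ 2 ≤ κ) :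
    N * ∑ i ∈ S, p i * ξ i - κ ≤ N * ∑ i ∈ S, p i * a i := by
  have h1 : N * ∑ i ∈ S, p i * (ξ i - a i) ≤ κ := by
    calc N * ∑ i ∈ S, p i * (ξ i - a i) ≤ N * ∑ i ∈ S, p i * (4 * d * A) := by
          apply sum_mono S N hN
          intro i hi
          apply mul_le_mul_of_nonneg_left _ (hp i).le
          exact aux3 d (ξ i) (a i) A hd0 (hξa i hi) (hξA i hi)
      _ = (N * ∑ i ∈ S, p i) * (4 * d * A) := by
          rw [← Finset.sum_mul]
          ring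
      _ ≤ A * (4 * d * A) := by
          apply mul_le_mul_of_nonneg_right hpA
          positivity
      _ = 4 * d * A ^ 2 := by ring
      _ ≤ κ := hdA
  have h2 : ∑ i ∈ S, p i * (ξ i - a i) = ∑ i ∈ S, p i * ξ i - ∑ i ∈ S, p i * a i := by
    rw [← Finset.sum_sub_distrib]
    apply Finset.sum_congr rfl
    intro i _
    ring
  rw [h2, mul_sub] at h1
  linarith

theorem ab_pos {n m : ℕ} (hLAB : Stmt_LAB) (c : ℝ → ℝ) (P : EE n →L[ℝ] EE n) (w : EE n)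
    (hP : PR m P) (hw : ‖w‖ = 1) (hc : Continuous c) (hpos : ∀ s, 0 < c s)
    (M : ℝ) (hM : ∀ s, c s ≤ M) (z : ℝ × EE n) (hz : 0 < sg z.1) :
    0 < ab c P w z := by
  obtain ⟨h1, -⟩ := hLAB n m c P w hP hw hc ⟨M, fun s => by
    rw [abs_of_pos (hpos s)]; exact hM s⟩
  rw [h1 z]
  have hpi : 0 < √(Real.pi / 2) := Real.sqrt_pos.mpr (by positivity)
  apply mul_pos (mul_pos hpi hz)
  set F : ℝ → ℝ := fun v => c (sg z.1 * (inner ℝ z.2 (P w) + √(1 - ‖P w‖ ^ 2) * v)) with hF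
  have hFc : Continuous F := by
    apply hc.comp
    fun_prop
  have : IsProbabilityMeasure ga1 := by unfold ga1; infer_instance
  have hFi : Integrable F ga1 := by
    refine Integrable.of_bound hFc.aestronglyMeasurable M ?_
    filter_upwards with v
    rw [Real.norm_eq_abs, abs_of_pos (hpos _)]
    exact hM _
  rw [integral_pos_iff_support_of_nonneg (fun v => (hpos _).le) hFi]
  have : Function.support F = univ := by
    ext v
    simp only [Function.mem_support, mem_univ, iff_true]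
    exact (hpos _).ne'
  rw [this]
  simp

end PTW_

open PTW_

theorem ptw_proof (hPWB : Stmt_PWB) (hQBB : Stmt_QBB) (hCN2 : Stmt_CN2) (hLAB : Stmt_LAB) :
    Stmt_PTW := by
  refine ⟨65536, ?_⟩
  intro n m ι _ S p w c P R L A κ Λ z hn hIS hPR hR hR2 hL hLA hκ hκ1 hΛ hpA hc hΛe hA3 hdA hGD
  obtain ⟨hd0, hd1, hdn, hdn1, hd2n, hd2⟩ := de_facts n hn
  have hn' : (65536 : ℝ) ≤ n := by exact_mod_cast hn
  have hn0 : (0 : ℝ) < n := by linarith
  have hn1 : 1 ≤ n := by omega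
  obtain ⟨hcn1, hcn2⟩ := hCN2 n (by omega)
  set d := de n with hd
  set s := sg z.1 with hsdef
  set x : EE n := pt z with hx
  have hR0 : 0 < R := by linarith
  have hs0 : 0 < s := lt_of_lt_of_le (inv_pos.mpr hR0) hGD.s2
  have hcnpos : 0 < PPX.cn n := by
    refine lt_of_lt_of_le (Real.sqrt_pos.mpr ?_) hcn1
    have := Real.pi_pos
    positivity
  have hxs : x = s • z.2 := rfl
  have hxn : ‖x‖ ^ 2 = s ^ 2 * ‖z.2‖ ^ 2 := by
    rw [hxs, norm_smul, mul_pow, Real.norm_eq_abs, sq_abs]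
  have hnrm := abs_le.mp hGD.nrm
  rw [hdn] at hnrm
  obtain ⟨hg1, hg2⟩ := hnrm
  -- `1 ≤ s² d n`
  have hs2 : 1 ≤ s ^ 2 * (d * n) := by
    rw [hdn] at hR2
    exact aux7 s R d n hR0 hGD.s2 hR2
  have hfle := fac_le n d s (‖z.2‖ ^ 2) (PPX.cn n) hn0 hd0 hd1 hdn1 hs0 hcnpos.le hcn2
    (by linarith)
  have hfge := fac_ge n d s (‖z.2‖ ^ 2) (PPX.cn n) hn0 hd0 hd1 hs0 hcn1 (by positivity)
    (by linarith) hs2
  set a : ι → ℝ := fun i => (1 - d) * aa (c i) (w i) z with ha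
  set b : ι → ℝ := fun i => (1 - d) * ab (c i) P (w i) z with hb
  set ξ : ι → ℝ := fun i => xi (c i) x (w i) with hξ
  have hp0 : ∀ i, 0 < p i := hIS.ppos
  have hw1 : ∀ i, ‖w i‖ = 1 := hIS.nrm
  have hA8 : 8 ≤ A := hL.trans hLA
  have hpi2 : √(Real.pi / 2) ≤ 2 := by
    rw [show (2 : ℝ) = √(4) by
      rw [show (4 : ℝ) = 2 ^ 2 by norm_num, Real.sqrt_sq (by norm_num)]]
    apply Real.sqrt_le_sqrt
    have := Real.pi_le_four
    norm_num
    linarith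
  have hpi0 : 0 < √(Real.pi / 2) := Real.sqrt_pos.mpr (by have := Real.pi_pos; positivity)
  have ha0 : ∀ i ∈ S, 0 ≤ a i := by
    intro i hi
    have := (hc i hi).2 (inner ℝ x (w i))
    simp only [ha, aa]
    have h1d : 0 ≤ 1 - d := by linarith
    apply mul_nonneg h1d
    apply mul_nonneg (mul_nonneg hpi0.le hs0.le) this.1.le
  have haA : ∀ i ∈ S, a i ≤ A := by
    intro i hi
    have h := (hc i hi).2 (inner ℝ x (w i))
    have h1 : aa (c i) (w i) z ≤ A := by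
      show √(Real.pi / 2) * s * c i (inner ℝ x (w i)) ≤ A
      calc √(Real.pi / 2) * s * c i (inner ℝ x (w i)) ≤ 2 * R * c i (inner ℝ x (w i)) := by
            have := h.1.le
            have := hGD.s3
            gcongr
        _ ≤ A := h.2
    have h0 : 0 ≤ aa (c i) (w i) z := by
      show 0 ≤ √(Real.pi / 2) * s * c i (inner ℝ x (w i))
      exact mul_nonneg (mul_nonneg hpi0.le hs0.le) h.1.le
    exact aux1 d _ A hd0 hd1 h0 h1
  have haξ : ∀ i ∈ S, a i ≤ ξ i := by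
    intro i hi
    have h := ((hc i hi).2 (inner ℝ x (w i))).1
    show (1 - d) * (√(Real.pi / 2) * s * c i (inner ℝ x (w i))) ≤
      √(1 + ‖x‖ ^ 2) * c i (inner ℝ x (w i)) / PPX.cn n
    rw [le_div_iff₀ hcnpos, hxn]
    calc (1 - d) * (√(Real.pi / 2) * s * c i (inner ℝ x (w i))) * PPX.cn n
        = ((1 - d) * (√(Real.pi / 2) * s) * PPX.cn n) * c i (inner ℝ x (w i)) := by ring
      _ ≤ √(1 + s ^ 2 * ‖z.2‖ ^ 2) * c i (inner ℝ x (w i)) :=
        mul_le_mul_of_nonneg_right hfle h.le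
  have hξa : ∀ i ∈ S, (1 - 2 * d) * ξ i ≤ a i := by
    intro i hi
    have h := ((hc i hi).2 (inner ℝ x (w i))).1
    show (1 - 2 * d) * (√(1 + ‖x‖ ^ 2) * c i (inner ℝ x (w i)) / PPX.cn n) ≤
      (1 - d) * (√(Real.pi / 2) * s * c i (inner ℝ x (w i)))
    rw [hxn, ← mul_div_assoc, div_le_iff₀ hcnpos]
    calc (1 - 2 * d) * (√(1 + s ^ 2 * ‖z.2‖ ^ 2) * c i (inner ℝ x (w i)))
        = ((1 - 2 * d) * √(1 + s ^ 2 * ‖z.2‖ ^ 2)) * c i (inner ℝ x (w i)) := by ring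
      _ ≤ ((1 - d) * (√(Real.pi / 2) * s) * PPX.cn n) * c i (inner ℝ x (w i)) :=
        mul_le_mul_of_nonneg_right hfge h.le
      _ = (1 - d) * (√(Real.pi / 2) * s * c i (inner ℝ x (w i))) * PPX.cn n := by ring
  have hξ0 : ∀ i ∈ S, 0 ≤ ξ i := fun i hi => (ha0 i hi).trans (haξ i hi)
  have hξA : ∀ i ∈ S, ξ i ≤ 2 * A := by
    intro i hi
    exact aux2 d _ _ A hd0 hd1 (hξa i hi) (haA i hi) (hξ0 i hi)
  have hbpos' : ∀ i ∈ S, 0 < ab (c i) P (w i) z := by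
    intro i hi
    refine ab_pos hLAB (c i) P (w i) hPR (hw1 i) (hc i hi).1 (fun t => ((hc i hi).2 t).1)
      (A / (2 * R)) (fun t => ?_) z hs0
    rw [le_div_iff₀ (by positivity)]
    have := ((hc i hi).2 t).2
    linarith
  have h1d : 0 < 1 - d := by linarith
  have hbpos : ∀ i ∈ S, 0 < b i := fun i hi => mul_pos h1d (hbpos' i hi)
  have hbab : ∀ i ∈ S, b i ≤ ab (c i) P (w i) z := by
    intro i hi
    exact aux1 d _ _ hd0 hd1 (hbpos' i hi).le le_rfl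
  have hL0 : 0 < L := by linarith
  -- QBB
  have hQ := hQBB n m ι S p a b w P L κ hn1 hIS hPR hL hκ hκ1 hbpos
    (by
      refine le_trans ?_ hGD.low
      apply sum_mono S n hn0.le
      intro i hi
      have hpp : 0 ≤ p i * ‖P (w i)‖ ^ 2 := mul_nonneg (hp0 i).le (by positivity)
      apply mul_le_mul_of_nonneg_left _ hpp
      by_cases hlt : b i < 4 / L
      · have : ab (c i) P (w i) z < 8 / L := aux4 d _ L hd1 (hbpos' i hi) hlt
        rw [if_pos hlt, if_pos this]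
      · rw [if_neg hlt]
        split_ifs <;> norm_num)
    (by
      refine le_trans ?_ hGD.sab
      apply sum_mono S n hn0.le
      intro i hi
      have hpp : 0 ≤ p i * ‖P (w i)‖ ^ 2 := mul_nonneg (hp0 i).le (by positivity)
      apply mul_le_mul_of_nonneg_left _ hpp
      linarith [hbab i hi])
    (by
      have h := hGD.qab
      have e : (fun i => (n : ℝ) * p i * (a i - b i)) = (fun i => (n : ℝ) * p i *
          ((1 - de n) * (aa (c i) (w i) z - ab (c i) P (w i) z))) := by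
        funext i
        simp only [ha, hb, hd]
        ring
      rw [e]
      exact h)
  obtain ⟨hQ1, hQ2, hQ3⟩ := hQ
  -- PWB
  have hPx : ‖P x‖ ≤ 2 * d * (1 + √(1 + ‖x‖ ^ 2)) := by
    have h1 : ‖P x‖ = s * ‖P z.2‖ := by
      rw [hxs, map_smul, norm_smul, Real.norm_eq_abs, abs_of_pos hs0]
    have h2 : s * ‖P z.2‖ ≤ 2 * d * (s * ‖z.2‖) :=
      aux5 d n _ _ _ s hd0 hd1 hn0 hs0 hGD.prj hd2n (norm_nonneg _) (by linarith)
    rw [h1]
    refine h2.trans ?_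
    have h7 : s * ‖z.2‖ ≤ 1 + √(1 + ‖x‖ ^ 2) := aux6 s _ _ hxn
    exact mul_le_mul_of_nonneg_left h7 (by positivity)
  have hW := hPWB n m ι S p a ξ w P x L A κ Λ (2 * d) hn1 hIS hPR (by linarith) hLA hκ hκ1 hΛ
    (by positivity) (fun i hi => ⟨ha0 i hi, haA i hi, haξ i hi⟩) hpA hΛe hPx
    (by
      refine le_trans ?_ hGD.phi
      apply sum_mono S n hn0.le
      intro i hi
      have h1 := haξ i hi
      have h2 : 0 ≤ (inner ℝ x (w i)) ^ 2 := sq_nonneg _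
      have h3 := (hp0 i).le
      have h4 : p i * a i ≤ p i * ξ i := mul_le_mul_of_nonneg_left h1 h3
      exact mul_le_mul_of_nonneg_right h4 h2)
    hQ1 hQ2 hGD.dg
    (by
      have e : (2 * d) ^ 2 = 4 / √(n : ℝ) := by
        rw [mul_pow, hd2]
        ring
      rw [e]
      exact hA3)
  show _ ≤ (sm (cpl S) (fun i => n * p i * wv x (w i)) (fun i => tx x (w i)) +
        sm S (fun i => n * p i * ξ i) (fun i => tx x (w i))).det
  refine le_trans ?_ hW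
  have hexp : 0 < Real.exp ((Dg S p w x).trace -
        n * ∑ i ∈ S, p i * (1 - ‖P (w i)‖ ^ 2) * (1 - a i) - κ) := Real.exp_pos _
  refine le_trans ?_ (mul_le_mul_of_nonneg_right hQ3 hexp.le)
  rw [← Real.exp_add]
  apply Real.exp_le_exp.mpr
  -- the sums
  have hsum : (n : ℝ) * ∑ i ∈ S, p i * ξ i - κ ≤ n * ∑ i ∈ S, p i * a i :=
    aux8 d n κ A S p a ξ hn0.le hp0 hd0 (by linarith) hpA hξa hξA hdA
  have e1 : ∑ i ∈ S, p i * ‖P (w i)‖ ^ 2 * (a i - b i) =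
      ∑ i ∈ S, p i * ‖P (w i)‖ ^ 2 * a i - ∑ i ∈ S, p i * ‖P (w i)‖ ^ 2 * b i := by
    rw [← Finset.sum_sub_distrib]
    apply Finset.sum_congr rfl
    intro i _
    ring
  have e2 : ∑ i ∈ S, p i * (1 - ‖P (w i)‖ ^ 2) * (1 - a i) =
      ∑ i ∈ S, p i * (1 - ‖P (w i)‖ ^ 2) - ∑ i ∈ S, p i * a i +
        ∑ i ∈ S, p i * ‖P (w i)‖ ^ 2 * a i := by
    rw [← Finset.sum_sub_distrib, ← Finset.sum_add_distrib]
    apply Finset.sum_congr rfl
    intro i _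
    ring
  rw [e1, e2]
  show (n : ℝ) * ∑ i ∈ S, p i * ‖P (w i)‖ ^ 2 * Real.log (b i) +
      (Dg S p w x).trace + n * ∑ i ∈ S, p i * ξ i -
      n * ∑ i ∈ S, p i * (1 - ‖P (w i)‖ ^ 2) -
      n * ∑ i ∈ S, p i * ‖P (w i)‖ ^ 2 * b i - 3 * κ ≤ _
  clear_value a b ξ
  generalize ∑ i ∈ S, p i * ξ i = s1 at hsum ⊢
  generalize ∑ i ∈ S, p i * a i = s2 at hsum ⊢
  generalize ∑ i ∈ S, p i * ‖P (w i)‖ ^ 2 * Real.log (b i) = s3
  generalize ∑ i ∈ S, p i * (1 - ‖P (w i)‖ ^ 2) = s4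
  generalize ∑ i ∈ S, p i * ‖P (w i)‖ ^ 2 * b i = s5
  generalize ∑ i ∈ S, p i * ‖P (w i)‖ ^ 2 * a i = s6
  rw [mul_sub, mul_add, mul_sub]
  linarith

end PPW
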