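import Pool.Agent.PPW.Defs

/-!
# Squad PPW (MP_0bf616_gt): statements of the modules.  Recipes: /team-store/MP_0bf616_PPW.md
-/

set_option autoImplicit false

namespace PPW

open MeasureTheory Set Filter Topology ProbabilityTheory
open PPI PPG PPX
open scoped Pointwise ENNReal

/-! ## A. Profiles -/

/-- the exponential distribution -/
def Stmt_EXB : Prop :=
  IsProbabilityMeasure ex ∧ (∀ s : ℝ, 0 ≤ s → ex {t | s < t} = ENNReal.ofReal (Real.exp (-s))) ∧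
  (∀ s : ℝ, 0 ≤ s → ex {t | t < s} ≤ ENNReal.ofReal s) ∧ (∀ᵐ t ∂ex, 0 < t) ∧
  Integrable (fun t : ℝ => t) ex ∧ ∫ t, t ∂ex = 1

/-- the averaged Gaussian profile -/
def Stmt_GZB : Prop :=
  ∀ a x t u : ℝ, 0 < a → 0 ≤ x → x ≤ 1 → 0 < t →
    zb (gp a) x t u = (2 * a ^ 2 * t + (1 - x)) ^ (-(1 / 2 : ℝ)) *
      Real.exp (-(x * u ^ 2 / (2 * (2 * a ^ 2 * t + (1 - x)))))

/-- the Gaussian profile -/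
def Stmt_GPB : Prop :=
  ∀ a : ℝ, 0 < a → (∀ s, 0 < gp a s ∧ gp a s ≤ 1 / a ∧ gp a (-s) = gp a s) ∧
    ContDiff ℝ 1 (gp a) ∧ (∀ s, |deriv (gp a) s| ≤ 1 / a ^ 2) ∧
    ∫⁻ s, ENNReal.ofReal (gp a s) = 2 ∧ ML (gp a) ≤ a ^ 2 ∧ EZ (gp a) = 1 - ML (gp a) ∧
    (1 + 2 * a ^ 2) ^ (-(1 / 2 : ℝ)) ≤ EZ (gp a)

/-- the Gaussian profile is good. Uses GZB, GPB, EXB -/
def Stmt_GPF : Prop :=
  ∃ C : ℝ, 0 < C ∧ ∀ a ω x : ℝ, 0 < a → a ≤ 1 → 0 ≤ x → x ≤ 22 / 25 → 0 < ω → ω ≤ 1 →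
    a ^ 2 ≤ ω → ω ≤ 100 * a ^ 2 → co (gp a) x ≤ ω → PF C ω x (gp a)

/-- the cost of the Gaussian profile. Uses GZB, GPB, EXB -/
def Stmt_GCO : Prop :=
  ∀ a x : ℝ, 0 < a → 0 ≤ x → x < 1 →
    Integrable (fun t => Real.log (1 - x + 2 * a ^ 2 * t) + x / (1 - x + 2 * a ^ 2 * t)) ex ∧
    co (gp a) x ≤ (1 - x) * (1 - (1 + 2 * a ^ 2) ^ (-(1 / 2 : ℝ))) +
      x / 2 * ∫ t, (Real.log (1 - x + 2 * a ^ 2 * t) + x / (1 - x + 2 * a ^ 2 * t)) ∂ex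

/-- small `x`. Uses GCO, EXB -/
def Stmt_GC1 : Prop :=
  (∀ x : ℝ, 0 < x → x ≤ 13 / 20 →
    co (gp √(x / 10)) x ≤ 199 / 200 * (1 - √(1 - x))) ∧
  ∀ x : ℝ, 0 ≤ x → x ≤ 1 / 100 → co (gp (1 / 10)) x ≤ 1 / 2

/-- the constants `kz`. Uses EXB -/
def Stmt_KAP : Prop :=
  (∀ z : ℝ, 0 < z → Integrable (fun t => 1 / (z + t)) ex ∧
    Integrable (fun t => Real.log (1 + t / z)) ex ∧ ∫ t, Real.log (1 + t / z) ∂ex = kz z) ∧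
  kz 1 ≤ 3 / 5 ∧ kz (3 / 10) ≤ 1226 / 1000 ∧ kz (3 / 20) ≤ 1706 / 1000 ∧
  kz (1 / 10) ≤ 2018 / 1000

/-- middle `x`. Uses GCO, KAP, EXB -/
def Stmt_GC2 : Prop :=
  ∀ x : ℝ, 13 / 20 ≤ x → x ≤ 22 / 25 → ∃ a : ℝ, 0 < a ∧ a ≤ 1 ∧ a ^ 2 ≤ x ∧
    x ≤ 100 * a ^ 2 ∧ co (gp a) x ≤ 199 / 200 * (1 - √(1 - x))

/-- the Student profile -/
def Stmt_SPB : Prop :=
  ∀ a : ℝ, 4 / 5 ≤ a → a ≤ 1 → (∀ s, 0 < sp a s ∧ sp a s ≤ 2 ∧ sp a (-s) = sp a s) ∧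
    ContDiff ℝ 1 (sp a) ∧ (∀ s, |deriv (sp a) s| ≤ 10) ∧
    ∫⁻ s, ENNReal.ofReal (sp a s) = 2 ∧ ML (sp a) ≤ 1 ∧ EZ (sp a) = 1 - ML (sp a) ∧
    2 / 3 + 2 * (1 - a ^ 2) / 15 ≤ EZ (sp a)

/-- the Student profile is good. Uses SPB, EXB -/
def Stmt_SPF : Prop :=
  (∀ a x : ℝ, 4 / 5 ≤ a → a ≤ 1 → 22 / 25 ≤ x → x ≤ 1 →
    Integrable (fun z : ℝ × ℝ => Real.log (zb (sp a) x z.1 z.2)) (ex.prod ga1)) ∧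
  ∃ C : ℝ, 0 < C ∧ ∀ a x : ℝ, 4 / 5 ≤ a → a ≤ 1 → 22 / 25 ≤ x → x ≤ 1 → co (sp a) x ≤ x →
    PF C x x (sp a)

/-- the integral `LV`. Uses EXB -/
def Stmt_SLV : Prop :=
  ∀ V : ℝ, 0 ≤ V →
    Integrable (fun z : ℝ × ℝ => Real.log (1 + V * z.2 ^ 2 / (2 * z.1))) (ex.prod ga1) ∧
    LV V ≤ 2 - 2 * Real.log 2 + (V - 1) / 3

/-- Euler's constant. Uses EXB -/
def Stmt_SEG : Prop :=
  Integrable (fun t => Real.log (2 * t)) ex ∧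
    ∫ t, Real.log (2 * t) ∂ex ≤ Real.log 2 - 57 / 100

/-- lower bound for `EL`. Uses SPB, SPF, SLV, SEG, EXB -/
def Stmt_SCO : Prop :=
  ∀ a k v x : ℝ, 4 / 5 ≤ a → a ≤ 1 → 0 ≤ k → k ≤ 1 → 0 < v → v ≤ 1 → 22 / 25 ≤ x → x ≤ 1 →
    1 / 2 * Real.log (Real.pi / 2) - 1 / 2 * ∫ t, Real.log (2 * t) ∂ex - Real.log a -
      3 / 2 * LV (((1 - k * √(1 - x)) ^ 2 * x + (1 - x) * v) / a ^ 2) -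
      1 / 2 * (k ^ 2 * x + v - 1 - Real.log v) ≤ EL (sp a) x

/-- large `x`. Uses SPB, SLV, SEG, SCO -/
def Stmt_SNU : Prop :=
  ∀ x : ℝ, 22 / 25 ≤ x → x ≤ 1 → co (sp (87 / 100)) x ≤ 199 / 200 * (1 - √(1 - x))

/-- all profiles. Uses GPF, GC1, GC2, SPF, SNU -/
def Stmt_NUM : Prop :=
  ∃ C : ℝ, 0 < C ∧
    (∀ x : ℝ, 0 < x → x ≤ 1 → ∃ c, PF C x x c ∧ co c x ≤ 199 / 200 * (1 - √(1 - x))) ∧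
    ∀ x : ℝ, 0 ≤ x → x ≤ 1 / 100 → ∃ c, PF C 1 x c ∧ co c x ≤ 1 / 2

/-! ## B. Gaussian measures -/

/-- the mixture. Uses EXB, PPI.AVE, PPX.MUN -/
def Stmt_GMX : Prop :=
  ∀ n : ℕ, 1 ≤ n → Measurable (pt : ℝ × EE n → EE n) ∧ (pm n).map pt = mun n

/-- laws -/
def Stmt_GLA : Prop :=
  (∀ (n : ℕ) (w : EE n) (F : ℝ → ℝ≥0∞), Measurable F →
    ∫⁻ y, F (inner ℝ y w) ∂(gam n) = ∫⁻ v, F (‖w‖ * v) ∂ga1) ∧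
  ∀ (n m : ℕ) (P : EE n →L[ℝ] EE n) (F : EE n → ℝ≥0∞), PR m P → Measurable F →
    ∫⁻ y, ∫⁻ y', F (P y + (y' - P y')) ∂(gam n) ∂(gam n) = ∫⁻ y, F y ∂(gam n)

/-- norms. Uses GLA -/
def Stmt_GNM : Prop :=
  ∀ n : ℕ, (∀ (m : ℕ) (P : EE n →L[ℝ] EE n), PR m P →
    ∫⁻ y, ENNReal.ofReal (‖P y‖ ^ 2) ∂(gam n) = m) ∧
    ∫⁻ y, ENNReal.ofReal ((‖y‖ ^ 2 - n) ^ 2) ∂(gam n) = 2 * n

/-- rotations -/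
def Stmt_GRT : Prop :=
  ∀ (n : ℕ) (θ : ℝ) (F : EE n × EE n → ℝ≥0∞), Measurable F →
    ∫⁻ y, ∫⁻ y', F (Real.cos θ • y + Real.sin θ • y', Real.cos θ • y' - Real.sin θ • y)
      ∂(gam n) ∂(gam n) = ∫⁻ y, ∫⁻ y', F (y, y') ∂(gam n) ∂(gam n)

/-- the Gaussian Poincaré inequality. Uses GRT, GLA -/
def Stmt_GPI : Prop :=
  ∀ (n : ℕ) (F : EE n → ℝ) (l : ℝ), ContDiff ℝ 1 F → (∀ y, ‖fderiv ℝ F y‖ ≤ l) →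
    Integrable F (gam n) ∧ Integrable (fun y => (F y - ∫ y', F y' ∂(gam n)) ^ 2) (gam n) ∧
    ∫ y, (F y - ∫ y', F y' ∂(gam n)) ^ 2 ∂(gam n) ≤
      Real.pi ^ 2 / 8 * ∫ y, ‖fderiv ℝ F y‖ ^ 2 ∂(gam n)

/-- concentration of matrices. Uses GPI -/
def Stmt_POM : Prop :=
  ∀ (n : ℕ) (ι : Type) [Fintype ι] (S : Finset ι) (μ l : ι → ℝ) (h f : ι → EE n)
    (φ : ι → ℝ → ℝ) (Λ : ℝ), (∀ i ∈ S, 0 ≤ μ i) → (∀ i ∈ S, ContDiff ℝ 1 (φ i)) →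
    (∀ i ∈ S, ∀ s, |deriv (φ i) s| ≤ l i) →
    (∀ e : EE n, ∑ i ∈ S, μ i * (inner ℝ (f i) e) ^ 2 ≤ Λ * ‖e‖ ^ 2) →
    ∫⁻ y, ENNReal.ofReal (hs (sm S (fun i => μ i * (φ i (inner ℝ y (f i)) -
        ∫ y', φ i (inner ℝ y' (f i)) ∂(gam n))) h)) ∂(gam n) ≤
      ENNReal.ofReal (2 * Λ * ∑ i ∈ S, μ i * l i ^ 2 * ‖h i‖ ^ 4)

/-- the law of `ab`. Uses GLA -/
def Stmt_LAB : Prop :=
  ∀ (n m : ℕ) (c : ℝ → ℝ) (P : EE n →L[ℝ] EE n) (w : EE n), PR m P → ‖w‖ = 1 →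
    Continuous c → (∃ M, ∀ s, |c s| ≤ M) →
    (∀ z, ab c P w z = √(Real.pi / 2) * sg z.1 * ∫ v, c (sg z.1 * (inner ℝ z.2 (P w) +
      √(1 - ‖P w‖ ^ 2) * v)) ∂ga1) ∧
    Measurable (ab c P w) ∧ Measurable (fun z : ℝ × ℝ => zb c (‖P w‖ ^ 2) z.1 z.2) ∧
    ∀ F : ℝ → ℝ≥0∞, Measurable F →
      ∫⁻ z, F (ab c P w z) ∂(pm n) =
        ∫⁻ z : ℝ × ℝ, F (zb c (‖P w‖ ^ 2) z.1 z.2) ∂(ex.prod ga1)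

/-- the mean of `zb`. Uses EXB -/
def Stmt_EAB : Prop :=
  ∀ (c : ℝ → ℝ) (x : ℝ), 0 ≤ x → x ≤ 1 → Continuous c → (∀ s, 0 ≤ c s) →
    ∫⁻ s, ENNReal.ofReal (c s) ≤ 2 →
    ∫⁻ z : ℝ × ℝ, ENNReal.ofReal (zb c x z.1 z.2) ∂(ex.prod ga1) = ENNReal.ofReal (EZ c) ∧
    0 ≤ EZ c ∧ EZ c ≤ 1 ∧ 0 ≤ ML c

/-- comparison of `aa` and `ab`. Uses GLA, POM -/
def Stmt_QAB : Prop :=
  ∀ (n m : ℕ) (ι : Type) [Fintype ι] (P : EE n →L[ℝ] EE n) (S : Finset ι) (p d : ι → ℝ)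
    (w : ι → EE n) (c : ι → ℝ → ℝ) (Λ R : ℝ), 16 ≤ n → IS p w → PR m P → 1 ≤ R →
    (∀ i ∈ S, ContDiff ℝ 1 (c i)) → (∀ i ∈ S, ∀ s, |deriv (c i) s| ≤ d i) →
    (∀ i ∈ S, ∃ M, ∀ s, |c i s| ≤ M) →
    (∀ e : EE n, (n : ℝ) * ∑ i ∈ S, p i * (inner ℝ (w i - P (w i)) e) ^ 2 ≤ Λ * ‖e‖ ^ 2) →
    ∫⁻ z in {z : ℝ × EE n | 0 < z.1 ∧ sg z.1 ≤ R}, ENNReal.ofReal (hs (sm S (fun i =>
        n * p i * ((1 - de n) * (aa (c i) (w i) z - ab (c i) P (w i) z)))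
        (fun i => P (w i)))) ∂(pm n) ≤
      ENNReal.ofReal (4 * Λ * R ^ 4 * (n * ∑ i ∈ S, p i * d i ^ 2 * ‖P (w i)‖ ^ 4))

/-! ## C. Linear algebra -/

/-- perturbation of determinants -/
def Stmt_PTB : Prop :=
  ∀ (n : ℕ) (N E : Matrix (Fin n) (Fin n) ℝ) (lam ε : ℝ), 0 < lam → 0 ≤ ε → ε ≤ lam / 2 →
    (N - lam • (1 : Matrix (Fin n) (Fin n) ℝ)).PosSemidef → E.transpose = E →
    hs E ≤ ε ^ 2 →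
    (N + E - (lam - ε) • (1 : Matrix (Fin n) (Fin n) ℝ)).PosSemidef ∧
    N.det * Real.exp (E.trace - √(hs (N - 1)) * ε / lam - ε ^ 2 / lam ^ 2) ≤ (N + E).det

/-- Ball's inequality -/
def Stmt_BAL : Prop :=
  ∀ (n : ℕ) (ι : Type) [Fintype ι] (S : Finset ι) (μ α : ι → ℝ) (h : ι → EE n),
    (∀ i ∈ S, 0 ≤ μ i) → (∀ i ∈ S, 0 < α i) → (1 - sm S μ h).PosSemidef →
    Real.exp (∑ i ∈ S, μ i * ‖h i‖ ^ 2 * Real.log (α i)) ≤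
      (1 - sm S (fun i => μ i * (1 - α i)) h).det

/-- the first correction increases the determinant -/
def Stmt_MD0 : Prop :=
  ∀ (n m : ℕ) (ι : Type) [Fintype ι] (S : Finset ι) (μ α y : ι → ℝ) (h : ι → EE n)
    (P : EE n →L[ℝ] EE n) (z : EE n), PR m P → (∀ i ∈ S, 0 ≤ μ i ∧ 0 ≤ α i) →
    (∀ i ∈ S, P (h i) = h i) → P z = 0 → (1 - sm S μ h).PosSemidef →
    (1 - sm S μ h + sm S α h).det ≤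
      (1 - sm S μ h + sm S α (fun i => h i + y i • z)).det

/-- bounds for the corrected matrix -/
def Stmt_MLB : Prop :=
  ∀ (n m : ℕ) (ι : Type) [Fintype ι] (S : Finset ι) (μ α y : ι → ℝ) (h : ι → EE n)
    (P : EE n →L[ℝ] EE n) (z : EE n) (L : ℝ), PR m P → (∀ i ∈ S, 0 ≤ μ i ∧ 0 ≤ α i) →
    (∀ i ∈ S, P (h i) = h i) → P z = 0 → ‖z‖ ≤ 1 → (1 - sm S μ h).PosSemidef → 1 ≤ L →
    ∑ i ∈ S, α i * y i ^ 2 ≤ L →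
    (1 - sm S μ h + sm S α h - L⁻¹ • (1 : Matrix (Fin n) (Fin n) ℝ)).PosSemidef →
    hs (sm S α h - sm S μ h) ≤ L ^ 2 →
    (1 - sm S μ h + sm S α (fun i => h i + y i • z) -
      (8 * L ^ 2)⁻¹ • (1 : Matrix (Fin n) (Fin n) ℝ)).PosSemidef ∧
    hs (sm S α (fun i => h i + y i • z) - sm S μ h) ≤ (5 * L) ^ 2

/-- the other corrections -/
def Stmt_EST : Prop :=
  ∀ (n m : ℕ) (ι : Type) [Fintype ι] (S : Finset ι) (μ a y : ι → ℝ) (w : ι → EE n)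
    (P : EE n →L[ℝ] EE n) (z : EE n) (A Λ Φ ρ : ℝ), PR m P →
    (∀ i ∈ S, 0 ≤ μ i ∧ 0 ≤ a i ∧ a i ≤ A ∧ ‖w i‖ = 1) → ‖z‖ ≤ 1 → ‖P z‖ ≤ ρ →
    ∑ i ∈ S, μ i ≤ A → 1 ≤ A → 0 ≤ Λ → 0 ≤ Φ → 0 ≤ ρ →
    (∀ e : EE n, ∑ i ∈ S, μ i * (inner ℝ (w i - P (w i)) e) ^ 2 ≤ Λ * ‖e‖ ^ 2) →
    ∑ i ∈ S, μ i * a i * y i ^ 2 ≤ Φ →
    hs (sm S (fun i => μ i * a i) (fun i => w i + y i • z) - sm S μ w -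
        (sm S (fun i => μ i * a i) (fun i => P (w i) + y i • (z - P z)) -
          sm S μ (fun i => P (w i)))) ≤
      (3 * √(Λ * A) + 6 * √((A * Λ + Φ * ρ ^ 2) * (A ^ 2 + Φ))) ^ 2 ∧
    ((∀ i ∈ S, 0 ≤ y i * inner ℝ (w i) z) →
      -∑ i ∈ S, μ i * (1 - ‖P (w i)‖ ^ 2) * (1 - a i) ≤
        (sm S (fun i => μ i * a i) (fun i => w i + y i • z) - sm S μ w -
        (sm S (fun i => μ i * a i) (fun i => P (w i) + y i • (z - P z)) -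
          sm S μ (fun i => P (w i)))).trace)

/-- the whole matrix at a point. Uses PTB, MD0, MLB, EST -/
def Stmt_PWB : Prop :=
  ∀ (n m : ℕ) (ι : Type) [Fintype ι] (S : Finset ι) (p a ξ : ι → ℝ) (w : ι → EE n)
    (P : EE n →L[ℝ] EE n) (x : EE n) (L A κ Λ ρ : ℝ), 1 ≤ n → IS p w → PR m P → 1 ≤ L →
    L ≤ A → 0 < κ → κ ≤ 1 → 0 ≤ Λ → 0 ≤ ρ → (∀ i ∈ S, 0 ≤ a i ∧ a i ≤ A ∧ a i ≤ ξ i) →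
    (n : ℝ) * ∑ i ∈ S, p i ≤ A →
    (∀ e : EE n, (n : ℝ) * ∑ i ∈ S, p i * (inner ℝ (w i - P (w i)) e) ^ 2 ≤ Λ * ‖e‖ ^ 2) →
    ‖P x‖ ≤ ρ * (1 + √(1 + ‖x‖ ^ 2)) →
    (n : ℝ) * ∑ i ∈ S, p i * a i * (inner ℝ x (w i)) ^ 2 ≤ L →
    (Qm S P p w a - L⁻¹ • (1 : Matrix (Fin n) (Fin n) ℝ)).PosSemidef →
    hs (Qm S P p w a - 1) ≤ L ^ 2 → hs (Dg S p w x) ≤ (κ / (200 * L ^ 4)) ^ 2 →
    A ^ 3 * (Λ + ρ ^ 2) * L ^ 8 * 2400 ^ 2 ≤ κ ^ 2 →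
    (Qm S P p w a).det * Real.exp ((Dg S p w x).trace -
        n * ∑ i ∈ S, p i * (1 - ‖P (w i)‖ ^ 2) * (1 - a i) - κ) ≤
      (sm (cpl S) (fun i => n * p i * wv x (w i)) (fun i => tx x (w i)) +
        sm S (fun i => n * p i * ξ i) (fun i => tx x (w i))).det

open Classical in
/-- comparison of `Q_a` and `Q_b`. Uses PTB, BAL -/
def Stmt_QBB : Prop :=
  ∀ (n m : ℕ) (ι : Type) [Fintype ι] (S : Finset ι) (p a b : ι → ℝ) (w : ι → EE n)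
    (P : EE n →L[ℝ] EE n) (L κ : ℝ), 1 ≤ n → IS p w → PR m P → 8 ≤ L → 0 < κ → κ ≤ 1 →
    (∀ i ∈ S, 0 < b i) →
    (n : ℝ) * ∑ i ∈ S, p i * ‖P (w i)‖ ^ 2 * (if b i < 4 / L then 1 else 0) ≤ 1 / 2 →
    (n : ℝ) * ∑ i ∈ S, p i * ‖P (w i)‖ ^ 2 * (1 + b i) ≤ L / 2 →
    hs (sm S (fun i => n * p i * (a i - b i)) (fun i => P (w i))) ≤ (κ / L ^ 2) ^ 2 →
    (Qm S P p w a - L⁻¹ • (1 : Matrix (Fin n) (Fin n) ℝ)).PosSemidef ∧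
    hs (Qm S P p w a - 1) ≤ L ^ 2 ∧
    Real.exp (n * ∑ i ∈ S, p i * ‖P (w i)‖ ^ 2 * Real.log (b i) +
      n * ∑ i ∈ S, p i * ‖P (w i)‖ ^ 2 * (a i - b i) - κ) ≤ (Qm S P p w a).det

/-- lower bound for the determinant at good points. Uses PWB, QBB, CN2, LAB -/
def Stmt_PTW : Prop :=
  ∃ n₀ : ℕ, ∀ (n m : ℕ) (ι : Type) [Fintype ι] (S : Finset ι) (p : ι → ℝ) (w : ι → EE n)
    (c : ι → ℝ → ℝ) (P : EE n →L[ℝ] EE n) (R L A κ Λ : ℝ) (z : ℝ × EE n), n₀ ≤ n →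
    IS p w → PR m P → 1 ≤ R → R ^ 2 ≤ (n : ℝ) ^ (3 / 4 : ℝ) → 8 ≤ L → L ≤ A → 0 < κ →
    κ ≤ 1 → 0 ≤ Λ → (n : ℝ) * ∑ i ∈ S, p i ≤ A →
    (∀ i ∈ S, Continuous (c i) ∧ ∀ s, 0 < c i s ∧ 2 * R * c i s ≤ A) →
    (∀ e : EE n, (n : ℝ) * ∑ i ∈ S, p i * (inner ℝ (w i - P (w i)) e) ^ 2 ≤ Λ * ‖e‖ ^ 2) →
    A ^ 3 * (Λ + 4 / √(n : ℝ)) * L ^ 8 * 2400 ^ 2 ≤ κ ^ 2 → 4 * de n * A ^ 2 ≤ κ →
    GD R L A κ P S p w c z →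
    Real.exp (n * ∑ i ∈ S, p i * ‖P (w i)‖ ^ 2 * Real.log ((1 - de n) * ab (c i) P (w i) z) +
      (Dg S p w (pt z)).trace + n * ∑ i ∈ S, p i * xi (c i) (pt z) (w i) -
      n * ∑ i ∈ S, p i * (1 - ‖P (w i)‖ ^ 2) -
      n * ∑ i ∈ S, p i * ‖P (w i)‖ ^ 2 * ((1 - de n) * ab (c i) P (w i) z) - 3 * κ) ≤
      (Mx S p w c (pt z)).det

/-! ## D. The narrow part -/

/-- the kernel. Uses PPX.KEN -/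
def Stmt_KE2 : Prop :=
  ∀ n : ℕ, 4 ≤ n → ∃ c : ℕ → ℝ, (∀ k, 0 ≤ c k ∧ c k ≤ 2) ∧ c 1 ≤ 1 / 2 + 2 / (n : ℝ) ∧
    (∀ s : ℝ, s ^ 2 ≤ 1 → HasSum (fun k : ℕ => c k * s ^ (2 * k)) (kk n s)) ∧
    HasSum (fun k : ℕ => c k * smo n k) 1 ∧
    (∀ s : ℝ, s ^ 2 ≤ 1 → 0 ≤ kk n s ∧ kk n s ≤ 8 * √(n : ℝ)) ∧
    ∀ (m : ℕ) (s θ : ℝ), 0 < θ → θ ^ 2 ≤ 1 - s ^ 2 →
      kk n s ≤ ∑ k ∈ Finset.range (m + 1), c k * s ^ (2 * k) + 2 / θ * s ^ (2 * (m + 1))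

/-- positivity. Uses PPX.TPD, PPX.SMM -/
def Stmt_TP2 : Prop :=
  ∀ (n : ℕ) (ι : Type) [Fintype ι] (g : Finset ι) (p : ι → ℝ) (w : ι → EE n) (k : ℕ),
    1 ≤ n → (∀ i, 0 ≤ p i) → (∀ i, ‖w i‖ = 1) → 0 ≤ TG g p w k

/-- quadratic means. Uses PPX.PMM, PPX.SMM, TP2, PPX.SPH -/
def Stmt_PS2 : Prop :=
  ∀ (n : ℕ) (ι : Type) [Fintype ι] (g : Finset ι) (p : ι → ℝ) (w : ι → EE n) (k l : ℕ),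
    2 ≤ n → (∀ i, 0 ≤ p i) → (∀ i, ‖w i‖ = 1) → 2 ≤ k → 2 ≤ l →
    ∫ v, FG g p w k v * FG g p w l v ∂(sph n) ≤
      smo n (k + l) * ∑ r ∈ Finset.Icc 1 (min k l), TG g p w r ∧
    ∫ v, inner ℝ (GG g p w k v) (GG g p w l v) ∂(sph n) ≤
      4 * k * l * smo n (k + l - 1) * ∑ r ∈ Finset.Icc 1 (min k l), TG g p w r

/-- the moments are controlled by `D`. Uses PPX.WLD, PS2, TP2, PPX.SMB, PPX.SMM, PPX.SPH -/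
def Stmt_TB2 : Prop :=
  ∀ M : ℕ, ∃ (C : ℝ) (n₀ : ℕ), 0 < C ∧ ∀ (n : ℕ) (ι : Type) [Fintype ι] (S : Finset ι)
    (p : ι → ℝ) (w : ι → EE n) (D q : ℝ), n₀ ≤ n → IS p w → MI p w D → 1 / (n : ℝ) ≤ q →
    (∀ e : EE n, ‖e‖ = 1 → (n : ℝ) * ∑ i ∈ cpl S, p i * (inner ℝ (w i) e) ^ 4 ≤ q) →
    (n : ℝ) ^ 2 * ∑ k ∈ Finset.Icc 2 M, TG (cpl S) p w k ≤
      C * (q * D + (n * ∑ i ∈ S, p i + (n * ∑ i ∈ S, p i) ^ 2) / n)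

/-- a mixed mean. Uses PPX.EW1, PPX.RD1, PPX.MUN, PPX.C1D, PPI.AVE -/
def Stmt_GMA : Prop :=
  ∀ (n : ℕ) (a b : EE n), 2 ≤ n → ‖a‖ = 1 → ‖b‖ = 1 →
    Integrable (fun x : EE n => wv x a * (inner ℝ (tx x a) b) ^ 2) (mun n) ∧
    ∫ x, wv x a * (inner ℝ (tx x a) b) ^ 2 ∂(mun n) ≤ (inner ℝ a b) ^ 2 + 2 / (n : ℝ) ^ 2

/-- the second moments of the narrow part. Uses GMA, PPX.EW1, PPX.IN3, PPX.KGM, PPX.MUN -/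
def Stmt_XE2 : Prop :=
  ∀ (n : ℕ) (ι : Type) [Fintype ι] (S : Finset ι) (p : ι → ℝ) (w : ι → EE n), 2 ≤ n →
    IS p w →
    Integrable (fun x => hs (Dg S p w x)) (mun n) ∧
    ∫ x, hs (Dg S p w x) ∂(mun n) ≤
      (n : ℝ) ^ 2 * (∑ i ∈ cpl S, ∑ j ∈ cpl S, p i * p j * (kk n (inner ℝ (w i) (w j)) -
        om n * √(1 - (inner ℝ (w i) (w j)) ^ 2))) - n + 2 * (n * ∑ i ∈ S, p i) -
        B2 S p w + 4 * (n * ∑ i ∈ S, p i) / n ∧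
    Integrable (fun x => (Dg S p w x).trace) (mun n) ∧
    ∫ x, (Dg S p w x).trace ∂(mun n) = 0 ∧
    Integrable (fun x => (Dg S p w x).trace ^ 2) (mun n) ∧
    ∫ x, (Dg S p w x).trace ^ 2 ∂(mun n) =
      (n : ℝ) ^ 2 * (∑ i ∈ cpl S, ∑ j ∈ cpl S, p i * p j * kk n (inner ℝ (w i) (w j))) -
        (n - n * ∑ i ∈ S, p i) ^ 2

/-- upper bounds. Uses XE2, KE2, TP2, PPX.MMS, PPX.BTS, PPX.SMB, PPX.CNB -/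
def Stmt_XU2 : Prop :=
  ∀ m : ℕ, 2 ≤ m → ∃ C : ℝ, 0 < C ∧ ∀ (n : ℕ) (ι : Type) [Fintype ι] (S : Finset ι)
    (p : ι → ℝ) (w : ι → EE n) (θ : ℝ), 4 ≤ n → IS p w → 0 < θ → θ ≤ 1 →
    ∫ x, hs (Dg S p w x) ∂(mun n) ≤
      C / θ * ((n : ℝ) ^ 2 * ∑ k ∈ Finset.Icc 2 (m + 1), TG (cpl S) p w k +
        (n : ℝ) ^ (1 - (m : ℝ))) +
      C * ((n * ∑ i ∈ S, p i + (n * ∑ i ∈ S, p i) ^ 2) / n) +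
      ∑ i ∈ cpl S, p i * JJ θ p w i ∧
    ∫ x, (Dg S p w x).trace ^ 2 ∂(mun n) ≤ B2 S p w +
      C / θ * ((n : ℝ) ^ 2 * ∑ k ∈ Finset.Icc 2 (m + 1), TG (cpl S) p w k +
        (n : ℝ) ^ (1 - (m : ℝ))) +
      C * ((n * ∑ i ∈ S, p i + (n * ∑ i ∈ S, p i) ^ 2) / n) +
      ∑ i ∈ cpl S, p i * JJ θ p w i

/-! ## E. The coefficients `xi` -/

/-- first moments. Uses PPX.RD1, PPX.CNB, PPX.MUN, PPI.AVE -/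
def Stmt_XI1 : Prop :=
  ∀ (n : ℕ) (a : EE n) (c : ℝ → ℝ), 2 ≤ n → ‖a‖ = 1 → Continuous c → (∀ s, 0 ≤ c s) →
    ∫⁻ s, ENNReal.ofReal (c s) ≤ 2 →
    Integrable (fun x : EE n => xi c x a) (mun n) ∧ ∫ x, xi c x a ∂(mun n) = EZ c ∧
    Integrable (fun x : EE n => xi c x a * (inner ℝ x a) ^ 2) (mun n) ∧
    ∫ x, xi c x a * (inner ℝ x a) ^ 2 ∂(mun n) = ML c

/-- second moments. Uses PPX.RD2, PPX.CNB, PPX.MUN, PPI.AVE -/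
def Stmt_XI2 : Prop :=
  ∀ (n : ℕ) (a b : EE n) (c c' : ℝ → ℝ) (M : ℝ), 2 ≤ n → ‖a‖ = 1 → ‖b‖ = 1 →
    Continuous c → Continuous c' → (∀ s, 0 ≤ c s) → (∀ s, 0 ≤ c' s) →
    (∀ s, c (-s) = c s) → (∀ s, c' (-s) = c' s) → ∫⁻ s, ENNReal.ofReal (c s) ≤ 2 →
    ∫⁻ s, ENNReal.ofReal (c' s) ≤ 2 → (∀ s, c' s ≤ M) →
    Integrable (fun x : EE n => xi c x a * xi c' x b) (mun n) ∧
    ∫ x, xi c x a * xi c' x b ∂(mun n) ≤ 2 * M ∧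
    ((inner ℝ a b) ^ 2 ≤ 1 / 4 → ∫ x, xi c x a * xi c' x b ∂(mun n) ≤
      EZ c * EZ c' + ML c * ML c' + 2 * (inner ℝ a b) ^ 2)

/-- linear algebra of the special set -/
def Stmt_BBB : Prop :=
  ∀ (n m : ℕ) (ι : Type) [Fintype ι] (S : Finset ι) (p : ι → ℝ) (w : ι → EE n)
    (P : EE n →L[ℝ] EE n) (Λ : ℝ), 1 ≤ n → IS p w → PR m P →
    (∀ e : EE n, (n : ℝ) * ∑ i ∈ S, p i * (inner ℝ (w i - P (w i)) e) ^ 2 ≤ Λ * ‖e‖ ^ 2) →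
    (n : ℝ) ^ 2 * ∑ i ∈ S, ∑ j ∈ S, p i * p j *
      (inner ℝ (w i - P (w i)) (w j - P (w j))) ^ 2 ≤ Λ * (n * ∑ i ∈ S, p i) ∧
    B2 S p w ≤ 2 * (n * ∑ i ∈ S, p i * ‖P (w i)‖ ^ 2) ^ 2 + 2 * (Λ * (n * ∑ i ∈ S, p i))

/-- the variance. Uses XI1, XI2, BBB, EAB -/
def Stmt_VTW : Prop :=
  ∀ C : ℝ, 0 < C → ∃ n₀ : ℕ, ∀ (n m : ℕ) (ι : Type) [Fintype ι] (P : EE n →L[ℝ] EE n)
    (S : Finset ι) (p ω : ι → ℝ) (w : ι → EE n) (c : ι → ℝ → ℝ), n₀ ≤ n →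
    WS C m P S p ω w c →
    Integrable (fun x => (n * ∑ i ∈ S, p i * (xi (c i) x (w i) - EZ (c i))) ^ 2) (mun n) ∧
    ∫ x, (n * ∑ i ∈ S, p i * (xi (c i) x (w i) - EZ (c i))) ^ 2 ∂(mun n) ≤ Real.log n ^ 5

/-! ## F. Selection -/

/-- the constant `c_n`. Uses PPX.CNB -/
def Stmt_CN2 : Prop :=
  ∀ n : ℕ, 2 ≤ n → √(2 * n / Real.pi) ≤ PPX.cn n ∧ PPX.cn n ≤ √(2 * (n + 1) / Real.pi)

/-- the subspace of the heavy directions. Uses PPX.QBD -/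
def Stmt_SEL : Prop :=
  ∃ n₀ : ℕ, ∀ (n : ℕ) (ι : Type) [Fintype ι] (p : ι → ℝ) (w : ι → EE n) (D q : ℝ), n₀ ≤ n →
    IS p w → MI p w D → 8 / (n : ℝ) ≤ q →
    ∃ (m : ℕ) (e : Fin m → EE n), Orthonormal ℝ e ∧ (m : ℝ) * q ≤ 400 * D ∧
      ∀ v : EE n, ‖v‖ = 1 → (∀ j, inner ℝ (e j) v = (0 : ℝ)) →
        (n : ℝ) * ∑ i, p i * (inner ℝ (w i) v) ^ 4 ≤ q

/-- consequences -/
def Stmt_LMB : Prop :=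
  ∀ (n m : ℕ) (ι : Type) [Fintype ι] (p : ι → ℝ) (w : ι → EE n) (e : Fin m → EE n)
    (q η : ℝ), 1 ≤ n → IS p w → Orthonormal ℝ e → 0 ≤ q → 0 ≤ η →
    (∀ v : EE n, ‖v‖ = 1 → (∀ j, inner ℝ (e j) v = (0 : ℝ)) →
        (n : ℝ) * ∑ i, p i * (inner ℝ (w i) v) ^ 4 ≤ q) →
    PR m (pj e) ∧
    (∀ (S : Finset ι) (v : EE n), (n : ℝ) * ∑ i ∈ S, p i *
      (inner ℝ (w i - pj e (w i)) v) ^ 2 ≤ √(n * (∑ i ∈ S, p i) * q) * ‖v‖ ^ 2) ∧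
    ∀ g : Finset ι, (∀ i ∈ g, ‖pj e (w i)‖ ^ 2 ≤ η) → ∀ v : EE n, ‖v‖ = 1 →
      (n : ℝ) * ∑ i ∈ g, p i * (inner ℝ (w i) v) ^ 4 ≤ 8 * (η + q)

/-- the test body. Uses PPF.CAP, PPI.AVE -/
def Stmt_JTB : Prop :=
  ∀ A B : ℕ, ∃ n₀ : ℕ, ∀ (n m : ℕ) (ι : Type) [Fintype ι] (p : ι → ℝ) (w : ι → EE n)
    (D θ : ℝ) (e : Fin m → EE n) (S T : Finset ι), n₀ ≤ n → IS p w → MI p w D → 0 ≤ θ →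
    θ ≤ 1 → Orthonormal ℝ e → (m : ℝ) ≤ (n : ℝ) ^ (1 / 10 : ℝ) → Disjoint S T →
    (∀ i ∈ S, (n : ℝ) ^ (-(A : ℝ)) ≤ nm θ p w i) →
    (n : ℝ) * ∑ i ∈ S, p i * (1 - 2 * θ - (n : ℝ) ^ (-(1 / 5 : ℝ))) +
      n * ∑ i ∈ T, p i * (1 - √(1 - ‖pj e (w i)‖ ^ 2) - (n : ℝ) ^ (-(1 / 5 : ℝ))) ≤
      D + (n : ℝ) ^ (-(B : ℝ))

/-- the choice of the data. Uses NUM, SEL, LMB, JTB, TB2, XE2, XU2, BBB, PPX.LAY, PPX.KEN,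
PPG.CRE -/
def Stmt_WSE : Prop :=
  ∃ C : ℝ, 0 < C ∧ ∀ C₁ κ : ℝ, 0 < C₁ → 0 < κ → ∃ n₀ : ℕ, ∀ (n : ℕ) (ι : Type) [Fintype ι]
    (p : ι → ℝ) (w : ι → EE n) (D : ℝ), n₀ ≤ n → IS p w → MI p w D →
    D ≤ C₁ * Real.log n →
    ∃ (m : ℕ) (P : EE n →L[ℝ] EE n) (S : Finset ι) (ω : ι → ℝ) (c : ι → ℝ → ℝ),
      WS C m P S p ω w c ∧
      (n : ℝ) * ∑ i ∈ S, p i * co (c i) (‖P (w i)‖ ^ 2) ≤ 199 / 200 * D + κ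

/-! ## G. Probability and assembly -/

/-- simple events. Uses EXB, GNM -/
def Stmt_PB1 : Prop :=
  ∀ (n m : ℕ) (P : EE n →L[ℝ] EE n) (R : ℝ), 1 ≤ n → PR m P → 1 ≤ R →
    ∃ G : Set (ℝ × EE n), MeasurableSet G ∧
      (pm n) Gᶜ ≤ ENNReal.ofReal (Real.exp (-(R ^ 2 / 2)) + 1 / (2 * R ^ 2) +
        2 / √(n : ℝ) + m / √(n : ℝ)) ∧
      ∀ z ∈ G, 0 < z.1 ∧ R⁻¹ ≤ sg z.1 ∧ sg z.1 ≤ R ∧
        |‖z.2‖ ^ 2 - n| ≤ (n : ℝ) ^ (3 / 4 : ℝ) ∧ ‖P z.2‖ ^ 2 ≤ √(n : ℝ)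

open Classical in
/-- small coefficients. Uses LAB, EAB -/
def Stmt_PBL : Prop :=
  ∀ C : ℝ, 0 < C → ∃ n₀ : ℕ, ∀ (n m : ℕ) (ι : Type) [Fintype ι] (P : EE n →L[ℝ] EE n)
    (S : Finset ι) (p ω : ι → ℝ) (w : ι → EE n) (c : ι → ℝ → ℝ), n₀ ≤ n →
    WS C m P S p ω w c →
    ∃ G : Set (ℝ × EE n), MeasurableSet G ∧ (pm n) Gᶜ ≤ ENNReal.ofReal (Real.log n ^ (-9 : ℝ)) ∧
      ∀ z ∈ G, (n : ℝ) * ∑ i ∈ S, p i * ‖P (w i)‖ ^ 2 *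
          (if ab (c i) P (w i) z < 8 / Real.log n ^ 125 then 1 else 0) ≤ 1 / 2 ∧
        (n : ℝ) * ∑ i ∈ S, p i * ‖P (w i)‖ ^ 2 * (1 + ab (c i) P (w i) z) ≤
          Real.log n ^ 125 / 2

/-- comparison. Uses QAB -/
def Stmt_PBQ : Prop :=
  ∀ C κ : ℝ, 0 < C → 0 < κ → ∃ n₀ : ℕ, ∀ (n m : ℕ) (ι : Type) [Fintype ι]
    (P : EE n →L[ℝ] EE n) (S : Finset ι) (p ω : ι → ℝ) (w : ι → EE n) (c : ι → ℝ → ℝ),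
    n₀ ≤ n → WS C m P S p ω w c →
    ∃ G : Set (ℝ × EE n), MeasurableSet G ∧ (pm n) Gᶜ ≤ ENNReal.ofReal (Real.log n ^ (-9 : ℝ)) ∧
      ∀ z ∈ G, 0 < z.1 → sg z.1 ≤ Real.log n ^ 5 →
        hs (sm S (fun i => n * p i * ((1 - de n) * (aa (c i) (w i) z - ab (c i) P (w i) z)))
          (fun i => P (w i))) ≤ (κ / (Real.log n ^ 125) ^ 2) ^ 2

/-- the narrow part. Uses GMX, XI1 -/
def Stmt_PBD : Prop :=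
  ∀ C κ : ℝ, 0 < C → 0 < κ → ∃ n₀ : ℕ, ∀ (n m : ℕ) (ι : Type) [Fintype ι]
    (P : EE n →L[ℝ] EE n) (S : Finset ι) (p ω : ι → ℝ) (w : ι → EE n) (c : ι → ℝ → ℝ),
    n₀ ≤ n → WS C m P S p ω w c →
    ∃ G : Set (ℝ × EE n), MeasurableSet G ∧ (pm n) Gᶜ ≤ ENNReal.ofReal (Real.log n ^ (-9 : ℝ)) ∧
      ∀ z ∈ G, hs (Dg S p w (pt z)) ≤ (κ / (200 * (Real.log n ^ 125) ^ 4)) ^ 2 ∧
        (n : ℝ) * ∑ i ∈ S, p i * xi (c i) (pt z) (w i) * (inner ℝ (pt z) (w i)) ^ 2 ≤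
          Real.log n ^ 125

/-- the good set. Uses PB1, PBL, PBQ, PBD -/
def Stmt_PRB : Prop :=
  ∀ C κ : ℝ, 0 < C → 0 < κ → ∃ n₀ : ℕ, ∀ (n m : ℕ) (ι : Type) [Fintype ι]
    (P : EE n →L[ℝ] EE n) (S : Finset ι) (p ω : ι → ℝ) (w : ι → EE n) (c : ι → ℝ → ℝ),
    n₀ ≤ n → WS C m P S p ω w c →
    ∃ G : Set (ℝ × EE n), MeasurableSet G ∧ (pm n) Gᶜ ≤ ENNReal.ofReal (Real.log n ^ (-8 : ℝ)) ∧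
      ∀ z ∈ G, GD (Real.log n ^ 5) (Real.log n ^ 125) (Real.log n ^ 1103) κ P S p w c z

/-- the determinants. Uses PPX.ZDT, PPX.C1D, PPX.CNB -/
def Stmt_ZDW : Prop :=
  ∀ (n : ℕ) (ι : Type) [Fintype ι] (S : Finset ι) (p : ι → ℝ) (w : ι → EE n)
    (c : ι → ℝ → ℝ), 2 ≤ n → (∀ i, 0 ≤ p i) → (∀ i ∈ S, Continuous (c i)) →
    (∀ i ∈ S, ∀ s, 0 ≤ c i s) → (∀ i ∈ S, ∫⁻ s, ENNReal.ofReal (c i s) ≤ 2) →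
    Integrable (fun x => (Mx S p w c x).det) (mun n) ∧ (∀ x, 0 ≤ (Mx S p w c x).det) ∧
    X0 n * ∫ x, (Mx S p w c x).det ∂(mun n) ≤ XT p w

/-- integration of the good points. Uses GMX, ZDW, PTW, PRB, VTW, LAB, EAB, XI1 -/
def Stmt_WAN : Prop :=
  ∀ C κ : ℝ, 0 < C → 0 < κ → ∃ n₀ : ℕ, ∀ (n m : ℕ) (ι : Type) [Fintype ι]
    (P : EE n →L[ℝ] EE n) (S : Finset ι) (p ω : ι → ℝ) (w : ι → EE n) (c : ι → ℝ → ℝ),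
    n₀ ≤ n → WS C m P S p ω w c →
    X0 n * Real.exp (-(n * ∑ i ∈ S, p i * co (c i) (‖P (w i)‖ ^ 2)) - κ) ≤ XT p w

/-- THE WINDOW. Uses WSE, WAN -/
def Stmt_WMA : Prop :=
  ∀ c₀ C₁ : ℝ, 0 < c₀ → 0 < C₁ → ∃ n₀ : ℕ, ∀ (n : ℕ) (ι : Type) [Fintype ι] (p : ι → ℝ)
    (w : ι → EE n) (D : ℝ), n₀ ≤ n → IS p w → MI p w D → c₀ ≤ D → D ≤ C₁ * Real.log n →
    X0 n * Real.exp (D / 250) ≤ Real.exp D * XT p w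

end PPW
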